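import Pool.Agent.H18.PN.Pnt
import Pool.Agent.H71.AJW.Relb

/-!
# The own paths of a jointly nonfull pair of labels, on one event

`pair_ev`: `pair_nat` for the paths of two labels with one code: if the jets of the orders outside
`Iu`, `In` are few bits, the others natural, the values few bits, and the rows of each are not full
given the other of the same radius, then the coefficients of both paths are few bits.
-/

set_option autoImplicit false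

namespace Pool.PN18

open Finset Real MvPolynomial
open Pool.Agent.H49.Ent Pool.Agent.H32.Dense Pool.STK Pool.KA Pool.KSAT Pool.K2S Pool.PB Pool.GEN
open Pool.S6C Pool.LA91 Pool.OWN68 Pool.AJ18 Pool.PAIR76

/-- The jet of the path from the jet of the label. -/
theorem pj_few {m J : ℕ} {F : Fam m J} {w s N x : ℝ} (hw : 0 ≤ w) (hWJ : ⌊w * J⌋₊ ≤ J) {κ : Fin m}
    {V Γ : Type} {z' : LnT F → V} {G : V → MvPolynomial (Option (Fin m)) ℝ} {q : F.Ω → ℝ}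
    (hq : IsLaw q) (Y : F.Ω → Γ) (j : ℕ) (hN : s - j * w ≤ N + x) :
    CH q (fun ω => ⌊pj F (jR F ⌊w * J⌋₊ (2 ^ (s * J)) κ z' G) ⌊w * J⌋₊ j ω / 2 ^ (x * J)⌋) Y ≤
      CH q (fun ω => ⌊(2 : ℝ) ^ (N * J) * ojet F κ j (G (z' (slam F ⌊w * J⌋₊ ω))) ω⌋) Y +
        Real.log 5 := by
  have hJ0 : (0 : ℝ) ≤ J := Nat.cast_nonneg J
  have rp : ∀ x : ℝ, (0 : ℝ) < 2 ^ x := fun x => Real.rpow_pos_of_pos (by norm_num) x
  have hpj : ∀ ω : F.Ω, pj F (jR F ⌊w * J⌋₊ (2 ^ (s * J)) κ z' G) ⌊w * J⌋₊ j ω =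
      2 ^ (s * J) * (1 / 2 ^ (⌊w * J⌋₊ + 1)) ^ j *
        ojet F κ j (G (z' (slam F ⌊w * J⌋₊ ω))) ω := fun ω => jR_jet hWJ ω j
  have s1 := CH_le_add hq.nonneg
    (fun ω => ⌊pj F (jR F ⌊w * J⌋₊ (2 ^ (s * J)) κ z' G) ⌊w * J⌋₊ j ω / 2 ^ (x * J)⌋)
    (fun ω => ⌊(2 : ℝ) ^ (N * J) * ojet F κ j (G (z' (slam F ⌊w * J⌋₊ ω))) ω⌋) Y
  have s2 := CH_pair (D := 1 + 1) hq
    (fun ω => ⌊pj F (jR F ⌊w * J⌋₊ (2 ^ (s * J)) κ z' G) ⌊w * J⌋₊ j ω / 2 ^ (x * J)⌋)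
    (fun ω => (⌊(2 : ℝ) ^ (N * J) * ojet F κ j (G (z' (slam F ⌊w * J⌋₊ ω))) ω⌋, Y ω))
    (fun ω ω' _ _ e => by
      have h3 : |pj F (jR F ⌊w * J⌋₊ (2 ^ (s * J)) κ z' G) ⌊w * J⌋₊ j ω -
          pj F (jR F ⌊w * J⌋₊ (2 ^ (s * J)) κ z' G) ⌊w * J⌋₊ j ω'| ≤ 2 ^ (x * J) := by
        rw [hpj, hpj]
        refine Pool.OWN68.fl_scale (by positivity) ?_ (rp (N * J)) (Prod.ext_iff.mp e).1
        refine (scale_le hw J j).1.trans ?_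
        rw [← Real.rpow_add (by norm_num)]
        refine Real.rpow_le_rpow_of_exponent_le (by norm_num) ?_
        nlinarith
      refine floor_sub_le ?_
      rw [← sub_div, abs_div, abs_of_pos (rp _), div_le_iff₀ (rp _)]
      push_cast
      linarith)
  have s4 : Real.log (2 * ((1 + 1 : ℕ) : ℝ) + 1) = Real.log 5 := by norm_num
  rw [s4] at s2
  linarith

/-- **From the jets to the coefficients**, in units `E`. -/
theorem coe_few (D : ℕ) : ∃ C : ℝ, 0 ≤ C ∧ ∀ {m J : ℕ} (F : Fam m J) {q : F.Ω → ℝ} (_ : IsLaw q)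
    (R : LnT F → Polynomial ℝ) (w : ℕ) {Γ : Type} (Y : F.Ω → Γ) {e x : ℝ} (_ : 0 ≤ x),
    (∀ y, (R y).natDegree ≤ D) →
    (∀ ω ω', 0 < q ω → 0 < q ω' → Y ω = Y ω' → F.T ω = F.T ω') →
    (∀ j ≤ D, CH q (fun ω => ⌊pj F R w j ω / 2 ^ x⌋) Y ≤ e) →
    ∀ j, CH q (fun ω => ⌊(R (slam F w ω)).coeff j⌋) Y ≤ (D + 1) * e + C + x := by
  obtain ⟨C, hC, hcof⟩ := cof_small D
  refine ⟨Real.log (3 * (2 * C + 2)), ?_, ?_⟩
  · refine Real.log_nonneg ?_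
    linarith
  intro m J F q hq R w Γ Y e x hx hdeg hY hjet j
  have h0 := hq.nonneg
  have rp : ∀ x : ℝ, (0 : ℝ) < 2 ^ x := fun x => Real.rpow_pos_of_pos (by norm_num) x
  have he1 : (1 : ℝ) ≤ 2 ^ x := Real.one_le_rpow (by norm_num) hx
  obtain ⟨V, hV⟩ : ∃ V : F.Ω → Fin (D + 1) → ℤ, V = fun ω (j : Fin (D + 1)) =>
    ⌊pj F R w j ω / 2 ^ x⌋ := ⟨_, rfl⟩
  have hVc : CH q V Y ≤ (D + 1) * e := by
    refine (CH_pis h0 V Y).trans ?_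
    have h1 : ∀ j ∈ (univ : Finset (Fin (D + 1))), CH q (fun ω => V ω j) Y ≤ e := by
      intro j _
      rw [hV]
      exact hjet j (by omega)
    refine (Finset.sum_le_sum h1).trans (le_of_eq ?_)
    rw [Finset.sum_const, Finset.card_univ, Fintype.card_fin, nsmul_eq_mul]
    push_cast
    ring
  have s1 := CH_le_add h0 (fun ω => ⌊(R (slam F w ω)).coeff j⌋) V Y
  have s2 : CH q (fun ω => ⌊(R (slam F w ω)).coeff j⌋) (fun ω => (V ω, Y ω)) ≤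
      Real.log (2 * ((⌈C * 2 ^ x⌉₊ + 1 : ℕ) : ℝ) + 1) := by
    refine CH_pair hq _ _ fun ω ω' hω hω' e1 => ?_
    simp only [Prod.mk.injEq] at e1
    obtain ⟨e1, e2⟩ := e1
    have hTT := hY ω ω' hω hω' e2
    have hu : uw F w ω' = uw F w ω := by
      unfold uw tw
      rw [hTT]
    have hEd : (R (slam F w ω) - R (slam F w ω')).natDegree ≤ D :=
      (Polynomial.natDegree_sub_le _ _).trans (max_le (hdeg _) (hdeg _))
    have h3 := hcof (R (slam F w ω) - R (slam F w ω')) j (uw F w ω) (2 ^ x) hEd (uw_abs F w ω) (by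
      intro i _
      have e4 : (Polynomial.derivative^[i] (R (slam F w ω) - R (slam F w ω'))).eval
          (uw F w ω) = pj F R w i ω - pj F R w i ω' := by
        rw [Polynomial.iterate_derivative_sub, Polynomial.eval_sub]
        unfold pj
        rw [hu]
      by_cases hi : i ≤ D
      · rw [e4]
        rw [hV] at e1
        have e5 := congrFun e1 (⟨i, by omega⟩ : Fin (D + 1))
        exact of_floor_div (rp x) e5
      · rw [Polynomial.iterate_derivative_eq_zero (by omega), Polynomial.eval_zero, abs_zero]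
        exact (rp x).le)
    refine floor_sub_le ?_
    rw [← Polynomial.coeff_sub]
    exact h3.trans (Nat.le_ceil _)
  have s3 : Real.log (2 * ((⌈C * 2 ^ x⌉₊ + 1 : ℕ) : ℝ) + 1) ≤ Real.log (3 * (2 * C + 2)) + x := by
    have h3 := Nat.ceil_lt_add_one (show (0 : ℝ) ≤ C * 2 ^ x by positivity)
    have h4 : 2 * ((⌈C * 2 ^ x⌉₊ + 1 : ℕ) : ℝ) + 1 ≤ (3 * (2 * C + 2)) * 2 ^ x := by
      push_cast
      nlinarith [rp x]
    have h5 := Real.log_le_log (by positivity) h4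
    rw [Real.log_mul (by positivity) (rp x).ne', Real.log_rpow (by norm_num)] at h5
    have h7 : Real.log 2 ≤ 1 := by
      have := Real.log_two_lt_d9
      linarith
    nlinarith
  linarith

/-- The rows of the first label are not full given the second label of the same radius. -/
def RwE {m J : ℕ} (F : Fam m J) (A : F.Ω → Prop) (κ₁ κ₂ : Fin m) {V C : Type} (z' : LnT F → V)
    (G₁ G₂ : V → MvPolynomial (Option (Fin m)) ℝ) (c : LnT F → C) (w : ℕ)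
    (p₁ p₂ α₁ α₂ q h e c₀ : ℝ) (N₀ : ℕ) : Prop :=
  ∀ B : F.Ω → Prop, Sub B A → c₀ * Pe F.p A ≤ Pe F.p B → ∀ i j : ℕ, i ≤ j → j ≤ N₀ →
    CH (Pool.Agent.H49.Ent.cond F.p B True)
      (fun ω => ⌊(2 : ℝ) ^ ((p₁ + α₁ * (q - q * i / N₀)) * J) *
        ojet F κ₁ 0 (G₁ (z' (slam F w ω))) ω⌋)
      (fun ω => (⌊(2 : ℝ) ^ ((p₁ + α₁ * (q - q * j / N₀)) * J) *
        ojet F κ₁ 0 (G₁ (z' (slam F w ω))) ω⌋,
        (⌊(2 : ℝ) ^ ((p₂ + α₂ * (q - q * i / N₀)) * J) *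
          ojet F κ₂ 0 (G₂ (z' (slam F w ω))) ω⌋,
          (z' (slam F w ω), (c (slam F w ω), F.W ω))))) ≤
      ((α₁ - h) * ((q - q * i / N₀) - (q - q * j / N₀)) * Real.log 2 + e) * J

theorem RwE.nfog {m J : ℕ} {F : Fam m J} {A : F.Ω → Prop} (hA : 0 < Pe F.p A) {κ₁ κ₂ : Fin m}
    {V C : Type} {z' : LnT F → V} {G₁ G₂ : V → MvPolynomial (Option (Fin m)) ℝ} {c : LnT F → C}
    {w p₁ p₂ α₁ α₂ q h e c₀ : ℝ} {N₀ : ℕ} (hWJ : ⌊w * J⌋₊ ≤ J) (hc₀ : 0 < c₀)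
    (H : RwE F A κ₁ κ₂ z' G₁ G₂ c ⌊w * J⌋₊ p₁ p₂ α₁ α₂ q h e c₀ N₀) :
    NFog F A (jR F ⌊w * J⌋₊ (2 ^ ((p₁ + α₁ * q) * J)) κ₁ z' G₁)
      (jR F ⌊w * J⌋₊ (2 ^ ((p₂ + α₂ * q) * J)) κ₂ z' G₂) (fun x => (z' x, c x)) ⌊w * J⌋₊ α₁ α₂ q h e
      c₀ N₀ := by
  intro B hB hm i j hij hj
  have hPB : 0 < Pe F.p B := lt_of_lt_of_le (by positivity) hm
  have hBl : IsLaw (Pool.Agent.H49.Ent.cond F.p B True) := isLaw_cond F.isLaw hPB
  have h1 := H B hB hm i j hij hj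
  have e1 : ∀ (p α : ℝ) (κ : Fin m) (G : V → MvPolynomial (Option (Fin m)) ℝ) (x : ℝ) (ω : F.Ω),
      pj F (jR F ⌊w * J⌋₊ (2 ^ ((p + α * q) * J)) κ z' G) ⌊w * J⌋₊ 0 ω / 2 ^ ((α * x) * J) =
        (2 : ℝ) ^ ((p + α * (q - x)) * J) * ojet F κ 0 (G (z' (slam F ⌊w * J⌋₊ ω))) ω := by
    intro p α κ G x ω
    have e0 : pj F (jR F ⌊w * J⌋₊ (2 ^ ((p + α * q) * J)) κ z' G) ⌊w * J⌋₊ 0 ω =
        2 ^ ((p + α * q) * J) * (1 / 2 ^ (⌊w * J⌋₊ + 1)) ^ 0 *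
          ojet F κ 0 (G (z' (slam F ⌊w * J⌋₊ ω))) ω := jR_jet hWJ ω 0
    rw [e0, pow_zero, mul_one]
    have e2 : (2 : ℝ) ^ ((p + α * q) * J) = 2 ^ ((α * x) * J) * 2 ^ ((p + α * (q - x)) * J) := by
      rw [← Real.rpow_add (by norm_num)]
      congr 1
      ring
    have e3 : (0 : ℝ) < 2 ^ ((α * x) * J) := Real.rpow_pos_of_pos (by norm_num) _
    rw [e2]
    field_simp
  simp only [e1]
  refine (CH_mono_cond hBl.nonneg fun ω ω' _ _ e => ?_).trans (h1.trans (le_of_eq ?_))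
  · simp only [Prod.mk.injEq] at e ⊢
    exact ⟨e.1, e.2.1, e.2.2.1.1, e.2.2.1.2, e.2.2.2⟩
  · ring

/-- The jets of a label are few bits at the precisions `N`. -/
def JwE {m J : ℕ} (F : Fam m J) (A : F.Ω → Prop) (κ : Fin m) {V Γ : Type} (z' : LnT F → V)
    (G : V → MvPolynomial (Option (Fin m)) ℝ) (w D : ℕ) (N : ℕ → ℝ) (Y : F.Ω → Γ) (e : ℝ) : Prop :=
  ∀ j ≤ D, CH (Pool.Agent.H49.Ent.cond F.p A True)
    (fun ω => ⌊(2 : ℝ) ^ (N j * J) * ojet F κ j (G (z' (slam F w ω))) ω⌋) Y ≤ e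

/-- The precisions of the jets: full for the value and the orders outside `I`, natural for the
orders in `I`. -/
structure NwE (D : ℕ) (I : Finset ℕ) (w p α q : ℝ) (N : ℕ → ℝ) : Prop where
  nat : ∀ j ∈ I, p - j * w ≤ N j
  ful : ∀ j ≤ D, j ∉ I → p + α * q - j * w ≤ N j

/-- **The own paths of a jointly nonfull pair of labels**: the coefficients are few bits. -/
theorem pair_ev (D : ℕ) (hD : 1 ≤ D) {Iu In : Finset ℕ} (hu : ∀ i ∈ Iu, 1 ≤ i ∧ i ≤ D)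
    (hn : ∀ j ∈ In, 1 ≤ j ∧ j ≤ D) {α₁ α₂ : ℝ} (hα₁ : 0 < α₁) (hα₂ : 0 < α₂)
    (hres : ∀ i ∈ Iu, ∀ j ∈ In, (i : ℝ) * α₂ ≠ j * α₁) {h : ℝ} (hh : 0 < h)
    (hh1 : h ≤ α₁) (hh2 : h ≤ α₂) {ε : ℝ} (hε : 0 < ε) :
    ∃ δ : ℝ, 0 < δ ∧ ∃ c₀ : ℝ, 0 < c₀ ∧ ∃ N₀ : ℕ, 0 < N₀ ∧
    ∀ {w q : ℝ} (_ : 0 ≤ w) (_ : 0 < q) (_ : w + 2 * (α₁ + α₂) * q ≤ 1),
    ∃ J₀ : ℕ, ∀ J ≥ J₀, ∀ {m : ℕ} (F : Fam m J) (A : F.Ω → Prop) (_ : 0 < Pe F.p A)
      {κ₁ κ₂ : Fin m} {V C Γ : Type} (z' : LnT F → V)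
      (G₁ G₂ : V → MvPolynomial (Option (Fin m)) ℝ) (c : LnT F → C) (Y : F.Ω → Γ) {p₁ p₂ : ℝ}
      {N₁ N₂ : ℕ → ℝ},
    (∀ v, (X (some κ₁) - G₁ v).totalDegree ≤ D) → (∀ v, (X (some κ₂) - G₂ v).totalDegree ≤ D) →
    (J : ℝ) * Real.log 2 - δ * q * J ≤
      CH (Pool.Agent.H49.Ent.cond F.p A True) F.T (fun ω => (F.l ω, F.Z ω)) →
    (∀ ω ω', A ω → A ω' → Y ω = Y ω' → F.T ω = F.T ω' ∧ F.Z ω = F.Z ω') →
    CH (Pool.Agent.H49.Ent.cond F.p A True)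
      (fun ω => (z' (slam F ⌊w * J⌋₊ ω), c (slam F ⌊w * J⌋₊ ω))) Y ≤ δ * q * J →
    NwE D Iu w p₁ α₁ q N₁ → NwE D In w p₂ α₂ q N₂ →
    JwE F A κ₁ z' G₁ ⌊w * J⌋₊ D N₁ Y (δ * q * J) →
    JwE F A κ₂ z' G₂ ⌊w * J⌋₊ D N₂ Y (δ * q * J) →
    RwE F A κ₁ κ₂ z' G₁ G₂ c ⌊w * J⌋₊ p₁ p₂ α₁ α₂ q h (δ * q) c₀ N₀ →
    RwE F A κ₂ κ₁ z' G₂ G₁ c ⌊w * J⌋₊ p₂ p₁ α₂ α₁ q h (δ * q) c₀ N₀ →
    ∀ j, CH (Pool.Agent.H49.Ent.cond F.p A True)
      (fun ω => ⌊jr F ⌊w * J⌋₊ (2 ^ ((p₁ + α₁ * q) * J)) κ₁ z' G₁ j (slam F ⌊w * J⌋₊ ω)⌋) Y ≤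
        ε * q * J ∧
      CH (Pool.Agent.H49.Ent.cond F.p A True)
      (fun ω => ⌊jr F ⌊w * J⌋₊ (2 ^ ((p₂ + α₂ * q) * J)) κ₂ z' G₂ j (slam F ⌊w * J⌋₊ ω)⌋) Y ≤
        ε * q * J := by
  obtain ⟨ε₁, hε₁⟩ : ∃ ε₁ : ℝ, ε₁ = ε / (D + 3) := ⟨_, rfl⟩
  have hε₁0 : 0 < ε₁ := by
    rw [hε₁]
    positivity
  have hεe : (D + 3) * ε₁ = ε := by
    rw [hε₁]
    field_simp
  obtain ⟨δ₁, hδ₁, c₀, hc₀, N₀, hN₀, H⟩ := pair_nat D hD hu hn hα₁ hα₂ hres hh hh1 hh2 hε₁0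
  obtain ⟨C, hC, hcoe⟩ := coe_few D
  obtain ⟨δ, hδ⟩ : ∃ δ : ℝ, δ = min (δ₁ / 2) (ε₁ / 2) := ⟨_, rfl⟩
  have hδ0 : 0 < δ := by
    rw [hδ]
    exact lt_min (by positivity) (by positivity)
  have hd1 : δ ≤ δ₁ / 2 := by rw [hδ]; exact min_le_left _ _
  have hd2 : δ ≤ ε₁ / 2 := by rw [hδ]; exact min_le_right _ _
  refine ⟨δ, hδ0, c₀, hc₀, N₀, hN₀, ?_⟩
  intro w q hw hq hwq
  obtain ⟨J₁, H⟩ := H (w := w) (μ := q) hw hq hwq
  obtain ⟨J₂, hJ₂⟩ := exists_nat_ge (Real.log 5 / (δ * q) + C / (ε₁ * q))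
  refine ⟨max J₁ J₂, ?_⟩
  intro J hJ m F A hA κ₁ κ₂ V C' Γ z' G₁ G₂ c Y p₁ p₂ N₁ N₂ hg1 hg2 htim hkey hctx hN1 hN2 hj1 hj2
    hr1 hr2
  have hw1 : w ≤ 1 := by nlinarith
  have hWJ : ⌊w * J⌋₊ ≤ J := by
    refine Nat.floor_le_of_le ?_
    have hJ0 : (0 : ℝ) ≤ J := Nat.cast_nonneg J
    nlinarith
  have hJ0 : (0 : ℝ) ≤ J := Nat.cast_nonneg J
  have hJ2 : (J₂ : ℝ) ≤ J := by exact_mod_cast (le_max_right _ _).trans hJ
  have t0 : 0 ≤ Real.log 5 := Real.log_nonneg (by norm_num)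
  have t1 : 0 ≤ Real.log 5 / (δ * q) := by positivity
  have t2 : 0 ≤ C / (ε₁ * q) := by positivity
  have k5 : Real.log 5 ≤ δ * q * J := by
    have h1 : Real.log 5 / (δ * q) ≤ J := by linarith
    rw [div_le_iff₀ (by positivity)] at h1
    linarith
  have kC : C ≤ ε₁ * q * J := by
    have h1 : C / (ε₁ * q) ≤ J := by linarith
    rw [div_le_iff₀ (by positivity)] at h1
    linarith
  have hqJ : 0 ≤ q * J := by positivity
  have kd1 : 2 * (δ * q * J) ≤ δ₁ * q * J := by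
    have := mul_le_mul_of_nonneg_right hd1 hqJ
    linarith
  have kd2 : 2 * (δ * q * J) ≤ ε₁ * q * J := by
    have := mul_le_mul_of_nonneg_right hd2 hqJ
    linarith
  have kd0 : 0 ≤ δ * q * J := by positivity
  obtain ⟨q', hq'⟩ : ∃ q' : F.Ω → ℝ, q' = Pool.Agent.H49.Ent.cond F.p A True := ⟨_, rfl⟩
  have hq'l : IsLaw q' := by
    rw [hq']
    exact isLaw_cond F.isLaw hA
  have h0 := hq'l.nonneg
  unfold JwE at hj1 hj2
  rw [← hq'] at htim hctx hj1 hj2 ⊢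
  -- the jets of the paths
  have ful : ∀ {κ : Fin m} {G : V → MvPolynomial (Option (Fin m)) ℝ} {p α : ℝ} {N : ℕ → ℝ}
      {I : Finset ℕ}, NwE D I w p α q N →
      (∀ j ≤ D, CH q' (fun ω => ⌊(2 : ℝ) ^ (N j * J) *
        ojet F κ j (G (z' (slam F ⌊w * J⌋₊ ω))) ω⌋) Y ≤ δ * q * J) → ∀ j ≤ D, j ∉ I →
      CH q' (fun ω => ⌊pj F (jR F ⌊w * J⌋₊ (2 ^ ((p + α * q) * J)) κ z' G) ⌊w * J⌋₊ j ω⌋) Y ≤
        δ₁ * q * J := by
    intro κ G p α N I hN hj j hjD hjI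
    have h1 := pj_few (F := F) (w := w) (s := p + α * q) (N := N j) (x := 0) hw hWJ (κ := κ)
      (z' := z') (G := G) hq'l Y j (by linarith [hN.ful j hjD hjI])
    simp only [zero_mul, Real.rpow_zero, div_one] at h1
    linarith [hj j hjD]
  have nat : ∀ {κ : Fin m} {G : V → MvPolynomial (Option (Fin m)) ℝ} {p α : ℝ} {N : ℕ → ℝ}
      {I : Finset ℕ}, (∀ i ∈ I, 1 ≤ i ∧ i ≤ D) → NwE D I w p α q N →
      (∀ j ≤ D, CH q' (fun ω => ⌊(2 : ℝ) ^ (N j * J) *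
        ojet F κ j (G (z' (slam F ⌊w * J⌋₊ ω))) ω⌋) Y ≤ δ * q * J) → ∀ j ∈ I,
      CH q' (fun ω => ⌊pj F (jR F ⌊w * J⌋₊ (2 ^ ((p + α * q) * J)) κ z' G) ⌊w * J⌋₊ j ω /
        2 ^ ((α * q) * J)⌋) Y ≤ δ₁ * q * J := by
    intro κ G p α N I hI hN hj j hjI
    have h1 := pj_few (F := F) (w := w) (s := p + α * q) (N := N j) (x := α * q) hw hWJ (κ := κ)
      (z' := z') (G := G) hq'l Y j (by linarith [hN.nat j hjI])
    linarith [hj j (hI j hjI).2]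
  have i0 : ∀ {I : Finset ℕ}, (∀ i ∈ I, 1 ≤ i ∧ i ≤ D) → (0 : ℕ) ∉ I := fun h h1 => by
    have := (h 0 h1).1
    omega
  have key := H J ((le_max_left _ _).trans hJ) F A hA
    (jR F ⌊w * J⌋₊ (2 ^ ((p₁ + α₁ * q) * J)) κ₁ z' G₁)
    (jR F ⌊w * J⌋₊ (2 ^ ((p₂ + α₂ * q) * J)) κ₂ z' G₂) (fun x => (z' x, c x)) Y
    ⟨fun x => natDegree_jR hg1 x, fun x => natDegree_jR hg2 x, by rw [← hq']; linarith, hkey,
      by rw [← hq']; linarith, by rw [← hq']; exact ful hN1 hj1 0 (by omega) (i0 hu),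
      by rw [← hq']; exact ful hN2 hj2 0 (by omega) (i0 hn),
      fun j _ hj hI => by rw [← hq']; exact ful hN1 hj1 j hj hI,
      fun j _ hj hI => by rw [← hq']; exact ful hN2 hj2 j hj hI,
      fun j hj => by rw [← hq']; exact nat hu hN1 hj1 j hj,
      fun j hj => by rw [← hq']; exact nat hn hN2 hj2 j hj⟩
    (by
      have h1 := hr2.nfog hA hWJ hc₀
      intro B hB hm i j hij hj
      refine (h1 B hB hm i j hij hj).trans (mul_le_mul_of_nonneg_right ?_ hJ0)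
      have : δ * q ≤ δ₁ * q := mul_le_mul_of_nonneg_right (by linarith) hq.le
      linarith)
    (by
      have h1 := hr1.nfog hA hWJ hc₀
      intro B hB hm i j hij hj
      refine (h1 B hB hm i j hij hj).trans (mul_le_mul_of_nonneg_right ?_ hJ0)
      have : δ * q ≤ δ₁ * q := mul_le_mul_of_nonneg_right (by linarith) hq.le
      linarith)
  rw [← hq'] at key
  have hE0 : 0 ≤ ε₁ * q * J := by positivity
  have hT : ∀ ω ω', 0 < q' ω → 0 < q' ω' → Y ω = Y ω' → F.T ω = F.T ω' := by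
    intro ω ω' hω hω' e
    rw [hq'] at hω hω'
    exact (hkey ω ω' (of_cond_pos hω) (of_cond_pos hω') e).1
  have fin : ∀ {κ : Fin m} {G : V → MvPolynomial (Option (Fin m)) ℝ} {p α : ℝ} {N : ℕ → ℝ}
      {I : Finset ℕ}, (∀ v, (X (some κ) - G v).totalDegree ≤ D) → (0 : ℕ) ∉ I →
      NwE D I w p α q N →
      (∀ j ≤ D, CH q' (fun ω => ⌊(2 : ℝ) ^ (N j * J) *
        ojet F κ j (G (z' (slam F ⌊w * J⌋₊ ω))) ω⌋) Y ≤ δ * q * J) →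
      (∀ j, 1 ≤ j → j ≤ D → CH q' (fun ω => ⌊pj F (jR F ⌊w * J⌋₊ (2 ^ ((p + α * q) * J)) κ z' G)
        ⌊w * J⌋₊ j ω / 2 ^ (ε₁ * q * J)⌋) Y ≤ ε₁ * q * J) →
      ∀ j, CH q' (fun ω => ⌊jr F ⌊w * J⌋₊ (2 ^ ((p + α * q) * J)) κ z' G j
        (slam F ⌊w * J⌋₊ ω)⌋) Y ≤ ε * q * J := by
    intro κ G p α N I hg hI0 hN hj hk j
    have h1 := hcoe F hq'l (jR F ⌊w * J⌋₊ (2 ^ ((p + α * q) * J)) κ z' G) ⌊w * J⌋₊ Y
      (e := ε₁ * q * J) (x := ε₁ * q * J) hE0 (fun x => natDegree_jR hg x) hT (fun i hi => by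
        rcases Nat.eq_zero_or_pos i with hi0 | hi0
        · subst hi0
          have h2 := pj_few (F := F) (w := w) (s := p + α * q) (N := N 0) (x := ε₁ * q) hw hWJ
            (κ := κ) (z' := z') (G := G) hq'l Y 0 (by
              have := hN.ful 0 (by omega) hI0
              have h3 : 0 ≤ ε₁ * q := by positivity
              linarith)
          linarith [hj 0 (by omega)]
        · exact hk i hi0 hi) j
    refine h1.trans ?_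
    rw [← hεe]
    linarith
  exact fun j => ⟨fin hg1 (i0 hu) hN1 hj1 (fun i h1 h2 => (key i h1 h2).1) j,
    fin hg2 (i0 hn) hN2 hj2 (fun i h1 h2 => (key i h1 h2).2) j⟩

end Pool.PN18
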