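import Pool.Agent.H18.PN.Pzu
import Pool.Agent.H60.ALT.Nz1

/-!
# The pairs of labels with a natural second label

`PsQ`: a nested chain of labels of the window `v`; the label of the coordinate `c (r + 1)` is natural,
over a label of the family `Ψ₀` closed at an earlier window `vn`, and there is a natural label of the
window `t` over the same label (`NzQ`); the code `cc` is the context.
-/

set_option autoImplicit false

namespace Pool.PN18

open Finset Real MvPolynomial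
open Pool.Agent.H49.Ent Pool.Agent.H32.Dense Pool.STK Pool.KA Pool.KSAT Pool.K2S Pool.PB Pool.GEN
open Pool.S6C Pool.RCD Pool.LA91 Pool.OWN68 Pool.AJW Pool.AJX Pool.CHT
open Pool.ALT (Fml NzQ NzF NzL NzO)

/-- **The pairs of labels**: a nested chain of labels at the window `v`, the last one natural. -/
def PsQ {m : ℕ} (Ψ₀ : Fml m) (c : ℕ → Fin m) (r D K : ℕ)
    (vn v t p₁ p₂ eN uN pN pa₁ pa₂ ea ua pa lam e : ℝ) (E rd p n : ℕ → ℝ) : Fm2 m :=
  fun J F A V C z z' G₁ G₂ cc => ∃ g : V → ℕ → MvPolynomial (Option (Fin m)) ℝ,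
    LbX F c 0 (r + 2) K e E v rd p A z z' g ∧ G₁ = (fun x => g x r) ∧
    G₂ = (fun x => g x (r + 1)) ∧
    NzQ Ψ₀ c r (c (r + 1)) D D D D vn v p₁ p₂ eN uN pN t pa₁ pa₂ ea ua pa J F A V z z' G₂ ∧
    (∃ φ : C → (Fin m → ℤ × ℤ) × (ℕ → ℕ → ℤ), ∀ x,
      ctxN F c 0 r ⌊v * J⌋₊ ⌊(v + lam) * J⌋₊ K z' g n x = φ (cc x)) ∧
    ∃ ψ : V × ((Fin m → ℤ × ℤ) × (ℕ → ℕ → ℤ)) → C, ∀ x,
      cc x = ψ (z' x, ctxN F c 0 r ⌊v * J⌋₊ ⌊(v + lam) * J⌋₊ K z' g n x)

end Pool.PN18
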