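import Pool.Agent.H18.PN.Stg8

/-!
# Near digits over the labels of a window

`far_of_n`, `JfN.near_n`: as `far_of`, `JfN.near`, with the digits `n l - j v` of the window `v` at the
window `w`. `qjets_F1`: the jets of order `0`, `1` of the chain over other labels.
-/

set_option autoImplicit false

namespace Pool.PN18

open Finset Real MvPolynomial
open Pool.Agent.H49.Ent Pool.Agent.H32.Dense Pool.STK Pool.KA Pool.KSAT Pool.K2S Pool.PB Pool.GEN
open Pool.S6C Pool.RCD Pool.LA91 Pool.OWN68 Pool.AJW Pool.AJX Pool.CHT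
open Pool.GRD (LbP)

section

variable {m : ℕ} {S : PCl m} {C₀ : ℝ} {c : ℕ → Fin m} {r : ℕ} {sn : ℕ → ℝ → ℝ} {G : Set ℝ}
  {v w X φ lam kf : ℝ} {v₀ pf : ℕ → ℝ} {Nf : ℕ → ℕ → ℝ} {K : ℕ}

/-- **The far digits**, from the digits `n l - j v` over the labels of `w`. -/
theorem far_of_n (hch : ChG S c (r + 1) sn G) (H : JfN r sn G v w X φ lam kf v₀ K)
    (hpf : ∀ l < r, sn l w - φ ≤ pf l)
    (hNf : ∀ l < r, ∀ j ≤ 1, nX r sn v X l - (j : ℕ) * v ≤ Nf l j) :
    FarV S c 0 r v₀ v w lam φ (fun i => sn i (v₀ i)) (fun i => sn i v) (fun i => sn i w) pf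
      (nX r sn v X) (fun l => aX r X l - 2 * φ) (fun l => aX r X l - (w - v) - 2 * φ) Nf := by
  obtain ⟨uv, rv, hrv, hcv⟩ := hch.ch v H.vG
  obtain ⟨uw, rw, hrw, hcw⟩ := hch.ch w H.wG
  have hvw := H.vw
  have hφ := H.φ0
  have hX := H.XK
  have hφX := H.φX
  have hkf := H.kfX
  have hlam := H.lamk
  have hl1 := H.l1
  have hKD : 0 ≤ (K : ℝ) * (w - v) := mul_nonneg (Nat.cast_nonneg K) (by linarith)
  have hXD : 12 * (w - v) ≤ X := by nlinarith
  have hX0 : 0 ≤ X := by linarith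
  have hrφ : 0 ≤ (r : ℝ) * φ := mul_nonneg (Nat.cast_nonneg r) hφ.le
  have hX1 : 32 * φ ≤ X := by nlinarith
  have hXk : X ≤ kf := by
    have h1 : (1 : ℝ) ≤ 3 ^ r := one_le_pow₀ (by norm_num)
    nlinarith
  have ha : ∀ l < r, X ≤ aX r X l := fun l _ => aX_ge hX0 l
  have hak : ∀ l < r, 3 * aX r X l ≤ kf := fun l hl => (aX_le hX0 hl).trans hkf
  have hfl : ∀ i < r, sn i v + (w - v) - φ ≤ sn i w ∧ sn i w ≤ sn i v + (w - v) + φ :=
    fun i hi => by
      have := abs_le.1 (H.fl i hi)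
      exact ⟨by linarith [this.1], by linarith [this.2]⟩
  have hfv : ∀ i < r, sn i v - (v - v₀ i) - φ ≤ sn i (v₀ i) := fun i hi => by
    have := abs_le.1 (H.v₀G i hi).2.2.2
    linarith [this.2]
  have hv0 : ∀ i < r, v - 3 / 2 * aX r X i ≤ v₀ i ∧ v₀ i ≤ v - 9 / 8 * aX r X i :=
    fun i hi => ⟨(H.v₀G i hi).2.1, (H.v₀G i hi).2.2.1⟩
  have hms : ∀ i < r, sn i w - φ ≤ min (pf i) (sn i w) := fun i hi =>
    le_min (hpf i hi) (by linarith)
  have hmn : ∀ i < r, sn i v - 2 * φ ≤ min (pf i) (sn i v) := fun i hi =>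
    le_min (by linarith [(hfl i hi).1, hpf i hi]) (by linarith)
  have hmv : ∀ i < r, sn i v - (v - v₀ i) - φ ≤ min (sn i (v₀ i)) (sn i v) := fun i hi =>
    le_min (hfv i hi) (by linarith [(hv0 i hi).2, ha i hi])
  refine
    { vn := hcv.w0
      v0 := fun i _ hi => ?_
      vv := fun i _ hi => by linarith [(hv0 i hi).2, ha i hi]
      vw := hvw.le
      σ0 := hφ
      wl := by linarith
      l1 := hl1.le
      cw := ⟨uw, rw, hcw.take (Nat.zero_le _) (Nat.le_succ r), fun l _ hl => hrw l (by omega)⟩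
      cv := ⟨uv, rv, hcv.take (Nat.zero_le _) (Nat.le_succ r), fun l _ hl => hrv l (by omega)⟩
      a0 := fun i _ hi => ?_
      w0 := fun l _ hl => by linarith [ha l hl]
      w1 := fun l _ hl j hj => ?_
      w2 := fun l _ hl => ?_
      w3 := fun l _ hl l' _ hl' => ?_
      w4 := fun l _ hl j hj => hNf l hl j hj
      w5 := fun l _ hl => ?_
      w6 := fun l _ hl l' _ hl' => ?_
      lv0 := fun l _ hl => by linarith [ha l hl]
      h1 := fun l _ hl => ?_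
      h2 := fun l _ hl => ?_
      h3 := fun i _ hi l _ hl => ?_
      h4 := fun i _ hi => ?_ }
  · obtain ⟨u', r', -, hc'⟩ := hch.ch (v₀ i) (H.v₀G i hi).1
    exact hc'.w0
  · obtain ⟨u', r', hr', hc'⟩ := hch.ch (v₀ i) (H.v₀G i hi).1
    exact ⟨r' i, hr' i (by omega), hc'.att i (Nat.zero_le _) (by omega)⟩
  · have h1 := hNf l hl j hj
    have h2 := (hfl l hl).2
    have h3 : 0 ≤ (j : ℝ) * (w - v) := mul_nonneg (Nat.cast_nonneg j) (by linarith)
    show sn l w + (aX r X l - (w - v) - 2 * φ) + φ ≤ Nf l j + (j : ℕ) * w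
    unfold nX at h1
    linarith
  · have h1 := hak l hl
    have h2 := hms l hl
    have h3 := ha l hl
    show sn l w + (aX r X l - (w - v) - 2 * φ) + φ ≤ min (pf l) (sn l w) + (v + lam - w)
    linarith
  · have h1 := aX_nest hX0 hl' hl
    have h2 := ha l hl
    have h3 := hms l hl
    show sn l w + (aX r X l - (w - v) - 2 * φ) + φ ≤
      min (pf l) (sn l w) + (aX r X l' - (w - v) - 2 * φ)
    linarith
  · have h1 := hak l hl
    have h2 := ha l hl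
    have h3 := hmn l hl
    show nX r sn v X l + (w - v) + φ ≤ min (pf l) (sn l v) + (v + lam - w)
    unfold nX
    linarith
  · have h1 := aX_nest hX0 hl' hl
    have h2 := ha l hl
    have h3 := hmn l hl
    show nX r sn v X l + (w - v) + φ ≤ min (pf l) (sn l v) + (aX r X l' - (w - v) - 2 * φ)
    unfold nX
    linarith
  · show sn l v + (aX r X l - 2 * φ) + φ ≤ nX r sn v X l
    unfold nX
    linarith
  · have h1 := hak l hl
    have h2 := ha l hl
    have h3 := hmv l hl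
    have h4 := hv0 l hl
    show nX r sn v X l + φ ≤ min (sn l (v₀ l)) (sn l v) + lam
    unfold nX
    linarith [h4.1]
  · have h1 := aX_nest hX0 hl hi
    have h2 := ha i hi
    have h3 := hmv i hi
    have h4 := hv0 i hi
    show nX r sn v X i + φ ≤ min (sn i (v₀ i)) (sn i v) + (aX r X l - 2 * φ)
    unfold nX
    linarith [h4.1]
  · have h2 := ha i hi
    have h3 := hfv i hi
    have h4 := hv0 i hi
    show nX r sn v X i + φ ≤ sn i (v₀ i) + 2 * (v - v₀ i)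
    unfold nX
    linarith [h4.2]

/-- **The near jets of the chain** over the labels of `v`, from the digits `n l - j v` over the labels
of `w`. -/
theorem _root_.Pool.AJW.JfN.near_n (H : JfN r sn G v w X φ lam kf v₀ K) (htm : TmC S C₀)
    (hch : ChG S c (r + 1) sn G) (hpf : ∀ l < r, sn l w - φ ≤ pf l)
    (hNf : ∀ l < r, ∀ j ≤ 1, nX r sn v X l - (j : ℕ) * v ≤ Nf l j) :
    JetA S (fun J F => ptr F J) (vg w) (fun _ F => F.T)
      (qJets m c 0 r 1 (fun _ _ => w) (fun l _ => pf l) Nf) c 0 r v (fun i => sn i v)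
      (nX r sn v X) (φ / 8) := by
  obtain ⟨uw, rw, hrw, hcw⟩ := hch.ch w H.wG
  exact far_jetV htm (far_of_n hch H hpf hNf) le_rfl hcw.u0.le ptr_id (kn_T c _ _)

end

section

variable {m : ℕ} {S : PCl m} {C₀ : ℝ} {α γ : ∀ J : ℕ, Fam m J → Type}
  {f : ∀ (J : ℕ) (F : Fam m J), F.Ω → α J F} {y : ∀ (J : ℕ) (F : Fam m J), F.Ω → γ J F}
  {c : ℕ → Fin m} {r₀ r : ℕ} {w u₀ u₁ : ℝ} {s rd lw : ℕ → ℝ} {wv pv Nv wt pt Nt : ℕ → ℕ → ℝ}
  {p₀ lam σ : ℝ}

/-- **The jets of order `0`, `1` of the chain over other labels**, all windows `≤ w`. -/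
theorem qjets_F1 (htm : TmC S C₀) (hch : Chn S c r₀ r w u₀ u₁ s rd)
    (hwv : ∀ l, r₀ ≤ l → l < r → ∀ j ≤ 1, wv l j ≤ w)
    (hwt : ∀ l, r₀ ≤ l → l < r → ∀ j ≤ 1, wt l j ≤ w) (hu0 : u₀ < p₀) (hp0 : p₀ ≤ 1)
    (hlam : 0 < lam) (hσ : 0 < σ) (w0 : ∀ l, r₀ ≤ l → l < r → 0 < lw l)
    (w1 : ∀ l, r₀ ≤ l → l < r → ∀ j ≤ 1, s l + lw l + σ ≤ Nv l j + (j : ℕ) * u₀)
    (w2 : ∀ l, r₀ ≤ l → l < r → ∀ j ≤ 1, s l + lw l + σ ≤
      min (pv l j) (s l) + min lam (p₀ - u₀))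
    (w3 : ∀ l, r₀ ≤ l → l < r → ∀ j ≤ 1, ∀ l', r₀ ≤ l' → l' < l →
      s l + lw l + σ ≤ min (pv l j) (s l) + lw l')
    (w4 : ∀ l, r₀ ≤ l → l < r → ∀ j ≤ 1, Nt l j ≤ Nv l j)
    (w5 : ∀ l, r₀ ≤ l → l < r → ∀ j ≤ 1, Nt l j + (j : ℕ) * u₀ + σ ≤
      min (pv l j) (pt l j) + min lam (p₀ - u₀))
    (w6 : ∀ l, r₀ ≤ l → l < r → ∀ j ≤ 1, ∀ l', r₀ ≤ l' → l' < l →
      Nt l j + (j : ℕ) * u₀ + σ ≤ min (pv l j) (pt l j) + lw l')
    (hf : ∀ (J : ℕ) (F : Fam m J), ∃ φ : α J F → PtT F, ∀ ω, ptr F J ω = φ (f J F ω))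
    (hy : Kn ((range r₀).image c) p₀ lam y) {h : ℝ} (hh : 0 < h) :
    F1 S f (vg w) y (qJets m c r₀ r 1 wv pv Nv) (qJets m c r₀ r 1 wt pt Nt) (σ / 8) h := by
  have h1 : (0 : ℝ) < ((r * (1 + 1) : ℕ) : ℝ) + 1 := by positivity
  have key : ∀ η : ℝ, 0 < η → ∀ l, r₀ ≤ l → l < r → ∀ j ≤ 1, F1 S f (vg w) y
      (qJets m c r₀ r 1 wv pv Nv)
      (qJet m ((range l).image c) (c l) j (wt l j) (pt l j) (Nt l j)) (σ / 8) η := by
    intro η hη l hl0 hl j hj
    have k1 := jetN_F1 (y := y) (f := f) htm (hch.take hl0 hl.le) (k := c l)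
      (j := j) (lv := lw) (p₀ := p₀) (lam := lam) (σ₀ := σ) (w₁ := wv l j) (w₂ := wt l j)
      (p₁ := pv l j) (p₂ := pt l j) (N₁ := Nv l j) (N₂ := Nt l j)
      (wv := wv) (pv := pv) (Nv := Nv)
      (fun i x y j' hj' => hwv i x (by omega) j' (by omega)) (hwv l hl0 hl j hj)
      (hwt l hl0 hl j hj) hu0 hp0 hlam hσ (fun i x y => w0 i x (by omega))
      (fun i x y j' hj' => w1 i x (by omega) j' (by omega))
      (fun i x y j' hj' => w2 i x (by omega) j' (by omega))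
      (fun i x y j' hj' l' x' y' => w3 i x (by omega) j' (by omega) l' x' y')
      (w4 l hl0 hl j hj) (w5 l hl0 hl j hj) (fun l' x y => w6 l hl0 hl j hj l' x y) hf hy hη
    refine F1.pull htm (Q₁ := (qJets m c r₀ l j wv pv Nv).prod
        (qJet m ((range l).image c) (c l) j (wv l j) (pv l j) (Nv l j)))
      (fun u => ((fun i' j' => if i' < l ∧ j' ≤ j then u i' j' else 0), u l j)) ?_ k1
    intro K e J F A u hu
    refine ⟨⟨fun i' a b' j' c' => ?_, fun ω hω i' j' h' => ?_⟩, ?_⟩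
    · have e1 := hu.1 i' a (b'.trans hl) j' (c'.trans hj)
      show (qJet m _ _ _ _ _ _).P K e J F A (fun ω => if i' < l ∧ j' ≤ j then u ω i' j' else 0)
      simp only [if_pos (show i' < l ∧ j' ≤ j from ⟨b', c'⟩)]
      exact e1
    · show (if i' < l ∧ j' ≤ j then u ω i' j' else 0) = 0
      split_ifs with h3
      · exact hu.2 ω hω i' j' fun h4 => h' ⟨h4.1, h3.1, h3.2⟩
      · rfl
    · exact hu.1 l hl0 hl j hj
  have h2 := F1.qjets htm (Q := qJets m c r₀ r 1 wv pv Nv) (c := c) (r₀ := r₀) (r := r) (j := 1)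
    (w := wt) (p := pt) (N := Nt)
    (η := h / (((r * (1 + 1) : ℕ) : ℝ) + 1)) (by positivity)
    (fun i x y j' hj' => key _ (by positivity) i x y j' hj')
  refine h2.mono le_rfl ?_
  rw [mul_div_assoc', div_le_iff₀ h1]
  nlinarith

end

end Pool.PN18
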