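import Pool.Agent.H18.PN.Pev

/-!
# The own paths of a jointly nonfull pair of labels, in a class

`pair_rb`: `pair_nat` for the labels of a family of pairs of labels with one code, in a class: if the
jets of the orders outside `Iu`, `In` are few bits given the ball, the others natural, the values few
bits, and the rows of each label are not full given the other of the same radius, then both own paths
are few bits given the ball.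
-/

set_option autoImplicit false

namespace Pool.PN18

open Finset Real MvPolynomial
open Pool.Agent.H49.Ent Pool.Agent.H32.Dense Pool.STK Pool.KA Pool.KSAT Pool.K2S Pool.PB Pool.GEN
open Pool.S6C Pool.RCD Pool.LA91 Pool.OWN68 Pool.AJW
open Pool.GRD (LbP)

/-- A family of pairs of labels with one code, and a context. -/
abbrev Fm2 (m : ℕ) : Type 1 := ∀ (J : ℕ) (F : Fam m J), (F.Ω → Prop) → ∀ V C : Type,
  (PtT F → V) → (LnT F → V) → (V → MvPolynomial (Option (Fin m)) ℝ) →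
    (V → MvPolynomial (Option (Fin m)) ℝ) → (LnT F → C) → Prop

/-- A quantity of the labels of a family is few bits given `Qu`, a closed code and the ball. -/
def Fw2 {m : ℕ} (S : PCl m) {α γ : ∀ J : ℕ, Fam m J → Type}
    (f : ∀ (J : ℕ) (F : Fam m J), F.Ω → α J F) (a : ℝ)
    (y : ∀ (J : ℕ) (F : Fam m J), F.Ω → γ J F) {U₀ : Type} (Qu : Qt m U₀) (Ψ : Fm2 m)
    {τ : ∀ (J : ℕ) (_ : Fam m J), Type → Type → Type}
    (X : ∀ (J : ℕ) (F : Fam m J) (V C : Type), (LnT F → V) →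
      (V → MvPolynomial (Option (Fin m)) ℝ) → (V → MvPolynomial (Option (Fin m)) ℝ) →
      (LnT F → C) → F.Ω → τ J F V C) (e δ : ℝ) : Prop :=
  ∀ K₀ : ℕ, Bas S (fun J F A => ∀ (V C : Type) (z : PtT F → V) (z' : LnT F → V)
    (G₁ G₂ : V → MvPolynomial (Option (Fin m)) ℝ) (c : LnT F → C), Ψ J F A V C z z' G₁ G₂ c →
    ∀ u₀ : F.Ω → U₀, Qu.P K₀ e J F A u₀ →
    ∃ (V₁ : Type) (z₁ : F.Ω → V₁), Cl2 (f J F) (vg a J F) A z₁ ∧
      CH (Pool.Agent.H49.Ent.cond F.p A True) (X J F V C z' G₁ G₂ c)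
        (fun ω => (u₀ ω, (z₁ ω, y J F ω))) ≤ δ * J)

/-- The rows of the first label of the family, given the second label of the same radius. -/
def Rw2 {m : ℕ} (S : PCl m) (Ψ : Fm2 m) (κ₁ κ₂ : Fin m) (w p₁ p₂ α₁ α₂ q h e : ℝ) (N₀ : ℕ) : Prop :=
  ∀ i j : ℕ, i ≤ j → j ≤ N₀ →
    Bas S (fun J F A => ∀ (V C : Type) (z : PtT F → V) (z' : LnT F → V)
      (G₁ G₂ : V → MvPolynomial (Option (Fin m)) ℝ) (c : LnT F → C), Ψ J F A V C z z' G₁ G₂ c →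
      CH (Pool.Agent.H49.Ent.cond F.p A True)
        (fun ω => ⌊(2 : ℝ) ^ ((p₁ + α₁ * (q - q * i / N₀)) * J) *
          ojet F κ₁ 0 (G₁ (z' (slam F ⌊w * J⌋₊ ω))) ω⌋)
        (fun ω => (⌊(2 : ℝ) ^ ((p₁ + α₁ * (q - q * j / N₀)) * J) *
          ojet F κ₁ 0 (G₁ (z' (slam F ⌊w * J⌋₊ ω))) ω⌋,
          (⌊(2 : ℝ) ^ ((p₂ + α₂ * (q - q * i / N₀)) * J) *
            ojet F κ₂ 0 (G₂ (z' (slam F ⌊w * J⌋₊ ω))) ω⌋,
            (z' (slam F ⌊w * J⌋₊ ω), (c (slam F ⌊w * J⌋₊ ω), F.W ω))))) ≤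
        ((α₁ - h) * ((q - q * i / N₀) - (q - q * j / N₀)) * Real.log 2 + e) * J)

/-- The rows of all lengths give those of the grid. -/
theorem Rw2.of_real {m : ℕ} {S : PCl m} {Ψ : Fm2 m} {κ₁ κ₂ : Fin m} {w p₁ p₂ α₁ α₂ q h e : ℝ}
    {N₀ : ℕ} (hN₀ : 0 < N₀) (hq : 0 ≤ q)
    (H : ∀ i ≤ N₀, ∀ x : ℝ, 0 ≤ x → x ≤ q - q * i / N₀ →
      Bas S (fun J F A => ∀ (V C : Type) (z : PtT F → V) (z' : LnT F → V)
        (G₁ G₂ : V → MvPolynomial (Option (Fin m)) ℝ) (c : LnT F → C), Ψ J F A V C z z' G₁ G₂ c →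
        CH (Pool.Agent.H49.Ent.cond F.p A True)
          (fun ω => ⌊(2 : ℝ) ^ ((p₁ + α₁ * (q - q * i / N₀)) * J) *
            ojet F κ₁ 0 (G₁ (z' (slam F ⌊w * J⌋₊ ω))) ω⌋)
          (fun ω => (⌊(2 : ℝ) ^ ((p₁ + α₁ * x) * J) *
            ojet F κ₁ 0 (G₁ (z' (slam F ⌊w * J⌋₊ ω))) ω⌋,
            (⌊(2 : ℝ) ^ ((p₂ + α₂ * (q - q * i / N₀)) * J) *
              ojet F κ₂ 0 (G₂ (z' (slam F ⌊w * J⌋₊ ω))) ω⌋,
              (z' (slam F ⌊w * J⌋₊ ω), (c (slam F ⌊w * J⌋₊ ω), F.W ω))))) ≤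
          ((α₁ - h) * ((q - q * i / N₀) - x) * Real.log 2 + e) * J)) :
    Rw2 S Ψ κ₁ κ₂ w p₁ p₂ α₁ α₂ q h e N₀ := by
  have hN0 : (0 : ℝ) < N₀ := by exact_mod_cast hN₀
  intro i j hij hjN
  have hij' : (i : ℝ) ≤ j := by exact_mod_cast hij
  have hjN' : (j : ℝ) ≤ N₀ := by exact_mod_cast hjN
  have h1 : q * j / N₀ ≤ q := by
    rw [div_le_iff₀ hN0]
    exact mul_le_mul_of_nonneg_left hjN' hq
  have h2 : q * i / N₀ ≤ q * j / N₀ := by gcongr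
  exact H i (hij.trans hjN) (q - q * j / N₀) (by linarith) (by linarith)

/-- The family with the labels exchanged. -/
def Fm2.swap {m : ℕ} (Ψ : Fm2 m) : Fm2 m := fun J F A V C z z' G₁ G₂ c =>
  Ψ J F A V C z z' G₂ G₁ c

/-- The rows on all large parts, at the levels of a grid. -/
theorem Rw2.ev {m : ℕ} {S : PCl m} {Ψ : Fm2 m} {κ₁ κ₂ : Fin m} {w p₁ p₂ α₁ α₂ q h e : ℝ} {N₀ : ℕ}
    {c₀ : ℝ} (hc₀ : 0 < c₀)
    (hS : ∀ (J : ℕ) (F : Fam m J) (A B : F.Ω → Prop) (V C : Type) (z : PtT F → V)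
      (z' : LnT F → V) (G₁ G₂ : V → MvPolynomial (Option (Fin m)) ℝ) (c : LnT F → C), Sub B A →
      Ψ J F A V C z z' G₁ G₂ c → Ψ J F B V C z z' G₁ G₂ c)
    (H : Rw2 S Ψ κ₁ κ₂ w p₁ p₂ α₁ α₂ q h e N₀) :
    Bas S (fun J F A => ∀ (V C : Type) (z : PtT F → V) (z' : LnT F → V)
      (G₁ G₂ : V → MvPolynomial (Option (Fin m)) ℝ) (c : LnT F → C), Ψ J F A V C z z' G₁ G₂ c →
      RwE F A κ₁ κ₂ z' G₁ G₂ c ⌊w * J⌋₊ p₁ p₂ α₁ α₂ q h e c₀ N₀) := by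
  refine Bas.mono 0 (Bas.all (N₀ + 1) fun i _ => Bas.all (N₀ + 1) fun j _ =>
      (?_ : Bas S (fun J F A => ∀ B : F.Ω → Prop, Sub B A → Pe F.p A ≤ 1 / c₀ * Pe F.p B →
        i ≤ j → j ≤ N₀ → ∀ (V C : Type) (z : PtT F → V) (z' : LnT F → V)
      (G₁ G₂ : V → MvPolynomial (Option (Fin m)) ℝ) (c : LnT F → C),
      Ψ J F B V C z z' G₁ G₂ c →
      CH (Pool.Agent.H49.Ent.cond F.p B True)
        (fun ω => ⌊(2 : ℝ) ^ ((p₁ + α₁ * (q - q * i / N₀)) * J) *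
          ojet F κ₁ 0 (G₁ (z' (slam F ⌊w * J⌋₊ ω))) ω⌋)
        (fun ω => (⌊(2 : ℝ) ^ ((p₁ + α₁ * (q - q * j / N₀)) * J) *
          ojet F κ₁ 0 (G₁ (z' (slam F ⌊w * J⌋₊ ω))) ω⌋,
          (⌊(2 : ℝ) ^ ((p₂ + α₂ * (q - q * i / N₀)) * J) *
            ojet F κ₂ 0 (G₂ (z' (slam F ⌊w * J⌋₊ ω))) ω⌋,
            (z' (slam F ⌊w * J⌋₊ ω), (c (slam F ⌊w * J⌋₊ ω), F.W ω))))) ≤
        ((α₁ - h) * ((q - q * i / N₀) - (q - q * j / N₀)) * Real.log 2 + e) * J))) ?_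
  · by_cases hij : i ≤ j ∧ j ≤ N₀
    · obtain ⟨hij, hjN⟩ := hij
      refine Bas.mono 0 (Pool.GRW.bas_part (H i j hij hjN) (c := 1 / c₀) (by positivity)) ?_
      intro J _ F A h4 B hB hP _ _
      exact h4 B hB hP
    · exact ⟨1, one_pos, 0, fun J _ F A _ B _ _ a1 a2 => absurd ⟨a1, a2⟩ hij⟩
  · rintro J - F A HN V C z z' G₁ G₂ c hΨ B hBA hPB i j hij hj
    have hpart : Pe F.p A ≤ 1 / c₀ * Pe F.p B := by
      rw [one_div, ← div_eq_inv_mul, le_div_iff₀ hc₀]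
      linarith
    exact HN i (by omega) j (by omega) B hBA hpart hij hj V C z z' G₁ G₂ c
      (hS _ _ _ _ _ _ _ _ _ _ _ hBA hΨ)

/-- **The own paths of a jointly nonfull pair are few bits given the ball**, relative to a quantity,
for the pairs of labels of a family. -/
theorem pair_rb (K : ℕ) {Iu In : Finset ℕ} (hu : ∀ i ∈ Iu, 1 ≤ i ∧ i ≤ K + 2)
    (hn : ∀ j ∈ In, 1 ≤ j ∧ j ≤ K + 2) {α₁ α₂ : ℝ} (hα₁ : 0 < α₁) (hα₂ : 0 < α₂)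
    (hres : ∀ i ∈ Iu, ∀ j ∈ In, (i : ℝ) * α₂ ≠ j * α₁) {h : ℝ} (hh : 0 < h)
    (hh1 : h ≤ α₁) (hh2 : h ≤ α₂) {ε : ℝ} (hε : 0 < ε) :
    ∃ δ : ℝ, 0 < δ ∧ ∃ N₀ : ℕ, 0 < N₀ ∧
    ∀ {m : ℕ} {S : PCl m} {C₀ : ℝ} (_ : TmC S C₀) {κ₁ κ₂ : Fin m} {w a p₁ p₂ q : ℝ} (_ : 0 ≤ w)
    (_ : w ≤ a) (_ : a ≤ 1) (_ : 0 < q) (_ : w + 2 * (α₁ + α₂) * q ≤ 1)
    {U₀ : Type} {Qu : Qt m U₀} {α γ : ∀ J : ℕ, Fam m J → Type}
    {f : ∀ (J : ℕ) (F : Fam m J), F.Ω → α J F} {y : ∀ (J : ℕ) (F : Fam m J), F.Ω → γ J F}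
    (_ : ∀ (J : ℕ) (F : Fam m J), ∃ φ : α J F → PtT F, ∀ ω, ptr F J ω = φ (f J F ω))
    (_ : ∀ (J : ℕ) (F : Fam m J), ∃ φ : γ J F → ℕ, ∀ ω, F.T ω = φ (y J F ω))
    {e : ℝ} (Ψ : Fm2 m)
    (_ : ∀ (J : ℕ) (F : Fam m J) (A : F.Ω → Prop) (V C : Type) (z : PtT F → V) (z' : LnT F → V)
      (G₁ G₂ : V → MvPolynomial (Option (Fin m)) ℝ) (c : LnT F → C), Ψ J F A V C z z' G₁ G₂ c →
      (∀ v, (G₁ v).totalDegree ≤ K + 1) ∧ (∀ v, (G₂ v).totalDegree ≤ K + 1) ∧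
      ∀ ω, A ω → z (ptr F J ω) = z' (slam F ⌊w * J⌋₊ ω))
    (_ : ∀ (J : ℕ) (F : Fam m J) (A B : F.Ω → Prop) (V C : Type) (z : PtT F → V)
      (z' : LnT F → V) (G₁ G₂ : V → MvPolynomial (Option (Fin m)) ℝ) (c : LnT F → C), Sub B A →
      Ψ J F A V C z z' G₁ G₂ c → Ψ J F B V C z z' G₁ G₂ c) {N₁ N₂ : ℕ → ℝ},
    NwE (K + 2) Iu w p₁ α₁ q N₁ → NwE (K + 2) In w p₂ α₂ q N₂ →
    Fw2 S f a y Qu Ψ (τ := fun _ _ _ C => C) (fun J F _ _ _ _ _ c ω => c (vg w J F ω)) e (δ * q) →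
    Rw2 S Ψ κ₁ κ₂ w p₁ p₂ α₁ α₂ q h (δ * q) N₀ →
    Rw2 S Ψ.swap κ₂ κ₁ w p₂ p₁ α₂ α₁ q h (δ * q) N₀ →
    (∀ j ≤ K + 2, Fw2 S f a y Qu Ψ (τ := fun _ _ _ _ => ℤ)
      (fun J F _ _ z' G₁ _ _ ω => ⌊(2 : ℝ) ^ (N₁ j * J) * ojet F κ₁ j
        (G₁ (z' (slam F ⌊w * J⌋₊ ω))) ω⌋) e (δ * q)) →
    (∀ j ≤ K + 2, Fw2 S f a y Qu Ψ (τ := fun _ _ _ _ => ℤ)
      (fun J F _ _ z' _ G₂ _ ω => ⌊(2 : ℝ) ^ (N₂ j * J) * ojet F κ₂ j
        (G₂ (z' (slam F ⌊w * J⌋₊ ω))) ω⌋) e (δ * q)) →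
    Fw2 S f a y Qu Ψ (τ := fun _ F V C => (V × (F.ζ × ℕ)) × (C ×
        ((Fin (K + 3) → ℤ) × (Fin (K + 3) → ℤ))))
      (fun J F _ _ z' G₁ G₂ c ω => ((z' (vg w J F ω), (vg w J F ω).2), (c (vg w J F ω),
        (fun j : Fin (K + 3) => ⌊jr F ⌊w * J⌋₊ (2 ^ ((p₁ + α₁ * q) * J)) κ₁ z' G₁ j
            (vg w J F ω)⌋,
          fun j : Fin (K + 3) => ⌊jr F ⌊w * J⌋₊ (2 ^ ((p₂ + α₂ * q) * J)) κ₂ z' G₂ j
            (vg w J F ω)⌋)))) e (ε * q) := by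
  classical
  obtain ⟨ε₁, hε₁⟩ : ∃ ε₁ : ℝ, ε₁ = ε / (2 * (K + 4)) := ⟨_, rfl⟩
  have hε10 : 0 < ε₁ := by
    rw [hε₁]
    positivity
  have hεe : 2 * (K + 4) * ε₁ = ε := by
    rw [hε₁]
    field_simp
  obtain ⟨δ₁, hδ₁, c₀, hc₀, N₀, hN₀, H⟩ := pair_ev (K + 2) (by omega) hu hn hα₁ hα₂ hres hh hh1
    hh2 hε10
  obtain ⟨δ, hδe⟩ : ∃ δ : ℝ, δ = min δ₁ ε₁ := ⟨_, rfl⟩
  have hδ : 0 < δ := by
    rw [hδe]
    exact lt_min hδ₁ hε10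
  have hd1 : δ ≤ δ₁ := by rw [hδe]; exact min_le_left _ _
  have hd2 : δ ≤ ε₁ := by rw [hδe]; exact min_le_right _ _
  refine ⟨δ, hδ, N₀, hN₀, ?_⟩
  intro m S C₀ htm κ₁ κ₂ w a p₁ p₂ q hw0 hwa ha hq hwq U₀ Qu α γ f y hf hy e Ψ hΨl hΨ N₁ N₂ hN1 hN2
    hc hr1 hr2 hj1 hj2 K₀
  obtain ⟨J₁, H⟩ := H (w := w) (q := q) hw0 hq hwq
  have HR1 := hr1.ev hc₀ hΨ
  have HR2 := hr2.ev hc₀ (fun J F A B V C z z' G₁ G₂ c => hΨ J F A B V C z z' G₂ G₁ c)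
  refine Bas.mono J₁ (((HR1.and HR2).and ((Bas.all (K + 3) fun j hj =>
    hj1 j (by omega) K₀).and (Bas.all (K + 3) fun j hj => hj2 j (by omega) K₀))).and
    ((hc K₀).and (Pool.GRW.tmc_bas htm (ψ := δ * q) (by positivity)))) ?_
  rintro J hJ F A ⟨⟨⟨hR1, hR2⟩, hJ1, hJ2⟩, hcA, hA, hT⟩ V Cc z z' G₁ G₂ c hcΨ u₀ hu₀
  obtain ⟨hdg1, hdg2, hcls⟩ := hΨl J F A V Cc z z' G₁ G₂ c hcΨ
  obtain ⟨Vc, zc, hzc, hc⟩ := hcA V Cc z z' G₁ G₂ c hcΨ u₀ hu₀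
  have hJ0 : (0 : ℝ) ≤ J := Nat.cast_nonneg J
  have hqJ : 0 ≤ q * J := by positivity
  have hw1 : w ≤ 1 := hwa.trans ha
  obtain ⟨W, hW⟩ : ∃ W : ℕ, W = ⌊w * J⌋₊ := ⟨_, rfl⟩
  have hWJ : W ≤ J := by
    rw [hW]
    refine Nat.floor_le_of_le ?_
    nlinarith
  obtain ⟨q', hq'⟩ : ∃ q' : F.Ω → ℝ, q' = Pool.Agent.H49.Ent.cond F.p A True := ⟨_, rfl⟩
  have hq'l : IsLaw q' := by
    rw [hq']
    exact isLaw_cond F.isLaw hA
  have h0 := hq'l.nonneg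
  have hvg : ∀ ω, vg w J F ω = slam F W ω := fun ω => by rw [hW]; rfl
  have hz1 : ∀ j : Fin (K + 3), ∃ (V₂ : Type) (z₂ : F.Ω → V₂), Cl2 (f J F) (vg a J F) A z₂ ∧
      CH q' (fun ω => ⌊(2 : ℝ) ^ (N₁ j * J) * ojet F κ₁ j (G₁ (z' (slam F ⌊w * J⌋₊ ω))) ω⌋)
        (fun ω => (u₀ ω, (z₂ ω, y J F ω))) ≤ δ * q * J := by
    intro j
    rw [hq']
    exact hJ1 j j.2 V Cc z z' G₁ G₂ c hcΨ u₀ hu₀
  have hz2 : ∀ j : Fin (K + 3), ∃ (V₂ : Type) (z₂ : F.Ω → V₂), Cl2 (f J F) (vg a J F) A z₂ ∧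
      CH q' (fun ω => ⌊(2 : ℝ) ^ (N₂ j * J) * ojet F κ₂ j (G₂ (z' (slam F ⌊w * J⌋₊ ω))) ω⌋)
        (fun ω => (u₀ ω, (z₂ ω, y J F ω))) ≤ δ * q * J := by
    intro j
    rw [hq']
    exact hJ2 j j.2 V Cc z z' G₁ G₂ c hcΨ u₀ hu₀
  choose V1 z1 hz1 hC1 using hz1
  choose V2 z2 hz2 hC2 using hz2
  -- the record of the ball
  obtain ⟨Y, hY⟩ : ∃ Y : F.Ω → U₀ × ((V × (F.ζ × ℕ)) × (Vc × ((∀ j, V1 j) × (∀ j, V2 j)))) ×
      γ J F, Y = fun ω => (u₀ ω, ((z' (slam F W ω), (slam F W ω).2),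
        (zc ω, (fun j => z1 j ω, fun j => z2 j ω))), y J F ω) := ⟨_, rfl⟩
  have hYc : CH q' (fun ω => c (slam F W ω)) Y ≤ δ * q * J := by
    rw [← hq'] at hc
    simp only [hvg] at hc
    refine le_trans (CH_mono_cond h0 fun ω ω' _ _ hh => ?_) hc
    rw [hY] at hh
    simp only [Prod.mk.injEq] at hh ⊢
    exact ⟨hh.1, hh.2.1.2.1, hh.2.2⟩
  obtain ⟨φT, hφT⟩ := hy J F
  have key := H J hJ F A hA (κ₁ := κ₁) (κ₂ := κ₂) z' G₁ G₂ (fun x => (x.2, c x)) Y (p₁ := p₁)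
    (p₂ := p₂) (N₁ := N₁) (N₂ := N₂)
    (fun v => (MvPolynomial.totalDegree_sub _ _).trans (max_le
      ((totalDegree_X _).le.trans (by omega)) ((hdg1 v).trans (by omega))))
    (fun v => (MvPolynomial.totalDegree_sub _ _).trans (max_le
      ((totalDegree_X _).le.trans (by omega)) ((hdg2 v).trans (by omega))))
    (by
      have h1 : δ * q * J ≤ δ₁ * q * J := by
        have := mul_le_mul_of_nonneg_right hd1 hqJ
        linarith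
      linarith)
    (fun ω ω' _ _ e => by
      rw [hY] at e
      simp only [Prod.mk.injEq] at e
      refine ⟨?_, (Prod.ext_iff.mp e.2.1.1.2).1⟩
      rw [hφT, hφT, e.2.2])
    (by
      rw [← hq', ← hW]
      have h1 : δ * q * J ≤ δ₁ * q * J := by
        have := mul_le_mul_of_nonneg_right hd1 hqJ
        linarith
      refine le_trans (le_of_eq ?_) (hYc.trans h1)
      refine CH_congr h0 ?_ ?_ (fun _ _ _ _ e => e) (fun _ _ _ _ e => e)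
      · intro ω ω' _ _ e
        simp only [Prod.mk.injEq] at e ⊢
        exact e.1.2.2
      · intro ω ω' _ _ e
        have e1 := (Prod.ext_iff.mp e).2
        rw [hY] at e1
        simp only [Prod.mk.injEq] at e e1 ⊢
        exact ⟨e1.2.1.1.1, e1.2.1.1.2, e.1⟩)
    hN1 hN2
    (fun j hj => by
      rw [← hq']
      have h1 : δ * q * J ≤ δ₁ * q * J := by
        have := mul_le_mul_of_nonneg_right hd1 hqJ
        linarith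
      refine le_trans (CH_mono_cond h0 fun ω ω' _ _ hh => ?_) ((hC1 ⟨j, by omega⟩).trans h1)
      rw [hY] at hh
      simp only [Prod.mk.injEq] at hh ⊢
      exact ⟨hh.1, congrFun hh.2.1.2.2.1 _, hh.2.2⟩)
    (fun j hj => by
      rw [← hq']
      have h1 : δ * q * J ≤ δ₁ * q * J := by
        have := mul_le_mul_of_nonneg_right hd1 hqJ
        linarith
      refine le_trans (CH_mono_cond h0 fun ω ω' _ _ hh => ?_) ((hC2 ⟨j, by omega⟩).trans h1)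
      rw [hY] at hh
      simp only [Prod.mk.injEq] at hh ⊢
      exact ⟨hh.1, congrFun hh.2.1.2.2.2 _, hh.2.2⟩)
    (by
      intro B hB hm i j hij hj
      have h1 := hR1 V Cc z z' G₁ G₂ c hcΨ B hB hm i j hij hj
      have hPB : 0 < Pe F.p B := lt_of_lt_of_le (by positivity) hm
      have hBl : IsLaw (Pool.Agent.H49.Ent.cond F.p B True) := isLaw_cond F.isLaw hPB
      refine (CH_mono_cond hBl.nonneg fun ω ω' _ _ e => ?_).trans (h1.trans ?_)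
      · simp only [Prod.mk.injEq] at e ⊢
        exact ⟨e.1, e.2.1, e.2.2.1, e.2.2.2.1.2, e.2.2.2.2⟩
      · refine mul_le_mul_of_nonneg_right ?_ hJ0
        have : δ * q ≤ δ₁ * q := mul_le_mul_of_nonneg_right hd1 hq.le
        linarith)
    (by
      intro B hB hm i j hij hj
      have h1 := hR2 V Cc z z' G₂ G₁ c hcΨ B hB hm i j hij hj
      have hPB : 0 < Pe F.p B := lt_of_lt_of_le (by positivity) hm
      have hBl : IsLaw (Pool.Agent.H49.Ent.cond F.p B True) := isLaw_cond F.isLaw hPB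
      refine (CH_mono_cond hBl.nonneg fun ω ω' _ _ e => ?_).trans (h1.trans ?_)
      · simp only [Prod.mk.injEq] at e ⊢
        exact ⟨e.1, e.2.1, e.2.2.1, e.2.2.2.1.2, e.2.2.2.2⟩
      · refine mul_le_mul_of_nonneg_right ?_ hJ0
        have : δ * q ≤ δ₁ * q := mul_le_mul_of_nonneg_right hd1 hq.le
        linarith)
  rw [← hq', ← hW] at key
  -- the end
  obtain ⟨φf, hφf⟩ := hf J F
  obtain ⟨φg, hφg⟩ := vg_mono hwa ha J F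
  refine ⟨_, fun ω => ((z' (slam F W ω), (slam F W ω).2),
    (zc ω, (fun j => z1 j ω, fun j => z2 j ω))),
    Cl2.join ⟨?_, ?_⟩ (Cl2.join hzc (Cl2.join (Cl2.pi hz1) (Cl2.pi hz2))), ?_⟩
  · refine ⟨fun x => (z (φf x), ((φf x).2.2, (φf x).2.1 / 2 ^ (J - W))), fun ω hω => ?_⟩
    dsimp only
    have h1 := hcls ω hω
    rw [← hW] at h1
    rw [← hφf ω, h1]
    rfl
  · refine ⟨fun x => (z' (φg x), (φg x).2), fun ω _ => ?_⟩
    dsimp only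
    rw [← hφg ω, hvg ω]
  · rw [← hq']
    simp only [hvg]
    rw [← hW]
    obtain ⟨X₁, hX₁⟩ : ∃ X₁ : F.Ω → Fin (K + 3) → ℤ, X₁ = fun ω (j : Fin (K + 3)) =>
      ⌊jr F W (2 ^ ((p₁ + α₁ * q) * J)) κ₁ z' G₁ j (slam F W ω)⌋ := ⟨_, rfl⟩
    obtain ⟨X₂, hX₂⟩ : ∃ X₂ : F.Ω → Fin (K + 3) → ℤ, X₂ = fun ω (j : Fin (K + 3)) =>
      ⌊jr F W (2 ^ ((p₂ + α₂ * q) * J)) κ₂ z' G₂ j (slam F W ω)⌋ := ⟨_, rfl⟩
    have c1 : CH q' X₁ Y ≤ (K + 3) * (ε₁ * q * J) := by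
      refine (CH_pis h0 X₁ _).trans ?_
      have h1 : ∀ j ∈ (univ : Finset (Fin (K + 3))), CH q' (fun ω => X₁ ω j) Y ≤ ε₁ * q * J := by
        intro j _
        rw [hX₁]
        exact (key j).1
      refine (Finset.sum_le_sum h1).trans (le_of_eq ?_)
      rw [Finset.sum_const, Finset.card_univ, Fintype.card_fin, nsmul_eq_mul]
      push_cast
      ring
    have c2 : CH q' X₂ Y ≤ (K + 3) * (ε₁ * q * J) := by
      refine (CH_pis h0 X₂ _).trans ?_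
      have h1 : ∀ j ∈ (univ : Finset (Fin (K + 3))), CH q' (fun ω => X₂ ω j) Y ≤ ε₁ * q * J := by
        intro j _
        rw [hX₂]
        exact (key j).2
      refine (Finset.sum_le_sum h1).trans (le_of_eq ?_)
      rw [Finset.sum_const, Finset.card_univ, Fintype.card_fin, nsmul_eq_mul]
      push_cast
      ring
    have c3 := CH_subadd h0 X₁ X₂ Y
    have c4 := CH_subadd h0 (fun ω => c (slam F W ω)) (fun ω => (X₁ ω, X₂ ω)) Y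
    have c5 : δ * q * J ≤ ε₁ * q * J := by
      have := mul_le_mul_of_nonneg_right hd2 hqJ
      linarith
    have c6 : ε * q * J = 2 * (K + 4) * (ε₁ * q * J) := by
      rw [← hεe]
      ring
    have c7 : 0 ≤ ε₁ * q * J := by positivity
    have c8 : CH q' (fun ω => (c (slam F W ω), (X₁ ω, X₂ ω))) Y ≤ ε * q * J := by
      rw [c6]
      linarith
    rw [hY] at c8
    refine le_trans (CH_mono_left h0 fun ω ω' _ _ e => ?_) c8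
    obtain ⟨e1, e2⟩ := Prod.ext_iff.mp e
    have e5 := (Prod.ext_iff.mp (Prod.ext_iff.mp (Prod.ext_iff.mp e2).2).1).1
    rw [hX₁, hX₂] at e1
    exact Prod.ext e5 e1

end Pool.PN18
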