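import Pool.Agent.H18.PN.Stg3
import Pool.Agent.H37.RW2.Rw

/-!
# A larger context

`jcut`: the coefficients of order at least `i₀` of the own path of a label. `CxJ`: the family of pairs
`Ψ` with a larger context: the context of `Ψ`, coefficients of both own paths and a closed code. It has
all the properties of `Ψ`.
-/

set_option autoImplicit false

namespace Pool.PN18

open Finset Real MvPolynomial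
open Pool.Agent.H49.Ent Pool.Agent.H32.Dense Pool.STK Pool.KA Pool.KSAT Pool.K2S Pool.PB Pool.GEN
open Pool.S6C Pool.RCD Pool.LA91 Pool.OWN68 Pool.AJW Pool.AJX Pool.CHT
open Pool.GRD (LbP)

/-- The coefficients of order at least `i₀` of the own path, `p + X l` digits for the order `l`. -/
noncomputable def jcut {m J : ℕ} (F : Fam m J) (κ : Fin m) (K i₀ : ℕ) (w p : ℝ) (X : ℕ → ℝ)
    {V : Type} (z' : LnT F → V) (G : V → MvPolynomial (Option (Fin m)) ℝ) (x : LnT F) :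
    Fin (K + 3) → ℤ :=
  fun l => if i₀ ≤ (l : ℕ) then ⌊jr F ⌊w * J⌋₊ (2 ^ ((p + X l) * J)) κ z' G l x⌋ else 0

/-- A property of closed codes. -/
abbrev Cdp (m : ℕ) : Type 1 := ∀ (J : ℕ) (F : Fam m J), (F.Ω → Prop) → ∀ Y : Type, (F.Ω → Y) → Prop

/-- The larger context. -/
noncomputable def cxf {m J : ℕ} (F : Fam m J) (K : ℕ) (κ₁ κ₂ : Fin m) (v p₁ p₂ : ℝ) (i₁ i₂ : ℕ)
    (X₁ X₂ : ℕ → ℝ) {V C₀ Y : Type} (z' : LnT F → V) (G₁ G₂ : V → MvPolynomial (Option (Fin m)) ℝ)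
    (c₀ : LnT F → C₀) (y' : LnT F → Y) (x : LnT F) :
    C₀ × (((Fin (K + 3) → ℤ) × (Fin (K + 3) → ℤ)) × Y) :=
  (c₀ x, ((jcut F κ₁ K i₁ v p₁ X₁ z' G₁ x, jcut F κ₂ K i₂ v p₂ X₂ z' G₂ x), y' x))

/-- **The family `Ψ` with a larger context**: coefficients of both own paths and a closed code with the
property `Mp`. -/
def CxJ {m : ℕ} (Ψ : Fm2 m) (K : ℕ) (κ₁ κ₂ : Fin m) (v p₁ p₂ : ℝ) (i₁ i₂ : ℕ) (X₁ X₂ : ℕ → ℝ)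
    (Mp : Cdp m) : Fm2 m :=
  fun J F A V C z z' G₁ G₂ cc => ∃ (C₀ Y : Type) (c₀ : LnT F → C₀) (y : PtT F → Y) (y' : LnT F → Y),
    Ψ J F A V C₀ z z' G₁ G₂ c₀ ∧ (∀ ω, A ω → y (ptr F J ω) = y' (slam F ⌊v * J⌋₊ ω)) ∧
    Mp J F A Y (fun ω => y' (slam F ⌊v * J⌋₊ ω)) ∧
    (∃ φ : C → C₀ × (((Fin (K + 3) → ℤ) × (Fin (K + 3) → ℤ)) × Y), ∀ x,
      cxf F K κ₁ κ₂ v p₁ p₂ i₁ i₂ X₁ X₂ z' G₁ G₂ c₀ y' x = φ (cc x)) ∧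
    ∃ ψ : V × (C₀ × (((Fin (K + 3) → ℤ) × (Fin (K + 3) → ℤ)) × Y)) → C, ∀ x,
      cc x = ψ (z' x, cxf F K κ₁ κ₂ v p₁ p₂ i₁ i₂ X₁ X₂ z' G₁ G₂ c₀ y' x)

variable {m : ℕ} {Ψ : Fm2 m} {K : ℕ} {κ₁ κ₂ : Fin m} {v p₁ p₂ : ℝ} {i₁ i₂ : ℕ} {X₁ X₂ : ℕ → ℝ}
  {Mp Mp' : Cdp m}

theorem CxJ.le (h : ∀ (J : ℕ) (F : Fam m J) (A : F.Ω → Prop) (Y : Type) (y : F.Ω → Y),
      Mp' J F A Y y → Mp J F A Y y)
    (J : ℕ) (F : Fam m J) (A : F.Ω → Prop) (V C : Type) (z : PtT F → V)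
    (z' : LnT F → V) (G₁ G₂ : V → MvPolynomial (Option (Fin m)) ℝ) (c : LnT F → C)
    (H : CxJ Ψ K κ₁ κ₂ v p₁ p₂ i₁ i₂ X₁ X₂ Mp' J F A V C z z' G₁ G₂ c) :
    CxJ Ψ K κ₁ κ₂ v p₁ p₂ i₁ i₂ X₁ X₂ Mp J F A V C z z' G₁ G₂ c := by
  obtain ⟨C₀, Y, c₀, y, y', h1, h2, h3, h4⟩ := H
  exact ⟨C₀, Y, c₀, y, y', h1, h2, h _ _ _ _ _ h3, h4⟩

theorem CxJ.hs (h : ∀ (J : ℕ) (F : Fam m J) (A B : F.Ω → Prop) (Y : Type) (y : F.Ω → Y), Sub B A →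
      Mp J F A Y y → Mp J F B Y y)
    (hΨ : ∀ (J : ℕ) (F : Fam m J) (A B : F.Ω → Prop) (V C : Type) (z : PtT F → V)
      (z' : LnT F → V) (G₁ G₂ : V → MvPolynomial (Option (Fin m)) ℝ) (c : LnT F → C), Sub B A →
      Ψ J F A V C z z' G₁ G₂ c → Ψ J F B V C z z' G₁ G₂ c)
    (J : ℕ) (F : Fam m J) (A B : F.Ω → Prop) (V C : Type) (z : PtT F → V)
    (z' : LnT F → V) (G₁ G₂ : V → MvPolynomial (Option (Fin m)) ℝ) (c : LnT F → C) (hB : Sub B A)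
    (H : CxJ Ψ K κ₁ κ₂ v p₁ p₂ i₁ i₂ X₁ X₂ Mp J F A V C z z' G₁ G₂ c) :
    CxJ Ψ K κ₁ κ₂ v p₁ p₂ i₁ i₂ X₁ X₂ Mp J F B V C z z' G₁ G₂ c := by
  obtain ⟨C₀, Y, c₀, y, y', h1, h2, h3, h4⟩ := H
  exact ⟨C₀, Y, c₀, y, y', hΨ J F A B V C₀ z z' G₁ G₂ c₀ hB h1, fun ω hω => h2 ω (hB ω hω),
    h J F A B Y _ hB h3, h4⟩

/-- **The labels exist.** -/
theorem cxj_ex {S : PCl m}
    (h1 : Bas S (fun J F A => ∃ (V C : Type) (z : PtT F → V) (z' : LnT F → V)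
      (G₁ G₂ : V → MvPolynomial (Option (Fin m)) ℝ) (cc : LnT F → C), Ψ J F A V C z z' G₁ G₂ cc))
    (h2 : Bas S (fun J F A => ∃ (Y : Type) (y : PtT F → Y) (y' : LnT F → Y),
      (∀ ω, A ω → y (ptr F J ω) = y' (slam F ⌊v * J⌋₊ ω)) ∧
      Mp J F A Y (fun ω => y' (slam F ⌊v * J⌋₊ ω)))) :
    Bas S (fun J F A => ∃ (V C : Type) (z : PtT F → V) (z' : LnT F → V)
      (G₁ G₂ : V → MvPolynomial (Option (Fin m)) ℝ) (cc : LnT F → C),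
      CxJ Ψ K κ₁ κ₂ v p₁ p₂ i₁ i₂ X₁ X₂ Mp J F A V C z z' G₁ G₂ cc) := by
  refine Bas.mono 0 (h1.and h2) ?_
  rintro J - F A ⟨⟨V, C₀, z, z', G₁, G₂, c₀, h3⟩, Y, y, y', h4, h5⟩
  exact ⟨V, _, z, z', G₁, G₂, cxf F K κ₁ κ₂ v p₁ p₂ i₁ i₂ X₁ X₂ z' G₁ G₂ c₀ y', C₀, Y, c₀, y, y', h3,
    h4, h5, ⟨fun x => x, fun _ => rfl⟩, fun x => x.2, fun _ => rfl⟩

section

variable {S : PCl m} {α γ : ∀ J : ℕ, Fam m J → Type}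
  {f : ∀ (J : ℕ) (F : Fam m J), F.Ω → α J F} {y : ∀ (J : ℕ) (F : Fam m J), F.Ω → γ J F} {a : ℝ}
  {U₀ : Type} {Qu : Qt m U₀} {e δ : ℝ}

/-- A quantity of the labels which does not depend on the context. -/
theorem cxj_fw {τ : ∀ (J : ℕ) (_ : Fam m J), Type → Type}
    {X : ∀ (J : ℕ) (F : Fam m J) (V : Type), (LnT F → V) →
      (V → MvPolynomial (Option (Fin m)) ℝ) → (V → MvPolynomial (Option (Fin m)) ℝ) →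
      F.Ω → τ J F V}
    (h : Fw2 S f a y Qu Ψ (τ := fun J F V _ => τ J F V)
      (fun J F V _ z' G₁ G₂ _ ω => X J F V z' G₁ G₂ ω) e δ) :
    Fw2 S f a y Qu (CxJ Ψ K κ₁ κ₂ v p₁ p₂ i₁ i₂ X₁ X₂ Mp) (τ := fun J F V _ => τ J F V)
      (fun J F V _ z' G₁ G₂ _ ω => X J F V z' G₁ G₂ ω) e δ := fun K₀ =>
  Bas.mono 0 (h K₀) fun J _ F A H V _ z z' G₁ G₂ _ ⟨C₀, _, c₀, _, _, h1, _⟩ =>
    H V C₀ z z' G₁ G₂ c₀ h1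

/-- **The larger context is few bits.** -/
theorem cxj_ctx {C₀' : ℝ} (htm : TmC S C₀')
    (hf : ∀ (J : ℕ) (F : Fam m J), ∃ φ : α J F → PtT F, ∀ ω, ptr F J ω = φ (f J F ω))
    (hva : v ≤ a) (ha : a ≤ 1)
    (hcl : ∀ (J : ℕ) (F : Fam m J) (A : F.Ω → Prop) (V C : Type) (z : PtT F → V) (z' : LnT F → V)
      (G₁ G₂ : V → MvPolynomial (Option (Fin m)) ℝ) (c : LnT F → C), Ψ J F A V C z z' G₁ G₂ c →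
      ∀ ω, A ω → z (ptr F J ω) = z' (slam F ⌊v * J⌋₊ ω)) {η₁ η₂ : ℝ}
    (h : Fw2 S f a y Qu Ψ (τ := fun _ _ _ C => C) (fun J F _ _ _ _ _ c ω => c (vg v J F ω)) e δ)
    (h1 : Fw2 S f a y Qu Ψ (τ := fun _ _ _ _ => Fin (K + 3) → ℤ)
      (fun J F _ _ z' G₁ _ _ ω => jcut F κ₁ K i₁ v p₁ X₁ z' G₁ (vg v J F ω)) e η₁)
    (h2 : Fw2 S f a y Qu Ψ (τ := fun _ _ _ _ => Fin (K + 3) → ℤ)
      (fun J F _ _ z' _ G₂ _ ω => jcut F κ₂ K i₂ v p₂ X₂ z' G₂ (vg v J F ω)) e η₂) :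
    Fw2 S f a y Qu (CxJ Ψ K κ₁ κ₂ v p₁ p₂ i₁ i₂ X₁ X₂ Mp) (τ := fun _ _ _ C => C)
      (fun J F _ _ _ _ _ c ω => c (vg v J F ω)) e (δ + η₁ + η₂) := by
  intro K₀
  refine Bas.mono 0 (((h K₀).and (h1 K₀)).and ((h2 K₀).and (Pool.GRW.tmc_bas htm one_pos))) ?_
  rintro J - F A ⟨⟨H, H1⟩, H2, hA, -⟩ V C z z' G₁ G₂ cc ⟨C₀, Y, c₀, y₀, y', k1, k2, -, -, ψ, hψ⟩ u₀
    hu₀
  obtain ⟨V₁, z₁, hz₁, l1⟩ := H V C₀ z z' G₁ G₂ c₀ k1 u₀ hu₀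
  obtain ⟨V₂, z₂, hz₂, l2⟩ := H1 V C₀ z z' G₁ G₂ c₀ k1 u₀ hu₀
  obtain ⟨V₃, z₃, hz₃, l3⟩ := H2 V C₀ z z' G₁ G₂ c₀ k1 u₀ hu₀
  obtain ⟨φf, hφf⟩ := hf J F
  obtain ⟨φg, hφg⟩ := vg_mono hva ha J F
  have hclz : Cl2 (f J F) (vg a J F) A (fun ω => (z' (vg v J F ω), y' (vg v J F ω))) := by
    refine ⟨⟨fun x => (z (φf x), y₀ (φf x)), fun ω hω => ?_⟩, ⟨fun x => (z' (φg x), y' (φg x)),
      fun ω _ => ?_⟩⟩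
    · show (z' (vg v J F ω), y' (vg v J F ω)) = (z (φf (f J F ω)), y₀ (φf (f J F ω)))
      rw [← hφf ω, hcl J F A V C₀ z z' G₁ G₂ c₀ k1 ω hω, k2 ω hω]
      rfl
    · show (z' (vg v J F ω), y' (vg v J F ω)) = (z' (φg (vg a J F ω)), y' (φg (vg a J F ω)))
      rw [← hφg ω]
  refine ⟨_, fun ω => (((z' (vg v J F ω), y' (vg v J F ω)), z₁ ω), (z₂ ω, z₃ ω)),
    (hclz.join hz₁).join (hz₂.join hz₃), ?_⟩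
  have h0 := (isLaw_cond F.isLaw hA).nonneg
  obtain ⟨q', hq'⟩ : ∃ q' : F.Ω → ℝ, q' = Pool.Agent.H49.Ent.cond F.p A True := ⟨_, rfl⟩
  rw [← hq'] at l1 l2 l3 h0 ⊢
  obtain ⟨W, hW⟩ : ∃ W : F.Ω → U₀ × ((((V × Y) × V₁) × (V₂ × V₃)) × γ J F), W = fun ω =>
    (u₀ ω, ((((z' (vg v J F ω), y' (vg v J F ω)), z₁ ω), (z₂ ω, z₃ ω)), y J F ω)) := ⟨_, rfl⟩
  rw [← hW]
  have l1' : CH q' (fun ω => c₀ (vg v J F ω)) W ≤ δ * J := by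
    refine le_trans (CH_mono_cond h0 fun ω ω' _ _ e => ?_) l1
    rw [hW] at e
    simp only [Prod.mk.injEq] at e ⊢
    exact ⟨e.1, e.2.1.1.2, e.2.2⟩
  have l2' : CH q' (fun ω => jcut F κ₁ K i₁ v p₁ X₁ z' G₁ (vg v J F ω)) W ≤ η₁ * J := by
    refine le_trans (CH_mono_cond h0 fun ω ω' _ _ e => ?_) l2
    rw [hW] at e
    simp only [Prod.mk.injEq] at e ⊢
    exact ⟨e.1, e.2.1.2.1, e.2.2⟩
  have l3' : CH q' (fun ω => jcut F κ₂ K i₂ v p₂ X₂ z' G₂ (vg v J F ω)) W ≤ η₂ * J := by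
    refine le_trans (CH_mono_cond h0 fun ω ω' _ _ e => ?_) l3
    rw [hW] at e
    simp only [Prod.mk.injEq] at e ⊢
    exact ⟨e.1, e.2.1.2.2, e.2.2⟩
  have g1 := CH_subadd h0 (fun ω => jcut F κ₁ K i₁ v p₁ X₁ z' G₁ (vg v J F ω))
    (fun ω => jcut F κ₂ K i₂ v p₂ X₂ z' G₂ (vg v J F ω)) W
  have g2 := CH_subadd h0 (fun ω => c₀ (vg v J F ω))
    (fun ω => (jcut F κ₁ K i₁ v p₁ X₁ z' G₁ (vg v J F ω),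
      jcut F κ₂ K i₂ v p₂ X₂ z' G₂ (vg v J F ω))) W
  have g3 : CH q' (fun ω => cc (vg v J F ω)) W ≤ CH q' (fun ω => (c₀ (vg v J F ω),
      (jcut F κ₁ K i₁ v p₁ X₁ z' G₁ (vg v J F ω),
        jcut F κ₂ K i₂ v p₂ X₂ z' G₂ (vg v J F ω)))) W := by
    have g4 := CH_le_add h0 (fun ω => cc (vg v J F ω)) (fun ω => (c₀ (vg v J F ω),
      (jcut F κ₁ K i₁ v p₁ X₁ z' G₁ (vg v J F ω),
        jcut F κ₂ K i₂ v p₂ X₂ z' G₂ (vg v J F ω)))) W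
    have g5 : CH q' (fun ω => cc (vg v J F ω)) (fun ω => ((c₀ (vg v J F ω),
      (jcut F κ₁ K i₁ v p₁ X₁ z' G₁ (vg v J F ω),
        jcut F κ₂ K i₂ v p₂ X₂ z' G₂ (vg v J F ω))), W ω)) = 0 := by
      refine CH_eq_zero h0 fun ω ω' _ _ e => ?_
      obtain ⟨e1, e2⟩ := Prod.ext_iff.mp e
      rw [hW] at e2
      simp only [Prod.mk.injEq] at e1 e2
      show cc (vg v J F ω) = cc (vg v J F ω')
      rw [hψ, hψ]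
      unfold cxf
      rw [e1.1, e1.2.1, e1.2.2, e2.2.1.1.1.1, e2.2.1.1.1.2]
    linarith only [g4, g5]
  have e1 : (δ + η₁ + η₂) * J = δ * J + (η₁ * J + η₂ * J) := by ring
  rw [e1]
  linarith only [g1, g2, g3, l1', l2', l3']

end

theorem cxj_psl {c : ℕ → Fin m} {r K₁ : ℕ} {I₂ : Finset (Fin m)} {k₂ : Fin m}
    {w lam e E₂ r₂ p₂' : ℝ} {E rd p n : ℕ → ℝ} (h : PsL Ψ c r K₁ I₂ k₂ w lam e E₂ r₂ p₂' E rd p n)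
    (hM : ∀ (J : ℕ) (F : Fam m J) (A B : F.Ω → Prop) (Y : Type) (y : F.Ω → Y), Sub B A →
      Mp J F A Y y → Mp J F B Y y) :
    PsL (CxJ Ψ K κ₁ κ₂ v p₁ p₂ i₁ i₂ X₁ X₂ Mp) c r K₁ I₂ k₂ w lam e E₂ r₂ p₂' E rd p n := by
  refine ⟨?_, CxJ.hs hM h.2⟩
  rintro J F A V C z z' G₁ G₂ cc ⟨C₀, Y, c₀, y, y', h1, h2, h3, ⟨φ, hφ⟩, -⟩
  obtain ⟨⟨g, a1, a2, φ', a3⟩, a4⟩ := h.1 J F A V C₀ z z' G₁ G₂ c₀ h1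
  refine ⟨⟨g, a1, a2, fun x => φ' (φ x).1, fun x => ?_⟩, a4⟩
  show _ = φ' (φ (cc x)).1
  rw [a3, ← hφ]
  rfl

theorem cxj_psl' {c : ℕ → Fin m} {r₀ r K₁ : ℕ} {w lam e : ℝ} {E rd p n : ℕ → ℝ}
    (h : Pool.RW37.PsL Ψ c r₀ r K₁ e E w lam rd p n) :
    Pool.RW37.PsL (CxJ Ψ K κ₁ κ₂ v p₁ p₂ i₁ i₂ X₁ X₂ Mp) c r₀ r K₁ e E w lam rd p n := by
  rintro J F A V C z z' G₁ G₂ cc ⟨C₀, Y, c₀, y, y', h1, h2, h3, ⟨φ, hφ⟩, -⟩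
  obtain ⟨g, a1, a2, a3, φ', a4⟩ := h J F A V C₀ z z' G₁ G₂ c₀ h1
  refine ⟨g, a1, a2, a3, fun x => φ' (φ x).1, fun x => ?_⟩
  show _ = φ' (φ (cc x)).1
  rw [a4, ← hφ]
  rfl

theorem cxj_dcp {I₁ I₂ : Finset (Fin m)} {k₂ : Fin m} {K₁ : ℕ} {v₀ w E₀ R₀ P₀ e : ℝ}
    (h : Dcp2 Ψ I₁ I₂ k₂ K₁ v₀ w E₀ R₀ P₀ e) :
    Dcp2 (CxJ Ψ K κ₁ κ₂ v p₁ p₂ i₁ i₂ X₁ X₂ Mp) I₁ I₂ k₂ K₁ v₀ w E₀ R₀ P₀ e := by
  rintro J F A V C z z' G₁ G₂ cc ⟨C₀, Y, c₀, y, y', h1, h2, h3, -⟩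
  exact h J F A V C₀ z z' G₁ G₂ c₀ h1

end Pool.PN18
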