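import Pool.Agent.H18.PN.Stg7

/-!
# Jets over the labels of several windows, the near jets of the chain given

`JfN.tr`: from the labels of one window to those of another one; `JfN.selfw`, `JfN.selfv`: the jets of a
closed polynomial over the chain; `JfN.unat`: the natural jets of the last place over the labels of an
early window; `JfN.near1`: the near jets of the chain and the last place; `JfN.jn`: the jets of the next
coordinate from `JEx`.
-/

set_option autoImplicit false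

namespace Pool.PN18

open Finset Real MvPolynomial
open Pool.Agent.H49.Ent Pool.Agent.H32.Dense Pool.STK Pool.KA Pool.KSAT Pool.K2S Pool.PB Pool.GEN
open Pool.S6C Pool.RCD Pool.LA91 Pool.OWN68 Pool.AJW Pool.AJX Pool.CHT
open Pool.GRD (LbP)
open Pool.ALT (Fml DpI)

theorem kn_T {m : ℕ} (c : ℕ → Fin m) (p lam : ℝ) :
    Kn ((range 0).image c) p lam (fun (J : ℕ) (F : Fam m J) => F.T) := fun J F =>
  ⟨fun T => (T, (fun _ => 0), fun _ => 0), fun ω => by simp⟩

theorem ptr_id {m : ℕ} (J : ℕ) (F : Fam m J) : ∃ φ : PtT F → PtT F, ∀ ω,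
    ptr F J ω = φ (ptr F J ω) := ⟨id, fun _ => rfl⟩

section

variable {m : ℕ} {S : PCl m} {C₀ : ℝ} {c : ℕ → Fin m} {r : ℕ} {sn : ℕ → ℝ → ℝ} {G : Set ℝ}
  {v w X φ lam kf e₁ : ℝ} {v₀ pf : ℕ → ℝ} {Nf : ℕ → ℕ → ℝ} {K : ℕ} {U₀ : Type} {Q : Qt m U₀}

theorem _root_.Pool.AJW.JfN.X0 (H : JfN r sn G v w X φ lam kf v₀ K) : 0 < X := by
  have h1 := H.φX
  have h2 := H.φ0
  have h3 : 0 ≤ (r : ℝ) * φ := mul_nonneg (Nat.cast_nonneg r) h2.le
  nlinarith

theorem _root_.Pool.AJW.JfN.lamX (H : JfN r sn G v w X φ lam kf v₀ K) : X + (w - v) ≤ lam := by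
  have h1 : (1 : ℝ) ≤ 3 ^ r := one_le_pow₀ (by norm_num)
  have h2 := H.X0
  have h3 := H.kfX
  have h4 := H.lamk
  nlinarith

/-- **The near jets of the chain.** -/
theorem _root_.Pool.AJW.JfN.near (H : JfN r sn G v w X φ lam kf v₀ K) (htm : TmC S C₀)
    (hch : ChG S c (r + 1) sn G) (hpf : ∀ l < r, sn l w - φ ≤ pf l)
    (hNf : ∀ l < r, ∀ j ≤ 1, sn l w + kf - φ ≤ Nf l j + (j : ℕ) * w) :
    JetA S (fun J F => ptr F J) (vg w) (fun _ F => F.T)
      (qJets m c 0 r 1 (fun _ _ => w) (fun l _ => pf l) Nf) c 0 r v (fun i => sn i v)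
      (nX r sn v X) (φ / 8) := by
  obtain ⟨uw, rw, hrw, hcw⟩ := hch.ch w H.wG
  exact far_jetV htm (far_of hch H hpf hNf) le_rfl hcw.u0.le ptr_id (kn_T c _ _)

/-- The jets of the chain exist. -/
theorem _root_.Pool.AJW.JfN.exv (H : JfN r sn G v w X φ lam kf v₀ K)
    (hch : ChG S c (r + 1) sn G) (j : ℕ) :
    Exs S (qJets m c 0 r j (fun _ _ => v) (fun l _ => sn l v)
      (fun l j' => nX r sn v X l - (j' : ℕ) * v)) := by
  obtain ⟨uv, rv, hrv, hcv⟩ := hch.ch v H.vG
  exact exs_qjets fun i x y j' _ => exs_jet (hrv i (by omega)) (hcv.att i x (by omega))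

/-- **From the labels of one window to those of another one.** -/
theorem _root_.Pool.AJW.JfN.tr (H : JfN r sn G v w X φ lam kf v₀ K) (htm : TmC S C₀)
    (hch : ChG S c (r + 1) sn G)
    (hA : JetA S (fun J F => ptr F J) (vg w) (fun _ F => F.T) Q c 0 r v (fun i => sn i v)
      (nX r sn v X) e₁) {k : Fin m} {j : ℕ} {w₁ w₂ p₁ p₂ N₁ N : ℝ} (hw₁ : w₁ ≤ w) (hw₂ : w₂ ≤ w)
    (hN : N ≤ N₁) (h3 : N + j * w + 3 * φ + (w - v) ≤ min p₁ p₂ + X) {e η h : ℝ} (he0 : 0 < e)
    (he1 : e ≤ e₁) (he : e ≤ φ / 8) (hh : 0 < h)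
    (hexJ : Exs S (qJet m ((range r).image c) k j w₁ p₁ N₁))
    (hJ : F1 S (fun J F => ptr F J) (vg w) (fun _ F => F.T) Q
      (qJet m ((range r).image c) k j w₁ p₁ N₁) e η) :
    F1 S (fun J F => ptr F J) (vg w) (fun _ F => F.T) Q
      (qJet m ((range r).image c) k j w₂ p₂ N) e (η + h) := by
  obtain ⟨uw, rw, hrw, hcw⟩ := hch.ch w H.wG
  have hvw := H.vw
  have hφ := H.φ0
  have hX0 := H.X0
  have hlX := H.lamX
  have hφX := H.φX
  have hXK := H.XK
  have hrφ : 0 ≤ (r : ℝ) * φ := mul_nonneg (Nat.cast_nonneg r) hφ.le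
  have hKD : 0 ≤ (K : ℝ) * (w - v) := mul_nonneg (Nat.cast_nonneg K) (by linarith)
  have hak : ∀ l < r, 3 * aX r X l ≤ kf := fun l hl => (aX_le hX0.le hl).trans H.kfX
  have hfl : ∀ i < r, sn i v + (w - v) - φ ≤ sn i w ∧ sn i w ≤ sn i v + (w - v) + φ :=
    fun i hi => by
      have := abs_le.1 (H.fl i hi)
      exact ⟨by linarith [this.1], by linarith [this.2]⟩
  have hmn : ∀ i < r, sn i v - φ ≤ min (sn i v) (sn i w) := fun i hi =>
    le_min (by linarith) (by linarith [(hfl i hi).1])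
  have hV := F1.qjets' (v := v) (p := fun i => sn i v) (n := nX r sn v X) (r₀ := 0) (r := r)
    (c := c) htm (j := j) (half_pos hh) (fun η' hη' i x y j' _ =>
      (hA η' hη' i x y j').mono he1 le_rfl)
  have key := jet_tr2 (w := w) (lv := fun l => aX r X l - (w - v) - 2 * φ) (n := nX r sn v X)
    (p := fun i => sn i v) htm (hcw.take (Nat.zero_le _) (Nat.le_succ r)) (k := k) (j := j)
    (v := v) (lam := lam) (w₁ := w₁) (w₂ := w₂) (p₁ := p₁) (p₂ := p₂) (N₁ := N₁) (N := N)
    (σ := φ) hvw.le hw₁ hw₂ (by linarith) H.l1.le hφ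
    (fun i _ _ => by linarith [aX_ge hX0.le (r := r) i]) ?_ ?_ ?_ hN ?_ ?_ ptr_id (kn_T c _ _)
    (e := e) (η := h / 2) (η' := η) (h := h / 2) he (half_pos hh) he0 (H.exv hch j) hexJ hV hJ
  · refine key.mono le_rfl (by linarith)
  · intro l _ hl
    have h1 := (hfl l hl).2
    show sn l w + (aX r X l - (w - v) - 2 * φ) + φ ≤ nX r sn v X l
    unfold nX
    linarith
  · intro i _ hi
    have h1 := (hfl i hi).2
    have h2 := hmn i hi
    have h3 := hak i hi
    have h4 := aX_ge hX0.le (r := r) i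
    have h5 := H.lamk
    show sn i w + (aX r X i - (w - v) - 2 * φ) + φ ≤ min (sn i v) (sn i w) + (v + lam - w)
    linarith
  · intro i _ hi l _ hl
    have h1 := (hfl i hi).2
    have h2 := hmn i hi
    have h3 := aX_nest hX0.le hl hi
    have h4 := aX_ge hX0.le (r := r) i
    show sn i w + (aX r X i - (w - v) - 2 * φ) + φ ≤ min (sn i v) (sn i w) +
      (aX r X l - (w - v) - 2 * φ)
    linarith
  · linarith
  · intro l _ _
    linarith [aX_ge hX0.le (r := r) l]

/-- **The jets of a closed polynomial over the chain** at the window `w`. -/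
theorem _root_.Pool.AJW.JfN.selfw (H : JfN r sn G v w X φ lam kf v₀ K) (htm : TmC S C₀)
    (hch : ChG S c (r + 1) sn G)
    (hA : JetA S (fun J F => ptr F J) (vg w) (fun _ F => F.T) Q c 0 r v (fun i => sn i v)
      (nX r sn v X) e₁) {k : Fin m} (hk : k ∈ (range r).image c) {j : ℕ} {P N : ℝ}
    (h3 : N + j * w + 3 * φ + (w - v) ≤ P + X) {e h : ℝ} (he0 : 0 < e)
    (he1 : e ≤ e₁) (he : e ≤ φ / 8) (hh : 0 < h) :
    F1 S (fun J F => ptr F J) (vg w) (fun _ F => F.T) Q
      (qJet m ((range r).image c) k j w P N) e h := by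
  obtain ⟨uw, rw, hrw, hcw⟩ := hch.ch w H.wG
  have hvw := H.vw
  have hφ := H.φ0
  have hX0 := H.X0
  have hlX := H.lamX
  have hφX := H.φX
  have hXK := H.XK
  have hrφ : 0 ≤ (r : ℝ) * φ := mul_nonneg (Nat.cast_nonneg r) hφ.le
  have hKD : 0 ≤ (K : ℝ) * (w - v) := mul_nonneg (Nat.cast_nonneg K) (by linarith)
  have hak : ∀ l < r, 3 * aX r X l ≤ kf := fun l hl => (aX_le hX0.le hl).trans H.kfX
  have hfl : ∀ i < r, sn i v + (w - v) - φ ≤ sn i w ∧ sn i w ≤ sn i v + (w - v) + φ :=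
    fun i hi => by
      have := abs_le.1 (H.fl i hi)
      exact ⟨by linarith [this.1], by linarith [this.2]⟩
  have hmn : ∀ i < r, sn i v - φ ≤ min (sn i v) (sn i w) := fun i hi =>
    le_min (by linarith) (by linarith [(hfl i hi).1])
  have hV := F1.qjets' (v := v) (p := fun i => sn i v) (n := nX r sn v X) (r₀ := 0) (r := r)
    (c := c) htm (j := j) (half_pos hh) (fun η' hη' i x y j' _ =>
      (hA η' hη' i x y j').mono he1 le_rfl)
  have key := self_F2 (w := w) (lv := fun l => aX r X l - (w - v) - 2 * φ) (n := nX r sn v X)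
    (p := fun i => sn i v) htm (hcw.take (Nat.zero_le _) (Nat.le_succ r)) hk (j := j)
    (v := v) (lam := lam) (P := P) (N := N)
    (σ := φ) hvw.le (by linarith) H.l1.le hφ
    (fun i _ _ => by linarith [aX_ge hX0.le (r := r) i]) ?_ ?_ ?_ ?_ ?_ ptr_id (kn_T c _ _)
    (e := e) (η := h / 2) (h := h / 2) he (half_pos hh) he0 (H.exv hch j) hV
  · refine key.mono le_rfl (by linarith)
  · intro l _ hl
    have h1 := (hfl l hl).2
    show sn l w + (aX r X l - (w - v) - 2 * φ) + φ ≤ nX r sn v X l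
    unfold nX
    linarith
  · intro i _ hi
    have h1 := (hfl i hi).2
    have h2 := hmn i hi
    have h3 := hak i hi
    have h4 := aX_ge hX0.le (r := r) i
    have h5 := H.lamk
    show sn i w + (aX r X i - (w - v) - 2 * φ) + φ ≤ min (sn i v) (sn i w) + (v + lam - w)
    linarith
  · intro i _ hi l _ hl
    have h1 := (hfl i hi).2
    have h2 := hmn i hi
    have h3 := aX_nest hX0.le hl hi
    have h4 := aX_ge hX0.le (r := r) i
    show sn i w + (aX r X i - (w - v) - 2 * φ) + φ ≤ min (sn i v) (sn i w) +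
      (aX r X l - (w - v) - 2 * φ)
    linarith
  · linarith
  · intro l _ _
    linarith [aX_ge hX0.le (r := r) l]

/-- The levels of the digits at the window `v`. -/
theorem _root_.Pool.AJW.JfN.lvs (H : JfN r sn G v w X φ lam kf v₀ K) :
    (∀ l < r, 0 < aX r X l - 2 * φ) ∧ (∀ l < r, aX r X l - 2 * φ + φ ≤ lam) ∧
    (∀ l < r, ∀ l' < l, aX r X l - 2 * φ + φ ≤ aX r X l' - 2 * φ) ∧
    ∀ l < r, X - 2 * φ ≤ aX r X l - 2 * φ := by
  have hφ := H.φ0
  have hX0 := H.X0
  have hlX := H.lamX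
  have hφX := H.φX
  have hvw := H.vw
  have hrφ : 0 ≤ (r : ℝ) * φ := mul_nonneg (Nat.cast_nonneg r) hφ.le
  refine ⟨fun l _ => ?_, fun l hl => ?_, fun l hl l' hl' => ?_, fun l _ => ?_⟩
  · linarith [aX_ge hX0.le (r := r) l]
  · have h1 := aX_le hX0.le hl
    have h2 := H.kfX
    have h3 := H.lamk
    have h4 := aX_ge hX0.le (r := r) l
    linarith
  · have h1 := aX_nest hX0.le hl' hl
    have h2 := aX_ge hX0.le (r := r) l
    linarith
  · linarith [aX_ge hX0.le (r := r) l]

/-- **The jets of a closed polynomial over the chain** at the window `v`. -/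
theorem _root_.Pool.AJW.JfN.selfv (H : JfN r sn G v w X φ lam kf v₀ K) (htm : TmC S C₀)
    (hch : ChG S c (r + 1) sn G)
    (hA : JetA S (fun J F => ptr F J) (vg w) (fun _ F => F.T) Q c 0 r v (fun i => sn i v)
      (nX r sn v X) e₁) {k : Fin m} (hk : k ∈ (range r).image c) {j : ℕ} {P N : ℝ}
    (h3 : N + j * v + 3 * φ ≤ P + X) {e h : ℝ} (he0 : 0 < e)
    (he1 : e ≤ e₁) (he : e ≤ φ / 8) (hh : 0 < h) :
    F1 S (fun J F => ptr F J) (vg w) (fun _ F => F.T) Q
      (qJet m ((range r).image c) k j v P N) e h := by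
  obtain ⟨uv, rv, hrv, hcv⟩ := hch.ch v H.vG
  obtain ⟨uw, rw, hrw, hcw⟩ := hch.ch w H.wG
  have hvw := H.vw
  have hφ := H.φ0
  have hlX := H.lamX
  obtain ⟨l1, l2, l3, l4⟩ := H.lvs
  have hV := F1.qjets' (v := v) (p := fun i => sn i v) (n := nX r sn v X) (r₀ := 0) (r := r)
    (c := c) htm (j := j) (half_pos hh) (fun η' hη' i x y j' _ =>
      (hA η' hη' i x y j').mono he1 le_rfl)
  have key := self_F1 (lv := fun l => aX r X l - 2 * φ) (n := nX r sn v X)
    (p := fun i => sn i v) htm hk (j := j) (σ := φ) (e₁ := e) (η := h / 2) (h := h / 2) (N := N)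
    (P := P) (lam := lam) (hcv.take (Nat.zero_le _) (Nat.le_succ r)) hvw.le hcw.u0.le hφ
    (by linarith [H.X0]) H.l1.le (fun l _ hl => l1 l hl)
    (fun l _ hl => by
      show sn l v + (aX r X l - 2 * φ) + φ ≤ nX r sn v X l
      unfold nX
      linarith) (fun l _ hl => l2 l hl) (fun l _ hl l' _ hl' => l3 l hl l' hl')
    (by linarith [H.X0]) (fun l _ hl => by linarith [l4 l hl]) ptr_id (kn_T c _ _) he0
    (half_pos hh) (H.exv hch j) hV
  refine key.mono (le_min le_rfl he) (by linarith)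

/-- **The natural jets of the last place over the labels of an early window** `vn`. -/
theorem _root_.Pool.AJW.JfN.unat (H : JfN r sn G v w X φ lam kf v₀ K) (htm : TmC S C₀)
    (hch : ChG S c (r + 1) sn G)
    (hA : JetA S (fun J F => ptr F J) (vg w) (fun _ F => F.T) Q c 0 r v (fun i => sn i v)
      (nX r sn v X) e₁) {j : ℕ} {vn N : ℝ} (hvn : vn ≤ w) (hN : N + j * w ≤ sn r w)
    (h3 : N + j * w + 3 * φ + (w - v) ≤ min (sn r w) (sn r vn) + X) {e h : ℝ} (he0 : 0 < e)
    (he1 : e ≤ e₁) (he : e ≤ φ / 8) (hh : 0 < h) (heh : e ≤ h / 16) :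
    F1 S (fun J F => ptr F J) (vg w) (fun _ F => F.T) Q
      (qJet m ((range r).image c) (c r) j vn (sn r vn) N) e h := by
  obtain ⟨uw, rw, hrw, hcw⟩ := hch.ch w H.wG
  have h1 := F1.of0 (Q := Q) htm ((few0_jq htm hcw.w0 hcw.u0 hN (fun J F => ptr F J) (vg w)
    (fun _ F => F.T) (I := (range r).image c) (k := c r) (j := j) (half_pos hh)).mono
    (show e ≤ h / 2 / 8 by linarith) le_rfl)
  have h2 := H.tr htm hch hA le_rfl hvn (le_refl N) h3 he0 he1 he (half_pos hh)
    (exs_jet (hrw r (Nat.lt_succ_self r)) (hcw.att r (Nat.zero_le _) (Nat.lt_succ_self r))) h1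
  exact h2.mono le_rfl (by linarith)

/-- **The near jets of the chain and the last place** over the labels of an early window. -/
theorem _root_.Pool.AJW.JfN.near1 {vn : ℝ} {vn₀ : ℕ → ℝ} (H : JfN r sn G v w X φ lam kf v₀ K)
    (Hn : JfN r sn G vn w X φ lam kf vn₀ K) (htm : TmC S C₀) (hch : ChG S c (r + 1) sn G)
    (hA : JetA S (fun J F => ptr F J) (vg w) (fun _ F => F.T) Q c 0 r v (fun i => sn i v)
      (nX r sn v X) e₁)
    (hAn : JetA S (fun J F => ptr F J) (vg w) (fun _ F => F.T) Q c 0 r vn (fun i => sn i vn)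
      (nX r sn vn X) e₁) {j : ℕ}
    (h3 : sn r w + 2 * φ + (w - v) ≤ min (sn r w) (sn r vn) + X) {e h : ℝ} (he0 : 0 < e)
    (he1 : e ≤ e₁) (he : e ≤ φ / 8) (hh : 0 < h) (heh : e ≤ h / (16 * ((r + 1) * (j + 1)))) :
    F1 S (fun J F => ptr F J) (vg w) (fun _ F => F.T) Q
      (qJets m c 0 (r + 1) j (fun _ _ => vn) (fun l _ => sn l vn)
        (fun l j' => if l < r then nX r sn vn X l - (j' : ℕ) * vn else
          sn r w - φ - (j' : ℕ) * w)) e h := by
  have hnn : (0 : ℝ) < (r + 1) * (j + 1) := by positivity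
  have hvn := Hn.vw
  have hφ := H.φ0
  refine (F1.qjets htm (η := h / ((r + 1) * (j + 1))) (by positivity)
    (fun i _ hi j' hj' => ?_)).mono le_rfl (le_of_eq ?_)
  · rcases Nat.lt_or_ge i r with h1 | h1
    · rw [if_pos h1]
      exact (hAn _ (by positivity) i (Nat.zero_le i) h1 j').mono he1 le_rfl
    · obtain rfl : i = r := by omega
      rw [if_neg (lt_irrefl i)]
      refine H.unat htm hch hA hvn.le (by linarith) ?_ he0 he1 he (by positivity) ?_
      · have e1 : sn i w - φ - (j' : ℕ) * w + j' * w + 3 * φ + (w - v) =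
          sn i w + 2 * φ + (w - v) := by ring
        rw [e1]
        exact h3
      · have e1 : h / ((i + 1 : ℝ) * (j + 1)) / 16 = h / (16 * ((i + 1) * (j + 1))) := by
          rw [div_div]
          congr 1
          ring
        rw [e1]
        exact heh
  · push_cast
    field_simp

/-- **The jets of the next coordinate over the labels of the early window** from those of one label
on each event. -/
theorem _root_.Pool.AJW.JfN.jn {vn : ℝ} {vn₀ : ℕ → ℝ} (H : JfN r sn G v w X φ lam kf v₀ K)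
    (Hn : JfN r sn G vn w X φ lam kf vn₀ K) (htm : TmC S C₀) (hch : ChG S c (r + 1) sn G)
    (hA : JetA S (fun J F => ptr F J) (vg w) (fun _ F => F.T) Q c 0 r v (fun i => sn i v)
      (nX r sn v X) e₁)
    (hAn : JetA S (fun J F => ptr F J) (vg w) (fun _ F => F.T) Q c 0 r vn (fun i => sn i vn)
      (nX r sn vn X) e₁) {j D : ℕ} {k : Fin m}
    (h3 : sn r w + 2 * φ + (w - v) ≤ min (sn r w) (sn r vn) + X) {e h : ℝ} (he0 : 0 < e)
    (he1 : e ≤ e₁) (he : e ≤ φ / 8) (hh : 0 < h) (heh : e ≤ h / (32 * ((r + 1) * (j + 1))))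
    {E R p N η lr : ℝ} (hlr : 0 < lr) (h4 : sn r vn + lr + 2 * φ + j * (w - vn) ≤ sn r w)
    (h5 : lr + 3 * φ ≤ X) (h6 : N + j * vn + φ ≤ p + lr)
    (hE : JEx S (fun J F => ptr F J) w (fun _ F => F.T) Q ((range (r + 1)).image c) k D E R vn p
      j N e η) :
    F1 S (fun J F => ptr F J) (vg w) (fun _ F => F.T) Q
      (qJet m ((range (r + 1)).image c) k j vn p N) e (η + h) := by
  obtain ⟨uv, rv, hrv, hcv⟩ := hch.ch vn Hn.vG
  obtain ⟨uw, rw, hrw, hcw⟩ := hch.ch w Hn.wG
  have hvn := Hn.vw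
  have hφ := H.φ0
  have hlX := Hn.lamX
  have hl1 := Hn.l1
  obtain ⟨l1, l2, l3, l4⟩ := Hn.lvs
  have hV := H.near1 Hn htm hch hA hAn (j := j) h3 he0 he1 he (half_pos hh) (by
    have e1 : h / 2 / (16 * (((r : ℝ) + 1) * (j + 1))) = h / (32 * ((r + 1) * (j + 1))) := by
      rw [div_div]
      congr 1
      ring
    rw [e1]
    exact heh)
  have hex : Exs S (qJets m c 0 (r + 1) j (fun _ _ => vn) (fun l _ => sn l vn)
        (fun l j' => if l < r then nX r sn vn X l - (j' : ℕ) * vn else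
          sn r w - φ - (j' : ℕ) * w)) :=
    exs_qjets fun i x y j' _ => exs_jet (hrv i y) (hcv.att i x y)
  have key := hE.f1 htm hcv (lv := fun l => if l < r then aX r X l - 2 * φ else lr)
    (Nv := fun l j' => if l < r then nX r sn vn X l - (j' : ℕ) * vn else
          sn r w - φ - (j' : ℕ) * w) (lam := lam) (σ := φ) (e₁ := e) (η := h / 2) (h := h / 2)
    hvn.le hcw.u0.le hφ (by linarith [H.X0]) hl1.le ?_ ?_ ?_ ?_ ?_ ?_ ptr_id (kn_T c _ _) he0
    le_rfl he (half_pos hh) hex hV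
  · exact key.mono le_rfl (by linarith)
  · intro l _ hl
    by_cases h7 : l < r
    · rw [if_pos h7]
      exact l1 l h7
    · rw [if_neg h7]
      exact hlr
  · intro l _ hl j' hj'
    by_cases h7 : l < r
    · rw [if_pos h7, if_pos h7]
      unfold nX
      linarith
    · obtain rfl : l = r := by omega
      rw [if_neg h7, if_neg h7]
      have h8 : (j' : ℝ) * (w - vn) ≤ j * (w - vn) :=
        mul_le_mul_of_nonneg_right (by exact_mod_cast hj') (by linarith)
      linarith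
  · intro l _ hl
    by_cases h7 : l < r
    · rw [if_pos h7]
      exact l2 l h7
    · rw [if_neg h7]
      linarith
  · intro l _ hl l' _ hl'
    have h8 : l' < r := by omega
    rw [if_pos h8]
    by_cases h7 : l < r
    · rw [if_pos h7]
      exact l3 l h7 l' hl'
    · rw [if_neg h7]
      linarith [l4 l' h8]
  · linarith
  · intro l _ hl
    by_cases h7 : l < r
    · rw [if_pos h7]
      linarith [l4 l h7]
    · rw [if_neg h7]
      exact h6

end

end Pool.PN18
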