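import Pool.Agent.H18.D2G.Gch
import Pool.Agent.H3.V0F.Attu

/-!
# The chain of the base at all the windows, full behind its last level

`CuQ`: at all windows of `G` the coordinates before the last one are a full chain with natural labels,
all of them together are full behind the level of the last of them. `aePG_cu`, `her_cu`.
-/

set_option autoImplicit false

namespace Pool.PKG

open Finset MeasureTheory Filter
open Pool.Agent.H49.Ent Pool.Agent.H32.Dense Pool.STK Pool.KA Pool.KSAT Pool.K2S Pool.PB Pool.GEN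
open Pool.S6C Pool.GRW
open Pool.TOP (TopS)
open Pool.CHT
open Pool.OWN72 (epo cc_epo cc_inj3 gs_exa gs_vs)
open Pool.LA91 (Chn ChG Att Ful FulC HerQ)

variable {n : ℕ} {hn : 2 ≤ n} {S : PCl n} {P : ℝ → ℝ → ℝ} {rr : ℝ → ℝ}
  {P' : ℕ → List (Fin n) × Fin n → ℝ → ℝ → ℝ} {Λ : Finset (Fin n) → Fin n → ℝ → ℝ → ℝ}

/-- **The chain at a good window.** -/
theorem gs_chnu (H : Pk hn S P rr P' Λ) (hTop : TopS n) (hF : FZX (n - 1)) {o : Od n} {w : ℝ}
    (hw : w ∈ Gs P rr P' Λ o) {i : ℕ} (hi : i ≤ n - 1) :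
    ∃ rd : ℕ → ℝ, (∀ l < i, 0 ≤ rd l) ∧
      Chn S (cc hn o.1.1) 0 i w w (vs Λ (epo hn o) w i) (fun l => LvL hn P P' o l w w) rd := by
  obtain ⟨α, Q, c, F⟩ := H.fac hTop hF hw
  have hw0 := F.g0
  have hw1 := F.g1
  have hex := gs_exa H hF hw
  have hWv : w ∈ Wv Λ (epo hn o) := hw.1.1
  obtain ⟨-, -, hg, hct⟩ := hWv
  have hth := tht_pos o.2
  have hs0 : ∀ l, w ≤ vs Λ (epo hn o) w l := le_vs H.lam _ hw1.le
  have hlt : ∀ l, l < n - 1 → vs Λ (epo hn o) w (l + 1) < 1 := fun l hl => by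
    rw [← gs_lvl H hTop hF hw hl, LvL_lt o hl]
    have h1 := F.le l hl w w hw0 le_rfl F.gα
    have h2 := F.thc
    linarith
  have hlt' : ∀ l ≤ n - 1, vs Λ (epo hn o) w l < 1 := fun l hl => by
    rcases Nat.eq_zero_or_pos l with rfl | h
    · exact hw1
    · obtain ⟨k, rfl⟩ : ∃ k, l = k + 1 := ⟨l - 1, by omega⟩
      exact hlt k (by omega)
  have hmono := hg.mono H.lam hw1.le
  refine ⟨fun l => vs Λ (epo hn o) w l, fun l _ => hw0.le.trans (hs0 l), ?_⟩
  refine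
    { hr := Nat.zero_le _
      inj := (cc_inj3 (hn := hn) o).mono fun x hx => by
        rw [Set.mem_Iio] at hx ⊢
        omega
      w0 := hw0.le
      wu0 := le_rfl
      u0 := hw1
      wu1 := hs0 i
      u1 := hlt' i hi
      s0 := fun l _ hl => ?_
      r1 := fun l _ hl => hlt' l (by omega)
      att := fun l _ hl => ?_
      base := fun u hu hu1 => ?_
      pre := fun k _ hk => ?_
      ful := fun ρ hρ => ?_ }
  · show 0 ≤ LvL hn P P' o l w w ∧ LvL hn P P' o l w w < 1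
    rw [gs_lvl H hTop hF hw (by omega)]
    exact ⟨hw0.le.trans (hs0 _), hlt l (by omega)⟩
  · show Att S ((range l).image (cc hn o.1.1)) (cc hn o.1.1 l) w (LvL hn P P' o l w w)
      (vs Λ (epo hn o) w l)
    rw [gs_lvl H hTop hF hw (by omega)]
    intro e he
    obtain ⟨K, hK⟩ := vst_att H.lam hw0 hw1 hg hct he
    refine ⟨K, Bas.mono 0 (hK ⟨l, by omega⟩ ⟨l, by omega⟩ le_rfl) ?_⟩
    intro J _ F A h
    have hJ : (0 : ℝ) ≤ J := Nat.cast_nonneg J
    have h2 : (Iio (⟨l, by omega⟩ : Fin (n - 1))).image (epo hn o) =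
        (range l).image (cc hn o.1.1) := (img_eq (cc_epo (hn := hn) o) ⟨l, by omega⟩)
    have h3 : epo hn o ⟨l, by omega⟩ = cc hn o.1.1 l := (cc_epo (hn := hn) o ⟨l, by omega⟩).symm
    rw [h2, h3] at h
    obtain ⟨V, z, z', G, h⟩ := h
    exact ⟨V, z, z', G, h.mono (Finset.Subset.refl _) le_rfl le_rfl
      (Nat.floor_le_floor (mul_le_mul_of_nonneg_right (min_le_left _ _) hJ)) le_rfl⟩
  · intro ρ hρ
    refine Bas.mono 0 H.pos fun J _ F A hA V z z' _ => ?_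
    have hJ : (0 : ℝ) ≤ J := Nat.cast_nonneg J
    have h1 : ((range 0).image (cc hn o.1.1)).card = 0 := by simp
    rw [h1, Nat.cast_zero, zero_mul, zero_sub]
    refine le_trans ?_ (CH_nonneg (isLaw_cond F.isLaw hA).nonneg _ _)
    have := mul_nonneg hρ.le hJ
    linarith
  · exact Pool.JMP45.ful_of H.tmc H.lam (cc_epo (hn := hn) o) hw.1.1 hex (hk.trans hi)
      (hmono hk)
  · refine Bas.mono 0 (vst_crd H.pos H.lam (cc_epo (hn := hn) o) hw0 hw1 hg hct hex hρ)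
      fun J _ F A h V z z' hz l _ hl => ?_
    have h1 := h V z z' hz l (by omega)
    show ((1 - LvL hn P P' o l w w) - ρ) * Real.log 2 * J ≤ _
    rw [gs_lvl H hTop hF hw (show l < n - 1 by omega)]
    exact h1


/-- **The chain at all windows of** `G`, full behind the level of its last coordinate. -/
def CuQ {n : ℕ} (_ : Unit) (_ : ℕ) (S : PCl n) (_ : List (Fin n) × Fin n → ℝ → ℝ → ℝ) (_ : ℝ)
    (c : ℕ → Fin n) (_ : ℝ → ℝ → ℝ) (_ : ℝ → ℝ) (L _ : ℕ → ℝ → ℝ → ℝ) (_ : ℕ → Kg)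
    (G : Set ℝ) (_ : ℝ) : Prop :=
  ∀ w ∈ G, ∃ rd : ℕ → ℝ, (∀ l < n - 1, 0 ≤ rd l) ∧
    Chn S c 0 (n - 1) w w (L (n - 2) w w) (fun l => L l w w) rd

theorem her_cu (n : ℕ) : HerQ (CuQ : PropG n Unit) := by
  intro p k₀ S S' P θ c Pt r L T κ G x hs h w hw
  obtain ⟨rd, h1, h2⟩ := h w hw
  exact ⟨rd, h1, h2.sub hs⟩

/-- **It holds at almost every window.** -/
theorem aePG_cu (n : ℕ) : AePG n (CuQ : PropG n Unit) := by
  intro hn S P r P' Λ PB PQ H hTop hF o G hG hGs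
  refine ⟨S, H.toPk.ne, fun _ _ _ _ h => h, Eventually.of_forall fun g hg κ _ _ =>
    ⟨0, fun w hw => ?_⟩⟩
  obtain ⟨rd, h1, h2⟩ := gs_chnu H.toPk hTop hF (hGs hw) (i := n - 1) le_rfl
  refine ⟨rd, h1, ?_⟩
  have h3 := gs_lvl H.toPk hTop hF (hGs hw) (l := n - 2) (by omega)
  have e1 : n - 2 + 1 = n - 1 := by omega
  rw [e1] at h3
  rw [h3]
  exact h2

end Pool.PKG
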