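import Pool.Agent.H18.PN.Pyr
import Pool.Agent.H18.PN.Cuq
import Pool.Agent.H80.ASB.Cb1

/-!
# Jointly nonfull pairs at the windows of full rate

`pairY_ba`: the data of a jointly nonfull pair at all scales of the record, if the rate of the last
coordinate alone is almost the full one and the last slope is at most the slope before.
-/

set_option autoImplicit false

namespace Pool.PN18

open Finset Real MvPolynomial
open Pool.Agent.H49.Ent Pool.Agent.H32.Dense Pool.STK Pool.KA Pool.KSAT Pool.K2S Pool.PB Pool.GEN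
open Pool.S6C Pool.RCD Pool.LA91 Pool.OWN68 Pool.AJW Pool.AJX Pool.CHT Pool.PKG Pool.ALT Pool.GRW
open Pool.V0F (LbU)
open Pool.ASM (AdmN)

/-- The records of full rate. -/
def ZfR (r : ℕ) (Sl : ℕ → ℝ) : PropZ (r + 2) (PosR × ℕ) :=
  fun b => FulR (AdmN r) (Sl (r + 1) * Real.log 2) b.1 b.2

/-- **Jointly nonfull pairs at the windows of full rate.** -/
theorem pairY_ba {r : ℕ} (hr : 1 ≤ r) {h : ℝ} (hh : 0 < h) (hh1 : h ≤ 1) {Sl : ℕ → ℝ}
    {κ : ℕ → Kg} (hκ : ∀ l < r, κ l = .one) (ha : 1 < Sl r) (hb : 0 < Sl (r + 1))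
    (hab : Sl (r + 1) ≤ Sl r) (Y : PropY (r + 2)) :
    PairY (r + 2) r h Sl κ (sumQ (AltR : PropG (r + 2) AltUI) (CuQ : PropG (r + 2) Unit))
      (ZfR r Sl) Y := by
  intro al hal K₀ hK₀ S₀ hS₀
  obtain ⟨D, hD1, HL⟩ := rec_lab r S₀ hS₀
  have hτa : Sl r < pzT (Sl r) := pzT_gt ha
  have ha0 : 0 < Sl r := by linarith only [ha]
  have hτ0 : 0 < pzT (Sl r) := by linarith only [ha0, hτa]
  have haa : 0 < Sl r * Sl r := mul_pos ha0 ha0
  have hab0 : 0 < Sl r * Sl (r + 1) := mul_pos ha0 hb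
  have hr0 : (0 : ℝ) ≤ r := Nat.cast_nonneg r
  have hfl : 0 < (⌊Sl (r + 1)⌋₊ : ℝ) + 1 - Sl (r + 1) := by
    have := Nat.lt_floor_add_one (Sl (r + 1))
    linarith only [this]
  have hD0 : 0 < pzD (Sl r) (Sl (r + 1)) := by
    unfold pzD
    positivity
  have hlog : 0 < Real.log 2 := Real.log_pos (by norm_num)
  refine ⟨1, 0, fun _ => 0, fun _ => 0, le_rfl, fun k hk => absurd hk (Nat.not_lt_zero k),
    fun S₂ hS₂ dd hdd => ⟨max D D * max 1 D, h * Sl (r + 1), pzD (Sl r) (Sl (r + 1)),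
    mul_pos hh hb, ?_, ?_, fun δ hδ N₀ hN₀ => ?_⟩⟩
  · have := mul_le_mul_of_nonneg_right hh1 hb.le
    linarith only [this, hab]
  · have := mul_le_mul_of_nonneg_right hh1 hb.le
    linarith only [this]
  refine ⟨max (2 * (6 * pzT (Sl r))) (2 * (Sl r * Sl r) + 2), fun X hX => ?_⟩
  have hX1 := (le_max_left _ _).trans hX
  have hX2 := (le_max_right _ _).trans hX
  have hX0 : 0 < X := by linarith only [hX2, haa]
  have h3X : 0 < 3 ^ r * X := by positivity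
  refine ⟨min (1 / 8) (X / (32 * (r + 1))), max (3 ^ r * X)
    (Sl r * Sl (r + 1) + 2 * (r + 1) * (1 / 8) + 1), by positivity, fun φ hφ0 hφ kf hkf => ?_⟩
  have hφ1 := hφ.trans (min_le_left _ _)
  have hX3 : 32 * ((r : ℝ) + 1) * φ ≤ X := by
    have h1 := hφ.trans (min_le_right _ _)
    rw [le_div_iff₀ (by positivity)] at h1
    linarith only [h1]
  have hkf1 := (le_max_left _ _).trans hkf
  have hkf2 : Sl r * Sl (r + 1) + 2 * (r + 1) * φ + 1 ≤ kf := by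
    have h1 := (le_max_right _ _).trans hkf
    have h2 : 2 * ((r : ℝ) + 1) * φ ≤ 2 * (r + 1) * (1 / 8) :=
      mul_le_mul_of_nonneg_left hφ1 (by positivity)
    linarith only [h1, h2]
  refine ⟨max (kf + pzT (Sl r)) (max (3 ^ r * X + Sl r + 1) (Sl r * Sl r + Sl r + 1)),
    fun ℓ hℓ e₁ he₁ => ?_⟩
  have hℓ1 := (le_max_left _ _).trans hℓ
  have hℓ2 := ((le_max_left _ _).trans (le_max_right _ _)).trans hℓ
  have hℓ3 := ((le_max_right _ _).trans (le_max_right _ _)).trans hℓ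
  have hℓ0 : 0 < ℓ := by linarith only [hℓ3, haa, ha0]
  have hδa : 0 < δ * Sl r := mul_pos hδ ha0
  have hbτ0 : 0 < Sl (r + 1) * (pzT (Sl r) - Sl r) := mul_pos hb (by linarith only [hτa])
  -- the accuracy
  obtain ⟨e', he'E⟩ : ∃ e', e' = min (min e₁ (φ / 8)) (min (min (1 / 64)
    (Sl (r + 1) * (pzT (Sl r) - Sl r) / 2)) (δ * Sl r / (4 * (8 * r + 49)))) := ⟨_, rfl⟩
  have he' : 0 < e' := by rw [he'E]; positivity
  have he0 : e' ≤ e₁ := by rw [he'E]; exact (min_le_left _ _).trans (min_le_left _ _)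
  have he1 : e' ≤ φ / 8 := by rw [he'E]; exact (min_le_left _ _).trans (min_le_right _ _)
  have he2 : e' ≤ 1 / 64 := by
    rw [he'E]
    exact (min_le_right _ _).trans ((min_le_left _ _).trans (min_le_left _ _))
  have he3 : 2 * e' ≤ Sl (r + 1) * (pzT (Sl r) - Sl r) := by
    have : e' ≤ Sl (r + 1) * (pzT (Sl r) - Sl r) / 2 := by
      rw [he'E]
      exact (min_le_right _ _).trans ((min_le_left _ _).trans (min_le_right _ _))
    linarith only [this]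
  have he4 : (8 * r + 49) * e' ≤ δ * Sl r / 4 := by
    have : e' ≤ δ * Sl r / (4 * (8 * r + 49)) := by
      rw [he'E]
      exact (min_le_right _ _).trans (min_le_right _ _)
    rw [le_div_iff₀ (by positivity)] at this
    linarith only [this]
  -- the slack
  obtain ⟨δs, hδsE⟩ : ∃ δs, δs = min (δ / 8) (Sl (r + 1) * Real.log 2 / 2) := ⟨_, rfl⟩
  have hδs : 0 < δs := by rw [hδsE]; positivity
  have hδs1 : δs ≤ δ / 8 := by rw [hδsE]; exact min_le_left _ _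
  have hδs2 : δs ≤ Sl (r + 1) * Real.log 2 / 2 := by rw [hδsE]; exact min_le_right _ _
  have hKτ : 0 < 2 * (K₀ + pzT (Sl r)) := by linarith only [hK₀, hτ0]
  obtain ⟨el, hel0, hel⟩ := exists_rat_btwn (show 0 < min (min (δ / 8)
    (Sl (r + 1) * Real.log 2 / 2)) (δ * Sl r / 4 / (2 * (K₀ + pzT (Sl r)))) by positivity)
  have hel1 := hel.le.trans ((min_le_left _ _).trans (min_le_left _ _))
  have hel2 := hel.le.trans ((min_le_left _ _).trans (min_le_right _ _))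
  have hel3 : (el : ℝ) * (2 * (K₀ + pzT (Sl r))) ≤ δ * Sl r / 4 := by
    have := hel.le.trans (min_le_right _ _)
    rwa [le_div_iff₀ hKτ] at this
  have helq : (0 : ℚ) < el := by exact_mod_cast hel0
  -- the windows
  obtain ⟨ms, hmsE⟩ : ∃ ms, ms = e' / (32 * Sl r) := ⟨_, rfl⟩
  have hms0 : 0 < ms := by rw [hmsE]; positivity
  have hams : Sl r * ms ≤ e' / 32 := by
    rw [hmsE]
    refine le_of_eq ?_
    field_simp
  obtain ⟨M, W, hW0, hW1, hW2, hWm, hWs, hWb, hWy⟩ := grid_ex hτ0 hD0.le hms0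
  obtain ⟨V₂, hV₂⟩ : ∃ V₂ : ℕ → ℝ, V₂ = fun k => if k ≤ r then jfV r (-pzT (Sl r)) X k else
    if k = r + 1 then -(K₀ + 1) else W (k - (r + 2)) := ⟨_, rfl⟩
  have v1 : ∀ k ≤ r, V₂ k = jfV r (-pzT (Sl r)) X k := fun k hk => by
    rw [hV₂]
    exact if_pos hk
  have v2 : V₂ (r + 1) = -(K₀ + 1) := by
    rw [hV₂]
    show (if r + 1 ≤ r then _ else if r + 1 = r + 1 then _ else _) = _
    rw [if_neg (by omega), if_pos rfl]
  have v3 : ∀ k, V₂ (r + 2 + k) = W k := fun k => by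
    rw [hV₂]
    show (if r + 2 + k ≤ r then _ else if r + 2 + k = r + 1 then _ else W (r + 2 + k - (r + 2))) = _
    rw [if_neg (by omega), if_neg (by omega), Nat.add_sub_cancel_left]
  obtain ⟨K₂, hK₂⟩ : ∃ K₂, K₂ = pzT (Sl r) + 3 ^ r * X + pzD (Sl r) (Sl (r + 1)) + K₀ + ℓ +
    (Sl (r + 1) * pzT (Sl r) + Sl r * Sl (r + 1)) + Sl r * Sl r + 4 := ⟨_, rfl⟩
  have hbτ1 : 0 < Sl (r + 1) * pzT (Sl r) := mul_pos hb hτ0
  have hVb : ∀ k < r + 2 + (2 * M + 1 + 1 + 1), -K₂ ≤ V₂ k ∧ V₂ k ≤ K₂ := by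
    intro k hk
    rcases Nat.lt_or_ge r k with h1 | h1
    · rcases eq_or_ne k (r + 1) with h2 | h2
      · rw [h2, v2]
        exact ⟨by linarith only [hK₂, hτ0, h3X, hD0, hℓ0, hbτ1, hab0, haa],
          by linarith only [hK₂, hτ0, h3X, hD0, hℓ0, hbτ1, hab0, haa, hK₀]⟩
      · obtain ⟨i, rfl⟩ : ∃ i, k = r + 2 + i := ⟨k - (r + 2), by omega⟩
        rw [v3]
        obtain ⟨h3, h4⟩ := hWb i (by omega)
        exact ⟨by linarith only [h3, hK₂, h3X, hℓ0, hbτ1, hab0, haa, hK₀],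
          by linarith only [h4, hK₂, hτ0, h3X, hD0, hℓ0, hbτ1, hab0, haa, hK₀]⟩
    · rw [v1 k h1]
      obtain ⟨h2, h3⟩ := jfV_mem (r := r) (vv := -pzT (Sl r)) (X := X)
        (by linarith only [hτ0]) hX0.le h1
      exact ⟨by linarith only [h2, hK₂, hD0, hℓ0, hbτ1, hab0, haa, hK₀],
        by linarith only [h3, hK₂, hτ0, h3X, hD0, hℓ0, hbτ1, hab0, haa, hK₀]⟩
  refine ⟨(⟨δs, hδs⟩, max D D * max 1 D), K₂, r + 2 + (2 * M + 1 + 1 + 1), V₂, hVb,
    fun K' hK' => ?_⟩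
  have hK'0 : 0 < K' := by
    linarith only [hK', hK₂, hτ0, h3X, hD0, hℓ0, hbτ1, hab0, haa, hK₀]
  refine ⟨min (φ / 2) (e' / 128), by positivity, fun ε hε hεε S g₀ P θ P₂ θ₂ Eb e₂ c
    Pt rt L T G g hG hg hder hZ => ?_⟩
  have hεφ : 2 * ε ≤ φ := by
    have := hεε.trans (min_le_left _ _)
    linarith only [this]
  have hεe : 128 * ε ≤ e' := by
    have := hεε.trans (min_le_right _ _)
    linarith only [this]
  have hlin : 0 < Sl r * Sl r + Sl r * Sl (r + 1) + 4 := by linarith only [haa, hab0]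
  refine ⟨fun j => if j = 0 then Sum.inl ((range r, max D D * max 1 D), el) else Sum.inr (), 2,
    fun _ => 0, fun _ => 1, fun _ _ => one_pos, fun k₀ hk₀ => ?_⟩
  have hA : AltR ((range r, max D D * max 1 D), el) (k₀ 0) S P θ c Pt rt L T κ G g :=
    hk₀ 0 (by omega)
  have hC : CuQ () (k₀ 1) S P θ c Pt rt L T κ G g := hk₀ 1 (by omega)
  obtain ⟨e₀, ρ₀, π₀, a1, a2, a3, a4⟩ := alt_ful helq hA hg (β := Sl (r + 1) * Real.log 2)
    (δ := δs) (D := max D D * max 1 D) le_rfl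
    (fun i i1 i2 i3 i4 i5 i6 i7 i8 φ e k₀ he hrt =>
      hZ i ⟨i1, i2, i3, i4, i5, i6, i7⟩ i8 φ e k₀ he hrt)
  obtain ⟨μ, hμE⟩ : ∃ μ : ℝ, μ = (1 / 2) ^ (k₀ 0) := ⟨_, rfl⟩
  have hμ : 0 < μ := by rw [hμE]; positivity
  rw [← hμE] at a2 a3
  have hKK : 0 < K₀ + K' := by linarith only [hK₀, hK'0]
  refine ⟨min (μ / (K₀ + K')) (min (μ / 4 / (Sl r * Sl r + Sl r * Sl (r + 1) + 4))
    (μ / (K₀ + pzT (Sl r)))), by positivity, fun q t x hq hx N A V N' V' R hp hv pf pr Nf hpf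
    hpr1 hpr2 hNf hYr => ?_⟩
  have hq0 := R.q0
  have hq1 : (K₀ + K') * q ≤ μ := by
    have h1 := hq.le.trans (min_le_left _ _)
    rw [le_div_iff₀ hKK] at h1
    linarith only [h1]
  have hq2 : (Sl r * Sl r + Sl r * Sl (r + 1) + 4) * q ≤ μ / 4 := by
    have h1 := hq.le.trans ((min_le_right _ _).trans (min_le_left _ _))
    rw [le_div_iff₀ hlin] at h1
    linarith only [h1]
  have hq3 : (K₀ + pzT (Sl r)) * q ≤ (1 / 2) ^ (k₀ 0) := by
    rw [← hμE]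
    have h1 := hq.le.trans ((min_le_right _ _).trans (min_le_right _ _))
    rw [le_div_iff₀ (by linarith only [hK₀, hτ0])] at h1
    linarith only [h1]
  have hnear : ∀ x : ℝ, |x| ≤ K' → |t + x * q - g| ≤ μ := fun x hx => by
    have h1 := abs_le.1 R.near
    have h2 := abs_le.1 hx
    have h3 := mul_le_mul_of_nonneg_right h2.1 hq0.le
    have h4 := mul_le_mul_of_nonneg_right h2.2 hq0.le
    rw [abs_le]
    exact ⟨by linarith only [h1.1, h3, hq1], by linarith only [h1.2, h4, hq1]⟩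
  have R₀ := R.wins hv
  have hVK : ∀ k < r + 2 + (2 * M + 1 + 1 + 1), |V₂ k| ≤ K' := fun k hk => by
    obtain ⟨h1, h2⟩ := hVb k hk
    rw [abs_le]
    exact ⟨by linarith only [h1, hK'], by linarith only [h2, hK']⟩
  obtain ⟨S₁, hne₁, hs₁, R₁, hlab⟩ := HL R₀ hK'0 hVK hC (e₀ := e₀) (ρ₀ := ρ₀) (π₀ := π₀) hμ
    (fun k hk => a3 _ (R₀.memG.2 k hk) (hnear _ (hVK k hk)))
  obtain ⟨S', b1, b2, Ψ, I₂, e, E₂, r₂, p₂, m₁, ρ, E, rd, vn, Pn, En, Rn, K₁, b3, b4, b5, b6, b7,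
    b8, b9⟩ := pairy_rec hr hne₁ hs₁ R₁ hκ ha hb hab hh1 hε hK₀ hC hμ a2 a3 hnear hlab
    (el := el) (dl := δs + el) (k₀ := k₀ 0) hel0.le (by linarith only [hδs, hel0])
    (by linarith only [hδs2, hel2]) (fun S' h1 h2 w₀ h3 h4 h5 => by
      obtain ⟨φ, h6, h7⟩ := a4 S' h1 h2 w₀ h3 h4 h5
      exact ⟨φ, by linarith only [h6], h7⟩) hq3 hW0 hW1 hW2 hWm hms0 hWs hWb hWy
    (fun k hk => ⟨r + 2 + k, by omega, v3 k⟩) ⟨r + 1, by omega, v2⟩
    (fun k hk => ⟨k, by omega, v1 k hk⟩) hX1 hX2 hX3 hkf1 hkf2 hℓ1 hℓ2 hℓ3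
    (by linarith only [hK', hK₂, hτ0, h3X, hD0, hbτ1, hab0, haa, hK₀])
    (by linarith only [hK', hK₂, hD0, hℓ0, hbτ1, hab0, haa, hK₀])
    (by linarith only [hK', hK₂, hτ0, h3X, hD0, hℓ0, haa, hK₀])
    (by linarith only [hK', hK₂, h3X, hD0, hℓ0, hbτ1, hab0, hK₀])
    (by linarith only [hK', hK₂, h3X, hℓ0, hbτ1, hab0, haa])
    hφ0 hφ1 hεφ he' he1 he2 hεe he3 hams hq2 (fun l hl => (hpf l hl).1) hNf hδ he4 hel3
    (by linarith only [hδs1, hel1]) N₀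
  refine ⟨S', b1, b2, Ψ, I₂, e, E₂, r₂, p₂, m₁, ρ, E, rd, vn, Pn, En, Rn, K₁, b3, ?_, b5, b6, b7,
    b8, b9⟩
  exact b4.trans (mul_le_mul_of_nonneg_right he0 hq0.le)

end Pool.PN18
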