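import Pool.Agent.H68.OWN.Nd
import Pool.Agent.H3.V0F.Attu

/-!
# Chains of windows for the heights of a coordinate with a gradient exponent

`exs_jetU`: the natural jets exist, from `LbU`. `chainHU`: `Pool.OWN68.chainH` with `LbU` instead of
`Att`.
-/

set_option autoImplicit false

namespace Pool.OWN68

open Finset Real MvPolynomial
open Pool.Agent.H49.Ent Pool.Agent.H32.Dense Pool.STK Pool.KA Pool.KSAT Pool.K2S Pool.PB Pool.GEN
open Pool.S6C Pool.RCD Pool.LA91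
open Pool.GRD (LbP Pb_mono_pos)
open Pool.UNJ (ceI Tub)
open Pool.BFL (Pb)
open Pool.V0F (LbU)

variable {m : ℕ} {U U₁ U' : Type} {α β γ : ∀ J : ℕ, Fam m J → Type}
  {f : ∀ (J : ℕ) (F : Fam m J), F.Ω → α J F} {g : ∀ (J : ℕ) (F : Fam m J), F.Ω → β J F}
  {y : ∀ (J : ℕ) (F : Fam m J), F.Ω → γ J F} {S : PCl m} {C₀ : ℝ}

/-- `Att` is `LbU` with the exponent `0`. -/
theorem _root_.Pool.LA91.Att.lbU {S : PCl m} {I : Finset (Fin m)} {k : Fin m} {w p rd : ℝ}
    (h : Att S I k w p rd) : LbU S I k w p rd 0 := by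
  intro e he
  obtain ⟨K, hK⟩ := h e he
  refine ⟨K, hK.mono 0 ?_⟩
  intro J _ F A hl
  rw [zero_add]
  exact hl

/-- **The natural jets exist.** -/
theorem exs_jetU {S : PCl m} {I : Finset (Fin m)} {k : Fin m} {j : ℕ} {w p r E N : ℝ}
    (hr : 0 ≤ r) (hE : 0 ≤ E) (h : LbU S I k w p r E) : Exs S (qJet m I k j w p N) := by
  intro e he
  obtain ⟨K, hK⟩ := h e he
  obtain ⟨C, hC, hbig⟩ := ojet_big m K j
  have hC0 : 0 < C := by linarith
  have hl2 : 0 < Real.log 2 := Real.log_pos one_lt_two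
  obtain ⟨B, hB⟩ : ∃ B : ℝ, B = |N| + (E + e) + j * (r + e) := ⟨_, rfl⟩
  have hB0 : 0 ≤ B := by
    rw [hB]
    positivity
  obtain ⟨M, hM⟩ : ∃ M : ℕ, M = max K ⌈B * Real.log 2 + 1⌉₊ := ⟨_, rfl⟩
  have hM1 : B * Real.log 2 + 1 ≤ M := by
    refine (Nat.le_ceil _).trans ?_
    rw [hM]
    exact_mod_cast le_max_right _ _
  have hKM : K ≤ M := by
    rw [hM]
    exact le_max_left _ _
  obtain ⟨J₁, hJ₁⟩ := exists_nat_ge (Real.log (2 * (C + 1) + 1))
  refine ⟨M, M, Bas.mono J₁ hK ?_⟩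
  rintro J hJ F A ⟨V, z, z', G, hlb⟩
  have hJ0 : (0 : ℝ) ≤ J := Nat.cast_nonneg J
  have hJ1 : (J₁ : ℝ) ≤ J := by exact_mod_cast hJ
  have hcnt : (cnt F.p (fun ω => ⌊(2 : ℝ) ^ (N * J) *
      ojet F k j (G (z' (slam F ⌊w * J⌋₊ ω))) ω⌋) A : ℝ) ≤ Real.exp (M * J) := by
    have b1 : (1 : ℝ) ≤ 2 ^ (B * J) := by
      rw [← exp_p2]
      exact Real.one_le_exp (by positivity)
    have h1 := cnt_le_of_abs (p := F.p) (u := fun ω => ⌊(2 : ℝ) ^ (N * J) *
      ojet F k j (G (z' (slam F ⌊w * J⌋₊ ω))) ω⌋) (A := A) (B := (C + 1) * 2 ^ (B * J))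
      (by positivity) (by
        intro ω hω
        have h2 := hbig J F I k _ _ _ _ A V z z' G hlb ω hω
        obtain ⟨o, ho⟩ : ∃ o, o = ojet F k j (G (z' (slam F ⌊w * J⌋₊ ω))) ω := ⟨_, rfl⟩
        rw [← ho] at h2 ⊢
        have h3 : |(2 : ℝ) ^ (N * J) * o| ≤ C * 2 ^ (B * J) := by
          rw [abs_mul, abs_of_pos (by positivity)]
          have a2 : (2 : ℝ) ^ ⌊(E + e) * J⌋₊ ≤ 2 ^ ((E + e) * J) := p2_le (by positivity)
          have a3 : ((2 : ℝ) ^ ⌊(r + e) * J⌋₊) ^ j ≤ 2 ^ (j * ((r + e) * J)) := by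
            refine (pow_le_pow_left₀ (by positivity) (p2_le (by positivity)) j).trans (le_of_eq ?_)
            rw [← Real.rpow_natCast, ← Real.rpow_mul (by norm_num)]
            congr 1
            ring
          have b3 : (0 : ℝ) < 2 ^ (N * J) := Real.rpow_pos_of_pos (by norm_num) _
          have b4 : (0 : ℝ) < 2 ^ ((E + e) * J) := Real.rpow_pos_of_pos (by norm_num) _
          have b5 : (0 : ℝ) < 2 ^ (j * ((r + e) * J)) := Real.rpow_pos_of_pos (by norm_num) _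
          calc (2 : ℝ) ^ (N * J) * |o| ≤ 2 ^ (N * J) * (C * 2 ^ ((E + e) * J) *
                2 ^ (j * ((r + e) * J))) := by
                refine mul_le_mul_of_nonneg_left (h2.trans ?_) b3.le
                exact mul_le_mul (mul_le_mul_of_nonneg_left a2 hC0.le) a3 (by positivity)
                  (by positivity)
            _ = C * (2 ^ (N * J) * 2 ^ ((E + e) * J) * 2 ^ (j * ((r + e) * J))) := by ring
            _ ≤ C * 2 ^ (B * J) := by
                rw [← Real.rpow_add (by norm_num), ← Real.rpow_add (by norm_num)]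
                refine mul_le_mul_of_nonneg_left ?_ hC0.le
                refine Real.rpow_le_rpow_of_exponent_le (by norm_num) ?_
                have := mul_le_mul_of_nonneg_right (le_abs_self N) hJ0
                rw [hB]
                linarith
        have h4 := Int.floor_le ((2 : ℝ) ^ (N * J) * o)
        have h5 := Int.lt_floor_add_one ((2 : ℝ) ^ (N * J) * o)
        have h6 := abs_le.1 h3
        rw [abs_le]
        constructor <;> nlinarith [h6.1, h6.2])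
    refine h1.trans ?_
    have h2 : 2 * ((C + 1) * 2 ^ (B * J)) + 1 ≤ (2 * (C + 1) + 1) * 2 ^ (B * J) := by linarith
    refine h2.trans ?_
    rw [← exp_p2]
    calc (2 * (C + 1) + 1) * Real.exp (B * J * Real.log 2)
        = Real.exp (Real.log (2 * (C + 1) + 1)) * Real.exp (B * J * Real.log 2) := by
          rw [Real.exp_log (by positivity)]
      _ = Real.exp (Real.log (2 * (C + 1) + 1) + B * J * Real.log 2) := (Real.exp_add _ _).symm
      _ ≤ Real.exp (M * J) := by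
          refine Real.exp_le_exp.2 ?_
          have := mul_le_mul_of_nonneg_right hM1 hJ0
          nlinarith [hJ₁.trans hJ1]
  refine ⟨_, ⟨hcnt, V, z, z', G, ?_, fun ω _ => rfl⟩, hcnt⟩
  exact (LbP.of hlb).mono (Finset.Subset.refl _) hKM le_rfl

/-- **A chain of windows for the heights**, over a nested chain of charts,
of a coordinate with a gradient exponent. -/
theorem chainHU (htm : TmC S C₀) {c : ℕ → Fin m} {r₀ r : ℕ} {κ : Fin m}
    {o p₀ N ρ wv : ℝ} {Pv : ℕ → ℝ → ℝ} {Nv : ℕ → ℕ → ℝ} {lv : ℝ → ℕ → ℝ}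
    (ho : o < 1) (hop : o < p₀) (hp0 : p₀ ≤ 1) (hρ : 0 < ρ)
    (hf : ∀ (J : ℕ) (F : Fam m J), ∃ φ : α J F → PtT F, ∀ ω, ptr F J ω = φ (f J F ω))
    (hy : Kn0 ((range r₀).image c) p₀ y)
    (b P : ℕ → ℝ) : ∀ n : ℕ,
    (∀ i ≤ n, 0 ≤ b i) → (∀ i ≤ n, b i ≤ o) → (∀ i ≤ n, wv ≤ b i) →
    (∀ i ≤ n, ∃ rk E : ℝ, 0 ≤ rk ∧ 0 ≤ E ∧
      LbU S ((range r).image c) κ (b i) (P i) rk E) →
    (∀ i ≤ n, ∃ (u₁ : ℝ) (rd : ℕ → ℝ), Chn S c r₀ r (b i) (b i) u₁ (fun l => Pv l (b i)) rd) →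
    (∀ i ≤ n, ∀ l, r₀ ≤ l → l < r → 0 < lv (b i) l) →
    (∀ i ≤ n, ∀ l, r₀ ≤ l → l < r → Pv l (b i) + lv (b i) l + ρ ≤ Nv l 0) →
    (∀ i ≤ n, ∀ l, r₀ ≤ l → l < r → Pv l (b i) + lv (b i) l + ρ ≤
      min (Pv l wv) (Pv l (b i)) + (p₀ - b i)) →
    (∀ i ≤ n, ∀ l, r₀ ≤ l → l < r → ∀ l', r₀ ≤ l' → l' < l → Pv l (b i) + lv (b i) l + ρ ≤
      min (Pv l wv) (Pv l (b i)) + lv (b i) l') →
    N + ρ ≤ P 0 →
    (∀ i < n, N + ρ ≤ min (P i) (P (i + 1)) + (p₀ - max (b i) (b (i + 1)))) →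
    (∀ i < n, ∀ l, r₀ ≤ l → l < r → N + ρ ≤
      min (P i) (P (i + 1)) + lv (max (b i) (b (i + 1))) l) →
    ∀ h : ℝ, 0 < h → F1 S f (vg o) y
      (qJets m c r₀ r 0 (fun _ _ => wv) (fun i _ => Pv i wv) Nv)
      (qJet m ((range r).image c) κ 0 (b n) (P n) N) (ρ / 8) h := by
  intro n
  induction n with
  | zero =>
    intro h0 h1 h2 h3 h4 h5 h6 h7 h8 h9 h10 h11 h hh
    refine F1.of0 htm ((few0_room htm (h0 0 le_rfl) (lt_of_le_of_lt (h1 0 le_rfl) ho) hρ (by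
      rw [Nat.cast_zero, zero_mul, add_zero]
      exact h9) f (vg o) y hh).mono (by linarith) le_rfl)
  | succ n ih =>
    intro h0 h1 h2 h3 h4 h5 h6 h7 h8 h9 h10 h11 h hh
    have e1 := ih (fun i hi => h0 i (by omega)) (fun i hi => h1 i (by omega))
      (fun i hi => h2 i (by omega)) (fun i hi => h3 i (by omega))
      (fun i hi => h4 i (by omega)) (fun i hi => h5 i (by omega)) (fun i hi => h6 i (by omega))
      (fun i hi => h7 i (by omega)) (fun i hi => h8 i (by omega)) h9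
      (fun i hi => h10 i (by omega)) (fun i hi => h11 i (by omega)) (h / 2) (by linarith)
    obtain ⟨β, hβ⟩ : ∃ β : ℝ, β = max (b n) (b (n + 1)) := ⟨_, rfl⟩
    have hm1 : β ≤ o := by
      rw [hβ]
      exact max_le (h1 n (by omega)) (h1 (n + 1) le_rfl)
    have hbn : b n ≤ β := by rw [hβ]; exact le_max_left _ _
    have hbn1 : b (n + 1) ≤ β := by rw [hβ]; exact le_max_right _ _
    have hβc : ∃ i ≤ n + 1, b i = β := by
      rcases max_cases (b n) (b (n + 1)) with ⟨e, -⟩ | ⟨e, -⟩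
      · exact ⟨n, by omega, by rw [hβ, e]⟩
      · exact ⟨n + 1, le_rfl, by rw [hβ, e]⟩
    obtain ⟨i₀, hi₀, hbi⟩ := hβc
    have g10 := h10 n (Nat.lt_succ_self n)
    have g11 := h11 n (Nat.lt_succ_self n)
    rw [← hβ] at g10 g11
    obtain ⟨u₁, rd, hch⟩ := h4 i₀ hi₀
    have a2 := h2 i₀ hi₀
    have a5 := h5 i₀ hi₀
    have a6 := h6 i₀ hi₀
    have a7 := h7 i₀ hi₀
    have a8 := h8 i₀ hi₀
    rw [hbi] at hch a2 a5 a6 a7 a8
    have e2 := hgt_F1 (y := y) htm hch (k := κ) (wv := fun _ _ => wv)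
      (pv := fun i _ => Pv i wv) (Nv := Nv) (lv := lv β) (w₁ := b n) (w₂ := b (n + 1))
      (p₁ := P n) (p₂ := P (n + 1)) (N₁ := N) (N₂ := N) (p₀ := p₀) (σ₀ := ρ)
      (fun _ _ _ _ _ => a2) hbn hbn1 (lt_of_le_of_lt hm1 hop) hp0 hρ a5
      a6 a7 a8 le_rfl g10 g11 hf hy (h := h / 2) (by linarith)
    obtain ⟨rk, E, hrk, hE, hatt⟩ := h3 n (by omega)
    have e4 := F1.cut htm (exs_jetU hrk hE hatt) (by linarith) e1 (e2.up hm1 ho.le)
    have e5 : h / 2 + h / 2 = h := by ring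
    rwa [e5] at e4

end Pool.OWN68
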