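import Pool.Agent.H18.PN.Stgt
import Pool.Agent.H18.PN.Stgdn

/-!
# A stage at a record

`IpC`: the mutual information of the alive orders. `LabR`: the labels at the windows of the record.
`stage_rec`: a stage, in a subclass with the same record.
-/

set_option autoImplicit false

namespace Pool.PN18

open Finset Real MvPolynomial
open Pool.Agent.H49.Ent Pool.Agent.H32.Dense Pool.STK Pool.KA Pool.KSAT Pool.K2S Pool.PB Pool.GEN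
open Pool.S6C Pool.RCD Pool.LA91 Pool.OWN68 Pool.AJW Pool.AJX Pool.CHT Pool.PKG Pool.ALT
open Pool.LPK12 (Ip2)
open Pool.CR99 (PairE)

/-- **The mutual information of the alive orders** `i`, `j` (`i b = j a`) of a family at a window, for a
closed context, the code of the context few bits. -/
def IpC {m : ℕ} (S : PCl m) (Ψ : Fm2 m) (c : ℕ → Fin m) (r K : ℕ) (L : ℕ → ℝ → ℝ → ℝ)
    (q t a b x x' y y' τ' R φ : ℝ) (pf : ℕ → ℝ) (Nf : ℕ → ℕ → ℝ) (e δ : ℝ) : Prop :=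
  ∀ i : ℕ, x' < i → (i : ℝ) ≤ x → i ≤ K + 2 → ∀ j : ℕ, y' < j → (j : ℝ) ≤ y →
    j ≤ K + 2 → (i : ℝ) * b = j * a → ∃ Mp : Cdp m,
    Bas S (fun J F A => ∃ (Y : Type) (y : PtT F → Y) (y' : LnT F → Y),
      (∀ ω, A ω → y (ptr F J ω) = y' (slam F ⌊(t + -τ' * q) * J⌋₊ ω)) ∧
      Mp J F A Y (fun ω => y' (slam F ⌊(t + -τ' * q) * J⌋₊ ω))) ∧
    (Fw2 S (fun J F => ptr F J) t (fun _ F => F.T)
      (qJets m c 0 r 1 (fun _ _ => t) (fun l _ => pf l) Nf)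
      (CxJ Ψ K (c r) (c (r + 1)) (t + -τ' * q) (L r (t + -τ' * q) (t + -τ' * q))
        (L (r + 1) (t + -τ' * q) (t + -τ' * q)) i j (xcf (a * R) ((a - i) * τ' - φ) q i)
        (xcf (b * R) ((b - j) * τ' - φ) q j) Mp) (τ := fun _ _ _ C => C)
      (fun J F _ _ _ _ _ c ω => c (vg (t + -τ' * q) J F ω)) e ((2 * K + 9) * δ * (R * q)) →
    Ip2 S (fun J F => ptr F J) t (fun _ F => F.T)
      (qJets m c 0 r 1 (fun _ _ => t) (fun l _ => pf l) Nf)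
      (CxJ Ψ K (c r) (c (r + 1)) (t + -τ' * q) (L r (t + -τ' * q) (t + -τ' * q))
        (L (r + 1) (t + -τ' * q) (t + -τ' * q)) i j (xcf (a * R) ((a - i) * τ' - φ) q i)
        (xcf (b * R) ((b - j) * τ' - φ) q j) Mp) (c r) (c (r + 1)) (t + -τ' * q)
      (L r (t + -τ' * q) (t + -τ' * q) + a * (R * q) - i * (t + -τ' * q))
      (L (r + 1) (t + -τ' * q) (t + -τ' * q) + b * (R * q) - j * (t + -τ' * q)) i j e
      ((4 * K + 18) * δ * (R * q)))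

/-- **The labels at the windows** of the record. -/
def LabR (r D : ℕ) (S : PCl (r + 2)) (c : ℕ → Fin (r + 2)) (L : ℕ → ℝ → ℝ → ℝ) (e₀ μ q t : ℝ)
    (N' : ℕ) (V' : ℕ → ℝ) : Prop :=
  ∀ k < N', (∃ E : ℝ, E + μ ≤ e₀ ∧
      AlW S c r (c (r + 1)) D (t + V' k * q) (L (r + 1) (t + V' k * q) (t + V' k * q))
        (L r (t + V' k * q) (t + V' k * q)) E 0 (L r (t + V' k * q) (t + V' k * q))) ∧
      ∀ e : ℝ, 0 < e → Bas S (fun J F A => ∃ (V₁ : Type) (z : PtT F → V₁) (z' : LnT F → V₁)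
        (g : V₁ → ℕ → MvPolynomial (Option (Fin (r + 2))) ℝ),
        LbX F c 0 (r + 1) D e (fun i => max 0 (L r (t + V' k * q) (t + V' k * q) -
          L i (t + V' k * q) (t + V' k * q))) (t + V' k * q)
          (fun _ => L r (t + V' k * q) (t + V' k * q))
          (fun l => L l (t + V' k * q) (t + V' k * q)) A z z' g)

theorem LabR.sub {r D : ℕ} {S S' : PCl (r + 2)} (hs : ∀ (τ : ℝ) (J : ℕ) (F : Fam (r + 2) J)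
    (A : F.Ω → Prop), S'.St τ J F A → S.St τ J F A) {c : ℕ → Fin (r + 2)} {L : ℕ → ℝ → ℝ → ℝ}
    {e₀ μ q t : ℝ} {N' : ℕ} {V' : ℕ → ℝ} (h : LabR r D S c L e₀ μ q t N' V') :
    LabR r D S' c L e₀ μ q t N' V' := by
  intro k hk
  obtain ⟨⟨E, h1, h2⟩, h3⟩ := h k hk
  exact ⟨⟨E, h1, h2.sub hs⟩, fun e he => Bas.sub hs (h3 e he)⟩

theorem StU.sub {m : ℕ} {S S' : PCl m} (hs : ∀ (τ : ℝ) (J : ℕ) (F : Fam m J) (A : F.Ω → Prop),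
    S'.St τ J F A → S.St τ J F A) {c : ℕ → Fin m} {r K : ℕ} {L : ℕ → ℝ → ℝ → ℝ} {q t : ℝ}
    {pf : ℕ → ℝ} {Nf : ℕ → ℕ → ℝ} {e x τ η : ℝ} (h : StU S c r K L q t pf Nf e x τ η) :
    StU S' c r K L q t pf Nf e x τ η := fun j a b c K₀ => Bas.sub hs (h j a b c K₀)

theorem StN.sub {m : ℕ} {S S' : PCl m} (hs : ∀ (τ : ℝ) (J : ℕ) (F : Fam m J) (A : F.Ω → Prop),
    S'.St τ J F A → S.St τ J F A) {c : ℕ → Fin m} {r K : ℕ} {L : ℕ → ℝ → ℝ → ℝ} {q t Tn : ℝ}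
    {pf : ℕ → ℝ} {Nf : ℕ → ℕ → ℝ} {e x τ η : ℝ} (h : StN S c r K L q t Tn pf Nf e x τ η) :
    StN S' c r K L q t Tn pf Nf e x τ η := fun j a b c K₀ => Bas.sub hs (h j a b c K₀)

/-- **A stage at a record.** -/
theorem stage_rec {r D : ℕ} (hr : 1 ≤ r) {a b x x' y y' τ τ' R Tn h η' : ℝ} (ha1 : 1 < a)
    (hb : 0 < b) (hab : b < a) (hx0 : 0 < x') (hxx : x' < x) (hxa : x ≤ a) (hy0 : 0 < y')
    (hyy : y' < y) (hyb : y ≤ b) (hR0 : 0 < R) (hRa : a * R = (a - x') * τ')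
    (hRb : b * R = (b - y') * τ') (hτ1 : 1 ≤ τ') (hxτ : 1 ≤ x' * τ') (hyτ : 1 ≤ y' * τ')
    (hUu : ∀ i i' : ℕ, x' < i → (i : ℝ) ≤ x → x' < i' → (i' : ℝ) ≤ x → i = i')
    (hUn : ∀ j j' : ℕ, y' < j → (j : ℝ) ≤ y → y' < j' → (j' : ℝ) ≤ y → j = j')
    (hT1 : ∀ i : ℕ, i ≤ max D D * max 1 D + 2 → x < i → (i - x') * τ' + 2 ≤ (i - x) * τ)
    (hT2 : ∀ j : ℕ, j ≤ max D D * max 1 D + 2 → y < j → (j - y') * τ' + 2 ≤ (j - y) * τ)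
    (hT3 : ∀ i : ℕ, (i : ℝ) ≤ x' → (i - x') * τ' + 2 ≤ 0)
    (hT4 : ∀ j : ℕ, (j : ℝ) ≤ y' → (j - y') * τ' + 2 ≤ 0)
    (hTn : τ' ≤ Tn) (hTa : ((max D D * max 1 D : ℕ) + 2) * τ' + 2 ≤ (a - b) * Tn)
    (hTb : ∀ j : ℕ, j ≤ max D D * max 1 D + 2 → b < j → (j - y') * τ' ≤ (j - b) * Tn)
    (hTn1 : pzD R b + τ' ≤ Tn) (hh : 0 < h) (hh1 : h ≤ 1) (hη' : 0 < η') :
    ∃ δ : ℝ, 0 < δ ∧ ∃ N₀ : ℕ, 0 < N₀ ∧
    ∀ {S : PCl (r + 2)} {al : ℝ} {g₀ : ℝ → ℝ} {P : List (Fin (r + 2)) × Fin (r + 2) → ℝ → ℝ → ℝ}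
      {θ : ℝ} {P₂ : ℕ → List (Fin (r + 2)) × Fin (r + 2) → ℝ → ℝ → ℝ} {θ₂ Eb e₂ : ℕ → ℝ}
      {c : ℕ → Fin (r + 2)} {Pt : ℝ → ℝ → ℝ} {rt : ℝ → ℝ} {K₀ g : ℝ} {L T : ℕ → ℝ → ℝ → ℝ}
      {Sl : ℕ → ℝ} {κ : ℕ → Kg} {G : Set ℝ} {S₀ N : ℕ} {A V : ℕ → ℝ} {S₂ N' : ℕ} {V' : ℕ → ℝ}
      {K' ε q t : ℝ} {S₁ : PCl (r + 2)} (_ : S₁.Ne)
      (_ : ∀ (τ : ℝ) (J : ℕ) (F : Fam (r + 2) J) (A : F.Ω → Prop), S₁.St τ J F A → S.St τ J F A)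
      (_ : RecG S₁ al g₀ P θ P₂ θ₂ Eb e₂ c Pt rt h K₀ g L T Sl κ G S₀ N A V S₂ N' V' K' ε q t)
      (_ : ∀ l < r, κ l = .one) (_ : Sl r = a) (_ : Sl (r + 1) = b) (_ : 0 < ε) (_ : 0 < K₀)
      (_ : ∀ w ∈ G, ∃ rd : ℕ → ℝ, (∀ l < r + 1, 0 ≤ rd l) ∧
        Chn S c 0 (r + 1) w w (L r w w) (fun l => L l w w) rd) {e₀ ρ₀ π₀ μ : ℝ} (_ : 0 < μ)
      (_ : ρ₀ + μ ≤ 1) (_ : ∀ w ∈ G, |w - g| ≤ μ → AltC S c r L e₀ ρ₀ π₀ μ w)
      (_ : ∀ x : ℝ, |x| ≤ K' → |t + x * q - g| ≤ μ)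
      (_ : LabR r D S₁ c L e₀ μ q t N' V') {el dl : ℝ} {k₀ : ℕ} (_ : 0 ≤ el) (_ : 0 ≤ dl)
      (_ : dl ≤ b * Real.log 2)
      (_ : ∀ S' : PCl (r + 2), S'.Ne → SubC S' S → ∀ w₀ : ℝ, 0 < w₀ → w₀ < g →
        AltE S' ((range (r + 1)).image c) (c (r + 1)) (max D D * max 1 D) e₀ ρ₀ π₀ w₀ →
        ∃ φ : ℝ, b * Real.log 2 - dl ≤ φ ∧ ∀ k ≥ k₀, AltAt S ((range (r + 1)).image c)
          ((range r).image c) (c (r + 1)) (max D D * max 1 D) e₀ ρ₀ π₀ (fun w => L (r + 1) w w) g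
          φ el k)
      (_ : (K₀ + τ') * q ≤ (1 / 2) ^ k₀)
      {M : ℕ} {W : ℕ → ℝ} (_ : W 0 = -Tn) (_ : W (M + 1) = -τ') (_ : W (2 * M + 1 + 1) = 0)
      (_ : ∀ k, W k ≤ W (k + 1)) {ms : ℝ} (_ : 0 < ms) (_ : ∀ k, W (k + 1) - W k ≤ ms)
      (_ : ∀ k ≤ 2 * M + 1 + 1, -Tn ≤ W k ∧ W k ≤ 0)
      (_ : ∀ y, -τ' ≤ y → y ≤ 0 → ∃ k ≤ 2 * M + 1 + 1, |W k - y| ≤ ms)
      (_ : ∀ k ≤ 2 * M + 1 + 1, ∃ j < N', V' j = W k) (_ : ∃ j < N', V' j = -(K₀ + 1))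
      {X φ kf ℓ e' : ℝ} (_ : ∀ k ≤ r, ∃ j < N', V' j = jfV r (-τ') X k)
      (_ : ∀ k ≤ r, ∃ j < N', V' j = jfV r (-Tn) X k)
      -- the numbers
      (_ : 2 * ((a + b + (max D D * max 1 D : ℕ) + 8) * Tn) + 8 ≤ X) (_ : 32 * (r + 1) * φ ≤ X)
      (_ : 3 ^ r * X ≤ kf) (_ : b * Tn + 2 * (r + 1) * φ + 1 ≤ kf) (_ : kf + Tn ≤ ℓ)
      (_ : 3 ^ r * X + Tn + 1 ≤ ℓ) (_ : a * Tn + Tn + 1 ≤ ℓ) (_ : ℓ + 1 ≤ K')
      (_ : Tn + 3 ^ r * X + 2 ≤ K') (_ : 2 * (a + b) * Tn + Tn + 2 ≤ K') (_ : Tn + K₀ + 1 ≤ K')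
      (_ : 0 < φ) (_ : φ ≤ 1 / 8) (_ : 2 * ε ≤ φ) (_ : 0 < e') (_ : e' ≤ φ / 16)
      (_ : e' ≤ 1 / 64) (_ : 128 * ε ≤ e') (_ : a * ms ≤ e' / 32)
      (_ : (a * Tn + b * Tn + 4) * q ≤ μ / 4) {pf : ℕ → ℝ} {Nf : ℕ → ℕ → ℝ}
      (_ : ∀ l < r, L l t t - φ * q ≤ pf l)
      (_ : NfP r L X q t τ' Nf) (_ : NfP r L X q t Tn Nf)
      (_ : (8 * r + 49) * e' ≤ δ * R / 4) (_ : el * (2 * (K₀ + Tn)) ≤ δ * R / 4)
      (_ : dl ≤ δ / 4) (_ : e' ≤ δ * R / (256 * ((r + 1) * ((max D D * max 1 D : ℕ) + 3))))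
      (_ : e' ≤ η' / (256 * ((r + 1) * ((max D D * max 1 D : ℕ) + 3))))
      (_ : ∀ S' : PCl (r + 2), S'.Ne → (∀ (τ : ℝ) (J : ℕ) (F : Fam (r + 2) J) (A : F.Ω → Prop),
          S'.St τ J F A → S₁.St τ J F A) →
        RecG S' al g₀ P θ P₂ θ₂ Eb e₂ c Pt rt h K₀ g L T Sl κ G S₀ N A V S₂ N' V' K' ε q t →
        LabR r D S' c L e₀ μ q t N' V' → ∀ (Ψ : Fm2 (r + 2)) (E₂ r₂ : ℝ) (E : ℕ → ℝ)
        (rd : ℕ → ℝ) (En Rn : ℝ) (K₁ : ℕ), (∀ i ≤ r, 0 ≤ E i ∧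
          L i (t + -τ' * q) (t + -τ' * q) + E i + 3 * K' * q ≤ 1) →
        PairE S' Ψ c r (max D D * max 1 D) ((range (r + 1)).image c) (c (r + 1)) a b R (h * b) δ
          (ℓ * q) N₀ (t + -τ' * q) t q (fun i => L i (t + -τ' * q) (t + -τ' * q))
          (nX r (fun l x => L l x x) (t + -τ' * q) (X * q)) (fun x => L (r + 1) x x) pf Nf
          (e' * q) E₂ r₂ (L (r + 1) (t + -τ' * q) (t + -τ' * q)) E rd (t + -Tn * q)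
          (L (r + 1) (t + -Tn * q) (t + -Tn * q)) En Rn K₁ →
        StU S' c r (max D D * max 1 D) L q t pf Nf (e' * q) x τ (δ * R / 2) →
        StN S' c r (max D D * max 1 D) L q t Tn pf Nf (e' * q) y τ (δ * R / 2) →
        IpC S' Ψ c r (max D D * max 1 D) L q t a b x x' y y' τ' R φ pf Nf (e' * q) δ)
      (_ : StU S₁ c r (max D D * max 1 D) L q t pf Nf (e' * q) x τ (δ * R / 2))
      (_ : StN S₁ c r (max D D * max 1 D) L q t Tn pf Nf (e' * q) y τ (δ * R / 2)),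
      ∃ S' : PCl (r + 2), S'.Ne ∧
        (∀ (τ : ℝ) (J : ℕ) (F : Fam (r + 2) J) (A : F.Ω → Prop), S'.St τ J F A → S₁.St τ J F A) ∧
        RecG S' al g₀ P θ P₂ θ₂ Eb e₂ c Pt rt h K₀ g L T Sl κ G S₀ N A V S₂ N' V' K' ε q t ∧
        StU S' c r (max D D * max 1 D) L q t pf Nf (e' * q) x' τ' η' ∧
        StN S' c r (max D D * max 1 D) L q t Tn pf Nf (e' * q) y' τ' η' := by
  obtain ⟨K, hK⟩ : ∃ K, K = max D D * max 1 D := ⟨_, rfl⟩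
  obtain ⟨δ, hδ, N₀, hN₀, H⟩ := stage_num (max D D * max 1 D) r (h' := h * b) hb hab hx0 hxx hxa
    hy0 hyy hyb hR0 hRa hRb hτ1 hxτ hyτ hUu hUn hT1 hT2 hT3 hT4 hTn hTa hTb (mul_pos hh hb)
    (mul_le_of_le_one_left hb.le hh1) hη'
  refine ⟨δ, hδ, N₀, hN₀, ?_⟩
  intro S al g₀ P θ P₂ θ₂ Eb e₂ c Pt rt K₀ g L T Sl κ G S₀ N A V S₂ N' V' K' ε q t S₁ hne₁ hs₁ Rc
    hκ hSa hSb hε hK₀ hcu₀ e₀ ρ₀ π₀ μ hμ hρ₀ halt₀ hnear hlab el dl k₀ hel hdl hdlb hful hk₀ M W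
    hW0 hW1 hW2 hWm ms hms0 hWs hWb hWy hWin hWx X φ kf ℓ e' hWj hWn hX hX3 hkf1 hkf2 hℓ1 hℓ2 hℓ3
    hK1 hK2 hK3 hK5 hφ0 hφ1 hεφ he' he1 he2 hεe hams hqμ pf Nf hpf hNf hNfn hδ1 hδ2 hδ3 he3 he4 hIp SU
    SN
  have ha : 0 < a := hb.trans hab
  have hq := Rc.q0
  have hTn0 : 0 < Tn := by linarith only [hτ1, hTn]
  have hτ0 : 0 < τ' := by linarith only [hτ1]
  have haR : 0 < a * R := mul_pos ha hR0
  have hbR : 0 < b * R := mul_pos hb hR0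
  have hRτ : R < τ' := by
    have h1 : a * R < a * τ' := by
      rw [hRa]
      linarith only [hxτ]
    exact lt_of_mul_lt_mul_left h1 ha.le
  have hRT : R ≤ Tn := hRτ.le.trans hTn
  have haRT : a * R ≤ a * Tn := mul_le_mul_of_nonneg_left hRT ha.le
  have hbRT : b * R ≤ b * Tn := mul_le_mul_of_nonneg_left hRT hb.le
  have hbτT : b * τ' ≤ b * Tn := mul_le_mul_of_nonneg_left hTn hb.le
  have haTn : 0 < a * Tn := mul_pos ha hTn0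
  have hbTn : 0 < b * Tn := mul_pos hb hTn0
  have hKn : (0 : ℝ) ≤ (max D D * max 1 D : ℕ) := Nat.cast_nonneg _
  have hKTn : 0 ≤ ((max D D * max 1 D : ℕ) : ℝ) * Tn := mul_nonneg hKn hTn0.le
  have hr0 : (1 : ℝ) ≤ r := by exact_mod_cast hr
  have hX' : 2 * (a * Tn + b * Tn + (max D D * max 1 D : ℕ) * Tn + 8 * Tn) + 8 ≤ X := by
    have e1 : 2 * ((a + b + (max D D * max 1 D : ℕ) + 8) * Tn) + 8 =
        2 * (a * Tn + b * Tn + (max D D * max 1 D : ℕ) * Tn + 8 * Tn) + 8 := by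
      ring
    rw [← e1]
    exact hX
  have e3 : 2 * (a + b) * Tn = 2 * (a * Tn) + 2 * (b * Tn) := by ring
  rw [e3] at hK3
  have hδR : 0 < δ * R := mul_pos hδ hR0
  obtain ⟨S', hne', hs', Rc', hE, hρ1, hρ2, p₁, p₂, pa₁, pa₂, PE⟩ := stgd_recn (D := D) hr hne₁ hs₁
    Rc hκ (by rw [hSa]; exact ha1) (by rw [hSb]; exact hb) (by rw [hSa, hSb]; exact hab.le) hh1 hε
    hK₀ hcu₀ hμ hρ₀ halt₀ hnear hlab (el := el) (dl := dl) (k₀ := k₀) hel hdl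
    (by rw [hSb]; exact hdlb) (by rw [hSb]; exact hful) (R := R) (τ := τ') (Tn := Tn) hR0 hRτ hTn
    (by rw [hSb]; exact hTn1) hk₀ hW0 hW1 hW2 hWm hms0 hWs hWb hWy hWin hWx (X := X) (φ := φ)
    (kf := kf) (ℓ := ℓ) (e' := e') hWj (by linarith only [hX', haTn, hbTn, hKTn, hTn, hTn0])
    (by rw [hSa]; linarith only [hX', haRT, haTn, hbTn, hKTn, hTn0])
    (by rw [hSb]; linarith only [hX', hX3, hbRT, hTn, haTn, hbTn, hKTn, hTn0]) hX3 hkf1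
    (by rw [hSb]; linarith only [hkf2, hbRT]) (by linarith only [hℓ1, hTn])
    (by linarith only [hℓ2, hRT]) (by rw [hSa]; linarith only [hℓ3, haRT, hRT]) hK1
    (by linarith only [hK2, hTn]) (by rw [hSb]; linarith only [hK3, hbRT, hbτT, haTn, hTn0])
    (by rw [hSa]; linarith only [hK3, haRT, haTn, hbTn, hTn]) hK5 hφ0 hφ1 hεφ he'
    (by linarith only [he1, hφ0]) he2 hεe (by
      rw [hSb]
      linarith only [hRb, hyτ, he2]) (by rw [hSa]; exact hams) (by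
      rw [hSa, hSb]
      have h1 : (a * R + b * R + 4) * q ≤ (a * Tn + b * Tn + 4) * q :=
        mul_le_mul_of_nonneg_right (by linarith only [haRT, hbRT]) hq.le
      exact h1.trans hqμ) hpf hNf hδ hδ1 (by
      have h1 : el * (2 * (K₀ + τ')) ≤ el * (2 * (K₀ + Tn)) :=
        mul_le_mul_of_nonneg_left (by linarith only [hTn]) hel
      exact h1.trans hδ2) hδ3 N₀
  rw [hSa, hSb] at PE
  refine ⟨S', hne', hs', Rc', ?_⟩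
  have hcu' : ChG S' c (r + 1) (fun l x => L l x x) G := Pool.LA91.ChG.mk fun w hw => by
    obtain ⟨rd, h1, h2⟩ := hcu₀ w hw
    exact ⟨_, rd, h1, (h2.sub hs₁).sub hs'⟩
  have hwin : ∀ x : ℝ, (∃ j < N', V' j = x) → t + x * q ∈ G := fun x hx => by
    obtain ⟨j, hj, e⟩ := hx
    rw [← e]
    exact Rc.memG.2 j hj
  have htG : t ∈ G := by
    have h1 := hwin _ (hWin (2 * M + 1 + 1) le_rfl)
    rwa [hW2, zero_mul, add_zero] at h1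
  have hvG : ∀ k ≤ r, t + jfV r (-τ') X k * q ∈ G := fun k hk => hwin _ (hWj k hk)
  have hnG : ∀ k ≤ r, t + jfV r (-Tn) X k * q ∈ G := fun k hk => hwin _ (hWn k hk)
  have SU' := SU.sub hs'
  have SN' := SN.sub hs'
  have he32 : e' ≤ δ * R / 32 := by
    have h1 : (49 : ℝ) * e' ≤ (8 * r + 49) * e' :=
      mul_le_mul_of_nonneg_right (by linarith only [hr0]) he'.le
    linarith only [h1, hδ1, he', hδR]
  refine H Rc' hr (by omega) hκ hSa hSb hcu' (X := X) (φ := φ) (kf := kf) (ℓ := ℓ) (e' := e') hφ0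
    hφ1 hX3 hX hkf1 hℓ1 (by linarith only [hK1]) hK2 (by
      have e4 : 2 * (a + b) * R = 2 * (a * R) + 2 * (b * R) := by ring
      rw [e4]
      linarith only [hK3, haRT, hbRT, hTn0]) hεφ hε.le htG hvG hnG hpf hNf hNfn he' he1 he32 he4
    (m₁ := 3 * K' * q) (ρ := L r (t + -τ' * q) (t + -τ' * q) + μ / 4) ?_ hρ2
    (fun i hi => ⟨(hE i hi).1, (hE i hi).2, hρ1, le_rfl⟩) PE ?_ ?_ SU' SN'
  · refine mul_lt_mul_of_pos_right ?_ hq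
    linarith only [hK2, hTn0, hK5, hK₀]
  · exact hIp S' hne' hs' Rc' (hlab.sub hs') _ _ _ _ _ _ _ _ hE PE SU' SN'
  · intro j hj1 hjb hjK
    obtain ⟨Cx, hex⟩ : ∃ Cx : Unit, Bas S' (fun J F A => ∃ (V : Type) (z : PtT F → V)
      (z' : LnT F → V) (G : V → MvPolynomial (Option (Fin (r + 2))) ℝ),
      NzF (LbF ((range (r + 1)).image c) (c (r + 1)) D e₀ ρ₀
          (L (r + 1) (t + -Tn * q) (t + -Tn * q) - e' * q / 16) (t + -Tn * q)) c r (c (r + 1))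
        D D D (t + -Tn * q) t pa₁ pa₂ (e₀ - μ / 2) (L r t t + μ / 4)
        (L (r + 1) t t - e' * q / 2) J F A V z z' G) := by
      refine ⟨(), Bas.mono 0 PE.ex ?_⟩
      rintro J - F A ⟨V, C, z, z', G₁, G₂, cc, g, -, -, -, hnz, -⟩
      obtain ⟨V₀, V₁, V₂, z₀, z₀', G₀, P₁, z₁, z₁', G₁', P₂, z₂, z₂', H, f, h1, -, Va, Y₁, Y₂, za,
        za', Ga, Q₁, y₁, y₁', B₁, Q₂, y₂, y₂', B₂, fa, h3⟩ := hnz
      exact ⟨Va, za, za', Ga, V₀, Y₁, Y₂, z₀, z₀', G₀, Q₁, y₁, y₁', B₁, Q₂, y₂, y₂', B₂, fa, h1,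
        h3⟩
    have heq : 0 < e' * q := mul_pos he' hq
    refine nat_rec (max D D * max 1 D) r hb hab hτ1 hTn hTa Rc' hr (by omega) hκ hSa hSb hcu'
      (X := X) (φ := φ) (kf := kf) (ℓ := ℓ) hφ0 hφ1 hX3 hX hkf1 hℓ1 (by linarith only [hK1]) hK2
      hεφ hε.le htG hvG hnG hpf hNf hNfn he' he1 (Ψ₀ := LbF ((range (r + 1)).image c) (c (r + 1)) D
      e₀ ρ₀ (L (r + 1) (t + -Tn * q) (t + -Tn * q) - e' * q / 16) (t + -Tn * q)) (D := D)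
      (fun _ _ _ _ _ _ _ h => h) (by linarith only [heq]) hex (by linarith only [heq])
      (η := δ * R / 2) (by linarith only [hδR]) hjb ?_
    have h7 : (0 : ℝ) < 256 * ((r + 1) * ((max D D * max 1 D : ℕ) + 3)) := by positivity
    have h6 : (0 : ℝ) < 128 * ((r + 1) * (j + 1)) := by positivity
    have h8 : (j : ℝ) + 1 ≤ (max D D * max 1 D : ℕ) + 3 := by
      have : (j : ℝ) ≤ ((max D D * max 1 D : ℕ) : ℝ) + 2 := by exact_mod_cast hjK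
      linarith only [this]
    have h9 : ((r : ℝ) + 1) * (j + 1) ≤ (r + 1) * ((max D D * max 1 D : ℕ) + 3) :=
      mul_le_mul_of_nonneg_left h8 (by linarith only [hr0])
    rw [le_div_iff₀ h6]
    rw [le_div_iff₀ h7] at he3
    have h10 := mul_le_mul_of_nonneg_left h9 he'.le
    linarith only [h10, he3]

end Pool.PN18
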