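import Pool.Agent.H18.PN.Jhi
import Pool.Agent.H5.PN.Fav

/-!
# The first jet of a member of a jointly nonfull pair, given the far digits of the chain

`u_F1`: class level. The jets of order above `ku`, `kn` (above the slopes) come from earlier windows,
the others from the rows of the pair: no resonance `i α₂ = j α₁` with `i ≤ ku`, `j ≤ kn`.
-/

set_option autoImplicit false

namespace Pool.PN18

open Finset Real MvPolynomial
open Pool.Agent.H49.Ent Pool.Agent.H32.Dense Pool.STK Pool.KA Pool.KSAT Pool.K2S Pool.PB Pool.GEN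
open Pool.S6C Pool.RCD Pool.LA91 Pool.OWN68 Pool.AJW Pool.AJX Pool.CHT
open Pool.GRD (LbP)
open Pool.UNJ (ceI Tub)

/-- The property of a family of pairs of labels: the chain with exponents, the context in the code, the
second label. -/
def PsL {m : ℕ} (Ψ : Fm2 m) (c : ℕ → Fin m) (r K : ℕ) (I₂ : Finset (Fin m)) (κ₂ : Fin m)
    (v lam e E₂ r₂ p₂ : ℝ) (E rd p n : ℕ → ℝ) : Prop :=
  (∀ (J : ℕ) (F : Fam m J) (A : F.Ω → Prop) (V C : Type) (z : PtT F → V) (z' : LnT F → V)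
    (G₁ G₂ : V → MvPolynomial (Option (Fin m)) ℝ) (cc : LnT F → C),
    Ψ J F A V C z z' G₁ G₂ cc → (∃ g : V → ℕ → MvPolynomial (Option (Fin m)) ℝ,
      LbX F c 0 (r + 1) K e E v rd p A z z' g ∧ G₁ = (fun v => g v r) ∧
      ∃ φ : C → (Fin m → ℤ × ℤ) × (ℕ → ℕ → ℤ), ∀ x,
        ctxN F c 0 r ⌊v * J⌋₊ ⌊(v + lam) * J⌋₊ K z' g n x = φ (cc x)) ∧
    LbOK F I₂ κ₂ K ⌊E₂ * J⌋₊ J ⌊v * J⌋₊ ⌊r₂ * J⌋₊ ⌊(p₂ - e) * J⌋₊ A z z' G₂) ∧
  ∀ (J : ℕ) (F : Fam m J) (A B : F.Ω → Prop) (V C : Type) (z : PtT F → V)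
    (z' : LnT F → V) (G₁ G₂ : V → MvPolynomial (Option (Fin m)) ℝ) (c : LnT F → C), Sub B A →
    Ψ J F A V C z z' G₁ G₂ c → Ψ J F B V C z z' G₁ G₂ c

/-- **The first jet of a member of a jointly nonfull pair**, given the far digits of the chain. -/
theorem u_F1 (K : ℕ) {ku kn : ℕ} (hku : ku ≤ K + 2) (hkn : kn ≤ K + 2) {α₁ α₂ : ℝ} (hα₁ : 0 < α₁)
    (hα₂ : 0 < α₂) (hres : ∀ i : ℕ, 1 ≤ i → i ≤ ku → ∀ j : ℕ, 1 ≤ j → j ≤ kn →
      (i : ℝ) * α₂ ≠ j * α₁) {h : ℝ} (hh : 0 < h) (hh1 : h ≤ α₁) (hh2 : h ≤ α₂) {ε : ℝ}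
    (hε : 0 < ε) :
    ∃ δ : ℝ, 0 < δ ∧ ∃ N₀ : ℕ, 0 < N₀ ∧
    ∀ {m : ℕ} {S : PCl m} {C₀ : ℝ} (_ : TmC S C₀) {c : ℕ → Fin m} {r : ℕ} (_ : 1 ≤ r)
    {κ₂ : Fin m} {I₂ : Finset (Fin m)} {v w lam q ρ g₀ p₂ E₂ r₂ σ : ℝ}
    {E p s n lv rd v₀ P₀ pf lvF lw : ℕ → ℝ} {Nf : ℕ → ℕ → ℝ} (_ : 0 < q)
    (_ : JetX S c 0 r v w lam (α₁ * q) ρ g₀ E p s n lv rd K)
    (_ : v + 2 * (α₁ + α₂) * q ≤ 1)
    (_ : FarV S c 0 r v₀ v w lam σ P₀ p s pf n lvF lw Nf)
    {e : ℝ} (_ : 0 < e) (_ : e ≤ ρ / 8) (_ : e ≤ δ * q / 16) (_ : e ≤ σ / 16)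
    {Ψ : Fm2 m} (_ : PsL Ψ c r K I₂ κ₂ v lam e E₂ r₂ p₂ E rd p n)
    (_ : Bas S (fun J F A => ∃ (V C : Type) (z : PtT F → V) (z' : LnT F → V)
      (G₁ G₂ : V → MvPolynomial (Option (Fin m)) ℝ) (cc : LnT F → C),
      Ψ J F A V C z z' G₁ G₂ cc))
    (_ : Fw2 S (fun J F => ptr F J) w (fun _ F => F.T)
      (qJets m c 0 r 1 (fun _ _ => w) (fun l _ => pf l) Nf) Ψ (τ := fun _ _ _ C => C)
      (fun J F _ _ _ _ _ c ω => c (vg v J F ω)) e (δ * q))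
    (_ : Rw2 S Ψ (c r) κ₂ v (p r) p₂ α₁ α₂ q h (δ * q) N₀)
    (_ : Rw2 S Ψ.swap κ₂ (c r) v p₂ (p r) α₂ α₁ q h (δ * q) N₀)
    (_ : Fw2 S (fun J F => ptr F J) w (fun _ F => F.T)
      (qJets m c 0 r 1 (fun _ _ => w) (fun l _ => pf l) Nf) Ψ (τ := fun _ _ _ _ => ℤ)
      (fun J F _ _ z' _ G₂ _ ω => ⌊(2 : ℝ) ^ ((p₂ + α₂ * q) * J) * ojet F κ₂ 0
        (G₂ (z' (slam F ⌊v * J⌋₊ ω))) ω⌋) e (δ * q))
    {vu Pu ru : ℝ} (_ : 0 ≤ vu) (_ : vu ≤ v) (_ : 0 ≤ ru)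
    (_ : Att S ((range r).image c) (c r) vu Pu ru)
    (_ : p r + α₁ * q + σ ≤ min Pu (p r) + lam)
    (_ : ∀ l < r, p r + α₁ * q + σ ≤ min Pu (p r) + lvF l)
    (_ : ku ≤ K + 1 → p r + α₁ * q + σ ≤ Pu + (ku + 1) * (v - vu))
    {vn Pn En Rn : ℝ} {K₁ : ℕ} (_ : 0 ≤ vn) (_ : vn ≤ v)
    (_ : Dcp2 Ψ ((range r).image c) I₂ κ₂ K₁ vn v En Rn Pn e) (_ : σ ≤ min Pn p₂)
    (_ : p₂ + α₂ * q + σ ≤ min Pn p₂ + lam)
    (_ : ∀ l < r, p₂ + α₂ * q + σ ≤ min Pn p₂ + lvF l)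
    (_ : kn ≤ K + 1 → p₂ + α₂ * q ≤ Pn + (kn + 1) * (v - vn))
    {P₂ pr rt N₁ : ℝ} (_ : p r ≤ P₂) (_ : 0 ≤ rt) (_ : Att S ((range r).image c) (c r) w P₂ rt)
    (_ : N₁ + v ≤ p r + α₁ * q) (_ : N₁ + w + σ ≤ min P₂ pr + (v + lam - w))
    (_ : ∀ l < r, N₁ + w + σ ≤ min P₂ pr + lw l),
    F1 S (fun J F => ptr F J) (vg w) (fun _ F => F.T)
      (qJets m c 0 r 1 (fun _ _ => w) (fun l _ => pf l) Nf)
      (qJet m ((range r).image c) (c r) 1 w pr N₁) e (ε * q) := by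
  classical
  obtain ⟨δ₁, hδ₁, N₀, hN₀, H⟩ := pair_X1 K (Iu := Finset.Icc 1 ku) (In := Finset.Icc 1 kn)
    (fun i hi => by
      rw [Finset.mem_Icc] at hi
      exact ⟨hi.1, hi.2.trans hku⟩)
    (fun j hj => by
      rw [Finset.mem_Icc] at hj
      exact ⟨hj.1, hj.2.trans hkn⟩) hα₁ hα₂
    (fun i hi j hj => by
      rw [Finset.mem_Icc] at hi hj
      exact hres i hi.1 hi.2 j hj.1 hj.2) hh hh1 hh2 (ε := ε / 2) (by positivity)
  refine ⟨δ₁, hδ₁, N₀, hN₀, ?_⟩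
  intro m S C₀ htm c r hr1 κ₂ I₂ v w lam q ρ g₀ p₂ E₂ r₂ σ E p s n lv rd v₀ P₀ pf lvF lw Nf hq HW
    hvq HF e he h8e hδe hσe Ψ hΨ hex hcc hrw1 hrw2 hn0 vu Pu ru hvu0 hvuv hru hAu hu4 hu5 hu6 vn Pn
    En Rn K₁ hvn0 hvnv hD hσP hn4 hn5 hn6 P₂ pr rt N₁ hP₂ hrt hAt hN1 hN2 hN3
  have hσ := HF.σ0
  have hw1 : w < 1 := HW.w1
  have hv0 := HW.v0
  have hvw := HW.vw
  have hlam : 0 < lam := by
    have g1 := mul_pos hα₁ hq
    have g2 := HW.ρ0
    linarith [HW.mid]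
  have hδq : 0 < δ₁ * q := by positivity
  have hf : ∀ (J : ℕ) (F : Fam m J), ∃ φ : PtT F → PtT F, ∀ ω, ptr F J ω = φ (ptr F J ω) :=
    fun J F => ⟨id, fun ω => rfl⟩
  have hy : Kn ((range 0).image c) (v + lam) lam (fun (J : ℕ) (F : Fam m J) => F.T) := by
    intro J F
    refine ⟨fun t => (t, fun _ => 0, fun _ => 0), fun ω => ?_⟩
    simp only [Finset.range_zero, Finset.image_empty, Finset.notMem_empty, if_false]
  have hJA := far_jetV htm HF le_rfl hw1.le hf hy (y := fun (J : ℕ) (F : Fam m J) => F.T)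
    (f := fun (J : ℕ) (F : Fam m J) => ptr F J)
  obtain ⟨u₁, rdc, hch, hrdc⟩ := HF.cv
  have hexq : ∀ j, Exs S (qJets m c 0 r j (fun _ _ => v) (fun l _ => p l)
      (fun l j' => n l - (j' : ℕ) * v)) := fun j =>
    exs_qjets fun i' x y j' _ => exs_jet (hrdc i' x y) (hch.att i' x y)
  have hVq : ∀ j : ℕ, ∀ η : ℝ, 0 < η → F1 S (fun J F => ptr F J) (vg w) (fun _ F => F.T)
      (qJets m c 0 r 1 (fun _ _ => w) (fun l _ => pf l) Nf)
      (qJets m c 0 r j (fun _ _ => v) (fun l _ => p l) (fun l j' => n l - (j' : ℕ) * v))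
      (σ / 8) η := fun j η hη =>
    F1.qjets' htm hη (fun η' hη' i' x y j' _ => hJA η' hη' i' x y j')
  have l2 : ∀ l, 0 ≤ l → l < r → lvF l + σ ≤ lam := by
    intro l x y
    have g1 := HF.h1 l x y
    have g2 := HF.h2 l x y
    have g3 : min (P₀ l) (p l) ≤ p l := min_le_right _ _
    linarith
  have l3 : ∀ l, 0 ≤ l → l < r → ∀ l', 0 ≤ l' → l' < l → lvF l + σ ≤ lvF l' := by
    intro l x y l' x' y'
    have g1 := HF.h1 l x y
    have g2 := HF.h3 l x y l' x' y'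
    have g3 : min (P₀ l) (p l) ≤ p l := min_le_right _ _
    linarith
  -- the context
  have hctx : FwX S (fun J F => ptr F J) (vg w) (fun _ F => F.T)
      (qJets m c 0 r 1 (fun _ _ => w) (fun l _ => pf l) Nf) c 0 (r + 1) K E v rd p
      (ctx c 0 r K v lam n) e (δ₁ * q) :=
    far_ctxX htm HF le_rfl hw1.le hf hy (fun i x y => (HW.E0 i x y.le).2)
      (fun i x y => (HW.rd0 i x y.le).1) hδq (by omega) he (by linarith)
  have hj1 : ∀ j ≤ K + 2, 1 ≤ j → j ∉ Finset.Icc 1 ku → Fw2 S (fun J F => ptr F J) w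
      (fun _ F => F.T) (qJets m c 0 r 1 (fun _ _ => w) (fun l _ => pf l) Nf) Ψ
      (τ := fun _ _ _ _ => ℤ)
      (fun J F _ _ z' G₁ _ _ ω => ⌊(2 : ℝ) ^ ((p r + α₁ * q - j * v) * J) * ojet F (c r) j
        (G₁ (z' (slam F ⌊v * J⌋₊ ω))) ω⌋) e (δ₁ * q) := by
    intro j hj hj1 hjI
    have hjk : ku + 1 ≤ j := by
      rw [Finset.mem_Icc] at hjI
      omega
    have hjk' : (ku : ℝ) + 1 ≤ j := by exact_mod_cast hjk
    refine fw2_of_F1X (I := (range r).image c) (K := K) (p := p r) (Er := E r + e) (Rr := rd r + e)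
      (fun J F A V C z z' G₁ G₂ cc h1 => ?_) ?_
    · obtain ⟨⟨g, hlb, rfl, -⟩, -⟩ := hΨ.1 J F A V C z z' G₁ G₂ cc h1
      exact hlb r HW.hr (Nat.lt_succ_self r)
    · have h1 := jet_hi (Q := qJets m c 0 r 1 (fun _ _ => w) (fun l _ => pf l) Nf)
        (f := fun (J : ℕ) (F : Fam m J) => ptr F J) (y := fun (J : ℕ) (F : Fam m J) => F.T)
        (a := w) (lam := lam) (n := n) (i := r) (j := j) (v₀ := vu) (P₀ := Pu) (σ := σ) (rk := ru)
        (e₁ := σ / 8) (η := δ₁ * q / 2) (h := δ₁ * q / 2) (N := p r + α₁ * q - j * v) (lv := lvF)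
        htm hch hvw hw1.le hvu0 hvuv hru hAu hσ hlam HF.l1
        (fun l x y => HF.lv0 l x y) (fun l x y => HF.h1 l x y) l2 l3 (by linarith)
        (fun l _ y => by linarith [hu5 l y]) (by
          have g1 := hu6 (by omega)
          have g2 : ((ku : ℝ) + 1) * (v - vu) ≤ j * (v - vu) :=
            mul_le_mul_of_nonneg_right hjk' (by linarith)
          linarith) hf hy (by positivity) (by positivity) (hexq j) (hVq j _ (by positivity))
      rw [add_halves, min_self] at h1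
      exact h1.mono (by linarith) le_rfl
  have hj2 : ∀ j ≤ K + 2, j ∉ Finset.Icc 1 kn → Fw2 S (fun J F => ptr F J) w
      (fun _ F => F.T) (qJets m c 0 r 1 (fun _ _ => w) (fun l _ => pf l) Nf) Ψ
      (τ := fun _ _ _ _ => ℤ)
      (fun J F _ _ z' _ G₂ _ ω => ⌊(2 : ℝ) ^ ((p₂ + α₂ * q - j * v) * J) * ojet F κ₂ j
        (G₂ (z' (slam F ⌊v * J⌋₊ ω))) ω⌋) e (δ₁ * q) := by
    intro j hj hjI
    rcases Nat.eq_zero_or_pos j with h0 | h0
    · subst h0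
      have e1 : p₂ + α₂ * q - ((0 : ℕ) : ℝ) * v = p₂ + α₂ * q := by
        rw [Nat.cast_zero, zero_mul, sub_zero]
      rw [e1]
      exact hn0
    · have hjk : kn + 1 ≤ j := by
        rw [Finset.mem_Icc] at hjI
        omega
      have hjk' : (kn : ℝ) + 1 ≤ j := by exact_mod_cast hjk
      have h1 := self_F1 (Q := qJets m c 0 r 1 (fun _ _ => w) (fun l _ => pf l) Nf)
        (f := fun (J : ℕ) (F : Fam m J) => ptr F J) (y := fun (J : ℕ) (F : Fam m J) => F.T)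
        (a := w) (lam := lam) (n := n) (k := c 0) (j := j) (σ := σ) (P := min Pn p₂)
        (e₁ := σ / 8) (η := δ₁ * q / 4) (h := δ₁ * q / 4) (N := p₂ + α₂ * q - j * v) (lv := lvF)
        htm (Finset.mem_image_of_mem c (Finset.mem_range.2 (by omega))) hch hvw hw1.le hσ hlam HF.l1
        (fun l x y => HF.lv0 l x y) (fun l x y => HF.h1 l x y) l2 l3 (by linarith)
        (fun l _ y => by linarith [hn5 l y]) hf hy (by positivity) (by positivity) (hexq j)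
        (hVq j _ (by positivity))
      rw [min_self] at h1
      have h2 := fw2_hiN (Ψ := Ψ) (e := e) (δ := δ₁ * q / 2) htm
        (Finset.mem_image_of_mem c (Finset.mem_range.2 (by omega : 0 < r))) hvn0
        (by linarith) (fun J F A V C z z' G₁ G₂ cc h1 => (hΨ.1 J F A V C z z' G₁ G₂ cc h1).2)
        hD he (by linarith) (by linarith) (min_le_left _ _) (min_le_right _ _) (by
          have g1 := hn6 (by omega)
          have g2 : ((kn : ℝ) + 1) * (v - vn) ≤ j * (v - vn) :=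
            mul_le_mul_of_nonneg_right hjk' (by linarith)
          linarith) (by positivity) (by linarith) h1
      have e2 : δ₁ * q / 4 + δ₁ * q / 4 + δ₁ * q / 2 = δ₁ * q := by ring
      rw [e2] at h2
      exact h2
  have h1 := H htm (c := c) (r₀ := 0) (r := r) (κ₂ := κ₂) (I₂ := I₂) (v := v) (w := w) (lam := lam)
    (q := q) (ρ := ρ) (g₀ := g₀) (p₂ := p₂) (E₂ := E₂) (r₂ := r₂) (E := E) (p := p) (s := s)
    (n := n) (lv := lv) (rd := rd) hq HW hvq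
    (Qu := qJets m c 0 r 1 (fun _ _ => w) (fun l _ => pf l) Nf)
    (f := fun (J : ℕ) (F : Fam m J) => ptr F J) (y := fun (J : ℕ) (F : Fam m J) => F.T) hf hy
    (a := w) (e := e) le_rfl hw1.le he h8e (by linarith) hctx (Ψ := Ψ) hΨ.1 hΨ.2 hex hcc hrw1 hrw2
    hj1 hj2 0 (by omega) P₂ hP₂
  have e1 : p r + α₁ * q - ((0 + 1 : ℕ) : ℝ) * v = p r + α₁ * q - v := by
    push_cast
    ring
  rw [e1] at h1
  -- the label of the target
  obtain ⟨uw, rw, hcw, hrw⟩ := HF.cw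
  have hmin : min lam (v + lam - w) = v + lam - w := min_eq_right (by linarith)
  have h2 : F1 S (fun J F => ptr F J) (vg w) (fun _ F => F.T)
      ((qJets m c 0 r 1 (fun _ _ => w) (fun l _ => pf l) Nf).prod
        (qJet m ((range r).image c) (c r) 1 w P₂ (p r + α₁ * q - v)))
      (qJet m ((range r).image c) (c r) 1 w pr N₁) (σ / 8) (ε / 2 * q) :=
    jetN_F1 htm hcw (lv := lw) (p₀ := v + lam) (lam := lam) (σ₀ := σ)
      (wv := fun _ _ => w) (pv := fun l _ => pf l) (Nv := Nf)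
      (fun _ _ _ _ _ => le_rfl) le_rfl le_rfl (by linarith [HF.wl]) HF.l1 hlam hσ
      (fun i x y => HF.w0 i x y) (fun i x y j' hj' => HF.w1 i x y j' hj')
      (fun i x y j' _ => by
        rw [hmin]
        exact HF.w2 i x y)
      (fun i x y j' _ l' x' y' => HF.w3 i x y l' x' y')
      (by linarith)
      (by
        rw [hmin, Nat.cast_one, one_mul]
        linarith)
      (fun l' x y => by
        rw [Nat.cast_one, one_mul]
        exact hN3 l' y) hf hy (by positivity)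
  have h3 := F1.cut htm (exs_jet hrt hAt) he h1 (h2.mono (by linarith) le_rfl)
  have e2 : ε / 2 * q + ε / 2 * q = ε * q := by ring
  rw [e2] at h3
  exact h3

end Pool.PN18
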