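import Pool.Agent.H60.ALT.Alu

/-!
# The rate of the last coordinate alone, with margins, for rational exponents

`AltR`: as `AltU`, with rational exponents. `aePG_altR`: it holds at almost every window, in a
subclass; `her_altR`.
-/

set_option autoImplicit false

namespace Pool.ALT

open Finset Real MeasureTheory Set Filter Topology
open Pool.Agent.H49.Ent Pool.Agent.H32.Dense Pool.STK Pool.KA Pool.KSAT Pool.K2S Pool.PB Pool.S6C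
  Pool.GEN Pool.RCD Pool.LA91 Pool.OWN68 Pool.PKG Pool.CHT Pool.GRW
open Pool.TOP (TopS)
open Pool.LEV (Law)
open Pool.V0F (LbU AttUQ aePG_attU her_attU gs_full)

/-- **The rate of the last coordinate alone** at a window `x`, with margins. -/
structure AltR {n : ℕ} (p : AltUI) (k₀ : ℕ) (S : PCl n)
    (P : List (Fin n) × Fin n → ℝ → ℝ → ℝ) (θ : ℝ) (c : ℕ → Fin n) (Pt : ℝ → ℝ → ℝ)
    (r : ℝ → ℝ) (L T : ℕ → ℝ → ℝ → ℝ) (κ : ℕ → Kg) (G : Set ℝ) (x : ℝ) : Prop where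
  ex : ∃ e₀ ρ₀ π₀ : ℚ, (0 : ℝ) ≤ e₀ ∧ (ρ₀ : ℝ) + (1 / 2) ^ k₀ ≤ 1 ∧
    (∀ w ∈ G, |w - x| ≤ (1 / 2) ^ k₀ → ∃ rk E : ℝ, 0 ≤ rk ∧ rk + (1 / 2) ^ k₀ ≤ ρ₀ ∧ 0 ≤ E ∧
      E + (1 / 2) ^ k₀ ≤ e₀ ∧ L (n - 2) w w + (1 / 2) ^ k₀ ≤ e₀ + L (n - 1) w w ∧
      L (n - 2) w w + (1 / 2) ^ k₀ ≤ ρ₀ ∧ π₀ + (1 / 2) ^ k₀ ≤ L (n - 1) w w ∧
      e₀ + L (n - 1) w w + (1 / 2) ^ k₀ ≤ 1 ∧
      L (n - 1) w w + L (n - 2) w w + (1 / 2) ^ k₀ ≤ 1 + π₀ ∧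
      LbU S ((range (n - 1)).image c) (c (n - 1)) w (L (n - 1) w w) rk E) ∧
    (0 < p.2 → ∀ S' : PCl n, S'.Ne → SubC S' S → ∀ w₀ : ℝ, 0 < w₀ → w₀ < x →
      AltE S' ((range (n - 1)).image c) (c (n - 1)) p.1.2 e₀ ρ₀ π₀ w₀ →
      ∃ φ : ℝ, 0 ≤ φ ∧ ∀ k ≥ k₀, AltAt S ((range (n - 1)).image c) (p.1.1.image c)
        (c (n - 1)) p.1.2 e₀ ρ₀ π₀ (fun w => L (n - 1) w w) x φ p.2 k)

theorem her_altR (n : ℕ) : HerQ (AltR : PropG n AltUI) := by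
  intro p k₀ S S' P θ c Pt r L T κ G x hs h
  obtain ⟨e₀, ρ₀, π₀, h1, h2, h3, h4⟩ := h.ex
  refine ⟨⟨e₀, ρ₀, π₀, h1, h2, fun w hw hwx => ?_, fun hp S'' hne hs'' w₀ k1 k2 k3 => ?_⟩⟩
  · obtain ⟨rk, E, a1, a2, a3, a4, a5, a6, a7, a8, a9, a10⟩ := h3 w hw hwx
    exact ⟨rk, E, a1, a2, a3, a4, a5, a6, a7, a8, a9, a10.sub hs⟩
  · obtain ⟨φ, hφ, h5⟩ := h4 hp S'' hne (fun τ J F A h => hs τ J F A (hs'' τ J F A h)) w₀ k1 k2 k3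
    exact ⟨φ, hφ, fun k hk => (h5 k hk).sub hs⟩

/-- **It holds at almost every window.** -/
theorem aePG_altR (n : ℕ) : AePG n (AltR : PropG n AltUI) := by
  classical
  intro hn S P r P' Λ PB PQ H hTop hF o G hG hGs
  obtain ⟨S₁, a1, a2, a3⟩ := aePG_attU n hn S P r P' Λ PB PQ H hTop hF o G hG hGs
  have H₁ := H.sub a1 a2
  obtain ⟨al, g₀, s, d', e', K₁, N₁, hal, hg₀, hC⟩ := H₁.cl
  obtain ⟨S', b1, b2, b3⟩ := alt_rate (ι := (Finset ℕ × ℕ) × (ℚ × ℚ × ℚ)) hC.ne hC.pos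
    (fun _ => (range (n - 1)).image (cc hn o.1.1)) (fun i => i.1.1.image (cc hn o.1.1))
    (fun _ => cc hn o.1.1 (n - 1)) (fun i => i.1.2) (fun i => i.2.1) (fun i => i.2.2.1)
    (fun i => i.2.2.2) (fun _ w => LvL hn P P' o (n - 1) w w) (A := 0) (B := 1) le_rfl
    (fun i w hw w' hw' hww => by
      have hl := H.toPkT.lawL o (n - 1)
      exact (hl.mono_a w w' w hw.1.le le_rfl hww hw'.2.le).trans
        (hl.mono_w w' w w' hw.1.le hww le_rfl hw'.2.le))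
  refine ⟨S', b1, fun τ J F A h => a2 τ J F A (b2 τ J F A h), ?_⟩
  filter_upwards [a3, b3] with g h1 h2 hg κ hκ p
  obtain ⟨k₁, hk₁⟩ := h1 hg κ hκ ()
  obtain ⟨α, Q, c', F⟩ := H.toPk.fac hTop hF (hGs hg)
  obtain ⟨-, hu0, hu1⟩ := gs_full H.toPk hTop hF (hGs hg)
  have hg0 := F.g0
  -- the diagonals
  obtain ⟨D, hD⟩ : ∃ D : ℝ → ℝ, D = fun w => LvL hn P P' o (n - 1) w w := ⟨_, rfl⟩
  obtain ⟨U, hU⟩ : ∃ U : ℝ → ℝ, U = fun w => LvL hn P P' o (n - 2) w w := ⟨_, rfl⟩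
  have hDc : ContinuousAt D g := by
    have : D = fun v => P v v := by
      rw [hD]
      funext w
      rw [lvL_last]
    rw [this]
    exact F.conP
  have hUc : ContinuousAt U g := by
    have : U = fun v => P' o.2 ((List.range (n - 2)).map (cc hn o.1.1), cc hn o.1.1 (n - 2)) v v := by
      rw [hU]
      funext w
      rw [LvL_lt o (by omega : n - 2 < n - 1)]
      rfl
    rw [this]
    exact F.con _
  have hUg : U g < 1 := by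
    rw [hU]
    exact hu1
  obtain ⟨ν, hν⟩ : ∃ ν : ℝ, ν = min ((1 / 2) ^ k₁) (1 - U g) := ⟨_, rfl⟩
  have hν0 : 0 < ν := by
    rw [hν]
    exact lt_min (by positivity) (by linarith)
  have hν1 : ν ≤ (1 / 2) ^ k₁ := by
    rw [hν]
    exact min_le_left _ _
  have hν2 : ν ≤ 1 - U g := by
    rw [hν]
    exact min_le_right _ _
  rw [Metric.continuousAt_iff] at hDc hUc
  obtain ⟨d₁, hd₁, hD1⟩ := hDc (ν / 16) (by linarith)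
  obtain ⟨d₂, hd₂, hU1⟩ := hUc (ν / 16) (by linarith)
  obtain ⟨e₀, he₀, he₀'⟩ := exists_rat_btwn (show 1 - D g - 3 / 4 * ν < 1 - D g - 5 / 8 * ν by
    linarith)
  obtain ⟨ρ₀, hρ₀, hρ₀'⟩ := exists_rat_btwn (show 1 - 3 / 4 * ν < 1 - 5 / 8 * ν by linarith)
  obtain ⟨π₀, hπ₀, hπ₀'⟩ := exists_rat_btwn (show D g - ν / 4 < D g - ν / 8 by linarith)
  -- at the windows near `g`
  have hwin : ∀ w ∈ G, |w - g| ≤ (1 / 2) ^ k₁ → |w - g| < d₁ → |w - g| < d₂ → ∃ rk E : ℝ,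
      0 ≤ rk ∧ rk + ν / 16 ≤ ρ₀ ∧ 0 ≤ E ∧ E + ν / 16 ≤ e₀ ∧ U w + ν / 16 ≤ e₀ + D w ∧
      U w + ν / 16 ≤ ρ₀ ∧ π₀ + ν / 16 ≤ D w ∧ e₀ + D w + ν / 16 ≤ 1 ∧
      D w + U w + ν / 16 ≤ 1 + π₀ ∧
      LbU S₁ ((range (n - 1)).image (cc hn o.1.1)) (cc hn o.1.1 (n - 1)) w (D w) rk E := by
    intro w hw w1 w2 w3
    obtain ⟨rk, E, c1, c2, c3, c4, c5⟩ := hk₁ w hw w1
    have e1 := @hD1 w (by rw [Real.dist_eq]; exact w2)
    have e2 := @hU1 w (by rw [Real.dist_eq]; exact w3)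
    rw [Real.dist_eq, abs_lt] at e1 e2
    obtain ⟨e1a, e1b⟩ := e1
    obtain ⟨e2a, e2b⟩ := e2
    have c4' : E + D w ≤ 1 - (1 / 2) ^ k₁ := by
      rw [hD]
      exact c4
    refine ⟨rk, E, c1, by linarith, c3, by linarith, by linarith, by linarith, by linarith,
      by linarith, by linarith, ?_⟩
    rw [hD]
    exact c5
  have he₀0 : (0 : ℝ) ≤ e₀ := by
    obtain ⟨rk, E, -, -, c3, c4, -⟩ := hwin g hg (by
      rw [sub_self, abs_zero]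
      positivity) (by rw [sub_self, abs_zero]; exact hd₁) (by rw [sub_self, abs_zero]; exact hd₂)
    linarith
  -- the numbers
  have hnum : ∃ k₂ : ℕ, 0 < p.2 → ∀ S'' : PCl n, S''.Ne → SubC S'' S' → ∀ w₀ : ℝ, 0 < w₀ →
      w₀ < g → AltE S'' ((range (n - 1)).image (cc hn o.1.1)) (cc hn o.1.1 (n - 1)) p.1.2 e₀ ρ₀
        π₀ w₀ → ∃ φ : ℝ, 0 ≤ φ ∧ ∀ k ≥ k₂, AltAt S' ((range (n - 1)).image (cc hn o.1.1))
          (p.1.1.image (cc hn o.1.1)) (cc hn o.1.1 (n - 1)) p.1.2 e₀ ρ₀ π₀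
          (fun w => LvL hn P P' o (n - 1) w w) g φ p.2 k := by
    by_cases hex : 0 < p.2 ∧ ∃ S'' : PCl n, S''.Ne ∧ SubC S'' S' ∧ ∃ w₀ : ℝ, 0 < w₀ ∧ w₀ < g ∧
        AltE S'' ((range (n - 1)).image (cc hn o.1.1)) (cc hn o.1.1 (n - 1)) p.1.2 e₀ ρ₀ π₀ w₀
    · obtain ⟨he, S'', hne, hs, w₀, c1, c2, c3⟩ := hex
      obtain ⟨φ, hφ, h3⟩ := h2 ⟨F.g0, F.g1⟩ (p.1, (e₀, ρ₀, π₀)) S'' hne hs w₀ c1 c2 c3
      obtain ⟨k₀, hk₀⟩ := h3 p.2 (by exact_mod_cast he)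
      exact ⟨k₀, fun _ _ _ _ _ _ _ _ => ⟨φ, hφ, hk₀⟩⟩
    · exact ⟨0, fun he S'' hne hs w₀ c1 c2 c3 => absurd ⟨he, S'', hne, hs, w₀, c1, c2, c3⟩ hex⟩
  obtain ⟨k₂, hk₂⟩ := hnum
  obtain ⟨k₃, hk₃⟩ := exists_pow_lt_of_lt_one (show 0 < min (ν / 16) (min d₁ d₂) from
    lt_min (by linarith) (lt_min hd₁ hd₂)) (show (1 / 2 : ℝ) < 1 by norm_num)
  obtain ⟨k₀, hk₀⟩ : ∃ k₀ : ℕ, k₀ = max (max k₁ k₂) k₃ := ⟨_, rfl⟩
  have hle : ∀ k : ℕ, k ≤ k₀ → (1 / 2 : ℝ) ^ k₀ ≤ (1 / 2) ^ k := fun k hk =>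
    pow_le_pow_of_le_one (by norm_num) (by norm_num) hk
  have i1 := hle k₁ (by rw [hk₀]; exact (le_max_left _ _).trans (le_max_left _ _))
  have i3 := (hle k₃ (by rw [hk₀]; exact le_max_right _ _)).trans_lt hk₃
  have i4 := i3.trans_le (min_le_left _ _)
  have i5 := i3.trans_le ((min_le_right _ _).trans (min_le_left _ _))
  have i6 := i3.trans_le ((min_le_right _ _).trans (min_le_right _ _))
  refine ⟨k₀, ⟨⟨e₀, ρ₀, π₀, he₀0, by linarith, fun w hw hwx => ?_, fun hp S'' hne hs w₀ c1 c2 c3 => ?_⟩⟩⟩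
  · obtain ⟨rk, E, c1, c2, c3, c4, c5, c6, c7, c8, c9, c10⟩ := hwin w hw (hwx.trans i1)
      (hwx.trans_lt i5) (hwx.trans_lt i6)
    rw [hD] at c5 c7 c8 c9 c10
    rw [hU] at c5 c6 c9
    exact ⟨rk, E, c1, by linarith, c3, by linarith, by linarith, by linarith, by linarith,
      by linarith, by linarith, c10.sub b2⟩
  · obtain ⟨φ, hφ, h3⟩ := hk₂ hp S'' hne hs w₀ c1 c2 c3
    exact ⟨φ, hφ, fun k hk => h3 k ((le_trans (le_max_right _ _) (le_max_left _ _)).trans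
      (hk₀ ▸ hk))⟩

end Pool.ALT
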