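import Pool.Agent.H60.ALT.Arc
import Pool.Agent.H71.AJX.Nfx

/-!
# Joint labels of fixed degree of all the places at the windows of a record

`alx_rec`: as `Pool.ALT.alw_rec`, with joint labels of the chain and the last coordinate.
-/

set_option autoImplicit false

namespace Pool.ALT

open Finset Real MvPolynomial
open Pool.Agent.H49.Ent Pool.Agent.H32.Dense Pool.STK Pool.KA Pool.KSAT Pool.K2S Pool.PB Pool.S6C
  Pool.GEN Pool.RCD Pool.LA91 Pool.OWN68 Pool.PKG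
open Pool.UNJ (ceI)
open Pool.GRD (LbP)
open Pool.V0F (LbU AttR LbD LbE lbc_ext balD_rec her_extc)
open Pool.ISO (lvN)
open Pool.AJX (LbX)

/-- The exponents of the joint labels. -/
noncomputable def eX (r₀ : ℕ) (E : ℝ) (L : ℕ → ℝ → ℝ → ℝ) (w : ℝ) (i : ℕ) : ℝ :=
  if i < r₀ + 1 then max 0 (L r₀ w w - L i w w) else max E (L r₀ w w - L (r₀ + 1) w w)

/-- **The data of all chain windows of a record**, for the last coordinate, with joint labels of all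
the places. -/
theorem alx_rec (r₀ S₀ : ℕ) (hS₀ : 1 ≤ S₀) : ∃ D : ℕ, 1 ≤ D ∧
    ∀ {S : PCl (r₀ + 2)} {al : ℝ} {g₀ : ℝ → ℝ}
    {P : List (Fin (r₀ + 2)) × Fin (r₀ + 2) → ℝ → ℝ → ℝ}
    {θ : ℝ} {P₂ : ℕ → List (Fin (r₀ + 2)) × Fin (r₀ + 2) → ℝ → ℝ → ℝ} {θ₂ Eb e₂ : ℕ → ℝ}
    {c : ℕ → Fin (r₀ + 2)} {Pt : ℝ → ℝ → ℝ} {r : ℝ → ℝ} {h K₀ g : ℝ} {L T : ℕ → ℝ → ℝ → ℝ}
    {Sl : ℕ → ℝ} {κ : ℕ → Kg} {G : Set ℝ} {N : ℕ} {A V : ℕ → ℝ} {S₂ N' : ℕ} {V' : ℕ → ℝ}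
    {K ε q t : ℝ},
    RecG S al g₀ P θ P₂ θ₂ Eb e₂ c Pt r h K₀ g L T Sl κ G S₀ N A V S₂ N' V' K ε q t →
    0 < K → (∀ k < N', |V' k| ≤ K) →
    (∀ k < N', ∃ rd : ℕ → ℝ, Chn S c 0 (r₀ + 1) (t + V' k * q) (t + V' k * q)
      (L r₀ (t + V' k * q) (t + V' k * q)) (fun l => L l (t + V' k * q) (t + V' k * q)) rd) →
    ∀ (E rk : ℕ → ℝ), (∀ k < N', 0 ≤ E k ∧
      E k + L (r₀ + 1) (t + V' k * q) (t + V' k * q) < 1 ∧
      LbU S ((range (r₀ + 1)).image c) (c (r₀ + 1)) (t + V' k * q)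
        (L (r₀ + 1) (t + V' k * q) (t + V' k * q)) (rk k) (E k)) →
    ∃ S' : PCl (r₀ + 2), SubC S' S ∧
      RecG S' al g₀ P θ P₂ θ₂ Eb e₂ c Pt r h K₀ g L T Sl κ G S₀ N A V S₂ N' V' K ε q t ∧
      ∀ k < N', AlW S' c r₀ (c (r₀ + 1)) D (t + V' k * q)
        (L (r₀ + 1) (t + V' k * q) (t + V' k * q)) (L r₀ (t + V' k * q) (t + V' k * q))
        (max (E k) (L r₀ (t + V' k * q) (t + V' k * q) -
          L (r₀ + 1) (t + V' k * q) (t + V' k * q))) 0 (L r₀ (t + V' k * q) (t + V' k * q)) ∧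
        ∀ e : ℝ, 0 < e → Bas S' (fun J F A => ∃ (V₁ : Type) (z : PtT F → V₁) (z' : LnT F → V₁)
          (g : V₁ → ℕ → MvPolynomial (Option (Fin (r₀ + 2))) ℝ),
          LbX F c 0 (r₀ + 2) D e (eX r₀ (E k) L (t + V' k * q)) (t + V' k * q)
            (fun _ => L r₀ (t + V' k * q) (t + V' k * q))
            (fun l => L l (t + V' k * q) (t + V' k * q)) A z z' g) := by
  obtain ⟨D, hD, hext⟩ := lbc_ext (r₀ + 2) (r₀ + 1) S₀ (by omega) hS₀
  refine ⟨D, hD, ?_⟩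
  intro S al g₀ P θ P₂ θ₂ Eb e₂ c Pt r h K₀ g L T Sl κ G N A V S₂ N' V' K ε q t R hK hV hch E rk
    hE
  have hq := R.q0
  choose! rd hch using hch
  have hlv : ∀ k < N', ∀ i ≤ r₀ + 1, 0 < lvN P c (r₀ + 1) Pt i (t + V' k * q) (t + V' k * q) := by
    intro k hk i hi
    obtain ⟨ρ, vs, e, e₀, E, sg, Q, k1, -⟩ := (balD_rec R (by omega) hK hk (hV k hk)).dw
    exact k1.w0.trans_le (k1.low R.thr i)
  have hlvL : ∀ k : ℕ, ∀ i ≤ r₀ + 1, lvN P c (r₀ + 1) Pt i (t + V' k * q) (t + V' k * q) =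
      L i (t + V' k * q) (t + V' k * q) := fun k i hi => by
    have := R.lv i (by omega)
    rw [this]
    rfl
  obtain ⟨u, hu⟩ : ∃ u : ℕ → ℝ, u = fun k => L r₀ (t + V' k * q) (t + V' k * q) := ⟨_, rfl⟩
  have hue : ∀ k, L r₀ (t + V' k * q) (t + V' k * q) = u k := fun k => by rw [hu]
  obtain ⟨E', hE'⟩ : ∃ E' : ℕ → ℝ, E' = fun k =>
      max (E k) (u k - L (r₀ + 1) (t + V' k * q) (t + V' k * q)) := ⟨_, rfl⟩
  obtain ⟨S', hne, hsub, hlab⟩ := hext (ι := {k : ℕ // k < N'}) (w := fun k => t + V' k.1 * q)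
    (u := fun k _ => u k.1)
    (E := fun k i => if i < r₀ + 1 then max 0 (u k.1 - L i (t + V' k.1 * q) (t + V' k.1 * q))
      else E' k.1) R.ne R.thr R.th0 R.tmh
    (by norm_num : (0 : ℝ) ≤ 6) R.tmc R.inj R.law (fun k => by
      have h1 := hch k.1 k.2
      rw [hue] at h1
      refine LbD.of2 (balD_rec R (by omega) hK k.2 (hV k.1 k.2)) h1
        (fun i hi => (hlvL k.1 i hi.le).symm) (rk := rk k.1) ?_ ?_ ?_ (hlv k.1 k.2)
      · show AttR S ((range (r₀ + 1)).image c) (c (r₀ + 1)) (t + V' k.1 * q)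
          (lvN P c (r₀ + 1) Pt (r₀ + 1) (t + V' k.1 * q) (t + V' k.1 * q)) (rk k.1) (E' k.1)
        rw [hlvL k.1 _ le_rfl]
        refine AttR.mono (hE k.1 k.2).2.2 ?_
        rw [hE']
        exact le_max_left _ _
      · rw [hE']
        exact (hE k.1 k.2).1.trans (le_max_left _ _)
      · show u k.1 ≤ lvN P c (r₀ + 1) Pt (r₀ + 1) (t + V' k.1 * q) (t + V' k.1 * q) + E' k.1
        rw [hlvL k.1 _ le_rfl, hE']
        have := le_max_right (E k.1) (u k.1 - L (r₀ + 1) (t + V' k.1 * q) (t + V' k.1 * q))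
        linarith)
  refine ⟨S', hsub, R.sub hne hsub, fun k hk => ⟨?_, fun e he => ?_⟩⟩
  swap
  · refine (hlab ⟨k, hk⟩ e he).mono 0 ?_
    rintro J - F A' ⟨V₁, z, z', g', h1⟩
    refine ⟨V₁, z, z', g', fun i _ hi => ?_⟩
    have h2 := h1 i hi
    have e1 : (if i < r₀ + 1 then max 0 (u k - L i (t + V' k * q) (t + V' k * q)) else E' k) =
        eX r₀ (E k) L (t + V' k * q) i := by
      unfold eX
      by_cases h3 : i < r₀ + 1
      · rw [if_pos h3, if_pos h3, hue]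
      · rw [if_neg h3, if_neg h3, hE']
        rw [hue]
    simp only [e1] at h2
    rw [hlvL k _ (by omega)] at h2
    rw [hue]
    exact h2
  have hc := hch k hk
  obtain ⟨e1, e2, e3⟩ := hE k hk
  have hp := hlv k hk (r₀ + 1) le_rfl
  have hp' := hlv k hk r₀ (by omega)
  rw [hlvL k _ le_rfl] at hp
  rw [hlvL k _ (by omega)] at hp'
  rw [hue] at hc hp' ⊢
  have hu1 := hc.u1
  refine ⟨hc.w0, hc.wu1, hu1, e1.trans (le_max_left _ _), le_rfl, ?_, by linarith, ?_,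
    by linarith, hp, hp', fun e he => ?_, ?_, (hc.pre (r₀ + 1) (Nat.zero_le _) le_rfl).sub hsub,
    (hc.pre r₀ (Nat.zero_le _) (by omega)).sub hsub⟩
  · have := le_max_right (E k) (u k - L (r₀ + 1) (t + V' k * q) (t + V' k * q))
    linarith
  · rcases max_choice (E k) (u k - L (r₀ + 1) (t + V' k * q) (t + V' k * q)) with h3 | h3
    · rw [h3]
      linarith
    · rw [h3]
      linarith
  · refine (hlab ⟨k, hk⟩ e he).mono 0 ?_
    rintro J - F A' ⟨V₁, z, z', g', h1⟩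
    have h2 := h1 (r₀ + 1) (by omega)
    have h3 := h1 r₀ (by omega)
    simp only [lt_irrefl, if_false] at h2
    simp only [show r₀ < r₀ + 1 by omega, if_true] at h3
    rw [hlvL k _ le_rfl] at h2
    rw [hlvL k _ (by omega), hue, sub_self, max_self] at h3
    rw [hE'] at h2
    exact ⟨V₁, z, z', fun v => g' v (r₀ + 1), fun v => g' v r₀, h2, h3⟩
  · intro ρ hρ
    refine ((hc.ful ρ hρ).sub hsub).mono 0 ?_
    intro J _ F A h4 V z z' hz i hi1 hi2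
    have hi : i = r₀ := by omega
    subst hi
    have h5 := h4 V z z' hz i (Nat.zero_le _) hi2
    rw [hue] at h5
    exact h5

end Pool.ALT
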