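import Pool.Agent.H18.PN.Pyb

/-!
# The first jet of a place at the windows of full rate, slopes without resonance

`f1ud_nores`: `F1UD` if the last slope is at most the slope of the place and there is no resonance
`i b = j a`, `1 ≤ i ≤ ⌊a⌋`, `1 ≤ j ≤ ⌊b⌋`. `cbF_nores`: `CbF`.
-/

set_option autoImplicit false

namespace Pool.ASM

open Finset Real
open Pool.GEN Pool.PKG Pool.SW Pool.ALT Pool.PN18
open Pool.LA91 (FaQ sumQ HerQ her_sum her_fa aePG_fa aePG_sum)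

/-- **No resonance** of the slopes `a`, `b`. -/
def NoRes (a b : ℝ) : Prop := ∀ i : ℕ, 1 ≤ i → i ≤ ⌊a⌋₊ → ∀ j : ℕ, 1 ≤ j → j ≤ ⌊b⌋₊ →
  (i : ℝ) * b ≠ j * a

/-- **The first jet of a place at the windows of full rate**, slopes without resonance. -/
theorem f1ud_nores {r : ℕ} (hr : 1 ≤ r) {h : ℝ} (hh : 0 < h) (hh1 : h ≤ 1) {Sl : ℕ → ℝ}
    {κ : ℕ → Kg} (hκ : ∀ l < r, κ l = .one) (ha : 1 < Sl r) (hb : 0 < Sl (r + 1))
    (hab : Sl (r + 1) ≤ Sl r) (hres : NoRes (Sl r) (Sl (r + 1))) :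
    F1UD (r + 2) r h Sl κ
      (sumQ (sumQ (AltR : PropG (r + 2) AltUI) (CuQ : PropG (r + 2) Unit)) FaQ) (ZfR r Sl) :=
  (f1uy_of_pair hr (by omega) hκ ha hb hres (pairY_ba hr hh hh1 hκ ha hb hab _)).s.d

/-- **The first jet of the place 2** at the windows of full rate, slopes without resonance. -/
theorem cbF_nores {k : Kg} (hk : k = .stp ∨ k = .thin ∨ k = .sta) :
    CbF k (fun Sl => Sl 3 ≤ Sl 2 ∧ NoRes (Sl 2) (Sl 3)) := by
  refine ⟨(AltUI ⊕ Unit) ⊕ (ℕ × ℕ × ℚ × ℚ), inferInstance,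
    sumQ (sumQ (AltR : PropG 4 AltUI) (CuQ : PropG 4 Unit)) FaQ,
    aePG_sum (aePG_sum (aePG_altR 4) (her_altR 4) (aePG_cu 4)) (her_sum (her_altR 4) (her_cu 4))
      (aePG_fa 4), her_sum (her_sum (her_altR 4) (her_cu 4)) (her_fa 4), ?_⟩
  rintro h hh hh1 Sl hS ⟨hab, hres⟩
  have ha : 1 < Sl 2 := by
    rcases hk with hk | hk | hk
    · have := hS.stp hk
      linarith
    · exact hS.thin hk
    · have := hS.sta hk
      linarith
  exact f1ud_nores (r := 2) (by norm_num) hh hh1 (fun l hl => by interval_cases l <;> rfl) ha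
    (by linarith [hS.s3]) hab hres

end Pool.ASM
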