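import Pool.Agent.H76.D2.Pair

/-!
# The states of a pair of curved paths

`e i`, `f j`: the exponents to which the jets of order `i`, `j` of two paths with `a`, `b` digits per
unit of radius are known. On the window shorter by `y` the first path is known to `Ud D e y`. A move
replaces `f j` by `b / a * Ud D e y + j y` (plus the tolerance). Without resonance `i b = j a` of
alive orders, finitely many moves lead from the natural state to the state `0`.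
-/

set_option autoImplicit false

namespace Pool.PN18

open Set Filter Topology Finset

/-- The exponent to which a path is known on the window shorter by `y`. -/
noncomputable def Ud (D : ℕ) (e : ℕ → ℝ) (y : ℝ) : ℝ :=
  (Finset.range (D + 1)).sup' ⟨0, Finset.mem_range.2 (Nat.succ_pos D)⟩ (fun i => e i - i * y)

theorem le_Ud {D : ℕ} {e : ℕ → ℝ} {y : ℝ} {i : ℕ} (hi : i ≤ D) : e i - i * y ≤ Ud D e y :=
  Finset.le_sup' (fun i : ℕ => e i - i * y) (Finset.mem_range.2 (Nat.lt_succ_of_le hi))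

theorem Ud_le {D : ℕ} {e : ℕ → ℝ} {y x : ℝ} (h : ∀ i ≤ D, e i - i * y ≤ x) : Ud D e y ≤ x :=
  Finset.sup'_le _ _ fun i hi => h i (Nat.lt_succ_iff.1 (Finset.mem_range.1 hi))

theorem Ud_nonneg {D : ℕ} {e : ℕ → ℝ} {y : ℝ} (h0 : e 0 = 0) : 0 ≤ Ud D e y := by
  have := le_Ud (D := D) (e := e) (y := y) (Nat.zero_le D)
  rw [h0] at this
  simpa using this

theorem continuous_Ud (D : ℕ) (y : ℝ) : Continuous fun e : ℕ → ℝ => Ud D e y := by
  unfold Ud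
  exact Continuous.finset_sup'_apply _ fun i _ => (continuous_apply i).sub continuous_const

/-- The states. -/
def Kst (Iu : Finset ℕ) (a : ℝ) : Set (ℕ → ℝ) :=
  Set.pi univ fun i => if i ∈ Iu then Icc 0 a else {0}

theorem isCompact_Kst (Iu : Finset ℕ) (a : ℝ) : IsCompact (Kst Iu a) := by
  refine isCompact_univ_pi fun i => ?_
  split_ifs
  · exact isCompact_Icc
  · exact isCompact_singleton

theorem Kst.zero {Iu : Finset ℕ} {a : ℝ} {e : ℕ → ℝ} (h : e ∈ Kst Iu a) {i : ℕ} (hi : i ∉ Iu) :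
    e i = 0 := by
  have := h i (Set.mem_univ i)
  simpa [hi] using this

theorem Kst.nonneg {Iu : Finset ℕ} {a : ℝ} {e : ℕ → ℝ} (h : e ∈ Kst Iu a) (i : ℕ) : 0 ≤ e i := by
  by_cases hi : i ∈ Iu
  · have := h i (Set.mem_univ i)
    simp only [hi, if_true] at this
    exact this.1
  · exact (Kst.zero h hi).ge

theorem Kst.le {Iu : Finset ℕ} {a : ℝ} (ha : 0 ≤ a) {e : ℕ → ℝ} (h : e ∈ Kst Iu a) (i : ℕ) :
    e i ≤ a := by
  by_cases hi : i ∈ Iu
  · have := h i (Set.mem_univ i)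
    simp only [hi, if_true] at this
    exact this.2
  · rw [Kst.zero h hi]
    exact ha

theorem mem_Kst {Iu : Finset ℕ} {a : ℝ} {e : ℕ → ℝ} (h0 : ∀ i, i ∉ Iu → e i = 0)
    (h1 : ∀ i ∈ Iu, 0 ≤ e i) (h2 : ∀ i ∈ Iu, e i ≤ a) : e ∈ Kst Iu a := by
  intro i _
  by_cases hi : i ∈ Iu
  · simp only [hi, if_true]
    exact ⟨h1 i hi, h2 i hi⟩
  · simp only [hi, if_false, Set.mem_singleton_iff]
    exact h0 i hi

/-- The largest quotient. -/
theorem top_ratio {D : ℕ} {Iu : Finset ℕ} (hI : ∀ i ∈ Iu, 1 ≤ i ∧ i ≤ D) {a : ℝ} (ha : 0 ≤ a)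
    {e : ℕ → ℝ} (he : e ∈ Kst Iu a) (hpos : ∃ i ∈ Iu, 0 < e i) :
    ∃ ρ : ℝ, 0 < ρ ∧ ρ ≤ a ∧ (∀ i, e i ≤ i * ρ) ∧ Ud D e ρ ≤ 0 ∧ ∃ i₀ ∈ Iu, e i₀ = i₀ * ρ ∧
      ∃ t₀ : ℝ, 0 < t₀ ∧ ∀ t, 0 ≤ t → t ≤ t₀ → t ≤ ρ → Ud D e (ρ - t) ≤ i₀ * t := by
  obtain ⟨i₁, hi₁, hp⟩ := hpos
  obtain ⟨i₂, hi₂, hmax⟩ := Finset.exists_max_image Iu (fun i => e i / i) ⟨i₁, hi₁⟩
  obtain ⟨ρ, hρ⟩ : ∃ ρ : ℝ, ρ = e i₂ / i₂ := ⟨_, rfl⟩
  have c0 : ∀ i ∈ Iu, (0 : ℝ) < i := fun i hi => by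
    have := (hI i hi).1
    exact_mod_cast this
  have hρ0 : 0 < ρ := by
    have h1 := hmax i₁ hi₁
    rw [← hρ] at h1
    exact lt_of_lt_of_le (div_pos hp (c0 i₁ hi₁)) h1
  have hle : ∀ i, e i ≤ i * ρ := by
    intro i
    by_cases hi : i ∈ Iu
    · have h1 := hmax i hi
      rw [← hρ, div_le_iff₀ (c0 i hi)] at h1
      linarith
    · rw [Kst.zero he hi]
      positivity
  have hρa : ρ ≤ a := by
    rw [hρ, div_le_iff₀ (c0 i₂ hi₂)]
    have h1 : (1 : ℝ) ≤ i₂ := by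
      have := (hI i₂ hi₂).1
      exact_mod_cast this
    have h2 := Kst.le ha he i₂
    nlinarith
  refine ⟨ρ, hρ0, hρa, hle, Ud_le fun i _ => by linarith [hle i], ?_⟩
  -- the largest order which attains
  obtain ⟨T, hT⟩ : ∃ T : Finset ℕ, T = Iu.filter fun i => e i = i * ρ := ⟨_, rfl⟩
  have hi₂' : e i₂ = i₂ * ρ := by
    rw [hρ]
    field_simp [(c0 i₂ hi₂).ne']
  have hTne : T.Nonempty := ⟨i₂, by rw [hT, Finset.mem_filter]; exact ⟨hi₂, hi₂'⟩⟩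
  obtain ⟨i₀, hi₀, hi₀m⟩ := Finset.exists_max_image T (fun i => i) hTne
  have hi₀' := hi₀
  rw [hT, Finset.mem_filter] at hi₀'
  refine ⟨i₀, hi₀'.1, hi₀'.2, ?_⟩
  -- a small number
  have hev : ∀ᶠ t in 𝓝[>] (0 : ℝ), ∀ i ∈ Iu, e i < i * ρ → i * t ≤ i * ρ - e i := by
    rw [Filter.eventually_all_finset]
    intro i hi
    by_cases h : e i < i * ρ
    · have h1 : Filter.Tendsto (fun t : ℝ => i * t) (𝓝[>] 0) (𝓝 (i * 0)) :=
        ((continuous_const.mul continuous_id).tendsto 0).mono_left nhdsWithin_le_nhds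
      rw [mul_zero] at h1
      filter_upwards [h1.eventually (Iio_mem_nhds (sub_pos.2 h))] with t ht _
      exact le_of_lt ht
    · exact Filter.Eventually.of_forall fun t h' => absurd h' h
  obtain ⟨t₀, ht₀, ht₀'⟩ := (hev.and self_mem_nhdsWithin).exists
  refine ⟨t₀, ht₀', fun t h0 h1 h2 => Ud_le fun i _ => ?_⟩
  have hi0 : (0 : ℝ) ≤ i := Nat.cast_nonneg i
  by_cases hi : i ∈ Iu
  · rcases (hle i).lt_or_eq with h | h
    · have h3 := ht₀ i hi h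
      have h4 : (0 : ℝ) ≤ i₀ * t := by positivity
      have h5 : (i : ℝ) * t ≤ i * t₀ := mul_le_mul_of_nonneg_left h1 hi0
      nlinarith
    · have h3 : i ≤ i₀ := hi₀m i (by rw [hT, Finset.mem_filter]; exact ⟨hi, h⟩)
      have h4 : (i : ℝ) ≤ i₀ := by exact_mod_cast h3
      have h5 : (i : ℝ) * t ≤ i₀ * t := mul_le_mul_of_nonneg_right h4 h0
      rw [h]
      linarith
  · rw [Kst.zero he hi]
    have h4 : (0 : ℝ) ≤ i₀ * t := by positivity
    have h5 : 0 ≤ (i : ℝ) * (ρ - t) := mul_nonneg hi0 (by linarith)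
    linarith

/-- **No fixed state except `0`.** -/
theorem fix_zero {D : ℕ} {Iu Iz : Finset ℕ} (hu : ∀ i ∈ Iu, 1 ≤ i ∧ i ≤ D)
    (hz : ∀ j ∈ Iz, 1 ≤ j ∧ j ≤ D) {a b : ℝ} (ha : 0 < a) (hb : 0 < b)
    (hres : ∀ i ∈ Iu, ∀ j ∈ Iz, (i : ℝ) * b ≠ j * a) {e f : ℕ → ℝ} (he : e ∈ Kst Iu a)
    (hf : f ∈ Kst Iz b) (hne : (∃ i ∈ Iu, 0 < e i) ∨ ∃ j ∈ Iz, 0 < f j) :
    ∃ y : ℝ, 0 ≤ y ∧ y ≤ a + b ∧ ((∃ j ∈ Iz, b / a * Ud D e y + j * y < f j) ∨
      ∃ i ∈ Iu, a / b * Ud D f y + i * y < e i) := by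
  by_contra hcon
  push Not at hcon
  have hu0 : (0 : ℕ) ∉ Iu := fun h => by
    have := (hu 0 h).1
    omega
  have hz0 : (0 : ℕ) ∉ Iz := fun h => by
    have := (hz 0 h).1
    omega
  have H1 : ∀ y, 0 ≤ y → y ≤ a + b → ∀ j ∈ Iz, f j ≤ b / a * Ud D e y + j * y :=
    fun y h0 h1 => (hcon y h0 h1).1
  have H2 : ∀ y, 0 ≤ y → y ≤ a + b → ∀ i ∈ Iu, e i ≤ a / b * Ud D f y + i * y :=
    fun y h0 h1 => (hcon y h0 h1).2
  -- both are not zero
  have hab : 0 ≤ a + b := by positivity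
  have pe : ∃ i ∈ Iu, 0 < e i := by
    by_contra h
    push Not at h
    have hU : Ud D e 0 ≤ 0 := Ud_le fun i _ => by
      by_cases hi : i ∈ Iu
      · simpa using h i hi
      · rw [Kst.zero he hi]
        simp
    obtain ⟨j, hj, hp⟩ := hne.resolve_left (fun ⟨i, hi, hp⟩ => absurd hp (not_lt.2 (h i hi)))
    have h1 := H1 0 le_rfl hab j hj
    have h2 : b / a * Ud D e 0 ≤ 0 := mul_nonpos_of_nonneg_of_nonpos (by positivity) hU
    simp only [mul_zero, add_zero] at h1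
    linarith
  have pf : ∃ j ∈ Iz, 0 < f j := by
    by_contra h
    push Not at h
    have hU : Ud D f 0 ≤ 0 := Ud_le fun i _ => by
      by_cases hi : i ∈ Iz
      · simpa using h i hi
      · rw [Kst.zero hf hi]
        simp
    obtain ⟨i, hi, hp⟩ := pe
    have h1 := H2 0 le_rfl hab i hi
    have h2 : a / b * Ud D f 0 ≤ 0 := mul_nonpos_of_nonneg_of_nonpos (by positivity) hU
    simp only [mul_zero, add_zero] at h1
    linarith
  obtain ⟨ρ, hρ0, hρa, hρle, hρU, i₀, hi₀, hei, t₁, ht₁, ht₁'⟩ := top_ratio hu ha.le he pe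
  obtain ⟨σ, hσ0, hσb, hσle, hσU, j₀, hj₀, hfj, t₂, ht₂, ht₂'⟩ := top_ratio hz hb.le hf pf
  have ci : (0 : ℝ) < i₀ := by
    have := (hu i₀ hi₀).1
    exact_mod_cast this
  have cj : (0 : ℝ) < j₀ := by
    have := (hz j₀ hj₀).1
    exact_mod_cast this
  have h1 := H1 ρ hρ0.le (by linarith) j₀ hj₀
  have h2 := H2 σ hσ0.le (by linarith) i₀ hi₀
  have h3 : b / a * Ud D e ρ ≤ 0 := mul_nonpos_of_nonneg_of_nonpos (by positivity) hρU
  have h4 : a / b * Ud D f σ ≤ 0 := mul_nonpos_of_nonneg_of_nonpos (by positivity) hσU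
  have h5 : σ ≤ ρ := by
    rw [hfj] at h1
    have : (j₀ : ℝ) * σ ≤ j₀ * ρ := by linarith
    exact le_of_mul_le_mul_left this cj
  have h6 : ρ ≤ σ := by
    rw [hei] at h2
    have : (i₀ : ℝ) * ρ ≤ i₀ * σ := by linarith
    exact le_of_mul_le_mul_left this ci
  have h7 : σ = ρ := le_antisymm h5 h6
  subst h7
  obtain ⟨t, ht⟩ : ∃ t : ℝ, t = min (min t₁ t₂) σ := ⟨_, rfl⟩
  have t0 : 0 < t := by
    rw [ht]
    exact lt_min (lt_min ht₁ ht₂) hσ0
  have l1 : t ≤ t₁ := by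
    rw [ht]
    exact (min_le_left _ _).trans (min_le_left _ _)
  have l2 : t ≤ t₂ := by
    rw [ht]
    exact (min_le_left _ _).trans (min_le_right _ _)
  have l3 : t ≤ σ := by
    rw [ht]
    exact min_le_right _ _
  have g1 := ht₁' t t0.le l1 l3
  have g2 := ht₂' t t0.le l2 l3
  have g3 := H1 (σ - t) (by linarith) (by linarith) j₀ hj₀
  have g4 := H2 (σ - t) (by linarith) (by linarith) i₀ hi₀
  rw [hfj] at g3
  rw [hei] at g4
  have g5 : b / a * Ud D e (σ - t) ≤ b / a * (i₀ * t) :=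
    mul_le_mul_of_nonneg_left g1 (by positivity)
  have g6 : a / b * Ud D f (σ - t) ≤ a / b * (j₀ * t) :=
    mul_le_mul_of_nonneg_left g2 (by positivity)
  have g7 : (j₀ : ℝ) * t ≤ b / a * i₀ * t := by nlinarith
  have g8 : (i₀ : ℝ) * t ≤ a / b * j₀ * t := by nlinarith
  have g9 : (j₀ : ℝ) ≤ b / a * i₀ := le_of_mul_le_mul_right g7 t0
  have g10 : (i₀ : ℝ) ≤ a / b * j₀ := le_of_mul_le_mul_right g8 t0
  have g11 : (j₀ : ℝ) * a ≤ i₀ * b := by
    have h := mul_le_mul_of_nonneg_right g9 ha.le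
    have e1 : b / a * i₀ * a = i₀ * b := by field_simp
    linarith
  have g12 : (i₀ : ℝ) * b ≤ j₀ * a := by
    have h := mul_le_mul_of_nonneg_right g10 hb.le
    have e1 : a / b * j₀ * b = j₀ * a := by field_simp
    linarith
  exact hres i₀ hi₀ j₀ hj₀ (le_antisymm g12 g11)

/-- The sum of the exponents. -/
noncomputable def Phs (Iu Iz : Finset ℕ) (p : (ℕ → ℝ) × (ℕ → ℝ)) : ℝ :=
  ∑ i ∈ Iu, p.1 i + ∑ j ∈ Iz, p.2 j

theorem continuous_Phs (Iu Iz : Finset ℕ) : Continuous (Phs Iu Iz) := by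
  unfold Phs
  exact (continuous_finsetSum _ fun i _ => (continuous_apply i).comp continuous_fst).add
    (continuous_finsetSum _ fun i _ => (continuous_apply i).comp continuous_snd)

/-- **The gain of the best move is bounded below** away from the state `0`. -/
theorem gap {D : ℕ} {Iu Iz : Finset ℕ} (hu : ∀ i ∈ Iu, 1 ≤ i ∧ i ≤ D)
    (hz : ∀ j ∈ Iz, 1 ≤ j ∧ j ≤ D) {a b : ℝ} (ha : 0 < a) (hb : 0 < b)
    (hres : ∀ i ∈ Iu, ∀ j ∈ Iz, (i : ℝ) * b ≠ j * a) {κ : ℝ} (hκ : 0 < κ) :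
    ∃ η : ℝ, 0 < η ∧ ∀ p : (ℕ → ℝ) × (ℕ → ℝ), p.1 ∈ Kst Iu a → p.2 ∈ Kst Iz b →
      κ ≤ Phs Iu Iz p → ∃ y : ℝ, 0 ≤ y ∧ y ≤ a + b ∧
        ((∃ j ∈ Iz, b / a * Ud D p.1 y + j * y + η ≤ p.2 j) ∨
          ∃ i ∈ Iu, a / b * Ud D p.2 y + i * y + η ≤ p.1 i) := by
  obtain ⟨K, hK⟩ : ∃ K : Set ((ℕ → ℝ) × (ℕ → ℝ)),
    K = (Kst Iu a ×ˢ Kst Iz b) ∩ {p | κ ≤ Phs Iu Iz p} := ⟨_, rfl⟩
  have hKc : IsCompact K := by
    rw [hK]
    exact ((isCompact_Kst Iu a).prod (isCompact_Kst Iz b)).inter_right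
      (isClosed_le continuous_const (continuous_Phs Iu Iz))
  have key : ∃ η : ℝ, 0 < η ∧ ∀ p ∈ K, ∃ y : ℝ, 0 ≤ y ∧ y ≤ a + b ∧
        ((∃ j ∈ Iz, b / a * Ud D p.1 y + j * y + η ≤ p.2 j) ∨
          ∃ i ∈ Iu, a / b * Ud D p.2 y + i * y + η ≤ p.1 i) := by
    refine hKc.induction_on (p := fun s => ∃ η : ℝ, 0 < η ∧ ∀ p ∈ s, ∃ y : ℝ, 0 ≤ y ∧ y ≤ a + b ∧
        ((∃ j ∈ Iz, b / a * Ud D p.1 y + j * y + η ≤ p.2 j) ∨
          ∃ i ∈ Iu, a / b * Ud D p.2 y + i * y + η ≤ p.1 i))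
      ⟨1, one_pos, fun p hp => absurd hp (Set.notMem_empty p)⟩ ?_ ?_ ?_
    · rintro s t hst ⟨η, hη, H⟩
      exact ⟨η, hη, fun p hp => H p (hst hp)⟩
    · rintro s t ⟨η, hη, H⟩ ⟨η', hη', H'⟩
      refine ⟨min η η', lt_min hη hη', fun p hp => ?_⟩
      rcases hp with hp | hp
      · obtain ⟨y, h0, h1, h2⟩ := H p hp
        refine ⟨y, h0, h1, h2.imp ?_ ?_⟩
        · rintro ⟨j, hj, h⟩
          exact ⟨j, hj, by linarith [min_le_left η η']⟩
        · rintro ⟨i, hi, h⟩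
          exact ⟨i, hi, by linarith [min_le_left η η']⟩
      · obtain ⟨y, h0, h1, h2⟩ := H' p hp
        refine ⟨y, h0, h1, h2.imp ?_ ?_⟩
        · rintro ⟨j, hj, h⟩
          exact ⟨j, hj, by linarith [min_le_right η η']⟩
        · rintro ⟨i, hi, h⟩
          exact ⟨i, hi, by linarith [min_le_right η η']⟩
    · intro p hp
      rw [hK] at hp
      obtain ⟨⟨h1, h2⟩, h3⟩ := hp
      have hne : (∃ i ∈ Iu, 0 < p.1 i) ∨ ∃ j ∈ Iz, 0 < p.2 j := by
        by_contra hcon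
        push Not at hcon
        have h4 : Phs Iu Iz p ≤ 0 := by
          unfold Phs
          exact add_nonpos (Finset.sum_nonpos hcon.1) (Finset.sum_nonpos hcon.2)
        have h5 : κ ≤ Phs Iu Iz p := h3
        linarith
      obtain ⟨y, y0, y1, h4⟩ := fix_zero hu hz ha hb hres h1 h2 hne
      rcases h4 with ⟨j, hj, h⟩ | ⟨i, hi, h⟩
      · obtain ⟨η, hη⟩ : ∃ η : ℝ, η = (p.2 j - (b / a * Ud D p.1 y + j * y)) / 2 := ⟨_, rfl⟩
        refine ⟨{q | b / a * Ud D q.1 y + j * y + η < q.2 j}, ?_, η, by rw [hη]; linarith,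
          fun q hq => ⟨y, y0, y1, Or.inl ⟨j, hj, le_of_lt hq⟩⟩⟩
        refine mem_nhdsWithin_of_mem_nhds (IsOpen.mem_nhds ?_ ?_)
        · exact isOpen_lt (((continuous_const.mul ((continuous_Ud D y).comp continuous_fst)).add
            continuous_const).add continuous_const) ((continuous_apply j).comp continuous_snd)
        · show b / a * Ud D p.1 y + j * y + η < p.2 j
          rw [hη]
          linarith
      · obtain ⟨η, hη⟩ : ∃ η : ℝ, η = (p.1 i - (a / b * Ud D p.2 y + i * y)) / 2 := ⟨_, rfl⟩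
        refine ⟨{q | a / b * Ud D q.2 y + i * y + η < q.1 i}, ?_, η, by rw [hη]; linarith,
          fun q hq => ⟨y, y0, y1, Or.inr ⟨i, hi, le_of_lt hq⟩⟩⟩
        refine mem_nhdsWithin_of_mem_nhds (IsOpen.mem_nhds ?_ ?_)
        · exact isOpen_lt (((continuous_const.mul ((continuous_Ud D y).comp continuous_snd)).add
            continuous_const).add continuous_const) ((continuous_apply i).comp continuous_fst)
        · show a / b * Ud D p.2 y + i * y + η < p.1 i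
          rw [hη]
          linarith
  obtain ⟨η, hη, H⟩ := key
  exact ⟨η, hη, fun p h1 h2 h3 => H p (by rw [hK]; exact ⟨⟨h1, h2⟩, h3⟩)⟩

/-- A move, with tolerance `ε₀` and room `m₀`. -/
def Mv (D : ℕ) (Iu Iz : Finset ℕ) (a b ε₀ m₀ : ℝ) (p q : (ℕ → ℝ) × (ℕ → ℝ)) : Prop :=
  ∃ y : ℝ, 0 ≤ y ∧ y ≤ a + b ∧
    ((b / a * Ud D p.1 y + m₀ ≤ b ∧
      q = (p.1, fun j => if j ∈ Iz then min (p.2 j) (b / a * Ud D p.1 y + j * y + ε₀) else 0)) ∨
    (a / b * Ud D p.2 y + m₀ ≤ a ∧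
      q = (fun i => if i ∈ Iu then min (p.1 i) (a / b * Ud D p.2 y + i * y + ε₀) else 0, p.2)))

theorem Mv.mem {D : ℕ} {Iu Iz : Finset ℕ} (hu : ∀ i ∈ Iu, 1 ≤ i ∧ i ≤ D)
    (hz : ∀ j ∈ Iz, 1 ≤ j ∧ j ≤ D) {a b ε₀ m₀ : ℝ} (ha : 0 < a) (hb : 0 < b) (hε : 0 ≤ ε₀)
    {p q : (ℕ → ℝ) × (ℕ → ℝ)} (h : Mv D Iu Iz a b ε₀ m₀ p q) (h1 : p.1 ∈ Kst Iu a)
    (h2 : p.2 ∈ Kst Iz b) : q.1 ∈ Kst Iu a ∧ q.2 ∈ Kst Iz b := by
  have hu0 : (0 : ℕ) ∉ Iu := fun h => by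
    have := (hu 0 h).1
    omega
  have hz0 : (0 : ℕ) ∉ Iz := fun h => by
    have := (hz 0 h).1
    omega
  obtain ⟨y, y0, y1, ⟨h3, rfl⟩ | ⟨h3, rfl⟩⟩ := h
  · refine ⟨h1, mem_Kst (fun j hj => by simp [hj]) (fun j hj => ?_) fun j hj => ?_⟩
    · simp only [hj, if_true]
      refine le_min (Kst.nonneg h2 j) ?_
      have h4 : 0 ≤ Ud D p.1 y := Ud_nonneg (Kst.zero h1 hu0)
      positivity
    · simp only [hj, if_true]
      exact (min_le_left _ _).trans (Kst.le hb.le h2 j)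
  · refine ⟨mem_Kst (fun j hj => by simp [hj]) (fun j hj => ?_) fun j hj => ?_, h2⟩
    · simp only [hj, if_true]
      refine le_min (Kst.nonneg h1 j) ?_
      have h4 : 0 ≤ Ud D p.2 y := Ud_nonneg (Kst.zero h2 hz0)
      positivity
    · simp only [hj, if_true]
      exact (min_le_left _ _).trans (Kst.le ha.le h1 j)

/-- **The state `0` is reached.** -/
theorem reach {D : ℕ} {Iu Iz : Finset ℕ} (hu : ∀ i ∈ Iu, 1 ≤ i ∧ i ≤ D)
    (hz : ∀ j ∈ Iz, 1 ≤ j ∧ j ≤ D) {a b : ℝ} (ha : 0 < a) (hb : 0 < b)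
    (hres : ∀ i ∈ Iu, ∀ j ∈ Iz, (i : ℝ) * b ≠ j * a) {κ : ℝ} (hκ : 0 < κ) :
    ∃ ε₀ : ℝ, 0 < ε₀ ∧ ∃ m₀ : ℝ, 0 < m₀ ∧ ∀ p : (ℕ → ℝ) × (ℕ → ℝ), p.1 ∈ Kst Iu a →
      p.2 ∈ Kst Iz b → ∃ q : (ℕ → ℝ) × (ℕ → ℝ),
        Relation.ReflTransGen (Mv D Iu Iz a b ε₀ m₀) p q ∧ (∀ i, q.1 i < κ) ∧
          ∀ j, q.2 j < κ := by
  have hu0 : (0 : ℕ) ∉ Iu := fun h => by
    have := (hu 0 h).1
    omega
  have hz0 : (0 : ℕ) ∉ Iz := fun h => by
    have := (hz 0 h).1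
    omega
  obtain ⟨η, hη, H⟩ := gap hu hz ha hb hres hκ
  refine ⟨η / 2, by positivity, η, hη, ?_⟩
  have main : ∀ n : ℕ, ∀ p : (ℕ → ℝ) × (ℕ → ℝ), p.1 ∈ Kst Iu a → p.2 ∈ Kst Iz b →
      Phs Iu Iz p < κ + n * (η / 2) → ∃ q : (ℕ → ℝ) × (ℕ → ℝ),
        Relation.ReflTransGen (Mv D Iu Iz a b (η / 2) η) p q ∧ q.1 ∈ Kst Iu a ∧
          q.2 ∈ Kst Iz b ∧ Phs Iu Iz q < κ := by
    intro n
    induction n with
    | zero =>
      intro p h1 h2 h3
      exact ⟨p, Relation.ReflTransGen.refl, h1, h2, by simpa using h3⟩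
    | succ n ih =>
      intro p h1 h2 h3
      by_cases hp : Phs Iu Iz p < κ
      · exact ⟨p, Relation.ReflTransGen.refl, h1, h2, hp⟩
      · obtain ⟨y, y0, y1, h4⟩ := H p h1 h2 (not_lt.1 hp)
        push_cast at h3
        rcases h4 with ⟨j, hj, h⟩ | ⟨i, hi, h⟩
        · obtain ⟨q, hq⟩ : ∃ q : (ℕ → ℝ) × (ℕ → ℝ), q = (p.1, fun j => if j ∈ Iz then
            min (p.2 j) (b / a * Ud D p.1 y + j * y + η / 2) else 0) := ⟨_, rfl⟩
          have hj0 : (0 : ℝ) ≤ j * y := mul_nonneg (Nat.cast_nonneg j) y0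
          have hmv : Mv D Iu Iz a b (η / 2) η p q :=
            ⟨y, y0, y1, Or.inl ⟨by linarith [Kst.le hb.le h2 j], hq⟩⟩
          obtain ⟨k1, k2⟩ := hmv.mem hu hz ha hb (by positivity) h1 h2
          have k3 : Phs Iu Iz q + η / 2 ≤ Phs Iu Iz p := by
            have e1 : ∑ j ∈ Iz, q.2 j + η / 2 ≤ ∑ j ∈ Iz, p.2 j := by
              rw [← Finset.add_sum_erase Iz _ hj, ← Finset.add_sum_erase Iz _ hj]
              have e2 : ∑ x ∈ Iz.erase j, q.2 x ≤ ∑ x ∈ Iz.erase j, p.2 x := by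
                refine Finset.sum_le_sum fun x hx => ?_
                rw [hq]
                simp only [Finset.mem_of_mem_erase hx, if_true]
                exact min_le_left _ _
              have e3 : q.2 j ≤ b / a * Ud D p.1 y + j * y + η / 2 := by
                rw [hq]
                simp only [hj, if_true]
                exact min_le_right _ _
              linarith
            have e4 : q.1 = p.1 := by rw [hq]
            unfold Phs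
            rw [e4]
            linarith
          obtain ⟨r, r1, r2⟩ := ih q k1 k2 (by linarith)
          exact ⟨r, Relation.ReflTransGen.head hmv r1, r2⟩
        · obtain ⟨q, hq⟩ : ∃ q : (ℕ → ℝ) × (ℕ → ℝ), q = (fun i => if i ∈ Iu then
            min (p.1 i) (a / b * Ud D p.2 y + i * y + η / 2) else 0, p.2) := ⟨_, rfl⟩
          have hi0 : (0 : ℝ) ≤ i * y := mul_nonneg (Nat.cast_nonneg i) y0
          have hmv : Mv D Iu Iz a b (η / 2) η p q :=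
            ⟨y, y0, y1, Or.inr ⟨by linarith [Kst.le ha.le h1 i], hq⟩⟩
          obtain ⟨k1, k2⟩ := hmv.mem hu hz ha hb (by positivity) h1 h2
          have k3 : Phs Iu Iz q + η / 2 ≤ Phs Iu Iz p := by
            have e1 : ∑ j ∈ Iu, q.1 j + η / 2 ≤ ∑ j ∈ Iu, p.1 j := by
              rw [← Finset.add_sum_erase Iu _ hi, ← Finset.add_sum_erase Iu _ hi]
              have e2 : ∑ x ∈ Iu.erase i, q.1 x ≤ ∑ x ∈ Iu.erase i, p.1 x := by
                refine Finset.sum_le_sum fun x hx => ?_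
                rw [hq]
                simp only [Finset.mem_of_mem_erase hx, if_true]
                exact min_le_left _ _
              have e3 : q.1 i ≤ a / b * Ud D p.2 y + i * y + η / 2 := by
                rw [hq]
                simp only [hi, if_true]
                exact min_le_right _ _
              linarith
            have e4 : q.2 = p.2 := by rw [hq]
            unfold Phs
            rw [e4]
            linarith
          obtain ⟨r, r1, r2⟩ := ih q k1 k2 (by linarith)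
          exact ⟨r, Relation.ReflTransGen.head hmv r1, r2⟩
  intro p h1 h2
  obtain ⟨n, hn⟩ := exists_nat_gt ((Phs Iu Iz p - κ) / (η / 2))
  rw [div_lt_iff₀ (by positivity)] at hn
  obtain ⟨q, q1, q2, q3, q4⟩ := main n p h1 h2 (by linarith)
  have hs : ∀ (I : Finset ℕ) (x : ℕ → ℝ) (c : ℝ), x ∈ Kst I c → ∀ i, x i ≤ ∑ j ∈ I, x j := by
    intro I x c hx i
    by_cases hi : i ∈ I
    · exact Finset.single_le_sum (fun j _ => Kst.nonneg hx j) hi
    · rw [Kst.zero hx hi]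
      exact Finset.sum_nonneg fun j _ => Kst.nonneg hx j
  have s1 : 0 ≤ ∑ j ∈ Iu, q.1 j := Finset.sum_nonneg fun j _ => Kst.nonneg q2 j
  have s2 : 0 ≤ ∑ j ∈ Iz, q.2 j := Finset.sum_nonneg fun j _ => Kst.nonneg q3 j
  have e : Phs Iu Iz q = ∑ i ∈ Iu, q.1 i + ∑ j ∈ Iz, q.2 j := rfl
  rw [e] at q4
  exact ⟨q, q1, fun i => by linarith [hs Iu q.1 a q2 i], fun j => by linarith [hs Iz q.2 b q3 j]⟩

end Pool.PN18
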