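import Pool.Agent.H18.PN.Ipz
import Pool.Agent.H18.PN.Stgg

/-!
# The first jet of a steep place over full places, the next slope smaller

`BaQ`: the property of the windows. `f1uy_ba`, `f1us_ba`: the first jet of the place `r` is few bits,
for `0 < Sl (r + 1) < Sl r`, `1 < Sl r`, the places below `r` of kind `one`, full rates of the last
coordinate.
-/

set_option autoImplicit false

namespace Pool.PN18

open Finset Real
open Pool.GEN Pool.PKG Pool.SW Pool.ALT Pool.LPT30 Pool.AJW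
open Pool.LA91 (sumQ HerQ her_sum aePG_sum)

/-- The index of `BaQ`. -/
abbrev BaX : Type := (AltUI ⊕ Unit) ⊕ TwX

/-- **The property of the windows** for `b < a`. -/
abbrev BaQ (m : ℕ) : PropG m BaX :=
  sumQ (sumQ (AltR : PropG m AltUI) (CuQ : PropG m Unit)) (TwQ : PropG m TwX)

theorem aePG_ba (m : ℕ) : AePG m (BaQ m) :=
  aePG_sum (aePG_sum (aePG_altR m) (her_altR m) (aePG_cu m)) (her_sum (her_altR m) (her_cu m))
    (aePG_tw m)

theorem her_ba (m : ℕ) : HerQ (BaQ m) := her_sum (her_sum (her_altR m) (her_cu m)) (her_tw m)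

/-- **The first jet of the place** `r` is few bits. -/
theorem f1uy_ba {r : ℕ} (hr : 1 ≤ r) {h : ℝ} (hh : 0 < h) (hh1 : h ≤ 1) {Sl : ℕ → ℝ}
    {κ : ℕ → Kg} (hκ : ∀ l < r, κ l = .one) (ha1 : 1 < Sl r) (hb : 0 < Sl (r + 1))
    (hab : Sl (r + 1) < Sl r) (Y : PropY (r + 2)) :
    F1UY (r + 2) r h Sl κ (BaQ (r + 2)) (ZfR r Sl) Y :=
  f1uy_of_ip hr hh hh1 hκ ha1 hb hab (ipY_of_tw hr hκ ha1 hb hab) Y

/-- **The first jet of the place** `r` is few bits, in a subclass chosen after the windows. -/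
theorem f1us_ba {r : ℕ} (hr : 1 ≤ r) {h : ℝ} (hh : 0 < h) (hh1 : h ≤ 1) {Sl : ℕ → ℝ}
    {κ : ℕ → Kg} (hκ : ∀ l < r, κ l = .one) (ha1 : 1 < Sl r) (hb : 0 < Sl (r + 1))
    (hab : Sl (r + 1) < Sl r) : F1US (r + 2) r h Sl κ (BaQ (r + 2)) (ZfR r Sl) :=
  (f1uy_ba hr hh hh1 hκ ha1 hb hab _).s

end Pool.PN18
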