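import Pool.Agent.H18.PN.Fds
import Pool.Agent.H18.PN.Rst

/-!
# Far-dead jets of a steep place and of the last coordinate, the last slope smaller

`fds_ba`: `FdS` for every kind of the two, the places below of kind `one`, full rates.
-/

set_option autoImplicit false

namespace Pool.PN18

open Pool.GEN Pool.PKG Pool.SW Pool.ALT Pool.LPT30 Pool.AJW

/-- **Far-dead jets of both coordinates.** -/
theorem fds_ba {r : ℕ} (hr : 1 ≤ r) {h : ℝ} (hh : 0 < h) (hh1 : h ≤ 1) {Sl : ℕ → ℝ}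
    {κ : ℕ → Kg} (hκ : ∀ l < r, κ l = .one) (ha1 : 1 < Sl r) (hb : 0 < Sl (r + 1))
    (hab : Sl (r + 1) < Sl r) : FdS r h Sl κ (BaQ (r + 2)) (ZfR r Sl) :=
  fds_of_ip hr hh hh1 hκ ha1 hb hab (ipY_of_tw hr hκ ha1 hb hab)

end Pool.PN18
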