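import Pool.Agent.H18.PN.Stgg
import Pool.Agent.H18.PN.Fdl

/-!
# Far-dead jets of the place `r` and of the last coordinate

`FdS`: all orders of the two coordinates. `fds_of_ip`: from the mutual information of the alive orders,
`0 < Sl (r + 1) < Sl r`.
-/

set_option autoImplicit false

namespace Pool.PN18

open Finset Real MvPolynomial
open Pool.Agent.H49.Ent Pool.Agent.H32.Dense Pool.STK Pool.KA Pool.KSAT Pool.K2S Pool.PB Pool.GEN
open Pool.S6C Pool.RCD Pool.LA91 Pool.OWN68 Pool.AJW Pool.AJX Pool.CHT Pool.PKG Pool.ALT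
open Pool.CR99 (PairE)
open Pool.ASM (AdmN)

/-- **Far-dead jets of the place** `r` **and of the coordinate** `r + 1`: all orders `1, .., J₀`, to
`C q` digits beyond the natural ones at the record, given the far path of the places below `r`, in a
nonempty subclass chosen after the windows; labels of `t` and of `t - Tn q`, any `Tn ≥ Tn₀`. -/
def FdS (r : ℕ) (h : ℝ) (Sl : ℕ → ℝ) (κ : ℕ → Kg) {ι Λ : Type} (Q : PropG (r + 2) ι)
    (Z : PropZ (r + 2) Λ) : Prop :=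
  ∀ (J₀ : ℕ) (C : ℝ), ∀ al : ℝ, 0 < al → ∀ K₀ : ℝ, 0 < K₀ → ∀ S₀ : ℕ, 1 ≤ S₀ →
  ∃ (Tn₀ Kr : ℝ) (Nr : ℕ) (Ar Vr : ℕ → ℝ), 1 ≤ Kr ∧
  (∀ k < Nr, -Kr ≤ Vr k ∧ Vr k ≤ Ar k ∧ Ar k ≤ Kr) ∧
  ∀ Tn : ℝ, Tn₀ ≤ Tn → ∀ S₂ : ℕ, S₀ ≤ S₂ → ∀ dd : ℝ, 0 < dd →
  ∃ (lam : Λ) (kf₀ φ : ℝ), 0 < φ ∧ ∀ kf : ℝ, kf₀ ≤ kf →
  ∃ (K₁ : ℝ) (Nv : ℕ) (Vv : ℕ → ℝ), (∀ j < Nv, -K₁ ≤ Vv j ∧ Vv j ≤ K₁) ∧ ∀ K' : ℝ, K₁ ≤ K' →
  ∃ ε₀ : ℝ, 0 < ε₀ ∧ ∀ ε : ℝ, 0 < ε → ε ≤ ε₀ →
  ∀ (S : PCl (r + 2)) (g₀ : ℝ → ℝ) (P : List (Fin (r + 2)) × Fin (r + 2) → ℝ → ℝ → ℝ)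
    (θ : ℝ) (P₂ : ℕ → List (Fin (r + 2)) × Fin (r + 2) → ℝ → ℝ → ℝ) (θ₂ Eb e₂ : ℕ → ℝ)
    (c : ℕ → Fin (r + 2)) (Pt : ℝ → ℝ → ℝ) (rt : ℝ → ℝ) (L T : ℕ → ℝ → ℝ → ℝ) (G : Set ℝ)
    (g : ℝ), IsClosed G → g ∈ G → (∀ l < r + 2, HasDerivAt (fun x => L l x x) (Sl l) g) →
    Z lam S P θ c Pt rt L T κ G g →
    ∃ (p : ℕ → ι) (M : ℕ) (B₀ B₁ : ℕ → ℝ),
    (∀ j < M, B₀ j < B₁ j) ∧ ∀ k₀ : ℕ → ℕ, (∀ j < M, Q (p j) (k₀ j) S P θ c Pt rt L T κ G g) →
    ∃ q₁ : ℝ, 0 < q₁ ∧ ∀ (q t : ℝ) (x : ℕ → ℝ),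
      q < q₁ → (∀ j < M, x j ∈ G ∧ t + B₀ j * q ≤ x j ∧ x j ≤ t + B₁ j * q ∧
        Q (p j) (k₀ j) S P θ c Pt rt L T κ G (x j)) →
      ∀ (N : ℕ) (A V : ℕ → ℝ) (N' : ℕ) (V' : ℕ → ℝ),
      RecG S al g₀ P θ P₂ θ₂ Eb e₂ c Pt rt h K₀ g L T Sl κ G S₀ N A V S₂ N' V' K' ε q t →
      (∀ k < Nr, ∃ j < N, A j = Ar k ∧ V j = Vr k) → (∀ k < Nv, ∃ j < N', V' j = Vv k) →
      ∀ (pf : ℕ → ℝ) (Nf : ℕ → ℕ → ℝ),
      (∀ l < r, L l t t - φ * q ≤ pf l ∧ pf l ≤ L l t t) →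
      (∀ l < r, ∀ j ≤ 1, Nf l j = L l t t + kf * q - (j : ℕ) * t) →
      ∃ S' : PCl (r + 2), S'.Ne ∧
        (∀ (τ : ℝ) (J : ℕ) (F : Fam (r + 2) J) (A : F.Ω → Prop), S'.St τ J F A → S.St τ J F A) ∧
        ∃ e : ℝ, 0 < e ∧ ∀ j : ℕ, 1 ≤ j → j ≤ J₀ →
          F1 S' (fun J F => ptr F J) (vg t) (fun _ F => F.T)
            (qJets (r + 2) c 0 r 1 (fun _ _ => t) (fun l _ => pf l) Nf)
            (qJet (r + 2) ((range r).image c) (c r) j t (L r t t)
              (L r t t - j * t + C * q)) e (dd * q) ∧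
          F1 S' (fun J F => ptr F J) (vg t) (fun _ F => F.T)
            (qJets (r + 2) c 0 r 1 (fun _ _ => t) (fun l _ => pf l) Nf)
            (qJet (r + 2) ((range r).image c) (c r) j (t + -Tn * q)
              (L r (t + -Tn * q) (t + -Tn * q)) (L r t t - j * t + C * q)) e (dd * q) ∧
          F1 S' (fun J F => ptr F J) (vg t) (fun _ F => F.T)
            (qJets (r + 2) c 0 r 1 (fun _ _ => t) (fun l _ => pf l) Nf)
            (qJet (r + 2) ((range (r + 1)).image c) (c (r + 1)) j (t + -Tn * q)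
              (L (r + 1) (t + -Tn * q) (t + -Tn * q))
              (L (r + 1) t t - j * t + C * q)) e (dd * q)

/-- More digits at the end. -/
theorem stgn_exC {a b : ℝ} (ha : 1 < a) (hb : 0 < b) (hab : b < a) (K : ℕ) (C : ℝ) :
    ∃ (M : ℕ) (x τ : ℕ → ℝ), StgN a b K M x τ ∧ C + 1 ≤ (1 - x M) * τ M := by
  obtain ⟨M, x, τ, H⟩ := stgn_ex ha hb hab K
  obtain ⟨Λ, hΛ⟩ : ∃ Λ : ℝ, Λ = max 1 (C + 1) := ⟨_, rfl⟩
  have hΛ1 : 1 ≤ Λ := by rw [hΛ]; exact le_max_left _ _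
  have hΛC : C + 1 ≤ Λ := by rw [hΛ]; exact le_max_right _ _
  have hΛ0 : 0 < Λ := by linarith only [hΛ1]
  refine ⟨M, x, fun k => Λ * τ k, ⟨H.x0, H.xs, fun k hk => ?_, fun k hk => ?_, H.u1, H.n1,
    fun k hk i hi hx => ?_, fun k hk i hi hx => ?_, fun k hk i hi => ?_, fun k hk i hi => ?_, ?_⟩,
    ?_⟩
  · exact mul_le_mul_of_nonneg_left (H.τs k hk) hΛ0.le
  · obtain ⟨h1, h2, h3⟩ := H.pos k hk
    refine ⟨h1, ?_, ?_⟩
    · have := mul_le_mul hΛ1 h2 zero_le_one hΛ0.le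
      show 1 ≤ Λ * τ k
      linarith only [this]
    · have := mul_le_mul hΛ1 h3 zero_le_one hΛ0.le
      show 1 ≤ b / a * (Λ * τ k * x k)
      linarith only [this]
  · have h1 := mul_le_mul_of_nonneg_left (H.t1 k hk i hi hx) hΛ0.le
    show (i - x (k + 1)) * (Λ * τ (k + 1)) + 2 ≤ (i - x k) * (Λ * τ k)
    linarith only [h1, hΛ1]
  · have h1 := mul_le_mul_of_nonneg_left (H.t2 k hk i hi hx) hΛ0.le
    show (i - x (k + 1) * (b / a)) * (Λ * τ (k + 1)) + 2 ≤ (i - x k * (b / a)) * (Λ * τ k)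
    linarith only [h1, hΛ1]
  · have h1 := mul_le_mul_of_nonneg_left (H.t3 k hk i hi) hΛ0.le
    show (i - x (k + 1)) * (Λ * τ (k + 1)) + 2 ≤ 0
    linarith only [h1, hΛ1]
  · have h1 := mul_le_mul_of_nonneg_left (H.t4 k hk i hi) hΛ0.le
    show (i - x (k + 1) * (b / a)) * (Λ * τ (k + 1)) + 2 ≤ 0
    linarith only [h1, hΛ1]
  · have h1 := mul_le_mul_of_nonneg_left H.fin hΛ0.le
    have h2 : a + 1 ≤ Λ * (a + 1) := by
      have := mul_le_mul_of_nonneg_right hΛ1 (by linarith only [ha] : 0 ≤ a + 1)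
      linarith only [this]
    show a + 1 ≤ (1 - x M) * (Λ * τ M)
    linarith only [h1, h2]
  · have h1 := mul_le_mul_of_nonneg_left H.fin hΛ0.le
    have h2 : Λ ≤ Λ * (a + 1) := by
      have := mul_le_mul_of_nonneg_left (show (1 : ℝ) ≤ a + 1 by linarith only [ha]) hΛ0.le
      linarith only [this]
    show C + 1 ≤ (1 - x M) * (Λ * τ M)
    linarith only [h1, h2, hΛC]

/-- A larger degree. -/
theorem LabR.deg {r D D' : ℕ} (hD : D ≤ D') {S : PCl (r + 2)} {c : ℕ → Fin (r + 2)}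
    {L : ℕ → ℝ → ℝ → ℝ} {e₀ μ q t : ℝ} {N' : ℕ} {V' : ℕ → ℝ} (h : LabR r D S c L e₀ μ q t N' V') :
    LabR r D' S c L e₀ μ q t N' V' := by
  intro k hk
  obtain ⟨⟨E, h1, h2⟩, h3⟩ := h k hk
  refine ⟨⟨E, h1, ?_⟩, fun e he => (h3 e he).mono 0 ?_⟩
  · exact
      { w0 := h2.w0
        wu := h2.wu
        u1 := h2.u1
        E0 := h2.E0
        Eu0 := h2.Eu0
        pE := h2.pE
        pEu := h2.pEu
        rE := h2.rE
        rEu := h2.rEu
        pk0 := h2.pk0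
        pu0 := h2.pu0
        lb := fun e he => (h2.lb e he).mono 0 fun J _ F A => by
          rintro ⟨V, z, z', g, gu, a1, a2⟩
          exact ⟨V, z, z', g, gu, a1.mono (Finset.Subset.refl _) hD le_rfl le_rfl le_rfl,
            a2.mono (Finset.Subset.refl _) hD le_rfl le_rfl le_rfl⟩
        ful := h2.ful
        fI := h2.fI
        fI0 := h2.fI0 }
  · rintro J - F A ⟨V, z, z', g, a1⟩
    exact ⟨V, z, z', g, fun i h5 h6 =>
      (a1 i h5 h6).mono (Finset.Subset.refl _) hD le_rfl le_rfl le_rfl⟩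

/-- **Far-dead jets of both coordinates**, from the mutual information of the alive orders. -/
theorem fds_of_ip {r : ℕ} (hr : 1 ≤ r) {h : ℝ} (hh : 0 < h) (hh1 : h ≤ 1) {Sl : ℕ → ℝ}
    {κ : ℕ → Kg} (hκ : ∀ l < r, κ l = .one) (ha1 : 1 < Sl r) (hb : 0 < Sl (r + 1))
    (hab : Sl (r + 1) < Sl r) {ι : Type} {Q : PropG (r + 2) ι} (HI : IpY r h Sl κ Q) :
    FdS r h Sl κ
      (sumQ (sumQ (AltR : PropG (r + 2) AltUI) (CuQ : PropG (r + 2) Unit)) Q) (ZfR r Sl) := by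
  classical
  intro J₀ C al hal K₀ hK₀ S₀ hS₀
  obtain ⟨D₀, hD₀, HL⟩ := rec_lab r S₀ hS₀
  obtain ⟨D, hDE⟩ : ∃ D, D = max D₀ J₀ := ⟨_, rfl⟩
  have hDD : D₀ ≤ D := by rw [hDE]; exact le_max_left _ _
  have hDJ : J₀ ≤ D := by rw [hDE]; exact le_max_right _ _
  have hD1 : 1 ≤ D := hD₀.trans hDD
  obtain ⟨a, haE⟩ : ∃ a, a = Sl r := ⟨_, rfl⟩
  obtain ⟨b, hbE⟩ : ∃ b, b = Sl (r + 1) := ⟨_, rfl⟩
  rw [← haE] at ha1 hab
  rw [← hbE] at hb hab
  obtain ⟨M, x, τ, HS, hfC⟩ := stgn_exC ha1 hb hab (max D D * max 1 D) C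
  obtain ⟨Tn₀, Kr, Nr, Ar, Vr, hKr, hAV, HI⟩ := HI al hal K₀ hK₀ S₀ hS₀ D M x τ
    (by rw [← haE, ← hbE]; exact HS)
  rw [← haE, ← hbE] at HI
  have ha : 0 < a := hb.trans hab
  have hr0 : (0 : ℝ) ≤ r := Nat.cast_nonneg r
  have hlog : 0 < Real.log 2 := Real.log_pos (by norm_num)
  have hba : 0 < b / a := div_pos hb ha
  have hba1 : a * (b / a) = b := by field_simp
  -- the numbers of the stages
  have hxa : ∀ k ≤ M, x k ≤ a := by
    intro k
    induction k with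
    | zero => intro _; rw [HS.x0]
    | succ k ih => exact fun hk => (HS.xs k (by omega)).le.trans (ih (by omega))
  have hττ : ∀ k ≤ M, τ k ≤ τ 0 := by
    intro k
    induction k with
    | zero => exact fun _ => le_rfl
    | succ k ih => exact fun hk => (HS.τs k (by omega)).trans (ih (by omega))
  have hxlt : ∀ k < M, x (k + 1) < a := fun k hk => (HS.xs k hk).trans_le (hxa k hk.le)
  obtain ⟨Rk, hRk⟩ : ∃ Rk, Rk = stR a x τ := ⟨_, rfl⟩
  have hRk' : ∀ k, Rk k = (a - x (k + 1)) * τ (k + 1) / a := fun k => by rw [hRk]; rfl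
  have hRa : ∀ k, a * Rk k = (a - x (k + 1)) * τ (k + 1) := fun k => by
    rw [hRk', mul_div_cancel₀ _ ha.ne']
  have hRb : ∀ k, b * Rk k = (b - x (k + 1) * (b / a)) * τ (k + 1) := fun k => by
    rw [hRk']
    field_simp
  have hR0 : ∀ k < M, 0 < Rk k := fun k hk => by
    rw [hRk']
    have h1 := hxlt k hk
    have h2 := (HS.pos (k + 1) hk).2.1
    have h3 : 0 < (a - x (k + 1)) * τ (k + 1) := mul_pos (by linarith only [h1])
      (by linarith only [h2])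
    positivity
  have hτ0 : 1 ≤ τ 0 := (HS.pos 0 (Nat.zero_le M)).2.1
  have hRτ : ∀ k < M, Rk k ≤ τ 0 := fun k hk => by
    have h1 := (HS.pos (k + 1) hk)
    have h2 := hττ (k + 1) hk
    have h3 : a * Rk k ≤ a * τ 0 := by
      rw [hRa]
      have h4 : (a - x (k + 1)) * τ (k + 1) ≤ a * τ (k + 1) :=
        mul_le_mul_of_nonneg_right (by linarith only [h1.1]) (by linarith only [h1.2.1])
      exact h4.trans (mul_le_mul_of_nonneg_left h2 ha.le)
    exact le_of_mul_le_mul_left h3 ha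
  obtain ⟨K, hK⟩ : ∃ K, K = max D D * max 1 D := ⟨_, rfl⟩
  have hKn : (0 : ℝ) ≤ (max D D * max 1 D : ℕ) := Nat.cast_nonneg _
  obtain ⟨β, hβ⟩ : ∃ β : ℝ, β = (⌊b⌋₊ : ℝ) + 1 - b := ⟨_, rfl⟩
  have hβ0 : 0 < β := by
    have := Nat.lt_floor_add_one b
    rw [hβ]
    linarith only [this]
  -- the early window
  obtain ⟨T₁, hT₁⟩ : ∃ T₁, T₁ = (((max D D * max 1 D : ℕ) + 2) * τ 0 + 2) / (a - b) := ⟨_, rfl⟩
  obtain ⟨T₂, hT₂⟩ : ∃ T₂, T₂ = (((max D D * max 1 D : ℕ) : ℝ) + 2) * τ 0 / β := ⟨_, rfl⟩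
  refine ⟨max Tn₀ (τ 0 + T₁ + T₂ + pzD (τ 0) b), Kr, Nr, Ar, Vr, hKr, hAV,
    fun Tn hTnE S₂ hS₂ dd hdd => ?_⟩
  have hT10 : 0 ≤ T₁ := by
    rw [hT₁]
    have h1 : 0 < a - b := by linarith only [hab]
    have h2 : 0 ≤ τ 0 := by linarith only [hτ0]
    positivity
  have hT20 : 0 ≤ T₂ := by
    rw [hT₂]
    have h2 : 0 ≤ τ 0 := by linarith only [hτ0]
    positivity
  have hpz0 : 0 ≤ pzD (τ 0) b := by
    unfold pzD
    rw [← hβ]
    have h2 : 0 ≤ τ 0 := by linarith only [hτ0]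
    positivity
  have hTn0 : Tn₀ ≤ Tn := (le_max_left _ _).trans hTnE
  have hTnb : τ 0 + T₁ + T₂ + pzD (τ 0) b ≤ Tn := (le_max_right _ _).trans hTnE
  have hTτ : τ 0 ≤ Tn := by linarith only [hTnb, hT10, hT20, hpz0]
  have hTnpos : 0 < Tn := by linarith only [hTτ, hτ0]
  have hTa : ∀ k < M, (((max D D * max 1 D : ℕ) : ℝ) + 2) * τ (k + 1) + 2 ≤ (a - b) * Tn := by
    intro k hk
    have h1 : (((max D D * max 1 D : ℕ) : ℝ) + 2) * τ (k + 1) ≤
        (((max D D * max 1 D : ℕ) : ℝ) + 2) * τ 0 :=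
      mul_le_mul_of_nonneg_left (hττ (k + 1) hk) (by linarith only [hKn])
    have h2 : (a - b) * T₁ = (((max D D * max 1 D : ℕ) : ℝ) + 2) * τ 0 + 2 := by
      rw [hT₁, mul_div_cancel₀ _ (by linarith only [hab] : a - b ≠ 0)]
    have h3 : (a - b) * T₁ ≤ (a - b) * Tn :=
      mul_le_mul_of_nonneg_left (by linarith only [hTnb, hT20, hpz0, hτ0]) (by linarith only [hab])
    linarith only [h1, h2, h3]
  have hTb : ∀ k < M, ∀ j : ℕ, j ≤ max D D * max 1 D + 2 → b < j →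
      (j - x (k + 1) * (b / a)) * τ (k + 1) ≤ (j - b) * Tn := by
    intro k hk j hj hbj
    have h1 : (j : ℝ) ≤ ((max D D * max 1 D : ℕ) : ℝ) + 2 := by exact_mod_cast hj
    have h2 := HS.pos (k + 1) hk
    have h3 : 0 < x (k + 1) * (b / a) := mul_pos h2.1 hba
    have h4 : (j - x (k + 1) * (b / a)) * τ (k + 1) ≤
        (((max D D * max 1 D : ℕ) : ℝ) + 2) * τ (k + 1) :=
      mul_le_mul_of_nonneg_right (by linarith only [h1, h3]) (by linarith only [h2.2.1])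
    have h5 : (((max D D * max 1 D : ℕ) : ℝ) + 2) * τ (k + 1) ≤
        (((max D D * max 1 D : ℕ) : ℝ) + 2) * τ 0 :=
      mul_le_mul_of_nonneg_left (hττ (k + 1) hk) (by linarith only [hKn])
    have h6 : β * T₂ = (((max D D * max 1 D : ℕ) : ℝ) + 2) * τ 0 := by
      rw [hT₂, mul_div_cancel₀ _ hβ0.ne']
    have h7 : (⌊b⌋₊ : ℝ) + 1 ≤ j := by
      have : ⌊b⌋₊ < j := (Nat.floor_lt hb.le).2 hbj
      exact_mod_cast this
    have h8 : β * T₂ ≤ (j - b) * Tn :=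
      mul_le_mul (by rw [hβ]; linarith only [h7]) (by linarith only [hTnb, hT10, hpz0, hτ0]) hT20
        (by linarith only [hbj])
    linarith only [h4, h5, h6, h8]
  have hTp : ∀ k < M, pzD (Rk k) b + τ (k + 1) ≤ Tn := by
    intro k hk
    have h1 : pzD (Rk k) b ≤ pzD (τ 0) b := by
      unfold pzD
      refine div_le_div_of_nonneg_right ?_ (by rw [← hβ]; exact hβ0.le)
      have := mul_le_mul_of_nonneg_right (hRτ k hk) hb.le
      linarith only [this]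
    linarith only [h1, hττ (k + 1) hk, hTnb, hT10, hT20]
  -- the stages
  have H := fun (k : ℕ) (hk : k < M) (η' : ℝ) (hη' : 0 < η') =>
    stage_rec (r := r) (D := D) hr (a := a) (b := b) (x := x k) (x' := x (k + 1))
      (y := x k * (b / a)) (y' := x (k + 1) * (b / a)) (τ := τ k) (τ' := τ (k + 1)) (R := Rk k)
      (Tn := Tn) (h := h) (η' := η') ha1 hb hab (HS.pos (k + 1) hk).1 (HS.xs k hk) (hxa k hk.le)
      (mul_pos (HS.pos (k + 1) hk).1 hba) (mul_lt_mul_of_pos_right (HS.xs k hk) hba)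
      (by
        have h1 := mul_le_mul_of_nonneg_right (hxa k hk.le) hba.le
        rw [hba1] at h1
        exact h1) (hR0 k hk) (hRa k) (hRb k) (HS.pos (k + 1) hk).2.1
      (by
        have h1 := HS.pos (k + 1) hk
        have h2 : b / a ≤ 1 := (div_le_one ha).2 hab.le
        have h3 : 0 ≤ τ (k + 1) * x (k + 1) := mul_nonneg (by linarith only [h1.2.1]) h1.1.le
        have h4 := mul_le_mul_of_nonneg_right h2 h3
        linarith only [h1.2.2, h4])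
      (by
        have h1 := (HS.pos (k + 1) hk).2.2
        linarith only [h1])
      (HS.u1 k hk) (HS.n1 k hk) (HS.t1 k hk) (HS.t2 k hk) (HS.t3 k hk) (HS.t4 k hk)
      ((hττ (k + 1) hk).trans hTτ) (hTa k hk) (hTb k hk) (hTp k hk) hh hh1 hη'
  choose! δf hδf N₀f hN₀f HP using H
  obtain ⟨η, hηM, hη0, hηs⟩ := back_rec M (dd / 2) (half_pos hdd) Rk hR0
    (fun k y => δf k (y / 2)) (fun k hk y hy => hδf k hk (y / 2) (half_pos hy))
  obtain ⟨δ, hδE⟩ : ∃ δ : ℕ → ℝ, δ = fun k => δf k (η (k + 1) / 2) := ⟨_, rfl⟩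
  obtain ⟨N₀, hN₀E⟩ : ∃ N₀ : ℕ → ℕ, N₀ = fun k => N₀f k (η (k + 1) / 2) := ⟨_, rfl⟩
  have hδk : ∀ k, δ k = δf k (η (k + 1) / 2) := fun k => by rw [hδE]
  have hN₀k : ∀ k, N₀ k = N₀f k (η (k + 1) / 2) := fun k => by rw [hN₀E]
  have hδ0 : ∀ k < M, 0 < δ k := fun k hk => by
    rw [hδk]
    exact hδf k hk _ (half_pos (hη0 (k + 1) hk))
  have hηk : ∀ k < M, η k = δ k * Rk k / 2 := fun k hk => by
    rw [hηs k hk, hδk]
  obtain ⟨X₀, HI⟩ := HI Tn hTn0 S₂ hS₂ δ N₀ (fun k hk => ⟨hδ0 k hk, by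
    rw [hN₀k]
    exact hN₀f k hk _ (half_pos (hη0 (k + 1) hk))⟩)
  -- the digits
  obtain ⟨X, hXE⟩ : ∃ X, X = max X₀ (2 * ((a + b + (max D D * max 1 D : ℕ) + 8) * Tn) + 8 +
    (a + Tn + 2) + |C|) := ⟨_, rfl⟩
  have hX0 : X₀ ≤ X := by rw [hXE]; exact le_max_left _ _
  have hXb' : 2 * ((a + b + (max D D * max 1 D : ℕ) + 8) * Tn) + 8 + (a + Tn + 2) + |C| ≤ X := by
    rw [hXE]; exact le_max_right _ _
  have hXb : 2 * ((a + b + (max D D * max 1 D : ℕ) + 8) * Tn) + 8 + (a + Tn + 2) ≤ X := by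
    linarith only [hXb', abs_nonneg C]
  have hKT0 : 0 < 2 * ((a + b + (max D D * max 1 D : ℕ) + 8) * Tn) := by
    have : 0 < (a + b + (max D D * max 1 D : ℕ) + 8) * Tn :=
      mul_pos (by linarith only [ha, hb, hKn]) hTnpos
    linarith only [this]
  have hX1 : 2 * ((a + b + (max D D * max 1 D : ℕ) + 8) * Tn) + 8 ≤ X := by
    linarith only [hXb, ha, hTnpos]
  have hX2 : a + Tn + 2 ≤ X := by linarith only [hXb, hKT0]
  have hXpos : 0 < X := by linarith only [hX2, ha, hTnpos]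
  have h3X : 0 < 3 ^ r * X := by positivity
  obtain ⟨φ₀, hφ₀, HI⟩ := HI X hX0
  obtain ⟨φ, hφE⟩ : ∃ φ, φ = min (min φ₀ (1 / (2 * (M + 1)))) (min (1 / 8)
    (X / (32 * (r + 1)))) := ⟨_, rfl⟩
  have hφ0 : 0 < φ := by rw [hφE]; positivity
  have hφ1 : φ ≤ φ₀ := by rw [hφE]; exact (min_le_left _ _).trans (min_le_left _ _)
  have hφ8 : φ ≤ 1 / 8 := by rw [hφE]; exact (min_le_right _ _).trans (min_le_left _ _)
  have hφX : 32 * ((r : ℝ) + 1) * φ ≤ X := by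
    have h1 : φ ≤ X / (32 * (r + 1)) := by
      rw [hφE]
      exact (min_le_right _ _).trans (min_le_right _ _)
    rw [le_div_iff₀ (by positivity)] at h1
    linarith only [h1]
  have hφM : ((M : ℝ) + 1) * φ ≤ 1 / 2 := by
    have h1 : φ ≤ 1 / (2 * (M + 1)) := by
      rw [hφE]
      exact (min_le_left _ _).trans (min_le_right _ _)
    rw [le_div_iff₀ (by positivity)] at h1
    linarith only [h1]
  -- the slack
  obtain ⟨γ₁, hγ₁, hg1⟩ := pos_lb (Finset.range M) (fun k => δ k * Rk k) (fun k hk =>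
    mul_pos (hδ0 k (Finset.mem_range.1 hk)) (hR0 k (Finset.mem_range.1 hk)))
  obtain ⟨γ₂, hγ₂, hg2⟩ := pos_lb (Finset.range M) δ (fun k hk => hδ0 k (Finset.mem_range.1 hk))
  have hblog : 0 < b * Real.log 2 := mul_pos hb hlog
  obtain ⟨δs, hδsE⟩ : ∃ δs, δs = min (γ₂ / 8) (b * Real.log 2 / 2) := ⟨_, rfl⟩
  have hδs : 0 < δs := by rw [hδsE]; positivity
  have hδs1 : δs ≤ γ₂ / 8 := by rw [hδsE]; exact min_le_left _ _
  have hδs2 : δs ≤ b * Real.log 2 / 2 := by rw [hδsE]; exact min_le_right _ _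
  refine ⟨(⟨δs, hδs⟩, max D D * max 1 D), 3 ^ r * X + b * Tn + 2 * (r + 1) + 1 + a, φ, hφ0,
    fun kf hkfb => ?_⟩
  have hbTn : 0 < b * Tn := mul_pos hb hTnpos
  have haTn : 0 < a * Tn := mul_pos ha hTnpos
  have hrφ : 2 * ((r : ℝ) + 1) * φ ≤ 2 * (r + 1) := by
    have := mul_le_mul_of_nonneg_left hφ8 (show (0 : ℝ) ≤ 2 * (r + 1) by positivity)
    linarith only [this, hr0]
  obtain ⟨ℓ₀, HI⟩ := HI φ hφ0 hφ1
  obtain ⟨ℓ, hℓE⟩ : ∃ ℓ, ℓ = max ℓ₀ (kf + Tn + 3 ^ r * X + a * Tn + 1) := ⟨_, rfl⟩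
  have hℓ0 : ℓ₀ ≤ ℓ := by rw [hℓE]; exact le_max_left _ _
  have hℓb : kf + Tn + 3 ^ r * X + a * Tn + 1 ≤ ℓ := by rw [hℓE]; exact le_max_right _ _
  obtain ⟨e₁, he₁, HI⟩ := HI ℓ hℓ0
  -- the accuracy
  obtain ⟨γ₃, hγ₃, hg3⟩ := pos_lb (Finset.range (M + 1)) (fun k => η k / 2) (fun k hk =>
    half_pos (hη0 k (by have := Finset.mem_range.1 hk; omega)))
  have g1 : ∀ k < M, γ₁ ≤ δ k * Rk k := fun k hk => hg1 k (Finset.mem_range.2 hk)
  have g2 : ∀ k < M, γ₂ ≤ δ k := fun k hk => hg2 k (Finset.mem_range.2 hk)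
  have g3' : ∀ k ≤ M, γ₃ ≤ η k / 2 := fun k hk => hg3 k (Finset.mem_range.2 (by omega))
  have g3 : ∀ k ≤ M, γ₃ ≤ η k := fun k hk => (g3' k hk).trans (by
    have := hη0 k hk
    linarith only [this])
  obtain ⟨e', he'E⟩ : ∃ e', e' = min (min e₁ (min (φ / 16) (1 / 64)))
    (min (min (γ₁ / (4 * (8 * r + 49))) (γ₁ / (256 * ((r + 1) * ((max D D * max 1 D : ℕ) + 3)))))
      (min (γ₃ / (256 * ((r + 1) * ((max D D * max 1 D : ℕ) + 3)))) (γ₃ / 16))) := ⟨_, rfl⟩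
  have he' : 0 < e' := by rw [he'E]; positivity
  have hea : e' ≤ e₁ := by rw [he'E]; exact (min_le_left _ _).trans (min_le_left _ _)
  have heb : e' ≤ φ / 16 := by
    rw [he'E]
    exact (min_le_left _ _).trans ((min_le_right _ _).trans (min_le_left _ _))
  have hec : e' ≤ 1 / 64 := by
    rw [he'E]
    exact (min_le_left _ _).trans ((min_le_right _ _).trans (min_le_right _ _))
  have hed : e' ≤ γ₁ / (4 * (8 * r + 49)) := by
    rw [he'E]
    exact (min_le_right _ _).trans ((min_le_left _ _).trans (min_le_left _ _))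
  have hee : e' ≤ γ₁ / (256 * ((r + 1) * ((max D D * max 1 D : ℕ) + 3))) := by
    rw [he'E]
    exact (min_le_right _ _).trans ((min_le_left _ _).trans (min_le_right _ _))
  have hef : e' ≤ γ₃ / (256 * ((r + 1) * ((max D D * max 1 D : ℕ) + 3))) := by
    rw [he'E]
    exact (min_le_right _ _).trans ((min_le_right _ _).trans (min_le_left _ _))
  have heg : e' ≤ γ₃ / 16 := by
    rw [he'E]
    exact (min_le_right _ _).trans ((min_le_right _ _).trans (min_le_right _ _))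
  obtain ⟨K₁, Nv, Vv, hVv, HI⟩ := HI e' he' hea
  -- the slack
  have hKT : 0 < 2 * (K₀ + Tn) := by linarith only [hK₀, hTnpos]
  obtain ⟨el, hel0, hel⟩ := exists_rat_btwn (show 0 < min (min (γ₂ / 8) (b * Real.log 2 / 2))
    (γ₁ / 4 / (2 * (K₀ + Tn))) by positivity)
  have hel1 := hel.le.trans ((min_le_left _ _).trans (min_le_left _ _))
  have hel2 := hel.le.trans ((min_le_left _ _).trans (min_le_right _ _))
  have hel3 : (el : ℝ) * (2 * (K₀ + Tn)) ≤ γ₁ / 4 := by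
    have := hel.le.trans (min_le_right _ _)
    rwa [le_div_iff₀ hKT] at this
  have helq : (0 : ℚ) < el := by exact_mod_cast hel0
  -- the windows
  obtain ⟨ms, hmsE⟩ : ∃ ms, ms = e' / (32 * a) := ⟨_, rfl⟩
  have hms0 : 0 < ms := by rw [hmsE]; positivity
  have hams : a * ms ≤ e' / 32 := by
    rw [hmsE]
    refine le_of_eq ?_
    field_simp
  have Gr := fun (k : ℕ) (hk : k < M) => grid_ex (τ := τ (k + 1)) (D := Tn - τ (k + 1)) (ms := ms)
    (by linarith only [(HS.pos (k + 1) hk).2.1]) (by linarith only [hττ (k + 1) hk, hTτ]) hms0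
  choose! Mg W w0 w1 w2 w3 w4 w5 w6 using Gr
  obtain ⟨s, hs⟩ : ∃ s : Finset ℝ, s = (Finset.range M).biUnion (fun k =>
    (Finset.range (2 * Mg k + 3)).image (W k) ∪
      (Finset.range (r + 1)).image (fun i => jfV r (-τ (k + 1)) X i)) ∪
    ((Finset.range (r + 1)).image (fun i => jfV r (-Tn) X i) ∪
      ((Finset.range Nv).image Vv ∪ {-(K₀ + 1), -τ 0, 0})) := ⟨_, rfl⟩
  have s1 : ∀ k < M, ∀ i ≤ 2 * Mg k + 1 + 1, W k i ∈ s := fun k hk i hi => by
    rw [hs]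
    refine Finset.mem_union_left _ (Finset.mem_biUnion.2 ⟨k, Finset.mem_range.2 hk,
      Finset.mem_union_left _ (Finset.mem_image_of_mem _ (Finset.mem_range.2 (by omega)))⟩)
  have s2 : ∀ k < M, ∀ i ≤ r, jfV r (-τ (k + 1)) X i ∈ s := fun k hk i hi => by
    rw [hs]
    refine Finset.mem_union_left _ (Finset.mem_biUnion.2 ⟨k, Finset.mem_range.2 hk,
      Finset.mem_union_right _ (Finset.mem_image.2 ⟨i, Finset.mem_range.2 (by omega), rfl⟩)⟩)
  have s3 : ∀ i ≤ r, jfV r (-Tn) X i ∈ s := fun i hi => by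
    rw [hs]
    exact Finset.mem_union_right _ (Finset.mem_union_left _
      (Finset.mem_image.2 ⟨i, Finset.mem_range.2 (by omega), rfl⟩))
  have s4 : ∀ i < Nv, Vv i ∈ s := fun i hi => by
    rw [hs]
    exact Finset.mem_union_right _ (Finset.mem_union_right _ (Finset.mem_union_left _
      (Finset.mem_image_of_mem _ (Finset.mem_range.2 hi))))
  have s5 : -(K₀ + 1) ∈ s ∧ -τ 0 ∈ s ∧ (0 : ℝ) ∈ s := by
    rw [hs]
    refine ⟨?_, ?_, ?_⟩ <;> refine Finset.mem_union_right _ (Finset.mem_union_right _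
      (Finset.mem_union_right _ ?_)) <;> simp
  obtain ⟨n, V₂, Kw, hKw0, v1, v2, v3⟩ := fin_win s
  have e3 : 2 * (a + b) * Tn = 2 * (a * Tn) + 2 * (b * Tn) := by ring
  obtain ⟨K₂, hK₂⟩ : ∃ K₂, K₂ = Kw + ℓ + Tn + 3 ^ r * X + 2 * (a + b) * Tn + K₀ + 4 := ⟨_, rfl⟩
  have hℓpos : 0 < ℓ := by
    have h1 := hkfb
    linarith only [hℓb, h1, h3X, hbTn, haTn, ha, hr0, hTnpos]
  refine ⟨max K₁ K₂, n, V₂, fun j hj => ?_, fun K' hK' => ?_⟩
  · have h1 := abs_le.1 (v3 _ (v1 j hj))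
    have h2 : Kw ≤ max K₁ K₂ := by
      refine le_trans ?_ (le_max_right _ _)
      linarith only [hK₂, hℓpos, hTnpos, h3X, e3, haTn, hbTn, hK₀]
    exact ⟨by linarith only [h1.1, h2], by linarith only [h1.2, h2]⟩
  have hKK : K₂ ≤ K' := (le_max_right _ _).trans hK'
  have hK'0 : 0 < K' := by
    linarith only [hKK, hK₂, hℓpos, hTnpos, h3X, e3, haTn, hbTn, hK₀, hKw0]
  obtain ⟨ε₀, hε₀, HI⟩ := HI K' ((le_max_left _ _).trans hK')
  refine ⟨min ε₀ (min (φ / 2) (e' / 128)), by positivity, fun ε hε hεε S g₀ P θ P₂ θ₂ Eb e₂ c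
    Pt rt L T G g hG hg hder hZ => ?_⟩
  have hεφ : 2 * ε ≤ φ := by
    have := hεε.trans ((min_le_right _ _).trans (min_le_left _ _))
    linarith only [this]
  have hεe : 128 * ε ≤ e' := by
    have := hεε.trans ((min_le_right _ _).trans (min_le_right _ _))
    linarith only [this]
  obtain ⟨p, Mq, B₀, B₁, hB, HI⟩ := HI ε hε (hεε.trans (min_le_left _ _)) S g₀ P θ P₂ θ₂ Eb e₂ c
    Pt rt L T G g hG hg hder
  obtain ⟨p', hp'⟩ : ∃ p' : ℕ → (AltUI ⊕ Unit) ⊕ ι, p' = fun j => if j = 0 then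
    Sum.inl (Sum.inl ((range r, max D D * max 1 D), el)) else if j = 1 then
    Sum.inl (Sum.inr ()) else Sum.inr (p (j - 2)) := ⟨_, rfl⟩
  obtain ⟨B₀', hB₀'⟩ : ∃ B₀' : ℕ → ℝ, B₀' = fun j => if j < 2 then 0 else B₀ (j - 2) := ⟨_, rfl⟩
  obtain ⟨B₁', hB₁'⟩ : ∃ B₁' : ℕ → ℝ, B₁' = fun j => if j < 2 then 1 else B₁ (j - 2) := ⟨_, rfl⟩
  have f0 : p' 0 = Sum.inl (Sum.inl ((range r, max D D * max 1 D), el)) := by rw [hp']; rfl
  have f1 : p' 1 = Sum.inl (Sum.inr ()) := by rw [hp']; rfl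
  have f2 : ∀ j, p' (j + 2) = Sum.inr (p j) ∧ B₀' (j + 2) = B₀ j ∧ B₁' (j + 2) = B₁ j :=
    fun j => by
      rw [hp', hB₀', hB₁']
      refine ⟨?_, ?_, ?_⟩
      · show (if j + 2 = 0 then _ else if j + 2 = 1 then _ else Sum.inr (p (j + 2 - 2))) = _
        rw [if_neg (by omega), if_neg (by omega), Nat.add_sub_cancel]
      · show (if j + 2 < 2 then _ else B₀ (j + 2 - 2)) = _
        rw [if_neg (by omega), Nat.add_sub_cancel]
      · show (if j + 2 < 2 then _ else B₁ (j + 2 - 2)) = _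
        rw [if_neg (by omega), Nat.add_sub_cancel]
  have f3 : ∀ j < 2, B₀' j = 0 ∧ B₁' j = 1 := fun j hj => by
    rw [hB₀', hB₁']
    exact ⟨if_pos hj, if_pos hj⟩
  refine ⟨p', Mq + 2, B₀', B₁', fun j hj => ?_, fun k₀ hk₀ => ?_⟩
  · rcases Nat.lt_or_ge j 2 with h1 | h1
    · rw [(f3 j h1).1, (f3 j h1).2]
      norm_num
    · obtain ⟨i, rfl⟩ : ∃ i, j = i + 2 := ⟨j - 2, by omega⟩
      rw [(f2 i).2.1, (f2 i).2.2]
      exact hB i (by omega)
  have hA : AltR ((range r, max D D * max 1 D), el) (k₀ 0) S P θ c Pt rt L T κ G g := by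
    have h1 := hk₀ 0 (by omega)
    rw [f0] at h1
    exact h1
  have hC : CuQ () (k₀ 1) S P θ c Pt rt L T κ G g := by
    have h1 := hk₀ 1 (by omega)
    rw [f1] at h1
    exact h1
  obtain ⟨q₁, hq₁, HI⟩ := HI (fun j => k₀ (j + 2)) fun j hj => by
    have h1 := hk₀ (j + 2) (by omega)
    rw [(f2 j).1] at h1
    exact h1
  obtain ⟨e₀, ρ₀, π₀, a1, a2, a3, a4⟩ := alt_ful helq hA hg (β := Sl (r + 1) * Real.log 2)
    (δ := δs) (D := max D D * max 1 D) le_rfl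
    (fun i i1 i2 i3 i4 i5 i6 i7 i8 φ e k₀ he hrt =>
      hZ i ⟨i1, i2, i3, i4, i5, i6, i7⟩ i8 φ e k₀ he hrt)
  obtain ⟨μ, hμE⟩ : ∃ μ : ℝ, μ = (1 / 2) ^ (k₀ 0) := ⟨_, rfl⟩
  have hμ : 0 < μ := by rw [hμE]; positivity
  rw [← hμE] at a2 a3
  have hKK' : 0 < K₀ + K' := by linarith only [hK₀, hK'0]
  have hlin : 0 < a * Tn + b * Tn + 4 := by linarith only [haTn, hbTn]
  refine ⟨min q₁ (min (μ / (K₀ + K')) (min (μ / 4 / (a * Tn + b * Tn + 4))
    (μ / (K₀ + Tn)))), by positivity, fun q t y hq hy N A V N' V' R hp hv pf Nf hpf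
    hNf => ?_⟩
  have hq0 := R.q0
  have hq1 : (K₀ + K') * q ≤ μ := by
    have h1 := hq.le.trans ((min_le_right _ _).trans (min_le_left _ _))
    rw [le_div_iff₀ hKK'] at h1
    linarith only [h1]
  have hq2 : (a * Tn + b * Tn + 4) * q ≤ μ / 4 := by
    have h1 := hq.le.trans ((min_le_right _ _).trans ((min_le_right _ _).trans (min_le_left _ _)))
    rw [le_div_iff₀ hlin] at h1
    linarith only [h1]
  have hq3 : (K₀ + Tn) * q ≤ (1 / 2) ^ (k₀ 0) := by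
    rw [← hμE]
    have h1 := hq.le.trans ((min_le_right _ _).trans ((min_le_right _ _).trans (min_le_right _ _)))
    rw [le_div_iff₀ (by linarith only [hK₀, hTnpos])] at h1
    linarith only [h1]
  have hnear : ∀ x : ℝ, |x| ≤ K' → |t + x * q - g| ≤ μ := fun x hx => by
    have h1 := abs_le.1 R.near
    have h2 := abs_le.1 hx
    have h3 := mul_le_mul_of_nonneg_right h2.1 hq0.le
    have h4 := mul_le_mul_of_nonneg_right h2.2 hq0.le
    rw [abs_le]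
    exact ⟨by linarith only [h1.1, h3, hq1], by linarith only [h1.2, h4, hq1]⟩
  have R₀ := R.wins hv
  have hVK : ∀ k < n, |V₂ k| ≤ K' := fun k hk => (v3 _ (v1 k hk)).trans (by
    linarith only [hKK, hK₂, hℓpos, hTnpos, h3X, e3, haTn, hbTn, hK₀])
  obtain ⟨S₁, hne₁, hs₁, R₁, hlab₀⟩ := HL R₀ hK'0 hVK hC (e₀ := e₀) (ρ₀ := ρ₀) (π₀ := π₀) hμ
    (fun k hk => a3 _ (R₀.memG.2 k hk) (hnear _ (hVK k hk)))
  have hlab : LabR r D S₁ c L e₀ μ q t n V₂ := LabR.deg hDD hlab₀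
  have HI' := HI q t (fun j => y (j + 2)) (hq.trans_le (min_le_left _ _)) (fun j hj => by
    have h1 := hy (j + 2) (by omega)
    rw [(f2 j).1, (f2 j).2.1, (f2 j).2.2] at h1
    exact h1) N A V n V₂ R₀ hp (fun k hk => v2 _ (s4 k hk)) pf hpf
  have hin : ∀ w ∈ s, ∃ j < n, V₂ j = w := v2
  have hinG : ∀ w ∈ s, t + w * q ∈ G := fun w hw => by
    obtain ⟨j, hj, e⟩ := hin w hw
    rw [← e]
    exact R₀.memG.2 j hj
  have htG : t ∈ G := by
    have h1 := hinG 0 s5.2.2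
    rwa [zero_mul, add_zero] at h1
  have hpf' : ∀ l < r, L l t t - φ * q ≤ pf l := fun l hl => (hpf l hl).1
  have hch : ∀ S' : PCl (r + 2), (∀ (τ : ℝ) (J : ℕ) (F : Fam (r + 2) J) (A : F.Ω → Prop),
      S'.St τ J F A → S.St τ J F A) → ChG S' c (r + 1) (fun l x => L l x x) G := fun S' hs' =>
    Pool.LA91.ChG.mk fun w hw => by
      obtain ⟨rd, h1, h2⟩ := hC w hw
      exact ⟨_, rd, h1, h2.sub hs'⟩
  have n1 : 3 ^ r * X ≤ kf := by linarith only [hkfb, hbTn, hr0, ha]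
  have n2 : b * Tn + 2 * (r + 1) * φ + 1 ≤ kf := by linarith only [hkfb, hrφ, h3X, ha]
  have hkf0' : 0 < kf := by linarith only [n1, h3X]
  have n3 : kf + Tn ≤ ℓ := by linarith only [hℓb, h3X, haTn]
  have n4 : 3 ^ r * X + Tn + 1 ≤ ℓ := by linarith only [hℓb, hkf0', haTn]
  have n5 : a * Tn + Tn + 1 ≤ ℓ := by linarith only [hℓb, hkf0', h3X]
  have n6 : ℓ + 1 ≤ K' := by
    linarith only [hKK, hK₂, hTnpos, h3X, e3, haTn, hbTn, hK₀, hKw0]
  have n7 : Tn + 3 ^ r * X + 2 ≤ K' := by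
    linarith only [hKK, hK₂, hℓpos, e3, haTn, hbTn, hK₀, hKw0]
  have n8 : 2 * (a + b) * Tn + Tn + 2 ≤ K' := by
    linarith only [hKK, hK₂, hℓpos, h3X, hK₀, hKw0]
  have n9 : Tn + K₀ + 1 ≤ K' := by
    linarith only [hKK, hK₂, hℓpos, h3X, e3, haTn, hbTn, hKw0]
  have hτp : ∀ k ≤ M, 0 < τ k := fun k hk => by linarith only [(HS.pos k hk).2.1]
  have hτT : ∀ k ≤ M, τ k ≤ Tn := fun k hk => (hττ k hk).trans hTτ
  have hTK : Tn ≤ K' := by linarith only [n9, hK₀]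
  have hkf1 : 3 ^ r * X + 1 ≤ kf := by linarith only [hkfb, hbTn, hr0, ha]
  have hε1 : ε ≤ 1 := by linarith only [hεφ, hφ8]
  obtain ⟨Nk, hNk⟩ : ∃ Nk : ℕ → ℕ → ℕ → ℝ, Nk = fun k => if k < M then NfS r L X φ q t τ k else
    Nf := ⟨_, rfl⟩
  have Nk1 : ∀ k < M, Nk k = NfS r L X φ q t τ k := fun k hk => by
    rw [hNk]
    exact if_pos hk
  have Nk2 : Nk M = Nf := by
    rw [hNk]
    exact if_neg (lt_irrefl M)
  obtain ⟨kP, kL⟩ := kf_nfP R₀ (show r < r + 2 by omega) hκ hε hεφ hTK hTnpos hXpos hε1 hkf1 hNf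
  have NkP : ∀ k ≤ M, NfP r L X q t Tn (Nk k) := fun k hk => by
    rcases Nat.lt_or_ge k M with h1 | h1
    · rw [Nk1 k h1]
      exact (nfs_nfP R₀ (by omega) hκ hε hεφ hφM hTK (hτp (k + 1) h1) (hτT (k + 1) h1)).2
    · obtain rfl : k = M := by omega
      rw [Nk2]
      exact kP
  have NkS : ∀ k < M, (∀ l < r, ∀ j ≤ 1, Nk k l j ≤ Nk (k + 1) l j) ∧
      ∀ l < r, ∀ j ≤ 1, L l t t + (aX r X l - Tn - 1) * q ≤ Nk (k + 1) l j + (j : ℕ) * t := by
    intro k hk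
    rw [Nk1 k hk]
    rcases Nat.lt_or_ge (k + 1) M with h1 | h1
    · rw [Nk1 (k + 1) h1]
      exact ⟨nfs_mono R₀ (by omega) hκ hε hεφ hφM hTK (hτp (k + 1 + 1) h1) (HS.τs (k + 1) h1)
        (hτT (k + 1) hk), nfs_lo R₀ (by omega) hκ hε hεφ hφM hTK h1 (hτp (k + 1 + 1) h1)
        (hτT (k + 1 + 1) h1)⟩
    · have h2 : k + 1 = M := by omega
      rw [h2, Nk2]
      exact ⟨nfs_kf R₀ (by omega) hκ hε hεφ hφM hTK hk (hτp (k + 1) hk) (hτT (k + 1) hk) hXpos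
        hkf1 hNf, kL⟩
  have NkH : ∀ k < M, ∀ l < r, ∀ j ≤ 1, Nk k l j + (j : ℕ) * t ≤ L l t t +
      (aX r X l + 1) * q := fun k hk => by
    rw [Nk1 k hk]
    exact nfs_hi R₀ (by omega) hκ hε hεφ hφM hTK hk (hτp (k + 1) hk) (hτT (k + 1) hk)
  -- the states
  have key : ∀ k ≤ M, ∃ S' : PCl (r + 2), S'.Ne ∧
      (∀ (τ : ℝ) (J : ℕ) (F : Fam (r + 2) J) (A : F.Ω → Prop), S'.St τ J F A → S.St τ J F A) ∧
      RecG S' al g₀ P θ P₂ θ₂ Eb e₂ c Pt rt h K₀ g L T Sl κ G S₀ N A V S₂ n V₂ K' ε q t ∧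
      LabR r D S' c L e₀ μ q t n V₂ ∧
      StU S' c r (max D D * max 1 D) L q t pf (Nk k) (e' * q) (x k) (τ k) (η k) ∧
      StN S' c r (max D D * max 1 D) L q t Tn pf (Nk k) (e' * q) (x k * (b / a)) (τ k) (η k) := by
    intro k
    induction k with
    | zero =>
      intro _
      refine ⟨S₁, hne₁, hs₁, R₁, hlab, ?_⟩
      rw [HS.x0, hba1]
      exact base_rec (max D D * max 1 D) r hb hab hτ0 hTτ R₁ (by omega) hκ haE.symm hbE.symm
        (hch S₁ hs₁) (X := X) (φ := φ) (kf := kf) (ℓ := ℓ) hφ0 hφ8 hφX hX1 n1 n3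
        (by linarith only [n6]) n7 hεφ hε.le htG (hinG _ s5.2.1) (fun i hi => hinG _ (s3 i hi))
        hpf' (NkP 0 (Nat.zero_le M)) he' (by linarith only [heb, hφ0]) (hη0 0 (Nat.zero_le M))
        (by linarith only [heg, g3 0 (Nat.zero_le M)])
    | succ k ih =>
      intro hk
      have hkM : k < M := hk
      obtain ⟨S', ne', hs', R', lab', SU, SN⟩ := ih (by omega)
      rw [hηk k hkM, hδk, Nk1 k hkM] at SU SN
      have HIk := HI' k hkM e₀ μ hμ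
      rw [hδk, hN₀k, ← hRk] at HIk
      have g1k := g1 k hkM
      have g2k := g2 k hkM
      rw [hδk] at g1k g2k
      have hbk := w5 k hkM
      obtain ⟨f1, f2⟩ := nfs_nfP (X := X) (r := r) (M := M) (τ := τ) R₀ (by omega) hκ hε hεφ hφM
        hTK (hτp (k + 1) hk) (hτT (k + 1) hk)
      obtain ⟨S'', ne'', hs'', R'', SU', SN'⟩ := HP k hkM (η (k + 1) / 2)
        (half_pos (hη0 (k + 1) hk)) (S := S)
        ne' hs' R' hκ haE.symm hbE.symm hε hK₀ hC hμ a2 a3 hnear lab' (el := el) (dl := δs + el)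
        (k₀ := k₀ 0) hel0.le (by linarith only [hδs, hel0]) (by linarith only [hδs2, hel2])
        (fun S' h1 h2 w₀ h3 h4 h5 => by
          obtain ⟨φ, h6, h7⟩ := a4 S' h1 h2 w₀ h3 h4 h5
          rw [← hbE] at h6
          exact ⟨φ, by linarith only [h6], h7⟩)
        (by
          have h1 : (K₀ + τ (k + 1)) * q ≤ (K₀ + Tn) * q :=
            mul_le_mul_of_nonneg_right (by linarith only [hττ (k + 1) hk, hTτ]) hq0.le
          exact h1.trans hq3)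
        (M := Mg k) (W := W k) (by rw [w0 k hkM]; ring) (w1 k hkM) (w2 k hkM) (w3 k hkM) hms0
        (w4 k hkM) (fun i hi => by
          have h1 := hbk i hi
          exact ⟨by linarith only [h1.1], h1.2⟩) (w6 k hkM) (fun i hi => hin _ (s1 k hkM i hi))
        (hin _ s5.1) (X := X) (φ := φ) (kf := kf) (ℓ := ℓ) (e' := e')
        (fun i hi => hin _ (s2 k hkM i hi)) (fun i hi => hin _ (s3 i hi)) hX1 hφX n1 n2 n3 n4 n5
        n6 n7 n8 n9 hφ0 hφ8 hεφ he' heb hec hεe hams hq2 hpf' f1 f2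
        (by
          rw [le_div_iff₀ (by positivity)] at hed
          linarith only [hed, g1k])
        (by linarith only [hel3, g1k]) (by linarith only [hδs1, hel1, g2k])
        (hee.trans (div_le_div_of_nonneg_right g1k (by positivity)))
        (hef.trans (div_le_div_of_nonneg_right (g3' (k + 1) hk) (by positivity)))
        (fun S'' h1 h2 => HIk S'' h1 (fun τ J F A h => hs' τ J F A (h2 τ J F A h))) SU SN
      rw [← Nk1 k hkM] at SU' SN'
      obtain ⟨SU2, SN2⟩ := st_tr R'' (hch S'' fun τ J F A h => hs' τ J F A (hs'' τ J F A h)) htG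
        hTnpos hφ0 hφ8 (by linarith only [hX2, ha1]) (by linarith only [n7, hTτ, hτ0]) hpf
        (NkS k hkM).1 (NkS k hkM).2 (NkH k hkM) he' (by linarith only [heb, hφ0])
        (show η (k + 1) / 2 < η (k + 1) by linarith only [hη0 (k + 1) hk]) SU' SN'
      exact ⟨S'', ne'', fun τ J F A h => hs' τ J F A (hs'' τ J F A h), R'', lab'.sub hs'', SU2,
        SN2⟩
  obtain ⟨S', hne', hs', R', lab', SU, SN⟩ := key M le_rfl
  rw [Nk2] at SU SN
  refine ⟨S', hne', hs', e' * q, mul_pos he' hq0, fun j hj1 hjJ => ?_⟩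
  have hxM : x M < 1 := by
    by_contra h1
    have h2 := (HS.pos M le_rfl).2.1
    have h3 : (1 - x M) * τ M ≤ 0 := mul_nonpos_of_nonpos_of_nonneg
      (by linarith only [not_lt.1 h1]) (by linarith only [h2])
    linarith only [HS.fin, h3, ha]
  have hjK : j ≤ max D D * max 1 D + 2 := by
    have h1 : D ≤ max D D * max 1 D := by
      calc D = D * 1 := (Nat.mul_one D).symm
        _ ≤ max D D * max 1 D := Nat.mul_le_mul (le_max_left _ _) (le_max_left _ _)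
    omega
  have hj1' : (1 : ℝ) ≤ j := by exact_mod_cast hj1
  have hτM := (HS.pos M le_rfl).2.1
  have hτM0 : 0 ≤ τ M := by linarith only [hτM]
  have hx0M := (HS.pos M le_rfl).1
  have hyx : x M * (b / a) ≤ x M := by
    have h1 : b / a ≤ 1 := (div_le_one ha).2 hab.le
    have := mul_le_mul_of_nonneg_left h1 hx0M.le
    linarith only [this]
  have hUj := SU j hjK hj1 (by linarith only [hxM, hj1'])
  have hNj := SN j hjK hj1 (by linarith only [hxM, hj1', hyx])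
  have hdU : C ≤ (j - x M) * τ M - 1 := by
    have h1 := mul_le_mul_of_nonneg_right (show 1 - x M ≤ j - x M by linarith only [hj1']) hτM0
    linarith only [h1, hfC]
  have hdN : C ≤ (j - x M * (b / a)) * τ M - 1 := by
    have h1 := mul_le_mul_of_nonneg_right
      (show 1 - x M ≤ j - x M * (b / a) by linarith only [hj1', hyx]) hτM0
    linarith only [h1, hfC]
  have hdUq := mul_le_mul_of_nonneg_right hdU hq0.le
  have hdNq := mul_le_mul_of_nonneg_right hdN hq0.le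
  have hηh : η M * q + dd / 2 * q = dd * q := by
    rw [hηM]
    ring
  have hdq : 0 < dd / 2 * q := by positivity
  -- the near jets of the chain over the labels of the early window
  have Un : JfU r (max D D * max 1 D) (-Tn) X φ ℓ kf :=
    { vv0 := by linarith only [hTnpos]
      φ0 := hφ0
      XK := by
        have e1 : 2 * ((((max D D * max 1 D : ℕ) : ℝ) + 6) * - -Tn) =
            2 * (((max D D * max 1 D : ℕ) + 6) * Tn) := by ring
        have e2 : 2 * ((a + b + (max D D * max 1 D : ℕ) + 8) * Tn) =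
            2 * (((max D D * max 1 D : ℕ) + 6) * Tn) + 2 * (a * Tn) + 2 * (b * Tn) + 4 * Tn := by
          ring
        rw [e1]
        linarith only [hX1, e2, haTn, hbTn, hTnpos]
      φX := hφX
      kfX := n1
      lamk := by linarith only [n3] }
  have Jn := R'.jf hκ (by omega) Un htG (fun i hi => hinG _ (s3 i hi)) (by linarith only [n7])
    (by linarith only [n6]) hεφ
  have hchS := hch S' hs'
  obtain ⟨ut, rt', hrt, hct⟩ := hchS.ch t htG
  have hA := Jn.near_n R'.tmc hchS (pf := pf) (Nf := Nf) hpf' kP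
  have hvnt : t + -Tn * q = t - Tn * q := by ring
  have hTnq : 0 < Tn * q := mul_pos hTnpos hq0
  have hφq : 0 < φ * q := mul_pos hφ0 hq0
  have hφq8 : φ * q ≤ 1 / 8 * q := mul_le_mul_of_nonneg_right hφ8 hq0.le
  have hLr : L r t t - a * (Tn * q) - ε * q ≤
      L r (t + -Tn * q) (t + -Tn * q) := by
    have h1 := abs_le.1 (R'.dL r (by omega) (t + -Tn * q) (by
      rw [add_sub_cancel_left, neg_mul, abs_neg, abs_mul, abs_of_pos hTnpos, abs_of_pos hq0]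
      exact mul_le_mul_of_nonneg_right hTK hq0.le))
    rw [← haE] at h1
    have e1 : a * (t + -Tn * q - t) = -(a * (Tn * q)) := by ring
    rw [e1] at h1
    linarith only [h1.1]
  have hεq : ε * q ≤ 1 / 8 * q := mul_le_mul_of_nonneg_right
    (by linarith only [hεφ, hφ8, hε]) hq0.le
  have hXq : (2 * ((a + b + (max D D * max 1 D : ℕ) + 8) * Tn) + 8 + (a + Tn + 2) + |C|) * q ≤
      X * q := mul_le_mul_of_nonneg_right hXb' hq0.le
  have hCq : C * q ≤ |C| * q := mul_le_mul_of_nonneg_right (le_abs_self C) hq0.le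
  have hKTq : 0 ≤ ((max D D * max 1 D : ℕ) : ℝ) * (Tn * q) := mul_nonneg hKn hTnq.le
  have haTnq : 0 < a * (Tn * q) := mul_pos ha hTnq
  have hbTnq : 0 < b * (Tn * q) := mul_pos hb hTnq
  have hXq' : 2 * (a * (Tn * q)) + 10 * q + |C| * q + Tn * q ≤ X * q := by
    have e1 : (2 * ((a + b + (max D D * max 1 D : ℕ) + 8) * Tn) + 8 + (a + Tn + 2) + |C|) * q =
      2 * (a * (Tn * q)) + 2 * (b * (Tn * q)) + 2 * (((max D D * max 1 D : ℕ) : ℝ) * (Tn * q)) +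
        16 * (Tn * q) + 10 * q + a * q + Tn * q + |C| * q := by ring
    rw [e1] at hXq
    linarith only [hXq, hbTnq, hKTq, hTnq, mul_pos ha hq0]
  have hJ1 : F1 S' (fun J F => ptr F J) (vg t) (fun _ F => F.T)
      (qJets (r + 2) c 0 r 1 (fun _ _ => t) (fun l _ => pf l) Nf)
      (qJet (r + 2) ((range r).image c) (c r) j t (L r t t) (L r t t - j * t + C * q)) (e' * q)
      (dd * q) := by
    rw [← hηh]
    exact f1_low R'.tmc (by linarith only [hdUq]) hdq hUj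
  refine ⟨hJ1, ?_, ?_⟩
  · rw [← hηh]
    refine Jn.tr R'.tmc hchS hA (k := c r) (j := j) (w₁ := t) (w₂ := t + -Tn * q)
      (p₁ := L r t t) (N₁ := L r t t - j * t + ((j - x M) * τ M - 1) * q) le_rfl
      (by rw [hvnt]; linarith only [hTnq]) (by linarith only [hdUq]) ?_ (mul_pos he' hq0) ?_ ?_ hdq
      (exs_jet (hrt r (Nat.lt_succ_self r)) (hct.att r (Nat.zero_le _) (Nat.lt_succ_self r))) hUj
    · have h1 : L r t t - a * (Tn * q) - ε * q ≤
          min (L r t t) (L r (t + -Tn * q) (t + -Tn * q)) :=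
        le_min (by linarith only [haTnq, mul_pos hε hq0]) hLr
      have e1 : t - (t + -Tn * q) = Tn * q := by ring
      rw [e1]
      linarith only [h1, hXq', hCq, hφq8, hεq, hq0, haTnq]
    · have h1 := mul_le_mul_of_nonneg_right heb hq0.le
      linarith only [h1, hφq]
    · have h1 := mul_le_mul_of_nonneg_right heb hq0.le
      linarith only [h1, hφq]
  · rw [← hηh]
    exact f1_low R'.tmc (by linarith only [hdNq]) hdq hNj

end Pool.PN18
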