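import Pool.Agent.H30.LPT.Twg
import Pool.Agent.H5.PN.Jfc

/-!
# The numbers of the near path of a family at a window

`lvY`: the widths of the places; `nrT_mk`: the conditions `NrT` for the digits of the own path.
-/

set_option autoImplicit false

namespace Pool.PN18

open Finset Real MvPolynomial
open Pool.Agent.H49.Ent Pool.Agent.H32.Dense Pool.STK Pool.KA Pool.KSAT Pool.K2S Pool.PB Pool.GEN
open Pool.S6C Pool.RCD Pool.LA91 Pool.LP30 Pool.LPJ30 Pool.LPT30 Pool.AJW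

/-- **The widths of the places.** -/
noncomputable def lvY (r : ℕ) (X : ℝ) (l : ℕ) : ℝ := (3 / 4 - l / (4 * (r + 1))) * aX r X l

section

variable {r : ℕ} {X : ℝ} {l l' : ℕ}

theorem lvY_th (hl : l < r) : (1 : ℝ) / 2 ≤ 3 / 4 - l / (4 * (r + 1)) := by
  have h0 : (0 : ℝ) < 4 * (r + 1) := by positivity
  have h1 : (l : ℝ) ≤ r := by exact_mod_cast hl.le
  have h2 : (l : ℝ) / (4 * (r + 1)) ≤ 1 / 4 := by
    rw [div_le_div_iff₀ h0 (by norm_num)]
    linarith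
  linarith

theorem lvY_lo (hX : 0 ≤ X) (hl : l < r) : aX r X l / 2 ≤ lvY r X l := by
  have h1 := aX_ge (r := r) hX l
  have h2 := lvY_th hl
  have h3 : 0 ≤ aX r X l := by linarith
  have h4 := mul_le_mul_of_nonneg_right h2 h3
  unfold lvY
  linarith

theorem lvY_hi (hX : 0 ≤ X) : lvY r X l ≤ 3 / 4 * aX r X l := by
  have h1 := aX_ge (r := r) hX l
  have h3 : 0 ≤ aX r X l := by linarith
  have h0 : (0 : ℝ) ≤ l / (4 * (r + 1)) := by positivity
  unfold lvY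
  exact mul_le_mul_of_nonneg_right (by linarith) h3

theorem lvY_step (hX : 0 ≤ X) (hl : l < r) (hl' : l' < l) :
    3 * lvY r X l + 3 * X / (4 * (r + 1)) ≤ lvY r X l' := by
  have h0 : (0 : ℝ) < 4 * (r + 1) := by positivity
  have h1 := aX_nest (r := r) hX hl' hl
  have h2 := aX_ge (r := r) hX l
  have h3 : 0 ≤ aX r X l := by linarith
  have e1 : (l' : ℝ) + 1 ≤ l := by exact_mod_cast hl'
  have e2 : 3 / 4 - (l : ℝ) / (4 * (r + 1)) + 1 / (4 * (r + 1)) ≤ 3 / 4 - l' / (4 * (r + 1)) := by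
    have : ((l' : ℝ) + 1) / (4 * (r + 1)) ≤ l / (4 * (r + 1)) :=
      (div_le_div_iff_of_pos_right h0).2 e1
    rw [add_div] at this
    linarith
  have e3 : (0 : ℝ) ≤ 3 / 4 - l' / (4 * (r + 1)) := by
    have := lvY_th (r := r) (hl'.trans hl)
    linarith
  have e4 := mul_le_mul_of_nonneg_left h1 e3
  have e5 := mul_le_mul_of_nonneg_right e2 (by linarith : (0 : ℝ) ≤ 3 * aX r X l)
  have e6 : X / (4 * (r + 1)) ≤ aX r X l / (4 * (r + 1)) := (div_le_div_iff_of_pos_right h0).2 h2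
  have e7 : (3 / 4 - (l : ℝ) / (4 * (r + 1)) + 1 / (4 * (r + 1))) * (3 * aX r X l) =
      3 * ((3 / 4 - l / (4 * (r + 1))) * aX r X l) + 3 * (aX r X l / (4 * (r + 1))) := by ring
  have e8 : 3 * X / (4 * (r + 1)) = 3 * (X / (4 * (r + 1))) := by ring
  unfold lvY
  rw [e8]
  linarith

theorem lvY_big (hX : 0 ≤ X) (hl : l < r) (hl' : l' < l) : 3 / 2 * aX r X l ≤ lvY r X l' := by
  have h1 := lvY_lo hX (hl'.trans hl)
  have h2 := aX_nest (r := r) hX hl' hl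
  linarith

end

/-- **The conditions on the digits** for the near path of the own path of the window `v`. -/
theorem nrT_mk {r : ℕ} {sn : ℕ → ℝ → ℝ} {n n' nT nU : ℕ} {T : Fin n → ℝ → ℝ} {oB : Fin n' → ℕ}
    {TB : Fin n' → ℝ → ℝ} {oT : Fin nT → ℕ} {TT : Fin nT → ℝ → ℝ} {oU : Fin nU → ℕ}
    {TU : Fin nU → ℝ → ℝ} {a₀ : ℝ} {nB : Fin n' → ℝ} {nW : Fin nU → ℝ} {v vn o τ κ₀ X s U : ℝ}
    (hτ : 0 < τ) (hs : 0 ≤ s) (hvo : v ≤ o) (hX : 8 * (r + 1) * ((o - v) + τ + s + U) ≤ X)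
    (hU : 0 ≤ U) (hκ : 3 ^ r * X + s ≤ κ₀)
    (hT : ∀ i, T i o - T i v ≤ U) (hB1 : ∀ i, nB i + oB i * v ≤ TB i v + κ₀)
    (hB2 : ∀ i, nB i + oB i * o - TB i v ≤ U) (hu : a₀ * (o - vn) ≤ U) (hx0 : vn + τ ≤ v)
    (hTT : ∀ i, TT i o - oT i * o + oT i * v + τ ≤ TT i vn + a₀ * (v - vn))
    (hTU : ∀ i, nW i + oU i * v + τ ≤ TU i vn + a₀ * (v - vn)) :
    NrT sn r T oB TB oT TT oU TU a₀ (fun l => nX r sn v X l + s) (fun l => nX r sn v X l + s - v)
      (lvY r X) nB nW v vn v o τ κ₀ := by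
  obtain ⟨D, hD⟩ : ∃ D : ℝ, D = (o - v) + τ + s + U := ⟨_, rfl⟩
  rw [← hD] at hX
  have hD0 : 0 ≤ D := by
    rw [hD]
    linarith
  have hr0 : (0 : ℝ) ≤ r := Nat.cast_nonneg r
  have hX8 : 8 * D ≤ X := by nlinarith
  have hX0 : 0 ≤ X := by linarith
  have h4 : (0 : ℝ) < 4 * (r + 1) := by positivity
  have hq : 6 * D ≤ 3 * X / (4 * (r + 1)) := by
    rw [le_div_iff₀ h4]
    nlinarith
  have a1 : ∀ l, X ≤ aX r X l := fun l => aX_ge hX0 l
  have a2 : ∀ l < r, aX r X l ≤ 3 ^ r * X := fun l hl => by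
    have := aX_le hX0 hl
    linarith [a1 l]
  refine ⟨⟨⟨fun l hl => ?_, fun l hl => ?_, fun l hl => ?_, fun l hl l' hl' => ?_,
    fun l hl l' hl' => ?_, fun l hl l' hl' => ?_, fun i l hl => ?_, fun l hl => ?_,
    fun l hl => ?_⟩, fun l hl l' hl' => ?_, hB1, fun i l hl => ?_⟩, fun l hl => ?_, hx0, hTT, hTU⟩
  · have h1 := lvY_lo hX0 hl
    linarith [a1 l]
  · have h1 := lvY_hi (r := r) (l := l) hX0
    show sn l v + (o - v) + lvY r X l + τ ≤ nX r sn v X l + s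
    unfold nX
    linarith [a1 l]
  · have h1 := lvY_hi (r := r) (l := l) hX0
    show sn l v + lvY r X l + τ ≤ nX r sn v X l + s - v + v
    unfold nX
    linarith [a1 l]
  · have h1 := lvY_step hX0 hl hl'
    have h2 := lvY_lo hX0 hl
    linarith [a1 l]
  · have h1 := lvY_big hX0 hl hl'
    show nX r sn v X l + s + τ ≤ sn l v + lvY r X l'
    unfold nX
    linarith [a1 l]
  · have h1 := lvY_big hX0 hl hl'
    show nX r sn v X l + s - v + o + τ ≤ sn l v + lvY r X l'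
    unfold nX
    linarith [a1 l]
  · have h1 := lvY_lo hX0 hl
    have h2 := hT i
    linarith [a1 l]
  · show nX r sn v X l + s ≤ sn l v + κ₀
    unfold nX
    linarith [a2 l hl]
  · show nX r sn v X l + s - v + v ≤ sn l v + κ₀
    unfold nX
    linarith [a2 l hl]
  · have h1 := lvY_step hX0 hl hl'
    linarith
  · have h1 := lvY_lo hX0 hl
    have h2 := hB2 i
    linarith [a1 l]
  · have h1 := lvY_lo hX0 hl
    linarith [a1 l]

end Pool.PN18
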