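import Pool.Agent.H30.LPT.Twq
import Pool.Agent.H18.PN.Ipn

/-!
# The indices of the tower

`ipX₁`: a jet of the place and a jet of the second coordinate, both of the first kind; `ipX₂`: both of
the second kind. `ntw_1`, `ntw_2`: no look-ahead for them at a window, from `TwQ`.
-/

set_option autoImplicit false

namespace Pool.PN18

open Finset Real MvPolynomial
open Pool.Agent.H49.Ent Pool.Agent.H32.Dense Pool.STK Pool.KA Pool.KSAT Pool.K2S Pool.PB Pool.GEN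
open Pool.S6C Pool.RCD Pool.LA91 Pool.LP30 Pool.LPJ30 Pool.LPT30 Pool.AJW Pool.PKG Pool.CHT

/-- The index for the orders `i`, `j` of the first kind. -/
def ipX₁ (r i j : ℕ) (e : ℚ) : TwX :=
  ⟨r, 1, fun _ => i, 0, fun _ => 0, 1, fun _ => j, 0, fun _ => 0, e⟩

/-- The index for the orders `i`, `j` of the second kind. -/
def ipX₂ (r i j : ℕ) (e : ℚ) : TwX :=
  ⟨r, 0, fun _ => 0, 1, fun _ => i, 0, fun _ => 0, 1, fun _ => j, e⟩

section

variable {r : ℕ} {S : PCl (r + 2)} {P : List (Fin (r + 2)) × Fin (r + 2) → ℝ → ℝ → ℝ} {θ : ℝ}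
  {c : ℕ → Fin (r + 2)} {Pt : ℝ → ℝ → ℝ} {rt : ℝ → ℝ} {L T : ℕ → ℝ → ℝ → ℝ} {κ : ℕ → Kg}
  {G : Set ℝ} {g a b : ℝ} {i j k₀ : ℕ} {e : ℚ} {ρ v vn t o X s U : ℝ}

/-- **No look-ahead for a pair of orders of the first kind.** -/
theorem ntw_1 (hQ : TwQ (ipX₁ r i j e) k₀ S P θ c Pt rt L T κ G g)
    (ha : HasDerivAt (fun x => L r x x) a g) (hb : HasDerivAt (fun x => L (r + 1) x x) b g)
    (hκ : ∀ l < r, κ l = .one) (hia : (i : ℝ) < a) (hjb : (j : ℝ) < b) (hab : b < a) (he : 0 < e)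
    (hρ : 0 < ρ) (hkρ : ((k₀ : ℝ) + 1) * ρ < 1) (hv : v ∈ G) (hvn : vn ∈ G) (hvg : g - ρ ≤ v)
    (hvng : g - ρ ≤ vn) (hvt : v ≤ t) (hto : t ≤ o) (hog : o ≤ g + ρ) (hs : 0 ≤ s)
    (hX : 8 * (r + 1) * ((o - v) + e * ρ + s + U) ≤ X) (hU : 0 ≤ U)
    (hκ₀ : 3 ^ r * X + s ≤ 1 / ((k₀ : ℝ) + 1)) (hT : L r o o - L r v v ≤ U)
    (hu : a * (o - vn) ≤ U) (hx0 : vn + e * ρ ≤ v)
    (hTT : L (r + 1) o o - j * o + j * v + e * ρ ≤ L (r + 1) vn vn + a * (v - vn)) :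
    NtW S c r (fun _ : Fin 1 => c r) (fun _ => i) (fun _ : Fin 0 => c r) (fun _ => 0)
      (fun l w => L l w w) (fun _ w => L r w w) (fun _ w => L r w w)
      (fun _ : Fin 1 => c (r + 1)) (fun _ => j) (fun _ w => L (r + 1) w w)
      (fun _ : Fin 0 => c (r + 1)) (fun _ => 0) (fun _ w => L (r + 1) w w)
      (fun l => nX r (fun l w => L l w w) v X l + s)
      (fun l => nX r (fun l w => L l w w) v X l + s - v) (fun _ => 0) (fun _ => 0) v vn v t o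
      (e * ρ) := by
  have he' : (0 : ℝ) < e := by exact_mod_cast he
  have hN : NrT (fun l w => L l w w) r (fun (_ : Fin 1) w => L r w w) (fun _ : Fin 0 => 0)
      (fun _ w => L r w w) (fun _ : Fin 1 => j) (fun _ w => L (r + 1) w w) (fun _ : Fin 0 => 0)
      (fun _ w => L (r + 1) w w) a (fun l => nX r (fun l w => L l w w) v X l + s)
      (fun l => nX r (fun l w => L l w w) v X l + s - v) (lvY r X) (fun _ => 0) (fun _ => 0)
      v vn v o (e * ρ) (1 / ((k₀ : ℝ) + 1)) :=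
    nrT_mk (mul_pos he' hρ) hs (hvt.trans hto) hX hU hκ₀ (fun _ => hT) (fun i => i.elim0)
      (fun i => i.elim0) hu hx0 (fun _ => hTT) (fun i => i.elim0)
  exact hQ.tw a b ha.deriv.symm hb.deriv.symm (by show r + 1 < r + 2; omega) hκ he
    (fun _ => Or.inl hia) (fun i => i.elim0) (fun _ => ⟨hjb, hab⟩) (fun i => i.elim0) ρ hρ hkρ v hv
    vn hvn v t o hvg hvng le_rfl hvt hto hog _ _ (lvY r X) _ _ hN

/-- **No look-ahead for a pair of orders of the second kind.** -/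
theorem ntw_2 (hQ : TwQ (ipX₂ r i j e) k₀ S P θ c Pt rt L T κ G g)
    (ha : HasDerivAt (fun x => L r x x) a g) (hb : HasDerivAt (fun x => L (r + 1) x x) b g)
    (hκ : ∀ l < r, κ l = .one) (hia : (i : ℝ) = a) (hjb : (j : ℝ) = b) (hab : b < a) (he : 0 < e)
    (hρ : 0 < ρ) (hkρ : ((k₀ : ℝ) + 1) * ρ < 1) (hv : v ∈ G) (hvn : vn ∈ G) (hvg : g - ρ ≤ v)
    (hvng : g - ρ ≤ vn) (hvt : v ≤ t) (hto : t ≤ o) (hog : o ≤ g + ρ) (hs : 0 ≤ s)
    (hX : 8 * (r + 1) * ((o - v) + e * ρ + s + U) ≤ X) (hU : 0 ≤ U)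
    (hκ₀ : 3 ^ r * X + s ≤ 1 / ((k₀ : ℝ) + 1)) {nB nW : ℝ}
    (hB1 : nB + i * v ≤ L r v v + 1 / ((k₀ : ℝ) + 1)) (hB2 : nB + i * o - L r v v ≤ U)
    (hu : a * (o - vn) ≤ U) (hx0 : vn + e * ρ ≤ v)
    (hTU : nW + j * v + e * ρ ≤ L (r + 1) vn vn + a * (v - vn)) :
    NtW S c r (fun _ : Fin 0 => c r) (fun _ => 0) (fun _ : Fin 1 => c r) (fun _ => i)
      (fun l w => L l w w) (fun _ w => L r w w) (fun _ w => L r w w)
      (fun _ : Fin 0 => c (r + 1)) (fun _ => 0) (fun _ w => L (r + 1) w w)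
      (fun _ : Fin 1 => c (r + 1)) (fun _ => j) (fun _ w => L (r + 1) w w)
      (fun l => nX r (fun l w => L l w w) v X l + s)
      (fun l => nX r (fun l w => L l w w) v X l + s - v) (fun _ => nB) (fun _ => nW) v vn v t o
      (e * ρ) := by
  have he' : (0 : ℝ) < e := by exact_mod_cast he
  have hN : NrT (fun l w => L l w w) r (fun (_ : Fin 0) w => L r w w) (fun _ : Fin 1 => i)
      (fun _ w => L r w w) (fun _ : Fin 0 => 0) (fun _ w => L (r + 1) w w) (fun _ : Fin 1 => j)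
      (fun _ w => L (r + 1) w w) a (fun l => nX r (fun l w => L l w w) v X l + s)
      (fun l => nX r (fun l w => L l w w) v X l + s - v) (lvY r X) (fun _ => nB) (fun _ => nW)
      v vn v o (e * ρ) (1 / ((k₀ : ℝ) + 1)) :=
    nrT_mk (mul_pos he' hρ) hs (hvt.trans hto) hX hU hκ₀ (fun i => i.elim0) (fun _ => hB1)
      (fun _ => hB2) hu hx0 (fun i => i.elim0) (fun _ => hTU)
  exact hQ.tw a b ha.deriv.symm hb.deriv.symm (by show r + 1 < r + 2; omega) hκ he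
    (fun i => i.elim0) (fun _ => hia) (fun i => i.elim0) (fun _ => ⟨hjb, hab⟩) ρ hρ hkρ v hv
    vn hvn v t o hvg hvng le_rfl hvt hto hog _ _ (lvY r X) _ _ hN

end

end Pool.PN18
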