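import Pool.Agent.H18.PN.Stgc
import Pool.Agent.H18.PN.Pyb
import Pool.Agent.H63.JAB.Thr

/-!
# The mutual information of the alive orders at the stages

`StgN`: the numbers of the stages. `IpY`: the mutual information at all stages, at all scales of the
record.
-/

set_option autoImplicit false

namespace Pool.PN18

open Finset Real MvPolynomial
open Pool.Agent.H49.Ent Pool.Agent.H32.Dense Pool.STK Pool.KA Pool.KSAT Pool.K2S Pool.PB Pool.GEN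
open Pool.S6C Pool.RCD Pool.LA91 Pool.OWN68 Pool.AJW Pool.AJX Pool.CHT Pool.PKG Pool.ALT
open Pool.CR99 (PairE)

/-- The radius of the stage `k`. -/
noncomputable def stR (a : ℝ) (x τ : ℕ → ℝ) (k : ℕ) : ℝ := (a - x (k + 1)) * τ (k + 1) / a

/-- **The numbers of the stages.** -/
structure StgN (a b : ℝ) (K M : ℕ) (x τ : ℕ → ℝ) : Prop where
  x0 : x 0 = a
  xs : ∀ k < M, x (k + 1) < x k
  τs : ∀ k < M, τ (k + 1) ≤ τ k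
  pos : ∀ k ≤ M, 0 < x k ∧ 1 ≤ τ k ∧ 1 ≤ b / a * (τ k * x k)
  u1 : ∀ k < M, ∀ i i' : ℕ, x (k + 1) < i → (i : ℝ) ≤ x k → x (k + 1) < i' → (i' : ℝ) ≤ x k →
    i = i'
  n1 : ∀ k < M, ∀ j j' : ℕ, x (k + 1) * (b / a) < j → (j : ℝ) ≤ x k * (b / a) →
    x (k + 1) * (b / a) < j' → (j' : ℝ) ≤ x k * (b / a) → j = j'
  t1 : ∀ k < M, ∀ i : ℕ, i ≤ K + 2 → x k < i → (i - x (k + 1)) * τ (k + 1) + 2 ≤ (i - x k) * τ k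
  t2 : ∀ k < M, ∀ j : ℕ, j ≤ K + 2 → x k * (b / a) < j →
    (j - x (k + 1) * (b / a)) * τ (k + 1) + 2 ≤ (j - x k * (b / a)) * τ k
  t3 : ∀ k < M, ∀ i : ℕ, (i : ℝ) ≤ x (k + 1) → (i - x (k + 1)) * τ (k + 1) + 2 ≤ 0
  t4 : ∀ k < M, ∀ j : ℕ, (j : ℝ) ≤ x (k + 1) * (b / a) →
    (j - x (k + 1) * (b / a)) * τ (k + 1) + 2 ≤ 0
  fin : a + 1 ≤ (1 - x M) * τ M

theorem stgn_ex {a b : ℝ} (ha : 1 < a) (hb : 0 < b) (hab : b < a) (K : ℕ) :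
    ∃ (M : ℕ) (x τ : ℕ → ℝ), StgN a b K M x τ := by
  obtain ⟨M, x, τ, h1, h2, h3, h4, h5, h6, h7, h8, h9, h10, h11⟩ := thr_ex ha hb hab K
  exact ⟨M, x, τ, h1, h2, h3, h4, h5, h6, h7, h8, h9, h10, h11⟩

/-- **The mutual information of the alive orders at the stages**, at all scales of the record. -/
def IpY (r : ℕ) (h : ℝ) (Sl : ℕ → ℝ) (κ : ℕ → Kg) {ι : Type} (Q : PropG (r + 2) ι) : Prop :=
  ∀ al : ℝ, 0 < al → ∀ K₀ : ℝ, 0 < K₀ → ∀ S₀ : ℕ, 1 ≤ S₀ →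
  ∀ (D M : ℕ) (x τ : ℕ → ℝ), StgN (Sl r) (Sl (r + 1)) (max D D * max 1 D) M x τ →
  ∃ (Tn₀ Kr : ℝ) (Nr : ℕ) (Ar Vr : ℕ → ℝ), 1 ≤ Kr ∧
  (∀ k < Nr, -Kr ≤ Vr k ∧ Vr k ≤ Ar k ∧ Ar k ≤ Kr) ∧
  ∀ Tn : ℝ, Tn₀ ≤ Tn → ∀ S₂ : ℕ, S₀ ≤ S₂ → ∀ (δ : ℕ → ℝ) (N₀ : ℕ → ℕ),
  (∀ k < M, 0 < δ k ∧ 0 < N₀ k) → ∃ X₀ : ℝ, ∀ X : ℝ, X₀ ≤ X →
  ∃ φ₀ : ℝ, 0 < φ₀ ∧ ∀ φ : ℝ, 0 < φ → φ ≤ φ₀ →
  ∃ ℓ₀ : ℝ, ∀ ℓ : ℝ, ℓ₀ ≤ ℓ → ∃ e₁ : ℝ, 0 < e₁ ∧ ∀ e' : ℝ, 0 < e' → e' ≤ e₁ →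
  ∃ (K₁ : ℝ) (Nv : ℕ) (Vv : ℕ → ℝ), (∀ j < Nv, -K₁ ≤ Vv j ∧ Vv j ≤ K₁) ∧ ∀ K' : ℝ, K₁ ≤ K' →
  ∃ ε₀ : ℝ, 0 < ε₀ ∧ ∀ ε : ℝ, 0 < ε → ε ≤ ε₀ →
  ∀ (S : PCl (r + 2)) (g₀ : ℝ → ℝ) (P : List (Fin (r + 2)) × Fin (r + 2) → ℝ → ℝ → ℝ)
    (θ : ℝ) (P₂ : ℕ → List (Fin (r + 2)) × Fin (r + 2) → ℝ → ℝ → ℝ) (θ₂ Eb e₂ : ℕ → ℝ)
    (c : ℕ → Fin (r + 2)) (Pt : ℝ → ℝ → ℝ) (rt : ℝ → ℝ) (L T : ℕ → ℝ → ℝ → ℝ) (G : Set ℝ)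
    (g : ℝ), IsClosed G → g ∈ G → (∀ l < r + 2, HasDerivAt (fun x => L l x x) (Sl l) g) →
    ∃ (p : ℕ → ι) (Mq : ℕ) (B₀ B₁ : ℕ → ℝ),
    (∀ j < Mq, B₀ j < B₁ j) ∧ ∀ k₀ : ℕ → ℕ, (∀ j < Mq, Q (p j) (k₀ j) S P θ c Pt rt L T κ G g) →
    ∃ q₁ : ℝ, 0 < q₁ ∧ ∀ (q t : ℝ) (y : ℕ → ℝ),
      q < q₁ → (∀ j < Mq, y j ∈ G ∧ t + B₀ j * q ≤ y j ∧ y j ≤ t + B₁ j * q ∧
        Q (p j) (k₀ j) S P θ c Pt rt L T κ G (y j)) →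
      ∀ (N : ℕ) (A V : ℕ → ℝ) (N' : ℕ) (V' : ℕ → ℝ),
      RecG S al g₀ P θ P₂ θ₂ Eb e₂ c Pt rt h K₀ g L T Sl κ G S₀ N A V S₂ N' V' K' ε q t →
      (∀ k < Nr, ∃ j < N, A j = Ar k ∧ V j = Vr k) → (∀ k < Nv, ∃ j < N', V' j = Vv k) →
      ∀ pf : ℕ → ℝ, (∀ l < r, L l t t - φ * q ≤ pf l ∧ pf l ≤ L l t t) →
      ∀ k < M, ∀ (e₀ μ : ℝ), 0 < μ → ∀ S' : PCl (r + 2), S'.Ne →
        (∀ (τ : ℝ) (J : ℕ) (F : Fam (r + 2) J) (A : F.Ω → Prop), S'.St τ J F A → S.St τ J F A) →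
        RecG S' al g₀ P θ P₂ θ₂ Eb e₂ c Pt rt h K₀ g L T Sl κ G S₀ N A V S₂ N' V' K' ε q t →
        LabR r D S' c L e₀ μ q t N' V' → ∀ (Ψ : Fm2 (r + 2)) (E₂ r₂ : ℝ) (E : ℕ → ℝ)
        (rd : ℕ → ℝ) (En Rn : ℝ) (K₁ : ℕ), (∀ i ≤ r, 0 ≤ E i ∧
          L i (t + -τ (k + 1) * q) (t + -τ (k + 1) * q) + E i + 3 * K' * q ≤ 1) →
        PairE S' Ψ c r (max D D * max 1 D) ((range (r + 1)).image c) (c (r + 1)) (Sl r)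
          (Sl (r + 1)) (stR (Sl r) x τ k) (h * Sl (r + 1)) (δ k) (ℓ * q) (N₀ k)
          (t + -τ (k + 1) * q) t q (fun i => L i (t + -τ (k + 1) * q) (t + -τ (k + 1) * q))
          (nX r (fun l x => L l x x) (t + -τ (k + 1) * q) (X * q)) (fun x => L (r + 1) x x) pf
          (NfS r L X φ q t τ k)
          (e' * q) E₂ r₂ (L (r + 1) (t + -τ (k + 1) * q) (t + -τ (k + 1) * q)) E rd
          (t + -Tn * q) (L (r + 1) (t + -Tn * q) (t + -Tn * q)) En Rn K₁ →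
        StU S' c r (max D D * max 1 D) L q t pf (NfS r L X φ q t τ k) (e' * q) (x k) (τ k)
          (δ k * stR (Sl r) x τ k / 2) →
        StN S' c r (max D D * max 1 D) L q t Tn pf (NfS r L X φ q t τ k) (e' * q)
          (x k * (Sl (r + 1) / Sl r)) (τ k) (δ k * stR (Sl r) x τ k / 2) →
        IpC S' Ψ c r (max D D * max 1 D) L q t (Sl r) (Sl (r + 1)) (x k) (x (k + 1))
          (x k * (Sl (r + 1) / Sl r)) (x (k + 1) * (Sl (r + 1) / Sl r)) (τ (k + 1))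
          (stR (Sl r) x τ k) φ pf (NfS r L X φ q t τ k) (e' * q) (δ k)

/-- A finite list of windows. -/
theorem fin_win (s : Finset ℝ) : ∃ (n : ℕ) (V : ℕ → ℝ) (K : ℝ), 0 ≤ K ∧ (∀ j < n, V j ∈ s) ∧
    (∀ w ∈ s, ∃ j < n, V j = w) ∧ ∀ w ∈ s, |w| ≤ K := by
  classical
  refine ⟨s.toList.length, fun j => s.toList.getD j 0, ∑ w ∈ s, |w|,
    Finset.sum_nonneg fun w _ => abs_nonneg w, fun j hj => ?_, fun w hw => ?_, fun w hw => ?_⟩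
  · show s.toList.getD j 0 ∈ s
    rw [List.getD_eq_getElem _ _ hj]
    exact Finset.mem_toList.1 (List.getElem_mem hj)
  · obtain ⟨j, hj, h1⟩ := List.getElem_of_mem (Finset.mem_toList.2 hw)
    refine ⟨j, hj, ?_⟩
    show s.toList.getD j 0 = w
    rw [List.getD_eq_getElem _ _ hj]
    exact h1
  · exact Finset.single_le_sum (f := fun w => |w|) (fun w _ => abs_nonneg w) hw

/-- Backward recursion. -/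
theorem back_rec (M : ℕ) (ηM : ℝ) (hηM : 0 < ηM) (R : ℕ → ℝ) (hR : ∀ k < M, 0 < R k)
    (f : ℕ → ℝ → ℝ) (hf : ∀ k < M, ∀ η, 0 < η → 0 < f k η) :
    ∃ η : ℕ → ℝ, η M = ηM ∧ (∀ k ≤ M, 0 < η k) ∧ ∀ k < M, η k = f k (η (k + 1)) * R k / 2 := by
  obtain ⟨g, hg0, hgs⟩ : ∃ g : ℕ → ℝ, g 0 = ηM ∧ ∀ n, g (n + 1) =
      f (M - (n + 1)) (g n) * R (M - (n + 1)) / 2 :=
    ⟨fun n => Nat.rec ηM (fun n y => f (M - (n + 1)) y * R (M - (n + 1)) / 2) n, rfl,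
      fun n => rfl⟩
  have hpos : ∀ n ≤ M, 0 < g n := by
    intro n
    induction n with
    | zero =>
      intro _
      rw [hg0]
      exact hηM
    | succ n ih =>
      intro hn
      rw [hgs]
      have h1 := hf (M - (n + 1)) (by omega) (g n) (ih (by omega))
      have h2 := hR (M - (n + 1)) (by omega)
      positivity
  refine ⟨fun k => g (M - k), ?_, fun k hk => hpos _ (Nat.sub_le M k), fun k hk => ?_⟩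
  · show g (M - M) = ηM
    rw [Nat.sub_self]
    exact hg0
  · show g (M - k) = f k (g (M - (k + 1))) * R k / 2
    obtain ⟨n, hn⟩ : ∃ n, M - k = n + 1 := ⟨M - k - 1, by omega⟩
    have h1 : M - (k + 1) = n := by omega
    have h2 : M - (n + 1) = k := by omega
    rw [hn, h1, hgs, h2]

end Pool.PN18
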