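import Pool.Agent.H12.LPK.Hup
import Pool.Agent.H28.TWO.Tfm
import Pool.Agent.H18.PN.Stgf
import Pool.Agent.H18.PN.Ipx

/-!
# The supplier of the mutual information at the stages

`ipY_of_tw`: `IpY` from `TwQ`, for `b < a`, the places below are full.
-/

set_option autoImplicit false

namespace Pool.PN18

open Finset Real MvPolynomial
open Pool.Agent.H49.Ent Pool.Agent.H32.Dense Pool.STK Pool.KA Pool.KSAT Pool.K2S Pool.PB Pool.GEN
open Pool.S6C Pool.RCD Pool.LA91 Pool.OWN68 Pool.AJW Pool.AJX Pool.CHT Pool.PKG Pool.ALT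
open Pool.LPK12 (Ip2 TwO MxP mxp_ex ip2_pair)
open Pool.CR99 (PairE)
open Pool.LP30 (paQ)
open Pool.LPT30
open Pool.TWO28 (TwC LvN PaN PrN two_a two_b two_dig)

/-- Finitely many numbers are bounded. -/
theorem fin_bd2 (M N : ℕ) (f : ℕ → ℕ → ℝ) :
    ∃ B : ℝ, 0 ≤ B ∧ ∀ k < M, ∀ i < N, f k i ≤ B := by
  refine ⟨∑ k ∈ range M, ∑ i ∈ range N, |f k i|,
    Finset.sum_nonneg fun _ _ => Finset.sum_nonneg fun _ _ => abs_nonneg _, fun k hk i hi => ?_⟩
  exact (le_abs_self _).trans ((Finset.single_le_sum (f := fun i => |f k i|)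
    (fun _ _ => abs_nonneg _) (Finset.mem_range.2 hi)).trans
    (Finset.single_le_sum (f := fun k => ∑ i ∈ range N, |f k i|)
      (fun _ _ => Finset.sum_nonneg fun _ _ => abs_nonneg _) (Finset.mem_range.2 hk)))

/-- Finitely many positive numbers have a positive lower bound. -/
theorem fin_lo (M : ℕ) (f : ℕ → ℝ) (h : ∀ k < M, 0 < f k) : ∃ η : ℝ, 0 < η ∧ ∀ k < M, η ≤ f k := by
  induction M with
  | zero => exact ⟨1, one_pos, fun k hk => absurd hk (Nat.not_lt_zero k)⟩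
  | succ M ih =>
    obtain ⟨η, h1, h2⟩ := ih fun k hk => h k (hk.trans (Nat.lt_succ_self M))
    refine ⟨min η (f M), lt_min h1 (h M (Nat.lt_succ_self M)), fun k hk => ?_⟩
    rcases Nat.lt_succ_iff_lt_or_eq.1 hk with h3 | rfl
    · exact (min_le_left _ _).trans (h2 k h3)
    · exact min_le_right _ _

/-- The two record comparison for larger errors. -/
theorem two_anti {m : ℕ} {S : PCl m} {Ψ : Fm2 m} {κ₁ κ₂ : Fin m} {w : ℝ} {i₁ i₂ : ℕ}
    {n₁ n₂ m₁ m₂ a : ℝ} {U : Type} {Qp : Qt m U} {e₁ k k' κ : ℝ} (hk : k' ≤ k)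
    (h : TwO S Ψ κ₁ κ₂ w i₁ i₂ n₁ n₂ m₁ m₂ a Qp e₁ k κ) :
    TwO S Ψ κ₁ κ₂ w i₁ i₂ n₁ n₂ m₁ m₂ a Qp e₁ k' κ := by
  intro K₀
  refine Bas.mono 0 (h K₀) ?_
  intro J _ F A h1 V C z z' G₁ G₂ cc hΨ X x hx Y y hy pa hpa
  have hJ : k' * J ≤ k * J := mul_le_mul_of_nonneg_right hk (Nat.cast_nonneg J)
  exact h1 V C z z' G₁ G₂ cc hΨ X x ⟨hx.1, fun V' z' hz' => (hx.2 V' z' hz').trans hJ⟩ Y y
    ⟨hy.1, fun V' z' hz' => (hy.2 V' z' hz').trans hJ⟩ pa hpa

/-- The numbers between two early windows. -/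
theorem jfn_mid {r K : ℕ} {sn : ℕ → ℝ → ℝ} {G : Set ℝ} {vn v w X φ lam kf : ℝ} {v₀ : ℕ → ℝ}
    (H : JfN r sn G vn w X φ lam kf v₀ K) (hv : v ∈ G) (h1 : vn < v) (h2 : v ≤ w)
    (hfl : ∀ i < r, |sn i v - sn i vn - (v - vn)| ≤ φ) : JfN r sn G vn v X φ lam kf v₀ K where
  vG := H.vG
  wG := hv
  vw := h1
  φ0 := H.φ0
  XK := by
    have h3 := H.XK
    have h4 : ((K : ℝ) + 6) * (v - vn) ≤ (K + 6) * (w - vn) :=
      mul_le_mul_of_nonneg_left (by linarith) (by positivity)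
    linarith
  φX := H.φX
  kfX := H.kfX
  lamk := by
    have := H.lamk
    linarith
  l1 := H.l1
  fl := hfl
  v₀G := H.v₀G

/-- **The supplier of the mutual information at the stages.** -/
theorem ipY_of_tw {r : ℕ} (hr : 1 ≤ r) {h : ℝ} {Sl : ℕ → ℝ} {κ : ℕ → Kg} (hκ : ∀ l < r, κ l = .one)
    (ha1 : 1 < Sl r) (hb0 : 0 < Sl (r + 1)) (hab : Sl (r + 1) < Sl r) :
    IpY r h Sl κ (TwQ : PropG (r + 2) TwX) := by
  classical
  intro al hal K₀ hK₀ S₀ hS₀ D M x τ hst
  obtain ⟨a, ha⟩ : ∃ a, a = Sl r := ⟨_, rfl⟩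
  obtain ⟨b, hb⟩ : ∃ b, b = Sl (r + 1) := ⟨_, rfl⟩
  obtain ⟨K, hK⟩ : ∃ K, K = max D D * max 1 D := ⟨_, rfl⟩
  rw [← ha] at hst hab ha1
  rw [← hb] at hst hab hb0
  rw [← hK] at hst
  have ha0 : 0 < a := by linarith only [ha1]
  have hab' : 0 < a - b := by linarith only [hab]
  -- the stages
  have hxa : ∀ k ≤ M, x k ≤ a := by
    intro k
    induction k with
    | zero =>
      intro _
      exact hst.x0.le
    | succ k ih =>
      intro hk
      exact (hst.xs k (by omega)).le.trans (ih (by omega))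
  have hxs : ∀ k < M, x (k + 1) < a := fun k hk => (hst.xs k hk).trans_le (hxa k hk.le)
  have hτ1 : ∀ k < M, 1 ≤ τ (k + 1) := fun k hk => (hst.pos (k + 1) (by omega)).2.1
  have hx0 : ∀ k < M, 0 < x (k + 1) := fun k hk => (hst.pos (k + 1) (by omega)).1
  have hRa : ∀ k, a * stR a x τ k = (a - x (k + 1)) * τ (k + 1) := fun k => by
    unfold stR
    field_simp
  have hR0 : ∀ k < M, 0 < stR a x τ k := fun k hk => by
    have h1 := hxs k hk
    have h2 := hτ1 k hk
    unfold stR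
    have : 0 < (a - x (k + 1)) * τ (k + 1) := mul_pos (by linarith only [h1]) (by linarith only [h2])
    positivity
  obtain ⟨TB, hTB0, hTB⟩ := fin_bd2 M 1 (fun k _ => τ (k + 1))
  obtain ⟨RB, hRB0, hRB⟩ := fin_bd2 M 1 (fun k _ => a * stR a x τ k)
  obtain ⟨ω, hω⟩ : ∃ ω : ℕ → ℕ → ℝ, ω = fun (k i : ℕ) => if (i : ℝ) < a then
    (a - x (k + 1)) * τ (k + 1) / (a - i) else τ (k + 1) := ⟨_, rfl⟩
  obtain ⟨ΩB, hΩ0, hΩ⟩ := fin_bd2 M (K + 3) ω
  have hbR : ∀ k < M, b * stR a x τ k ≤ RB := fun k hk =>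
    (mul_le_mul_of_nonneg_right hab.le (hR0 k hk).le).trans (hRB k hk 0 one_pos)
  refine ⟨TB + 1 + (b * ΩB + RB + 20) / (a - b), 1, 0, fun _ => 0, fun _ => 0, le_rfl,
    fun k hk => absurd hk (Nat.not_lt_zero k), ?_⟩
  intro Tn hTn S₂ hS₂ δ N₀ hδ
  have hTn' : b * ΩB + RB + 20 ≤ (a - b) * (Tn - TB - 1) := by
    have h1 : (b * ΩB + RB + 20) / (a - b) ≤ Tn - TB - 1 := by linarith only [hTn]
    rw [div_le_iff₀ hab'] at h1
    linarith only [h1]
  have hbΩ : 0 ≤ b * ΩB := mul_nonneg hb0.le hΩ0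
  have hTn1 : TB + 1 ≤ Tn := by
    have : 0 ≤ (b * ΩB + RB + 20) / (a - b) := div_nonneg (by linarith only [hbΩ, hRB0]) hab'.le
    linarith only [hTn, this]
  obtain ⟨η₀, hη0, hη⟩ := fin_lo M (fun k => δ k * stR a x τ k)
    fun k hk => mul_pos (hδ k hk).1 (hR0 k hk)
  obtain ⟨U₀, hU₀⟩ : ∃ U₀ : ℝ, U₀ = a * (ΩB + Tn) + a * TB + RB + 2 := ⟨_, rfl⟩
  have hTn0 : 0 < Tn := by linarith only [hTn1, hTB0]
  have haΩ : 0 ≤ a * (ΩB + Tn) := mul_nonneg ha0.le (by linarith only [hΩ0, hTn0])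
  have haTB : 0 ≤ a * TB := mul_nonneg ha0.le hTB0
  have hU₀0 : 0 ≤ U₀ := by linarith only [hU₀, haΩ, haTB, hRB0]
  refine ⟨8 * (r + 1) * (ΩB + 2 + U₀) + 2 * ((K + 6) * Tn) + 32 * (r + 1), ?_⟩
  intro X hX
  have hr0 : (0 : ℝ) ≤ r := Nat.cast_nonneg r
  have hK0 : (0 : ℝ) ≤ K := Nat.cast_nonneg K
  have hM0 : (0 : ℝ) ≤ M := Nat.cast_nonneg M
  have hXa : 8 * (r + 1) * (ΩB + 2 + U₀) ≤ X := by
    have h1 : 0 ≤ 2 * (((K : ℝ) + 6) * Tn) := by positivity
    linarith only [h1, hX, hr0]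
  have hX0 : 0 < X := by
    have h1 : 0 ≤ 2 * (((K : ℝ) + 6) * Tn) := by positivity
    have h2 : 0 ≤ 8 * ((r : ℝ) + 1) * (ΩB + 2 + U₀) := by positivity
    linarith only [h1, hX, h2, hr0]
  have hXb : 2 * ((K + 6) * Tn) ≤ X := by
    have h2 : 0 ≤ 8 * ((r : ℝ) + 1) * (ΩB + 2 + U₀) := by positivity
    linarith only [hX, h2, hr0]
  have hXc : 32 * ((r : ℝ) + 1) ≤ X := by
    have h1 : 0 ≤ 2 * (((K : ℝ) + 6) * Tn) := by positivity
    have h2 : 0 ≤ 8 * ((r : ℝ) + 1) * (ΩB + 2 + U₀) := by positivity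
    linarith only [h1, hX, h2, hr0]
  have hX1 : 1 ≤ X := by linarith only [hXc, hr0]
  have hXd : 8 * U₀ + 32 ≤ X := by
    have h1 : 0 ≤ 2 * (((K : ℝ) + 6) * Tn) := by positivity
    have h2 : 8 * ((r : ℝ) + 1) * (ΩB + 2 + U₀) = 8 * U₀ + 8 * r * (ΩB + 2 + U₀) +
      8 * (ΩB + 2) := by ring
    have h3 : 0 ≤ 8 * (r : ℝ) * (ΩB + 2 + U₀) := by positivity
    linarith only [hX, h1, h2, h3, hr0, hΩ0]
  obtain ⟨Bφ, hBφ⟩ : ∃ Bφ : ℝ, Bφ = 2 * r * M + 4 := ⟨_, rfl⟩
  have hBφ0 : 0 < Bφ := by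
    rw [hBφ]
    positivity
  refine ⟨min (1 / (M + 1)) (η₀ / (4 * Bφ)), by positivity, ?_⟩
  intro φ hφ hφ₀
  have hφM : (M + 1) * φ ≤ 1 := by
    have h1 := hφ₀.trans (min_le_left _ _)
    rw [le_div_iff₀ (by positivity)] at h1
    linarith only [h1]
  have hφB : Bφ * φ ≤ η₀ / 4 := by
    have h1 := hφ₀.trans (min_le_right _ _)
    rw [le_div_iff₀ (by positivity)] at h1
    linarith only [h1]
  have hφ1 : φ ≤ 1 := by
    have : 0 ≤ (M : ℝ) * φ := by positivity
    linarith only [hφM, this]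
  refine ⟨0, ?_⟩
  intro ℓ hℓ
  refine ⟨min (φ / 16) (η₀ / (64 * (448 * ((r + 1) * (K + 3))))), by positivity, ?_⟩
  intro e' he' he'1
  have he'φ := he'1.trans (min_le_left _ _)
  have he'η := he'1.trans (min_le_right _ _)
  obtain ⟨Nv, Vv, Kv, hKv0, hV1, hV2, hV3⟩ := fin_win
    (({0, -(Tn + 4 / b)} : Finset ℝ) ∪ ((Finset.range M).biUnion fun k =>
      (Finset.range (r + 1)).image (fun i => jfV r (-τ (k + 1)) X i)) ∪
      (Finset.range (r + 1)).image (fun i => jfV r (-Tn) X i))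
  have h3X : 0 < 3 ^ r * X := by positivity
  have h4b : 0 < 4 / b := by positivity
  refine ⟨Kv + 3 ^ r * X + TB + Tn + ΩB + 4 / b + 1, Nv, Vv, fun j hj => ?_, ?_⟩
  · have h1 := abs_le.1 (hV3 _ (hV1 j hj))
    constructor <;> linarith only [h1.1, h1.2, h3X, hTB0, hTn0, hΩ0, h4b]
  intro K' hK'
  refine ⟨min (φ / 2) (η₀ / 256), by positivity, ?_⟩
  intro ε hε hε₀ S g₀ P θ P₂ θ₂ Eb e₂ c Pt rt L T G g hG hg hdv
  have hεφ := hε₀.trans (min_le_left _ _)
  have hεη := hε₀.trans (min_le_right _ _)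
  obtain ⟨C₂, hC₂⟩ : ∃ C₂ : ℝ, C₂ = K₀ + Tn + ΩB + 1 := ⟨_, rfl⟩
  have hC₂0 : 0 < C₂ := by linarith only [hC₂, hK₀, hTn0, hΩ0]
  obtain ⟨e, he0, he1⟩ : ∃ e : ℚ, (0 : ℝ) < e ∧ (e : ℝ) < min 1 (η₀ / 4) / C₂ :=
    exists_rat_btwn (by positivity)
  rw [lt_div_iff₀ hC₂0] at he1
  have he2 : (e : ℝ) * C₂ ≤ 1 := he1.le.trans (min_le_left _ _)
  have he3 : (e : ℝ) * C₂ ≤ η₀ / 4 := he1.le.trans (min_le_right _ _)
  have he0' : 0 < e := by exact_mod_cast he0
  obtain ⟨pX, hpX⟩ : ∃ pX : ℕ → TwX, pX = fun (i : ℕ) => if (i : ℝ) < a then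
    ipX₁ r i ⌊i * b / a⌋₊ e else ipX₂ r i ⌊i * b / a⌋₊ e := ⟨_, rfl⟩
  refine ⟨pX, K + 3, fun _ => 0, fun _ => 1, fun _ _ => one_pos, ?_⟩
  intro k₀ hQ
  obtain ⟨kM, hkM⟩ : ∃ kM : ℝ, kM = ∑ i ∈ range (K + 3), (k₀ i : ℝ) := ⟨_, rfl⟩
  have hkM0 : 0 ≤ kM := by
    rw [hkM]
    exact Finset.sum_nonneg fun _ _ => Nat.cast_nonneg _
  have hkMi : ∀ i < K + 3, (k₀ i : ℝ) ≤ kM := fun i hi => by
    rw [hkM]
    exact Finset.single_le_sum (f := fun i => (k₀ i : ℝ)) (fun _ _ => Nat.cast_nonneg _)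
      (Finset.mem_range.2 hi)
  obtain ⟨Q₁, hQ₁⟩ : ∃ Q₁ : ℝ, Q₁ = (kM + 1) * (C₂ + 3 ^ r * X + RB + 2) := ⟨_, rfl⟩
  have hQ₁0 : 0 < Q₁ := by
    rw [hQ₁]
    positivity
  refine ⟨1 / Q₁, by positivity, ?_⟩
  intro q t y hq hy N A V N' V' Rc hAV hV' pf hpf k hk e₀ μ hμ S' hne hs Rc' hLab Ψ E₂ r₂ E rd
    En Rn K₁ hE hP hU hN i hi1 hi2 hi3 j hj1 hj2 hj3 hij
  rw [← ha] at hP hj1 hj2 hij ⊢
  rw [← hb] at hP hj1 hj2 hij ⊢
  rw [← hK] at hP hi3 hj3 ⊢
  have hq0 := Rc'.q0
  have hqQ : Q₁ * q < 1 := by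
    rw [lt_div_iff₀ hQ₁0] at hq
    linarith only [hq]
  have hiK : i < K + 3 := by omega
  have hki := hkMi i hiK
  have hk1 : (0 : ℝ) < (k₀ i : ℝ) + 1 := by positivity
  have hqb : ((k₀ i : ℝ) + 1) * ((C₂ + 3 ^ r * X + RB + 2) * q) < 1 := by
    refine lt_of_le_of_lt ?_ hqQ
    rw [hQ₁, mul_assoc]
    exact mul_le_mul_of_nonneg_right (by linarith only [hki]) (by positivity)
  have hqc : (C₂ + 3 ^ r * X + RB + 2) * q ≤ 1 / ((k₀ i : ℝ) + 1) := by
    rw [le_div_iff₀ hk1]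
    linarith only [hqb]
  have hTBk : τ (k + 1) ≤ TB := hTB k hk 0 one_pos
  have hRBk : a * stR a x τ k ≤ RB := hRB k hk 0 one_pos
  have hbRk := hbR k hk
  have hτk := hτ1 k hk
  have hxk := hx0 k hk
  have hRk := hR0 k hk
  have hRak := hRa k
  have hΩk := hΩ k hk i hiK
  have hηk := hη k hk
  obtain ⟨R, hR⟩ : ∃ R, R = stR a x τ k := ⟨_, rfl⟩
  obtain ⟨τ', hτ'⟩ : ∃ τ', τ' = τ (k + 1) := ⟨_, rfl⟩
  obtain ⟨x', hx'⟩ : ∃ x', x' = x (k + 1) := ⟨_, rfl⟩
  obtain ⟨oq, hoq⟩ : ∃ oq, oq = ω k i := ⟨_, rfl⟩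
  rw [← hR] at hP hRBk hbRk hRk hRak hηk ⊢
  rw [← hτ'] at hP hTBk hτk hRak hE ⊢
  rw [← hx'] at hxk hRak hi1 hj1
  rw [← hoq] at hΩk
  have hia : (i : ℝ) ≤ a := hi2.trans (hxa k hk.le)
  -- the windows
  obtain ⟨v, hv⟩ : ∃ v, v = t + -τ' * q := ⟨_, rfl⟩
  obtain ⟨vn, hvn⟩ : ∃ vn, vn = t + -Tn * q := ⟨_, rfl⟩
  have hv' : v = t - τ' * q := by rw [hv]; ring
  have hvn' : vn = t - Tn * q := by rw [hvn]; ring
  have hwin' : ∀ w ∈ (({0, -(Tn + 4 / b)} : Finset ℝ) ∪ ((Finset.range M).biUnion fun k =>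
      (Finset.range (r + 1)).image (fun i => jfV r (-τ (k + 1)) X i)) ∪
      (Finset.range (r + 1)).image (fun i => jfV r (-Tn) X i)), ∃ j' < N', V' j' = w := by
    intro w hw
    obtain ⟨j, hj, h1⟩ := hV2 w hw
    obtain ⟨j', hj', h2⟩ := hV' j hj
    exact ⟨j', hj', h2.trans h1⟩
  have hwin : ∀ w ∈ (({0, -(Tn + 4 / b)} : Finset ℝ) ∪ ((Finset.range M).biUnion fun k =>
      (Finset.range (r + 1)).image (fun i => jfV r (-τ (k + 1)) X i)) ∪
      (Finset.range (r + 1)).image (fun i => jfV r (-Tn) X i)), t + w * q ∈ G := by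
    intro w hw
    obtain ⟨j', hj', h2⟩ := hwin' w hw
    have := Rc'.memG.2 j' hj'
    rwa [h2] at this
  have htG : t ∈ G := by
    have := hwin 0 (by simp)
    simpa using this
  have hnj : ∀ i ≤ r, jfV r (-Tn) X i ∈ (({0, -(Tn + 4 / b)} : Finset ℝ) ∪
      ((Finset.range M).biUnion fun k =>
      (Finset.range (r + 1)).image (fun i => jfV r (-τ (k + 1)) X i)) ∪
      (Finset.range (r + 1)).image (fun i => jfV r (-Tn) X i)) := fun i hi =>
    Finset.mem_union_right _ (Finset.mem_image.2 ⟨i, Finset.mem_range.2 (by omega), rfl⟩)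
  have hnG : ∀ i ≤ r, t + jfV r (-Tn) X i * q ∈ G := fun i hi => hwin _ (hnj i hi)
  have hvnG : vn ∈ G := by
    have := hnG 0 (Nat.zero_le r)
    rw [jfV_zero] at this
    rw [hvn]
    exact this
  have hjG : ∀ i ≤ r, t + jfV r (-τ') X i * q ∈ G := fun i hi => by
    refine hwin _ (Finset.mem_union_left _ (Finset.mem_union_right _
      (Finset.mem_biUnion.2 ⟨k, Finset.mem_range.2 hk, ?_⟩)))
    rw [hτ']
    exact Finset.mem_image.2 ⟨i, Finset.mem_range.2 (by omega), rfl⟩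
  have hvG : v ∈ G := by
    have := hjG 0 (Nat.zero_le r)
    rw [jfV_zero] at this
    rw [hv]
    exact this
  -- the chain
  have hQi := hQ i hiK
  have hch : ChG S' c (r + 1) (fun l w => L l w w) G := (hQi.ch (r + 1) (by omega)).sub hs
  have hφX : 32 * ((r : ℝ) + 1) * φ ≤ X := by
    have : 32 * ((r : ℝ) + 1) * φ ≤ 32 * (r + 1) * 1 :=
      mul_le_mul_of_nonneg_left hφ1 (by positivity)
    linarith only [this, hXc]
  have Uj : JfU r K (-τ') X φ (3 ^ r * X + Tn) (3 ^ r * X) :=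
    { vv0 := by linarith only [hτk]
      φ0 := hφ
      XK := by
        have h1 : ((K : ℝ) + 6) * τ' ≤ (K + 6) * Tn :=
          mul_le_mul_of_nonneg_left (by linarith only [hTBk, hTn1]) (by positivity)
        rw [neg_neg]
        linarith only [h1, hXb]
      φX := hφX
      kfX := le_rfl
      lamk := by linarith only [hTBk, hTn1] }
  have Un : JfU r K (-Tn) X φ (3 ^ r * X + Tn) (3 ^ r * X) :=
    { vv0 := by linarith only [hTn0]
      φ0 := hφ
      XK := by
        rw [neg_neg]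
        exact hXb
      φX := hφX
      kfX := le_rfl
      lamk := by linarith only [] }
  have Jn := Rc'.jf hκ (by omega) Uj htG hjG
    (by linarith only [hK', hKv0, hTn0, hΩ0, hTBk, hTB0, h4b])
    (by linarith only [hK', hKv0, hTn0, hΩ0, hTBk, hTB0, h4b]) (by linarith only [hεφ])
  have Jm := Rc'.jf hκ (by omega) Un htG hnG
    (by linarith only [hK', hKv0, hTn0, hΩ0, hTBk, hTB0, h4b])
    (by linarith only [hK', hKv0, hTn0, hΩ0, hTBk, hTB0, h4b]) (by linarith only [hεφ])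
  rw [← hv] at Jn
  rw [← hvn] at Jm
  -- the numbers
  have hτq : 0 < τ' * q := mul_pos (by linarith only [hτk]) hq0
  have hTBq : τ' * q ≤ TB * q := mul_le_mul_of_nonneg_right hTBk hq0.le
  have hTnq : (TB + 1) * q ≤ Tn * q := mul_le_mul_of_nonneg_right hTn1 hq0.le
  have hΩq : oq * q ≤ ΩB * q := mul_le_mul_of_nonneg_right hΩk hq0.le
  have hΩq0 : 0 ≤ ΩB * q := mul_nonneg hΩ0 hq0.le
  have hε1 : ε * q ≤ 1 / 2 * q := mul_le_mul_of_nonneg_right (by linarith only [hεφ, hφ1]) hq0.le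
  have h4bq : 0 < 4 / b * q := mul_pos h4b hq0
  have hKq : (Tn + 4 / b + ΩB + 1) * q ≤ K' * q := mul_le_mul_of_nonneg_right
    (by linarith only [hK', hKv0, h3X, hTB0, h4b]) hq0.le
  have hbd : ∀ l < r + 2, ∀ w w' : ℝ, t - Tn * q - 4 / b * q ≤ w → w ≤ t + ΩB * q →
      t - Tn * q - 4 / b * q ≤ w' → w' ≤ t + ΩB * q →
      L l w' w' ≤ L l w w + Sl l * (w' - w) + 2 * (ε * q) := by
    intro l hl w w' h1 h2 h3 h4
    have k1 := abs_le.1 (Rc'.dL l hl w (abs_le.2
      ⟨by linarith only [h1, h2, h3, h4, hKq, hq0, hΩq0], by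
        linarith only [h1, h2, h3, h4, hKq, hq0, hTnq, hTBq, hτq, h4bq]⟩))
    have k2 := abs_le.1 (Rc'.dL l hl w' (abs_le.2
      ⟨by linarith only [h1, h2, h3, h4, hKq, hq0, hΩq0], by
        linarith only [h1, h2, h3, h4, hKq, hq0, hTnq, hTBq, hτq, h4bq]⟩))
    linarith only [k1.1, k1.2, k2.1, k2.2]
  have hbdr := hbd r (by omega)
  have hbdn := hbd (r + 1) (by omega)
  rw [← ha] at hbdr
  rw [← hb] at hbdn
  have hoq1 : τ' ≤ oq := by
    rw [hoq, hω]
    dsimp only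
    split_ifs with h1
    · rw [le_div_iff₀ (by linarith only [h1])]
      rw [← hx', ← hτ']
      have h2 : 0 ≤ τ' := by linarith only [hτk]
      have h3 := mul_le_mul_of_nonneg_left (show a - i ≤ a - x' by linarith only [hi1]) h2
      linarith only [h3]
    · exact hτ'.le
  have hoq2 : τ' * q ≤ oq * q := mul_le_mul_of_nonneg_right hoq1 hq0.le
  obtain ⟨o, ho⟩ : ∃ o, o = v + oq * q := ⟨_, rfl⟩
  have hto : t ≤ o := by linarith only [ho, hv', hoq2]
  have hot : o ≤ t + ΩB * q := by linarith only [ho, hv', hΩq, hτq]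
  have hvt : v ≤ t := by linarith only [hv', hτq]
  have hvnv : vn + q ≤ v := by linarith only [hv', hvn', hTnq, hTBq]
  obtain ⟨ρ, hρ⟩ : ∃ ρ, ρ = C₂ * q := ⟨_, rfl⟩
  have hρ0 : 0 < ρ := by
    rw [hρ]
    positivity
  have hnear := abs_le.1 Rc'.near
  have hρe : C₂ * q = K₀ * q + Tn * q + ΩB * q + q := by
    rw [hC₂]
    ring
  have hvng : g - ρ ≤ vn := by linarith only [hρ, hρe, hnear.1, hvn', hΩq0, hq0]
  have hvg : g - ρ ≤ v := by linarith only [hvng, hvnv, hq0]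
  have hog : o ≤ g + ρ := by
    linarith only [hρ, hρe, hnear.2, hot, hq0, mul_pos hTn0 hq0]
  have hkρ : ((k₀ i : ℝ) + 1) * ρ < 1 := by
    refine lt_of_le_of_lt ?_ hqb
    rw [hρ]
    exact mul_le_mul_of_nonneg_left (mul_le_mul_of_nonneg_right
      (by linarith only [h3X, hRB0]) hq0.le) hk1.le
  have heρ : e * ρ ≤ q := by
    have h1 := mul_le_mul_of_nonneg_right he2 hq0.le
    rw [hρ]
    linarith only [h1]
  have heρ2 : e * ρ ≤ η₀ / 4 * q := by
    have h1 := mul_le_mul_of_nonneg_right he3 hq0.le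
    rw [hρ]
    linarith only [h1]
  -- the additional digits
  obtain ⟨s, hs'⟩ : ∃ s : ℝ, s = (k + 1) * φ * q := ⟨_, rfl⟩
  have hs0 : 0 ≤ s := by
    rw [hs']
    positivity
  have hkM' : (k : ℝ) + 1 ≤ M := by exact_mod_cast hk
  have hsM : s ≤ M * φ * q := by
    rw [hs']
    exact mul_le_mul_of_nonneg_right (mul_le_mul_of_nonneg_right hkM' hφ.le) hq0.le
  have hsq : s ≤ q := by
    have h1 : M * φ ≤ 1 := by linarith only [hφM, hφ]
    have h2 := mul_le_mul_of_nonneg_right h1 hq0.le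
    linarith only [h2, hsM]
  obtain ⟨U, hUq⟩ : ∃ U, U = U₀ * q := ⟨_, rfl⟩
  have hU0 : 0 ≤ U := by
    rw [hUq]
    positivity
  have hUe : U = a * (ΩB + Tn) * q + a * (TB * q) + RB * q + 2 * q := by
    rw [hUq, hU₀]
    ring
  have haTBq : 0 ≤ a * (TB * q) := mul_nonneg ha0.le (mul_nonneg hTB0 hq0.le)
  have hRBq : 0 ≤ RB * q := mul_nonneg hRB0 hq0.le
  have haΩq : 0 ≤ a * (ΩB + Tn) * q := mul_nonneg haΩ hq0.le
  have hXU : 8 * (r + 1) * ((o - v) + e * ρ + s + U) ≤ X * q := by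
    have h1 : (o - v) + e * ρ + s + U ≤ (ΩB + 2 + U₀) * q := by
      linarith only [ho, hΩq, heρ, hsq, hUq]
    have h2 := mul_le_mul_of_nonneg_left h1 (by positivity : (0 : ℝ) ≤ 8 * (r + 1))
    have h3 := mul_le_mul_of_nonneg_right hXa hq0.le
    linarith only [h2, h3]
  have hC₂q : 0 < C₂ * q := mul_pos hC₂0 hq0
  have h3Xq : 0 < 3 ^ r * X * q := mul_pos h3X hq0
  have hκ₀ : 3 ^ r * (X * q) + s ≤ 1 / ((k₀ i : ℝ) + 1) := by
    linarith only [hqc, hsq, hC₂q, hRBq, hq0]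
  have hRq : a * (R * q) ≤ RB * q := by
    have h1 := mul_le_mul_of_nonneg_right hRBk hq0.le
    linarith only [h1]
  have hbRq : b * (R * q) ≤ RB * q := by
    have h1 := mul_le_mul_of_nonneg_right hbRk hq0.le
    linarith only [h1]
  have hu : a * (o - vn) ≤ U := by
    have h1 : o - vn ≤ (ΩB + Tn) * q := by linarith only [hot, hvn']
    have h2 := mul_le_mul_of_nonneg_left h1 ha0.le
    linarith only [h2, hUe, haTBq, hRBq, hq0]
  have hx0 : vn + e * ρ ≤ v := by linarith only [hvnv, heρ]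
  have hgap : (b * ΩB + RB + 20) * q ≤ (a - b) * (v - vn) := by
    have h1 := mul_le_mul_of_nonneg_right hTn' hq0.le
    have h2 : (Tn - TB - 1) * q ≤ v - vn := by linarith only [hv', hvn', hTBq, hq0]
    have h3 := mul_le_mul_of_nonneg_left h2 hab'.le
    linarith only [h1, h3]
  have hεq0 : 0 ≤ ε * q := by positivity
  have hja : (i : ℝ) * b / a = j := by
    rw [hij]
    field_simp
  have hfl : ⌊(i : ℝ) * b / a⌋₊ = j := by
    rw [hja]
    exact Nat.floor_natCast j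
  have r1 : t - Tn * q - 4 / b * q ≤ vn := by linarith only [hvn', h4bq]
  have r2 : t - Tn * q - 4 / b * q ≤ v := by linarith only [hvn', h4bq, hvnv, hq0]
  have r3 : v ≤ t + ΩB * q := by linarith only [hvt, hΩq0]
  have r4 : vn ≤ t + ΩB * q := by linarith only [hvt, hΩq0, hvnv, hq0]
  have r5 : t - Tn * q - 4 / b * q ≤ o := by linarith only [r2, hvt, hto]
  have r6 : t - Tn * q - 4 / b * q ≤ t := by linarith only [r2, hvt]
  have r7 : t ≤ t + ΩB * q := by linarith only [hΩq0]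
  have hj0 : (0 : ℝ) ≤ j := Nat.cast_nonneg j
  have hi0 : (0 : ℝ) ≤ i := Nat.cast_nonneg i
  have hjb' : (j : ℝ) ≤ b := by
    have h1 : (j : ℝ) * a ≤ b * a := by
      rw [← hij]
      have := mul_le_mul_of_nonneg_right hia hb0.le
      linarith only [this]
    exact le_of_mul_le_mul_right h1 ha0
  have hφq0 : 0 < φ * q := mul_pos hφ hq0
  have hφq1 : φ * q ≤ q := by
    have := mul_le_mul_of_nonneg_right hφ1 hq0.le
    linarith only [this]
  have hεφq : 2 * (ε * q) ≤ φ * q := by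
    have := mul_le_mul_of_nonneg_right hεφ hq0.le
    linarith only [this]
  have hXq : 8 * U + 32 * q ≤ X * q := by
    have h1 := mul_le_mul_of_nonneg_right hXd hq0.le
    rw [hUq]
    linarith only [h1]
  have haTn : a * (v - vn) ≤ a * (Tn * q) := by
    refine mul_le_mul_of_nonneg_left ?_ ha0.le
    linarith only [hv', hvn', hτq]
  have hUe' : U = a * (ΩB * q) + a * (Tn * q) + a * (TB * q) + RB * q + 2 * q := by
    rw [hUe]
    ring
  have haΩq' : 0 ≤ a * (ΩB * q) := mul_nonneg ha0.le hΩq0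
  have haTnq : Tn * q ≤ a * (Tn * q) := by
    have := mul_le_mul_of_nonneg_right ha1.le (mul_pos hTn0 hq0).le
    linarith only [this]
  -- the data of the family
  obtain ⟨jn, hjn, hjn'⟩ := hwin' (-Tn) (by
    have := hnj 0 (Nat.zero_le r)
    rwa [jfV_zero] at this)
  obtain ⟨jw, hjw, hjw'⟩ := hwin' (-(Tn + 4 / b)) (by simp)
  obtain ⟨⟨En', -, hAn⟩, -⟩ := hLab jn hjn
  obtain ⟨⟨Ew, -, hAw⟩, -⟩ := hLab jw hjw
  rw [hjn', ← hvn] at hAn
  rw [hjw'] at hAw
  have hex : ∀ N : ℝ, Exs S' (qJet (r + 2) ((range (r + 1)).image c) (c (r + 1)) j vn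
      (L (r + 1) vn vn) N) := by
    intro N
    refine Pool.V0F.exs_jetE (hAn.w0.trans hAn.wu) hAn.E0 fun e he =>
      ⟨D, Bas.mono 0 (hAn.lb e he) ?_⟩
    rintro J - F A ⟨V, z, z', g, gu, h1, -⟩
    exact ⟨V, z, z', g, h1⟩
  obtain ⟨w₀, hw₀⟩ : ∃ w₀, w₀ = t + -(Tn + 4 / b) * q := ⟨_, rfl⟩
  rw [← hw₀] at hAw
  have hw₀' : w₀ = t - Tn * q - 4 / b * q := by
    rw [hw₀]
    ring
  have hLvn : 3 * q ≤ L (r + 1) vn vn := by
    have h1 := hbdn vn w₀ r1 r4 hw₀'.ge (by linarith only [hw₀', hΩq0, h4bq, mul_pos hTn0 hq0])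
    have h2 := hAw.pk0
    have h3 : b * (w₀ - vn) = -(4 * q) := by
      rw [hw₀', hvn']
      field_simp
      ring
    linarith only [h1, h2, h3, hε1]
  have hgvn : q ≤ v - vn := by linarith only [hvnv]
  have hLv : L (r + 1) vn vn + b * (v - vn) ≤ L (r + 1) v v + 2 * (ε * q) := by
    have h1 := hbdn v vn r2 r3 r1 r4
    linarith only [h1]
  have hbv : 0 ≤ b * (v - vn) := mul_nonneg hb0.le (by linarith only [hgvn, hq0])
  have hjv : j * (v - vn) ≤ b * (v - vn) :=
    mul_le_mul_of_nonneg_right hjb' (by linarith only [hgvn, hq0])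
  have hjv0 : 0 ≤ j * (v - vn) := mul_nonneg hj0 (by linarith only [hgvn, hq0])
  have hbΩq : 0 ≤ b * ΩB * q := mul_nonneg hbΩ hq0.le
  have hab2 : b * (v - vn) ≤ a * (v - vn) :=
    mul_le_mul_of_nonneg_right hab.le (by linarith only [hgvn, hq0])
  obtain ⟨εT, hεT⟩ : ∃ εT, εT = η₀ / 64 * q := ⟨_, rfl⟩
  have hεT0 : 0 < εT := by
    rw [hεT]
    positivity
  obtain ⟨lr, hlr⟩ : ∃ lr, lr = (a - j) * (v - vn) - 3 * (φ * q) := ⟨_, rfl⟩
  have Jx : JfN r (fun l x => L l x x) G vn v (X * q) (φ * q) ((3 ^ r * X + Tn) * q)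
      (3 ^ r * X * q) (fun i => t + jfV r (-Tn) X (i + 1) * q) K := by
    refine jfn_mid Jm hvG (by linarith only [hvnv, hq0]) hvt fun l hl => ?_
    have hS1 : Sl l = 1 := by
      have h2 := Rc'.kd l (by omega)
      rw [hκ l hl] at h2
      exact h2
    have h1 := hbd l (by omega) v vn r2 r3 r1 r4
    have h2 := hbd l (by omega) vn v r1 r4 r2 r3
    rw [hS1] at h1 h2
    exact abs_le.2 ⟨by linarith only [h1, hεφq], by linarith only [h2, hεφq]⟩
  rw [← hv, ← hvn] at hP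
  have hTC : TwC S' c r (fun l x => L l x x) G v t vn (X * q) (φ * q) ((3 ^ r * X + Tn) * q)
      (3 ^ r * X * q) (fun i => t + jfV r (-τ') X (i + 1) * q)
      (fun i => t + jfV r (-Tn) X (i + 1) * q) K
      (fun l => nX r (fun l x => L l x x) v (X * q) l + s)
      (fun l => nX r (fun l x => L l x x) v (X * q) l + s - v) Ψ K K₁ (c (r + 1)) (ℓ * q) (e' * q)
      E₂ r₂ (L (r + 1) v v) En Rn (L (r + 1) vn vn) (L (r + 1) vn vn) E rd (fun i => L i v v)
      (nX r (fun l x => L l x x) v (X * q)) j lr εT :=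
    { hr := hr
      ch := hch
      H := Jn
      Hn := Jx
      pa :=
        { lh := fun l hl => by
            have h1 : φ * q ≤ s := by
              rw [hs']
              have : 0 ≤ (k : ℝ) * (φ * q) := by positivity
              linarith only [this]
            linarith only [h1]
          lv := fun l hl => by
            have h1 : φ * q ≤ s := by
              rw [hs']
              have : 0 ≤ (k : ℝ) * (φ * q) := by positivity
              linarith only [this]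
            linarith only [h1]
          uh := fun l hl => by linarith only [hXq, hsq, hU0, hq0]
          uv := fun l hl => by linarith only [hXq, hsq, hU0, hq0] }
      ps := hP.psl
      dc := hP.dcp
      ex2 := hex
      e0 := mul_pos he' hq0
      eφ := by
        have := mul_le_mul_of_nonneg_right he'φ hq0.le
        linarith only [this]
      ε0 := hεT0
      eε := by
        rw [le_div_iff₀ (by positivity), hεT]
        rw [le_div_iff₀ (by positivity)] at he'η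
        have hjK : (j : ℝ) + 1 ≤ K + 3 := by
          have : j + 1 ≤ K + 3 := by omega
          exact_mod_cast this
        have h1 : e' * (64 * (448 * ((r + 1) * (j + 1)))) ≤
            e' * (64 * (448 * ((r + 1) * (K + 3)))) := by
          refine mul_le_mul_of_nonneg_left ?_ he'.le
          have := mul_le_mul_of_nonneg_left hjK (by positivity : (0 : ℝ) ≤ r + 1)
          linarith only [this]
        have h2 := mul_le_mul_of_nonneg_right (h1.trans he'η) hq0.le
        linarith only [h2]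
      L :=
        { l0 := by
            linarith only [hlr, hgap, hjv, hφq1, hq0, hbΩq, hRBq]
          l1 := by
            have h1 := hbdr v vn r2 r3 r1 r4
            show L r vn vn + lr + 2 * (φ * q) + j * (v - vn) ≤ L r v v
            linarith only [h1, hlr, hεφq]
          l2 := by
            linarith only [hlr, hjv0, haTn, hUe', hXq, haΩq', haTBq, hRBq, hq0, haTnq,
              mul_pos hTn0 hq0]
          l3 := by
            have h1 := hbdr vn v r1 r4 r2 r3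
            rw [← min_add_add_right]
            refine le_min ?_ ?_
            · show L r v v + 2 * (φ * q) + (v - vn) ≤ L r v v + X * q
              linarith only [hv', hvn', hτq, hUe', hXq, haΩq', haTBq, hRBq, hq0, haTnq, hφq1,
                mul_pos hTn0 hq0]
            · show L r v v + 2 * (φ * q) + (v - vn) ≤ L r vn vn + X * q
              linarith only [h1, haTn, hv', hvn', hτq, hUe', hXq, haΩq', haTBq, hRBq, hq0, haTnq,
                hφq1, hεφq, mul_pos hTn0 hq0] }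
      P := le_min (by linarith only [hLvn, hφq1, hq0])
        (by linarith only [hLvn, hφq1, hq0, hLv, hbv, hεφq]) }
  have hPr : ∀ z : ℝ, v ≤ z → z - v ≤ ΩB * q → z ≤ t + ΩB * q → PrN (fun l x => L l x x) r i j v vn
      (X * q) (φ * q) lr (min (L r v v) (L r v v)) (min (L (r + 1) vn vn) (L (r + 1) vn vn))
      (min (L (r + 1) vn vn) (L (r + 1) v v)) (L r z z - i * z) (L (r + 1) z z - j * z) := by
    intro z hz1 hz2 hz3
    have h1 := hbdr v z r2 r3 (r2.trans hz1) hz3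
    have h2 := hbdn v z r2 r3 (r2.trans hz1) hz3
    have h3 := hbdn vn z r1 r4 (r2.trans hz1) hz3
    have h4 := mul_le_mul_of_nonneg_left hz2 ha0.le
    have h5 := mul_le_mul_of_nonneg_left hz2 hb0.le
    have h6 : 0 ≤ (i : ℝ) * (z - v) := mul_nonneg hi0 (by linarith only [hz1])
    have h7 : 0 ≤ (j : ℝ) * (z - v) := mul_nonneg hj0 (by linarith only [hz1])
    have h8 : b * (ΩB * q) ≤ a * (ΩB * q) := mul_le_mul_of_nonneg_right hab.le hΩq0
    refine ⟨?_, ?_, ?_⟩
    · rw [min_self]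
      linarith only [h1, h4, h6, hφq1, hεφq, hUe', hXq, haTBq, hRBq, hq0, haTnq, haΩq',
        mul_pos hTn0 hq0]
    · rw [min_self]
      linarith only [h3, h5, h7, hφq1, hεφq, hgap, hlr, hRBq, hq0]
    · rw [← min_add_add_right]
      refine le_min ?_ ?_
      · linarith only [h3, h5, h7, h8, hab2, haTn, hφq1, hεφq, hUe', hXq, haTBq, hRBq, hq0, haTnq,
          haΩq', mul_pos hTn0 hq0]
      · linarith only [h2, h5, h7, h8, hφq1, hεφq, hUe', hXq, haTBq, hRBq, hq0, haTnq,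
          haΩq', mul_pos hTn0 hq0]
  have hPrt := hPr t hvt (by linarith only [hv', hoq2, hΩq]) r7
  have hγq : 8 * (ε * q) ≤ η₀ / 32 * q := by
    have := mul_le_mul_of_nonneg_right hεη hq0.le
    linarith only [this]
  have hη0q : 0 < η₀ * q := mul_pos hη0 hq0
  have ht1 : t ≤ 1 := by
    have h1 := Rc'.t1
    have h2 : 0 ≤ Tn * q := (mul_pos hTn0 hq0).le
    linarith only [h1, h2, hKq, hΩq0, hq0, h4bq]
  have hlog : Real.log 2 ≤ 1 := Real.log_two_lt_d9.le.trans (by norm_num)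
  have hlog0 : 0 ≤ Real.log 2 := (Real.log_pos one_lt_two).le
  -- the two record comparison
  obtain ⟨n₁, hn₁⟩ : ∃ n₁ : ℝ, n₁ = L r v v + a * (R * q) - i * v := ⟨_, rfl⟩
  obtain ⟨n₂, hn₂⟩ : ∃ n₂ : ℝ, n₂ = L (r + 1) v v + b * (R * q) - j * v := ⟨_, rfl⟩
  have htwo : ∃ kk : ℝ, 0 < kk ∧ TwO S' Ψ (c r) (c (r + 1)) v i j n₁ n₂ (L r t t - i * t)
      (L (r + 1) t t - j * t) t (paQ (r + 2) c r v (fun l => L l v v)
        (fun l => nX r (fun l w => L l w w) v (X * q) l + s)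
        (fun l => nX r (fun l w => L l w w) v (X * q) l + s - v)) (e' * q) kk
      (e * ρ + η₀ / 8 * q) := by
    rcases hia.lt_or_eq with hlt | heq
    · have hjb : (j : ℝ) < b := by
        have h1 : (j : ℝ) * a < b * a := by
          rw [← hij]
          have := mul_lt_mul_of_pos_right hlt hb0
          linarith only [this]
        exact lt_of_mul_lt_mul_right h1 ha0.le
      have hQ1 : TwQ (ipX₁ r i j e) (k₀ i) S P θ c Pt rt L T κ G g := by
        have : pX i = ipX₁ r i j e := by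
          rw [hpX]
          dsimp only
          rw [if_pos hlt, hfl]
        rw [← this]
        exact hQi
      have hoe : (a - i) * oq = a * R := by
        rw [hoq, hω]
        dsimp only
        rw [if_pos hlt, hRak, ← hx', ← hτ']
        field_simp [(sub_pos.2 hlt).ne']
      have hoe2 : (b - j) * oq = b * R := by
        have h1 : (b - j) * a = b * (a - i) := by
          have := hij
          linarith only [this]
        have h2 : ((b - j) * oq) * a = (b * R) * a := by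
          calc ((b - j) * oq) * a = ((b - j) * a) * oq := by ring
            _ = b * ((a - i) * oq) := by rw [h1]; ring
            _ = (b * R) * a := by rw [hoe]; ring
        exact mul_right_cancel₀ ha0.ne' h2
      have hoeq : a * (o - v) = a * (R * q) + i * (o - v) := by
        have h1 : (a - i) * oq * q = a * R * q := by rw [hoe]
        rw [ho]
        linarith only [h1]
      have hoeq2 : b * (o - v) = b * (R * q) + j * (o - v) := by
        have h1 : (b - j) * oq * q = b * R * q := by rw [hoe2]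
        rw [ho]
        linarith only [h1]
      have g1 := hbdr v o r2 r3 r5 hot
      have g2 := hbdn vn o r1 r4 r5 hot
      have hN1 := ntw_1 (X := X * q) (s := s) (U := U) (ρ := ρ) (v := v) (vn := vn) (t := t) (o := o)
        hQ1 (by rw [ha]; exact hdv r (by omega)) (by rw [hb]; exact hdv (r + 1) (by omega)) hκ hlt
        hjb hab he0' hρ0 hkρ hvG hvnG hvg hvng hvt hto hog hs0 hXU hU0 hκ₀ ?_ hu hx0 ?_
      · have hN2 := NgW.sub hs hN1
        have hX1 := two_a hTC Rc'.tmc hvt ht1 (Tn := fun x => L (r + 1) x x) rfl hN2 le_rfl le_rfl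
          (hPr o (by linarith only [hvt, hto]) (by linarith only [ho, hΩq]) hot) hPrt hPrt.s
          (η₀ / 64 * q)
        refine ⟨η₀ / 64 * q, by positivity, two_dig Rc'.tmc hX1 (γ₁ := 2 * (ε * q))
          (γ₂ := 2 * (ε * q)) ?_ ?_ ?_⟩
        · have g3 := hbdr o v r5 hot r2 r3
          rw [hn₁]
          exact abs_le.2 ⟨by linarith only [g1, g3, hoeq], by linarith only [g1, g3, hoeq]⟩
        · have g3 := hbdn v o r2 r3 r5 hot
          have g4 := hbdn o v r5 hot r2 r3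
          rw [hn₂]
          exact abs_le.2 ⟨by linarith only [g3, g4, hoeq2], by linarith only [g3, g4, hoeq2]⟩
        · have h1 := mul_le_mul_of_nonneg_left hlog
            (by linarith only [hεq0] : 0 ≤ 2 * (2 * (ε * q) + 2 * (ε * q)))
          linarith only [h1, hγq, hεT, hη0q]
      · have h1 : o - v ≤ ΩB * q := by linarith only [ho, hΩq]
        have h2 := mul_le_mul_of_nonneg_left h1 ha0.le
        have h3 : 0 ≤ a * (Tn * q) := mul_nonneg ha0.le (mul_pos hTn0 hq0).le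
        linarith only [g1, h2, h3, hUe, haTBq, hRBq, hq0, hε1]
      · have h1 : b * (o - v) ≤ b * ΩB * q := by
          have := mul_le_mul_of_nonneg_left (show o - v ≤ ΩB * q by linarith only [ho, hΩq]) hb0.le
          linarith only [this]
        linarith only [g2, hgap, h1, hε1, heρ, hRBq, hq0, mul_nonneg
          (Nat.cast_nonneg j : (0 : ℝ) ≤ j) (by linarith only [hvt, hto] : (0 : ℝ) ≤ o - v)]
    · have hjb : (j : ℝ) = b := by
        rw [heq] at hij
        have h1 : (j : ℝ) * a = b * a := by linarith only [hij]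
        exact mul_right_cancel₀ ha0.ne' h1
      have hQ2 : TwQ (ipX₂ r i j e) (k₀ i) S P θ c Pt rt L T κ G g := by
        have : pX i = ipX₂ r i j e := by
          rw [hpX]
          dsimp only
          rw [if_neg (by rw [heq]; exact lt_irrefl a), hfl]
        rw [← this]
        exact hQi
      have hoτ : oq = τ' := by
        rw [hoq, hω]
        dsimp only
        rw [if_neg (by rw [heq]; exact lt_irrefl a), ← hτ']
      have hot' : o = t := by
        rw [ho, hv', hoτ]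
        ring
      have g2 := hbdn vn v r1 r4 r2 r3
      have g3 : a * (τ' * q) ≤ a * (TB * q) := mul_le_mul_of_nonneg_left hTBq ha0.le
      have hN1 := ntw_2 (X := X * q) (s := s) (U := U) (ρ := ρ) (v := v) (vn := vn) (t := t) (o := o)
        hQ2 (by rw [ha]; exact hdv r (by omega)) (by rw [hb]; exact hdv (r + 1) (by omega)) hκ heq
        hjb hab he0' hρ0 hkρ hvG hvnG hvg hvng hvt hto hog hs0 hXU hU0 hκ₀ (nB := n₁) (nW := n₂)
        ?_ ?_ hu hx0 ?_
      · have hN2 := NgW.sub hs hN1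
        have hPn : PrN (fun l x => L l x x) r i j v vn (X * q) (φ * q) lr
            (min (L r v v) (L r v v)) (min (L (r + 1) vn vn) (L (r + 1) vn vn))
            (min (L (r + 1) vn vn) (L (r + 1) v v)) n₁ n₂ := by
          refine ⟨?_, ?_, ?_⟩
          · rw [min_self, hn₁]
            linarith only [hRq, hφq1, hUe', hXq, haTBq, hRBq, hq0, haTnq, haΩq',
              mul_pos hTn0 hq0]
          · rw [min_self, hn₂]
            linarith only [g2, hbRq, hφq1, hεφq, hgap, hlr, hbΩq, hRBq, hq0]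
          · rw [← min_add_add_right, hn₂]
            refine le_min ?_ ?_
            · linarith only [g2, hbRq, hab2, haTn, hφq1, hεφq, hUe', hXq, haTBq, hRBq, hq0, haTnq,
                haΩq', mul_pos hTn0 hq0]
            · linarith only [hbRq, hφq1, hεφq, hUe', hXq, haTBq, hRBq, hq0, haTnq,
                haΩq', mul_pos hTn0 hq0]
        have hX1 := two_b hTC Rc'.tmc hvt ht1 (Tn := fun x => L (r + 1) x x) rfl hN2 hPn
          (L r t t - i * t) (L (r + 1) t t - j * t) (η₀ / 64 * q)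
        refine ⟨η₀ / 64 * q, by positivity, two_dig Rc'.tmc hX1 (γ₁ := 0) (γ₂ := 0)
          (by rw [sub_self, abs_zero]) (by rw [sub_self, abs_zero]) ?_⟩
        linarith only [hεT, hη0q]
      · rw [hn₁]
        linarith only [hRq, hqc, hC₂q, h3Xq, hq0]
      · rw [hn₁, heq]
        have h1 : a * (o - v) = a * (τ' * q) := by
          rw [hot', hv']
          ring
        linarith only [h1, g3, hRq, hUe, haΩq, hq0]
      · rw [hn₂]
        have h1 : b * (ΩB * q) = b * ΩB * q := by ring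
        have h2 : 0 ≤ b * (ΩB * q) := mul_nonneg hb0.le hΩq0
        linarith only [g2, hgap, hbRq, heρ, hε1, h1, h2, hq0]
  obtain ⟨kk, hkk, htw⟩ := htwo
  have hη8 : 0 < η₀ / 8 * q := by positivity
  have hK' : (0 : ℝ) ≤ (K : ℕ) := Nat.cast_nonneg K
  refine ⟨MxP v (min kk (η₀ / 8 * q)), ?_, fun HC => ?_⟩
  · rw [← hv]
    exact mxp_ex Rc'.tmc (le_min hkk.le hη8.le)
  rw [← hv] at HC ⊢
  have hxc : ∀ (A B : ℝ) (n : ℕ), B ≤ A → ∀ l, n ≤ l → xcf A B q n n ≤ xcf A B q n l := by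
    intro A B n hAB l hl
    unfold xcf
    rw [if_pos le_rfl]
    split_ifs
    · exact le_rfl
    · exact mul_le_mul_of_nonneg_right hAB hq0.le
  have h1a : (a - i) * τ' - φ ≤ a * R := by
    have h1 := mul_le_mul_of_nonneg_left (show a - i ≤ a - x' by linarith only [hi1])
      (by linarith only [hτk] : 0 ≤ τ')
    linarith only [h1, hRak, hφ]
  have hbR' : b * R = (b - x' * (b / a)) * τ' := by
    have h1 : b * R = (b / a) * (a * R) := by field_simp
    rw [h1, hRak]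
    field_simp
  have h1b : (b - j) * τ' - φ ≤ b * R := by
    have h1 := mul_le_mul_of_nonneg_left (show b - j ≤ b - x' * (b / a) by linarith only [hj1])
      (by linarith only [hτk] : 0 ≤ τ')
    linarith only [h1, hbR', hφ]
  have g1 := hbdr v t r2 r3 r6 r7
  have g2 := hbdn v t r2 r3 r6 r7
  have htv : t - v = τ' * q := by linarith only [hv']
  refine ip2_pair Rc'.tmc hch Jn (fun l hl => (hpf l hl).1) hs0 (hsq.trans ?_) ?_ hP.psl hi3 hj3
    (hxc _ _ i h1a) (hxc _ _ j h1b) (γ₁ := (φ + 2 * ε) * q) (γ₂ := (φ + 2 * ε) * q)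
    (m₁ := L r t t - i * t) (m₂ := L (r + 1) t t - j * t) (κ := e * ρ + η₀ / 8 * q) ?_ ?_
    (by positivity) (by positivity)
    (le_min hkk.le hη8.le) le_rfl ?_ (two_anti (min_le_left _ _) ?_) HC ?_
  · have := mul_le_mul_of_nonneg_right hX1 hq0.le
    linarith only [this]
  · intro l hl j hj
    unfold NfS
    rw [← hτ', ← hv, hs']
    ring
  · unfold xcf
    rw [if_pos le_rfl]
    have e1 : t = v + τ' * q := by linarith only [hv']
    have e2 : (i : ℝ) * t = i * v + i * (τ' * q) := by rw [e1]; ring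
    have e3 : a * (t - v) = a * (τ' * q) := by rw [htv]
    linarith only [g1, e2, e3]
  · unfold xcf
    rw [if_pos le_rfl]
    have e1 : t = v + τ' * q := by linarith only [hv']
    have e2 : (j : ℝ) * t = j * v + j * (τ' * q) := by rw [e1]; ring
    have e3 : b * (t - v) = b * (τ' * q) := by rw [htv]
    linarith only [g2, e2, e3]
  · have := mul_le_mul_of_nonneg_right he'φ hq0.le
    linarith only [this, hφq0]
  · rw [← hn₁, ← hn₂]
    exact htw
  · have b1 : 2 * r * (s * Real.log 2) ≤ 2 * r * (M * φ * q) := by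
      refine mul_le_mul_of_nonneg_left ?_ (by positivity)
      have := mul_le_mul hsM hlog hlog0 (by positivity)
      linarith only [this]
    have b2 : ((φ + 2 * ε) * q + (φ + 2 * ε) * q) * Real.log 2 ≤ 4 * φ * q := by
      have h1 : (φ + 2 * ε) * q ≤ (2 * φ) * q :=
        mul_le_mul_of_nonneg_right (by linarith only [hεφ]) hq0.le
      have h2 : 0 ≤ (φ + 2 * ε) * q := by positivity
      have := mul_le_mul_of_nonneg_left hlog
        (by linarith only [h2] : 0 ≤ (φ + 2 * ε) * q + (φ + 2 * ε) * q)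
      linarith only [this, h1]
    have b3 : Bφ * φ * q ≤ η₀ / 4 * q := mul_le_mul_of_nonneg_right hφB hq0.le
    have b4 : Bφ * φ * q = 2 * r * (M * φ * q) + 4 * φ * q := by
      rw [hBφ]
      ring
    have b5 : η₀ * q ≤ δ k * (R * q) := by
      have := mul_le_mul_of_nonneg_right hηk hq0.le
      linarith only [this]
    have b6 : 0 < δ k * (R * q) := mul_pos (hδ k hk).1 (mul_pos hRk hq0)
    have b7 : 0 ≤ (K : ℝ) * (δ k * (R * q)) := mul_nonneg hK' b6.le
    have b8 : min kk (η₀ / 8 * q) ≤ η₀ / 8 * q := min_le_right _ _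
    have b9 : 0 < η₀ * q := mul_pos hη0 hq0
    linarith only [b1, b2, b3, b4, b5, b6, b7, b8, b9, heρ2]

end Pool.PN18
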