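import Pool.Agent.H18.PN.Pxa
import Pool.Agent.H71.AJW.Ones

/-!
# The jets of order above the slope, for the labels of a family of pairs

`self_F1`: the jets of a closed polynomial over the chain, small at the samples, are few bits given the
far digits of the chain (the own jets of a coordinate of the chain over labels which contain it).
`Dcp2`: the second label of a family is a label closed at an earlier window plus a closed polynomial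
over the chain. `fw2_hiN`: then its own jets of order above the slope are few bits.
-/

set_option autoImplicit false

namespace Pool.PN18

open Finset Real MvPolynomial
open Pool.Agent.H49.Ent Pool.Agent.H32.Dense Pool.STK Pool.KA Pool.KSAT Pool.K2S Pool.PB Pool.GEN
open Pool.S6C Pool.RCD Pool.LA91 Pool.OWN68 Pool.AJW Pool.AJX Pool.CHT
open Pool.GRD (LbP)
open Pool.UNJ (ceI Tub)

section self

variable {m : ℕ} {S : PCl m} {C₀ : ℝ} {α γ : ∀ J : ℕ, Fam m J → Type} {U : Type}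
  {f : ∀ (J : ℕ) (F : Fam m J), F.Ω → α J F} {y : ∀ (J : ℕ) (F : Fam m J), F.Ω → γ J F}
  {Q : Qt m U} {c : ℕ → Fin m} {r₀ r : ℕ} {v a lam : ℝ} {rd p n : ℕ → ℝ}

/-- **The jets of a closed polynomial over the chain, small at the samples**, as the own jets of a
coordinate of the chain over labels which contain it. -/
theorem self_F1 (htm : TmC S C₀) {k : Fin m} (hk : k ∈ (range r).image c) {j : ℕ}
    {σ u₁ e₁ η h N P : ℝ} {lv : ℕ → ℝ}
    (hch : Chn S c r₀ r v v u₁ p rd) (hva : v ≤ a) (ha : a ≤ 1) (hσ : 0 < σ)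
    (hlam : 0 < lam) (hl1 : v + lam ≤ 1)
    (hlv : ∀ l, r₀ ≤ l → l < r → 0 < lv l)
    (h1 : ∀ l, r₀ ≤ l → l < r → p l + lv l + σ ≤ n l)
    (h2 : ∀ l, r₀ ≤ l → l < r → lv l + σ ≤ lam)
    (h3 : ∀ l, r₀ ≤ l → l < r → ∀ l', r₀ ≤ l' → l' < l → lv l + σ ≤ lv l')
    (h4 : N + j * v + σ ≤ P + lam)
    (h5 : ∀ l, r₀ ≤ l → l < r → N + j * v + σ ≤ P + lv l)
    (hf : ∀ (J : ℕ) (F : Fam m J), ∃ φ : α J F → PtT F, ∀ ω, ptr F J ω = φ (f J F ω))
    (hy : Kn ((range r₀).image c) (v + lam) lam y) (he₁ : 0 < e₁) (hh : 0 < h)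
    (hex : Exs S (qJets m c r₀ r j (fun _ _ => v) (fun l _ => p l)
      (fun l j' => n l - (j' : ℕ) * v)))
    (hV : F1 S f (vg a) y Q (qJets m c r₀ r j (fun _ _ => v) (fun l _ => p l)
      (fun l j' => n l - (j' : ℕ) * v)) e₁ η) :
    F1 S f (vg a) y Q (qJet m ((range r).image c) k j v P N) (min e₁ (σ / 8)) (η + h) := by
  have hw1 : v < 1 := hch.u0
  have he : 0 < min e₁ (σ / 8) := lt_min he₁ (by linarith)
  have hmin : min lam (v + lam - v) = lam := by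
    have e1 : v + lam - v = lam := by ring
    rw [e1, min_self]
  have a3 : F1 S f (vg a) y
      ((qJets m c r₀ r j (fun _ _ => v) (fun l _ => p l) (fun l j' => n l - (j' : ℕ) * v)).prod
        (qJet m ((range r).image c) k j v P N))
      (qJet m ((range r).image c) k j v P N) (min e₁ (σ / 8)) h := by
    refine (F1.up hva ha (jetN_F1 htm hch (lv := lv) (p₀ := v + lam) (lam := lam) (σ₀ := σ)
      (wv := fun _ _ => v) (pv := fun l _ => p l) (Nv := fun l j' => n l - (j' : ℕ) * v)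
      (fun _ _ _ _ _ => le_rfl) le_rfl le_rfl (by linarith) hl1 hlam hσ hlv ?_ ?_ ?_ le_rfl ?_ ?_
      hf hy hh)).mono (min_le_right _ _) le_rfl
    · intro l x y j' _
      linarith [h1 l x y]
    · intro l x y j' _
      rw [hmin, min_self]
      linarith [h2 l x y]
    · intro l x y j' _ l' x' y'
      rw [min_self]
      linarith [h3 l x y l' x' y']
    · rw [hmin, min_self]
      exact h4
    · intro l x y
      rw [min_self]
      exact h5 l x y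
  have a4 : F1 S f (vg a) y
      (qJets m c r₀ r j (fun _ _ => v) (fun l _ => p l) (fun l j' => n l - (j' : ℕ) * v))
      (qJet m ((range r).image c) k j v P N) (min e₁ (σ / 8)) h := by
    intro K
    refine Bas.mono 0 ((a3 (K + 1)).and (Pool.GRW.tmc_bas htm one_pos)) ?_
    rintro J - F A ⟨H, hA, -⟩ u u' hu hu'
    have hcl := isLaw_cond F.isLaw hA
    have hP : (qJet m ((range r).image c) k j v P N).P (K + 1) (min e₁ (σ / 8)) J F A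
        (fun _ => (0 : ℤ)) := by
      refine ⟨?_, Unit, fun _ => (), fun _ => (), fun _ => MvPolynomial.X (some k),
        ⟨fun _ => ?_, fun _ b b' _ hb => ?_, fun _ _ => rfl, fun ω _ => ?_⟩, fun ω _ => ?_⟩
      · have h7 := cnt_le_of_abs (p := F.p) (u := fun _ : F.Ω => (0 : ℤ)) (A := A) (B := 0) le_rfl
          (fun _ _ => by simp)
        refine h7.trans ?_
        have h8 : (0 : ℝ) ≤ ((K + 1 : ℕ) : ℝ) * J := by positivity
        have h9 := Real.one_le_exp h8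
        linarith
      · rw [totalDegree_X]
        omega
      · rw [eval_X, eval_X]
        exact hb k hk
      · rw [eval_X]
        show |F.x ω k - F.x ω k| ≤ _
        rw [sub_self, abs_zero]
        positivity
      · have h7 : ojet F k j (MvPolynomial.X (some k)) ω = 0 := by
          unfold ojet
          rw [jet_sub, sub_self]
        show (0 : ℤ) = ⌊(2 : ℝ) ^ (N * J) * ojet F k j (MvPolynomial.X (some k)) ω⌋
        rw [h7, mul_zero, Int.floor_zero]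
    obtain ⟨V, z, hz, h6⟩ := H (fun ω => (u ω, (0 : ℤ))) u'
      ⟨(qJets m _ _ _ _ _ _ _).mono (Nat.le_succ K) le_rfl hu, hP⟩
      ((qJet m _ _ _ _ _ _).mono (Nat.le_succ K) le_rfl hu')
    refine ⟨V, z, hz, le_trans (CH_mono_cond hcl.nonneg fun ω ω' _ _ hh => ?_) h6⟩
    simp only [Prod.mk.injEq] at hh ⊢
    exact ⟨⟨hh.1, trivial⟩, hh.2⟩
  exact F1.trans htm hex he (hV.mono (min_le_left _ _) le_rfl) a4

end self

section dcp

variable {m : ℕ} {S : PCl m} {C₀ : ℝ} {α γ : ∀ J : ℕ, Fam m J → Type}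
  {f : ∀ (J : ℕ) (F : Fam m J), F.Ω → α J F} {y : ∀ (J : ℕ) (F : Fam m J), F.Ω → γ J F} {a : ℝ}
  {U₀ : Type} {Qu : Qt m U₀} {Ψ : Fm2 m}

/-- **The second label of the family is a label closed at the window `v₀` plus a closed polynomial of
the window `v` over the coordinates in `I₁`.** -/
def Dcp2 (Ψ : Fm2 m) (I₁ I₂ : Finset (Fin m)) (κ₂ : Fin m) (K₁ : ℕ) (v₀ v E₀ R₀ P₀ e : ℝ) :
    Prop :=
  ∀ (J : ℕ) (F : Fam m J) (A : F.Ω → Prop) (V C : Type) (z : PtT F → V) (z' : LnT F → V)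
    (G₁ G₂ : V → MvPolynomial (Option (Fin m)) ℝ) (cc : LnT F → C),
    Ψ J F A V C z z' G₁ G₂ cc →
    ∃ (V₀ : Type) (z₀ : PtT F → V₀) (z₀' : LnT F → V₀)
      (G₀ : V₀ → MvPolynomial (Option (Fin m)) ℝ) (H : V → MvPolynomial (Option (Fin m)) ℝ),
      LbOK F I₂ κ₂ K₁ ⌊E₀ * J⌋₊ J ⌊v₀ * J⌋₊ ⌊R₀ * J⌋₊ ⌊(P₀ - e) * J⌋₊ A z₀ z₀' G₀ ∧
      (∀ v, (H v).totalDegree ≤ K₁) ∧
      (∀ v, ∀ b b' : Option (Fin m) → ℝ, b none = b' none →
        (∀ i ∈ I₁, b (some i) = b' (some i)) → eval b (H v) = eval b' (H v)) ∧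
      ∀ ω, A ω → G₂ (z' (slam F ⌊v * J⌋₊ ω)) =
        G₀ (z₀' (slam F ⌊v₀ * J⌋₊ ω)) + H (z' (slam F ⌊v * J⌋₊ ω))

/-- The size of a jet over a label with a bounded gradient. -/
theorem big_jet (m K j : ℕ) (N E R : ℝ) : ∃ B : ℝ, 0 ≤ B ∧ ∃ J₁ : ℕ, ∀ J ≥ J₁,
    ∀ (F : Fam m J) (I : Finset (Fin m)) (k : Fin m) (w : ℝ) (P : ℕ) (A : F.Ω → Prop) (V : Type)
      (z : PtT F → V) (z' : LnT F → V) (G : V → MvPolynomial (Option (Fin m)) ℝ),
      LbOK F I k K ⌊E * J⌋₊ J ⌊w * J⌋₊ ⌊R * J⌋₊ P A z z' G → ∀ ω, A ω →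
      |(2 : ℝ) ^ (N * J) * ojet F k j (G (z' (slam F ⌊w * J⌋₊ ω))) ω| ≤ 2 ^ (B * J) := by
  obtain ⟨C, hC, hbig⟩ := ojet_big m K j
  have hC0 : 0 < C := by linarith
  obtain ⟨B, hB⟩ : ∃ B : ℝ, B = |N| + |E| + j * |R| + 1 := ⟨_, rfl⟩
  obtain ⟨J₁, hJ₁⟩ := exists_nat_ge C
  refine ⟨B, by rw [hB]; positivity, J₁, fun J hJ F I k w P A V z z' G hlb ω hω => ?_⟩
  have hJ0 : (0 : ℝ) ≤ J := Nat.cast_nonneg J
  have hJ1 : (J₁ : ℝ) ≤ J := by exact_mod_cast hJ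
  have h2 := hbig J F I k _ _ _ _ A V z z' G hlb ω hω
  obtain ⟨o, ho⟩ : ∃ o, o = ojet F k j (G (z' (slam F ⌊w * J⌋₊ ω))) ω := ⟨_, rfl⟩
  rw [← ho] at h2 ⊢
  have c1 : C ≤ 2 ^ (J : ℝ) := by
    have e1 : (J : ℝ) < 2 ^ J := by exact_mod_cast Nat.lt_two_pow_self
    rw [Real.rpow_natCast]
    linarith
  rw [abs_mul, abs_of_pos (by positivity)]
  have a2 : (2 : ℝ) ^ ⌊E * J⌋₊ ≤ 2 ^ (|E| * J) := by
    rw [← Real.rpow_natCast]
    refine Real.rpow_le_rpow_of_exponent_le (by norm_num) ?_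
    have h5 : ⌊E * J⌋₊ ≤ ⌊|E| * J⌋₊ :=
      Nat.floor_le_floor (mul_le_mul_of_nonneg_right (le_abs_self E) hJ0)
    have h6 := Nat.floor_le (a := |E| * J) (by positivity)
    have h7 : ((⌊E * J⌋₊ : ℕ) : ℝ) ≤ ((⌊|E| * J⌋₊ : ℕ) : ℝ) := by exact_mod_cast h5
    linarith
  have a3 : ((2 : ℝ) ^ ⌊R * J⌋₊) ^ j ≤ 2 ^ (j * (|R| * J)) := by
    have h8 : (2 : ℝ) ^ ⌊R * J⌋₊ ≤ 2 ^ (|R| * J) := by
      rw [← Real.rpow_natCast]
      refine Real.rpow_le_rpow_of_exponent_le (by norm_num) ?_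
      have h5 : ⌊R * J⌋₊ ≤ ⌊|R| * J⌋₊ :=
        Nat.floor_le_floor (mul_le_mul_of_nonneg_right (le_abs_self R) hJ0)
      have h6 := Nat.floor_le (a := |R| * J) (by positivity)
      have h7 : ((⌊R * J⌋₊ : ℕ) : ℝ) ≤ ((⌊|R| * J⌋₊ : ℕ) : ℝ) := by exact_mod_cast h5
      linarith
    refine (pow_le_pow_left₀ (by positivity) h8 j).trans (le_of_eq ?_)
    rw [← Real.rpow_natCast, ← Real.rpow_mul (by norm_num)]
    congr 1
    ring
  have b3 : (0 : ℝ) < 2 ^ (N * J) := Real.rpow_pos_of_pos (by norm_num) _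
  calc (2 : ℝ) ^ (N * J) * |o| ≤ 2 ^ (N * J) * (2 ^ (J : ℝ) * 2 ^ (|E| * J) *
        2 ^ (j * (|R| * J))) := by
        refine mul_le_mul_of_nonneg_left (h2.trans ?_) b3.le
        exact mul_le_mul (mul_le_mul c1 a2 (by positivity) (by positivity)) a3 (by positivity)
          (by positivity)
    _ = 2 ^ (N * J + ((J : ℝ) + |E| * J + j * (|R| * J))) := by
        rw [Real.rpow_add (by norm_num), Real.rpow_add (by norm_num), Real.rpow_add (by norm_num)]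
    _ ≤ 2 ^ (B * J) := by
        refine Real.rpow_le_rpow_of_exponent_le (by norm_num) ?_
        have := mul_le_mul_of_nonneg_right (le_abs_self N) hJ0
        rw [hB]
        linarith

/-- **The own jets of order above the slope** over the second label of a family: few bits, if the
jets of closed polynomials over the chain, small at the samples, are few bits. -/
theorem fw2_hiN (htm : TmC S C₀) {I₁ I₂ : Finset (Fin m)} {k κ₂ : Fin m} (hk : k ∈ I₁) {K K₁ j : ℕ}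
    {v₀ v E₀ R₀ P₀ E₂ r₂ p₂ P N e e' η δ : ℝ} (hv0 : 0 ≤ v₀) (hv1 : v₀ < 1)
    (hlb : ∀ (J : ℕ) (F : Fam m J) (A : F.Ω → Prop) (V C : Type) (z : PtT F → V) (z' : LnT F → V)
      (G₁ G₂ : V → MvPolynomial (Option (Fin m)) ℝ) (c : LnT F → C), Ψ J F A V C z z' G₁ G₂ c →
      LbOK F I₂ κ₂ K ⌊E₂ * J⌋₊ J ⌊v * J⌋₊ ⌊r₂ * J⌋₊ ⌊(p₂ - e) * J⌋₊ A z z' G₂)
    (hD : Dcp2 Ψ I₁ I₂ κ₂ K₁ v₀ v E₀ R₀ P₀ e) (he : 0 < e) (hee : 2 * e ≤ e') (hP0 : e' ≤ P)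
    (hP : P ≤ P₀) (hP2 : P ≤ p₂) (hN : N + j * v₀ ≤ P₀) (hδ : 0 < δ) (h8 : e ≤ δ / 8)
    (hF : F1 S f (vg a) y Qu (qJet m I₁ k j v P N) e' η) :
    Fw2 S f a y Qu Ψ (τ := fun _ _ _ _ => ℤ)
      (fun J F _ _ z' _ G₂ _ ω => ⌊(2 : ℝ) ^ (N * J) * ojet F κ₂ j
        (G₂ (z' (slam F ⌊v * J⌋₊ ω))) ω⌋) e (η + δ) := by
  classical
  obtain ⟨B₀, hB₀, JA, hbig₀⟩ := big_jet m K₁ j N E₀ R₀
  obtain ⟨B₂, hB₂, JB, hbig₂⟩ := big_jet m K j N E₂ r₂
  obtain ⟨B, hB⟩ : ∃ B : ℝ, B = max B₀ B₂ + 3 := ⟨_, rfl⟩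
  have hBp : 0 < B := by
    rw [hB]
    have := le_max_left B₀ B₂
    linarith
  obtain ⟨M, hM⟩ := exists_nat_ge B
  intro K₀
  obtain ⟨K', hK'⟩ : ∃ K' : ℕ, K' = K₀ + K₁ + M + 1 := ⟨_, rfl⟩
  have hMK : (M : ℝ) ≤ K' := by rw [hK']; push_cast; nlinarith [Nat.cast_nonneg (α := ℝ) K₀, Nat.cast_nonneg (α := ℝ) K₁]
  have hl2 : 0 < Real.log 2 := Real.log_pos one_lt_two
  have hl21 : Real.log 2 ≤ 1 := by
    have := Real.log_two_lt_d9
    linarith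
  obtain ⟨ζ, hζ⟩ : ∃ ζ : ℝ, ζ = δ / (2 * ((K' : ℝ) + 1)) := ⟨_, rfl⟩
  have hζ0 : 0 < ζ := by
    rw [hζ]
    positivity
  have hζK : ζ * K' ≤ δ / 2 := by
    rw [hζ, div_mul_eq_mul_div, div_le_iff₀ (by positivity)]
    have : (0 : ℝ) ≤ K' := Nat.cast_nonneg K'
    nlinarith
  obtain ⟨J₃, hJ₃⟩ := exists_nat_ge ((Real.log 2 + Real.log 9) / (δ / 4))
  obtain ⟨J₄, hJ₄⟩ := exists_nat_ge (1 / e)
  obtain ⟨J₀, hJ₀⟩ : ∃ J₀ : ℕ, J₀ = JA + JB + J₃ + J₄ + 1 := ⟨_, rfl⟩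
  refine Bas.mono J₀ (((hF K').and (own_cls htm I₂ κ₂ j K₁ hv0 hv1 hζ0 (show 0 < δ / 8 by
    linarith))).and (Pool.GRW.tmc_bas htm one_pos)) ?_
  rintro J hJ F A ⟨⟨H, hbad⟩, hA, -⟩ V C z z' G₁ G₂ cc hΨ u₀ hu₀
  have hJ0 : (0 : ℝ) ≤ J := Nat.cast_nonneg J
  have hJ1 : (1 : ℝ) ≤ J := by exact_mod_cast (by omega : 1 ≤ J)
  have hJ3 : (J₃ : ℝ) ≤ J := by exact_mod_cast (by omega : J₃ ≤ J)
  have hJ4 : (J₄ : ℝ) ≤ J := by exact_mod_cast (by omega : J₄ ≤ J)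
  have heJ : 1 ≤ e * J := by
    have h1 : 1 / e ≤ J := hJ₄.trans hJ4
    rw [div_le_iff₀ he] at h1
    linarith
  have f4 : Real.log 2 + Real.log 9 ≤ δ / 4 * J := by
    have : (Real.log 2 + Real.log 9) / (δ / 4) ≤ J := hJ₃.trans hJ3
    rw [div_le_iff₀ (by positivity)] at this
    linarith
  have hlb' := hlb J F A V C z z' G₁ G₂ cc hΨ
  obtain ⟨V₀, z₀, z₀', G₀, Hp, hl0, hdeg, hdep, heq⟩ := hD J F A V C z z' G₁ G₂ cc hΨ
  obtain ⟨oH, hoH⟩ : ∃ oH : F.Ω → ℝ, oH = fun ω =>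
    jet j (Hp (z' (slam F ⌊v * J⌋₊ ω))) (bt F ω) (bd F ω) := ⟨_, rfl⟩
  obtain ⟨o₀, ho₀⟩ : ∃ o₀ : F.Ω → ℝ, o₀ = fun ω =>
    ojet F κ₂ j (G₀ (z₀' (slam F ⌊v₀ * J⌋₊ ω))) ω := ⟨_, rfl⟩
  obtain ⟨o₂, ho₂⟩ : ∃ o₂ : F.Ω → ℝ, o₂ = fun ω =>
    ojet F κ₂ j (G₂ (z' (slam F ⌊v * J⌋₊ ω))) ω := ⟨_, rfl⟩
  have hsp : ∀ ω, A ω → o₂ ω = o₀ ω - oH ω := by
    intro ω hω
    rw [ho₂, ho₀, hoH]
    show ojet F κ₂ j (G₂ (z' (slam F ⌊v * J⌋₊ ω))) ω = ojet F κ₂ j (G₀ (z₀' (slam F ⌊v₀ * J⌋₊ ω))) ω -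
      jet j (Hp (z' (slam F ⌊v * J⌋₊ ω))) (bt F ω) (bd F ω)
    rw [heq ω hω]
    unfold ojet
    rw [← jet_sub]
    congr 1
    ring
  have hb0 : ∀ ω, A ω → |(2 : ℝ) ^ (N * J) * o₀ ω| ≤ 2 ^ ((B - 3) * J) := by
    intro ω hω
    rw [ho₀]
    refine (hbig₀ J (by omega) F I₂ κ₂ v₀ _ A V₀ z₀ z₀' G₀ hl0 ω hω).trans ?_
    refine Real.rpow_le_rpow_of_exponent_le (by norm_num) (mul_le_mul_of_nonneg_right ?_ hJ0)
    rw [hB]
    linarith [le_max_left B₀ B₂]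
  have hb2 : ∀ ω, A ω → |(2 : ℝ) ^ (N * J) * o₂ ω| ≤ 2 ^ ((B - 3) * J) := by
    intro ω hω
    rw [ho₂]
    refine (hbig₂ J (by omega) F I₂ κ₂ v _ A V z z' G₂ hlb' ω hω).trans ?_
    refine Real.rpow_le_rpow_of_exponent_le (by norm_num) (mul_le_mul_of_nonneg_right ?_ hJ0)
    rw [hB]
    linarith [le_max_right B₀ B₂]
  obtain ⟨T, hT⟩ : ∃ T : ℝ, T = 2 ^ ((B - 3) * J) := ⟨_, rfl⟩
  have hT1 : 1 ≤ T := by
    rw [hT]
    refine Real.one_le_rpow (by norm_num) (mul_nonneg ?_ hJ0)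
    rw [hB]
    have := le_max_left B₀ B₂
    linarith
  rw [← hT] at hb0 hb2
  have hexp : 8 * T ≤ Real.exp ((K' : ℕ) * J) := by
    have e1 : (8 : ℝ) = 2 ^ (3 : ℝ) := by norm_num
    have e2 : (2 : ℝ) ^ (3 : ℝ) ≤ 2 ^ (3 * (J : ℝ)) :=
      Real.rpow_le_rpow_of_exponent_le (by norm_num) (by linarith)
    have e3 : 8 * T ≤ 2 ^ (B * J) := by
      calc 8 * T ≤ 2 ^ (3 * (J : ℝ)) * T := mul_le_mul_of_nonneg_right (e1.le.trans e2) (by linarith)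
        _ = 2 ^ (B * J) := by
          rw [hT, ← Real.rpow_add (by norm_num)]
          congr 1
          ring
    refine e3.trans ?_
    rw [← exp_p2]
    refine Real.exp_le_exp.2 ?_
    have e4 : B * J ≤ K' * J := mul_le_mul_of_nonneg_right (hM.trans hMK) hJ0
    have e5 : B * J * Real.log 2 ≤ B * J * 1 := mul_le_mul_of_nonneg_left hl21 (by positivity)
    linarith
  have flr : ∀ x : ℝ, |((⌊x⌋ : ℤ) : ℝ)| ≤ |x| + 1 := by
    intro x
    have h4 := Int.floor_le x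
    have h5 := Int.lt_floor_add_one x
    rw [abs_le]
    have h6 := neg_abs_le x
    have h7 := le_abs_self x
    constructor <;> linarith
  -- the closed polynomial
  have hHp : ∀ ω, A ω → |eval (bt F ω) (Hp (z' (slam F ⌊v * J⌋₊ ω)))| ≤ 1 / 2 ^ ⌊(P - e') * J⌋₊ := by
    intro ω hω
    have a1 := hl0.pos ω hω
    have a2 := hlb'.pos ω hω
    rw [heq ω hω, map_add] at a2
    have g1 : ⌊(P - e') * J⌋₊ + 1 ≤ ⌊(P₀ - e) * J⌋₊ := by
      rw [← Nat.floor_add_one (mul_nonneg (by linarith) hJ0)]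
      refine Nat.floor_le_floor ?_
      have e1 : (P - e') * J + e * J ≤ (P₀ - e) * J := by
        rw [← add_mul]
        exact mul_le_mul_of_nonneg_right (by linarith) hJ0
      linarith
    have g2 : ⌊(P - e') * J⌋₊ + 1 ≤ ⌊(p₂ - e) * J⌋₊ := by
      rw [← Nat.floor_add_one (mul_nonneg (by linarith) hJ0)]
      refine Nat.floor_le_floor ?_
      have e1 : (P - e') * J + e * J ≤ (p₂ - e) * J := by
        rw [← add_mul]
        exact mul_le_mul_of_nonneg_right (by linarith) hJ0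
      linarith
    have i1 : (1 : ℝ) / 2 ^ ⌊(P₀ - e) * J⌋₊ ≤ 1 / 2 ^ (⌊(P - e') * J⌋₊ + 1) :=
      one_div_le_one_div_of_le (by positivity) (pow_le_pow_right₀ (by norm_num) g1)
    have i2 : (1 : ℝ) / 2 ^ ⌊(p₂ - e) * J⌋₊ ≤ 1 / 2 ^ (⌊(P - e') * J⌋₊ + 1) :=
      one_div_le_one_div_of_le (by positivity) (pow_le_pow_right₀ (by norm_num) g2)
    have i3 : (1 : ℝ) / 2 ^ (⌊(P - e') * J⌋₊ + 1) + 1 / 2 ^ (⌊(P - e') * J⌋₊ + 1) =
        1 / 2 ^ ⌊(P - e') * J⌋₊ := by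
      rw [pow_succ]
      field_simp
      norm_num
    obtain ⟨x, hx⟩ : ∃ x, x = eval (bt F ω) (G₀ (z₀' (slam F ⌊v₀ * J⌋₊ ω))) := ⟨_, rfl⟩
    obtain ⟨t, ht⟩ : ∃ t, t = eval (bt F ω) (Hp (z' (slam F ⌊v * J⌋₊ ω))) := ⟨_, rfl⟩
    rw [← hx] at a1 a2
    rw [← ht] at a2 ⊢
    have b1 := abs_le.1 (a1.trans i1)
    have b2 := abs_le.1 (a2.trans i2)
    rw [← i3, abs_le]
    constructor <;> linarith [b1.1, b1.2, b2.1, b2.2]
  obtain ⟨uH, huH⟩ : ∃ uH : F.Ω → ℤ, uH = fun ω => ⌊(2 : ℝ) ^ (N * J) * oH ω⌋ := ⟨_, rfl⟩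
  have hoj : ∀ ω, ojet F k j (MvPolynomial.X (some k) - Hp (z' (slam F ⌊v * J⌋₊ ω))) ω = oH ω := by
    intro ω
    rw [hoH]
    unfold ojet
    show jet j _ _ _ = jet j (Hp (z' (slam F ⌊v * J⌋₊ ω))) (bt F ω) (bd F ω)
    congr 1
    ring
  have hcH : (cnt F.p uH A : ℝ) ≤ Real.exp ((K' : ℕ) * J) := by
    have h7 := cnt_le_of_abs (p := F.p) (u := uH) (A := A) (B := 2 * T + 1) (by linarith) (by
      intro ω hω
      rw [huH]
      refine (flr _).trans ?_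
      have e1 : (2 : ℝ) ^ (N * J) * oH ω = 2 ^ (N * J) * o₀ ω - 2 ^ (N * J) * o₂ ω := by
        rw [hsp ω hω]
        ring
      rw [e1]
      have e2 := abs_sub (2 ^ (N * (J : ℝ)) * o₀ ω) (2 ^ (N * (J : ℝ)) * o₂ ω)
      linarith [hb0 ω hω, hb2 ω hω])
    linarith
  have hPH : (qJet m I₁ k j v P N).P K' e' J F A uH := by
    refine ⟨hcH, V, z, z', fun x => MvPolynomial.X (some k) - Hp x,
      ⟨fun x => ?_, fun x b b' hb hb' => ?_, hlb'.cls, fun ω hω => ?_⟩, fun ω _ => ?_⟩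
    · refine (totalDegree_sub (MvPolynomial.X (some k)) (Hp x)).trans (max_le ?_ ?_)
      · rw [totalDegree_X]
        omega
      · exact (hdeg x).trans (by omega)
    · rw [map_sub, map_sub, eval_X, eval_X, hb' k hk, hdep x b b' hb hb']
    · rw [map_sub, eval_X]
      have e1 : F.x ω k - (bt F ω (some k) - eval (bt F ω) (Hp (z' (slam F ⌊v * J⌋₊ ω)))) =
          eval (bt F ω) (Hp (z' (slam F ⌊v * J⌋₊ ω))) := by
        show F.x ω k - (F.x ω k - _) = _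
        ring
      rw [e1]
      exact hHp ω hω
    · rw [huH]
      show _ = ⌊(2 : ℝ) ^ (N * J) * ojet F k j (MvPolynomial.X (some k) - Hp _) ω⌋
      rw [hoj]
  obtain ⟨V₁, z₁, hz₁, hCH⟩ := H u₀ uH (Qu.mono (by omega) (by linarith) hu₀) hPH
  refine ⟨V₁, z₁, hz₁, ?_⟩
  obtain ⟨X, hX⟩ : ∃ X : F.Ω → ℤ, X = fun ω => ⌊(2 : ℝ) ^ (N * J) * o₂ ω⌋ := ⟨_, rfl⟩
  have hXe : (fun ω => ⌊(2 : ℝ) ^ (N * J) * ojet F κ₂ j (G₂ (z' (slam F ⌊v * J⌋₊ ω))) ω⌋) = X := by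
    rw [hX, ho₂]
  show CH _ (fun ω => ⌊(2 : ℝ) ^ (N * J) * ojet F κ₂ j (G₂ (z' (slam F ⌊v * J⌋₊ ω))) ω⌋) _ ≤ _
  rw [hXe]
  have hcl := isLaw_cond F.isLaw hA
  have h0 := hcl.nonneg
  have hcX : (cnt F.p X A : ℝ) ≤ Real.exp ((K' : ℕ) * J) := by
    have h7 := cnt_le_of_abs (p := F.p) (u := X) (A := A) (B := T + 1) (by linarith) (by
      intro ω hω
      rw [hX]
      refine (flr _).trans ?_
      linarith [hb2 ω hω])
    linarith
  obtain ⟨D, hDd⟩ : ∃ D : ℝ, D = 2 * 2 ^ (δ / 4 * J) + 2 := ⟨_, rfl⟩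
  have hp1 : (1 : ℝ) ≤ 2 ^ (δ / 4 * J) := by
    rw [← exp_p2]
    exact Real.one_le_exp (by positivity)
  have key := CH_near hcl X (fun ω => (uH ω, (u₀ ω, (z₁ ω, y J F ω)))) (fun x => -(x.1 : ℝ))
    (fun ω => ¬ |ojet F κ₂ j (G₀ (z₀' (slam F ⌊v₀ * J⌋₊ ω))) ω| ≤
      2 ^ ((δ / 8 + j * v₀) * J) * (1 / 2 ^ ⌊(P₀ - e) * J⌋₊)) (M := K' * J) (D := D)
    (hbad _ V₀ z₀ z₀' G₀ (LbP.of hl0)) (by positivity) (by rw [hDd]; linarith)
    (le_trans (by exact_mod_cast cnt_cond_le F.isLaw X A) hcX) (by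
      intro ω hω hgood
      rw [not_not] at hgood
      have hAω := of_cond_pos hω
      have e0 : o₀ ω = ojet F κ₂ j (G₀ (z₀' (slam F ⌊v₀ * J⌋₊ ω))) ω := by rw [ho₀]
      rw [← e0] at hgood
      have h3 : |(2 : ℝ) ^ (N * J) * o₀ ω| ≤ 2 * 2 ^ (δ / 4 * J) := by
        rw [abs_mul, abs_of_pos (by positivity)]
        have a2 := ip2_le ((P₀ - e) * J)
        have b3 : (0 : ℝ) < 2 ^ (N * J) := Real.rpow_pos_of_pos (by norm_num) _
        have b4 : (0 : ℝ) < 2 ^ ((δ / 8 + j * v₀) * J) := Real.rpow_pos_of_pos (by norm_num) _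
        calc (2 : ℝ) ^ (N * J) * |o₀ ω| ≤ 2 ^ (N * J) * (2 ^ ((δ / 8 + j * v₀) * J) *
              (2 * 2 ^ (-((P₀ - e) * J)))) := by
              refine mul_le_mul_of_nonneg_left (hgood.trans ?_) b3.le
              exact mul_le_mul_of_nonneg_left a2 b4.le
          _ = 2 * (2 ^ (N * J) * 2 ^ ((δ / 8 + j * v₀) * J) * 2 ^ (-((P₀ - e) * J))) := by ring
          _ = 2 * 2 ^ (N * J + (δ / 8 + j * v₀) * J + -((P₀ - e) * J)) := by
              rw [Real.rpow_add (by norm_num), Real.rpow_add (by norm_num)]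
          _ ≤ 2 * 2 ^ (δ / 4 * J) := by
              refine mul_le_mul_of_nonneg_left ?_ (by norm_num)
              refine Real.rpow_le_rpow_of_exponent_le (by norm_num) ?_
              have e1 : N * J + (δ / 8 + j * v₀) * J + -((P₀ - e) * J) =
                  (N + j * v₀ - P₀ + δ / 8 + e) * J := by ring
              rw [e1]
              exact mul_le_mul_of_nonneg_right (by linarith) hJ0
      have e1 : (2 : ℝ) ^ (N * J) * o₂ ω = 2 ^ (N * J) * o₀ ω - 2 ^ (N * J) * oH ω := by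
        rw [hsp ω hAω]
        ring
      rw [hX, huH]
      show |((⌊(2 : ℝ) ^ (N * J) * o₂ ω⌋ : ℤ) : ℝ) - -((⌊(2 : ℝ) ^ (N * J) * oH ω⌋ : ℤ) : ℝ)| ≤ D
      have h4 := Int.floor_le ((2 : ℝ) ^ (N * J) * o₂ ω)
      have h5 := Int.lt_floor_add_one ((2 : ℝ) ^ (N * J) * o₂ ω)
      have h6 := Int.floor_le ((2 : ℝ) ^ (N * J) * oH ω)
      have h7 := Int.lt_floor_add_one ((2 : ℝ) ^ (N * J) * oH ω)
      have h8 := abs_le.1 h3
      rw [hDd, abs_le]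
      constructor <;> linarith [h8.1, h8.2])
  have h7 : Real.log (2 * D + 1) ≤ Real.log 9 + δ / 4 * J := by
    have e1 : 2 * D + 1 ≤ 9 * 2 ^ (δ / 4 * J) := by
      rw [hDd]
      linarith
    have e2 := Real.log_le_log (by rw [hDd]; positivity) e1
    refine e2.trans ?_
    rw [Real.log_mul (by norm_num) (by positivity), ← exp_p2, Real.log_exp]
    have : δ / 4 * J * Real.log 2 ≤ δ / 4 * J * 1 :=
      mul_le_mul_of_nonneg_left hl21 (by positivity)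
    linarith
  have h8 : ζ * (K' * J) ≤ δ / 2 * J := by
    calc ζ * (K' * J) = ζ * K' * J := by ring
      _ ≤ δ / 2 * J := mul_le_mul_of_nonneg_right hζK hJ0
  have h9 := CH_le_add h0 X uH (fun ω => (u₀ ω, (z₁ ω, y J F ω)))
  have h10 : (η + δ) * J = η * J + δ / 4 * J + δ / 4 * J + δ / 2 * J := by ring
  linarith

end dcp

end Pool.PN18
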