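import Pool.Agent.H71.AJW.Jetc

/-!
# The jets over a finer window from the own paths of the chain

`jets_of_pth`: the jets of the own path of `c r` over the labels of a finer window `w`, of any
precision, are few bits given the ball, the context and the own path over the labels of the window `v`.
-/

set_option autoImplicit false

namespace Pool.PN18

open Finset Real MvPolynomial
open Pool.Agent.H49.Ent Pool.Agent.H32.Dense Pool.STK Pool.KA Pool.KSAT Pool.K2S Pool.PB Pool.GEN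
open Pool.S6C Pool.RCD Pool.LA91 Pool.OWN68 Pool.AJW
open Pool.GRD (LbP)
open Pool.UNJ (ceI Tub)

/-- The code, the context and the own path over the labels of `v`. -/
noncomputable def xpt {m : ℕ} (c : ℕ → Fin m) (r₀ r K : ℕ) (v lam s : ℝ) (n : ℕ → ℝ) (J : ℕ)
    (F : Fam m J) (V : Type) (z' : LnT F → V) (g : V → ℕ → MvPolynomial (Option (Fin m)) ℝ)
    (ω : F.Ω) : (V × (F.ζ × ℕ)) × (((Fin m → ℤ × ℤ) × (ℕ → ℕ → ℤ)) × (Fin (K + 3) → ℤ)) :=
  ((z' (vg v J F ω), (vg v J F ω).2),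
    (ctx c r₀ r K v lam n J F V z' g ω, pth c r K v s J F V z' g ω))

/-- **The jets over a finer window from the own paths of the chain.** -/
theorem jets_of_pth (K : ℕ) {m : ℕ} {S : PCl m} {C₀ : ℝ} (htm : TmC S C₀)
    {c : ℕ → Fin m} {r₀ r : ℕ} {v w lam q ρ g₀ : ℝ} {p s n lv rd : ℕ → ℝ}
    (HW : JetW S c r₀ r v w lam q ρ g₀ p s n lv rd K)
    {α γ : ∀ J : ℕ, Fam m J → Type}
    {f : ∀ (J : ℕ) (F : Fam m J), F.Ω → α J F} {y : ∀ (J : ℕ) (F : Fam m J), F.Ω → γ J F}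
    (hf : ∀ (J : ℕ) (F : Fam m J), ∃ φ : α J F → PtT F, ∀ ω, ptr F J ω = φ (f J F ω))
    (hy : Kn ((range r₀).image c) (v + lam) lam y) {a : ℝ} (hwa : w ≤ a) (ha : a ≤ 1)
    {ε : ℝ} (hε : 0 < ε) {e : ℝ} (he : 0 < e) (h8e : e ≤ ρ / 8) (K₀ : ℕ) {P₂ : ℝ}
    (hP₂ : p r ≤ P₂) :
    Bas S (fun J F A => ∀ (V : Type) (z : PtT F → V) (z' : LnT F → V)
      (g : V → ℕ → MvPolynomial (Option (Fin m)) ℝ), LbC F c r₀ (r + 1) K e v rd p A z z' g →
      ∀ u' : F.Ω → Fin (K + 2) → ℤ,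
      (∀ j : Fin (K + 2), (qJet m ((range r).image c) (c r) ((j : ℕ) + 1) w P₂
        (p r + q - ((j : ℕ) + 1 : ℕ) * v)).P K₀ e J F A (fun ω => u' ω j)) →
      ∃ (V₂ : Type) (z₂ : F.Ω → V₂), Cl2 (f J F) (vg a J F) A z₂ ∧
        CH (Pool.Agent.H49.Ent.cond F.p A True) u'
          (fun ω => (xpt c r₀ r K v lam (p r + q) n J F V z' g ω, (z₂ ω, y J F ω))) ≤ ε * J) := by
  classical
  have hq := HW.q0
  have hρ := HW.ρ0
  have hv0 := HW.v0
  have hvw := HW.vw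
  have hlam : 0 < lam := by linarith [HW.mid]
  have hwp : w < v + lam := by linarith [HW.mid]
  have hyT : ∀ (J : ℕ) (F : Fam m J), ∃ φ : γ J F → ℕ, ∀ ω, F.T ω = φ (y J F ω) := by
    intro J F
    obtain ⟨φ, hφ⟩ := hy J F
    exact ⟨fun x => (φ x).1, fun ω => (congrArg Prod.fst (hφ ω)).symm⟩
  obtain ⟨u₁, rw, hch⟩ := HW.chn
  -- the change of the charts
  obtain ⟨h', hh'⟩ : ∃ h' : ℝ, h' = ε / 2 / (K + 2) := ⟨_, rfl⟩
  have hh0 : 0 < h' := by rw [hh']; positivity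
  have hhe : (K + 2) * h' = ε / 2 := by
    rw [hh']
    field_simp
  have hN : ∀ j < K + 2, F1 S f (vg a) y
      ((qJets m c r₀ r (j + 1) (fun _ _ => v) (fun l _ => p l)
        (fun l j' => n l - (j' : ℕ) * v)).prod
        (qJet m ((range r).image c) (c r) (j + 1) v (p r) (p r + q - (j + 1 : ℕ) * v)))
      (qJet m ((range r).image c) (c r) (j + 1) w P₂ (p r + q - (j + 1 : ℕ) * v))
      (ρ / 8) h' := by
    intro j hj
    have hj1 : ((j + 1 : ℕ) : ℝ) ≤ K + 2 := by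
      have : ((j + 1 : ℕ) : ℝ) ≤ ((K + 2 : ℕ) : ℝ) := by exact_mod_cast hj
      push_cast at this ⊢
      linarith
    have hjw : ((j + 1 : ℕ) : ℝ) * (w - v) ≤ (K + 2) * (w - v) :=
      mul_le_mul_of_nonneg_right hj1 (by linarith)
    have hmin : min lam (v + lam - w) = v + lam - w := min_eq_right (by linarith)
    refine F1.up hwa ha (jetN_F1 htm hch (lv := lv) (p₀ := v + lam) (lam := lam) (σ₀ := ρ)
      (wv := fun _ _ => v) (pv := fun l _ => p l) (Nv := fun l j' => n l - (j' : ℕ) * v)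
      (fun _ _ _ _ _ => hvw) hvw le_rfl hwp HW.l1.le hlam hρ HW.lv0 ?_ ?_ ?_ le_rfl ?_ ?_
      hf hy hh0)
    · intro i x y j' hj'
      have h1 := HW.dig i x y
      have h2 : 0 ≤ (j' : ℝ) * (w - v) := mul_nonneg (Nat.cast_nonneg _) (by linarith)
      linarith
    · intro i x y j' hj'
      rw [hmin]
      exact HW.bas i x y
    · intro i x y j' hj' l x' y'
      exact HW.nst i x y l x' y'
    · rw [hmin, min_eq_left hP₂]
      linarith [HW.topb]
    · intro l x y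
      rw [min_eq_left hP₂]
      linarith [HW.top l x y]
  obtain ⟨MV, JV, hcV⟩ := cnt_jets2 m K (e := e) (w := v) he (fun l j => n l - j * v)
    (fun i => max (rd i) 0) r (K + 3) (fun i _ => le_max_right _ _)
  choose MR JR hcR using fun j : ℕ => cnt_jet m K j (N := p r + q - j * v) (w := v)
    (HW.rd0 r HW.hr le_rfl).1 he
  choose M₂ hM₂ using fun j : ℕ => jet_path (K + 2) j
  obtain ⟨K₁, hK₁⟩ : ∃ K₁ : ℕ, K₁ = K₀ + K + MV + ∑ j ∈ range (K + 3), MR j := ⟨_, rfl⟩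
  obtain ⟨J₁, hJ₁⟩ : ∃ J₁ : ℕ, J₁ = JV + ∑ j ∈ range (K + 3), JR j := ⟨_, rfl⟩
  obtain ⟨L, hL⟩ : ∃ L : ℝ, L = ∑ j ∈ range (K + 3), Real.log (2 * M₂ j + 1) := ⟨_, rfl⟩
  have hlM : ∀ j, 0 ≤ Real.log (2 * (M₂ j : ℝ) + 1) := fun j => Real.log_nonneg (by
    have : (0 : ℝ) ≤ M₂ j := Nat.cast_nonneg _
    linarith)
  have hL0 : 0 ≤ L := by
    rw [hL]
    exact Finset.sum_nonneg fun j _ => hlM j
  have hLj : ∀ j < K + 3, Real.log (2 * (M₂ j : ℝ) + 1) ≤ L := by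
    intro j hj
    rw [hL]
    exact Finset.single_le_sum (f := fun j => Real.log (2 * (M₂ j : ℝ) + 1))
      (fun j _ => hlM j) (Finset.mem_range.2 hj)
  have hr0 : (0 : ℝ) ≤ r := Nat.cast_nonneg r
  obtain ⟨J₂, hJ₂⟩ := exists_nat_ge ((K + 2) * ((r * (K + 3) + 1) * L) / (ε / 2))
  refine Bas.mono (max J₁ J₂) ((Bas.all (K + 2) fun j hj =>
    (hN j hj).mono h8e le_rfl K₁).and (Pool.GRW.tmc_bas htm one_pos)) ?_
  rintro J hJ F A ⟨HNA, hA, -⟩ V z z' g hlb u' hu'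
  have hJ1 : J₁ ≤ J := (le_max_left _ _).trans hJ
  have hJ2 : (J₂ : ℝ) ≤ J := by exact_mod_cast (le_max_right _ _).trans hJ
  have hJ0 : (0 : ℝ) ≤ J := Nat.cast_nonneg J
  have f1 : (K + 2) * ((r * (K + 3) + 1) * L) ≤ ε / 2 * J := by
    have := hJ₂.trans hJ2
    rw [div_le_iff₀ (by positivity)] at this
    linarith
  obtain ⟨q', hq'⟩ : ∃ q' : F.Ω → ℝ, q' = Pool.Agent.H49.Ent.cond F.p A True := ⟨_, rfl⟩
  have hq'l : IsLaw q' := by
    rw [hq']
    exact isLaw_cond F.isLaw hA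
  have h0 := hq'l.nonneg
  have hvJ : ⌊v * J⌋₊ ≤ J := floor_le (hvw.trans (hwa.trans ha)) J
  rw [← hq']
  obtain ⟨X, hX⟩ : ∃ X : F.Ω → (V × (F.ζ × ℕ)) × (((Fin m → ℤ × ℤ) × (ℕ → ℕ → ℤ)) ×
      (Fin (K + 3) → ℤ)), X = fun ω => xpt c r₀ r K v lam (p r + q) n J F V z' g ω := ⟨_, rfl⟩
  have hXe : ∀ ω, xpt c r₀ r K v lam (p r + q) n J F V z' g ω = X ω :=
    fun ω => by rw [hX]
  simp only [hXe]
  have hlbr := hlb r HW.hr (Nat.lt_succ_self r)
  have hdeg : ∀ l, r₀ ≤ l → l < r + 1 → ∀ v,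
      (MvPolynomial.X (some (c l)) - g v l).totalDegree ≤ K + 2 := by
    intro l x y v
    refine (MvPolynomial.totalDegree_sub _ _).trans (max_le ?_ ?_)
    · exact (totalDegree_X _).le.trans (by omega)
    · exact ((hlb l x y).deg v).trans (by omega)
  -- the jets over `v`
  obtain ⟨uu, huu⟩ : ∃ uu : ℕ → F.Ω → ℕ → ℕ → ℤ, uu = fun (j : ℕ) ω (l j' : ℕ) =>
    if r₀ ≤ l ∧ l < r ∧ j' ≤ j + 1 then ⌊(2 : ℝ) ^ ((n l - j' * v) * J) *
      ojet F (c l) j' (g (z' (slam F ⌊v * J⌋₊ ω)) l) ω⌋ else 0 := ⟨_, rfl⟩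
  obtain ⟨ww, hww⟩ : ∃ ww : ℕ → F.Ω → ℤ, ww = fun (j : ℕ) ω =>
    ⌊(2 : ℝ) ^ ((p r + q - (j + 1 : ℕ) * v) * J) *
      ojet F (c r) (j + 1) (g (z' (slam F ⌊v * J⌋₊ ω)) r) ω⌋ := ⟨_, rfl⟩
  have hzj : ∀ j : Fin (K + 2), ∃ (V₂ : Type) (z₂ : F.Ω → V₂), Cl2 (f J F) (vg a J F) A z₂ ∧
      CH q' (fun ω => u' ω j) (fun ω => ((uu j ω, ww j ω), (z₂ ω, y J F ω))) ≤ h' * J := by
    intro j
    have h2 := HNA j j.2 (fun ω => (uu j ω, ww j ω)) (fun ω => u' ω j) ⟨⟨?_, ?_⟩, ?_⟩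
      ((qJet m _ _ _ _ _ _).mono (by omega) le_rfl (hu' j))
    · rw [← hq'] at h2
      exact h2
    · intro i x y j' hj'
      have e1 : (fun ω => uu j ω i j') = fun ω => ⌊(2 : ℝ) ^ ((n i - j' * v) * J) *
          ojet F (c i) j' (g (z' (slam F ⌊v * J⌋₊ ω)) i) ω⌋ := by
        funext ω
        rw [huu]
        exact if_pos ⟨x, y, hj'⟩
      refine ⟨?_, V, z, z', fun v => g v i, (LbP.of (hlb i x (by omega))).mono
        (Finset.Subset.refl _) (by omega) le_rfl, fun ω _ => by rw [huu]; exact if_pos ⟨x, y, hj'⟩⟩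
      show (cnt F.p (fun ω => uu j ω i j') A : ℝ) ≤ _
      rw [e1]
      have hj2 := j.2
      refine (hcV i y j' (by omega) J (by omega) F _ _ _ A V z z' (fun v => g v i) (by
        rw [max_eq_left (HW.rd0 i x y.le).1]
        exact hlb i x (by omega))).trans
        (Real.exp_le_exp.2 (mul_le_mul_of_nonneg_right ?_ hJ0))
      exact_mod_cast (by omega : MV ≤ K₁)
    · intro ω _ i j' hij
      show uu j ω i j' = 0
      rw [huu]
      exact if_neg hij
    · have hj2 := j.2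
      have hMj : MR (j + 1) ≤ ∑ j ∈ range (K + 3), MR j :=
        Finset.single_le_sum (f := MR) (fun i _ => Nat.zero_le _)
          (Finset.mem_range.2 (by omega))
      have hJj : JR (j + 1) ≤ ∑ j ∈ range (K + 3), JR j :=
        Finset.single_le_sum (f := JR) (fun i _ => Nat.zero_le _)
          (Finset.mem_range.2 (by omega))
      refine ⟨?_, V, z, z', fun v => g v r, (LbP.of hlbr).mono (Finset.Subset.refl _)
        (by omega) le_rfl, fun ω _ => by rw [hww]⟩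
      show (cnt F.p (fun ω => ww j ω) A : ℝ) ≤ _
      rw [hww]
      refine (hcR (j + 1) J (by omega) F _ _ _ A V z z' (fun v => g v r) hlbr).trans
        (Real.exp_le_exp.2 (mul_le_mul_of_nonneg_right ?_ hJ0))
      exact_mod_cast (by omega : MR (j + 1) ≤ K₁)
  choose Vz zz hzz hCz using hzj
  refine ⟨∀ j, Vz j, fun ω j => zz j ω, Cl2.pi hzz, ?_⟩
  obtain ⟨Y, hY⟩ : ∃ Y : F.Ω → (∀ j, Vz j) × γ J F, Y = fun ω =>
    (fun j => zz j ω, y J F ω) := ⟨_, rfl⟩
  have hYe : (fun ω => (X ω, (fun j => zz j ω, y J F ω))) = fun ω => (X ω, Y ω) := by rw [hY]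
  rw [hYe]
  obtain ⟨φT, hφT⟩ := hyT J F
  have hT : ∀ ω ω', (X ω, Y ω) = (X ω', Y ω') → F.T ω = F.T ω' := by
    intro ω ω' e
    have e1 := (Prod.ext_iff.mp e).2
    rw [hY] at e1
    simp only [Prod.mk.injEq] at e1
    rw [hφT, hφT, e1.2]
  -- the jets of the chain, from the path
  have k1 : ∀ j < K + 2, CH q' (uu j) (fun ω => (X ω, Y ω)) ≤ r * (K + 3) * L := by
    intro j hj
    refine le_trans (CH_mono_left h0 (X' := fun ω (l : Fin r) (j' : Fin (K + 3)) =>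
      uu j ω l j') fun ω ω' _ _ e => ?_) ((CH_pis h0 _ _).trans ?_)
    · funext l j'
      by_cases hlj : r₀ ≤ l ∧ l < r ∧ j' ≤ j + 1
      · exact congrFun (congrFun (Prod.ext_iff.mp e).1 ⟨l, hlj.2.1⟩) ⟨j', by omega⟩
      · rw [huu]
        show (if r₀ ≤ l ∧ l < r ∧ j' ≤ j + 1 then _ else (0 : ℤ)) =
          if r₀ ≤ l ∧ l < r ∧ j' ≤ j + 1 then _ else (0 : ℤ)
        rw [if_neg hlj, if_neg hlj]
    · have h2 : ∀ l ∈ (univ : Finset (Fin r)), CH q' (fun ω (j' : Fin (K + 3)) => uu j ω l j')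
          (fun ω => (X ω, Y ω)) ≤ (K + 3) * L := by
        intro l _
        refine (CH_pis h0 _ _).trans ?_
        have h3 : ∀ j' ∈ (univ : Finset (Fin (K + 3))), CH q' (fun ω => uu j ω l j')
            (fun ω => (X ω, Y ω)) ≤ L := by
          intro j' _
          by_cases hlj : r₀ ≤ (l : ℕ) ∧ (l : ℕ) < r ∧ (j' : ℕ) ≤ j + 1
          · have e1 : (fun ω => uu j ω l j') = fun ω =>
                ⌊(2 : ℝ) ^ ((n l - (j' : ℕ) * v) * J) *
                  ojet F (c l) j' (g (z' (slam F ⌊v * J⌋₊ ω)) l) ω⌋ := by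
              funext ω
              rw [huu]
              exact if_pos hlj
            rw [e1]
            refine (hM₂ j' hv0 hvJ (s := n l) (κ := c l) (z' := z') (G := fun v => g v l)
              (hdeg l hlj.1 (by omega)) hq'l (fun ω => (X ω, Y ω))
              fun ω ω' _ _ e => ⟨hT ω ω' e, fun i hi => ?_⟩).trans (hLj j' j'.2)
            have e2 := (Prod.ext_iff.mp e).1
            rw [hX] at e2
            simp only [xpt, Prod.mk.injEq] at e2
            have e3 := congrFun (congrFun (Prod.ext_iff.mp e2.2.1).2 l) i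
            dsimp only [ctx, ctxN] at e3
            rw [if_pos ⟨⟨hlj.1, hlj.2.1⟩, by omega⟩, if_pos ⟨⟨hlj.1, hlj.2.1⟩, by omega⟩] at e3
            exact e3
          · refine le_trans (le_of_eq (CH_eq_zero h0 fun ω ω' _ _ _ => ?_)) hL0
            rw [huu]
            show (if r₀ ≤ (l : ℕ) ∧ (l : ℕ) < r ∧ (j' : ℕ) ≤ j + 1 then _ else (0 : ℤ)) =
              if r₀ ≤ (l : ℕ) ∧ (l : ℕ) < r ∧ (j' : ℕ) ≤ j + 1 then _ else (0 : ℤ)
            rw [if_neg hlj, if_neg hlj]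
        refine (Finset.sum_le_sum h3).trans (le_of_eq ?_)
        rw [Finset.sum_const, Finset.card_univ, Fintype.card_fin, nsmul_eq_mul]
        push_cast
        ring
      refine (Finset.sum_le_sum h2).trans (le_of_eq ?_)
      rw [Finset.sum_const, Finset.card_univ, Fintype.card_fin, nsmul_eq_mul]
      ring
  have k2 : ∀ j < K + 2, CH q' (ww j) (fun ω => (X ω, Y ω)) ≤ L := by
    intro j hj
    rw [hww]
    refine (hM₂ (j + 1) hv0 hvJ (s := p r + q) (κ := c r) (z' := z') (G := fun v => g v r)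
      (hdeg r HW.hr (Nat.lt_succ_self r)) hq'l (fun ω => (X ω, Y ω))
      fun ω ω' _ _ e => ⟨hT ω ω' e, fun i hi => ?_⟩).trans (hLj (j + 1) (by omega))
    have e2 := (Prod.ext_iff.mp e).1
    rw [hX] at e2
    simp only [xpt, Prod.mk.injEq] at e2
    exact congrFun e2.2.2 ⟨i, by omega⟩
  -- the jets over `w`
  have k3 : CH q' u' (fun ω => (X ω, Y ω)) ≤ (K + 2) * ((r * (K + 3) + 1) * L + h' * J) := by
    refine (CH_pis h0 u' _).trans ?_
    have h2 : ∀ j ∈ (univ : Finset (Fin (K + 2))), CH q' (fun ω => u' ω j)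
        (fun ω => (X ω, Y ω)) ≤ (r * (K + 3) + 1) * L + h' * J := by
      intro j _
      have g1 := CH_le_add h0 (fun ω => u' ω j) (fun ω => (uu j ω, ww j ω))
        (fun ω => (X ω, Y ω))
      have g2 := CH_subadd h0 (fun ω => uu j ω) (fun ω => ww j ω) (fun ω => (X ω, Y ω))
      have g3 : CH q' (fun ω => u' ω j) (fun ω => ((uu j ω, ww j ω), (X ω, Y ω))) ≤ h' * J := by
        refine le_trans (CH_mono_cond h0 fun ω ω' _ _ e => ?_) (hCz j)
        rw [hY] at e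
        simp only [Prod.mk.injEq] at e ⊢
        exact ⟨e.1, congrFun e.2.2.1 j, e.2.2.2⟩
      have g4 := k1 j j.2
      have g5 := k2 j j.2
      have g6 : (r * (K + 3) + 1) * L = r * (K + 3) * L + L := by ring
      linarith
    refine (Finset.sum_le_sum h2).trans (le_of_eq ?_)
    rw [Finset.sum_const, Finset.card_univ, Fintype.card_fin, nsmul_eq_mul]
    push_cast
    ring
  have k8 : (K + 2) * ((r * (K + 3) + 1) * L + h' * J) =
      (K + 2) * ((r * (K + 3) + 1) * L) + ε / 2 * J := by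
    rw [← hhe]
    ring
  have k9 : ε * J = ε / 2 * J + ε / 2 * J := by ring
  linarith

end Pool.PN18
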