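import Pool.Agent.H63.RW2.NumU

/-!
# The row of the first place of a pair, for a rate at least the full one up to a slack

`rowU_num2`, `rowU_gap2`: `rowU_num`, `rowU_gap` for a rate `ph ≥ alN log 2 - dl`.
-/

set_option autoImplicit false

namespace Pool.RW37

open Finset Real MvPolynomial
open Pool.Agent.H49.Ent Pool.Agent.H32.Dense Pool.STK Pool.KA Pool.KSAT Pool.K2S Pool.PB Pool.GEN
open Pool.S6C Pool.RCD Pool.LA91 Pool.OWN68 Pool.CHT Pool.AJX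
open Pool.UNJ (ceI)
open Pool.ALT (AltAt ful_few)

variable {m : ℕ}

/-- **The row of the first place**, in numbers: from `RowN` at the same digits. -/
theorem rowU_num2 {S : PCl m} {C₀ : ℝ} (htm : TmC S C₀)
    (hpos : ∀ (τ : ℝ) (J : ℕ) (F : Fam m J) (A : F.Ω → Prop), S.St τ J F A → 0 < Pe F.p A)
    {c : ℕ → Fin m} {r₀ r K K1 k M : ℕ} (hr : r₀ ≤ r) {E rd n : ℕ → ℝ} {sn : ℕ → ℝ → ℝ}
    {wb : ℕ → ℝ} {e₀ v o U ρ ρ₀ φ x X alu alN tz g₀ dl : ℝ}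
    (hZ : RowN S c r₀ r K E e₀ v U rd (fun l => sn l v) n (sn r v + alu * X)
      (sn (r + 1) v + alN * x) (sn (r + 1) v + alN * X) tz) (htz : 0 ≤ tz)
    {e1 rho1 pi1 x0 ph e2 : ℝ} {s : ℝ → ℝ}
    (hFN : AltAt S ((range (r + 1)).image c) ((range r).image c) (c (r + 1)) K1 e1 rho1 pi1
      s x0 ph e2 k) (he2 : 0 ≤ e2)
    (hs : ∀ y : ℚ, v ≤ y → (y : ℝ) ≤ v + X → |s y - sn (r + 1) v - alN * (y - v)| ≤ φ)
    (hbox1 : x0 - (1 / 2) ^ k ≤ v) (hbox2 : v + X ≤ x0 + (1 / 2) ^ k)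
    (hdl : 0 ≤ dl) (hdlb : dl ≤ alN * Real.log 2) (hph : alN * Real.log 2 - dl ≤ ph)
    (hK : K ≤ K1) (hE1 : E (r + 1) + e₀ ≤ e1)
    (hrho : rd (r + 1) + e₀ ≤ rho1) (hpi : pi1 ≤ sn (r + 1) v - e₀)
    (hN : HtN r₀ r M wb sn n (fun i => sn i o - ρ) v o U ρ) (hc : ChL S c r₀ r M wb sn)
    (hslo : |sn r o - sn r v - alu * (o - v)| ≤ φ) (hox : o ≤ v + x) (hgap : v + x ≤ o + ρ₀)
    (hx0 : 0 ≤ x) (hxX : x ≤ X) (hvX : v + X ≤ 1) (halu : 0 ≤ alu) (halN : 0 < alN)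
    (he₀ : e₀ ≤ ρ / 8) (hg₀ : 0 < g₀) (heg : e₀ ≤ g₀ / 2)
    (hE : ∀ i, r₀ ≤ i → i ≤ r → 0 ≤ E i ∧ E i ≤ 1)
    (hrd : ∀ i, r₀ ≤ i → i ≤ r → 0 ≤ rd i ∧ rd i + g₀ ≤ 1)
    (hn : ∀ i, r₀ ≤ i → i < r → n i + E i + g₀ ≤ 1) {t : ℝ}
    (ht : alu * (X - x) * Real.log 2 + tz - alN * (X - x) * Real.log 2 +
      (3 * φ + ρ + alu * ρ₀) * Real.log 2 + e2 * (1 / 2) ^ k + dl * (X - x) < t) :
    RowU S c r₀ r K E e₀ v U rd (fun l => sn l v) n (sn r v + alu * x) (sn r v + alu * X)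
      (sn (r + 1) v + alN * X) t := by
  have hl2 : 0 < Real.log 2 := Real.log_pos one_lt_two
  have hφ : 0 ≤ φ := (abs_nonneg _).trans hslo
  have hρ := hN.ρ0
  have hρ₀ : 0 ≤ ρ₀ := by linarith
  have h2k : (0 : ℝ) < (1 / 2) ^ k := by positivity
  obtain ⟨σ, hσ⟩ : ∃ σ : ℝ, σ = t - (alu * (X - x) * Real.log 2 + tz -
    alN * (X - x) * Real.log 2 + (3 * φ + ρ + alu * ρ₀) * Real.log 2 + e2 * (1 / 2) ^ k +
    dl * (X - x)) := ⟨_, rfl⟩
  have hσ0 : 0 < σ := by rw [hσ]; linarith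
  have hdx : 0 ≤ dl * (X - x) := mul_nonneg hdl (by linarith)
  obtain ⟨η, hη⟩ : ∃ η : ℝ, η = σ / (4 * (alN * Real.log 2)) := ⟨_, rfl⟩
  have hη0 : 0 < η := by rw [hη]; positivity
  have hηe : η * (alN * Real.log 2) = σ / 4 := by
    rw [hη]
    field_simp
  obtain ⟨ψ, hψ⟩ : ∃ ψ : ℝ, ψ = φ / alN := ⟨_, rfl⟩
  have hψ0 : 0 ≤ ψ := by rw [hψ]; positivity
  have hψe : alN * ψ = φ := by
    rw [hψ]
    field_simp
  have hρl : 0 ≤ ρ * Real.log 2 := by positivity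
  have haρl : 0 ≤ alu * ρ₀ * Real.log 2 := by positivity
  have hφl : 0 ≤ φ * Real.log 2 := by positivity
  have he2k : 0 ≤ e2 * (1 / 2) ^ k := by positivity
  by_cases hbig : 2 * ψ + 2 * η < X - x
  · obtain ⟨w1, a1, a2⟩ := exists_rat_btwn (show v + x + ψ < v + x + ψ + η by linarith)
    obtain ⟨o1, a3, a4⟩ := exists_rat_btwn (show v + X - ψ - η < v + X - ψ by linarith)
    have hwo : (w1 : ℝ) ≤ o1 := by linarith
    have hwo' : w1 ≤ o1 := by exact_mod_cast hwo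
    have hFY := fulY_of hpos hFN (v := v) (u := o) (a := w1) (o := o1) (by linarith) hwo'
      (by linarith) (by linarith) (by linarith) (by linarith)
      (d := ph * (o1 - w1) - e2 * (1 / 2) ^ k - σ / 8) (by linarith)
    have hs1 := abs_le.1 (hs w1 (by linarith) (by linarith))
    have hs2 := abs_le.1 (hs o1 (by linarith) (by linarith))
    have hF := htn_F1 htm hN hc hr le_rfl (δ₂ := σ / 8) (by linarith)
    refine rowU_of htm hZ hFY (by have := (hN.bw 0 (Nat.zero_le M)).1; rwa [hN.b0] at this)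
      (by linarith) ?_ ?_ hK hE1 hrho hpi (Nu := sn r o - ρ) (e₃ := ρ / 8) (δ₃ := σ / 8)
      (g₀ := g₀) (by linarith) hg₀ (fun _ => hF) hr he₀ heg hE hrd hn hN.U1 ?_ ?_ ?_
    · -- the first digits
      have k1 : alN * (v + x + ψ) ≤ alN * w1 := mul_le_mul_of_nonneg_left a1.le halN.le
      have k2 : alN * (v + x + ψ) = alN * v + alN * x + φ := by rw [mul_add, mul_add, hψe]
      linarith [hs1.1]
    · have k1 : alN * o1 ≤ alN * (v + X - ψ) := mul_le_mul_of_nonneg_left a4.le halN.le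
      have k2 : alN * (v + X - ψ) = alN * v + alN * X - φ := by rw [mul_sub, mul_add, hψe]
      linarith [hs2.2]
    · have := mul_le_mul_of_nonneg_left hxX halN.le
      linarith
    · have := mul_le_mul_of_nonneg_left hxX halu
      linarith
    · -- the bound
      have k1 : max (sn r v + alu * x - (sn r o - ρ)) 0 ≤ alu * ρ₀ + φ + ρ := by
        refine max_le ?_ (by have := mul_nonneg halu hρ₀; linarith)
        have h1 := (abs_le.1 hslo).1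
        have h2 : alu * (v + x) ≤ alu * (o + ρ₀) := mul_le_mul_of_nonneg_left hgap halu
        linarith
      have k2 : max (sn r v + alu * x - (sn r o - ρ)) 0 * Real.log 2 ≤
          (alu * ρ₀ + φ + ρ) * Real.log 2 := mul_le_mul_of_nonneg_right k1 hl2.le
      have k3 : X - x - 2 * ψ - 2 * η ≤ o1 - w1 := by linarith
      have hwor : (0 : ℝ) ≤ (o1 : ℝ) - w1 := by linarith
      have k4 : (alN * Real.log 2 - dl) * (X - x - 2 * ψ - 2 * η) ≤ ph * (o1 - w1) :=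
        (mul_le_mul_of_nonneg_left k3 (by linarith)).trans
          (mul_le_mul_of_nonneg_right hph hwor)
      have k5 : (alN * Real.log 2 - dl) * (X - x - 2 * ψ - 2 * η) =
          alN * (X - x) * Real.log 2 -
          2 * (φ * Real.log 2) - 2 * (σ / 4) - dl * (X - x) + dl * (2 * ψ + 2 * η) := by
        rw [← hψe, ← hηe]
        ring
      have k5' : 0 ≤ dl * (2 * ψ + 2 * η) := mul_nonneg hdl (by linarith)
      have k6 : (sn r v + alu * X - (sn r v + alu * x)) * Real.log 2 =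
          alu * (X - x) * Real.log 2 := by ring
      rw [k6]
      have k7 : t = alu * (X - x) * Real.log 2 + tz - alN * (X - x) * Real.log 2 +
        (3 * φ + ρ + alu * ρ₀) * Real.log 2 + e2 * (1 / 2) ^ k + dl * (X - x) + σ := by
        rw [hσ]; ring
      rw [k7]
      nlinarith [k2, k4, k5, k5']
  · push Not at hbig
    intro e he hle
    obtain ⟨J₀, hJ₀⟩ := exists_nat_ge (Real.log 5 / (σ / 4))
    refine Bas.mono J₀ (bas_pos htm) ?_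
    rintro J hJ F A hpe V z z' g hL
    have hq := isLaw_cond F.isLaw hpe
    have hJ0 : (0 : ℝ) ≤ J := Nat.cast_nonneg J
    have hJr : (J₀ : ℝ) ≤ J := by exact_mod_cast hJ
    have g1 : Real.log 5 ≤ σ / 4 * J := by
      have := hJ₀.trans hJr
      rwa [div_le_iff₀ (by linarith), mul_comm] at this
    have g2 := fl_few hq (fun ω => hgt F (c r) z' ⌊v * J⌋₊ (fun y => g y r) ω)
      (a := sn r v + alu * x) (b := sn r v + alu * X) hJ0
      (fun ω => (hd F c (r + 1) z' ⌊v * J⌋₊ g (sn (r + 1) v + alN * X) ω,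
        cx F c r₀ r z' ⌊v * J⌋₊ g n U ω))
    have k0 := mul_le_mul_of_nonneg_left hxX halu
    rw [max_eq_left (by linarith : 0 ≤ sn r v + alu * X - (sn r v + alu * x))] at g2
    refine g2.trans ?_
    have k3 : alN * (X - x) * Real.log 2 ≤ 2 * (φ * Real.log 2) + 2 * (σ / 4) := by
      have h1 : (X - x) * (alN * Real.log 2) ≤ (2 * ψ + 2 * η) * (alN * Real.log 2) :=
        mul_le_mul_of_nonneg_right hbig (by positivity)
      have h2 : (2 * ψ + 2 * η) * (alN * Real.log 2) = 2 * ((alN * ψ) * Real.log 2) +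
        2 * (η * (alN * Real.log 2)) := by ring
      rw [h2, hψe, hηe] at h1
      linarith
    have k7 : t = alu * (X - x) * Real.log 2 + tz - alN * (X - x) * Real.log 2 +
      (3 * φ + ρ + alu * ρ₀) * Real.log 2 + e2 * (1 / 2) ^ k + dl * (X - x) + σ := by
      rw [hσ]; ring
    have k8 : alu * (X - x) * Real.log 2 + σ / 4 ≤ t := by
      rw [k7]
      nlinarith
    have k9 := mul_le_mul_of_nonneg_right k8 hJ0
    linarith

/-- **The row of the first place**, the windows from a set with small gaps. -/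
theorem rowU_gap2 {S : PCl m} {C₀ : ℝ} (htm : TmC S C₀)
    (hpos : ∀ (τ : ℝ) (J : ℕ) (F : Fam m J) (A : F.Ω → Prop), S.St τ J F A → 0 < Pe F.p A)
    {c : ℕ → Fin m} {r₀ r K K1 k : ℕ} (hr : r₀ ≤ r) {E rd n : ℕ → ℝ} {sn : ℕ → ℝ → ℝ}
    {G : Set ℝ} {e₀ v U ρ ρ₀ φ x X alu alN tz g₀ Lam dl : ℝ} {Sl f : ℕ → ℝ}
    (hZ : RowN S c r₀ r K E e₀ v U rd (fun l => sn l v) n (sn r v + alu * X)
      (sn (r + 1) v + alN * x) (sn (r + 1) v + alN * X) tz) (htz : 0 ≤ tz)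
    {e1 rho1 pi1 x0 ph e2 : ℝ} {s : ℝ → ℝ}
    (hFN : AltAt S ((range (r + 1)).image c) ((range r).image c) (c (r + 1)) K1 e1 rho1 pi1
      s x0 ph e2 k) (he2 : 0 ≤ e2)
    (hs : ∀ y : ℚ, v ≤ y → (y : ℝ) ≤ v + X → |s y - sn (r + 1) v - alN * (y - v)| ≤ φ)
    (hbox1 : x0 - (1 / 2) ^ k ≤ v) (hbox2 : v + X ≤ x0 + (1 / 2) ^ k)
    (hdl : 0 ≤ dl) (hdlb : dl ≤ alN * Real.log 2) (hph : alN * Real.log 2 - dl ≤ ph)
    (hK : K ≤ K1) (hE1 : E (r + 1) + e₀ ≤ e1)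
    (hrho : rd (r + 1) + e₀ ≤ rho1) (hpi : pi1 ≤ sn (r + 1) v - e₀)
    (hch : ∀ w ∈ G, ∃ (u₁ : ℝ) (rd : ℕ → ℝ), (∀ i, r₀ ≤ i → i ≤ r → 0 ≤ rd i) ∧
      Chn S c r₀ (r + 1) w w u₁ (fun l => sn l w) rd)
    (hvG : v ∈ G) (hG : ∀ y, v ≤ y → y ≤ v + X → ∃ w ∈ G, |w - y| ≤ ρ₀)
    (hsl : ∀ l, r₀ ≤ l → l ≤ r → ∀ w ∈ G, v ≤ w → w ≤ v + X →
      |sn l w - sn l v - Sl l * (w - v)| ≤ φ)
    (hSl : ∀ l, r₀ ≤ l → l ≤ r → 0 ≤ Sl l ∧ Sl l ≤ Lam) (halu : Sl r = alu)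
    (hnl : ∀ l, r₀ ≤ l → l < r → n l = sn l v + f l)
    (hf1 : ∀ l, r₀ ≤ l → l < r → 2 * (Lam * X) + 3 * φ + ρ < f l)
    (hf2 : ∀ l, r₀ ≤ l → l < r → f l + φ ≤ U - (v + X))
    (hf3 : ∀ l, r₀ ≤ l → l < r → ∀ l', r₀ ≤ l' → l' < l → f l + Lam * X + 2 * φ + ρ ≤ f l')
    (hUX : Lam * X + 2 * φ ≤ U - (v + X)) (hU : U ≤ 1) (hUv : v + X < U) (hv : 0 ≤ v)
    (hρ : 0 < ρ) (hx0 : 0 ≤ x) (hxX : x ≤ X) (halN : 0 < alN)
    (he₀ : e₀ ≤ ρ / 8) (hg₀ : 0 < g₀) (heg : e₀ ≤ g₀ / 2)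
    (hE : ∀ i, r₀ ≤ i → i ≤ r → 0 ≤ E i ∧ E i ≤ 1)
    (hrd : ∀ i, r₀ ≤ i → i ≤ r → 0 ≤ rd i ∧ rd i + g₀ ≤ 1)
    (hn : ∀ i, r₀ ≤ i → i < r → n i + E i + g₀ ≤ 1) {t : ℝ}
    (ht : alu * (X - x) * Real.log 2 + tz - alN * (X - x) * Real.log 2 +
      (3 * φ + ρ + alu * (2 * ρ₀)) * Real.log 2 + e2 * (1 / 2) ^ k + dl * (X - x) < t) :
    RowU S c r₀ r K E e₀ v U rd (fun l => sn l v) n (sn r v + alu * x) (sn r v + alu * X)
      (sn (r + 1) v + alN * X) t := by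
  have hX0 : 0 ≤ X := hx0.trans hxX
  have hρ₀ : 0 ≤ ρ₀ := by
    obtain ⟨w, -, h1⟩ := hG v le_rfl (by linarith)
    exact (abs_nonneg _).trans h1
  have halu0 : 0 ≤ alu := by rw [← halu]; exact (hSl r hr le_rfl).1
  have hLam : 0 ≤ Lam := (hSl r hr le_rfl).1.trans (hSl r hr le_rfl).2
  -- the window `o`
  obtain ⟨o, hoG, ho1, ho2, ho3⟩ : ∃ o ∈ G, v ≤ o ∧ o ≤ v + x ∧ v + x ≤ o + 2 * ρ₀ := by
    rcases le_or_gt ρ₀ x with h1 | h1
    · obtain ⟨w, hw, h2⟩ := hG (v + x - ρ₀) (by linarith) (by linarith)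
      have h3 := abs_le.1 h2
      rcases le_or_gt v w with h4 | h4
      · exact ⟨w, hw, h4, by linarith [h3.2], by linarith [h3.1]⟩
      · exact ⟨v, hvG, le_rfl, by linarith, by linarith [h3.1]⟩
    · exact ⟨v, hvG, le_rfl, by linarith, by linarith⟩
  -- the list
  obtain ⟨M, wb, b0, bM, hb, hst⟩ := gseq (G := G) (h := 2 * ρ₀ + 1) hvG (by linarith) 1 o hoG
    ho1 (by
      have : o ≤ 1 := by linarith
      push_cast
      linarith) (fun y hy1 hy2 => hG y hy1 (by linarith))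
  have hN := htn_r (r₀ := r₀) (r := r) (sn := sn) (n := n) (U := U) (ρ := ρ) (φ := φ) (X := X)
    (Lam := Lam) (Sl := Sl) (f := f) b0 bM (fun j hj => (hb j hj).2) hv (by linarith)
    (by linarith) hU hρ (by linarith)
    (fun l h0 h1 j hj => hsl l h0 h1 (wb j) (hb j hj).1 (hb j hj).2.1
      (by linarith [(hb j hj).2.2])) hSl hLam hnl hf1
    (fun l h0 h1 => by linarith [hf2 l h0 h1]) hf3 (by linarith)
  refine rowU_num2 htm hpos hr hZ htz hFN he2 hs hbox1 hbox2 hdl hdlb hph hK hE1 hrho hpi hN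
    (chl_of hr fun j hj => hch (wb j) (hb j hj).1) ?_ ho2 ho3 hx0 hxX (by linarith) halu0 halN
    he₀ hg₀ heg hE hrd hn ht
  rw [← halu]
  exact hsl r hr le_rfl o hoG ho1 (by linarith)

end Pool.RW37
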