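import Pool.Agent.H60.ALT.Nzf
import Pool.Agent.H91.LA.Grd
import Pool.Agent.H3.V0F.Attu

/-!
# A label is blind if the coordinate is flatter than its base

`sl_step`: the slopes of two closed labels of one window along the last coordinate of the base, at the
rounded samples. `blc_tel`: the labels closed at an early window have the slope of the labels of a
later window, through windows in between.
-/

set_option autoImplicit false

namespace Pool.ALT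

open Finset Real MvPolynomial
open Pool.Agent.H49.Ent Pool.Agent.H32.Dense Pool.STK Pool.KA Pool.KSAT Pool.K2S Pool.PB Pool.S6C
  Pool.GEN Pool.RCD Pool.LA91 Pool.OWN68
open Pool.UNJ (ceI)
open Pool.GRW (xr xr_near tmc_bas)
open Pool.BFL (Pb)
open Pool.GRD (LbP)
open Pool.LIV (Pb_mono25 Pb_or25)

variable {m : ℕ}

/-- **Labels of the position** of the precision `p`, up to `e J`. -/
def AttP (S : PCl m) (I : Finset (Fin m)) (k : Fin m) (w p : ℝ) : Prop :=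
  ∀ e : ℝ, 0 < e → ∃ K : ℕ, Bas S (fun J F A => ∃ (V : Type) (z : PtT F → V) (z' : LnT F → V)
    (G : V → MvPolynomial (Option (Fin m)) ℝ),
    LbP F I k K J ⌊w * J⌋₊ ⌊(p - e) * J⌋₊ A z z' G)

theorem AttP.sub {S S' : PCl m} (hs : ∀ (τ : ℝ) (J : ℕ) (F : Fam m J) (A : F.Ω → Prop),
    S'.St τ J F A → S.St τ J F A) {I : Finset (Fin m)} {k : Fin m} {w p : ℝ}
    (h : AttP S I k w p) : AttP S' I k w p := fun e he => by
  obtain ⟨K, hK⟩ := h e he
  exact ⟨K, hK.sub hs⟩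

theorem _root_.Pool.LA91.Att.p {S : PCl m} {I : Finset (Fin m)} {k : Fin m} {w p rd : ℝ}
    (h : Att S I k w p rd) : AttP S I k w p := by
  intro e he
  obtain ⟨K, hK⟩ := h e he
  refine ⟨K, hK.mono 0 ?_⟩
  rintro J - F A ⟨V, z, z', G, hl⟩
  exact ⟨V, z, z', G, LbP.of hl⟩

theorem _root_.Pool.V0F.LbU.p {S : PCl m} {I : Finset (Fin m)} {k : Fin m} {w p rk E : ℝ}
    (h : Pool.V0F.LbU S I k w p rk E) : AttP S I k w p := by
  intro e he
  obtain ⟨K, hK⟩ := h e he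
  refine ⟨K, hK.mono 0 ?_⟩
  rintro J - F A ⟨V, z, z', G, hl⟩
  exact ⟨V, z, z', G, LbP.of hl⟩

/-- Markov along one coordinate. -/
theorem mk_par (K : ℕ) : ∃ C : ℝ, 1 ≤ C ∧ ∀ {m : ℕ} (D : MvPolynomial (Option (Fin m)) ℝ)
    (x : Option (Fin m) → ℝ) (o : Option (Fin m)) (S ρ : ℝ), D.totalDegree ≤ K → 0 < ρ →
    (∀ y : ℝ, 0 ≤ y → y ≤ ρ → |eval (Function.update x o (x o + y)) D| ≤ S) →
    |eval x (pderiv o D)| ≤ C * S / ρ := by
  obtain ⟨C, hC, H⟩ := markov_end K 1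
  refine ⟨C, hC, fun {m} D x o S ρ hD hρ hS => ?_⟩
  classical
  have h1 := H (aeval (lp x (Pi.single o 1)) D) S ρ (natDegree_alp hD _ _) hρ fun y hy => by
    rw [eval_alp]
    have e : (fun o' => x o' + y * (Pi.single o (1 : ℝ) : Option (Fin m) → ℝ) o') =
        Function.update x o (x o + y) := by
      funext o'
      by_cases h : o' = o
      · subst h
        rw [Pi.single_eq_same, Function.update_self, mul_one]
      · rw [Pi.single_eq_of_ne h, Function.update_of_ne h, mul_zero, add_zero]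
    rw [e]
    exact hS y hy.1 hy.2
  rw [pow_one] at h1
  rw [← jet_single D x o]
  exact h1

/-- **The slopes of two closed labels of one window** along the last coordinate of the base, at the
rounded samples. -/
theorem sl_step {S : PCl m} {C₀ : ℝ} (htm : TmC S C₀) {c : ℕ → Fin m} {r₀ r : ℕ} (hr : r₀ ≤ r)
    {w u₀ u₁ : ℝ} {s rd : ℕ → ℝ} (hch : Chn S c r₀ (r + 1) w u₀ u₁ s rd) (k : Fin m) {ε : ℝ}
    (hε : 0 < ε) (K : ℕ) {η : ℝ} (hη : 0 < η) :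
    Bas S (fun J F A => ∀ (P₁ P₂ : ℕ) (V₁ V₂ : Type)
      (z₁ : PtT F → V₁) (z₁' : LnT F → V₁) (G₁ : V₁ → MvPolynomial (Option (Fin m)) ℝ)
      (z₂ : PtT F → V₂) (z₂' : LnT F → V₂) (G₂ : V₂ → MvPolynomial (Option (Fin m)) ℝ),
      LbP F ((range (r + 1)).image c) k K J ⌊w * J⌋₊ P₁ A z₁ z₁' G₁ →
      LbP F ((range (r + 1)).image c) k K J ⌊w * J⌋₊ P₂ A z₂ z₂' G₂ →
      Pb (Pool.Agent.H49.Ent.cond F.p A True) (fun ω =>
        ¬ |eval (xr F ω) (pderiv (some (c r)) (G₁ (z₁' (slam F ⌊w * J⌋₊ ω)) -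
          G₂ (z₂' (slam F ⌊w * J⌋₊ ω))))| ≤
          2 ^ ((s r + ε) * J) * (1 / 2 ^ P₁ + 1 / 2 ^ P₂)) ≤ η) := by
  classical
  have hinj := hch.inj
  have hu01 := hch.u0
  obtain ⟨υ, hυ⟩ : ∃ υ : ℝ, υ = (1 - u₀) / 2 := ⟨_, rfl⟩
  have hυ0 : 0 < υ := by rw [hυ]; linarith
  obtain ⟨u₂, hu₂⟩ : ∃ u₂ : ℝ, u₂ = u₀ + υ := ⟨_, rfl⟩
  have hu02 : u₀ < u₂ := by linarith
  have hu21 : u₂ < 1 := by linarith
  obtain ⟨σ, hσ0, hσ1⟩ : ∃ σ : ℝ, 0 < σ ∧ ∀ i, r₀ ≤ i → i < r + 1 → s i + σ ≤ 1 ∧ rd i + σ ≤ 1 := by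
    have key : ∀ n ≤ r + 1, ∃ σ : ℝ, 0 < σ ∧ ∀ i, r₀ ≤ i → i < n → s i + σ ≤ 1 ∧ rd i + σ ≤ 1 := by
      intro n
      induction n with
      | zero => exact fun _ => ⟨1, one_pos, fun i _ h => absurd h (Nat.not_lt_zero i)⟩
      | succ n ih =>
        intro hn
        obtain ⟨σ, h1, h2⟩ := ih (by omega)
        by_cases h3 : r₀ ≤ n
        · have h4 := (hch.s0 n h3 (by omega)).2
          have h5 := hch.r1 n h3 (by omega)
          refine ⟨min σ (min (1 - s n) (1 - rd n)), lt_min h1 (lt_min (by linarith) (by linarith)),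
            fun i a b => ?_⟩
          have e1 := min_le_left σ (min (1 - s n) (1 - rd n))
          have e2 := (min_le_right σ (min (1 - s n) (1 - rd n))).trans (min_le_left _ _)
          have e3 := (min_le_right σ (min (1 - s n) (1 - rd n))).trans (min_le_right _ _)
          rcases Nat.lt_or_ge i n with h6 | h6
          · have := h2 i a h6
            exact ⟨by linarith, by linarith⟩
          · obtain rfl : i = n := by omega
            exact ⟨by linarith, by linarith⟩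
        · exact ⟨σ, h1, fun i a b => h2 i a (by omega)⟩
    exact key (r + 1) le_rfl
  obtain ⟨Kc, d, hd, hnb⟩ := nbx_cls htm hch hu02 hu21 K (half_pos hε) (half_pos hσ0)
  obtain ⟨C, hC, hmk⟩ := mk_par K
  obtain ⟨J₁, hJ₁⟩ := E_big (a := ε / 2) (C := 2 * C) (half_pos hε)
  obtain ⟨J₂, hJ₂⟩ := E_big (a := σ / 2) (C := 2 * (m + 2)) (half_pos hσ0)
  refine Bas.mono (J₁ + J₂) ((hnb (min 1 η) (lt_min one_pos hη) (min_le_left _ _)).and
    (tmc_bas htm one_pos)) ?_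
  rintro J hJ F A ⟨⟨V, z, z', g, hlab, hg0, hgc, hbox⟩, hA, -⟩ P₁ P₂ V₁ V₂ z₁ z₁' G₁ z₂ z₂' G₂
    hl₁ hl₂
  have hJ0 : (0 : ℝ) ≤ J := Nat.cast_nonneg J
  have f1 := hJ₁ J (by omega)
  have f2 := hJ₂ J (by omega)
  have hq := isLaw_cond F.isLaw hA
  have b3 := hbox (r + 1) (by omega) le_rfl k K P₁ P₂ V₁ V₂ z₁ z₁' G₁ z₂ z₂' G₂ (le_max_left _ _)
    hl₁ hl₂
  refine le_trans (Pb_mono25 hq.nonneg fun ω hω hn => ?_) (b3.trans (min_le_right _ _))
  intro hall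
  have hωA : A ω := of_cond_pos hω
  refine hn ?_
  obtain ⟨D, hD⟩ : ∃ D, D = G₁ (z₁' (slam F ⌊w * J⌋₊ ω)) - G₂ (z₂' (slam F ⌊w * J⌋₊ ω)) := ⟨_, rfl⟩
  rw [← hD] at hall ⊢
  have hDdeg : D.totalDegree ≤ K := by
    rw [hD]
    exact (totalDegree_sub _ _).trans (max_le (hl₁.deg _) (hl₂.deg _))
  obtain ⟨gg, hgg⟩ : ∃ gg : ℕ → ℕ, gg = fun i => ⌊(s i - d i) * J⌋₊ := ⟨_, rfl⟩
  obtain ⟨x, hx⟩ : ∃ x, x = xr F ω := ⟨_, rfl⟩
  obtain ⟨gω, hgω⟩ : ∃ gω, gω = g (z' (slam F ⌊w * J⌋₊ ω)) := ⟨_, rfl⟩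
  -- the charts at the rounded sample
  have hnear : ∀ i, r₀ ≤ i → i < r + 1 →
      |x (some (c i)) - eval x (gω i)| ≤ 1 / 2 ^ gg i + 1 / 2 ^ (gg i + 1) := by
    intro i hi0 hi
    have h1 := (hlab i hi0 hi).pos ω hωA
    have h2 := (hlab i hi0 hi).lip ω hωA
    have h3 := hd i hi0 hi
    have h4 := hσ1 i hi0 hi
    have h5 := hch.s0 i hi0 hi
    have hρ : ⌊(rd i + d i) * J⌋₊ ≤ J := by
      have e1 : (rd i + d i) * (J : ℝ) ≤ 1 * J :=
        mul_le_mul_of_nonneg_right (by linarith [h3.2]) hJ0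
      rw [one_mul] at e1
      exact (Nat.floor_le_floor e1).trans (le_of_eq (Nat.floor_natCast J))
    rw [← hgω] at h1 h2
    have h6 : |eval x (gω i) - eval (bt F ω) (gω i)| ≤
        2 ^ ⌊d i * J⌋₊ * ((m + 1) * (1 / 2 ^ J)) := by
      refine (mvσ (gω i) (bt F ω) x (2 ^ ⌊d i * J⌋₊) fun y hy o => h2 y (fun o => ?_) o).trans
        (mul_le_mul_of_nonneg_left ?_ (by positivity))
      · refine (hy o).trans ?_
        rw [hx]
        refine (xr_near F ω o).trans ?_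
        rw [div_le_div_iff₀ (by positivity) (by positivity), one_mul, one_mul]
        exact pow_le_pow_right₀ one_le_two hρ
      · refine (Finset.sum_le_sum (g := fun _ => 1 / (2 : ℝ) ^ J) fun o _ => ?_).trans (le_of_eq ?_)
        · rw [hx]
          exact xr_near F ω o
        · rw [Finset.sum_const, Finset.card_univ, Fintype.card_option, Fintype.card_fin,
            nsmul_eq_mul]
          push_cast
          ring
    have h7 : |x (some (c i)) - F.x ω (c i)| ≤ 1 / 2 ^ J := by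
      rw [hx]
      exact xr_near F ω (some (c i))
    have h8 : (2 : ℝ) ^ ⌊d i * J⌋₊ * ((m + 1) * (1 / 2 ^ J)) + 1 / 2 ^ J ≤
        1 / 2 ^ (gg i + 1) := by
      have e1 : (1 : ℝ) ≤ 2 ^ ⌊d i * J⌋₊ := one_le_pow₀ one_le_two
      have e2 : (2 : ℝ) ^ ⌊d i * J⌋₊ * ((m + 1) * (1 / 2 ^ J)) + 1 / 2 ^ J ≤
          2 ^ ⌊d i * J⌋₊ * (m + 2) / 2 ^ J := by
        have : (2 : ℝ) ^ ⌊d i * J⌋₊ * (m + 2) / 2 ^ J =
          2 ^ ⌊d i * J⌋₊ * ((m + 1) * (1 / 2 ^ J)) + 2 ^ ⌊d i * J⌋₊ * (1 / 2 ^ J) := by ring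
        rw [this]
        have e3 : 1 * (1 / (2 : ℝ) ^ J) ≤ 2 ^ ⌊d i * J⌋₊ * (1 / 2 ^ J) :=
          mul_le_mul_of_nonneg_right e1 (by positivity)
        linarith
      refine e2.trans ?_
      rw [div_le_div_iff₀ (by positivity) (by positivity), one_mul, pow_succ]
      have e3 : (2 : ℝ) ^ ⌊d i * J⌋₊ ≤ 2 ^ (d i * J) := E_floor_le h3.1.le
      have e4 : (2 : ℝ) ^ gg i ≤ 2 ^ ((1 - σ / 2 - d i) * J) := by
        rw [hgg]
        rcases le_total 0 (s i - d i) with h9 | h9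
        · exact (E_floor_le h9).trans (E_mono J (by linarith))
        · have e5 : ⌊(s i - d i) * (J : ℝ)⌋₊ = 0 :=
            Nat.floor_eq_zero.2 (lt_of_le_of_lt (mul_nonpos_of_nonpos_of_nonneg h9 hJ0) one_pos)
          show (2 : ℝ) ^ ⌊(s i - d i) * (J : ℝ)⌋₊ ≤ _
          rw [e5, pow_zero]
          exact E_one (by linarith [h5.1, h3.2])
      have e6 : (2 : ℝ) ^ (J : ℕ) = 2 ^ (d i * J) * (2 ^ (σ / 2 * J) * 2 ^ ((1 - σ / 2 - d i) * J)) := by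
        rw [E_add, E_add, ← Real.rpow_natCast]
        congr 1
        ring
      rw [e6]
      calc (2 : ℝ) ^ ⌊d i * J⌋₊ * (m + 2) * (2 ^ gg i * 2)
          = 2 ^ ⌊d i * J⌋₊ * (2 * (m + 2) * 2 ^ gg i) := by ring
        _ ≤ 2 ^ (d i * J) * (2 ^ (σ / 2 * J) * 2 ^ ((1 - σ / 2 - d i) * J)) := by
          refine mul_le_mul e3 (mul_le_mul f2 e4 (by positivity) (E_pos J _).le) (by positivity)
            (E_pos J _).le
    have h9 : x (some (c i)) - eval x (gω i) = (x (some (c i)) - F.x ω (c i)) +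
        (F.x ω (c i) - eval (bt F ω) (gω i)) - (eval x (gω i) - eval (bt F ω) (gω i)) := by ring
    rw [h9]
    have h10 : |F.x ω (c i) - eval (bt F ω) (gω i)| ≤ 1 / 2 ^ gg i := by
      rw [hgg]
      exact h1
    calc _ ≤ |x (some (c i)) - F.x ω (c i)| + |F.x ω (c i) - eval (bt F ω) (gω i)| +
          |eval x (gω i) - eval (bt F ω) (gω i)| := by
          refine (abs_sub _ _).trans (add_le_add (abs_add_le _ _) le_rfl)
      _ ≤ _ := by linarith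
  -- the segment
  have hseg := hmk D x (some (c r)) (2 ^ (ε / 2 * J) * (1 / 2 ^ P₁ + 1 / 2 ^ P₂))
    (1 / 2 ^ (gg r + 1)) hDdeg (by positivity) fun y hy0 hy1 => by
    refine hall _ ⟨?_, fun l hl => ?_, fun i hi0 hi => ?_⟩
    · rw [Function.update_of_ne (by simp), hx]
      show |F.t ω - F.t ω| ≤ _
      rw [sub_self, abs_zero]
      positivity
    · have hne : (some (c l) : Option (Fin m)) ≠ some (c r) := fun h => by
        have h1 := hinj (show l < r + 1 by omega) (show r < r + 1 by omega) (Option.some.inj h)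
        omega
      rw [Function.update_of_ne hne, hx, sub_self, abs_zero]
      positivity
    · have hdep : eval (Function.update x (some (c r)) (x (some (c r)) + y)) (gω i) =
          eval x (gω i) := by
        rw [hgω]
        refine (hlab i hi0 hi).dep _ _ _ (Function.update_of_ne (by simp) _ _) fun j hj => ?_
        obtain ⟨l, hl, rfl⟩ := mem_image.1 hj
        have hli := mem_range.1 hl
        refine Function.update_of_ne (fun h => ?_) _ _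
        have h1 := hinj (show l < r + 1 by omega) (show r < r + 1 by omega) (Option.some.inj h)
        omega
      rw [← hgω, hdep]
      have h1 := hnear i hi0 hi
      have h2 : (2 : ℝ) / 2 ^ ⌊(s i - d i) * J⌋₊ = 1 / 2 ^ gg i + 1 / 2 ^ (gg i + 1) +
          1 / 2 ^ (gg i + 1) := by
        rw [hgg, pow_succ]
        field_simp
        norm_num
      refine le_trans ?_ h2.ge
      rcases Nat.lt_or_ge i r with h3 | h3
      · have hne : (some (c i) : Option (Fin m)) ≠ some (c r) := fun h => by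
          have h1 := hinj (show i < r + 1 by omega) (show r < r + 1 by omega) (Option.some.inj h)
          omega
        rw [Function.update_of_ne hne]
        have : (0 : ℝ) < 1 / 2 ^ (gg i + 1) := by positivity
        linarith
      · obtain rfl : i = r := by omega
        rw [Function.update_self]
        have e1 : x (some (c i)) + y - eval x (gω i) = (x (some (c i)) - eval x (gω i)) + y := by
          ring
        rw [e1]
        refine (abs_add_le _ _).trans (add_le_add h1 ?_)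
        rw [abs_of_nonneg hy0]
        exact hy1
  rw [← hx]
  refine hseg.trans ?_
  have hB : (0 : ℝ) < 1 / 2 ^ P₁ + 1 / 2 ^ P₂ := by positivity
  have e1 : C * (2 ^ (ε / 2 * J) * (1 / 2 ^ P₁ + 1 / 2 ^ P₂)) / (1 / 2 ^ (gg r + 1)) =
      2 * C * (2 ^ (ε / 2 * J) * 2 ^ gg r) * (1 / 2 ^ P₁ + 1 / (2 : ℝ) ^ P₂) := by
    rw [div_div_eq_mul_div, div_one, pow_succ]
    ring
  rw [e1]
  refine mul_le_mul_of_nonneg_right ?_ hB.le
  have h1 := (hch.s0 r hr (Nat.lt_succ_self r)).1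
  have h2 : (2 : ℝ) ^ gg r ≤ 2 ^ (s r * J) := by
    rw [hgg]
    refine le_trans ?_ (E_floor_le h1)
    exact pow_le_pow_right₀ one_le_two (Nat.floor_le_floor (mul_le_mul_of_nonneg_right
      (by linarith [(hd r hr (Nat.lt_succ_self r)).1]) hJ0))
  have e2 : (2 : ℝ) ^ ((s r + ε) * J) = 2 ^ (ε / 2 * J) * (2 ^ (ε / 2 * J) * 2 ^ (s r * J)) := by
    rw [E_add, E_add]
    congr 1
    ring
  rw [e2]
  exact mul_le_mul f1 (mul_le_mul_of_nonneg_left h2 (E_pos J (ε / 2)).le)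
    (mul_nonneg (E_pos J _).le (by positivity)) (E_pos J _).le

/-- The same for the labels of two windows, with precisions. -/
theorem sl_two {S : PCl m} {C₀ : ℝ} (htm : TmC S C₀) {c : ℕ → Fin m} {r₀ r : ℕ} (hr : r₀ ≤ r)
    {w₁ w u₀ u₁ : ℝ} {s rd : ℕ → ℝ} (hch : Chn S c r₀ (r + 1) w u₀ u₁ s rd) (hw : w₁ ≤ w)
    (k : Fin m) {p₁ p₂ x : ℝ} (hx : s r - min p₁ p₂ < x) :
    ∃ e : ℝ, 0 < e ∧ ∀ (K : ℕ) (η : ℝ), 0 < η → Bas S (fun J F A => ∀ (V₁ V₂ : Type)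
      (z₁ : PtT F → V₁) (z₁' : LnT F → V₁) (G₁ : V₁ → MvPolynomial (Option (Fin m)) ℝ)
      (z₂ : PtT F → V₂) (z₂' : LnT F → V₂) (G₂ : V₂ → MvPolynomial (Option (Fin m)) ℝ),
      LbP F ((range (r + 1)).image c) k K J ⌊w₁ * J⌋₊ ⌊(p₁ - e) * J⌋₊ A z₁ z₁' G₁ →
      LbP F ((range (r + 1)).image c) k K J ⌊w * J⌋₊ ⌊(p₂ - e) * J⌋₊ A z₂ z₂' G₂ →
      Pb (Pool.Agent.H49.Ent.cond F.p A True) (fun ω =>
        ¬ |eval (xr F ω) (pderiv (some (c r)) (G₂ (z₂' (slam F ⌊w * J⌋₊ ω)) -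
          G₁ (z₁' (slam F ⌊w₁ * J⌋₊ ω))))| ≤ 2 ^ (x * J)) ≤ η) := by
  obtain ⟨e, he⟩ : ∃ e : ℝ, e = (x - (s r - min p₁ p₂)) / 3 := ⟨_, rfl⟩
  have he0 : 0 < e := by rw [he]; linarith
  refine ⟨e, he0, fun K η hη => ?_⟩
  obtain ⟨J₁, hJ₁⟩ := E_big (a := e) (C := 4) he0
  refine Bas.mono J₁ (sl_step htm hr hch k he0 K hη) ?_
  rintro J hJ F A H V₁ V₂ z₁ z₁' G₁ z₂ z₂' G₂ hl₁ hl₂
  have hJ0 : (0 : ℝ) ≤ J := Nat.cast_nonneg J
  have f1 := hJ₁ J hJ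
  have hw1 : w ≤ 1 := by linarith [hch.wu0, hch.u0]
  obtain ⟨g1, g2⟩ := floorw hw hw1 J
  have h1 := H _ _ _ _ _ _ _ _ _ _ hl₂ (hl₁.win g1 g2)
  refine le_trans (Pb_mono25 (cond_nonneg F.isLaw.nonneg _ _) fun ω _ hn => ?_) h1
  intro hle
  refine hn ?_
  have e0 : z₁' ((slam F ⌊w * J⌋₊ ω).1, (slam F ⌊w * J⌋₊ ω).2.1,
      (slam F ⌊w * J⌋₊ ω).2.2 / 2 ^ (⌊w * (J : ℝ)⌋₊ - ⌊w₁ * (J : ℝ)⌋₊)) =
      z₁' (slam F ⌊w₁ * J⌋₊ ω) := wz_slam z₁' g1 g2 ω
  rw [e0] at hle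
  refine hle.trans ?_
  have e1 : 1 / (2 : ℝ) ^ ⌊(p₁ - e) * J⌋₊ ≤ 2 * 2 ^ (-(min p₁ p₂ - e) * J) :=
    (E_inv_floor J (p₁ - e)).trans (mul_le_mul_of_nonneg_left
      (E_mono J (by linarith [min_le_left p₁ p₂])) (by norm_num))
  have e2 : 1 / (2 : ℝ) ^ ⌊(p₂ - e) * J⌋₊ ≤ 2 * 2 ^ (-(min p₁ p₂ - e) * J) :=
    (E_inv_floor J (p₂ - e)).trans (mul_le_mul_of_nonneg_left
      (E_mono J (by linarith [min_le_right p₁ p₂])) (by norm_num))
  have e3 := E_pos J (s r + e)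
  calc (2 : ℝ) ^ ((s r + e) * J) * (1 / 2 ^ ⌊(p₂ - e) * J⌋₊ + 1 / 2 ^ ⌊(p₁ - e) * J⌋₊)
      ≤ 2 ^ ((s r + e) * J) * (4 * 2 ^ (-(min p₁ p₂ - e) * J)) :=
        mul_le_mul_of_nonneg_left (by linarith) e3.le
    _ = 4 * (2 ^ ((s r + e) * J) * 2 ^ (-(min p₁ p₂ - e) * J)) := by ring
    _ ≤ 2 ^ (e * J) * (2 ^ ((s r + e) * J) * 2 ^ (-(min p₁ p₂ - e) * J)) :=
        mul_le_mul_of_nonneg_right f1 (mul_nonneg e3.le (E_pos J _).le)
    _ = 2 ^ (x * J) := by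
        rw [E_add, E_add]
        congr 1
        rw [he]
        ring

/-- Finitely many numbers less than `x`. -/
theorem lt_fin (n : ℕ) (f : ℕ → ℝ) {x : ℝ} (h : ∀ k < n, f k < x) :
    ∃ y : ℝ, y < x ∧ ∀ k < n, f k < y := by
  induction n with
  | zero => exact ⟨x - 1, by linarith, fun k hk => absurd hk (Nat.not_lt_zero k)⟩
  | succ n ih =>
    obtain ⟨y, h1, h2⟩ := ih fun k hk => h k (by omega)
    have h3 := h n (Nat.lt_succ_self n)
    refine ⟨max y ((f n + x) / 2), max_lt h1 (by linarith), fun k hk => ?_⟩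
    rcases Nat.lt_or_ge k n with h4 | h4
    · exact (h2 k h4).trans_le (le_max_left _ _)
    · obtain rfl : k = n := by omega
      exact lt_of_lt_of_le (by linarith) (le_max_right _ _)

/-- **The slopes of a label closed at an early window and of the labels of a later window**, through
windows in between. -/
theorem tel_ind {S : PCl m} {C₀ : ℝ} (htm : TmC S C₀) {c : ℕ → Fin m} {r₀ r : ℕ} (hr : r₀ ≤ r)
    (κ : Fin m) {wb pN u₀ u₁ : ℕ → ℝ} {s rd : ℕ → ℕ → ℝ} {Ψ : Fml m} {K : ℕ}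
    (hΨ : ∀ (J : ℕ) (F : Fam m J) (A : F.Ω → Prop) (V : Type) (z : PtT F → V) (z' : LnT F → V)
      (G : V → MvPolynomial (Option (Fin m)) ℝ), Ψ J F A V z z' G →
      LbP F ((range (r + 1)).image c) κ K J ⌊wb 0 * J⌋₊ ⌊pN 0 * J⌋₊ A z z' G) :
    ∀ M : ℕ, (∀ k ≤ M, wb k ≤ wb (k + 1)) →
    (∀ k ≤ M, Chn S c r₀ (r + 1) (wb (k + 1)) (u₀ k) (u₁ k) (s k) (rd k)) →
    (∀ k, 0 < k → k ≤ M → AttP S ((range (r + 1)).image c) κ (wb k) (pN k)) →
    ∀ x : ℝ, (∀ k ≤ M, s k r - min (pN k) (pN (k + 1)) < x) →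
    ∃ e : ℝ, 0 < e ∧ ∀ (K₁ : ℕ) (η : ℝ), 0 < η → Bas S (fun J F A =>
      ∀ (V : Type) (z : PtT F → V) (z' : LnT F → V) (G : V → MvPolynomial (Option (Fin m)) ℝ),
      Ψ J F A V z z' G → ∀ (V₁ : Type) (z₁ : PtT F → V₁) (z₁' : LnT F → V₁)
        (G₁ : V₁ → MvPolynomial (Option (Fin m)) ℝ),
      LbP F ((range (r + 1)).image c) κ K₁ J ⌊wb (M + 1) * J⌋₊ ⌊(pN (M + 1) - e) * J⌋₊ A z₁ z₁'
        G₁ →
      Pb (Pool.Agent.H49.Ent.cond F.p A True) (fun ω =>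
        ¬ |eval (xr F ω) (pderiv (some (c r)) (G₁ (z₁' (slam F ⌊wb (M + 1) * J⌋₊ ω)) -
          G (z' (slam F ⌊wb 0 * J⌋₊ ω))))| ≤ 2 ^ (x * J)) ≤ η) := by
  intro M
  induction M with
  | zero =>
    intro hw hch _ x hx
    obtain ⟨e, he, H⟩ := sl_two htm hr (hch 0 le_rfl) (hw 0 le_rfl) κ (hx 0 le_rfl)
    refine ⟨e, he, fun K₁ η hη => Bas.mono 0 (H (max K K₁) η hη) ?_⟩
    rintro J - F A H V z z' G hG V₁ z₁ z₁' G₁ hG₁
    have hJ0 : (0 : ℝ) ≤ J := Nat.cast_nonneg J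
    exact H _ _ z z' G z₁ z₁' G₁ ((hΨ J F A V z z' G hG).mono (Finset.Subset.refl _)
      (le_max_left _ _) (Nat.floor_le_floor (mul_le_mul_of_nonneg_right (by linarith) hJ0)))
      (hG₁.mono (Finset.Subset.refl _) (le_max_right _ _) le_rfl)
  | succ M ih =>
    intro hw hch hatt x hx
    obtain ⟨y, hy, hxy⟩ := lt_fin (M + 2) (fun k => s k r - min (pN k) (pN (k + 1)))
      fun k hk => hx k (by omega)
    obtain ⟨e₁, he₁, H₁⟩ := ih (fun k hk => hw k (by omega)) (fun k hk => hch k (by omega))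
      (fun k h1 h2 => hatt k h1 (by omega)) y fun k hk => hxy k (by omega)
    obtain ⟨e₂, he₂, H₂⟩ := sl_two htm hr (hch (M + 1) le_rfl) (hw (M + 1) le_rfl) κ
      (hxy (M + 1) (by omega))
    obtain ⟨e, he⟩ : ∃ e : ℝ, e = min e₁ e₂ := ⟨_, rfl⟩
    have he0 : 0 < e := by rw [he]; exact lt_min he₁ he₂
    have hee1 : e ≤ e₁ := by rw [he]; exact min_le_left _ _
    have hee2 : e ≤ e₂ := by rw [he]; exact min_le_right _ _
    obtain ⟨K', hK'⟩ := hatt (M + 1) (by omega) le_rfl e he0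
    refine ⟨e₂, he₂, fun K₁ η hη => ?_⟩
    obtain ⟨J₁, hJ₁⟩ := E_big (a := x - y) (C := 2) (by linarith)
    refine Bas.mono J₁ (((H₁ K' (η / 2) (half_pos hη)).and (H₂ (max K' K₁) (η / 2)
      (half_pos hη))).and (hK'.and (tmc_bas htm one_pos))) ?_
    rintro J hJ F A ⟨⟨a1, a2⟩, ⟨V₂, z₂, z₂', G₂, hG₂⟩, hA, -⟩ V z z' G hG V₁ z₁ z₁' G₁ hG₁
    have hJ0 : (0 : ℝ) ≤ J := Nat.cast_nonneg J
    have f1 := hJ₁ J hJ
    have hq := isLaw_cond F.isLaw hA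
    have b1 := a1 V z z' G hG V₂ z₂ z₂' G₂ (hG₂.mono (Finset.Subset.refl _) le_rfl
      (Nat.floor_le_floor (mul_le_mul_of_nonneg_right (by linarith) hJ0)))
    have b2 := a2 _ _ z₂ z₂' G₂ z₁ z₁' G₁ (hG₂.mono (Finset.Subset.refl _)
      (le_max_left _ _) (Nat.floor_le_floor (mul_le_mul_of_nonneg_right (by linarith) hJ0)))
      (hG₁.mono (Finset.Subset.refl _) (le_max_right _ _) le_rfl)
    have b3 := (Pb_or25 hq.nonneg _ _).trans (add_le_add b1 b2)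
    refine le_trans (Pb_mono25 hq.nonneg fun ω _ hn => ?_) (b3.trans (le_of_eq (by ring)))
    by_contra hno
    rw [not_or, not_not, not_not] at hno
    obtain ⟨n1, n2⟩ := hno
    refine hn ?_
    rw [map_sub, map_sub] at n1 n2 ⊢
    have e1 := abs_sub_le (eval (xr F ω) (pderiv (some (c r))
      (G₁ (z₁' (slam F ⌊wb (M + 1 + 1) * J⌋₊ ω))))) (eval (xr F ω) (pderiv (some (c r))
      (G₂ (z₂' (slam F ⌊wb (M + 1) * J⌋₊ ω))))) (eval (xr F ω) (pderiv (some (c r))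
      (G (z' (slam F ⌊wb 0 * J⌋₊ ω)))))
    refine e1.trans ((add_le_add n2 n1).trans ?_)
    have e2 : (2 : ℝ) ^ (x * J) = 2 ^ ((x - y) * J) * 2 ^ (y * J) := by
      rw [E_add]
      congr 1
      ring
    rw [e2]
    have e3 := E_pos J y
    calc (2 : ℝ) ^ (y * J) + 2 ^ (y * J) = 2 * 2 ^ (y * J) := by ring
      _ ≤ _ := mul_le_mul_of_nonneg_right f1 e3.le

/-- **A family of labels is blind** if at all windows in between the coordinate is flatter than its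
base: `x` is at least the slopes of the steps. -/
theorem blc_tel {S : PCl m} {C₀ : ℝ} (htm : TmC S C₀) {c : ℕ → Fin m} {r₀ r : ℕ} (hr : r₀ ≤ r)
    {κ : Fin m} {wb pN u₀ u₁ : ℕ → ℝ} {s rd : ℕ → ℕ → ℝ} {Ψ : Fml m} {K : ℕ}
    (hΨ : ∀ (J : ℕ) (F : Fam m J) (A : F.Ω → Prop) (V : Type) (z : PtT F → V) (z' : LnT F → V)
      (G : V → MvPolynomial (Option (Fin m)) ℝ), Ψ J F A V z z' G →
      LbP F ((range (r + 1)).image c) κ K J ⌊wb 0 * J⌋₊ ⌊pN 0 * J⌋₊ A z z' G) {M : ℕ}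
    (hw : ∀ k ≤ M, wb k ≤ wb (k + 1))
    (hch : ∀ k ≤ M, Chn S c r₀ (r + 1) (wb (k + 1)) (u₀ k) (u₁ k) (s k) (rd k))
    (hatt : ∀ k, 0 < k → k ≤ M → AttP S ((range (r + 1)).image c) κ (wb k) (pN k))
    {x : ℝ} (hx : ∀ k ≤ M, s k r - min (pN k) (pN (k + 1)) < x) (K₁ Ku : ℕ) {p₁ : ℝ}
    (hp₁ : pN (M + 1) ≤ p₁) (p₂ : ℝ) :
    BlC S c r κ (wb 0) (wb (M + 1)) K₁ Ku p₁ p₂ x Ψ := by
  intro η χ hη hχ
  obtain ⟨y, hy, hxy⟩ := lt_fin (M + 1) (fun k => s k r - min (pN k) (pN (k + 1)))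
    fun k hk => hx k (by omega)
  obtain ⟨e, he, H⟩ := tel_ind htm hr κ hΨ M hw hch hatt y fun k hk => hxy k (by omega)
  obtain ⟨J₁, hJ₁⟩ := E_big (a := x - y) (C := 2) (by linarith)
  refine Bas.mono J₁ ((H K₁ η hη).and (tmc_bas htm one_pos)) ?_
  rintro J hJ F A ⟨H, hA, -⟩ V z z' G hG P₁ V₁ z₁ z₁' G₁ hG₁ hP₁ P₂ V₂ z₂ z₂' G₂ - -
  have hJ0 : (0 : ℝ) ≤ J := Nat.cast_nonneg J
  have f1 := hJ₁ J hJ
  have hq := isLaw_cond F.isLaw hA
  have hP : ⌊(pN (M + 1) - e) * (J : ℝ)⌋₊ ≤ P₁ := by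
    have e1 : (pN (M + 1) - e) * (J : ℝ) ≤ P₁ :=
      (mul_le_mul_of_nonneg_right (by linarith) hJ0).trans hP₁
    exact (Nat.floor_le_floor e1).trans (le_of_eq (Nat.floor_natCast P₁))
  refine le_trans (Pb_mono25 hq.nonneg fun ω _ hn hle => ?_)
    (H V z z' G hG V₁ z₁ z₁' G₁ (hG₁.mono (Finset.Subset.refl _) le_rfl hP))
  have e2 : (2 : ℝ) ^ (x * J) = 2 ^ ((x - y) * J) * 2 ^ (y * J) := by
    rw [E_add]
    congr 1
    ring
  have e3 := E_pos J y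
  have e4 : 2 * (2 : ℝ) ^ (y * J) ≤ 2 ^ (x * J) := by
    rw [e2]
    exact mul_le_mul_of_nonneg_right f1 e3.le
  linarith

end Pool.ALT
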