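import Pool.Agent.H60.ALT.Alw
import Pool.Agent.H18.PN.Tel

/-!
# The natural labels at a window, from blindness

`nzo_bl`: the natural labels of a family exist at a window with the data `AlW`, if the family is
blind there; `nzo_tel`: the family of the labels of an earlier window, from the levels of a list of
windows (`blc_tel`).
-/

set_option autoImplicit false

namespace Pool.ALT

open Finset Real MvPolynomial
open Pool.Agent.H49.Ent Pool.Agent.H32.Dense Pool.STK Pool.KA Pool.KSAT Pool.K2S Pool.PB Pool.S6C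
  Pool.GEN Pool.RCD Pool.LA91 Pool.OWN68
open Pool.UNJ (ceI)
open Pool.GRD (LbP)

variable {m : ℕ}

/-- **The natural labels at a window** `v`, from blindness. -/
theorem nzo_bl {S : PCl m} {C₀ : ℝ} (htm : TmC S C₀)
    (hpos : ∀ (τ : ℝ) (J : ℕ) (F : Fam m J) (A : F.Ω → Prop), S.St τ J F A → 0 < Pe F.p A)
    {c : ℕ → Fin m} {r₀ : ℕ} {κ : Fin m} {D : ℕ} (hinj : Set.InjOn c (Set.Iio (r₀ + 1)))
    {v pκ pu E Eu u : ℝ} (hv : AlW S c r₀ κ D v pκ pu E Eu u) {w : ℝ} (hw0 : 0 ≤ w)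
    (hwv : w ≤ v) {Ψ : Fml m}
    (hΨd : ∀ (J : ℕ) (F : Fam m J) (A : F.Ω → Prop) (V : Type) (z : PtT F → V) (z' : LnT F → V)
      (G : V → MvPolynomial (Option (Fin m)) ℝ), Ψ J F A V z z' G →
      (∀ y, (G y).totalDegree ≤ D) ∧ (∀ y, DpI ((range (r₀ + 1)).image c) (G y)) ∧
      ∀ ω, A ω → z (ptr F J ω) = z' (slam F ⌊w * J⌋₊ ω))
    (hΨs : ∀ (J : ℕ) (F : Fam m J) (A B : F.Ω → Prop) (V : Type) (z : PtT F → V)
      (z' : LnT F → V) (G : V → MvPolynomial (Option (Fin m)) ℝ), Sub B A →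
      Ψ J F A V z z' G → Ψ J F B V z z' G) {x₀ t₀ : ℝ} (ht₀ : 0 < t₀)
    (hbl : ∀ t : ℝ, 0 < t → t ≤ t₀ → ∀ p₂ : ℝ, BlC S c r₀ κ w v D D (pκ - t) p₂ x₀ Ψ)
    {uN pN eN : ℝ} (hpN : 0 ≤ pN) (hpk : pN < pκ) (hx : pN + x₀ < pu) (hu : u < uN)
    (hu1 : uN < 1) (heN : E < eN) (hN : uN < pN + eN) : ∃ p₁ p₂ : ℝ, p₁ < pκ ∧ p₂ < pu ∧
      NzO S Ψ c r₀ κ D D D w v p₁ p₂ eN uN pN := by
  classical
  obtain ⟨C, hC, hnz⟩ := nz_ok r₀ D D D
  have hv0 := hv.w0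
  have hvu := hv.wu
  have hvu1 := hv.u1
  have hE0 := hv.E0
  have hEu0 := hv.Eu0
  have hpE := hv.pE
  have hpEu := hv.pEu
  have hrE := hv.rE
  have hrEu := hv.rEu
  have hpk0 := hv.pk0
  have hpu0 := hv.pu0
  -- the error of the boxes
  obtain ⟨ε, hε⟩ : ∃ ε : ℝ, ε = min (min (pκ - pN) (pu - (pN + x₀)))
      (min (1 - u) (1 - (Eu + pu))) / 4 := ⟨_, rfl⟩
  have hε0 : 0 < ε := by
    rw [hε]
    exact div_pos (lt_min (lt_min (by linarith) (by linarith))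
      (lt_min (by linarith) (by linarith))) (by norm_num)
  have k0 : 4 * ε ≤ pκ - pN := by
    rw [hε, mul_div_cancel₀ _ (by norm_num)]
    exact (min_le_left _ _).trans (min_le_left _ _)
  have k1 : 4 * ε ≤ pu - (pN + x₀) := by
    rw [hε, mul_div_cancel₀ _ (by norm_num)]
    exact (min_le_left _ _).trans (min_le_right _ _)
  have k2 : 4 * ε ≤ 1 - u := by
    rw [hε, mul_div_cancel₀ _ (by norm_num)]
    exact (min_le_right _ _).trans (min_le_left _ _)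
  have k3 : 4 * ε ≤ 1 - (Eu + pu) := by
    rw [hε, mul_div_cancel₀ _ (by norm_num)]
    exact (min_le_right _ _).trans (min_le_right _ _)
  -- the error of the charts
  obtain ⟨a₃, ha₃⟩ : ∃ a : ℝ, a = min (min (1 - (pκ + E)) (1 - (pu + Eu)))
      (min (min pκ pu) (1 - u)) := ⟨_, rfl⟩
  have hC0 : 0 < C := by linarith
  obtain ⟨t, ht⟩ : ∃ t : ℝ, t = min (min (ε / C) t₀) a₃ / 16 := ⟨_, rfl⟩
  have ha₃0 : 0 < a₃ := by
    rw [ha₃]
    exact lt_min (lt_min (by linarith) (by linarith)) (lt_min (lt_min hpk0 hpu0) (by linarith))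
  have ht0 : 0 < t := by
    rw [ht]
    exact div_pos (lt_min (lt_min (by positivity) ht₀) ha₃0) (by norm_num)
  have t1 : 16 * t ≤ ε / C := by
    rw [ht, mul_div_cancel₀ _ (by norm_num)]
    exact (min_le_left _ _).trans (min_le_left _ _)
  have t2 : 16 * t ≤ t₀ := by
    rw [ht, mul_div_cancel₀ _ (by norm_num)]
    exact (min_le_left _ _).trans (min_le_right _ _)
  have t3 : 16 * t ≤ a₃ := by
    rw [ht, mul_div_cancel₀ _ (by norm_num)]
    exact min_le_right _ _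
  have i7 : a₃ ≤ 1 - (pκ + E) := by rw [ha₃]; exact (min_le_left _ _).trans (min_le_left _ _)
  have i8 : a₃ ≤ 1 - (pu + Eu) := by rw [ha₃]; exact (min_le_left _ _).trans (min_le_right _ _)
  have i9 : a₃ ≤ pκ := by
    rw [ha₃]
    exact (min_le_right _ _).trans ((min_le_left _ _).trans (min_le_left _ _))
  have i10 : a₃ ≤ pu := by
    rw [ha₃]
    exact (min_le_right _ _).trans ((min_le_left _ _).trans (min_le_right _ _))
  have i11 : a₃ ≤ 1 - u := by rw [ha₃]; exact (min_le_right _ _).trans (min_le_right _ _)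
  have hCt : C * (16 * t) ≤ ε := by
    have h7 := t1
    rw [le_div_iff₀ hC0] at h7
    linarith
  have hεt : t ≤ ε := by
    have h1 : 1 * (16 * t) ≤ C * (16 * t) := mul_le_mul_of_nonneg_right hC (by linarith)
    linarith
  have U₂ := hv.upu hpos (K := D) le_rfl (u' := u + t) (p := pu - 2 * t) (e := Eu + 4 * t)
    (by linarith) (by linarith) (by linarith) (by linarith) (by linarith) (by linarith)
  have UN := hv.upg hpos (K := max D D * max 1 D) (u' := uN) (p := pN) (e := eN)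
    ((le_max_left D D).trans (Nat.le_mul_of_pos_right _ (by positivity))) hu hu1 heN
    (by linarith) hN hpN
  have hbl' := hbl (2 * t) (by linarith) (by linarith) (pu - 2 * t)
  refine ⟨pκ - 2 * t + t, pu - 2 * t + t, by linarith, by linarith, fun η hη => ?_⟩
  exact hnz htm hpos hinj hv.ful hv.fI0 U₂ hw0 hwv hvu (by linarith) ε hε0
    (by
      have : C * (pu - (pu - 2 * t)) ≤ C * (16 * t) :=
        mul_le_mul_of_nonneg_left (by linarith) hC0.le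
      linarith) (by linarith) (by linarith) UN x₀ (pκ - 2 * t) η t hη ht0
    (by linarith) (by linarith) _ hΨd hΨs hbl'

/-- The family of the labels of the window `w`. -/
def LbF (I : Finset (Fin m)) (κ : Fin m) (D : ℕ) (E₀ R₀ P₀ w : ℝ) : Fml m :=
  fun J F A _ z z' G =>
    LbOK F I κ D ⌊E₀ * J⌋₊ J ⌊w * J⌋₊ ⌊R₀ * J⌋₊ ⌊P₀ * J⌋₊ A z z' G

theorem LbF.hs {I : Finset (Fin m)} {κ : Fin m} {D : ℕ} {E₀ R₀ P₀ w : ℝ} (J : ℕ) (F : Fam m J)
    (A B : F.Ω → Prop) (V : Type) (z : PtT F → V) (z' : LnT F → V)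
    (G : V → MvPolynomial (Option (Fin m)) ℝ) (hB : Sub B A)
    (h : LbF I κ D E₀ R₀ P₀ w J F A V z z' G) : LbF I κ D E₀ R₀ P₀ w J F B V z z' G :=
  LbOK.sub h hB

theorem LbF.hd {I : Finset (Fin m)} {κ : Fin m} {D : ℕ} {E₀ R₀ P₀ w : ℝ} (J : ℕ) (F : Fam m J)
    (A : F.Ω → Prop) (V : Type) (z : PtT F → V) (z' : LnT F → V)
    (G : V → MvPolynomial (Option (Fin m)) ℝ) (h : LbF I κ D E₀ R₀ P₀ w J F A V z z' G) :
    (∀ y, (G y).totalDegree ≤ D) ∧ (∀ y, DpI I (G y)) ∧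
      ∀ ω, A ω → z (ptr F J ω) = z' (slam F ⌊w * J⌋₊ ω) :=
  ⟨LbOK.deg h, LbOK.dep h, LbOK.cls h⟩

/-- **The natural labels of the window** `wb (M + 1)` over the labels of the window `wb 0`. -/
theorem nzo_tel {S : PCl m} {C₀ : ℝ} (htm : TmC S C₀)
    (hpos : ∀ (τ : ℝ) (J : ℕ) (F : Fam m J) (A : F.Ω → Prop), S.St τ J F A → 0 < Pe F.p A)
    {c : ℕ → Fin m} {r : ℕ} {κ : Fin m} {D M : ℕ} {wb : ℕ → ℝ} {sU sN : ℝ → ℝ}
    (hinj : Set.InjOn c (Set.Iio (r + 1))) (hw0 : 0 ≤ wb 0) (hw : ∀ k ≤ M, wb k ≤ wb (k + 1))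
    (hch : ∀ k ≤ M, ∃ (u₀ u₁ : ℝ) (s rd : ℕ → ℝ), Chn S c 0 (r + 1) (wb (k + 1)) u₀ u₁ s rd ∧
      s r = sU (wb (k + 1)))
    (hatt : ∀ k, 0 < k → k ≤ M → AttP S ((range (r + 1)).image c) κ (wb k) (sN (wb k)))
    {E Eu u : ℝ} (hv : AlW S c r κ D (wb (M + 1)) (sN (wb (M + 1))) (sU (wb (M + 1))) E Eu u)
    {E₀ R₀ P₀ x₀ : ℝ} (hx0 : sU (wb 1) - P₀ < x₀)
    (hx : ∀ k ≤ M, sU (wb (k + 1)) - sN (wb k) < x₀ ∧ sU (wb (k + 1)) - sN (wb (k + 1)) < x₀)
    {uN pN eN : ℝ} (hpN : 0 ≤ pN) (hpk : pN < sN (wb (M + 1))) (hx1 : pN + x₀ < sU (wb (M + 1)))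
    (hu : u < uN) (hu1 : uN < 1) (heN : E < eN) (hN : uN < pN + eN) :
    ∃ p₁ p₂ : ℝ, p₁ < sN (wb (M + 1)) ∧ p₂ < sU (wb (M + 1)) ∧
      NzO S (LbF ((range (r + 1)).image c) κ D E₀ R₀ P₀ (wb 0)) c r κ D D D (wb 0) (wb (M + 1))
        p₁ p₂ eN uN pN := by
  have hmon : ∀ k ≤ M + 1, wb 0 ≤ wb k := by
    intro k hk
    induction k with
    | zero => exact le_rfl
    | succ k ih => exact (ih (by omega)).trans (hw k (by omega))
  have hch' : ∀ k, ∃ (u₀ u₁ : ℝ) (s rd : ℕ → ℝ), k ≤ M →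
      Chn S c 0 (r + 1) (wb (k + 1)) u₀ u₁ s rd ∧ s r = sU (wb (k + 1)) := by
    intro k
    by_cases hk : k ≤ M
    · obtain ⟨u₀, u₁, s, rd, h⟩ := hch k hk
      exact ⟨u₀, u₁, s, rd, fun _ => h⟩
    · exact ⟨0, 0, fun _ => 0, fun _ => 0, fun h => absurd h hk⟩
  choose u₀ u₁ s rd hch' using hch'
  refine nzo_bl htm hpos hinj hv hw0 (hmon (M + 1) le_rfl) LbF.hd LbF.hs
    (t₀ := (x₀ - (sU (wb (M + 1)) - sN (wb (M + 1)))) / 2)
    (by have := (hx M le_rfl).2; linarith) (fun t ht0 ht1 p₂ => ?_) hpN hpk hx1 hu hu1 heN hN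
  obtain ⟨pn, hpn⟩ : ∃ pn : ℕ → ℝ, pn = fun k => if k = 0 then P₀ else
    if k = M + 1 then sN (wb (M + 1)) - t else sN (wb k) := ⟨_, rfl⟩
  have p0 : pn 0 = P₀ := by rw [hpn]; exact if_pos rfl
  have pM : pn (M + 1) = sN (wb (M + 1)) - t := by
    rw [hpn]
    show (if M + 1 = 0 then _ else if M + 1 = M + 1 then _ else _) = _
    rw [if_neg (Nat.succ_ne_zero M), if_pos rfl]
  have pk : ∀ k, 0 < k → k ≤ M → pn k = sN (wb k) := fun k h1 h2 => by
    rw [hpn]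
    show (if k = 0 then _ else if k = M + 1 then _ else _) = _
    rw [if_neg (by omega), if_neg (by omega)]
  have hlast := (hx M le_rfl).2
  refine blc_tel htm (Nat.zero_le r) (wb := wb) (pN := pn) (u₀ := u₀) (u₁ := u₁) (s := s)
    (rd := rd) (K := D) (fun J F A V z z' G h => ?_) hw (fun k hk => (hch' k hk).1)
    (fun k h1 h2 => by rw [pk k h1 h2]; exact hatt k h1 h2) (fun k hk => ?_) D D
    (by rw [pM]) p₂
  · rw [p0]
    exact LbP.of h
  · rw [(hch' k hk).2]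
    have h1 := hx k hk
    have h2 : sU (wb (k + 1)) - x₀ < pn k := by
      rcases Nat.eq_zero_or_pos k with rfl | h0
      · rw [p0]
        linarith
      · rw [pk k h0 hk]
        linarith [h1.1]
    have h3 : sU (wb (k + 1)) - x₀ < pn (k + 1) := by
      rcases hk.eq_or_lt with rfl | h0
      · rw [pM]
        linarith
      · rw [pk (k + 1) (Nat.succ_pos k) h0]
        linarith [h1.2]
    have := lt_min h2 h3
    linarith

end Pool.ALT
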