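import Pool.Agent.H18.PN.Nug
import Pool.Agent.H43.RW2.Num
import Pool.Agent.H37.RW2.Rw

/-!
# Both rows of a pair, from the raw rows and the rate

`rows_ps`: the rows `Rw2` of a family of pairs over a nested chain, if the second slope is at most the
first one, from the raw rows of the second coordinate and the rate of its digits alone.
-/

set_option autoImplicit false

namespace Pool.RW37

open Finset Real MvPolynomial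
open Pool.Agent.H49.Ent Pool.Agent.H32.Dense Pool.STK Pool.KA Pool.KSAT Pool.K2S Pool.PB Pool.GEN
open Pool.S6C Pool.RCD Pool.LA91 Pool.OWN68 Pool.CHT Pool.AJX Pool.PN18
open Pool.ALT (AltAt ful_few)

variable {m : ℕ}

/-- **Both rows of a pair.** -/
theorem rows_ps {S : PCl m} {C₀ : ℝ} (htm : TmC S C₀)
    (hpos : ∀ (τ : ℝ) (J : ℕ) (F : Fam m J) (A : F.Ω → Prop), S.St τ J F A → 0 < Pe F.p A)
    {Ψ : Fm2 m} {c : ℕ → Fin m} {r K K1 k : ℕ} {sn : ℕ → ℝ → ℝ} {G : Set ℝ}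
    {n f Sl E rd : ℕ → ℝ} {v Q lam ρ ρ₀ φ Λ h δ₁ g₀ e : ℝ}
    (hΨ : Pool.RW37.PsL Ψ c 0 r K e E v lam rd (fun l => sn l v) n)
    (hchl : ChlG S c 0 (r + 1) sn G)
    (hch : ∀ w ∈ G, ∃ (u₁ : ℝ) (rd : ℕ → ℝ), (∀ i, 0 ≤ i → i ≤ r → 0 ≤ rd i) ∧
      Chn S c 0 (r + 1) w w u₁ (fun l => sn l w) rd)
    (hv0 : 0 ≤ v) (hvG : v ∈ G) (hQ : 0 ≤ Q)
    (hgap : ∀ x, v ≤ x → x ≤ v + Q → ∃ w ∈ G, |w - x| ≤ ρ₀) (hρ₀ : 0 < ρ₀) (hρ : 0 < ρ)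
    (hφ : 0 ≤ φ) (hU : v + lam < 1)
    (hsl : ∀ l ≤ r + 1, 0 ≤ Sl l ∧ Sl l ≤ Λ ∧
      ∀ w, v ≤ w → w ≤ v + Q → |sn l w - sn l v - Sl l * (w - v)| ≤ φ)
    (hb : 0 < Sl (r + 1)) (hS : Sl (r + 1) ≤ Sl r) (hp : 0 ≤ sn (r + 1) v)
    (hn : ∀ l < r, n l = sn l v + f l)
    (hf : ∀ l < r, ∀ l' < l, f l + Λ * Q + 2 * φ + ρ ≤ f l')
    (hf2 : ∀ l < r, 2 * (Λ * Q) + 4 * φ + 2 * ρ ≤ f l)
    (hUf : ∀ l < r, f l + φ + Q ≤ lam) (hUX : Λ * Q + 2 * φ + Q + ρ ≤ lam)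
    (hg₀ : 0 < g₀) (hE : ∀ i ≤ r + 1, 0 ≤ E i ∧ E i ≤ 1)
    (hrd : ∀ i ≤ r + 1, 0 ≤ rd i ∧ rd i + g₀ ≤ 1)
    (hnE : ∀ i < r, n i + E i + g₀ ≤ 1) (huE : sn r v + Sl r * Q + E r + g₀ ≤ 1)
    (hNE : sn (r + 1) v + Sl (r + 1) * Q + E (r + 1) + g₀ ≤ 1)
    (hraw : ∀ Q', 0 ≤ Q' → Q' ≤ Sl (r + 1) * Q →
      RawN S ((range (r + 1)).image c) (c (r + 1)) (sn (r + 1) v) Q' h δ₁)
    (hδ₁ : 0 ≤ δ₁) (h1 : h ≤ 1)
    {e1 rho1 pi1 x0 ph e2 dl : ℝ}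
    (hFN : AltAt S ((range (r + 1)).image c) ((range r).image c) (c (r + 1)) K1 e1 rho1 pi1
      (sn (r + 1)) x0 ph e2 k) (he2 : 0 ≤ e2)
    (hbox1 : x0 - (1 / 2) ^ k ≤ v) (hbox2 : v + Q ≤ x0 + (1 / 2) ^ k)
    (hdl : 0 ≤ dl) (hdlb : dl ≤ Sl (r + 1) * Real.log 2)
    (hph : Sl (r + 1) * Real.log 2 - dl ≤ ph)
    (hK : K ≤ K1) (hE1 : E (r + 1) + min (ρ / 8) (g₀ / 2) ≤ e1)
    (hrho : rd (r + 1) + min (ρ / 8) (g₀ / 2) ≤ rho1)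
    (hpi : pi1 ≤ sn (r + 1) v - min (ρ / 8) (g₀ / 2))
    (he : 0 < e) (hle : e ≤ min (ρ / 8) (g₀ / 2)) {δ : ℝ}
    (hδ : (δ₁ + (r + 1) * ρ) + (3 * (φ + ρ) + 6 * (Sl (r + 1) * ρ₀)) +
      (3 * φ + ρ + Sl r * (2 * ρ₀)) + e2 * (1 / 2) ^ k + dl * Q < δ) (N₀ : ℕ) :
    Rw2 S Ψ (c r) (c (r + 1)) v (sn r v) (sn (r + 1) v) (Sl r) (Sl (r + 1)) Q
      (h * Sl (r + 1)) δ N₀ ∧
    Rw2 S Ψ.swap (c (r + 1)) (c r) v (sn (r + 1) v) (sn r v) (Sl (r + 1)) (Sl r) Q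
      (h * Sl (r + 1)) δ N₀ := by
  have hl2 : 0 < Real.log 2 := Real.log_pos one_lt_two
  have hl21 : Real.log 2 ≤ 1 := by
    have := Real.log_two_lt_d9
    linarith only [this]
  have hb0 : 0 ≤ Sl (r + 1) := hb.le
  have ha0 : 0 ≤ Sl r := hb0.trans hS
  have h2k : (0 : ℝ) < (1 / 2) ^ k := by positivity
  have hrr : (0 : ℝ) ≤ r := Nat.cast_nonneg r
  have hek : 0 ≤ e2 * (1 / 2) ^ k := by positivity
  have hdQ : 0 ≤ dl * Q := mul_nonneg hdl hQ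
  have hmin : 0 ≤ min (ρ / 8) (g₀ / 2) := le_min (by linarith only [hρ]) (by linarith only [hg₀])
  obtain ⟨γ, hγ⟩ : ∃ γ : ℝ, γ = δ - ((δ₁ + (r + 1) * ρ) + (3 * (φ + ρ) +
    6 * (Sl (r + 1) * ρ₀)) + (3 * φ + ρ + Sl r * (2 * ρ₀)) + e2 * (1 / 2) ^ k + dl * Q) :=
    ⟨_, rfl⟩
  have hγ0 : 0 < γ := by linarith only [hγ, hδ]
  obtain ⟨σ₂, hσ₂⟩ : ∃ σ₂ : ℝ, σ₂ = 3 * (φ + ρ) + 6 * (Sl (r + 1) * ρ₀) := ⟨_, rfl⟩
  obtain ⟨σ₁, hσ₁⟩ : ∃ σ₁ : ℝ, σ₁ = 3 * φ + ρ + Sl r * (2 * ρ₀) := ⟨_, rfl⟩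
  have hσ20 : 0 ≤ σ₂ := by rw [hσ₂]; positivity
  have hσ10 : 0 ≤ σ₁ := by rw [hσ₁]; positivity
  have hσ2l : σ₂ * Real.log 2 ≤ σ₂ := mul_le_of_le_one_right hσ20 hl21
  have hσ1l : σ₁ * Real.log 2 ≤ σ₁ := mul_le_of_le_one_right hσ10 hl21
  rw [← hσ₂, ← hσ₁] at hγ
  obtain ⟨ν, hν⟩ : ∃ ν : ℝ, 2 * ρ₀ < ν ∧ 2 * (Sl (r + 1) * ν) ≤ 6 * (Sl (r + 1) * ρ₀) :=
    ⟨3 * ρ₀, by linarith only [hρ₀], by
      have e1 : 2 * (Sl (r + 1) * (3 * ρ₀)) = 6 * (Sl (r + 1) * ρ₀) := by ring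
      rw [e1]⟩
  have hνl : (3 * (φ + ρ) + 2 * (Sl (r + 1) * ν)) * Real.log 2 ≤ σ₂ * Real.log 2 :=
    mul_le_mul_of_nonneg_right (by linarith only [hν.2, hσ₂]) hl2.le
  obtain ⟨d₂, hd₂⟩ : ∃ d₂ : ℝ, d₂ = (δ₁ + (r + 1) * ρ) + σ₂ + γ / 4 := ⟨_, rfl⟩
  obtain ⟨d₁, hd₁⟩ : ∃ d₁ : ℝ, d₁ = d₂ + σ₁ + e2 * (1 / 2) ^ k + dl * Q + γ / 4 := ⟨_, rfl⟩
  have hd20 : 0 ≤ d₂ := by rw [hd₂]; positivity
  have hv1 : v ≤ 1 := by
    have h2 : 0 ≤ Λ * Q := mul_nonneg (ha0.trans (hsl r (by omega)).2.1) hQ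
    linarith only [hU, hUX, h2, hφ, hρ, hQ]
  -- the row of the second coordinate
  have hN : ∀ x y : ℝ, 0 ≤ x → x ≤ y → y ≤ Q → RowN S c 0 r K E (min (ρ / 8) (g₀ / 2)) v
      (v + lam) rd (fun l => sn l v) n (sn r v + Sl r * y) (sn (r + 1) v + Sl (r + 1) * x)
      (sn (r + 1) v + Sl (r + 1) * y)
      ((1 - h) * (Sl (r + 1) * (y - x)) * Real.log 2 + d₂) := by
    intro x y hx hxy hy
    refine row_num htm (Nat.zero_le r) (G := G) (f := f) (Sl := Sl) (ρ₀ := ρ₀) (ν := ν)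
      (Λ := Λ) (δ₁ := δ₁) (q := Q) hchl hp hvG hgap hρ₀.le hν.1 hρ hφ hU
      (fun l _ hl => ⟨(hsl l hl).1, (hsl l hl).2.1, fun w _ hw1 hw2 => (hsl l hl).2.2 w hw1 hw2⟩)
      hS (fun l _ hl => hn l hl) (fun l _ hl l' _ hl' => hf l hl l' hl')
      (fun l _ hl => hf2 l hl) (fun l _ hl => by
        have := hUf l hl
        linarith only [this]) (by linarith only [hUX, hρ]) hg₀ (fun i _ hi => hE i hi)
      (fun i _ hi => hrd i hi) (fun i _ hi => hnE i hi) huE hNE hraw hδ₁ h1 hx hxy hy ?_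
    linarith only [hνl, hσ2l, hd₂, hγ0]
  -- the grid
  have hgr : ∀ i j : ℕ, i ≤ j → j ≤ N₀ → 0 ≤ Q - Q * j / N₀ ∧
      Q - Q * j / N₀ ≤ Q - Q * i / N₀ ∧ Q - Q * i / N₀ ≤ Q := by
    intro i j hij hj
    have k1 : (i : ℝ) ≤ j := by exact_mod_cast hij
    have k2 : (j : ℝ) ≤ N₀ := by exact_mod_cast hj
    have k3 : (0 : ℝ) ≤ N₀ := Nat.cast_nonneg _
    have k4 : Q * j / N₀ ≤ Q := by
      rcases Nat.eq_zero_or_pos N₀ with h0 | h0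
      · rw [h0, Nat.cast_zero, div_zero]
        exact hQ
      · have : (0 : ℝ) < N₀ := by exact_mod_cast h0
        rw [div_le_iff₀ this]
        exact mul_le_mul_of_nonneg_left k2 hQ
    have k5 : Q * i / N₀ ≤ Q * j / N₀ :=
      div_le_div_of_nonneg_right (mul_le_mul_of_nonneg_left k1 hQ) k3
    have k6 : 0 ≤ Q * i / N₀ := by positivity
    exact ⟨by linarith only [k4], by linarith only [k5], by linarith only [k6]⟩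
  constructor
  · refine rw2_U htm hv0 hv1 hΨ he hle (d := d₁) (by linarith only [hd₁, hd₂, hγ, hγ0]) ?_
    intro i j hij hj x hx
    obtain ⟨k1, k2, k3⟩ := hgr i j hij hj
    rw [← hx] at k1 k2
    obtain ⟨y, hy⟩ : ∃ y : ℝ, y = Q - Q * i / N₀ := ⟨_, rfl⟩
    rw [← hy] at k2 k3 ⊢
    have hyx : 0 ≤ y - x := by linarith only [k2]
    refine rowU_gap2 htm hpos (Nat.zero_le r) (G := G) (Lam := Λ) (Sl := Sl) (f := f)
      (ρ₀ := ρ₀) (φ := φ) (ρ := ρ) (dl := dl) (hN x y k1 k2 k3)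
      (add_nonneg (mul_nonneg (mul_nonneg (by linarith only [h1])
        (mul_nonneg hb0 hyx)) hl2.le) hd20)
      hFN he2 (fun w hw1 hw2 => (hsl (r + 1) le_rfl).2.2 w hw1 (by linarith only [hw2, k3]))
      hbox1 (by linarith only [hbox2, k3]) hdl hdlb hph hK hE1 hrho hpi hch hvG
      (fun w hw1 hw2 => hgap w hw1 (by linarith only [hw2, k3]))
      (fun l _ hl w _ hw1 hw2 => (hsl l (by omega)).2.2 w hw1 (by linarith only [hw2, k3]))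
      (fun l _ hl => ⟨(hsl l (by omega)).1, (hsl l (by omega)).2.1⟩) rfl
      (fun l _ hl => hn l hl) (fun l _ hl => ?_) (fun l _ hl => ?_) (fun l _ hl l' _ hl' => ?_)
      ?_ hU.le ?_ hv0 hρ k1 k2 hb (min_le_left _ _) hg₀ (min_le_right _ _)
      (fun i _ hi => hE i (by omega)) (fun i _ hi => hrd i (by omega))
      (fun i _ hi => hnE i hi) ?_
    · have k4 := hf2 l hl
      have k5 : Λ * y ≤ Λ * Q := mul_le_mul_of_nonneg_left k3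
        ((hsl r (by omega)).1.trans (hsl r (by omega)).2.1)
      linarith only [k4, k5, hφ, hρ]
    · have k4 := hUf l hl
      linarith only [k4, k3]
    · have k4 := hf l hl l' hl'
      have k5 : Λ * y ≤ Λ * Q := mul_le_mul_of_nonneg_left k3
        ((hsl r (by omega)).1.trans (hsl r (by omega)).2.1)
      linarith only [k4, k5]
    · have k5 : Λ * y ≤ Λ * Q := mul_le_mul_of_nonneg_left k3
        ((hsl r (by omega)).1.trans (hsl r (by omega)).2.1)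
      linarith only [hUX, k5, k3, hρ]
    · have k5 : 0 ≤ Λ * Q := mul_nonneg
        ((hsl r (by omega)).1.trans (hsl r (by omega)).2.1) hQ
      linarith only [hUX, k5, k3, hρ, hφ]
    · have k6 : dl * (y - x) ≤ dl * Q := mul_le_mul_of_nonneg_left (by linarith only [k1, k3]) hdl
      rw [← hσ₁]
      have e3 : (1 - h) * (Sl (r + 1) * (y - x)) * Real.log 2 =
          Sl (r + 1) * (y - x) * Real.log 2 - h * Sl (r + 1) * (y - x) * Real.log 2 := by ring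
      have e4 : (Sl r - h * Sl (r + 1)) * (y - x) * Real.log 2 =
          Sl r * (y - x) * Real.log 2 - h * Sl (r + 1) * (y - x) * Real.log 2 := by ring
      rw [e3, e4]
      linarith only [k6, hσ1l, hd₁, hγ0]
  · refine rw2_N htm hv0 hv1 hΨ he hle (d := d₂) (by
      linarith only [hd₂, hγ, hγ0, hσ10, hek, hdQ]) ?_
    intro i j hij hj x hx
    obtain ⟨k1, k2, k3⟩ := hgr i j hij hj
    rw [← hx] at k1 k2
    have h5 := hN x (Q - Q * i / N₀) k1 k2 k3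
    have e3 : (1 - h) * (Sl (r + 1) * (Q - Q * i / N₀ - x)) * Real.log 2 =
        (Sl (r + 1) - h * Sl (r + 1)) * (Q - Q * i / N₀ - x) * Real.log 2 := by ring
    rw [e3] at h5
    exact h5

end Pool.RW37
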