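import Pool.Agent.H92.V0F.Rsb
import Pool.Agent.H92.D2.Ceg

/-!
# The record of fewer chain windows

`RecG.wins`: the record of a list of some of the chain windows.
-/

set_option autoImplicit false

namespace Pool.PKG

open Finset Real
open Pool.Agent.H49.Ent Pool.Agent.H32.Dense Pool.STK Pool.KA Pool.KSAT Pool.K2S Pool.PB
open Pool.GEN Pool.S6C Pool.STAT Pool.CHT Pool.GRW Pool.ONE Pool.STA

variable {m : ℕ} {S : PCl m}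

theorem RecT.wins {P P₂ : List (Fin m) × Fin m → ℝ → ℝ → ℝ} {θ θ₂ : ℝ}
    {c : ℕ → Fin m} {l : ℕ} {L : ℕ → ℝ → ℝ → ℝ} {S₀ N : ℕ} {A V : ℕ → ℝ} {S₂ N' N'' : ℕ}
    {V' V'' : ℕ → ℝ} {Eb e₂ K q t : ℝ}
    (h : RecT S P P₂ θ θ₂ c l L S₀ N A V S₂ N' V' Eb e₂ K q t)
    (hV : ∀ k < N'', ∃ j < N', V' j = V'' k) :
    RecT S P P₂ θ θ₂ c l L S₀ N A V S₂ N'' V'' Eb e₂ K q t :=
  ⟨h.thr₂, h.th₂0, h.Eb0, h.Ebe, h.eθ, h.room, h.pt, h.rat, fun k hk => by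
    obtain ⟨j, hj, e⟩ := hV k hk
    have := h.ptc j hj
    rwa [e] at this, fun k hk => by
    obtain ⟨j, hj, e⟩ := hV k hk
    have := h.ratc j hj
    rwa [e] at this⟩

/-- **The record of some of the chain windows.** -/
theorem RecG.wins {al : ℝ} {g₀ : ℝ → ℝ} {P : List (Fin m) × Fin m → ℝ → ℝ → ℝ}
    {θ : ℝ} {P₂ : ℕ → List (Fin m) × Fin m → ℝ → ℝ → ℝ} {θ₂ Eb e₂ : ℕ → ℝ}
    {c : ℕ → Fin m} {Pt : ℝ → ℝ → ℝ} {r : ℝ → ℝ} {h K₀ g : ℝ} {L T : ℕ → ℝ → ℝ → ℝ}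
    {Sl : ℕ → ℝ} {κ : ℕ → Kg} {G : Set ℝ} {S₀ N : ℕ} {A V : ℕ → ℝ} {S₂ N' N'' : ℕ}
    {V' V'' : ℕ → ℝ} {K ε q t : ℝ}
    (R : RecG S al g₀ P θ P₂ θ₂ Eb e₂ c Pt r h K₀ g L T Sl κ G S₀ N A V S₂ N' V' K ε q t)
    (hV : ∀ k < N'', ∃ j < N', V' j = V'' k) :
    RecG S al g₀ P θ P₂ θ₂ Eb e₂ c Pt r h K₀ g L T Sl κ G S₀ N A V S₂ N'' V'' K ε q t :=
  ⟨R.ne, R.al0, R.g₀pos, R.clx, R.thr, R.th0, R.tgs, R.rate, R.inj, R.c0,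
    R.law, R.lv, R.lawL, R.q0, R.t0, R.t1, R.near, ⟨R.memG.1, fun k hk => by
      obtain ⟨j, hj, e⟩ := hV k hk
      rw [← e]
      exact R.memG.2 j hj⟩, R.TL, fun k hk => by
      obtain ⟨j, hj, e⟩ := hV k hk
      rw [← e]
      exact R.TLc j hj, R.dL, R.dT, R.s0, R.l0,
    R.kd, R.row, fun l h1 h2 => (R.tg l h1 h2).wins hV, R.tgl⟩

end Pool.PKG
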