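import Pool.Agent.H78.PSQ2.Pec
import Pool.Agent.H18.PN.Nrp

/-!
# The data of a jointly nonfull pair of any radius from its rows, near digits

`paire_coren`: `paire_core` of helper78, relative to a near path over the labels of `t` with the digits
of the window `t - τ q`.
-/

set_option autoImplicit false

namespace Pool.PN18

open Finset Real MvPolynomial
open Pool.Agent.H49.Ent Pool.Agent.H32.Dense Pool.STK Pool.KA Pool.KSAT Pool.K2S Pool.PB Pool.GEN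
open Pool.S6C Pool.RCD Pool.LA91 Pool.OWN68 Pool.AJW Pool.AJX Pool.CHT Pool.PKG Pool.ALT
open Pool.PSQ78
open Pool.V0F (LbU)
open Pool.CR99 (PairE)

/-- **The data of a jointly nonfull pair of any radius from its rows**: any family `Ψ₀` of the base labels
of the last coordinate, the last natural window is `ta`. -/
theorem paire_coren {r D K : ℕ} (hr : 1 ≤ r) {S : PCl (r + 2)} {al : ℝ} {g₀ : ℝ → ℝ}
    {P : List (Fin (r + 2)) × Fin (r + 2) → ℝ → ℝ → ℝ}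
    {θ : ℝ} {P₂ : ℕ → List (Fin (r + 2)) × Fin (r + 2) → ℝ → ℝ → ℝ} {θ₂ Eb e₂ : ℕ → ℝ}
    {c : ℕ → Fin (r + 2)} {Pt : ℝ → ℝ → ℝ} {rt : ℝ → ℝ} {h K₀ g : ℝ} {L T : ℕ → ℝ → ℝ → ℝ}
    {Sl : ℕ → ℝ} {κ : ℕ → Kg} {G : Set ℝ} {S₀ N : ℕ} {A V : ℕ → ℝ} {S₂ N' : ℕ} {V' : ℕ → ℝ}
    {K' ε q t : ℝ}
    (R : RecG S al g₀ P θ P₂ θ₂ Eb e₂ c Pt rt h K₀ g L T Sl κ G S₀ N A V S₂ N' V' K' ε q t)
    (hκ : ∀ l < r, κ l = .one) {a b ρ τ ta : ℝ} (hρ0 : 0 < ρ) (hb : 0 < b) (hτ0 : 0 < τ)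
    (hta1 : t + -τ * q ≤ ta) (hta2 : ta ≤ t)
    (hcu : ∀ w ∈ G, ∃ rd : ℕ → ℝ, (∀ l < r + 1, 0 ≤ rd l) ∧
      Chn S c 0 (r + 1) w w (L r w w) (fun l => L l w w) rd)
    -- the base labels of the last coordinate
    {Ψ₀ : Fml (r + 2)} {vn En Rn Pn Pn' : ℝ}
    (hΨs : ∀ (J : ℕ) (F : Fam (r + 2) J) (A B : F.Ω → Prop) (V : Type)
      (z : PtT F → V) (z' : LnT F → V) (G : V → MvPolynomial (Option (Fin (r + 2))) ℝ), Sub B A →
      Ψ₀ J F A V z z' G → Ψ₀ J F B V z z' G)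
    (hΨl : ∀ (J : ℕ) (F : Fam (r + 2) J) (A : F.Ω → Prop) (V : Type) (z : PtT F → V)
      (z' : LnT F → V) (G : V → MvPolynomial (Option (Fin (r + 2))) ℝ), Ψ₀ J F A V z z' G →
      LbOK F ((range (r + 1)).image c) (c (r + 1)) D ⌊En * J⌋₊ J ⌊vn * J⌋₊ ⌊Rn * J⌋₊
        ⌊Pn' * J⌋₊ A z z' G)
    -- the natural labels
    {p₁ p₂ pa₁ pa₂ eN uN pN ea ua pa e : ℝ} {E rd : ℕ → ℝ}
    (hNz : Bas S (fun J F A => ∃ (V : Type) (z : PtT F → V) (z' : LnT F → V)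
        (G : V → MvPolynomial (Option (Fin (r + 2))) ℝ),
        NzQ Ψ₀ c r (c (r + 1)) D D D D vn (t + -τ * q) p₁ p₂ eN uN pN ta pa₁ pa₂ ea ua pa
          J F A V z z' G))
    (hLx : Bas S (fun J F A => ∃ (V₁ : Type) (z : PtT F → V₁)
      (z' : LnT F → V₁) (g : V₁ → ℕ → MvPolynomial (Option (Fin (r + 2))) ℝ),
      LbX F c 0 (r + 1) K e E (t + -τ * q) rd
        (fun l => L l (t + -τ * q) (t + -τ * q)) A z z' g))
    (hK : max D D * max 1 D ≤ K) (hE : eN ≤ E (r + 1) + e) (hR : uN ≤ rd (r + 1) + e)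
    (hp : L (r + 1) (t + -τ * q) (t + -τ * q) - e ≤ pN)
    (hpa : L (r + 1) (t + -τ * q) (t + -τ * q) + b * (ρ * q) ≤ pa) (hE1 : ∀ i < r, E i ≤ 1)
    (hrd0 : ∀ i < r, 0 ≤ rd i) (hPn : Pn - e ≤ Pn') (hPn1 : L (r + 1) vn vn - q ≤ Pn)
    -- the windows
    (hvn0 : 0 ≤ vn) (hvn : vn + pzD ρ b * q ≤ t + -τ * q) (hpzD : 0 ≤ pzD ρ b) (htG : t ∈ G)
    {X φ kf ℓ : ℝ} (hXj : ∀ k ≤ r, t + jfV r (-τ) X k * q ∈ G)
    -- the numbers
    (hX1 : 2 * (6 * τ) ≤ X) (hX2 : τ + b * ρ + 2 * (r + 1) * φ + 2 ≤ X)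
    (hX3 : 32 * (r + 1) * φ ≤ X)
    (hkf1 : 3 ^ r * X ≤ kf) (hkf2 : b * ρ + 2 * (r + 1) * φ + 1 ≤ kf) (hℓ1 : kf + τ ≤ ℓ)
    (hK1 : ℓ + 1 ≤ K') (hK2 : τ + 3 ^ r * X ≤ K') (hK4 : τ + 2 ≤ K')
    (hφ0 : 0 < φ) (hφ1 : φ ≤ 1 / 8) (hεφ : 2 * ε ≤ φ) (he : 0 < e) (heφ : e ≤ φ * q / 8)
    (he64 : e ≤ q / 64) {pf : ℕ → ℝ} {Nf : ℕ → ℕ → ℝ}
    (hpf : ∀ l < r, L l t t - φ * q ≤ pf l)
    (hNf : ∀ l < r, ∀ j ≤ 1, nX r (fun l x => L l x x) (t + -τ * q) (X * q) l -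
      (j : ℕ) * (t + -τ * q) ≤ Nf l j) {δ h' : ℝ} (hδ0 : 0 < δ)
    {N₀ : ℕ}
    (rw₁ : Rw2 S (PsQ Ψ₀ c r D K vn (t + -τ * q) ta p₁ p₂ eN uN pN pa₁ pa₂ ea ua pa (ℓ * q) e E rd
        (fun i => L i (t + -τ * q) (t + -τ * q))
        (nX r (fun l x => L l x x) (t + -τ * q) (X * q))) (c r) (c (r + 1)) (t + -τ * q)
      (L r (t + -τ * q) (t + -τ * q)) (L (r + 1) (t + -τ * q) (t + -τ * q)) a b (ρ * q) h'
      (δ * (ρ * q)) N₀)
    (rw₂ : Rw2 S (Fm2.swap (PsQ Ψ₀ c r D K vn (t + -τ * q) ta p₁ p₂ eN uN pN pa₁ pa₂ ea ua pa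
        (ℓ * q) e E rd (fun i => L i (t + -τ * q) (t + -τ * q))
        (nX r (fun l x => L l x x) (t + -τ * q) (X * q)))) (c (r + 1)) (c r) (t + -τ * q)
      (L (r + 1) (t + -τ * q) (t + -τ * q)) (L r (t + -τ * q) (t + -τ * q)) b a (ρ * q) h'
      (δ * (ρ * q)) N₀) :
    PairE S (PsQ Ψ₀ c r D K vn (t + -τ * q) ta p₁ p₂ eN uN pN pa₁ pa₂ ea ua pa (ℓ * q) e E rd
        (fun i => L i (t + -τ * q) (t + -τ * q))
        (nX r (fun l x => L l x x) (t + -τ * q) (X * q))) c r K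
      ((range (r + 1)).image c) (c (r + 1)) a b ρ h' δ (ℓ * q) N₀ (t + -τ * q) t q
      (fun i => L i (t + -τ * q) (t + -τ * q))
      (nX r (fun l x => L l x x) (t + -τ * q) (X * q)) (fun x => L (r + 1) x x) pf Nf e
      (E (r + 1) + e) (rd (r + 1) + e) (L (r + 1) (t + -τ * q) (t + -τ * q)) E rd
      vn Pn En Rn (D * max 1 D) := by
  have hq := R.q0
  have ht0 := R.t0
  have ht1 := R.t1
  have htm := R.tmc
  have hpos := R.pos
  have hr0 : (0 : ℝ) ≤ r := Nat.cast_nonneg r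
  have h3X : X ≤ 3 ^ r * X := by
    have h1 : (1 : ℝ) ≤ 3 ^ r := one_le_pow₀ (by norm_num)
    exact le_mul_of_one_le_left (by linarith only [hX1, hτ0]) h1
  have habm : 0 < b * ρ := mul_pos hb hρ0
  have hX0 : 0 < X := by linarith only [hX1, hτ0]
  have hφq : 0 < φ * q := mul_pos hφ0 hq
  have hK0 : 0 < K' := by linarith only [hK4, hτ0]
  have hKq : 0 < K' * q := mul_pos hK0 hq
  have hτq : 0 < τ * q := mul_pos hτ0 hq
  have haq : 0 < ρ * q := mul_pos hρ0 hq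
  obtain ⟨v, hv⟩ : ∃ v, v = t + -τ * q := ⟨_, rfl⟩
  have hv' : v = t - τ * q := by rw [hv]; ring
  have hcG : ChG S c (r + 1) (fun l x => L l x x) G := Pool.LA91.ChG.mk fun w hw => by
      obtain ⟨rd, h1, h2⟩ := hcu w hw
      exact ⟨_, rd, h1, h2⟩
  have HJ := R.jf hκ (by omega) (K := 0) (vv := -τ) (X := X) (φ := φ) (lam := ℓ)
    (kf := kf) ⟨by linarith only [hτ0], hφ0, by
      push_cast
      linarith only [hX1], hX3, hkf1, by linarith only [hℓ1]⟩ htG hXj (by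
      linarith only [hK2]) (by linarith only [hK1]) hεφ
  have hctx : FwX S (fun J F => ptr F J) (vg t) (fun _ F => F.T)
      (qJets (r + 2) c 0 r 1 (fun _ _ => t) (fun l _ => pf l) Nf) c 0 r K E (t + -τ * q) rd
      (fun i => L i (t + -τ * q) (t + -τ * q))
      (Pool.AJW.ctx c 0 r K (t + -τ * q) (ℓ * q)
        (nX r (fun l x => L l x x) (t + -τ * q) (X * q))) e (δ * (ρ * q)) :=
    far_ctxX htm (far_of_n hcG HJ hpf hNf) le_rfl (by linarith only [ht1, hKq]) ptr_id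
      (kn_T c _ _) (fun i _ hi => hE1 i hi) (fun i _ hi => hrd0 i hi) (mul_pos hδ0 haq) le_rfl he
      heφ
  have hNf0 : ∀ i < r, L i t t + (b * ρ + 2 * (r + 1) * φ + 1) * q ≤ Nf i 0 := by
    intro i hi
    have h1 := hNf i hi 0 (by norm_num)
    have h2 := abs_le.1 (R.dOne (l := i) (by omega) (hκ i hi) (t + -τ * q) (by
      rw [add_sub_cancel_left, neg_mul, abs_neg, abs_of_pos hτq]
      exact mul_le_mul_of_nonneg_right (by linarith only [hK4]) hq.le))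
    have h3 := mul_le_mul_of_nonneg_right (aX_ge (r := r) hX0.le i) hq.le
    have h4 := mul_le_mul_of_nonneg_right hX2 hq.le
    have h5 : 2 * ε * q ≤ φ * q := mul_le_mul_of_nonneg_right hεφ hq.le
    have h6 : φ * q ≤ 1 / 8 * q := mul_le_mul_of_nonneg_right hφ1 hq.le
    unfold nX at h1
    rw [aX_mul] at h1
    simp only [Nat.cast_zero, zero_mul, sub_zero] at h1
    linarith only [h1, h2.1, h3, h4, h5, h6, hq, hφq]
  rw [← hv] at hctx hNz hLx hvn hp hpa hta1 rw₁ rw₂ ⊢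
  have hK1q : (ℓ + 1) * q ≤ K' * q := mul_le_mul_of_nonneg_right hK1 hq.le
  have hK4q : (τ + 2) * q ≤ K' * q := mul_le_mul_of_nonneg_right hK4 hq.le
  have habq : 0 < b * ρ * q := mul_pos habm hq
  have hvt : v ≤ t := by linarith only [hv', hτq]
  have hv0 : 0 ≤ v := by linarith only [hv', ht0, hK4q, hq]
  have hvq : q ≤ v := by linarith only [hv', ht0, hK4q, hq]
  have ht1' : t ≤ 1 := by linarith only [ht1, hKq]
  have hv1 : v ≤ 1 := hvt.trans ht1'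
  have hNlow : v ≤ L (r + 1) v v := R.low_at (by omega) hv0 le_rfl hv1
  have hvnv : vn ≤ v := by
    have := mul_nonneg hpzD hq.le
    linarith only [hvn, this]
  have hℓ1q : (kf + τ) * q ≤ ℓ * q := mul_le_mul_of_nonneg_right hℓ1 hq.le
  have hkf2q : (b * ρ + 2 * (r + 1) * φ + 1) * q ≤ kf * q :=
    mul_le_mul_of_nonneg_right hkf2 hq.le
  have hφqq : φ * q ≤ 1 / 8 * q := mul_le_mul_of_nonneg_right hφ1 hq.le
  have hδ' : 0 < δ * (ρ * q) := mul_pos hδ0 haq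
  obtain ⟨rdt, hrt1, hrt2⟩ := hcu t htG
  refine ⟨psq_psl hΨs, psq_ex hLx hNz hK hE hR hp, psq_ctx2 (by omega) hvt ht1' hctx, rw₁, rw₂,
    ?_, psq_dcp hΨl hPn hvnv hv1, hvn0, hvn, ?_, ?_, hPn1⟩
  · -- the value
    refine psq_valN2 htm hpos (fun J F A V z z' G h => ⟨(hΨl J F A V z z' G h).deg,
      (hΨl J F A V z z' G h).dep, (hΨl J F A V z z' G h).cls⟩) hvnv hta1 hta2 ht1' hr
      (s := L (r + 1) v v + b * (ρ * q)) hpa (u₁ := L r t t) (σ := φ * q)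
      (k := (b * ρ + 2 * (r + 1) * φ + 1) * q)
      (pm := L (r + 1) v v - e) (so := fun l => L l t t) (rdc := rdt)
      (hrt2.take (by omega) (by omega)) hφq ?_ ?_ hpf hNf0 hp ?_ ?_ ?_ heφ hδ'
    · have e1 : 2 * ((r : ℝ) + 1) * (φ * q) = 2 * (r + 1) * φ * q := by ring
      rw [e1]
      linarith only [habq, hq]
    · linarith only [ht1, hkf2q, hℓ1q, hK1q, hτq, hq]
    · have := mul_pos hb haq
      linarith only [hpa, this, he]
    · linarith only [hNlow, hvq, he64, hφqq, hq]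
    · have e1 : 2 * ((r : ℝ) + 1) * (φ * q) = 2 * (r + 1) * φ * q := by ring
      have e2 : b * (ρ * q) = b * ρ * q := by ring
      rw [e1, e2]
      linarith only [he64, hq]
  · show L (r + 1) v v ≤ L (r + 1) v v + q
    linarith only [hq]
  · show L (r + 1) v v - q ≤ L (r + 1) v v
    linarith only [hq]

end Pool.PN18
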