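import Pool.Agent.H18.PN.Prb
import Pool.Agent.H18.PN.Jop

/-!
# The jets of a member of a jointly nonfull pair over a finer window

`fw2_of_F1`: the jets of the labels of a family of pairs, from the quantity `qJet`. `fw2_nat`: the
natural jets. `pair_F1`: all jets of `c r` over the labels of a finer window `w` are few bits given
the ball, if `c r` and a second coordinate are jointly nonfull over the window `v`.
-/

set_option autoImplicit false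

namespace Pool.PN18

open Finset Real MvPolynomial
open Pool.Agent.H49.Ent Pool.Agent.H32.Dense Pool.STK Pool.KA Pool.KSAT Pool.K2S Pool.PB Pool.GEN
open Pool.S6C Pool.RCD Pool.LA91 Pool.OWN68 Pool.AJW
open Pool.GRD (LbP)
open Pool.UNJ (ceI Tub)

section fw2

variable {m : ℕ} {S : PCl m} {C₀ : ℝ} {α γ : ∀ J : ℕ, Fam m J → Type}
  {f : ∀ (J : ℕ) (F : Fam m J), F.Ω → α J F} {y : ∀ (J : ℕ) (F : Fam m J), F.Ω → γ J F} {a : ℝ}
  {U₀ : Type} {Qu : Qt m U₀} {Ψ : Fm2 m}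

theorem Fw2.mono {τ : ∀ (J : ℕ) (_ : Fam m J), Type → Type → Type}
    {X : ∀ (J : ℕ) (F : Fam m J) (V C : Type), (LnT F → V) →
      (V → MvPolynomial (Option (Fin m)) ℝ) → (V → MvPolynomial (Option (Fin m)) ℝ) →
      (LnT F → C) → F.Ω → τ J F V C} {e δ δ' : ℝ} (h : Fw2 S f a y Qu Ψ X e δ) (hδ : δ ≤ δ') :
    Fw2 S f a y Qu Ψ X e δ' := by
  intro K₀
  refine Bas.mono 0 (h K₀) ?_
  rintro J - F A H V C z z' G₁ G₂ c hΨ u₀ hu₀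
  obtain ⟨V₁, z₁, hz, h1⟩ := H V C z z' G₁ G₂ c hΨ u₀ hu₀
  exact ⟨V₁, z₁, hz, h1.trans (mul_le_mul_of_nonneg_right hδ (Nat.cast_nonneg J))⟩

theorem Fw2.swap {τ : ∀ (J : ℕ) (_ : Fam m J), Type → Type → Type}
    {X : ∀ (J : ℕ) (F : Fam m J) (V C : Type), (LnT F → V) →
      (V → MvPolynomial (Option (Fin m)) ℝ) → (V → MvPolynomial (Option (Fin m)) ℝ) →
      (LnT F → C) → F.Ω → τ J F V C} {e δ : ℝ} (h : Fw2 S f a y Qu Ψ.swap X e δ) :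
    Fw2 S f a y Qu Ψ (fun J F V C z' G₁ G₂ c => X J F V C z' G₂ G₁ c) e δ := by
  intro K₀
  refine Bas.mono 0 (h K₀) ?_
  rintro J - F A H V C z z' G₁ G₂ c hΨ u₀ hu₀
  exact H V C z z' G₂ G₁ c hΨ u₀ hu₀

/-- **The jets of the labels of a family of pairs**, from the quantity `qJet`. -/
theorem fw2_of_F1 {I : Finset (Fin m)} {κ : Fin m} {K j : ℕ} {w r p N e δ : ℝ} (hr : 0 ≤ r)
    (he : 0 < e)
    (hΨ : ∀ (J : ℕ) (F : Fam m J) (A : F.Ω → Prop) (V C : Type) (z : PtT F → V) (z' : LnT F → V)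
      (G₁ G₂ : V → MvPolynomial (Option (Fin m)) ℝ) (c : LnT F → C), Ψ J F A V C z z' G₁ G₂ c →
      LbOK F I κ K ⌊e * J⌋₊ J ⌊w * J⌋₊ ⌊(r + e) * J⌋₊ ⌊(p - e) * J⌋₊ A z z' G₁)
    (h : F1 S f (vg a) y Qu (qJet m I κ j w p N) e δ) :
    Fw2 S f a y Qu Ψ (τ := fun _ _ _ _ => ℤ)
      (fun J F _ _ z' G₁ _ _ ω => ⌊(2 : ℝ) ^ (N * J) * ojet F κ j
        (G₁ (z' (slam F ⌊w * J⌋₊ ω))) ω⌋) e δ := by
  obtain ⟨M, Jm, hcnt⟩ := cnt_jet m K j (N := N) (w := w) hr he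
  intro K₀
  refine Bas.mono Jm (h (K₀ + K + M)) ?_
  rintro J hJ F A H V C z z' G₁ G₂ c hΨ' u₀ hu₀
  have hlb := hΨ J F A V C z z' G₁ G₂ c hΨ'
  refine H u₀ _ (Qu.mono (by omega) le_rfl hu₀) ⟨?_, V, z, z', G₁, ?_, fun ω _ => rfl⟩
  · have h2 := hcnt J hJ F I κ _ A V z z' G₁ hlb
    refine h2.trans (Real.exp_le_exp.2 (mul_le_mul_of_nonneg_right ?_ (Nat.cast_nonneg J)))
    exact_mod_cast (by omega : M ≤ K₀ + K + M)
  · exact (LbP.of hlb).mono (Finset.Subset.refl _) (by omega) le_rfl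

/-- **The natural jets** of the labels of a family of pairs. -/
theorem fw2_nat (htm : TmC S C₀) {I : Finset (Fin m)} {κ : Fin m} (K : ℕ) {w p : ℝ} (hw0 : 0 ≤ w)
    (hw1 : w < 1) (f : ∀ (J : ℕ) (F : Fam m J), F.Ω → α J F)
    (y : ∀ (J : ℕ) (F : Fam m J), F.Ω → γ J F) (Qu : Qt m U₀) {δ : ℝ} (hδ : 0 < δ) :
    ∃ e₀ : ℝ, 0 < e₀ ∧ ∀ e : ℝ, 0 < e → e ≤ e₀ → ∀ j < K + 3, ∀ {r : ℝ} {Ψ : Fm2 m}, 0 ≤ r →
    (∀ (J : ℕ) (F : Fam m J) (A : F.Ω → Prop) (V C : Type) (z : PtT F → V) (z' : LnT F → V)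
      (G₁ G₂ : V → MvPolynomial (Option (Fin m)) ℝ) (c : LnT F → C), Ψ J F A V C z z' G₁ G₂ c →
      LbOK F I κ K ⌊e * J⌋₊ J ⌊w * J⌋₊ ⌊(r + e) * J⌋₊ ⌊(p - e) * J⌋₊ A z z' G₁) →
    Fw2 S f a y Qu Ψ (τ := fun _ _ _ _ => ℤ)
      (fun J F _ _ z' G₁ _ _ ω => ⌊(2 : ℝ) ^ ((p - j * w) * J) * ojet F κ j
        (G₁ (z' (slam F ⌊w * J⌋₊ ω))) ω⌋) e δ := by
  obtain ⟨e₃, he₃, hnat⟩ := min_fin (K + 3) (P := fun j e => F1 S f (vg a) y Qu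
    (qJet m I κ j w p (p - j * w)) e δ)
    (fun j e e' h1 _ h3 => h1.mono h3 le_rfl) (fun j _ => F1.of_few0 htm (few0_jet htm hw0 hw1
      (by linarith) f (vg a) y) hδ)
  exact ⟨e₃, he₃, fun e he hle j hj r Ψ hr hΨ => fw2_of_F1 hr he hΨ ((hnat j hj).mono hle le_rfl)⟩

end fw2

/-- **The jets of a member of a jointly nonfull pair over a finer window.** -/
theorem pair_F1 (K : ℕ) {Iu In : Finset ℕ} (hu : ∀ i ∈ Iu, 1 ≤ i ∧ i ≤ K + 2)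
    (hn : ∀ j ∈ In, 1 ≤ j ∧ j ≤ K + 2) {α₁ α₂ : ℝ} (hα₁ : 0 < α₁) (hα₂ : 0 < α₂)
    (hres : ∀ i ∈ Iu, ∀ j ∈ In, (i : ℝ) * α₂ ≠ j * α₁) {h : ℝ} (hh : 0 < h)
    (hh1 : h ≤ α₁) (hh2 : h ≤ α₂) {ε : ℝ} (hε : 0 < ε) :
    ∃ δ : ℝ, 0 < δ ∧ ∃ N₀ : ℕ, 0 < N₀ ∧
    ∀ {m : ℕ} {S : PCl m} {C₀ : ℝ} (_ : TmC S C₀) {c : ℕ → Fin m} {r₀ r : ℕ} {κ₂ : Fin m}
    {I₂ : Finset (Fin m)} {v w lam q ρ g₀ p₂ r₂ : ℝ} {p s n lv rd : ℕ → ℝ} (_ : 0 < q)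
    (_ : JetW S c r₀ r v w lam (α₁ * q) ρ g₀ p s n lv rd K) (_ : v + 2 * (α₁ + α₂) * q ≤ 1)
    (_ : 0 ≤ r₂)
    {U₀ : Type} {Qu : Qt m U₀} {α γ : ∀ J : ℕ, Fam m J → Type}
    {f : ∀ (J : ℕ) (F : Fam m J), F.Ω → α J F} {y : ∀ (J : ℕ) (F : Fam m J), F.Ω → γ J F}
    (_ : ∀ (J : ℕ) (F : Fam m J), ∃ φ : α J F → PtT F, ∀ ω, ptr F J ω = φ (f J F ω))
    (_ : Kn ((range r₀).image c) (v + lam) lam y) {a e₁ : ℝ} (_ : w ≤ a) (_ : a ≤ 1)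
    (_ : 0 < e₁) (_ : ∀ e : ℝ, 0 < e → e ≤ e₁ →
      FwL S f (vg a) y Qu c r₀ (r + 1) K v rd p (ctx c r₀ r K v lam n) e (δ * q)),
    ∃ e₀ : ℝ, 0 < e₀ ∧ e₀ ≤ e₁ ∧ ∀ e : ℝ, 0 < e → e ≤ e₀ → ∀ {Ψ : Fm2 m},
    (∀ (J : ℕ) (F : Fam m J) (A : F.Ω → Prop) (V C : Type) (z : PtT F → V) (z' : LnT F → V)
      (G₁ G₂ : V → MvPolynomial (Option (Fin m)) ℝ) (cc : LnT F → C),
      Ψ J F A V C z z' G₁ G₂ cc → (∃ g : V → ℕ → MvPolynomial (Option (Fin m)) ℝ,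
        LbC F c r₀ (r + 1) K e v rd p A z z' g ∧ G₁ = (fun v => g v r) ∧
        ∃ φ : C → (Fin m → ℤ × ℤ) × (ℕ → ℕ → ℤ), ∀ x,
          ctxN F c r₀ r ⌊v * J⌋₊ ⌊(v + lam) * J⌋₊ K z' g n x = φ (cc x)) ∧
      LbOK F I₂ κ₂ K ⌊e * J⌋₊ J ⌊v * J⌋₊ ⌊(r₂ + e) * J⌋₊ ⌊(p₂ - e) * J⌋₊ A z z' G₂) →
    (∀ (J : ℕ) (F : Fam m J) (A B : F.Ω → Prop) (V C : Type) (z : PtT F → V)
      (z' : LnT F → V) (G₁ G₂ : V → MvPolynomial (Option (Fin m)) ℝ) (c : LnT F → C), Sub B A →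
      Ψ J F A V C z z' G₁ G₂ c → Ψ J F B V C z z' G₁ G₂ c) →
    Bas S (fun J F A => ∃ (V C : Type) (z : PtT F → V) (z' : LnT F → V)
      (G₁ G₂ : V → MvPolynomial (Option (Fin m)) ℝ) (cc : LnT F → C),
      Ψ J F A V C z z' G₁ G₂ cc) →
    Fw2 S f a y Qu Ψ (τ := fun _ _ _ C => C) (fun J F _ _ _ _ _ c ω => c (vg v J F ω)) e (δ * q) →
    Rw2 S Ψ (c r) κ₂ v (p r) p₂ α₁ α₂ q h (δ * q) N₀ →
    Rw2 S Ψ.swap κ₂ (c r) v p₂ (p r) α₂ α₁ q h (δ * q) N₀ →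
    (∀ j ≤ K + 2, 1 ≤ j → j ∉ Iu → Fw2 S f a y Qu Ψ (τ := fun _ _ _ _ => ℤ)
      (fun J F _ _ z' G₁ _ _ ω => ⌊(2 : ℝ) ^ ((p r + α₁ * q - j * v) * J) * ojet F (c r) j
        (G₁ (z' (slam F ⌊v * J⌋₊ ω))) ω⌋) e (δ * q)) →
    (∀ j ≤ K + 2, j ∉ In → Fw2 S f a y Qu Ψ (τ := fun _ _ _ _ => ℤ)
      (fun J F _ _ z' _ G₂ _ ω => ⌊(2 : ℝ) ^ ((p₂ + α₂ * q - j * v) * J) * ojet F κ₂ j
        (G₂ (z' (slam F ⌊v * J⌋₊ ω))) ω⌋) e (δ * q)) →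
    ∀ j < K + 2, ∀ P₂ : ℝ, p r ≤ P₂ →
      F1 S f (vg a) y Qu (qJet m ((range r).image c) (c r) (j + 1) w P₂
        (p r + α₁ * q - (j + 1 : ℕ) * v)) e (ε * q) := by
  classical
  obtain ⟨δ₁, hδ₁, N₀, hN₀, H⟩ := pair_rb K hu hn hα₁ hα₂ hres hh hh1 hh2
    (ε := ε / 2) (by positivity)
  refine ⟨δ₁ / 2, by positivity, N₀, hN₀, ?_⟩
  intro m S C₀ htm c r₀ r κ₂ I₂ v w lam q ρ g₀ p₂ r₂ p s n lv rd hq HW hvq hr₂ U₀ Qu α γ f y hf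
    hy a e₁ hwa ha he₁ hctx
  have hρ := HW.ρ0
  have hv0 := HW.v0
  have hvw := HW.vw
  have hδq : 0 < δ₁ * q := by positivity
  have hv1 : v < 1 := by
    have h1 : 0 < 2 * (α₁ + α₂) * q := by positivity
    linarith
  have hy0 : Kn0 ((range r₀).image c) (v + lam) y := by
    intro J F
    obtain ⟨φ, hφ⟩ := hy J F
    exact ⟨fun x => ((φ x).1, (φ x).2.1), fun ω => by
      show ((φ (y J F ω)).1, (φ (y J F ω)).2.1) = _
      rw [hφ ω]⟩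
  have hyT : ∀ (J : ℕ) (F : Fam m J), ∃ φ : γ J F → ℕ, ∀ ω, F.T ω = φ (y J F ω) := by
    intro J F
    obtain ⟨φ, hφ⟩ := hy J F
    exact ⟨fun x => (φ x).1, fun ω => (congrArg Prod.fst (hφ ω)).symm⟩
  obtain ⟨ea, hea, hna⟩ := fw2_nat (a := a) htm (I := (range r).image c) (κ := c r) K (w := v)
    (p := p r) hv0 hv1 f y Qu hδq
  obtain ⟨eb, heb, hnb⟩ := fw2_nat (a := a) htm (I := I₂) (κ := κ₂) K (w := v)
    (p := p₂) hv0 hv1 f y Qu hδq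
  refine ⟨min (min e₁ (ρ / 8)) (min ea eb), lt_min (lt_min he₁ (by linarith)) (lt_min hea heb),
    (min_le_left _ _).trans (min_le_left _ _), ?_⟩
  intro e he hle Ψ hΨ hsub hex hcc hr1 hr2 hj1 hj2 j hj P₂ hP₂
  have h1e : e ≤ e₁ := hle.trans ((min_le_left _ _).trans (min_le_left _ _))
  have h8e : e ≤ ρ / 8 := hle.trans ((min_le_left _ _).trans (min_le_right _ _))
  have hae : e ≤ ea := hle.trans ((min_le_right _ _).trans (min_le_left _ _))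
  have hbe : e ≤ eb := hle.trans ((min_le_right _ _).trans (min_le_right _ _))
  have hrd := (HW.rd0 r HW.hr le_rfl).1
  have hlb1 : ∀ (J : ℕ) (F : Fam m J) (A : F.Ω → Prop) (V C : Type) (z : PtT F → V)
      (z' : LnT F → V) (G₁ G₂ : V → MvPolynomial (Option (Fin m)) ℝ) (cc : LnT F → C),
      Ψ J F A V C z z' G₁ G₂ cc → LbOK F ((range r).image c) (c r) K ⌊e * J⌋₊ J ⌊v * J⌋₊
        ⌊(rd r + e) * J⌋₊ ⌊(p r - e) * J⌋₊ A z z' G₁ := by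
    intro J F A V C z z' G₁ G₂ cc h1
    obtain ⟨⟨g, hlb, rfl, -⟩, -⟩ := hΨ J F A V C z z' G₁ G₂ cc h1
    exact hlb r HW.hr (Nat.lt_succ_self r)
  have hlb2 : ∀ (J : ℕ) (F : Fam m J) (A : F.Ω → Prop) (V C : Type) (z : PtT F → V)
      (z' : LnT F → V) (G₁ G₂ : V → MvPolynomial (Option (Fin m)) ℝ) (cc : LnT F → C),
      Ψ J F A V C z z' G₁ G₂ cc → LbOK F I₂ κ₂ K ⌊e * J⌋₊ J ⌊v * J⌋₊
        ⌊(r₂ + e) * J⌋₊ ⌊(p₂ - e) * J⌋₊ A z z' G₂ :=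
    fun J F A V C z z' G₁ G₂ cc h1 => (hΨ J F A V C z z' G₁ G₂ cc h1).2
  -- the value of the first label
  have hval := HW.valb htm hwa ha hf hy0 (e := e) he h8e (hctx e he h1e) (δ₂ := δ₁ * q)
    (by linarith)
  have hval' : Fw2 S f a y Qu Ψ (τ := fun _ _ _ _ => ℤ)
      (fun J F _ _ z' G₁ _ _ ω => ⌊(2 : ℝ) ^ ((p r + α₁ * q) * J) * ojet F (c r) 0
        (G₁ (z' (slam F ⌊v * J⌋₊ ω))) ω⌋) e (δ₁ * q) := by
    intro K₀
    refine Bas.mono 0 (hval K₀) ?_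
    rintro J - F A h1 V C z z' G₁ G₂ cc hΨ' u₀ hu₀
    obtain ⟨⟨g, hlb, rfl, -⟩, -⟩ := hΨ J F A V C z z' G₁ G₂ cc hΨ'
    exact h1 V z z' g hlb u₀ hu₀
  obtain ⟨N₁, hN₁⟩ : ∃ N₁ : ℕ → ℝ, N₁ = fun j => if j ∈ Iu then p r - j * v else
    p r + α₁ * q - j * v := ⟨_, rfl⟩
  obtain ⟨N₂, hN₂⟩ : ∃ N₂ : ℕ → ℝ, N₂ = fun j => if j ∈ In then p₂ - j * v else
    p₂ + α₂ * q - j * v := ⟨_, rfl⟩
  have hF := H htm (κ₁ := c r) (κ₂ := κ₂) (w := v) (a := a) (p₁ := p r) (p₂ := p₂) (q := q) hv0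
    (hvw.trans hwa) ha hq hvq (Qu := Qu) hf hyT (e := e) Ψ
    (fun J F A V C z z' G₁ G₂ cc h1 => ⟨fun v => ((hlb1 J F A V C z z' G₁ G₂ cc h1).deg v).trans
      (by omega), fun v => ((hlb2 J F A V C z z' G₁ G₂ cc h1).deg v).trans (by omega),
      (hlb2 J F A V C z z' G₁ G₂ cc h1).cls⟩) hsub (N₁ := N₁) (N₂ := N₂)
    ⟨fun j hj => by rw [hN₁]; simp only [hj, if_true, le_refl],
      fun j _ hj => by rw [hN₁]; simp only [hj, if_false, le_refl]⟩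
    ⟨fun j hj => by rw [hN₂]; simp only [hj, if_true, le_refl],
      fun j _ hj => by rw [hN₂]; simp only [hj, if_false, le_refl]⟩
    (hcc.mono (by linarith)) ?_ ?_ ?_ ?_
  · -- the end
    obtain ⟨rk, hrk, hatt⟩ := HW.att
    obtain ⟨Ka, hKa⟩ := hatt e he
    have hps : p r ≤ s r := by
      have h1 : 0 < α₁ * q := by positivity
      linarith [HW.val]
    choose MR JR hcR using fun i : ℕ => cnt_jet m Ka (i + 1)
      (N := p r + α₁ * q - ((i + 1 : ℕ) : ℝ) * v) (w := w) hrk he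
    intro K₀
    obtain ⟨K₁, hK₁⟩ : ∃ K₁ : ℕ, K₁ = K₀ + Ka + ∑ i ∈ range (K + 2), MR i := ⟨_, rfl⟩
    obtain ⟨J₁, hJ₁⟩ : ∃ J₁ : ℕ, J₁ = ∑ i ∈ range (K + 2), JR i := ⟨_, rfl⟩
    have hjop := jets_of_pth K htm HW hf hy hwa ha (ε := ε / 2 * q) (by positivity) he h8e K₁
      (P₂ := min P₂ (s r)) (le_min hP₂ hps)
    refine Bas.mono J₁ (((hF K₁).and hjop).and (hex.and (hKa.and
      (Pool.GRW.tmc_bas htm one_pos)))) ?_
    rintro J hJ F A ⟨⟨HPA, HNA⟩, ⟨V', C', zz, zz', G₁, G₂, cc, hΨ'⟩, ⟨Va, za, za', Ga, hla⟩,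
      hA, -⟩ u u' hu hu'
    obtain ⟨⟨g, hlbg, hG1, φ, hφ⟩, -⟩ := hΨ J F A V' C' zz zz' G₁ G₂ cc hΨ'
    obtain ⟨uu, huu⟩ : ∃ uu : F.Ω → Fin (K + 2) → ℤ, uu = fun ω (i : Fin (K + 2)) =>
      if (i : ℕ) = j then u' ω else ⌊(2 : ℝ) ^ ((p r + α₁ * q - (((i : ℕ) + 1 : ℕ) : ℝ) * v) * J) *
        ojet F (c r) ((i : ℕ) + 1) (Ga (za' (slam F ⌊w * J⌋₊ ω))) ω⌋ := ⟨_, rfl⟩
    obtain ⟨V₁, z₁, hz₁, h1⟩ := HPA V' C' zz zz' G₁ G₂ cc hΨ' u (Qu.mono (by omega) le_rfl hu)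
    obtain ⟨V₂, z₂, hz₂, h2⟩ := HNA V' zz zz' g hlbg uu (fun i => by
      by_cases hij : (i : ℕ) = j
      · have e1 : (fun ω => uu ω i) = u' := by
          funext ω
          rw [huu]
          exact if_pos hij
        rw [e1, hij]
        obtain ⟨hc, V, z, z', G, hl, hu2⟩ := hu'
        refine ⟨hc.trans (Real.exp_le_exp.2 (mul_le_mul_of_nonneg_right ?_ (Nat.cast_nonneg J))),
          V, z, z', G, hl.mono (Finset.Subset.refl _) (by omega) (Nat.floor_le_floor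
            (mul_le_mul_of_nonneg_right (by linarith [min_le_left P₂ (s r)])
              (Nat.cast_nonneg J))), hu2⟩
        exact_mod_cast (by omega : K₀ ≤ K₁)
      · have e1 : (fun ω => uu ω i) = fun ω =>
            ⌊(2 : ℝ) ^ ((p r + α₁ * q - (((i : ℕ) + 1 : ℕ) : ℝ) * v) * J) *
            ojet F (c r) ((i : ℕ) + 1) (Ga (za' (slam F ⌊w * J⌋₊ ω))) ω⌋ := by
          funext ω
          rw [huu]
          exact if_neg hij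
        rw [e1]
        have hi2 := i.2
        have hMi : MR i ≤ ∑ i ∈ range (K + 2), MR i :=
          Finset.single_le_sum (f := MR) (fun i _ => Nat.zero_le _) (Finset.mem_range.2 hi2)
        have hJi : JR i ≤ ∑ i ∈ range (K + 2), JR i :=
          Finset.single_le_sum (f := JR) (fun i _ => Nat.zero_le _) (Finset.mem_range.2 hi2)
        refine ⟨?_, Va, za, za', Ga, (LbP.of hla).mono (Finset.Subset.refl _) (by omega)
          (Nat.floor_le_floor (mul_le_mul_of_nonneg_right (by linarith [min_le_right P₂ (s r)])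
              (Nat.cast_nonneg J))), fun ω _ => rfl⟩
        refine (hcR i J (by omega) F _ _ _ A Va za za' Ga hla).trans
          (Real.exp_le_exp.2 (mul_le_mul_of_nonneg_right ?_ (Nat.cast_nonneg J)))
        exact_mod_cast (by omega : MR i ≤ K₁))
    refine ⟨V₁ × V₂, fun ω => (z₁ ω, z₂ ω), hz₁.join hz₂, ?_⟩
    have hq'l : IsLaw (Pool.Agent.H49.Ent.cond F.p A True) := isLaw_cond F.isLaw hA
    have h0 := hq'l.nonneg
    have k1 : CH (Pool.Agent.H49.Ent.cond F.p A True)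
        (fun ω => xpt c r₀ r K v lam (p r + α₁ * q) n J F V' zz' g ω)
        (fun ω => (u ω, ((z₁ ω, z₂ ω), y J F ω))) ≤ ε / 2 * q * J := by
      refine le_trans (CH_mono_cond h0 (W := fun ω => (u ω, (z₁ ω, y J F ω)))
        fun ω ω' _ _ hh => ?_) (le_trans (CH_mono_left h0 fun ω ω' _ _ hh => ?_) h1)
      · simp only [Prod.mk.injEq] at hh ⊢
        exact ⟨hh.1, hh.2.1.1, hh.2.2⟩
      · have e1 := (Prod.ext_iff.mp hh).1
        simp only [Prod.mk.injEq] at e1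
        obtain ⟨⟨e2, e3⟩, e4, e5, -⟩ := e1
        unfold xpt
        refine Prod.ext (Prod.ext e2 e3) (Prod.ext ?_ ?_)
        · show ctxN F c r₀ r ⌊v * J⌋₊ ⌊(v + lam) * J⌋₊ K zz' g n (vg v J F ω) =
            ctxN F c r₀ r ⌊v * J⌋₊ ⌊(v + lam) * J⌋₊ K zz' g n (vg v J F ω')
          rw [hφ, hφ, e4]
        · rw [hG1] at e5
          exact e5
    have k2 : CH (Pool.Agent.H49.Ent.cond F.p A True) uu
        (fun ω => (xpt c r₀ r K v lam (p r + α₁ * q) n J F V' zz' g ω,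
          (u ω, ((z₁ ω, z₂ ω), y J F ω)))) ≤ ε / 2 * q * J := by
      refine le_trans (CH_mono_cond h0 fun ω ω' _ _ hh => ?_) h2
      simp only [Prod.mk.injEq] at hh ⊢
      exact ⟨hh.1, hh.2.2.1.2, hh.2.2.2⟩
    have k3 := CH_le_add h0 uu
      (fun ω => xpt c r₀ r K v lam (p r + α₁ * q) n J F V' zz' g ω)
      (fun ω => (u ω, ((z₁ ω, z₂ ω), y J F ω)))
    refine le_trans (CH_mono_left h0 fun ω ω' _ _ hh => ?_) (k3.trans ?_)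
    · have e2 := congrFun (Prod.ext_iff.mp hh).1 ⟨j, hj⟩
      rw [huu] at e2
      simpa using e2
    · have k4 : ε * q * J = ε / 2 * q * J + ε / 2 * q * J := by ring
      linarith
  · intro i j hij hj
    refine Bas.mono 0 (hr1 i j hij hj) ?_
    rintro J - F A h1 V C z z' G₁ G₂ cc hΨ'
    refine (h1 V C z z' G₁ G₂ cc hΨ').trans (mul_le_mul_of_nonneg_right ?_ (Nat.cast_nonneg J))
    have : 0 ≤ δ₁ / 2 * q := by positivity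
    linarith
  · intro i j hij hj
    refine Bas.mono 0 (hr2 i j hij hj) ?_
    rintro J - F A h1 V C z z' G₁ G₂ cc hΨ'
    refine (h1 V C z z' G₁ G₂ cc hΨ').trans (mul_le_mul_of_nonneg_right ?_ (Nat.cast_nonneg J))
    have : 0 ≤ δ₁ / 2 * q := by positivity
    linarith
  · intro i hi
    by_cases hiI : i ∈ Iu
    · have e1 : N₁ i = p r - i * v := by rw [hN₁]; simp only [hiI, if_true]
      rw [e1]
      exact hna e he hae i (by omega) hrd hlb1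
    · rcases Nat.eq_zero_or_pos i with h0 | h0
      · subst h0
        have e1 : N₁ 0 = p r + α₁ * q := by
          rw [hN₁]
          simp only [hiI, if_false, Nat.cast_zero, zero_mul, sub_zero]
        rw [e1]
        exact hval'
      · have e1 : N₁ i = p r + α₁ * q - i * v := by rw [hN₁]; simp only [hiI, if_false]
        rw [e1]
        exact (hj1 i hi h0 hiI).mono (by linarith)
  · intro i hi
    by_cases hiI : i ∈ In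
    · have e1 : N₂ i = p₂ - i * v := by rw [hN₂]; simp only [hiI, if_true]
      rw [e1]
      exact (hnb e he hbe i (by omega) hr₂ (Ψ := Ψ.swap)
        (fun J F A V C z z' G₁ G₂ cc h1 => hlb2 J F A V C z z' G₂ G₁ cc h1)).swap
    · have e1 : N₂ i = p₂ + α₂ * q - i * v := by rw [hN₂]; simp only [hiI, if_false]
      rw [e1]
      exact (hj2 i hi hiI).mono (by linarith)

end Pool.PN18
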