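import Pool.Agent.H18.PN.Stp
import Pool.Agent.H18.PN.Dyn

/-!
# The jets of a jointly nonfull pair of curved paths

Two families of polynomial paths `Ru`, `Rz` on the lines, with `a` resp. `b` digits per unit of
radius. At each radius `z` is not full given `u` of the same radius, and `u` is not full given `z` of
the same radius. The jets of the orders outside `Iu`, `Iz` are few bits, the others are natural. If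
`i b ≠ j a` for all `i ∈ Iu`, `j ∈ Iz`, then all jets of both are few bits (`pair_nat`).
-/

set_option autoImplicit false

namespace Pool.PN18

open Finset Real MvPolynomial
open Pool.Agent.H49.Ent Pool.Agent.H32.Dense Pool.STK Pool.KA Pool.KSAT Pool.K2S Pool.PB Pool.GEN
open Pool.S6C Pool.LA91 Pool.OWN68 Pool.AJ18 Pool.PAIR76

variable {m J : ℕ}

/-- The hypotheses on the pair: values few bits, jets of the orders in `Iu`, `Iz` natural, the other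
jets few bits. -/
structure PnH (F : Fam m J) (A : F.Ω → Prop) (Ru Rz : LnT F → Polynomial ℝ) {𝒞 Γ : Type}
    (c : LnT F → 𝒞) (Y : F.Ω → Γ) (Iu Iz : Finset ℕ) (D w : ℕ) (a b μ δ : ℝ) : Prop where
  degu : ∀ x, (Ru x).natDegree ≤ D
  degz : ∀ x, (Rz x).natDegree ≤ D
  tim : (J : ℝ) * Real.log 2 - δ * μ * J ≤
      CH (Pool.Agent.H49.Ent.cond F.p A True) F.T (fun ω => (F.l ω, F.Z ω))
  key : ∀ ω ω', A ω → A ω' → Y ω = Y ω' → F.T ω = F.T ω' ∧ F.Z ω = F.Z ω'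
  ctx : CH (Pool.Agent.H49.Ent.cond F.p A True) (fun ω => c (slam F w ω)) Y ≤ δ * μ * J
  valu : CH (Pool.Agent.H49.Ent.cond F.p A True) (fun ω => ⌊pj F Ru w 0 ω⌋) Y ≤ δ * μ * J
  valz : CH (Pool.Agent.H49.Ent.cond F.p A True) (fun ω => ⌊pj F Rz w 0 ω⌋) Y ≤ δ * μ * J
  knu : ∀ j, 1 ≤ j → j ≤ D → j ∉ Iu → CH (Pool.Agent.H49.Ent.cond F.p A True)
      (fun ω => ⌊pj F Ru w j ω⌋) Y ≤ δ * μ * J
  knz : ∀ j, 1 ≤ j → j ≤ D → j ∉ Iz → CH (Pool.Agent.H49.Ent.cond F.p A True)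
      (fun ω => ⌊pj F Rz w j ω⌋) Y ≤ δ * μ * J
  natu : ∀ j ∈ Iu, CH (Pool.Agent.H49.Ent.cond F.p A True)
      (fun ω => ⌊pj F Ru w j ω / 2 ^ ((a * μ) * J)⌋) Y ≤ δ * μ * J
  natz : ∀ j ∈ Iz, CH (Pool.Agent.H49.Ent.cond F.p A True)
      (fun ω => ⌊pj F Rz w j ω / 2 ^ ((b * μ) * J)⌋) Y ≤ δ * μ * J

theorem PnH.mono {F : Fam m J} {A : F.Ω → Prop} {Ru Rz : LnT F → Polynomial ℝ} {𝒞 Γ : Type}
    {c : LnT F → 𝒞} {Y : F.Ω → Γ} {Iu Iz : Finset ℕ} {D w : ℕ} {a b μ δ δ' : ℝ}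
    (H : PnH F A Ru Rz c Y Iu Iz D w a b μ δ) (hμ : 0 ≤ μ) (hδ : δ ≤ δ') :
    PnH F A Ru Rz c Y Iu Iz D w a b μ δ' := by
  have h1 : δ * μ * J ≤ δ' * μ * J :=
    mul_le_mul_of_nonneg_right (mul_le_mul_of_nonneg_right hδ hμ) (Nat.cast_nonneg _)
  exact ⟨H.degu, H.degz, by linarith [H.tim], H.key, H.ctx.trans h1, H.valu.trans h1,
    H.valz.trans h1, fun j h2 h3 h4 => (H.knu j h2 h3 h4).trans h1,
    fun j h2 h3 h4 => (H.knz j h2 h3 h4).trans h1, fun j hj => (H.natu j hj).trans h1,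
    fun j hj => (H.natz j hj).trans h1⟩

/-- The jets are known to the state `p`. -/
def Knp (F : Fam m J) (A : F.Ω → Prop) (Ru Rz : LnT F → Polynomial ℝ) {Γ : Type}
    (Y : F.Ω → Γ) (D W : ℕ) (μ : ℝ) (p : (ℕ → ℝ) × (ℕ → ℝ)) (e : ℝ) : Prop :=
  (∀ j, 1 ≤ j → j ≤ D → CH (Pool.Agent.H49.Ent.cond F.p A True)
    (fun ω => ⌊pj F Ru W j ω / 2 ^ ((p.1 j * μ) * J)⌋) Y ≤ e * μ * J) ∧
  ∀ j, 1 ≤ j → j ≤ D → CH (Pool.Agent.H49.Ent.cond F.p A True)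
    (fun ω => ⌊pj F Rz W j ω / 2 ^ ((p.2 j * μ) * J)⌋) Y ≤ e * μ * J

/-- The statement at the state `p`. -/
def Snt (D : ℕ) (Iu Iz : Finset ℕ) (a b h : ℝ) (p : (ℕ → ℝ) × (ℕ → ℝ)) : Prop :=
  ∀ ε : ℝ, 0 < ε → ∃ δ : ℝ, 0 < δ ∧ ∃ c₀ : ℝ, 0 < c₀ ∧
    ∀ {w μ : ℝ} (_ : 0 ≤ w) (_ : 0 < μ) (_ : w + 2 * (a + b) * μ ≤ 1),
    ∃ J₀ : ℕ, ∀ J ≥ J₀, ∀ {m : ℕ} (F : Fam m J) (A : F.Ω → Prop) (_ : 0 < Pe F.p A)
      (Ru Rz : LnT F → Polynomial ℝ) {𝒞 Γ : Type} (c : LnT F → 𝒞) (Y : F.Ω → Γ),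
    PnH F A Ru Rz c Y Iu Iz D ⌊w * J⌋₊ a b μ δ →
    NFo F A Rz Ru c ⌊w * J⌋₊ b a μ h (δ * μ) c₀ →
    NFo F A Ru Rz c ⌊w * J⌋₊ a b μ h (δ * μ) c₀ →
    Knp F A Ru Rz Y D ⌊w * J⌋₊ μ p ε

/-- The exchange of the two coordinates. -/
theorem PnH.swap {F : Fam m J} {A : F.Ω → Prop} {Ru Rz : LnT F → Polynomial ℝ} {𝒞 Γ : Type}
    {c : LnT F → 𝒞} {Y : F.Ω → Γ} {Iu Iz : Finset ℕ} {D w : ℕ} {a b μ δ : ℝ}
    (H : PnH F A Ru Rz c Y Iu Iz D w a b μ δ) : PnH F A Rz Ru c Y Iz Iu D w b a μ δ :=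
  ⟨H.degz, H.degu, H.tim, H.key, H.ctx, H.valz, H.valu, H.knz, H.knu, H.natz, H.natu⟩

theorem Snt.swap {D : ℕ} {Iu Iz : Finset ℕ} {a b h : ℝ} {p : (ℕ → ℝ) × (ℕ → ℝ)}
    (H : Snt D Iu Iz a b h p) : Snt D Iz Iu b a h (p.2, p.1) := by
  intro ε hε
  obtain ⟨δ, hδ, c₀, hc₀, H⟩ := H ε hε
  refine ⟨δ, hδ, c₀, hc₀, fun {w μ} hw hμ hwμ => ?_⟩
  obtain ⟨J₀, H⟩ := H (w := w) (μ := μ) hw hμ (by linarith)
  refine ⟨J₀, fun J hJ {m} F A hA Ru Rz {𝒞 Γ} c Y h1 h2 h3 => ?_⟩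
  exact (H J hJ F A hA Rz Ru c Y h1.swap h3 h2).symm

/-- **One move**, for the second coordinate. -/
theorem snt_step {D : ℕ} (hD : 1 ≤ D) {Iu Iz : Finset ℕ} (hz0 : (0 : ℕ) ∉ Iz)
    (hu0 : (0 : ℕ) ∉ Iu) {a b : ℝ} (ha : 0 < a) (hb : 0 < b) {h : ℝ} (hh : 0 < h) (hhb : h ≤ b)
    {ε₀ m₀ : ℝ} (hε₀ : 0 < ε₀) (hm₀ : 0 < m₀) {p : (ℕ → ℝ) × (ℕ → ℝ)} (h1 : p.1 ∈ Kst Iu a)
    (h2 : p.2 ∈ Kst Iz b) {y : ℝ} (y0 : 0 ≤ y) (y1 : y ≤ a + b)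
    (hrm : b / a * Ud D p.1 y + m₀ ≤ b) (H : Snt D Iu Iz a b h p) :
    Snt D Iu Iz a b h (p.1, fun j => if j ∈ Iz then
      min (p.2 j) (b / a * Ud D p.1 y + j * y + ε₀) else 0) := by
  intro ε hε
  obtain ⟨U, hU⟩ : ∃ U : ℝ, U = Ud D p.1 y := ⟨_, rfl⟩
  have hU0 : 0 ≤ U := by
    rw [hU]
    exact Ud_nonneg (Kst.zero h1 hu0)
  rw [← hU] at hrm ⊢
  -- the accuracy of the step
  obtain ⟨ε₁, hε₁⟩ : ∃ ε₁ : ℝ, ε₁ = min (ε₀ / b) (ε / (2 * b)) := ⟨_, rfl⟩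
  have hε₁0 : 0 < ε₁ := by
    rw [hε₁]
    exact lt_min (by positivity) (by positivity)
  have ha1 : ε₁ * b ≤ ε₀ := by
    have : ε₁ ≤ ε₀ / b := by rw [hε₁]; exact min_le_left _ _
    rwa [le_div_iff₀ hb] at this
  have ha2 : ε₁ * b ≤ ε / 2 := by
    have : ε₁ ≤ ε / (2 * b) := by rw [hε₁]; exact min_le_right _ _
    rw [le_div_iff₀ (by positivity)] at this
    linarith
  obtain ⟨δ₁, hδ₁, c₁, hc₁, Hs⟩ := nstep D hD (a := b) (a₂ := a) hb ha hh hhb hε₁0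
  obtain ⟨ε₂, hε₂⟩ : ∃ ε₂ : ℝ, ε₂ = min (δ₁ * m₀) ε := ⟨_, rfl⟩
  have hε₂0 : 0 < ε₂ := by
    rw [hε₂]
    exact lt_min (by positivity) hε
  have hb1 : ε₂ ≤ δ₁ * m₀ := by rw [hε₂]; exact min_le_left _ _
  have hb2 : ε₂ ≤ ε := by rw [hε₂]; exact min_le_right _ _
  obtain ⟨δ₂, hδ₂, c₂, hc₂, H⟩ := H ε₂ hε₂0
  obtain ⟨δ, hδ⟩ : ∃ δ : ℝ, δ = min δ₂ (δ₁ * m₀) := ⟨_, rfl⟩
  have hδ0 : 0 < δ := by
    rw [hδ]
    exact lt_min hδ₂ (by positivity)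
  have hd1 : δ ≤ δ₂ := by rw [hδ]; exact min_le_left _ _
  have hd2 : δ ≤ δ₁ * m₀ := by rw [hδ]; exact min_le_right _ _
  refine ⟨δ, hδ0, min c₁ c₂, lt_min hc₁ hc₂, fun {w μ} hw hμ hwμ => ?_⟩
  obtain ⟨J₁, H⟩ := H (w := w) (μ := μ) hw hμ hwμ
  -- the block
  obtain ⟨s, hs⟩ : ∃ s : ℝ, s = b / a * U := ⟨_, rfl⟩
  have hs0 : 0 ≤ s := by
    rw [hs]
    positivity
  rw [← hs] at hrm ⊢
  have hsa : a * s = b * U := by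
    rw [hs]
    field_simp
  obtain ⟨μ₁, hμ₁⟩ : ∃ μ₁ : ℝ, μ₁ = (b - s) * μ := ⟨_, rfl⟩
  have hμ₁m : m₀ * μ ≤ μ₁ := by
    rw [hμ₁]
    exact mul_le_mul_of_nonneg_right (by linarith) hμ.le
  have hμ₁0 : 0 < μ₁ := lt_of_lt_of_le (by positivity) hμ₁m
  have hμ₁b : μ₁ ≤ b * μ := by
    rw [hμ₁]
    exact mul_le_mul_of_nonneg_right (by linarith) hμ.le
  obtain ⟨J₂, Hs⟩ := Hs (w := w) (y := y * μ) (s := s * μ) (s₂ := U * μ) (μ := μ) (μ₁ := μ₁)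
    (e₁ := fun j => p.2 j * μ) (e₂ := fun j => p.1 j * μ) hw (by positivity) (by positivity)
    (by positivity) hμ₁0 (by
      have h3 : y * μ ≤ (a + b) * μ := mul_le_mul_of_nonneg_right y1 hμ.le
      have h4 : 0 ≤ a * μ := by positivity
      nlinarith) (by
      rw [hμ₁]
      linarith) (le_of_eq (by
      have e1 : a * (s * μ) = a * s * μ := by ring
      rw [e1, hsa]
      ring)) (fun j _ _ => by
      have h3 := Kst.le hb.le h2 j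
      have h4 : (0 : ℝ) ≤ j * y := mul_nonneg (Nat.cast_nonneg j) y0
      rw [hμ₁]
      nlinarith) (fun j _ hj => by
      have h3 := le_Ud (D := D) (e := p.1) (y := y) hj
      rw [← hU] at h3
      nlinarith)
  obtain ⟨J₃, hJ₃⟩ := exists_nat_ge (Real.log 7 / (ε / 2 * μ))
  refine ⟨max (max J₁ J₂) J₃, ?_⟩
  intro J hJ m F A hA Ru Rz 𝒞 Γ c Y HP nz nu
  have hJ1 : J₁ ≤ J := ((le_max_left _ _).trans (le_max_left _ _)).trans hJ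
  have hJ2 : J₂ ≤ J := ((le_max_right _ _).trans (le_max_left _ _)).trans hJ
  have hJ3 : (J₃ : ℝ) ≤ J := by exact_mod_cast (le_max_right _ _).trans hJ
  have hJ0 : (0 : ℝ) ≤ J := Nat.cast_nonneg J
  have k7 : Real.log 7 ≤ ε / 2 * μ * J := by
    have h3 : Real.log 7 / (ε / 2 * μ) ≤ J := hJ₃.trans hJ3
    rw [div_le_iff₀ (by positivity)] at h3
    linarith
  have hdμ : δ * μ ≤ δ₂ * μ := mul_le_mul_of_nonneg_right hd1 hμ.le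
  have hdμ1 : δ * μ ≤ δ₁ * μ₁ := by
    calc δ * μ ≤ δ₁ * m₀ * μ := mul_le_mul_of_nonneg_right hd2 hμ.le
      _ = δ₁ * (m₀ * μ) := by ring
      _ ≤ δ₁ * μ₁ := mul_le_mul_of_nonneg_left hμ₁m hδ₁.le
  have heμ1 : ε₂ * μ ≤ δ₁ * μ₁ := by
    calc ε₂ * μ ≤ δ₁ * m₀ * μ := mul_le_mul_of_nonneg_right hb1 hμ.le
      _ = δ₁ * (m₀ * μ) := by ring
      _ ≤ δ₁ * μ₁ := mul_le_mul_of_nonneg_left hμ₁m hδ₁.le
  have hdJ : δ * μ * J ≤ δ₁ * μ₁ * J := mul_le_mul_of_nonneg_right hdμ1 hJ0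
  have heJ : ε₂ * μ * J ≤ δ₁ * μ₁ * J := mul_le_mul_of_nonneg_right heμ1 hJ0
  have heJ' : ε₂ * μ * J ≤ ε * μ * J :=
    mul_le_mul_of_nonneg_right (mul_le_mul_of_nonneg_right hb2 hμ.le) hJ0
  obtain ⟨k1, k2⟩ := H J hJ1 F A hA Ru Rz c Y (HP.mono hμ.le hd1)
    (nz.mono le_rfl hdμ (min_le_right _ _)) (nu.mono le_rfl hdμ (min_le_right _ _))
  have hq'l : IsLaw (Pool.Agent.H49.Ent.cond F.p A True) := isLaw_cond F.isLaw hA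
  refine ⟨fun j hj1 hj => (k1 j hj1 hj).trans heJ', fun j hj1 hj => ?_⟩
  have hst := Hs J hJ2 F A hA Rz Ru c Y HP.degz HP.degu (by linarith [HP.tim]) HP.key
    (HP.ctx.trans hdJ) (HP.valz.trans hdJ) (HP.valu.trans hdJ)
    (fun j h3 h4 => (k2 j h3 h4).trans heJ) (fun j h3 h4 => (k1 j h3 h4).trans heJ)
    (nz.mono le_rfl hdμ1 (min_le_left _ _)) j hj1 hj
  by_cases hjz : j ∈ Iz
  · simp only [hjz, if_true]
    rcases min_choice (p.2 j) (s + j * y + ε₀) with hmin | hmin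
    · rw [hmin]
      exact (k2 j hj1 hj).trans heJ'
    · rw [hmin]
      have e1 : s * μ + j * (y * μ) + ε₁ * μ₁ ≤ (s + j * y + ε₀) * μ := by
        have h3 : ε₁ * μ₁ ≤ ε₀ * μ := by
          calc ε₁ * μ₁ ≤ ε₁ * (b * μ) := mul_le_mul_of_nonneg_left hμ₁b hε₁0.le
            _ = ε₁ * b * μ := by ring
            _ ≤ ε₀ * μ := mul_le_mul_of_nonneg_right ha1 hμ.le
        have h4 : (s + j * y + ε₀) * μ = s * μ + j * (y * μ) + ε₀ * μ := by ring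
        rw [h4]
        linarith
      have h3 := crs hq'l (fun ω => pj F Rz ⌊w * J⌋₊ j ω) Y (J := J) e1
      have h4 : ε₁ * μ₁ * J ≤ ε / 2 * μ * J := by
        refine mul_le_mul_of_nonneg_right ?_ hJ0
        calc ε₁ * μ₁ ≤ ε₁ * (b * μ) := mul_le_mul_of_nonneg_left hμ₁b hε₁0.le
          _ = ε₁ * b * μ := by ring
          _ ≤ ε / 2 * μ := mul_le_mul_of_nonneg_right ha2 hμ.le
      linarith
  · simp only [hjz, if_false]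
    have h3 := k2 j hj1 hj
    rw [Kst.zero h2 hjz] at h3
    exact h3.trans heJ'

theorem snt_mv {D : ℕ} (hD : 1 ≤ D) {Iu Iz : Finset ℕ} (hz0 : (0 : ℕ) ∉ Iz)
    (hu0 : (0 : ℕ) ∉ Iu) {a b : ℝ} (ha : 0 < a) (hb : 0 < b) {h : ℝ} (hh : 0 < h) (hha : h ≤ a)
    (hhb : h ≤ b) {ε₀ m₀ : ℝ} (hε₀ : 0 < ε₀) (hm₀ : 0 < m₀) {p q : (ℕ → ℝ) × (ℕ → ℝ)}
    (h1 : p.1 ∈ Kst Iu a) (h2 : p.2 ∈ Kst Iz b) (hmv : Mv D Iu Iz a b ε₀ m₀ p q)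
    (H : Snt D Iu Iz a b h p) : Snt D Iu Iz a b h q := by
  obtain ⟨y, y0, y1, ⟨h3, rfl⟩ | ⟨h3, rfl⟩⟩ := hmv
  · exact snt_step hD hz0 hu0 ha hb hh hhb hε₀ hm₀ h1 h2 y0 y1 h3 H
  · have := snt_step (p := (p.2, p.1)) hD hu0 hz0 hb ha hh hha hε₀ hm₀ h2 h1 y0 (by linarith) h3
      H.swap
    exact this.swap

/-- **PAIR, curved paths**, rows at real radii. -/
theorem pair_natr (D : ℕ) (hD : 1 ≤ D) {Iu Iz : Finset ℕ} (hu : ∀ i ∈ Iu, 1 ≤ i ∧ i ≤ D)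
    (hz : ∀ j ∈ Iz, 1 ≤ j ∧ j ≤ D) {a b : ℝ} (ha : 0 < a) (hb : 0 < b)
    (hres : ∀ i ∈ Iu, ∀ j ∈ Iz, (i : ℝ) * b ≠ j * a) {h : ℝ} (hh : 0 < h)
    (hha : h ≤ a) (hhb : h ≤ b) {ε : ℝ} (hε : 0 < ε) :
    ∃ δ : ℝ, 0 < δ ∧ ∃ c₀ : ℝ, 0 < c₀ ∧
    ∀ {w μ : ℝ} (_ : 0 ≤ w) (_ : 0 < μ) (_ : w + 2 * (a + b) * μ ≤ 1),
    ∃ J₀ : ℕ, ∀ J ≥ J₀, ∀ {m : ℕ} (F : Fam m J) (A : F.Ω → Prop) (_ : 0 < Pe F.p A)
      (Ru Rz : LnT F → Polynomial ℝ) {𝒞 Γ : Type} (c : LnT F → 𝒞) (Y : F.Ω → Γ),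
    PnH F A Ru Rz c Y Iu Iz D ⌊w * J⌋₊ a b μ δ →
    NFo F A Rz Ru c ⌊w * J⌋₊ b a μ h (δ * μ) c₀ →
    NFo F A Ru Rz c ⌊w * J⌋₊ a b μ h (δ * μ) c₀ →
    ∀ j, 1 ≤ j → j ≤ D → CH (Pool.Agent.H49.Ent.cond F.p A True)
      (fun ω => ⌊pj F Ru ⌊w * J⌋₊ j ω / 2 ^ (ε * μ * J)⌋) Y ≤ ε * μ * J ∧
      CH (Pool.Agent.H49.Ent.cond F.p A True)
      (fun ω => ⌊pj F Rz ⌊w * J⌋₊ j ω / 2 ^ (ε * μ * J)⌋) Y ≤ ε * μ * J := by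
  have hu0 : (0 : ℕ) ∉ Iu := fun h => by
    have := (hu 0 h).1
    omega
  have hz0 : (0 : ℕ) ∉ Iz := fun h => by
    have := (hz 0 h).1
    omega
  obtain ⟨ε₀, hε₀, m₀, hm₀, hreach⟩ := reach hu hz ha hb hres hε
  obtain ⟨p₀, hp₀⟩ : ∃ p₀ : (ℕ → ℝ) × (ℕ → ℝ), p₀ = (fun i => if i ∈ Iu then a else 0,
    fun j => if j ∈ Iz then b else 0) := ⟨_, rfl⟩
  have m1 : p₀.1 ∈ Kst Iu a := by
    rw [hp₀]
    exact mem_Kst (fun i hi => by simp [hi]) (fun i hi => by simp [hi, ha.le])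
      fun i hi => by simp [hi]
  have m2 : p₀.2 ∈ Kst Iz b := by
    rw [hp₀]
    exact mem_Kst (fun i hi => by simp [hi]) (fun i hi => by simp [hi, hb.le])
      fun i hi => by simp [hi]
  obtain ⟨q, hq, q1, q2⟩ := hreach p₀ m1 m2
  -- the natural state
  have S0 : Snt D Iu Iz a b h p₀ := by
    intro ε hε
    refine ⟨ε, hε, 1, one_pos, fun {w μ} _ hμ _ => ⟨0, ?_⟩⟩
    intro J _ m F A hA Ru Rz 𝒞 Γ c Y HP _ _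
    refine ⟨fun j hj1 hj => ?_, fun j hj1 hj => ?_⟩
    · by_cases hi : j ∈ Iu
      · rw [hp₀]
        simp only [hi, if_true]
        exact HP.natu j hi
      · rw [hp₀]
        simp only [hi, if_false, zero_mul, Real.rpow_zero, div_one]
        exact HP.knu j hj1 hj hi
    · by_cases hi : j ∈ Iz
      · rw [hp₀]
        simp only [hi, if_true]
        exact HP.natz j hi
      · rw [hp₀]
        simp only [hi, if_false, zero_mul, Real.rpow_zero, div_one]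
        exact HP.knz j hj1 hj hi
  have main : ∀ q : (ℕ → ℝ) × (ℕ → ℝ), Relation.ReflTransGen (Mv D Iu Iz a b ε₀ m₀) p₀ q →
      q.1 ∈ Kst Iu a ∧ q.2 ∈ Kst Iz b ∧ Snt D Iu Iz a b h q := by
    intro q hq
    induction hq with
    | refl => exact ⟨m1, m2, S0⟩
    | tail _ hmv ih =>
      obtain ⟨i1, i2, i3⟩ := ih
      obtain ⟨k1, k2⟩ := hmv.mem hu hz ha hb hε₀.le i1 i2
      exact ⟨k1, k2, snt_mv hD hz0 hu0 ha hb hh hha hhb hε₀ hm₀ i1 i2 hmv i3⟩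
  obtain ⟨-, -, Sq⟩ := main q hq
  obtain ⟨δ, hδ, c₀, hc₀, H⟩ := Sq (ε / 2) (half_pos hε)
  refine ⟨δ, hδ, c₀, hc₀, fun {w μ} hw hμ hwμ => ?_⟩
  obtain ⟨J₁, H⟩ := H (w := w) (μ := μ) hw hμ hwμ
  obtain ⟨J₂, hJ₂⟩ := exists_nat_ge (Real.log 7 / (ε / 2 * μ))
  refine ⟨max J₁ J₂, ?_⟩
  intro J hJ m F A hA Ru Rz 𝒞 Γ c Y HP nz nu j hj1 hj
  have hJ0 : (0 : ℝ) ≤ J := Nat.cast_nonneg J
  have k7 : Real.log 7 ≤ ε / 2 * μ * J := by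
    have h3 : Real.log 7 / (ε / 2 * μ) ≤ J :=
      hJ₂.trans (by exact_mod_cast (le_max_right _ _).trans hJ)
    rw [div_le_iff₀ (by positivity)] at h3
    linarith
  obtain ⟨k1, k2⟩ := H J ((le_max_left _ _).trans hJ) F A hA Ru Rz c Y HP nz nu
  have hq'l : IsLaw (Pool.Agent.H49.Ent.cond F.p A True) := isLaw_cond F.isLaw hA
  have h1 := crs hq'l (fun ω => pj F Ru ⌊w * J⌋₊ j ω) Y (J := J) (x := q.1 j * μ) (x' := ε * μ)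
    (mul_le_mul_of_nonneg_right (q1 j).le hμ.le)
  have h2 := crs hq'l (fun ω => pj F Rz ⌊w * J⌋₊ j ω) Y (J := J) (x := q.2 j * μ) (x' := ε * μ)
    (mul_le_mul_of_nonneg_right (q2 j).le hμ.le)
  have h3 := k1 j hj1 hj
  have h4 := k2 j hj1 hj
  have e1 : ε * μ * J = ε / 2 * μ * J + ε / 2 * μ * J := by ring
  constructor
  · linarith
  · linarith

/-- **PAIR, curved paths**: all jets of a jointly nonfull pair without resonance are few bits. -/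
theorem pair_nat (D : ℕ) (hD : 1 ≤ D) {Iu Iz : Finset ℕ} (hu : ∀ i ∈ Iu, 1 ≤ i ∧ i ≤ D)
    (hz : ∀ j ∈ Iz, 1 ≤ j ∧ j ≤ D) {a b : ℝ} (ha : 0 < a) (hb : 0 < b)
    (hres : ∀ i ∈ Iu, ∀ j ∈ Iz, (i : ℝ) * b ≠ j * a) {h : ℝ} (hh : 0 < h)
    (hha : h ≤ a) (hhb : h ≤ b) {ε : ℝ} (hε : 0 < ε) :
    ∃ δ : ℝ, 0 < δ ∧ ∃ c₀ : ℝ, 0 < c₀ ∧ ∃ N₀ : ℕ, 0 < N₀ ∧
    ∀ {w μ : ℝ} (_ : 0 ≤ w) (_ : 0 < μ) (_ : w + 2 * (a + b) * μ ≤ 1),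
    ∃ J₀ : ℕ, ∀ J ≥ J₀, ∀ {m : ℕ} (F : Fam m J) (A : F.Ω → Prop) (_ : 0 < Pe F.p A)
      (Ru Rz : LnT F → Polynomial ℝ) {𝒞 Γ : Type} (c : LnT F → 𝒞) (Y : F.Ω → Γ),
    PnH F A Ru Rz c Y Iu Iz D ⌊w * J⌋₊ a b μ δ →
    NFog F A Rz Ru c ⌊w * J⌋₊ b a μ h (δ * μ) c₀ N₀ →
    NFog F A Ru Rz c ⌊w * J⌋₊ a b μ h (δ * μ) c₀ N₀ →
    ∀ j, 1 ≤ j → j ≤ D → CH (Pool.Agent.H49.Ent.cond F.p A True)
      (fun ω => ⌊pj F Ru ⌊w * J⌋₊ j ω / 2 ^ (ε * μ * J)⌋) Y ≤ ε * μ * J ∧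
      CH (Pool.Agent.H49.Ent.cond F.p A True)
      (fun ω => ⌊pj F Rz ⌊w * J⌋₊ j ω / 2 ^ (ε * μ * J)⌋) Y ≤ ε * μ * J := by
  obtain ⟨δ, hδ, c₀, hc₀, H⟩ := pair_natr D hD hu hz ha hb hres hh hha hhb hε
  obtain ⟨N₀, hN₀⟩ := exists_nat_ge (12 * (a + b) / δ + 1)
  have hab : 0 < a + b := by positivity
  have hN0 : (0 : ℝ) < N₀ := lt_of_lt_of_le (by positivity) hN₀
  have hNδ : 3 * (a + b) / N₀ ≤ δ / 4 := by
    rw [div_le_iff₀ hN0]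
    have h1 : 12 * (a + b) / δ ≤ N₀ := by linarith
    rw [div_le_iff₀ hδ] at h1
    linarith
  refine ⟨δ / 2, by positivity, c₀, hc₀, N₀, by exact_mod_cast hN0, ?_⟩
  intro w μ hw hμ hwμ
  obtain ⟨J₁, H⟩ := H (w := w) (μ := μ) hw hμ hwμ
  obtain ⟨J₂, hJ₂⟩ := exists_nat_ge (12 * Real.log 7 / (δ * μ))
  refine ⟨max J₁ J₂, ?_⟩
  intro J hJ m F A hA Ru Rz 𝒞 Γ c Y HP nz nu
  have hJ0 : (0 : ℝ) ≤ J := Nat.cast_nonneg J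
  have k7 : 12 * Real.log 7 ≤ δ * μ * J := by
    have h1 : 12 * Real.log 7 / (δ * μ) ≤ J :=
      hJ₂.trans (by exact_mod_cast (le_max_right _ _).trans hJ)
    rw [div_le_iff₀ (by positivity)] at h1
    linarith
  have err : ∀ x : ℝ, x ≤ 3 * (a + b) → (x * (μ / N₀) + δ / 2 * μ) * J + 3 * Real.log 7 ≤
      δ * μ * J := by
    intro x hx
    have h1 : x * (μ / N₀) ≤ δ / 4 * μ := by
      have h2 : x * (μ / N₀) ≤ 3 * (a + b) * (μ / N₀) := mul_le_mul_of_nonneg_right hx (by positivity)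
      have h3 : 3 * (a + b) * (μ / N₀) = 3 * (a + b) / N₀ * μ := by ring
      rw [h3] at h2
      exact h2.trans (mul_le_mul_of_nonneg_right hNδ hμ.le)
    have h4 := mul_le_mul_of_nonneg_right h1 hJ0
    linarith
  have hNn : 0 < N₀ := by exact_mod_cast hN0
  refine H J ((le_max_left _ _).trans hJ) F A hA Ru Rz c Y (HP.mono hμ.le (by linarith))
    (nz.real hA hNn hμ hb ha hh.le hhb hc₀ ?_) (nu.real hA hNn hμ ha hb hh.le hha hc₀ ?_)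
  · exact err (2 * b + a) (by linarith)
  · exact err (2 * a + b) (by linarith)

end Pool.PN18
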