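import Pool.Agent.H18.PN.Vfn

/-!
# The dead velocity from a part of each event

`rstC`: the events of a class with a hereditary property. `VfW.of_part`, `VfN.of_part`: if each event
has a part of a fixed relative mass with the property, then the velocity statements in the restricted
class give those in the class.
-/

set_option autoImplicit false

namespace Pool.V1E

open Finset Real MvPolynomial
open Pool.KA Pool.KSAT Pool.PB Pool.GEN Pool.D2R Pool.D2G30 Pool.ISO Pool.CHT Pool.CHX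
open Pool.PB.Trl (rt rt_mem t_rt)
open Pool.Agent.H49.Ent Pool.Agent.H32.Dense Pool.STK Pool.K2S Pool.LA91 Pool.OWN68
open Pool.UNJ (ceI)
open Pool.S6C Pool.RCD Pool.D2Con Pool.END18 Pool.VLF71

variable {m : ℕ}

/-- **The events of a class with a hereditary property.** -/
def rstC (S : PCl m) (Φ : Stat m)
    (hΦ : ∀ (J : ℕ) (F : Fam m J) (A B : F.Ω → Prop), Sub B A → Φ J F A → Φ J F B) : PCl m where
  St τ J F A := S.St τ J F A ∧ Φ J F A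
  mono h hS := ⟨S.mono h hS.1, hS.2⟩
  res hτ hS hB hP := ⟨S.res hτ hS.1 hB hP, hΦ _ _ _ _ hB hS.2⟩

section

variable {S : PCl m} {Φ : Stat m}
  {hΦ : ∀ (J : ℕ) (F : Fam m J) (A B : F.Ω → Prop), Sub B A → Φ J F A → Φ J F B}

/-- The restricted class is a subclass. -/
theorem rst_sub (τ : ℝ) (J : ℕ) (F : Fam m J) (A : F.Ω → Prop) :
    (rstC S Φ hΦ).St τ J F A → S.St τ J F A := fun h => h.1

/-- The property holds in the restricted class. -/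
theorem rst_has : Bas (rstC S Φ hΦ) Φ := ⟨1, one_pos, 0, fun _ _ _ _ h => h.2⟩

/-- A statement of the restricted class in the class. -/
theorem bas_rst {Ψ : Stat m} (h : Bas (rstC S Φ hΦ) Ψ) :
    Bas S (fun J F A => Φ J F A → Ψ J F A) := by
  obtain ⟨τ, hτ, J₁, h⟩ := h
  exact ⟨τ, hτ, J₁, fun J hJ F A hA hP => h J hJ F A ⟨hA, hP⟩⟩

/-- The restricted class is nonempty, if each event has a part with the property. -/
theorem rst_ne {K : ℝ} (hpart : Bas S (fun J F A => ∃ B : F.Ω → Prop, Sub B A ∧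
    Pe F.p A ≤ K * Pe F.p B ∧ Φ J F B)) (hS : S.Ne) : (rstC S Φ hΦ).Ne := by
  intro τ hτ J₁
  obtain ⟨τ', hτ', J₂, h⟩ := hpart
  obtain ⟨J₃, hJ₃⟩ := exists_nat_ge (Real.log (max K 1) / (τ / 2))
  obtain ⟨J, hJ, F, A, hA⟩ := hS (min τ' (τ / 2)) (lt_min hτ' (half_pos hτ))
    (max J₁ (max J₂ J₃))
  have h1 : J₁ ≤ J := (le_max_left _ _).trans hJ
  have h2 : J₂ ≤ J := (le_max_left _ _).trans ((le_max_right _ _).trans hJ)
  have h3 : J₃ ≤ J := (le_max_right _ _).trans ((le_max_right _ _).trans hJ)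
  obtain ⟨B, hB, hP, hΦB⟩ := h J h2 F A (S.mono (min_le_left _ _) hA)
  refine ⟨J, h1, F, B, ?_, hΦB⟩
  have h4 : S.St (τ / 2 + τ / 2) J F B := by
    refine S.res (half_pos hτ).le (S.mono (min_le_right _ _) hA) hB ?_
    have h5 : Real.log (max K 1) ≤ τ / 2 * J := by
      have h6 : (J₃ : ℝ) ≤ J := by exact_mod_cast h3
      have h7 := hJ₃.trans h6
      rw [div_le_iff₀ (by linarith)] at h7
      linarith
    have hK1 : (0 : ℝ) < max K 1 := lt_of_lt_of_le one_pos (le_max_right _ _)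
    have h6 : Real.exp (-(τ / 2 * J)) * max K 1 ≤ 1 := by
      have h7 : max K 1 ≤ Real.exp (τ / 2 * J) := by
        rw [← Real.log_le_iff_le_exp hK1]
        exact h5
      have h8 := mul_le_mul_of_nonneg_left h7 (Real.exp_pos (-(τ / 2 * J))).le
      rwa [← Real.exp_add, neg_add_cancel, Real.exp_zero] at h8
    have h7 : Pe F.p A ≤ max K 1 * Pe F.p B := hP.trans
      (mul_le_mul_of_nonneg_right (le_max_left _ _) (Pe_nonneg F.isLaw B))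
    calc Real.exp (-(τ / 2 * J)) * Pe F.p A ≤ Real.exp (-(τ / 2 * J)) * (max K 1 * Pe F.p B) :=
          mul_le_mul_of_nonneg_left h7 (Real.exp_pos _).le
      _ = (Real.exp (-(τ / 2 * J)) * max K 1) * Pe F.p B := by ring
      _ ≤ 1 * Pe F.p B := mul_le_mul_of_nonneg_right h6 (Pe_nonneg F.isLaw B)
      _ = Pe F.p B := one_mul _
  rwa [add_halves] at h4

end

/-- Smaller events. -/
theorem WN.res {c : ℕ → Fin m} {r D Dw Dr N N₂ : ℕ} {R : ℕ → Prop}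
    {C a Eb ε₀ η₀ χ mb : ℝ} {Pt : ℝ → ℝ → ℝ} {o : ℕ → ℝ} {lv be : ℕ → ℕ → ℝ} {J : ℕ} {F : Fam m J}
    {b : ℕ → ℕ → ℝ} {κ : ℝ} {z : ℕ → ℕ → ℕ} {qe : Fin r → ℕ} {B : F.Ω → Prop} {gc gT g₀ : ℕ → ℕ → ℕ}
    {G : ℕ → PtT F → ℕ → MvPolynomial (Option (Fin m)) ℝ}
    {H : ℕ → LnT F → ℕ → MvPolynomial (Option (Fin m)) ℝ}
    {T : ℕ → PtT F → ℕ → MvPolynomial (Option (Fin m)) ℝ}
    {TH : ℕ → LnT F → ℕ → MvPolynomial (Option (Fin m)) ℝ}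
    {Gt : ℕ → PtT F → MvPolynomial (Option (Fin m)) ℝ}
    {Ht : ℕ → LnT F → MvPolynomial (Option (Fin m)) ℝ}
    {CL : LnT F → MvPolynomial (Option (Fin m)) ℝ}
    {Cp : PtT F → MvPolynomial (Option (Fin m)) ℝ}
    (W : WN c r D Dw Dr N N₂ R C a Eb ε₀ η₀ χ mb Pt o lv be F b κ z qe B gc gT g₀ G H T TH Gt Ht
      CL Cp) {B' : F.Ω → Prop} {κ₁ κ₂ : ℝ} (hB : Sub B' B) (hP : κ₁ * Pe F.p B ≤ Pe F.p B')
    (h2 : 0 ≤ κ₂) (hκ : κ ≤ κ₂ * κ₁) :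
    WN c r D Dw Dr N N₂ R C a Eb ε₀ η₀ χ mb Pt o lv be F b κ₂ z qe B' gc gT g₀ G H T TH Gt Ht
      CL Cp :=
  ⟨W.n1, W.n3, W.DD, W.wg.res hB hP h2 hκ,
    ⟨W.nw.toNvP.sub hB, W.nw.toNwC.mono hB le_rfl le_rfl⟩⟩

/-- **`VfW` from a part of each event.** -/
theorem VfW.of_part {S : PCl m} {Φ : Stat m}
    {hΦ : ∀ (J : ℕ) (F : Fam m J) (A B : F.Ω → Prop), Sub B A → Φ J F A → Φ J F B}
    {c : ℕ → Fin m} {r D Dr N₂ : ℕ} {C a Eb ε₀ η₀ ζ mb kk : ℝ} {Pt : ℝ → ℝ → ℝ} {o : ℕ → ℝ}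
    {lv be : ℕ → ℕ → ℝ} {κ : ℝ} {qf : ℕ → Fin r → ℕ} {δ K K₂ : ℝ} (hK : 0 < K) (hκ : 0 ≤ κ)
    (hpart : Bas S (fun J F A => ∃ B : F.Ω → Prop, Sub B A ∧ Pe F.p A ≤ K * Pe F.p B ∧ Φ J F B))
    (h : VfW (rstC S Φ hΦ) c r D Dr N₂ C a Eb ε₀ η₀ ζ mb kk Pt o lv be (κ * K) qf δ K₂) :
    VfW S c r D Dr N₂ C a Eb ε₀ η₀ ζ mb kk Pt o lv be κ qf δ (K * K₂) := by
  obtain ⟨k₂, hk₂, h⟩ := h
  refine ⟨k₂, hk₂, Bas.mono 0 (hpart.and (Pool.GRW.bas_part (bas_rst h) hK)) ?_⟩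
  rintro J - F B ⟨⟨B', hB', hPB', hΦB⟩, h1⟩ b z gc gT g₀ G H T TH Gt Ht W
  have hP' : 1 / K * Pe F.p B ≤ Pe F.p B' := by
    rw [one_div_mul_eq_div, div_le_iff₀ hK, mul_comm]
    exact hPB'
  obtain ⟨B₂, hB₂, hPB₂, h2⟩ := h1 B' hB' hPB' hΦB b z gc gT g₀ G H T TH Gt Ht
    (W.res hB' hP' (by positivity) (by rw [mul_one_div, mul_div_cancel_right₀ _ hK.ne']))
  refine ⟨B₂, fun ω hω => hB' ω (hB₂ ω hω), ?_, h2⟩
  rw [mul_assoc]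
  exact hPB'.trans (mul_le_mul_of_nonneg_left hPB₂ hK.le)

/-- **`VfN` from a part of each event.** -/
theorem VfN.of_part {S : PCl m} {Φ : Stat m}
    {hΦ : ∀ (J : ℕ) (F : Fam m J) (A B : F.Ω → Prop), Sub B A → Φ J F A → Φ J F B}
    {c : ℕ → Fin m} {r D Dw Dr N N₂ : ℕ} {R : ℕ → Prop} {C a Eb ε₀ η₀ χ mb kk : ℝ}
    {Pt : ℝ → ℝ → ℝ} {o : ℕ → ℝ} {lv be : ℕ → ℕ → ℝ} {κ : ℝ} {qf : ℕ → Fin r → ℕ}
    {δ K K₂ : ℝ} {Ξ : XiN m} (hK : 0 < K) (hκ : 0 ≤ κ)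
    (hXi : ∀ (J : ℕ) (F : Fam m J) (B B' : F.Ω → Prop) (g₀ : ℕ → ℕ → ℕ)
      (G : ℕ → PtT F → ℕ → MvPolynomial (Option (Fin m)) ℝ)
      (H : ℕ → LnT F → ℕ → MvPolynomial (Option (Fin m)) ℝ)
      (Ht : ℕ → LnT F → MvPolynomial (Option (Fin m)) ℝ)
      (CL : LnT F → MvPolynomial (Option (Fin m)) ℝ)
      (Cp : PtT F → MvPolynomial (Option (Fin m)) ℝ), Sub B' B → Ξ J F B g₀ G H Ht CL Cp →
      Ξ J F B' g₀ G H Ht CL Cp)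
    (hpart : Bas S (fun J F A => ∃ B : F.Ω → Prop, Sub B A ∧ Pe F.p A ≤ K * Pe F.p B ∧ Φ J F B))
    (h : VfN (rstC S Φ hΦ) c r D Dw Dr N N₂ R C a Eb ε₀ η₀ χ mb kk Pt o lv be (κ * K) qf δ K₂ Ξ) :
    VfN S c r D Dw Dr N N₂ R C a Eb ε₀ η₀ χ mb kk Pt o lv be κ qf δ (K * K₂) Ξ := by
  obtain ⟨k₂, hk₂, h⟩ := h
  refine ⟨k₂, hk₂, Bas.mono 0 (hpart.and (Pool.GRW.bas_part (bas_rst h) hK)) ?_⟩
  rintro J - F B ⟨⟨B', hB', hPB', hΦB⟩, h1⟩ b z gc gT g₀ G H T TH Gt Ht CL Cp W hX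
  have hP' : 1 / K * Pe F.p B ≤ Pe F.p B' := by
    rw [one_div_mul_eq_div, div_le_iff₀ hK, mul_comm]
    exact hPB'
  obtain ⟨B₂, hB₂, hPB₂, h2⟩ := h1 B' hB' hPB' hΦB b z gc gT g₀ G H T TH Gt Ht CL Cp
    (W.res hB' hP' (by positivity) (by rw [mul_one_div, mul_div_cancel_right₀ _ hK.ne']))
    (hXi _ _ _ _ _ _ _ _ _ _ hB' hX)
  refine ⟨B₂, fun ω hω => hB' ω (hB₂ ω hω), ?_, h2⟩
  rw [mul_assoc]
  exact hPB'.trans (mul_le_mul_of_nonneg_left hPB₂ hK.le)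

end Pool.V1E
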