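import Pool.Agent.H18.PN.Pxw

/-!
# A member of a jointly nonfull pair, labels with gradient exponents

`pair_X1`: all jets of `c r` over the labels of a finer window `w` are few bits given the ball, if
`c r` and a second coordinate are jointly nonfull over the window `v`; labels with gradient
exponents, at one accuracy `e`.
-/

set_option autoImplicit false

namespace Pool.PN18

open Finset Real MvPolynomial
open Pool.Agent.H49.Ent Pool.Agent.H32.Dense Pool.STK Pool.KA Pool.KSAT Pool.K2S Pool.PB Pool.GEN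
open Pool.S6C Pool.RCD Pool.LA91 Pool.OWN68 Pool.AJW Pool.AJX
open Pool.GRD (LbP)
open Pool.UNJ (ceI Tub)

/-- **The jets of a member of a jointly nonfull pair over a finer window**, exponents. -/
theorem pair_X1 (K : ℕ) {Iu In : Finset ℕ} (hu : ∀ i ∈ Iu, 1 ≤ i ∧ i ≤ K + 2)
    (hn : ∀ j ∈ In, 1 ≤ j ∧ j ≤ K + 2) {α₁ α₂ : ℝ} (hα₁ : 0 < α₁) (hα₂ : 0 < α₂)
    (hres : ∀ i ∈ Iu, ∀ j ∈ In, (i : ℝ) * α₂ ≠ j * α₁) {h : ℝ} (hh : 0 < h)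
    (hh1 : h ≤ α₁) (hh2 : h ≤ α₂) {ε : ℝ} (hε : 0 < ε) :
    ∃ δ : ℝ, 0 < δ ∧ ∃ N₀ : ℕ, 0 < N₀ ∧
    ∀ {m : ℕ} {S : PCl m} {C₀ : ℝ} (_ : TmC S C₀) {c : ℕ → Fin m} {r₀ r : ℕ} {κ₂ : Fin m}
    {I₂ : Finset (Fin m)} {v w lam q ρ g₀ p₂ E₂ r₂ : ℝ} {E p s n lv rd : ℕ → ℝ} (_ : 0 < q)
    (_ : JetX S c r₀ r v w lam (α₁ * q) ρ g₀ E p s n lv rd K)
    (_ : v + 2 * (α₁ + α₂) * q ≤ 1)
    {U₀ : Type} {Qu : Qt m U₀} {α γ : ∀ J : ℕ, Fam m J → Type}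
    {f : ∀ (J : ℕ) (F : Fam m J), F.Ω → α J F} {y : ∀ (J : ℕ) (F : Fam m J), F.Ω → γ J F}
    (_ : ∀ (J : ℕ) (F : Fam m J), ∃ φ : α J F → PtT F, ∀ ω, ptr F J ω = φ (f J F ω))
    (_ : Kn ((range r₀).image c) (v + lam) lam y) {a e : ℝ} (_ : w ≤ a) (_ : a ≤ 1)
    (_ : 0 < e) (_ : e ≤ ρ / 8) (_ : e ≤ δ * q / 8)
    (_ : FwX S f (vg a) y Qu c r₀ (r + 1) K E v rd p (ctx c r₀ r K v lam n) e (δ * q))
    {Ψ : Fm2 m},
    (∀ (J : ℕ) (F : Fam m J) (A : F.Ω → Prop) (V C : Type) (z : PtT F → V) (z' : LnT F → V)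
      (G₁ G₂ : V → MvPolynomial (Option (Fin m)) ℝ) (cc : LnT F → C),
      Ψ J F A V C z z' G₁ G₂ cc → (∃ g : V → ℕ → MvPolynomial (Option (Fin m)) ℝ,
        LbX F c r₀ (r + 1) K e E v rd p A z z' g ∧ G₁ = (fun v => g v r) ∧
        ∃ φ : C → (Fin m → ℤ × ℤ) × (ℕ → ℕ → ℤ), ∀ x,
          ctxN F c r₀ r ⌊v * J⌋₊ ⌊(v + lam) * J⌋₊ K z' g n x = φ (cc x)) ∧
      LbOK F I₂ κ₂ K ⌊E₂ * J⌋₊ J ⌊v * J⌋₊ ⌊r₂ * J⌋₊ ⌊(p₂ - e) * J⌋₊ A z z' G₂) →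
    (∀ (J : ℕ) (F : Fam m J) (A B : F.Ω → Prop) (V C : Type) (z : PtT F → V)
      (z' : LnT F → V) (G₁ G₂ : V → MvPolynomial (Option (Fin m)) ℝ) (c : LnT F → C), Sub B A →
      Ψ J F A V C z z' G₁ G₂ c → Ψ J F B V C z z' G₁ G₂ c) →
    Bas S (fun J F A => ∃ (V C : Type) (z : PtT F → V) (z' : LnT F → V)
      (G₁ G₂ : V → MvPolynomial (Option (Fin m)) ℝ) (cc : LnT F → C),
      Ψ J F A V C z z' G₁ G₂ cc) →
    Fw2 S f a y Qu Ψ (τ := fun _ _ _ C => C) (fun J F _ _ _ _ _ c ω => c (vg v J F ω)) e (δ * q) →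
    Rw2 S Ψ (c r) κ₂ v (p r) p₂ α₁ α₂ q h (δ * q) N₀ →
    Rw2 S Ψ.swap κ₂ (c r) v p₂ (p r) α₂ α₁ q h (δ * q) N₀ →
    (∀ j ≤ K + 2, 1 ≤ j → j ∉ Iu → Fw2 S f a y Qu Ψ (τ := fun _ _ _ _ => ℤ)
      (fun J F _ _ z' G₁ _ _ ω => ⌊(2 : ℝ) ^ ((p r + α₁ * q - j * v) * J) * ojet F (c r) j
        (G₁ (z' (slam F ⌊v * J⌋₊ ω))) ω⌋) e (δ * q)) →
    (∀ j ≤ K + 2, j ∉ In → Fw2 S f a y Qu Ψ (τ := fun _ _ _ _ => ℤ)
      (fun J F _ _ z' _ G₂ _ ω => ⌊(2 : ℝ) ^ ((p₂ + α₂ * q - j * v) * J) * ojet F κ₂ j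
        (G₂ (z' (slam F ⌊v * J⌋₊ ω))) ω⌋) e (δ * q)) →
    ∀ j < K + 2, ∀ P₂ : ℝ, p r ≤ P₂ →
      F1 S f (vg a) y Qu (qJet m ((range r).image c) (c r) (j + 1) w P₂
        (p r + α₁ * q - (j + 1 : ℕ) * v)) e (ε * q) := by
  classical
  obtain ⟨δ₁, hδ₁, N₀, hN₀, H⟩ := pair_rb K hu hn hα₁ hα₂ hres hh hh1 hh2
    (ε := ε / 2) (by positivity)
  refine ⟨δ₁ / 2, by positivity, N₀, hN₀, ?_⟩
  intro m S C₀ htm c r₀ r κ₂ I₂ v w lam q ρ g₀ p₂ E₂ r₂ E p s n lv rd hq HW hvq U₀ Qu α γ f y hf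
    hy a e hwa ha he h8e hδe hctx Ψ hΨ hsub hex hcc hr1 hr2 hj1 hj2 j hj P₂ hP₂
  have hρ := HW.ρ0
  have hv0 := HW.v0
  have hvw := HW.vw
  have hδq : 0 < δ₁ * q := by positivity
  have hv1 : v < 1 := by
    have h1 : 0 < 2 * (α₁ + α₂) * q := by positivity
    linarith
  have hy0 : Kn0 ((range r₀).image c) (v + lam) y := by
    intro J F
    obtain ⟨φ, hφ⟩ := hy J F
    exact ⟨fun x => ((φ x).1, (φ x).2.1), fun ω => by
      show ((φ (y J F ω)).1, (φ (y J F ω)).2.1) = _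
      rw [hφ ω]⟩
  have hyT : ∀ (J : ℕ) (F : Fam m J), ∃ φ : γ J F → ℕ, ∀ ω, F.T ω = φ (y J F ω) := by
    intro J F
    obtain ⟨φ, hφ⟩ := hy J F
    exact ⟨fun x => (φ x).1, fun ω => (congrArg Prod.fst (hφ ω)).symm⟩
  have hlb1 : ∀ (J : ℕ) (F : Fam m J) (A : F.Ω → Prop) (V C : Type) (z : PtT F → V)
      (z' : LnT F → V) (G₁ G₂ : V → MvPolynomial (Option (Fin m)) ℝ) (cc : LnT F → C),
      Ψ J F A V C z z' G₁ G₂ cc → LbOK F ((range r).image c) (c r) K ⌊(E r + e) * J⌋₊ J ⌊v * J⌋₊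
        ⌊(rd r + e) * J⌋₊ ⌊(p r - e) * J⌋₊ A z z' G₁ := by
    intro J F A V C z z' G₁ G₂ cc h1
    obtain ⟨⟨g, hlb, rfl, -⟩, -⟩ := hΨ J F A V C z z' G₁ G₂ cc h1
    exact hlb r HW.hr (Nat.lt_succ_self r)
  have hlb2 : ∀ (J : ℕ) (F : Fam m J) (A : F.Ω → Prop) (V C : Type) (z : PtT F → V)
      (z' : LnT F → V) (G₁ G₂ : V → MvPolynomial (Option (Fin m)) ℝ) (cc : LnT F → C),
      Ψ J F A V C z z' G₁ G₂ cc → LbOK F I₂ κ₂ K ⌊E₂ * J⌋₊ J ⌊v * J⌋₊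
        ⌊r₂ * J⌋₊ ⌊(p₂ - e) * J⌋₊ A z z' G₂ :=
    fun J F A V C z z' G₁ G₂ cc h1 => (hΨ J F A V C z z' G₁ G₂ cc h1).2
  -- the value of the first label
  have hval := HW.valb htm hwa ha hf hy0 (e := e) he h8e hctx (δ₂ := δ₁ * q)
    (by linarith)
  have hval' : Fw2 S f a y Qu Ψ (τ := fun _ _ _ _ => ℤ)
      (fun J F _ _ z' G₁ _ _ ω => ⌊(2 : ℝ) ^ ((p r + α₁ * q) * J) * ojet F (c r) 0
        (G₁ (z' (slam F ⌊v * J⌋₊ ω))) ω⌋) e (δ₁ * q) := by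
    intro K₀
    refine Bas.mono 0 (hval K₀) ?_
    rintro J - F A h1 V C z z' G₁ G₂ cc hΨ' u₀ hu₀
    obtain ⟨⟨g, hlb, rfl, -⟩, -⟩ := hΨ J F A V C z z' G₁ G₂ cc hΨ'
    exact h1 V z z' g hlb u₀ hu₀
  obtain ⟨N₁, hN₁⟩ : ∃ N₁ : ℕ → ℝ, N₁ = fun j => if j ∈ Iu then p r - j * v else
    p r + α₁ * q - j * v := ⟨_, rfl⟩
  obtain ⟨N₂, hN₂⟩ : ∃ N₂ : ℕ → ℝ, N₂ = fun j => if j ∈ In then p₂ - j * v else
    p₂ + α₂ * q - j * v := ⟨_, rfl⟩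
  have hF := H htm (κ₁ := c r) (κ₂ := κ₂) (w := v) (a := a) (p₁ := p r) (p₂ := p₂) (q := q) hv0
    (hvw.trans hwa) ha hq hvq (Qu := Qu) hf hyT (e := e) Ψ
    (fun J F A V C z z' G₁ G₂ cc h1 => ⟨fun v => ((hlb1 J F A V C z z' G₁ G₂ cc h1).deg v).trans
      (by omega), fun v => ((hlb2 J F A V C z z' G₁ G₂ cc h1).deg v).trans (by omega),
      (hlb2 J F A V C z z' G₁ G₂ cc h1).cls⟩) hsub (N₁ := N₁) (N₂ := N₂)
    ⟨fun j hj => by rw [hN₁]; simp only [hj, if_true, le_refl],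
      fun j _ hj => by rw [hN₁]; simp only [hj, if_false, le_refl]⟩
    ⟨fun j hj => by rw [hN₂]; simp only [hj, if_true, le_refl],
      fun j _ hj => by rw [hN₂]; simp only [hj, if_false, le_refl]⟩
    (hcc.mono (by linarith)) ?_ ?_ ?_ ?_
  · -- the end
    intro K₀
    have hjop := jet_of_pthX K htm HW hf hy hwa ha (ε := ε / 2 * q) (by positivity) he h8e K₀
      hP₂ hj
    refine Bas.mono 0 (((hF K₀).and hjop).and (hex.and (Pool.GRW.tmc_bas htm one_pos))) ?_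
    rintro J - F A ⟨⟨HPA, HNA⟩, ⟨V', C', zz, zz', G₁, G₂, cc, hΨ'⟩, hA, -⟩ u u' hu hu'
    obtain ⟨⟨g, hlbg, hG1, φ, hφ⟩, -⟩ := hΨ J F A V' C' zz zz' G₁ G₂ cc hΨ'
    obtain ⟨V₁, z₁, hz₁, h1⟩ := HPA V' C' zz zz' G₁ G₂ cc hΨ' u hu
    obtain ⟨V₂, z₂, hz₂, h2⟩ := HNA V' zz zz' g hlbg u' hu'
    refine ⟨V₁ × V₂, fun ω => (z₁ ω, z₂ ω), hz₁.join hz₂, ?_⟩
    have hq'l : IsLaw (Pool.Agent.H49.Ent.cond F.p A True) := isLaw_cond F.isLaw hA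
    have h0 := hq'l.nonneg
    have k1 : CH (Pool.Agent.H49.Ent.cond F.p A True)
        (fun ω => xpt c r₀ r K v lam (p r + α₁ * q) n J F V' zz' g ω)
        (fun ω => (u ω, ((z₁ ω, z₂ ω), y J F ω))) ≤ ε / 2 * q * J := by
      refine le_trans (CH_mono_cond h0 (W := fun ω => (u ω, (z₁ ω, y J F ω)))
        fun ω ω' _ _ hh => ?_) (le_trans (CH_mono_left h0 fun ω ω' _ _ hh => ?_) h1)
      · simp only [Prod.mk.injEq] at hh ⊢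
        exact ⟨hh.1, hh.2.1.1, hh.2.2⟩
      · have e1 := (Prod.ext_iff.mp hh).1
        simp only [Prod.mk.injEq] at e1
        obtain ⟨⟨e2, e3⟩, e4, e5, -⟩ := e1
        unfold xpt
        refine Prod.ext (Prod.ext e2 e3) (Prod.ext ?_ ?_)
        · show ctxN F c r₀ r ⌊v * J⌋₊ ⌊(v + lam) * J⌋₊ K zz' g n (vg v J F ω) =
            ctxN F c r₀ r ⌊v * J⌋₊ ⌊(v + lam) * J⌋₊ K zz' g n (vg v J F ω')
          rw [hφ, hφ, e4]
        · rw [hG1] at e5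
          exact e5
    have k2 : CH (Pool.Agent.H49.Ent.cond F.p A True) u'
        (fun ω => (xpt c r₀ r K v lam (p r + α₁ * q) n J F V' zz' g ω,
          (u ω, ((z₁ ω, z₂ ω), y J F ω)))) ≤ ε / 2 * q * J := by
      refine le_trans (CH_mono_cond h0 fun ω ω' _ _ hh => ?_) h2
      simp only [Prod.mk.injEq] at hh ⊢
      exact ⟨hh.1, hh.2.2.1.2, hh.2.2.2⟩
    have k3 := CH_le_add h0 u'
      (fun ω => xpt c r₀ r K v lam (p r + α₁ * q) n J F V' zz' g ω)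
      (fun ω => (u ω, ((z₁ ω, z₂ ω), y J F ω)))
    have k4 : ε * q * J = ε / 2 * q * J + ε / 2 * q * J := by ring
    linarith
  · intro i j hij hj
    refine Bas.mono 0 (hr1 i j hij hj) ?_
    rintro J - F A h1 V C z z' G₁ G₂ cc hΨ'
    refine (h1 V C z z' G₁ G₂ cc hΨ').trans (mul_le_mul_of_nonneg_right ?_ (Nat.cast_nonneg J))
    have : 0 ≤ δ₁ / 2 * q := by positivity
    linarith
  · intro i j hij hj
    refine Bas.mono 0 (hr2 i j hij hj) ?_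
    rintro J - F A h1 V C z z' G₁ G₂ cc hΨ'
    refine (h1 V C z z' G₁ G₂ cc hΨ').trans (mul_le_mul_of_nonneg_right ?_ (Nat.cast_nonneg J))
    have : 0 ≤ δ₁ / 2 * q := by positivity
    linarith
  · intro i hi
    by_cases hiI : i ∈ Iu
    · have e1 : N₁ i = p r - i * v := by rw [hN₁]; simp only [hiI, if_true]
      rw [e1]
      exact fw2_natX htm hv0 hv1 hδq (by linarith) hlb1
    · rcases Nat.eq_zero_or_pos i with h0 | h0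
      · subst h0
        have e1 : N₁ 0 = p r + α₁ * q := by
          rw [hN₁]
          simp only [hiI, if_false, Nat.cast_zero, zero_mul, sub_zero]
        rw [e1]
        exact hval'
      · have e1 : N₁ i = p r + α₁ * q - i * v := by rw [hN₁]; simp only [hiI, if_false]
        rw [e1]
        exact (hj1 i hi h0 hiI).mono (by linarith)
  · intro i hi
    by_cases hiI : i ∈ In
    · have e1 : N₂ i = p₂ - i * v := by rw [hN₂]; simp only [hiI, if_true]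
      rw [e1]
      exact (fw2_natX htm hv0 hv1 hδq (by linarith) (Ψ := Ψ.swap) (Er := E₂) (Rr := r₂)
        (fun J F A V C z z' G₁ G₂ cc h1 => hlb2 J F A V C z z' G₂ G₁ cc h1)).swap
    · have e1 : N₂ i = p₂ + α₂ * q - i * v := by rw [hN₂]; simp only [hiI, if_false]
      rw [e1]
      exact (hj2 i hi hiI).mono (by linarith)

end Pool.PN18
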