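import Pool.Agent.H18.PN.Pfw
import Pool.Agent.H71.AJX.Jwx

/-!
# The jets of a member of a jointly nonfull pair, labels with gradient exponents

`jet_of_pthX`: one jet of `c r` over the labels of a finer window `w` from the own paths over the
labels of the window `v`. `nat_lb`: natural jets of a family of labels of any exponents. `pair_X1`:
`pair_F1` for labels with gradient exponents, at one accuracy `e`.
-/

set_option autoImplicit false

namespace Pool.PN18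

open Finset Real MvPolynomial
open Pool.Agent.H49.Ent Pool.Agent.H32.Dense Pool.STK Pool.KA Pool.KSAT Pool.K2S Pool.PB Pool.GEN
open Pool.S6C Pool.RCD Pool.LA91 Pool.OWN68 Pool.AJW Pool.AJX
open Pool.GRD (LbP)
open Pool.UNJ (ceI Tub)

/-- **One jet over a finer window from the own paths of the chain.** -/
theorem jet_of_pthX (K : ℕ) {m : ℕ} {S : PCl m} {C₀ : ℝ} (htm : TmC S C₀)
    {c : ℕ → Fin m} {r₀ r : ℕ} {v w lam q ρ g₀ : ℝ} {E p s n lv rd : ℕ → ℝ}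
    (HW : JetX S c r₀ r v w lam q ρ g₀ E p s n lv rd K)
    {α γ : ∀ J : ℕ, Fam m J → Type}
    {f : ∀ (J : ℕ) (F : Fam m J), F.Ω → α J F} {y : ∀ (J : ℕ) (F : Fam m J), F.Ω → γ J F}
    (hf : ∀ (J : ℕ) (F : Fam m J), ∃ φ : α J F → PtT F, ∀ ω, ptr F J ω = φ (f J F ω))
    (hy : Kn ((range r₀).image c) (v + lam) lam y) {a : ℝ} (hwa : w ≤ a) (ha : a ≤ 1)
    {ε : ℝ} (hε : 0 < ε) {e : ℝ} (he : 0 < e) (h8e : e ≤ ρ / 8) (K₀ : ℕ) {P₂ : ℝ}
    (hP₂ : p r ≤ P₂) {j : ℕ} (hj : j < K + 2) :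
    Bas S (fun J F A => ∀ (V : Type) (z : PtT F → V) (z' : LnT F → V)
      (g : V → ℕ → MvPolynomial (Option (Fin m)) ℝ), LbX F c r₀ (r + 1) K e E v rd p A z z' g →
      ∀ u' : F.Ω → ℤ,
      (qJet m ((range r).image c) (c r) (j + 1) w P₂
        (p r + q - (j + 1 : ℕ) * v)).P K₀ e J F A u' →
      ∃ (V₂ : Type) (z₂ : F.Ω → V₂), Cl2 (f J F) (vg a J F) A z₂ ∧
        CH (Pool.Agent.H49.Ent.cond F.p A True) u'
          (fun ω => (xpt c r₀ r K v lam (p r + q) n J F V z' g ω, (z₂ ω, y J F ω))) ≤ ε * J) := by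
  classical
  have hq := HW.q0
  have hρ := HW.ρ0
  have hv0 := HW.v0
  have hvw := HW.vw
  have hlam : 0 < lam := by linarith [HW.mid]
  have hwp : w < v + lam := by linarith [HW.mid]
  have hyT : ∀ (J : ℕ) (F : Fam m J), ∃ φ : γ J F → ℕ, ∀ ω, F.T ω = φ (y J F ω) := by
    intro J F
    obtain ⟨φ, hφ⟩ := hy J F
    exact ⟨fun x => (φ x).1, fun ω => (congrArg Prod.fst (hφ ω)).symm⟩
  obtain ⟨u₁, rw, hch⟩ := HW.chn
  -- the change of the charts
  have hh0 : 0 < ε / 2 := by linarith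
  have hN : F1 S f (vg a) y
      ((qJets m c r₀ r (j + 1) (fun _ _ => v) (fun l _ => p l)
        (fun l j' => n l - (j' : ℕ) * v)).prod
        (qJet m ((range r).image c) (c r) (j + 1) v (p r) (p r + q - (j + 1 : ℕ) * v)))
      (qJet m ((range r).image c) (c r) (j + 1) w P₂ (p r + q - (j + 1 : ℕ) * v))
      (ρ / 8) (ε / 2) := by
    have hj1 : ((j + 1 : ℕ) : ℝ) ≤ K + 2 := by
      have : ((j + 1 : ℕ) : ℝ) ≤ ((K + 2 : ℕ) : ℝ) := by exact_mod_cast hj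
      push_cast at this ⊢
      linarith
    have hjw : ((j + 1 : ℕ) : ℝ) * (w - v) ≤ (K + 2) * (w - v) :=
      mul_le_mul_of_nonneg_right hj1 (by linarith)
    have hmin : min lam (v + lam - w) = v + lam - w := min_eq_right (by linarith)
    refine F1.up hwa ha (jetN_F1 htm hch (lv := lv) (p₀ := v + lam) (lam := lam) (σ₀ := ρ)
      (wv := fun _ _ => v) (pv := fun l _ => p l) (Nv := fun l j' => n l - (j' : ℕ) * v)
      (fun _ _ _ _ _ => hvw) hvw le_rfl hwp HW.l1.le hlam hρ HW.lv0 ?_ ?_ ?_ le_rfl ?_ ?_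
      hf hy hh0)
    · intro i x y j' hj'
      have h1 := HW.dig i x y
      have h2 : 0 ≤ (j' : ℝ) * (w - v) := mul_nonneg (Nat.cast_nonneg _) (by linarith)
      linarith
    · intro i x y j' hj'
      rw [hmin]
      exact HW.bas i x y
    · intro i x y j' hj' l x' y'
      exact HW.nst i x y l x' y'
    · rw [hmin, min_eq_left hP₂]
      linarith [HW.topb]
    · intro l x y
      rw [min_eq_left hP₂]
      linarith [HW.top l x y]
  obtain ⟨MV, JV, hcV⟩ := cnt_jets2 m K (e := e + 1) (w := v) (by linarith)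
    (fun l j => n l - j * v) (fun i => max (rd i) 0) r (K + 3) (fun i _ => le_max_right _ _)
  obtain ⟨MR, JR, hcR⟩ := cnt_jet m K (j + 1) (N := p r + q - (j + 1 : ℕ) * v) (w := v)
    (HW.rd0 r HW.hr le_rfl).1 (show 0 < e + 1 by linarith)
  choose M₂ hM₂ using fun j : ℕ => jet_path (K + 2) j
  obtain ⟨K₁, hK₁⟩ : ∃ K₁ : ℕ, K₁ = K₀ + K + MV + MR := ⟨_, rfl⟩
  obtain ⟨J₁, hJ₁⟩ : ∃ J₁ : ℕ, J₁ = JV + JR := ⟨_, rfl⟩
  obtain ⟨L, hL⟩ : ∃ L : ℝ, L = ∑ j ∈ range (K + 3), Real.log (2 * M₂ j + 1) := ⟨_, rfl⟩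
  have hlM : ∀ j, 0 ≤ Real.log (2 * (M₂ j : ℝ) + 1) := fun j => Real.log_nonneg (by
    have : (0 : ℝ) ≤ M₂ j := Nat.cast_nonneg _
    linarith)
  have hL0 : 0 ≤ L := by
    rw [hL]
    exact Finset.sum_nonneg fun j _ => hlM j
  have hLj : ∀ j < K + 3, Real.log (2 * (M₂ j : ℝ) + 1) ≤ L := by
    intro j hj
    rw [hL]
    exact Finset.single_le_sum (f := fun j => Real.log (2 * (M₂ j : ℝ) + 1))
      (fun j _ => hlM j) (Finset.mem_range.2 hj)
  have hr0 : (0 : ℝ) ≤ r := Nat.cast_nonneg r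
  obtain ⟨J₂, hJ₂⟩ := exists_nat_ge (((r * (K + 3) + 1) * L) / (ε / 2))
  refine Bas.mono (max J₁ J₂) ((hN.mono h8e le_rfl K₁).and (Pool.GRW.tmc_bas htm one_pos)) ?_
  rintro J hJ F A ⟨HNA, hA, -⟩ V z z' g hlb u' hu'
  have hJ1 : J₁ ≤ J := (le_max_left _ _).trans hJ
  have hJ2 : (J₂ : ℝ) ≤ J := by exact_mod_cast (le_max_right _ _).trans hJ
  have hJ0 : (0 : ℝ) ≤ J := Nat.cast_nonneg J
  have f1 : (r * (K + 3) + 1) * L ≤ ε / 2 * J := by
    have := hJ₂.trans hJ2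
    rw [div_le_iff₀ (by positivity)] at this
    linarith
  obtain ⟨q', hq'⟩ : ∃ q' : F.Ω → ℝ, q' = Pool.Agent.H49.Ent.cond F.p A True := ⟨_, rfl⟩
  have hq'l : IsLaw q' := by
    rw [hq']
    exact isLaw_cond F.isLaw hA
  have h0 := hq'l.nonneg
  have hvJ : ⌊v * J⌋₊ ≤ J := floor_le (hvw.trans (hwa.trans ha)) J
  rw [← hq']
  obtain ⟨X, hX⟩ : ∃ X : F.Ω → (V × (F.ζ × ℕ)) × (((Fin m → ℤ × ℤ) × (ℕ → ℕ → ℤ)) ×
      (Fin (K + 3) → ℤ)), X = fun ω => xpt c r₀ r K v lam (p r + q) n J F V z' g ω := ⟨_, rfl⟩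
  have hXe : ∀ ω, xpt c r₀ r K v lam (p r + q) n J F V z' g ω = X ω :=
    fun ω => by rw [hX]
  simp only [hXe]
  have hlbr := hlb r HW.hr (Nat.lt_succ_self r)
  have hdeg : ∀ l, r₀ ≤ l → l < r + 1 → ∀ v,
      (MvPolynomial.X (some (c l)) - g v l).totalDegree ≤ K + 2 := by
    intro l x y v
    refine (MvPolynomial.totalDegree_sub _ _).trans (max_le ?_ ?_)
    · exact (totalDegree_X _).le.trans (by omega)
    · exact ((hlb l x y).deg v).trans (by omega)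
  -- the jets over `v`
  obtain ⟨uu, huu⟩ : ∃ uu : F.Ω → ℕ → ℕ → ℤ, uu = fun ω (l j' : ℕ) =>
    if r₀ ≤ l ∧ l < r ∧ j' ≤ j + 1 then ⌊(2 : ℝ) ^ ((n l - j' * v) * J) *
      ojet F (c l) j' (g (z' (slam F ⌊v * J⌋₊ ω)) l) ω⌋ else 0 := ⟨_, rfl⟩
  obtain ⟨ww, hww⟩ : ∃ ww : F.Ω → ℤ, ww = fun ω =>
    ⌊(2 : ℝ) ^ ((p r + q - (j + 1 : ℕ) * v) * J) *
      ojet F (c r) (j + 1) (g (z' (slam F ⌊v * J⌋₊ ω)) r) ω⌋ := ⟨_, rfl⟩
  obtain ⟨Vz, zz, hzz, hCz⟩ : ∃ (V₂ : Type) (z₂ : F.Ω → V₂), Cl2 (f J F) (vg a J F) A z₂ ∧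
      CH q' u' (fun ω => ((uu ω, ww ω), (z₂ ω, y J F ω))) ≤ ε / 2 * J := by
    have h2 := HNA (fun ω => (uu ω, ww ω)) u' ⟨⟨?_, ?_⟩, ?_⟩
      ((qJet m _ _ _ _ _ _).mono (by omega) le_rfl hu')
    · rw [← hq'] at h2
      exact h2
    · intro i x y j' hj'
      have e1 : (fun ω => uu ω i j') = fun ω => ⌊(2 : ℝ) ^ ((n i - j' * v) * J) *
          ojet F (c i) j' (g (z' (slam F ⌊v * J⌋₊ ω)) i) ω⌋ := by
        funext ω
        rw [huu]
        exact if_pos ⟨x, y, hj'⟩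
      refine ⟨?_, V, z, z', fun v => g v i, (LbP.of (hlb i x (by omega))).mono
        (Finset.Subset.refl _) (by omega) le_rfl, fun ω _ => by rw [huu]; exact if_pos ⟨x, y, hj'⟩⟩
      show (cnt F.p (fun ω => uu ω i j') A : ℝ) ≤ _
      rw [e1]
      refine (hcV i y j' (by omega) J (by omega) F _ _ _ A V z z' (fun v => g v i) (by
        rw [max_eq_left (HW.rd0 i x y.le).1]
        exact hlb.wk x (by omega) (HW.E0 i x y.le).2)).trans
        (Real.exp_le_exp.2 (mul_le_mul_of_nonneg_right ?_ hJ0))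
      exact_mod_cast (by omega : MV ≤ K₁)
    · intro ω _ i j' hij
      show uu ω i j' = 0
      rw [huu]
      exact if_neg hij
    · refine ⟨?_, V, z, z', fun v => g v r, (LbP.of hlbr).mono (Finset.Subset.refl _)
        (by omega) le_rfl, fun ω _ => by rw [hww]⟩
      show (cnt F.p (fun ω => ww ω) A : ℝ) ≤ _
      rw [hww]
      refine (hcR J (by omega) F _ _ _ A V z z' (fun v => g v r)
        (hlb.wk HW.hr (Nat.lt_succ_self r) (HW.E0 r HW.hr le_rfl).2)).trans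
        (Real.exp_le_exp.2 (mul_le_mul_of_nonneg_right ?_ hJ0))
      exact_mod_cast (by omega : MR ≤ K₁)
  refine ⟨Vz, zz, hzz, ?_⟩
  obtain ⟨Y, hY⟩ : ∃ Y : F.Ω → Vz × γ J F, Y = fun ω => (zz ω, y J F ω) := ⟨_, rfl⟩
  have hYe : (fun ω => (X ω, (zz ω, y J F ω))) = fun ω => (X ω, Y ω) := by rw [hY]
  rw [hYe]
  obtain ⟨φT, hφT⟩ := hyT J F
  have hT : ∀ ω ω', (X ω, Y ω) = (X ω', Y ω') → F.T ω = F.T ω' := by
    intro ω ω' e
    have e1 := (Prod.ext_iff.mp e).2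
    rw [hY] at e1
    simp only [Prod.mk.injEq] at e1
    rw [hφT, hφT, e1.2]
  -- the jets of the chain, from the path
  have k1 : CH q' uu (fun ω => (X ω, Y ω)) ≤ r * (K + 3) * L := by
    refine le_trans (CH_mono_left h0 (X' := fun ω (l : Fin r) (j' : Fin (K + 3)) =>
      uu ω l j') fun ω ω' _ _ e => ?_) ((CH_pis h0 _ _).trans ?_)
    · funext l j'
      by_cases hlj : r₀ ≤ l ∧ l < r ∧ j' ≤ j + 1
      · exact congrFun (congrFun (Prod.ext_iff.mp e).1 ⟨l, hlj.2.1⟩) ⟨j', by omega⟩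
      · rw [huu]
        show (if r₀ ≤ l ∧ l < r ∧ j' ≤ j + 1 then _ else (0 : ℤ)) =
          if r₀ ≤ l ∧ l < r ∧ j' ≤ j + 1 then _ else (0 : ℤ)
        rw [if_neg hlj, if_neg hlj]
    · have h2 : ∀ l ∈ (univ : Finset (Fin r)), CH q' (fun ω (j' : Fin (K + 3)) => uu ω l j')
          (fun ω => (X ω, Y ω)) ≤ (K + 3) * L := by
        intro l _
        refine (CH_pis h0 _ _).trans ?_
        have h3 : ∀ j' ∈ (univ : Finset (Fin (K + 3))), CH q' (fun ω => uu ω l j')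
            (fun ω => (X ω, Y ω)) ≤ L := by
          intro j' _
          by_cases hlj : r₀ ≤ (l : ℕ) ∧ (l : ℕ) < r ∧ (j' : ℕ) ≤ j + 1
          · have e1 : (fun ω => uu ω l j') = fun ω =>
                ⌊(2 : ℝ) ^ ((n l - (j' : ℕ) * v) * J) *
                  ojet F (c l) j' (g (z' (slam F ⌊v * J⌋₊ ω)) l) ω⌋ := by
              funext ω
              rw [huu]
              exact if_pos hlj
            rw [e1]
            refine (hM₂ j' hv0 hvJ (s := n l) (κ := c l) (z' := z') (G := fun v => g v l)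
              (hdeg l hlj.1 (by omega)) hq'l (fun ω => (X ω, Y ω))
              fun ω ω' _ _ e => ⟨hT ω ω' e, fun i hi => ?_⟩).trans (hLj j' j'.2)
            have e2 := (Prod.ext_iff.mp e).1
            rw [hX] at e2
            simp only [xpt, Prod.mk.injEq] at e2
            have e3 := congrFun (congrFun (Prod.ext_iff.mp e2.2.1).2 l) i
            dsimp only [ctx, ctxN] at e3
            rw [if_pos ⟨⟨hlj.1, hlj.2.1⟩, by omega⟩, if_pos ⟨⟨hlj.1, hlj.2.1⟩, by omega⟩] at e3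
            exact e3
          · refine le_trans (le_of_eq (CH_eq_zero h0 fun ω ω' _ _ _ => ?_)) hL0
            rw [huu]
            show (if r₀ ≤ (l : ℕ) ∧ (l : ℕ) < r ∧ (j' : ℕ) ≤ j + 1 then _ else (0 : ℤ)) =
              if r₀ ≤ (l : ℕ) ∧ (l : ℕ) < r ∧ (j' : ℕ) ≤ j + 1 then _ else (0 : ℤ)
            rw [if_neg hlj, if_neg hlj]
        refine (Finset.sum_le_sum h3).trans (le_of_eq ?_)
        rw [Finset.sum_const, Finset.card_univ, Fintype.card_fin, nsmul_eq_mul]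
        push_cast
        ring
      refine (Finset.sum_le_sum h2).trans (le_of_eq ?_)
      rw [Finset.sum_const, Finset.card_univ, Fintype.card_fin, nsmul_eq_mul]
      ring
  have k2 : CH q' ww (fun ω => (X ω, Y ω)) ≤ L := by
    rw [hww]
    refine (hM₂ (j + 1) hv0 hvJ (s := p r + q) (κ := c r) (z' := z') (G := fun v => g v r)
      (hdeg r HW.hr (Nat.lt_succ_self r)) hq'l (fun ω => (X ω, Y ω))
      fun ω ω' _ _ e => ⟨hT ω ω' e, fun i hi => ?_⟩).trans (hLj (j + 1) (by omega))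
    have e2 := (Prod.ext_iff.mp e).1
    rw [hX] at e2
    simp only [xpt, Prod.mk.injEq] at e2
    exact congrFun e2.2.2 ⟨i, by omega⟩
  -- the jet over `w`
  have g1 := CH_le_add h0 u' (fun ω => (uu ω, ww ω)) (fun ω => (X ω, Y ω))
  have g2 := CH_subadd h0 uu ww (fun ω => (X ω, Y ω))
  have g3 : CH q' u' (fun ω => ((uu ω, ww ω), (X ω, Y ω))) ≤ ε / 2 * J := by
    refine le_trans (CH_mono_cond h0 fun ω ω' _ _ e => ?_) hCz
    rw [hY] at e
    simp only [Prod.mk.injEq] at e ⊢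
    exact ⟨e.1, e.2.2.1, e.2.2.2⟩
  have g6 : (r * (K + 3) + 1) * L = r * (K + 3) * L + L := by ring
  have k9 : ε * J = ε / 2 * J + ε / 2 * J := by ring
  linarith

/-- To the natural digits of the own window the jets are few bits, with the accuracy. -/
theorem few0_jq {m : ℕ} {S : PCl m} {C₀ : ℝ} (htm : TmC S C₀) {I : Finset (Fin m)} {k : Fin m}
    {j : ℕ} {w p N : ℝ} (hw0 : 0 ≤ w) (hw1 : w < 1) (hN : N + j * w ≤ p)
    {α β γ : ∀ J : ℕ, Fam m J → Type} (f : ∀ (J : ℕ) (F : Fam m J), F.Ω → α J F)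
    (g : ∀ (J : ℕ) (F : Fam m J), F.Ω → β J F) (y : ∀ (J : ℕ) (F : Fam m J), F.Ω → γ J F)
    {h : ℝ} (hh : 0 < h) : F0 S f g y (qJet m I k j w p N) (h / 8) h := by
  classical
  intro K
  have hl2 : 0 < Real.log 2 := Real.log_pos one_lt_two
  have hl21 : Real.log 2 ≤ 1 := by
    have := Real.log_two_lt_d9
    linarith
  obtain ⟨η, hη⟩ : ∃ η : ℝ, η = h / (2 * ((K : ℝ) + 1)) := ⟨_, rfl⟩
  have hη0 : 0 < η := by
    rw [hη]
    positivity
  have hηK : η * K ≤ h / 2 := by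
    rw [hη, div_mul_eq_mul_div, div_le_iff₀ (by positivity)]
    have : (0 : ℝ) ≤ K := Nat.cast_nonneg K
    nlinarith
  obtain ⟨J₃, hJ₃⟩ := exists_nat_ge ((Real.log 2 + Real.log 7) / (h / 4))
  refine Bas.mono J₃ ((own_cls htm I k j K hw0 hw1 hη0 (show 0 < h / 8 by linarith)).and
    (Pool.GRW.tmc_bas htm one_pos)) ?_
  rintro J hJ F A ⟨hbad, hA, -⟩ u ⟨hc, V, z, z', G, hlb, hu⟩
  have hJ0 : (0 : ℝ) ≤ J := Nat.cast_nonneg J
  have hJ3 : (J₃ : ℝ) ≤ J := by exact_mod_cast hJ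
  have hl7 : 0 < Real.log 7 := Real.log_pos (by norm_num)
  have f4 : Real.log 2 + Real.log 7 ≤ h / 4 * J := by
    have : (Real.log 2 + Real.log 7) / (h / 4) ≤ J := hJ₃.trans hJ3
    rw [div_le_iff₀ (by positivity)] at this
    linarith
  refine ⟨Unit, fun _ => (), ⟨⟨fun _ => (), fun _ _ => rfl⟩, fun _ => (), fun _ _ => rfl⟩, ?_⟩
  obtain ⟨D, hD⟩ : ∃ D : ℝ, D = 2 * 2 ^ (h / 4 * J) + 1 := ⟨_, rfl⟩
  have hp1 : (1 : ℝ) ≤ 2 ^ (h / 4 * J) := by
    rw [← exp_p2]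
    exact Real.one_le_exp (by positivity)
  have key := CH_near (isLaw_cond F.isLaw hA) u (fun ω => ((), y J F ω)) (fun _ => 0)
    (fun ω => ¬ |ojet F k j (G (z' (slam F ⌊w * J⌋₊ ω))) ω| ≤
      2 ^ ((h / 8 + j * w) * J) * (1 / 2 ^ ⌊(p - h / 8) * J⌋₊)) (M := K * J) (D := D)
    (hbad _ V z z' G hlb) (by positivity) (by rw [hD]; linarith)
    (le_trans (by exact_mod_cast cnt_cond_le F.isLaw u A) hc) (by
      intro ω hω hgood
      rw [not_not] at hgood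
      rw [hu ω (of_cond_pos hω)]
      obtain ⟨o, ho⟩ : ∃ o, o = ojet F k j (G (z' (slam F ⌊w * J⌋₊ ω))) ω := ⟨_, rfl⟩
      rw [← ho] at hgood ⊢
      have h3 : |(2 : ℝ) ^ (N * J) * o| ≤ 2 * 2 ^ (h / 4 * J) := by
        rw [abs_mul, abs_of_pos (by positivity)]
        have a2 := ip2_le ((p - h / 8) * J)
        have b3 : (0 : ℝ) < 2 ^ (N * J) := Real.rpow_pos_of_pos (by norm_num) _
        have b4 : (0 : ℝ) < 2 ^ ((h / 8 + j * w) * J) := Real.rpow_pos_of_pos (by norm_num) _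
        calc (2 : ℝ) ^ (N * J) * |o| ≤ 2 ^ (N * J) * (2 ^ ((h / 8 + j * w) * J) *
              (2 * 2 ^ (-((p - h / 8) * J)))) := by
              refine mul_le_mul_of_nonneg_left (hgood.trans ?_) b3.le
              exact mul_le_mul_of_nonneg_left a2 b4.le
          _ = 2 * (2 ^ (N * J) * 2 ^ ((h / 8 + j * w) * J) * 2 ^ (-((p - h / 8) * J))) := by ring
          _ = 2 * 2 ^ (N * J + (h / 8 + j * w) * J + -((p - h / 8) * J)) := by
              rw [Real.rpow_add (by norm_num), Real.rpow_add (by norm_num)]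
          _ ≤ 2 * 2 ^ (h / 4 * J) := by
              refine mul_le_mul_of_nonneg_left ?_ (by norm_num)
              refine Real.rpow_le_rpow_of_exponent_le (by norm_num) ?_
              have e1 : N * J + (h / 8 + j * w) * J + -((p - h / 8) * J) =
                  (N + j * w - p + h / 4) * J := by ring
              rw [e1]
              exact mul_le_mul_of_nonneg_right (by linarith) hJ0
      have h4 := Int.floor_le ((2 : ℝ) ^ (N * J) * o)
      have h5 := Int.lt_floor_add_one ((2 : ℝ) ^ (N * J) * o)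
      have h6 := abs_le.1 h3
      rw [hD, sub_zero, abs_le]
      constructor <;> linarith [h6.1, h6.2])
  refine key.trans ?_
  have h7 : Real.log (2 * D + 1) ≤ Real.log 7 + h / 4 * J := by
    have e1 : 2 * D + 1 ≤ 7 * 2 ^ (h / 4 * J) := by
      rw [hD]
      linarith
    have e2 := Real.log_le_log (by rw [hD]; positivity) e1
    refine e2.trans ?_
    rw [Real.log_mul (by norm_num) (by positivity), ← exp_p2, Real.log_exp]
    have : h / 4 * J * Real.log 2 ≤ h / 4 * J * 1 :=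
      mul_le_mul_of_nonneg_left hl21 (by positivity)
    linarith
  have h8 : η * (K * J) ≤ h / 2 * J := by
    calc η * (K * J) = η * K * J := by ring
      _ ≤ h / 2 * J := mul_le_mul_of_nonneg_right hηK hJ0
  linarith

section fw2x

variable {m : ℕ} {S : PCl m} {C₀ : ℝ} {α γ : ∀ J : ℕ, Fam m J → Type}
  {f : ∀ (J : ℕ) (F : Fam m J), F.Ω → α J F} {y : ∀ (J : ℕ) (F : Fam m J), F.Ω → γ J F} {a : ℝ}
  {U₀ : Type} {Qu : Qt m U₀} {Ψ : Fm2 m}

/-- **The jets of the labels of a family of pairs**, from the quantity `qJet`; any exponents. -/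
theorem fw2_of_F1X {I : Finset (Fin m)} {κ : Fin m} {K j : ℕ} {w p N e δ Er Rr : ℝ}
    (hΨ : ∀ (J : ℕ) (F : Fam m J) (A : F.Ω → Prop) (V C : Type) (z : PtT F → V) (z' : LnT F → V)
      (G₁ G₂ : V → MvPolynomial (Option (Fin m)) ℝ) (c : LnT F → C), Ψ J F A V C z z' G₁ G₂ c →
      LbOK F I κ K ⌊Er * J⌋₊ J ⌊w * J⌋₊ ⌊Rr * J⌋₊ ⌊(p - e) * J⌋₊ A z z' G₁)
    (h : F1 S f (vg a) y Qu (qJet m I κ j w p N) e δ) :
    Fw2 S f a y Qu Ψ (τ := fun _ _ _ _ => ℤ)
      (fun J F _ _ z' G₁ _ _ ω => ⌊(2 : ℝ) ^ (N * J) * ojet F κ j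
        (G₁ (z' (slam F ⌊w * J⌋₊ ω))) ω⌋) e δ := by
  obtain ⟨M, Jm, hcnt⟩ := cnt_jet m K j (N := N) (w := w) (r := 0) (e := |Er| + |Rr| + 1) le_rfl
    (by positivity)
  intro K₀
  refine Bas.mono Jm (h (K₀ + K + M)) ?_
  rintro J hJ F A H V C z z' G₁ G₂ c hΨ' u₀ hu₀
  have hJ0 : (0 : ℝ) ≤ J := Nat.cast_nonneg J
  have hlb := hΨ J F A V C z z' G₁ G₂ c hΨ'
  refine H u₀ _ (Qu.mono (by omega) le_rfl hu₀) ⟨?_, V, z, z', G₁, ?_, fun ω _ => rfl⟩
  · have h2 := hcnt J hJ F I κ _ A V z z' G₁ (hlb.mono (Finset.Subset.refl _) le_rfl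
      (Nat.floor_le_floor (mul_le_mul_of_nonneg_right (by
        have := le_abs_self Er
        have := abs_nonneg Rr
        linarith) hJ0))
      (Nat.floor_le_floor (mul_le_mul_of_nonneg_right (by
        have := le_abs_self Rr
        have := abs_nonneg Er
        linarith) hJ0)) le_rfl)
    refine h2.trans (Real.exp_le_exp.2 (mul_le_mul_of_nonneg_right ?_ (Nat.cast_nonneg J)))
    exact_mod_cast (by omega : M ≤ K₀ + K + M)
  · exact (LbP.of hlb).mono (Finset.Subset.refl _) (by omega) le_rfl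

/-- **The natural jets** of the labels of a family of pairs, any exponents. -/
theorem fw2_natX (htm : TmC S C₀) {I : Finset (Fin m)} {κ : Fin m} {K j : ℕ}
    {w p e δ Er Rr : ℝ} (hw0 : 0 ≤ w) (hw1 : w < 1) (hδ : 0 < δ) (he : e ≤ δ / 8)
    (hΨ : ∀ (J : ℕ) (F : Fam m J) (A : F.Ω → Prop) (V C : Type) (z : PtT F → V) (z' : LnT F → V)
      (G₁ G₂ : V → MvPolynomial (Option (Fin m)) ℝ) (c : LnT F → C), Ψ J F A V C z z' G₁ G₂ c →
      LbOK F I κ K ⌊Er * J⌋₊ J ⌊w * J⌋₊ ⌊Rr * J⌋₊ ⌊(p - e) * J⌋₊ A z z' G₁) :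
    Fw2 S f a y Qu Ψ (τ := fun _ _ _ _ => ℤ)
      (fun J F _ _ z' G₁ _ _ ω => ⌊(2 : ℝ) ^ ((p - j * w) * J) * ojet F κ j
        (G₁ (z' (slam F ⌊w * J⌋₊ ω))) ω⌋) e δ :=
  fw2_of_F1X hΨ (F1.of0 htm ((few0_jq htm hw0 hw1 (by linarith) f (vg a) y hδ).mono he le_rfl))

end fw2x

end Pool.PN18
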