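import Pool.Agent.H18.PN.Pdd
import Pool.Agent.H60.ALT.Are

/-!
# Jointly nonfull pairs at a record of full rate

`grid_ex`: a grid of windows. `pairy_rec`: the record part of `PairY` at windows of full rate, if the
last slope is at most the slope before.
-/

set_option autoImplicit false

namespace Pool.PN18

open Finset Real MvPolynomial
open Pool.Agent.H49.Ent Pool.Agent.H32.Dense Pool.STK Pool.KA Pool.KSAT Pool.K2S Pool.PB Pool.GEN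
open Pool.S6C Pool.RCD Pool.LA91 Pool.OWN68 Pool.AJW Pool.AJX Pool.CHT Pool.PKG Pool.ALT
open Pool.V0F (LbU)

/-- **A grid of windows.** -/
theorem grid_ex {τ D ms : ℝ} (hτ : 0 < τ) (hD : 0 ≤ D) (hms : 0 < ms) :
    ∃ (M : ℕ) (W : ℕ → ℝ), W 0 = -τ - D ∧ W (M + 1) = -τ ∧ W (2 * M + 1 + 1) = 0 ∧
      (∀ k, W k ≤ W (k + 1)) ∧ (∀ k, W (k + 1) - W k ≤ ms) ∧
      (∀ k ≤ 2 * M + 1 + 1, -τ - D ≤ W k ∧ W k ≤ 0) ∧
      ∀ y, -τ ≤ y → y ≤ 0 → ∃ k ≤ 2 * M + 1 + 1, |W k - y| ≤ ms := by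
  obtain ⟨M, hM⟩ := exists_nat_ge ((τ + D) / ms)
  have hM0 : (0 : ℝ) ≤ M := Nat.cast_nonneg M
  have hM1 : (0 : ℝ) < (M : ℝ) + 1 := by linarith only [hM0]
  rw [div_le_iff₀ hms] at hM
  obtain ⟨s, hs⟩ : ∃ s, s = D / (M + 1) := ⟨_, rfl⟩
  obtain ⟨u, hu⟩ : ∃ u, u = τ / (M + 1) := ⟨_, rfl⟩
  have hs0 : 0 ≤ s := by rw [hs]; positivity
  have hu0 : 0 < u := by rw [hu]; positivity
  have hsM : (M + 1) * s = D := by rw [hs]; field_simp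
  have huM : (M + 1) * u = τ := by rw [hu]; field_simp
  have hMm : (M : ℝ) * ms ≤ (M + 1) * ms := by linarith only [hms]
  have hsms : s ≤ ms := by
    rw [hs, div_le_iff₀ hM1]
    linarith only [hM, hMm, hτ]
  have hums : u ≤ ms := by
    rw [hu, div_le_iff₀ hM1]
    linarith only [hM, hMm, hD]
  obtain ⟨W, hW⟩ : ∃ W : ℕ → ℝ, W = fun k : ℕ => if k ≤ M + 1 then -τ - D + k * s else
    -τ + ((k : ℝ) - (M + 1)) * u := ⟨_, rfl⟩
  have w1 : ∀ k : ℕ, k ≤ M + 1 → W k = -τ - D + k * s := fun k hk => by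
    rw [hW]
    exact if_pos hk
  have w2 : ∀ k : ℕ, M + 1 ≤ k → W k = -τ + ((k : ℝ) - (M + 1)) * u := fun k hk => by
    rcases hk.eq_or_lt with h1 | h1
    · rw [w1 k h1.ge, ← h1]
      push_cast
      linarith only [hsM]
    · rw [hW]
      exact if_neg (by omega)
  have hst : ∀ k, W k ≤ W (k + 1) ∧ W (k + 1) - W k ≤ ms := fun k => by
    rcases Nat.lt_or_ge k (M + 1) with h1 | h1
    · rw [w1 k h1.le, w1 (k + 1) h1]
      push_cast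
      exact ⟨by linarith only [hs0], by linarith only [hsms]⟩
    · rw [w2 k h1, w2 (k + 1) (by omega)]
      push_cast
      exact ⟨by linarith only [hu0], by linarith only [hums]⟩
  have hmono : ∀ j k : ℕ, j ≤ k → W j ≤ W k := by
    intro j k hjk
    induction k, hjk using Nat.le_induction with
    | base => exact le_rfl
    | succ k _ ih => exact ih.trans (hst k).1
  have e0 : W 0 = -τ - D := by
    rw [w1 0 (Nat.zero_le _)]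
    push_cast
    linarith only []
  have e1 : W (M + 1) = -τ := by
    rw [w2 (M + 1) le_rfl]
    push_cast
    linarith only []
  have e2 : W (2 * M + 1 + 1) = 0 := by
    rw [w2 (2 * M + 1 + 1) (by omega)]
    push_cast
    linarith only [huM]
  refine ⟨M, W, e0, e1, e2, fun k => (hst k).1, fun k => (hst k).2, fun k hk => ?_, fun y h1 h2 => ?_⟩
  · rw [← e0]
    refine ⟨hmono 0 k (Nat.zero_le k), ?_⟩
    rw [← e2]
    exact hmono k _ hk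
  · have hy : 0 ≤ (y + τ) / u := div_nonneg (by linarith only [h1]) hu0.le
    have f1 := Nat.floor_le hy
    have f2 := Nat.lt_floor_add_one ((y + τ) / u)
    rw [le_div_iff₀ hu0] at f1
    rw [div_lt_iff₀ hu0] at f2
    have f3 : ⌊(y + τ) / u⌋₊ ≤ M + 1 := by
      refine Nat.floor_le_of_le ?_
      push_cast
      rw [div_le_iff₀ hu0]
      linarith only [h2, huM]
    refine ⟨M + 1 + ⌊(y + τ) / u⌋₊, by omega, ?_⟩
    rw [w2 _ (by omega)]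
    push_cast
    rw [abs_le]
    exact ⟨by linarith only [f2, hums], by linarith only [f1, hms]⟩

theorem altC_sub {m : ℕ} {S S' : PCl m} (hs : ∀ (τ : ℝ) (J : ℕ) (F : Fam m J) (A : F.Ω → Prop),
    S'.St τ J F A → S.St τ J F A) {c : ℕ → Fin m} {r : ℕ} {L : ℕ → ℝ → ℝ → ℝ} {e₀ ρ₀ π₀ μ w : ℝ}
    (h : AltC S c r L e₀ ρ₀ π₀ μ w) : AltC S' c r L e₀ ρ₀ π₀ μ w := by
  obtain ⟨rk, E, a1, a2, a3, a4, a5, a6, a7, a8, a9, a10⟩ := h
  exact ⟨rk, E, a1, a2, a3, a4, a5, a6, a7, a8, a9, a10.sub hs⟩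

/-- **Jointly nonfull pairs at a record of full rate.** -/
theorem pairy_rec {r D : ℕ} (hr : 1 ≤ r) {S : PCl (r + 2)} {al : ℝ} {g₀ : ℝ → ℝ}
    {P : List (Fin (r + 2)) × Fin (r + 2) → ℝ → ℝ → ℝ}
    {θ : ℝ} {P₂ : ℕ → List (Fin (r + 2)) × Fin (r + 2) → ℝ → ℝ → ℝ} {θ₂ Eb e₂ : ℕ → ℝ}
    {c : ℕ → Fin (r + 2)} {Pt : ℝ → ℝ → ℝ} {rt : ℝ → ℝ} {h K₀ g : ℝ} {L T : ℕ → ℝ → ℝ → ℝ}
    {Sl : ℕ → ℝ} {κ : ℕ → Kg} {G : Set ℝ} {S₀ N : ℕ} {A V : ℕ → ℝ} {S₂ N' : ℕ} {V' : ℕ → ℝ}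
    {K' ε q t : ℝ} {S₁ : PCl (r + 2)} (hne₁ : S₁.Ne)
    (hs₁ : ∀ (τ : ℝ) (J : ℕ) (F : Fam (r + 2) J) (A : F.Ω → Prop), S₁.St τ J F A → S.St τ J F A)
    (R : RecG S₁ al g₀ P θ P₂ θ₂ Eb e₂ c Pt rt h K₀ g L T Sl κ G S₀ N A V S₂ N' V' K' ε q t)
    (hκ : ∀ l < r, κ l = .one) (ha : 1 < Sl r) (hb : 0 < Sl (r + 1)) (hab : Sl (r + 1) ≤ Sl r)
    (hh1 : h ≤ 1) (hε : 0 < ε) (hK₀ : 0 < K₀)
    (hcu₀ : ∀ w ∈ G, ∃ rd : ℕ → ℝ, (∀ l < r + 1, 0 ≤ rd l) ∧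
      Chn S c 0 (r + 1) w w (L r w w) (fun l => L l w w) rd) {e₀ ρ₀ π₀ μ : ℝ} (hμ : 0 < μ)
    (hρ₀ : ρ₀ + μ ≤ 1) (halt₀ : ∀ w ∈ G, |w - g| ≤ μ → AltC S c r L e₀ ρ₀ π₀ μ w)
    (hnear : ∀ x : ℝ, |x| ≤ K' → |t + x * q - g| ≤ μ)
    (hlab : ∀ k < N', (∃ E : ℝ, E + μ ≤ e₀ ∧
      AlW S₁ c r (c (r + 1)) D (t + V' k * q) (L (r + 1) (t + V' k * q) (t + V' k * q))
        (L r (t + V' k * q) (t + V' k * q)) E 0 (L r (t + V' k * q) (t + V' k * q))) ∧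
      ∀ e : ℝ, 0 < e → Bas S₁ (fun J F A => ∃ (V₁ : Type) (z : PtT F → V₁) (z' : LnT F → V₁)
        (g : V₁ → ℕ → MvPolynomial (Option (Fin (r + 2))) ℝ),
        LbX F c 0 (r + 1) D e (fun i => max 0 (L r (t + V' k * q) (t + V' k * q) -
          L i (t + V' k * q) (t + V' k * q))) (t + V' k * q)
          (fun _ => L r (t + V' k * q) (t + V' k * q))
          (fun l => L l (t + V' k * q) (t + V' k * q)) A z z' g))
    {el dl : ℝ} {k₀ : ℕ} (hel : 0 ≤ el) (hdl : 0 ≤ dl) (hdlb : dl ≤ Sl (r + 1) * Real.log 2)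
    (hful : ∀ S' : PCl (r + 2), S'.Ne → SubC S' S → ∀ w₀ : ℝ, 0 < w₀ → w₀ < g →
      AltE S' ((range (r + 1)).image c) (c (r + 1)) (max D D * max 1 D) e₀ ρ₀ π₀ w₀ →
      ∃ φ : ℝ, Sl (r + 1) * Real.log 2 - dl ≤ φ ∧ ∀ k ≥ k₀, AltAt S ((range (r + 1)).image c)
        ((range r).image c) (c (r + 1)) (max D D * max 1 D) e₀ ρ₀ π₀ (fun w => L (r + 1) w w) g
        φ el k) (hk₀ : (K₀ + pzT (Sl r)) * q ≤ (1 / 2) ^ k₀)
    -- the windows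
    {M : ℕ} {W : ℕ → ℝ} (hW0 : W 0 = -pzT (Sl r) - pzD (Sl r) (Sl (r + 1)))
    (hW1 : W (M + 1) = -pzT (Sl r)) (hW2 : W (2 * M + 1 + 1) = 0) (hWm : ∀ k, W k ≤ W (k + 1))
    {ms : ℝ} (hms0 : 0 < ms) (hWs : ∀ k, W (k + 1) - W k ≤ ms)
    (hWb : ∀ k ≤ 2 * M + 1 + 1, -pzT (Sl r) - pzD (Sl r) (Sl (r + 1)) ≤ W k ∧ W k ≤ 0)
    (hWy : ∀ y, -pzT (Sl r) ≤ y → y ≤ 0 → ∃ k ≤ 2 * M + 1 + 1, |W k - y| ≤ ms)
    (hWin : ∀ k ≤ 2 * M + 1 + 1, ∃ j < N', V' j = W k) (hWx : ∃ j < N', V' j = -(K₀ + 1))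
    {X φ kf ℓ e' : ℝ} (hWj : ∀ k ≤ r, ∃ j < N', V' j = jfV r (-pzT (Sl r)) X k)
    -- the numbers
    (hX1 : 2 * (6 * pzT (Sl r)) ≤ X) (hX2 : 2 * (Sl r * Sl r) + 2 ≤ X)
    (hX3 : 32 * (r + 1) * φ ≤ X) (hkf1 : 3 ^ r * X ≤ kf)
    (hkf2 : Sl r * Sl (r + 1) + 2 * (r + 1) * φ + 1 ≤ kf) (hℓ1 : kf + pzT (Sl r) ≤ ℓ)
    (hℓ2 : 3 ^ r * X + Sl r + 1 ≤ ℓ) (hℓ3 : Sl r * Sl r + Sl r + 1 ≤ ℓ) (hK1 : ℓ + 1 ≤ K')
    (hK2 : pzT (Sl r) + 3 ^ r * X ≤ K')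
    (hK3 : Sl (r + 1) * pzT (Sl r) + Sl r * Sl (r + 1) + 2 ≤ K')
    (hK4 : Sl r * Sl r + pzT (Sl r) + 2 ≤ K')
    (hK5 : pzT (Sl r) + pzD (Sl r) (Sl (r + 1)) + K₀ + 1 ≤ K')
    (hφ0 : 0 < φ) (hφ1 : φ ≤ 1 / 8) (hεφ : 2 * ε ≤ φ) (he' : 0 < e') (he1 : e' ≤ φ / 8)
    (he2 : e' ≤ 1 / 64) (hεe : 128 * ε ≤ e')
    (hbτ : 2 * e' ≤ Sl (r + 1) * (pzT (Sl r) - Sl r)) (hams : Sl r * ms ≤ e' / 32)
    (hqμ : (Sl r * Sl r + Sl r * Sl (r + 1) + 4) * q ≤ μ / 4) {pf : ℕ → ℝ} {Nf : ℕ → ℕ → ℝ}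
    (hpf : ∀ l < r, L l t t - φ * q ≤ pf l)
    (hNf : ∀ l < r, ∀ j ≤ 1, Nf l j = L l t t + kf * q - (j : ℕ) * t) {δ : ℝ} (hδ0 : 0 < δ)
    (hδ1 : (8 * r + 49) * e' ≤ δ * Sl r / 4) (hδ2 : el * (2 * (K₀ + pzT (Sl r))) ≤ δ * Sl r / 4)
    (hδ3 : dl ≤ δ / 4) (N₀ : ℕ) :
    ∃ S' : PCl (r + 2), S'.Ne ∧
      (∀ (τ : ℝ) (J : ℕ) (F : Fam (r + 2) J) (A : F.Ω → Prop), S'.St τ J F A → S.St τ J F A) ∧
      ∃ (Ψ : Fm2 (r + 2)) (I₂ : Finset (Fin (r + 2))) (e E₂ r₂ p₂ m₁ ρ : ℝ) (E rd : ℕ → ℝ)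
        (vn Pn En Rn : ℝ) (K₁ : ℕ), 0 < e ∧ e ≤ e' * q ∧ 3 ^ r * X * q < m₁ ∧ ρ < 1 ∧
        (∀ i ≤ r, 0 ≤ E i ∧ L i (t + -pzT (Sl r) * q) (t + -pzT (Sl r) * q) + E i + m₁ ≤ 1 ∧
          0 ≤ rd i ∧ rd i ≤ ρ) ∧
        t + -pzT (Sl r) * q - pzD (Sl r) (Sl (r + 1)) * q ≤ vn ∧
        PairD S' Ψ c r (max D D * max 1 D) I₂ (c (r + 1)) (Sl r) (Sl (r + 1)) (h * Sl (r + 1)) δ
          (ℓ * q) N₀ (t + -pzT (Sl r) * q) t q
          (fun i => L i (t + -pzT (Sl r) * q) (t + -pzT (Sl r) * q))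
          (nX r (fun l x => L l x x) (t + -pzT (Sl r) * q) (X * q)) (fun x => L (r + 1) x x)
          pf Nf e E₂ r₂ p₂ E rd vn Pn En Rn K₁ := by
  have hq := R.q0
  have ht0 := R.t0
  have ht1 := R.t1
  have htn := abs_le.1 R.near
  have hcu₁ : ∀ w ∈ G, ∃ rd : ℕ → ℝ, (∀ l < r + 1, 0 ≤ rd l) ∧
      Chn S₁ c 0 (r + 1) w w (L r w w) (fun l => L l w w) rd := fun w hw => by
    obtain ⟨rd, h1, h2⟩ := hcu₀ w hw
    exact ⟨rd, h1, h2.sub hs₁⟩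
  have halt₁ : ∀ w ∈ G, |w - g| ≤ μ → AltC S₁ c r L e₀ ρ₀ π₀ μ w := fun w hw hw' =>
    altC_sub hs₁ (halt₀ w hw hw')
  obtain ⟨a, haE⟩ : ∃ a, a = Sl r := ⟨_, rfl⟩
  obtain ⟨b, hbE⟩ : ∃ b, b = Sl (r + 1) := ⟨_, rfl⟩
  obtain ⟨τ, hτE⟩ : ∃ τ, τ = pzT (Sl r) := ⟨_, rfl⟩
  have hτa : Sl r < pzT (Sl r) := pzT_gt ha
  have ha0 : 0 < Sl r := by linarith only [ha]
  have hfl : 0 < (⌊Sl (r + 1)⌋₊ : ℝ) + 1 - Sl (r + 1) := by
    have := Nat.lt_floor_add_one (Sl (r + 1))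
    linarith only [this]
  have hD0 : 0 < pzD (Sl r) (Sl (r + 1)) := by
    unfold pzD
    positivity
  have hwin : ∀ x : ℝ, (∃ j < N', V' j = x) → t + x * q ∈ G := fun x hx => by
    obtain ⟨j, hj, e⟩ := hx
    rw [← e]
    exact R.memG.2 j hj
  have halc : ∀ x : ℝ, (∃ j < N', V' j = x) → AlC S₁ c r D L e₀ μ (t + x * q) := fun x hx => by
    obtain ⟨j, hj, e⟩ := hx
    rw [← e]
    exact (hlab j hj).1
  have haa : 0 < Sl r * Sl r := mul_pos ha0 ha0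
  have hab0 : 0 < Sl r * Sl (r + 1) := mul_pos ha0 hb
  have hτ0 : 0 < pzT (Sl r) := by linarith only [ha0, hτa]
  have he : 0 < e' * q := mul_pos he' hq
  have hεq : 0 < ε * q := mul_pos hε hq
  have hK50 : 0 < K' := by linarith only [hK5, hτ0, hD0, hK₀]
  have hK5q : (pzT (Sl r) + pzD (Sl r) (Sl (r + 1)) + K₀ + 1) * q ≤ K' * q :=
    mul_le_mul_of_nonneg_right hK5 hq.le
  have hτq : 0 < pzT (Sl r) * q := mul_pos hτ0 hq
  have hDq : 0 < pzD (Sl r) (Sl (r + 1)) * q := mul_pos hD0 hq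
  have hK₀q : 0 < K₀ * q := mul_pos hK₀ hq
  have hWK : ∀ k ≤ 2 * M + 1 + 1, |W k| ≤ K' := fun k hk => by
    obtain ⟨h1, h2⟩ := hWb k hk
    rw [abs_of_nonpos h2]
    linarith only [h1, hK5, hK₀]
  have hWG : ∀ k ≤ 2 * M + 1 + 1, t + W k * q ∈ G := fun k hk => hwin _ (hWin k hk)
  have hvG : t + -pzT (Sl r) * q ∈ G := by
    rw [← hW1]
    exact hWG _ (by omega)
  have htG : t ∈ G := by
    have h1 := hWG (2 * M + 1 + 1) le_rfl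
    rwa [hW2, zero_mul, add_zero] at h1
  have hvK : |-pzT (Sl r)| ≤ K' := by
    rw [← hW1]
    exact hWK _ (by omega)
  have hDK : D ≤ max D D * max 1 D := by
    calc D = D * 1 := (mul_one D).symm
      _ ≤ D * max 1 D := Nat.mul_le_mul_left D (le_max_left 1 D)
      _ = max D D * max 1 D := by rw [max_self]
  -- the labels at an earlier window
  have hxK : |-(K₀ + 1)| ≤ K' := by
    rw [abs_neg, abs_of_pos (by linarith only [hK₀])]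
    linarith only [hK5, hτ0, hD0]
  obtain ⟨ph, hph, hAt⟩ := hful S₁ hne₁ hs₁ (t + -(K₀ + 1) * q)
    (by linarith only [ht0, hK5q, hτq, hDq]) (by linarith only [htn.2, hq]) (by
      obtain ⟨rk, E', b1, b2, b3, b4, b5, b6, b7, b8, b9, b10⟩ := halt₁ _ (hwin _ hWx)
        (hnear _ hxK)
      exact (halc _ hWx).lb b6 hDK hμ le_rfl (by linarith only [b7]))
  -- the scale
  obtain ⟨k, hk, hk1, hk2⟩ := pow_near (mul_pos (by linarith only [hK₀, hτ0] :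
    0 < K₀ + pzT (Sl r)) hq) hk₀
  -- the natural labels
  have hbms : Sl (r + 1) * ms * q ≤ e' / 32 * q := by
    have h1 := mul_le_mul_of_nonneg_right hab hms0.le
    exact mul_le_mul_of_nonneg_right (h1.trans hams) hq.le
  have h4q : 4 * q ≤ μ / 4 := by
    have : 4 * q ≤ (Sl r * Sl r + Sl r * Sl (r + 1) + 4) * q := by
      linarith only [mul_pos haa hq, mul_pos hab0 hq]
    exact this.trans hqμ
  have he2q : e' * q ≤ 1 / 64 * q := mul_le_mul_of_nonneg_right he2 hq.le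
  have hεeq : 128 * ε * q ≤ e' * q := mul_le_mul_of_nonneg_right hεe hq.le
  obtain ⟨S', c1, c2, R', p₁, p₂, pa₁, pa₂, c4⟩ := pd_cls R hcu₁ hμ hρ₀ halt₁ hnear
    (M₁ := M) (M₂ := 2 * M + 1) (by omega) (fun k _ => hWm k) hWK hWG hab hb.le
    (ms := ms) (e := e' * q) (fun k _ => hWs k) he (by linarith only [he2q, hq])
    (by linarith only [hbms, hεeq]) (by linarith only [he2q, h4q, hq])
    (by rw [hW0]; linarith only [ht0, hK5q, hK₀q]) (by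
      rw [hW2, zero_mul, add_zero]
      linarith only [ht1, mul_pos hK50 hq]) (halc _ (hWin 0 (by omega)))
    (halc _ (hWin (M + 1) (by omega))) (halc _ (hWin (2 * M + 1 + 1) le_rfl))
  rw [hW1, hW2, zero_mul, add_zero] at c4
  have hlv : ∀ e : ℝ, 0 < e → Bas S' (fun J F A => ∃ (V₁ : Type) (z : PtT F → V₁)
      (z' : LnT F → V₁) (g : V₁ → ℕ → MvPolynomial (Option (Fin (r + 2))) ℝ),
      LbX F c 0 (r + 1) D e (fun i => max 0 (L r (t + -pzT (Sl r) * q) (t + -pzT (Sl r) * q) -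
        L i (t + -pzT (Sl r) * q) (t + -pzT (Sl r) * q))) (t + -pzT (Sl r) * q)
        (fun _ => L r (t + -pzT (Sl r) * q) (t + -pzT (Sl r) * q))
        (fun l => L l (t + -pzT (Sl r) * q) (t + -pzT (Sl r) * q)) A z z' g) := fun e he => by
    obtain ⟨j, hj, hj'⟩ := hWin (M + 1) (by omega)
    have h1 := (hlab j hj).2 e he
    rw [hj', hW1] at h1
    exact Bas.sub c2 h1
  have PD := paird_of (D := D) hr R' hκ rfl rfl ha hb hab hτa hh1 hε (fun w hw => by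
      obtain ⟨rd, h1, h2⟩ := hcu₁ w hw
      exact ⟨rd, h1, h2.sub c2⟩) hμ hρ₀ (fun w hw hw' => altC_sub c2 (halt₁ w hw hw')) hnear
    (k := k) (ph := ph) (el := el) (dl := dl) (((hAt k hk).sub hs₁).sub c2) hel hdl hdlb hph
    (by linarith only [htn.1, hk1]) (by
      have := mul_le_mul_of_nonneg_right hτa.le hq.le
      linarith only [htn.2, hk1, this, hτq])
    (vn := t + W 0 * q) (e := e' * q) c4 hlv
    (by rw [hW0]; linarith only [ht0, hK5q, hK₀q, hq]) (by rw [hW0]; linarith only []) hD0.le htG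
    hms0 (fun y hy1 hy2 => by
      obtain ⟨k, hk, hk'⟩ := hWy y hy1 (by linarith only [hy2, hτa])
      exact ⟨W k, hWK k hk, hWG k hk, hk'⟩) hvG (X := X) (φ := φ) (kf := kf) (ℓ := ℓ)
    (fun k hk => hwin _ (hWj k hk)) hX1 hX2 hX3 hkf1 hkf2 hℓ1 hℓ2 hℓ3 hK1 hK2 hK3 hK4 hφ0 hφ1
    hεφ he (by
      have := mul_le_mul_of_nonneg_right he1 hq.le
      linarith only [this]) (by linarith only [he2q]) (by linarith only [hεeq, hεq])
    (by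
      have := mul_le_mul_of_nonneg_right hbτ hq.le
      linarith only [this, hεeq, hεq]) hqμ hpf hNf (δ := δ) hδ0 ?_ N₀
  swap
  · -- the errors
    have h1 := mul_le_mul_of_nonneg_right hδ1 hq.le
    have h2 := mul_le_mul_of_nonneg_right hδ2 hq.le
    have h3 := mul_le_mul_of_nonneg_right hδ3 (mul_pos ha0 hq).le
    have h4 := mul_le_mul_of_nonneg_left hk2 hel
    have h5 := mul_le_mul_of_nonneg_right hams hq.le
    have h6 : 0 < δ * Sl r * q := mul_pos (mul_pos hδ0 ha0) hq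
    linarith only [h1, h2, h3, h4, h5, h6, hbms, hεeq, hεq, he]
  -- the room
  have hroom : ∀ j ≤ r + 1, L j (t + -pzT (Sl r) * q) (t + -pzT (Sl r) * q) + 3 * K' * q < 1 := by
    intro j hj
    have Wn := R.tg (r + 1) (by omega) (by omega)
    have h1 := Wn.room j hj (t + -pzT (Sl r) * q) (by
      rw [add_sub_cancel_left, abs_mul, abs_of_pos hq]
      exact mul_le_mul_of_nonneg_right hvK hq.le)
    have h2 := Wn.Eb0
    linarith only [h1, h2]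
  obtain ⟨rk, E', b1, b2, b3, b4, b5, b6, b7, b8, b9, b10⟩ := halt₁ _ hvG (hnear _ hvK)
  have hv0 : 0 ≤ t + -pzT (Sl r) * q := by linarith only [ht0, hK5q, hK₀q, hDq, hq]
  have hv1 : t + -pzT (Sl r) * q ≤ 1 := by linarith only [ht1, hτq, mul_pos hK50 hq]
  have hL0 : 0 ≤ L r (t + -pzT (Sl r) * q) (t + -pzT (Sl r) * q) :=
    hv0.trans (R.low_at (by omega) hv0 le_rfl hv1)
  refine ⟨S', c1, fun τ J F A h => hs₁ τ J F A (c2 τ J F A h), _, _, e' * q, _, _, _, 3 * K' * q,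
    L r (t + -pzT (Sl r) * q) (t + -pzT (Sl r) * q) + μ / 4, _, _, t + W 0 * q, _, _, _, _, he,
    le_rfl, ?_, ?_, fun i hi => ⟨?_, ?_, ?_, ?_⟩, ?_, PD⟩
  · have h1 := mul_le_mul_of_nonneg_right hK2 hq.le
    linarith only [h1, hτq, mul_pos hK50 hq]
  · linarith only [b6, hρ₀, hμ]
  · rw [eP_lt L _ _ hi]
    exact le_max_left _ _
  · rw [eP_lt L _ _ hi]
    have h1 := hroom i (by omega)
    have h2 := hroom r (by omega)
    rcases max_choice 0 (L r (t + -pzT (Sl r) * q) (t + -pzT (Sl r) * q) -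
      L i (t + -pzT (Sl r) * q) (t + -pzT (Sl r) * q)) with h3 | h3
    · rw [h3]
      linarith only [h1]
    · rw [h3]
      linarith only [h2]
  · linarith only [hL0, hμ]
  · exact le_rfl
  · rw [hW0]
    linarith only []

end Pool.PN18
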