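import Pool.Agent.H18.PN.Hif
import Pool.Agent.H71.VLF.Vfe
import Pool.Agent.H91.D2.Tlc5
import Pool.Agent.H18.PN.Pfw
import Pool.Agent.H71.VLF.Nvl

/-!
# The dead velocity of a place of the chain from its first jet

`Wdat.frd`, `WF.labw`: the frame and the labels of the window of the target. `vfw_of`: `VfW` from one
`F1`: the first jet of the place `r` given the positions and velocities of the places before.
-/

set_option autoImplicit false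

namespace Pool.V1E

open Finset Real MvPolynomial
open Pool.KA Pool.KSAT Pool.PB Pool.GEN Pool.D2R Pool.D2G30 Pool.ISO Pool.CHT Pool.CHX
open Pool.PB.Trl (rt rt_mem t_rt)
open Pool.Agent.H49.Ent Pool.Agent.H32.Dense Pool.STK Pool.K2S Pool.LA91 Pool.OWN68
open Pool.UNJ (ceI)
open Pool.S6C Pool.RCD Pool.D2Con Pool.END18 Pool.VLF71
open Pool.GRD (LbP)

/-- **The frame.** -/
theorem Wdat.frd {m J : ℕ} {F : Fam m J} {c : ℕ → Fin m} {r D n M ar MB q₀ Q x u p e : ℕ}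
    {s : ℕ → ℕ} {qe : Fin r → ℕ} {o : ℕ → ℕ} {z g gc gT g₀ : ℕ → ℕ → ℕ} {B : F.Ω → Prop}
    {G T : ℕ → PtT F → ℕ → MvPolynomial (Option (Fin m)) ℝ}
    {H TH : ℕ → LnT F → ℕ → MvPolynomial (Option (Fin m)) ℝ}
    {Ht : LnT F → MvPolynomial (Option (Fin m)) ℝ}
    (W : Wdat F c r D n M ar MB q₀ Q x u p e s qe o z g gc gT g₀ B G T H TH Ht)
    {D' x' : ℕ} (hD : D ≤ D') (hx : x + u + 2 ≤ x') :
    FrD F c r D' MB q₀ Q x' s qe o (g₀ 0) (g₀ 2) B (G 0) (G 2) (H 0) where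
  hc := W.hc.mono fun y hy => by
    rw [Set.mem_Iio] at hy ⊢
    omega
  o1 := W.o1
  o2 := W.o2
  oJ := W.o3.trans W.oJ
  dG0 := fun y l => (W.dG 0 y l).trans hD
  pG0 := W.pG 0
  dG2 := fun y l => (W.dG 2 y l).trans hD
  pG2 := W.pG 2
  dH0 := fun y l => (W.dH 0 y l).trans hD
  cl0 := W.cl0
  own0 := fun ω hω l hl τ hτ => (W.own0 ω hω l hl τ hτ).trans
    (div_le_div_of_nonneg_right (pow_le_pow_right₀ (by norm_num) (by omega)) (by positivity))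
  box0 := fun ω hω l hl b hb => by
    obtain ⟨q, hq, hz⟩ := W.z02
    have h1 := shf_b W.bal (Nat.zero_le n) (show 2 ≤ n by have := W.n3; omega) hq
      (by have := W.o1; have := W.o2; omega) hz W.ch2 hω (show l ≤ r by omega) hb
    refine h1.trans (p2_le' ?_)
    have := W.n2c l hl
    rcases le_total (g 0 l + (o 2 - o 0)) (g₀ 2 l) with h | h
    · rw [min_eq_left h]
      omega
    · rw [min_eq_right h]
      omega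
  n0 := fun j hj => by have := W.n0 j hj; omega
  n2a := fun j hj => by have := W.n2a j hj; omega
  n2b := fun j hj => by have := W.n2b j hj; omega
  QM := W.QM
  q0M := W.q0M
  qeM := W.qeM

/-- **The labels of the window of the target.** -/
theorem WF.labw {m : ℕ} {c : ℕ → Fin m} {r D Dr N₂ : ℕ} {C a Eb ε₀ η₀ ζ mb : ℝ}
    {Pt : ℝ → ℝ → ℝ} {o : ℕ → ℝ} {lv be : ℕ → ℕ → ℝ} {J : ℕ} {F : Fam m J} {b : ℕ → ℕ → ℝ} {κ : ℝ}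
    {z : ℕ → ℕ → ℕ} {qe : Fin r → ℕ} {B : F.Ω → Prop} {gc gT g₀ : ℕ → ℕ → ℕ}
    {G : ℕ → PtT F → ℕ → MvPolynomial (Option (Fin m)) ℝ}
    {H : ℕ → LnT F → ℕ → MvPolynomial (Option (Fin m)) ℝ}
    {T : ℕ → PtT F → ℕ → MvPolynomial (Option (Fin m)) ℝ}
    {TH : ℕ → LnT F → ℕ → MvPolynomial (Option (Fin m)) ℝ}
    {Gt : ℕ → PtT F → MvPolynomial (Option (Fin m)) ℝ}
    {Ht : ℕ → LnT F → MvPolynomial (Option (Fin m)) ℝ}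
    (W : WF c r D Dr N₂ C a Eb ε₀ η₀ ζ mb Pt o lv be F b κ z qe B gc gT g₀ G H T TH Gt Ht)
    {D' x' : ℕ} (hD : D ≤ D')
    (hx : (⌊(2 * (ζ + 3 * (C * η₀)) + η₀) * J⌋₊ + 20) + (⌊C * (η₀ * J)⌋₊ + 1) + 2 ≤ x') :
    LabW F c r D' ⌊o 0 * J⌋₊ x' (g₀ 0) B (G 2) (G 0) (H 0) := by
  have Wd := W.wd
  refine ⟨Wd.hc.mono fun y hy => ?_, ?_, fun y l => (Wd.dG 0 y l).trans hD, Wd.pG 0,
    fun y l => (Wd.dG 1 y l).trans hD, Wd.pG 1, fun y l => (Wd.dH 1 y l).trans hD,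
    fun ω hω l hl => (W.wb.ev 0 (by omega)).cls ω hω l (by omega),
    fun ω hω l hl => (W.wb.ev 0 (by omega)).ball.pos ω hω l (by omega),
    fun ω hω l hl τ hτ => (W.own 0 (by omega) ω hω l hl.le τ hτ).trans
      (div_le_div_of_nonneg_right (pow_le_pow_right₀ (by norm_num) (by omega)) (by positivity)),
    fun ω hω l hl => ?_⟩
  · rw [Set.mem_Iio] at hy ⊢
    omega
  · have h1 : ⌊o 3 * J⌋₊ = ⌊o 0 * J⌋₊ + (⌊o 3 * J⌋₊ - ⌊o 0 * J⌋₊) := Wd.o2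
    have h2 := Wd.o3
    have h3 := Wd.oJ
    have h4 : ⌊o 3 * J⌋₊ ≤ J := h2.trans h3
    omega
  · obtain ⟨q, hq, hz⟩ := Wd.z01
    refine ⟨F.x ω (c l) - eval (bt F ω) (G 2 (ptr F J ω) l), fun bb hb => ?_⟩
    have h1 := shf_b (H := fun k => H (fr4 k)) Wd.bal (Nat.zero_le 3) (show 1 ≤ 3 by norm_num) hq
      (by have := Wd.o1; omega) hz Wd.ch1 hω (show l ≤ r by omega) hb
    refine h1.trans (p2_le' ?_)
    have h2 := Wd.n1c l hl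
    have h3 := Wd.o1
    obtain ⟨xa, hxa⟩ : ∃ xa : ℕ, xa = ⌊(2 * (ζ + 3 * (C * η₀)) + η₀) * J⌋₊ + 20 := ⟨_, rfl⟩
    obtain ⟨xb, hxb⟩ : ∃ xb : ℕ, xb = ⌊C * (η₀ * J)⌋₊ + 1 := ⟨_, rfl⟩
    rw [← hxa] at h2
    rw [← hxa, ← hxb] at hx
    rw [← hxb]
    have hf1 : g₀ (fr4 1) l = g₀ 0 l := rfl
    rw [hf1] at h2 ⊢
    rcases le_total (⌊b (fr4 0) l * J⌋₊ + (⌊o (fr4 1) * J⌋₊ - ⌊o (fr4 0) * J⌋₊)) (g₀ 0 l)
      with h | h
    · rw [min_eq_left h]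
      omega
    · rw [min_eq_right h]
      omega

/-- **The numbers** of `vfw_of`. -/
structure VuN (r : ℕ) (C η₀ ζ mb kk δ C' : ℝ) (o : ℕ → ℝ) (lv : ℕ → ℕ → ℝ)
    (qf : ℕ → Fin r → ℕ) (Pq : Fin r → ℝ) (kf : ℝ) (pf : ℕ → ℝ) (pr N₁ e d : ℝ) : Prop where
  C1 : 1 ≤ C
  η0 : 0 < η₀
  ζ0 : 0 ≤ ζ
  mb0 : 0 ≤ mb
  kk0 : 0 ≤ kk
  kf0 : 0 ≤ kf
  o0 : 0 ≤ o 2
  o01 : o 2 ≤ o 0
  o12 : o 0 < o 3
  l0 : ∀ l ≤ r, 0 ≤ lv 0 l
  pf0 : ∀ l < r, pf l - e ≤ lv 0 l - η₀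
  pr0 : pr - e ≤ lv 0 r - η₀
  kq : kf + η₀ < (o 3 - o 0) + kk
  kf1 : kf + η₀ < o 0 - o 2
  kf2 : ∀ i, kf + η₀ < Pq i
  qf1 : ∀ (J : ℕ) (i : Fin r), Pq i * J - 2 ≤ qf J i
  N1 : lv 0 r + mb - (o 3 - o 0) ≤ N₁ + o 0
  oJ : C * η₀ + o 0 < 1
  δ0 : 0 < δ
  sm : d + C' * (C * (ζ + η₀)) < δ * (o 3 - o 0)

/-- **The dead velocity of the place `r`** from its first jet, given the positions and velocities of
the places before. -/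
theorem vfw_of (D r : ℕ) : ∃ C' : ℝ, 1 ≤ C' ∧ ∀ {m Dr N₂ : ℕ} {S : PCl m} {c : ℕ → Fin m}
    {C a Eb ε₀ η₀ ζ mb kk : ℝ} {Pt : ℝ → ℝ → ℝ} {o : ℕ → ℝ} {lv be : ℕ → ℕ → ℝ}
    {κ : ℝ} {qf : ℕ → Fin r → ℕ} {δ kf pr N₁ e d : ℝ} {pf : ℕ → ℝ} {Pq : Fin r → ℝ},
    (∀ (τ : ℝ) (J : ℕ) (F : Fam m J) (A : F.Ω → Prop), S.St τ J F A → 0 < Pe F.p A) →
    F1 S (fun J F => ptr F J) (vg (o 0)) (fun _ F => F.T)
      (qJets m c 0 r 1 (fun _ _ => o 0) (fun l _ => pf l)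
        (fun l j => lv 0 l + kf - (j : ℕ) * o 0))
      (qJet m ((range r).image c) (c r) 1 (o 0) pr N₁) e d →
    VuN r C η₀ ζ mb kk δ C' o lv qf Pq kf pf pr N₁ e d →
    VfW S c r D Dr N₂ C a Eb ε₀ η₀ ζ mb kk Pt o lv be κ qf δ 1 := by
  classical
  obtain ⟨C₁, hvf⟩ := velf_ev D r
  refine ⟨16 * C₁ + 16, by
    have : (0 : ℝ) ≤ C₁ := Nat.cast_nonneg _
    linarith, ?_⟩
  intro m Dr N₂ S c C a Eb ε₀ η₀ ζ mb kk Pt o lv be κ qf δ kf pr N₁ e d pf Pq hpos hF Nn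
  obtain ⟨X, hX⟩ : ∃ X : ℝ, X = C * (ζ + η₀) := ⟨_, rfl⟩
  have Nsm := Nn.sm
  rw [← hX] at Nsm
  have hC := Nn.C1
  have hη := Nn.η0
  have hζ := Nn.ζ0
  have hC₁ : (0 : ℝ) ≤ C₁ := Nat.cast_nonneg _
  have hX0 : 0 ≤ X := by rw [hX]; exact mul_nonneg (by linarith) (by linarith)
  -- the slack
  obtain ⟨k₂, hk₂⟩ : ∃ k₂ : ℝ, k₂ = (δ * (o 3 - o 0) - (d + (16 * C₁ + 16) * X)) / 2 := ⟨_, rfl⟩
  have hk₂0 : 0 < k₂ := by rw [hk₂]; linarith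
  have Nsm2 : d + (16 * C₁ + 16) * X + k₂ < δ * (o 3 - o 0) := by
    have : δ * (o 3 - o 0) = 2 * k₂ + (d + (16 * C₁ + 16) * X) := by rw [hk₂]; ring
    linarith
  -- the complexity
  obtain ⟨K, hKD, hKN, hKN1⟩ : ∃ K : ℕ, D ≤ K ∧
      (∀ i ≤ r, ∀ j ≤ 1, |lv 0 i + kf - (j : ℕ) * o 0| + 3 ≤ K) ∧ |N₁| + 3 ≤ K := by
    refine ⟨D + (∑ i ∈ range (r + 1), ⌈|lv 0 i|⌉₊) + ⌈|kf|⌉₊ + ⌈|o 0|⌉₊ + ⌈|N₁|⌉₊ + 3, by omega,
      fun i hi j hj => ?_, ?_⟩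
    · have h1 : ⌈|lv 0 i|⌉₊ ≤ ∑ i ∈ range (r + 1), ⌈|lv 0 i|⌉₊ :=
        Finset.single_le_sum (f := fun i => ⌈|lv 0 i|⌉₊) (fun i _ => Nat.zero_le _)
          (Finset.mem_range.2 (by omega))
      have h2 : (⌈|lv 0 i|⌉₊ : ℝ) ≤ ((∑ i ∈ range (r + 1), ⌈|lv 0 i|⌉₊ : ℕ) : ℝ) := by
        exact_mod_cast h1
      have h3 := Nat.le_ceil |lv 0 i|
      have h4 := Nat.le_ceil |kf|
      have h5 := Nat.le_ceil |o 0|
      have h6 : |lv 0 i + kf - (j : ℕ) * o 0| ≤ |lv 0 i| + |kf| + |o 0| := by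
        refine (abs_sub _ _).trans (add_le_add (abs_add_le _ _) ?_)
        rw [abs_mul, abs_of_nonneg (Nat.cast_nonneg j : (0 : ℝ) ≤ (j : ℕ))]
        have h7 : ((j : ℕ) : ℝ) ≤ 1 := by exact_mod_cast hj
        have h8 := mul_le_mul_of_nonneg_right h7 (abs_nonneg (o 0))
        linarith
      have h7 : (0 : ℝ) ≤ (⌈|N₁|⌉₊ : ℝ) := Nat.cast_nonneg _
      have h8 : (0 : ℝ) ≤ (D : ℝ) := Nat.cast_nonneg _
      rw [Nat.cast_add, Nat.cast_add, Nat.cast_add, Nat.cast_add, Nat.cast_add]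
      push_cast at h2 ⊢
      linarith
    · have h3 := Nat.le_ceil |N₁|
      have h7 : (0 : ℝ) ≤ (⌈|kf|⌉₊ : ℝ) := Nat.cast_nonneg _
      have h8 : (0 : ℝ) ≤ (D : ℝ) := Nat.cast_nonneg _
      have h9 : (0 : ℝ) ≤ (⌈|o 0|⌉₊ : ℝ) := Nat.cast_nonneg _
      have h10 : (0 : ℝ) ≤ ((∑ i ∈ range (r + 1), ⌈|lv 0 i|⌉₊ : ℕ) : ℝ) := Nat.cast_nonneg _
      rw [Nat.cast_add, Nat.cast_add, Nat.cast_add, Nat.cast_add, Nat.cast_add]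
      push_cast at h10 ⊢
      linarith
  obtain ⟨kc, hkc⟩ : ∃ kc : ℝ, kc = 32 * C₁ + 60 := ⟨_, rfl⟩
  obtain ⟨J₁, hJ₁⟩ := lin_lt Nsm2 (kc + δ)
  obtain ⟨J₂, hJ₂⟩ := lin_lt Nn.kq 4
  obtain ⟨J₃, hJ₃⟩ := lin_lt Nn.kf1 4
  obtain ⟨J₄, hJ₄⟩ := lin_fam (n := r) (A := fun i => kf + η₀) (B := fun i => if hi : i < r then
    Pq ⟨i, hi⟩ else 0) (fun i hi => by
      show kf + η₀ < (if hi : i < r then Pq ⟨i, hi⟩ else 0)
      rw [dif_pos hi]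
      exact Nn.kf2 ⟨i, hi⟩) 4
  obtain ⟨J₅, hJ₅⟩ := lin_lt Nn.oJ 2
  refine ⟨k₂, hk₂0, ?_⟩
  refine Bas.mono (max (max J₁ J₂) (max (max J₃ J₄) (max J₅ 1))) ((hF K).and
    (pos_bas hpos)) ?_
  rintro J hJ F B ⟨hFB, hB⟩ b z gc gT g₀ G H T TH Gt Ht W
  have j1 := hJ₁ J (by omega)
  have j2 := hJ₂ J (by omega)
  have j3 := hJ₃ J (by omega)
  have j4 := hJ₄ J (by omega)
  have j5 := hJ₅ J (by omega)
  clear hJ₁ hJ₂ hJ₃ hJ₄ hJ₅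
  have hJ1 : 1 ≤ J := by omega
  have hJ0 : (0 : ℝ) ≤ J := Nat.cast_nonneg J
  have mulJ : ∀ {x y : ℝ}, x ≤ y → x * J ≤ y * J := fun h => mul_le_mul_of_nonneg_right h hJ0
  refine ⟨B, fun ω h => h, by rw [one_mul], fun V v vL hv hvL hvZ => ?_⟩
  have hql : IsLaw (Pool.Agent.H49.Ent.cond F.p B True) := isLaw_cond F.isLaw hB
  have hqB : ∀ ω, 0 < Pool.Agent.H49.Ent.cond F.p B True ω → B ω := fun ω hω =>
    of_eq_true ((cond_pos_iff F.isLaw.nonneg B True ω).1 hω).2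
  have h0 := hql.nonneg
  have Wd := W.wd
  have hN3 := W.n3
  have ho0' := Nn.o0
  have ho01 := Nn.o01
  have ho12 := Nn.o12
  have f0 := flo (mul_nonneg ho0' hJ0)
  have f1 := flo (mul_nonneg (ho0'.trans ho01) hJ0)
  have f2 := flo (mul_nonneg ((ho0'.trans ho01).trans ho12.le) hJ0)
  have l01 : ⌊o 2 * J⌋₊ ≤ ⌊o 0 * J⌋₊ := Nat.floor_le_floor (mulJ ho01)
  have l12 : ⌊o 0 * J⌋₊ ≤ ⌊o 3 * J⌋₊ := Nat.floor_le_floor (mulJ ho12.le)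
  have fm := flo (mul_nonneg Nn.mb0 hJ0)
  have fk := flo (mul_nonneg Nn.kk0 hJ0)
  have fs : ∀ l ≤ r, ((⌊lv 0 l * J⌋₊ : ℕ) : ℝ) ≤ lv 0 l * J ∧ lv 0 l * J - 1 ≤ ⌊lv 0 l * J⌋₊ :=
    fun l hl => flo (mul_nonneg (Nn.l0 l hl) hJ0)
  have fg := fun l (hl : l ≤ r) => W.wb.sds 0 (by omega) l hl
  have hkη : 0 ≤ kf + η₀ := by linarith [Nn.kf0]
  have fκ := flo (mul_nonneg hkη hJ0)
  obtain ⟨xa, hxa⟩ : ∃ xa : ℕ, xa = ⌊(2 * (ζ + 3 * (C * η₀)) + η₀) * J⌋₊ + 20 := ⟨_, rfl⟩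
  obtain ⟨xb, hxb⟩ : ∃ xb : ℕ, xb = ⌊C * (η₀ * J)⌋₊ + 1 := ⟨_, rfl⟩
  obtain ⟨x, hx⟩ : ∃ x : ℕ, x = xa + xb + 2 := ⟨_, rfl⟩
  have hfrd : FrD F c r D ⌊mb * J⌋₊ (⌊o 0 * J⌋₊ - ⌊o 2 * J⌋₊) (⌊o 3 * J⌋₊ - ⌊o 0 * J⌋₊) x
      (fun l => ⌊lv 0 l * J⌋₊) (qf J) (fun k => ⌊o (fr4 k) * J⌋₊) (g₀ 2) (g₀ 3) B (G 2) (G 3)
      (H 2) := Wd.frd le_rfl (by rw [hx, hxa, hxb])
  have hlab : LabW F c r D ⌊o 0 * J⌋₊ x (g₀ 0) B (G 2) (G 0) (H 0) :=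
    W.labw le_rfl (by rw [hx, hxa, hxb])
  -- the size of the loss
  have hxX : (x : ℝ) + 1 ≤ 8 * X * J + 24 := by
    rw [hx, hxa, hxb]
    push_cast
    have h4 := (flo (mul_nonneg (by
      have := mul_nonneg (by linarith : (0 : ℝ) ≤ C) hη.le
      linarith : (0 : ℝ) ≤ 2 * (ζ + 3 * (C * η₀)) + η₀) hJ0)).1
    have h8 := (flo (mul_nonneg (by linarith : (0 : ℝ) ≤ C) (mul_nonneg hη.le hJ0))).1
    have h5 : C * η₀ + (2 * (ζ + 3 * (C * η₀)) + η₀) ≤ 8 * X := by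
      have h6 : X = C * ζ + C * η₀ := by rw [hX]; ring
      have h7 : ζ ≤ C * ζ := le_mul_of_one_le_left hζ hC
      have h8 : η₀ ≤ C * η₀ := le_mul_of_one_le_left hη.le hC
      have h9 : 0 ≤ C * η₀ := by positivity
      linarith
    have h9 := mulJ h5
    linarith
  have hxη : η₀ * J + 19 ≤ x := by
    have h4 : 0 ≤ 2 * (ζ + 3 * (C * η₀)) + η₀ := by
      have := mul_nonneg (by linarith : (0 : ℝ) ≤ C) hη.le
      linarith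
    have h5 := (flo (mul_nonneg h4 hJ0)).2
    have h6 : η₀ * J ≤ (2 * (ζ + 3 * (C * η₀)) + η₀) * J := mulJ (by
      have := mul_nonneg (by linarith : (0 : ℝ) ≤ C) hη.le
      linarith)
    rw [hx, hxa]
    push_cast
    have h7 : (0 : ℝ) ≤ (xb : ℝ) := Nat.cast_nonneg _
    linarith
  obtain ⟨κ₁, hκ₁⟩ : ∃ κ₁ : ℕ, κ₁ = ⌊(kf + η₀) * J⌋₊ + 1 := ⟨_, rfl⟩
  have hκr : (kf + η₀) * J ≤ κ₁ ∧ (κ₁ : ℝ) ≤ (kf + η₀) * J + 1 := by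
    rw [hκ₁]
    push_cast
    exact ⟨by linarith [fκ.2], by linarith [fκ.1]⟩
  obtain ⟨Q, hQ⟩ : ∃ Q : ℕ, Q = ⌊o 3 * J⌋₊ - ⌊o 0 * J⌋₊ := ⟨_, rfl⟩
  obtain ⟨q₀, hq₀⟩ : ∃ q₀ : ℕ, q₀ = ⌊o 0 * J⌋₊ - ⌊o 2 * J⌋₊ := ⟨_, rfl⟩
  obtain ⟨MB, hMB⟩ : ∃ MB : ℕ, MB = ⌊mb * J⌋₊ := ⟨_, rfl⟩
  obtain ⟨k, hk⟩ : ∃ k : ℕ, k = ⌊kk * J⌋₊ := ⟨_, rfl⟩
  obtain ⟨s, hs⟩ : ∃ s : ℕ → ℕ, s = fun l => ⌊lv 0 l * J⌋₊ := ⟨_, rfl⟩
  have hsl : ∀ l ≤ r, (s l : ℝ) ≤ lv 0 l * J ∧ lv 0 l * J - 1 ≤ s l := fun l hl => by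
    rw [hs]
    exact fs l hl
  have hQr : (Q : ℝ) = ⌊o 3 * J⌋₊ - ⌊o 0 * J⌋₊ := by rw [hQ, Nat.cast_sub l12]
  have hQl : (o 3 - o 0) * J - 1 ≤ Q := by rw [hQr]; linarith [f1.2, f2.2, f1.1, f2.1]
  have hQu : (Q : ℝ) ≤ (o 3 - o 0) * J + 1 := by rw [hQr]; linarith [f1.2, f2.2, f1.1, f2.1]
  have hqr : (q₀ : ℝ) = ⌊o 0 * J⌋₊ - ⌊o 2 * J⌋₊ := by rw [hq₀, Nat.cast_sub l01]
  have hql' : (o 0 - o 2) * J - 1 ≤ q₀ := by rw [hqr]; linarith [f1.2, f0.2, f1.1, f0.1]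
  have hkr : kk * J - 1 ≤ k := by rw [hk]; exact fk.2
  have hmr : (MB : ℝ) ≤ mb * J := by rw [hMB]; exact fm.1
  have hQM : Q ≤ MB := by
    have := Wd.QM
    rw [hQ, hMB]
    exact this
  -- the jets of the frame
  obtain ⟨σ, hσ⟩ : ∃ σ : ℕ → ℕ → ℝ, σ = fun i j =>
    (2 : ℝ) ^ ((lv 0 i + kf - (j : ℕ) * o 0) * J) := ⟨_, rfl⟩
  have hσ0 : ∀ i j, 0 < σ i j := fun i j => by
    rw [hσ]
    exact Real.rpow_pos_of_pos (by norm_num) _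
  have rp : ∀ {y : ℝ} {n : ℕ}, y ≤ n → (2 : ℝ) ^ y ≤ 2 ^ n := fun {y n} h => by
    rw [← Real.rpow_natCast]
    exact Real.rpow_le_rpow_of_exponent_le (by norm_num) h
  have rp' : ∀ {y : ℝ} {n : ℕ}, (n : ℝ) ≤ y → (2 : ℝ) ^ n ≤ 2 ^ y := fun {y n} h => by
    rw [← Real.rpow_natCast]
    exact Real.rpow_le_rpow_of_exponent_le (by norm_num) h
  have rpm : ∀ {y : ℝ} {n : ℕ}, (2 : ℝ) ^ y * 2 ^ n = 2 ^ (y + n) := fun {y n} => by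
    rw [Real.rpow_add (by norm_num), Real.rpow_natCast]
  have rpm' : ∀ {y : ℝ} {n : ℕ}, (2 : ℝ) ^ n * 2 ^ y = 2 ^ (y + n) := fun {y n} => by
    rw [Real.rpow_add (by norm_num), Real.rpow_natCast, mul_comm]
  have c1 : ∀ i < r, σ i 0 ≤ 2 ^ (g₀ 0 i + κ₁) := fun i hi => by
    rw [hσ]
    refine rp ?_
    push_cast
    have h1 := (fg i hi.le).1
    linarith [hκr.1]
  have c2 : ∀ i < r, σ i 1 * 2 ^ ⌊o 0 * J⌋₊ ≤ 2 ^ (g₀ 0 i + κ₁) := fun i hi => by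
    rw [hσ, rpm]
    refine rp ?_
    push_cast
    have h1 := (fg i hi.le).1
    linarith [hκr.1, f1.1]
  have c3 : ∀ i < r, 2 ^ (g₀ 0 i + κ₁) ≤ 2 ^ x * σ i 0 := fun i hi => by
    rw [hσ, rpm']
    refine rp' ?_
    push_cast
    have h1 := (fg i hi.le).2
    linarith [hκr.2]
  have c4 : ∀ i < r, 2 ^ (g₀ 0 i + κ₁) ≤ 2 ^ x * (σ i 1 * 2 ^ ⌊o 0 * J⌋₊) := fun i hi => by
    rw [hσ, rpm, rpm']
    refine rp' ?_
    push_cast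
    have h1 := (fg i hi.le).2
    linarith [hκr.2, f1.2]
  -- the size of the jets
  have hbal0 := (W.wb.ev 0 (by omega)).ball
  have hcls0 := (W.wb.ev 0 (by omega)).cls
  have hjets : ∀ ω, B ω → ∀ i < r + 1, ∀ j ≤ 1, |ojet F (c i) j (G 0 (ptr F J ω) i) ω| ≤ 2 ^ J := by
    intro ω hω i hi j hj
    obtain rfl | rfl : j = 0 ∨ j = 1 := by omega
    · rw [ojet_hy F (c i) 0]
      unfold hy
      rw [pow_zero, one_mul, div_one]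
      refine (hbal0.pos ω hω i hi).trans ?_
      refine (div_le_one (by positivity)).2 (one_le_pow₀ (by norm_num)) |>.trans
        (one_le_pow₀ (by norm_num))
    · rw [ojet_vy F (c i) 0 0]
      unfold vy
      simp only [pow_zero, one_mul, div_one]
      refine (W.vel 0 (by omega) ω ω hω hω rfl i (by omega)).trans ?_
      refine (div_le_self (by positivity) (one_le_pow₀ (by norm_num))).trans ?_
      rw [← pow_add]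
      refine pow_le_pow_right₀ (by norm_num) ?_
      have h1 := (flo (mul_nonneg (by linarith : (0 : ℝ) ≤ C) (mul_nonneg hη.le hJ0))).1
      have h2 : ((⌊C * (η₀ * J)⌋₊ + 1 + ⌊o 0 * J⌋₊ : ℕ) : ℝ) ≤ J := by
        push_cast
        linarith [f1.1]
      exact_mod_cast h2
  have hjetP : ∀ i < r + 1, ∀ j ≤ 1, ∀ N : ℝ, |N| + 3 ≤ K →
      (qJet m ((range i).image c) (c i) j (o 0) (if i < r then pf i else pr) N).P K e J F B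
        (fun ω => ⌊(2 : ℝ) ^ (N * J) * ojet F (c i) j (G 0 (ptr F J ω) i) ω⌋) := by
    intro i hi j hj N hN
    have h1 := pi_jet (F := F) (A := B) (c := c) (d := r + 1) (wb := ⌊o 0 * J⌋₊) (gx := g₀ 0)
      (G₀ := G 0) (H₀ := H 0) (b := o 0) (e₀ := e) (sn := fun i => if i < r then pf i else pr)
      (K := K) (j := j)
      (N := fun _ => N) hbal0 (fun ω hω l hl => hcls0 ω hω l hl) hJ1 rfl
      (fun i hi => (mulJ (by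
        by_cases h : i < r
        · simp only [if_pos h]
          exact Nn.pf0 i h
        · simp only [if_neg h]
          rw [show i = r by omega]
          exact Nn.pr0)).trans (fg i (by omega)).1)
      (fun ω hω i hi => hjets ω hω i hi j hj) hKD (fun _ => hN)
    exact h1 ⟨i, hi⟩
  have hjetF : ∀ i < r, ∀ j ≤ 1, ∀ N : ℝ, |N| + 3 ≤ K →
      (qJet m ((range i).image c) (c i) j (o 0) (pf i) N).P K e J F B
        (fun ω => ⌊(2 : ℝ) ^ (N * J) * ojet F (c i) j (G 0 (ptr F J ω) i) ω⌋) := by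
    intro i hi j hj N hN
    have h1 := hjetP i (by omega) j hj N hN
    rwa [if_pos hi] at h1
  have hjetR : ∀ j ≤ 1, ∀ N : ℝ, |N| + 3 ≤ K →
      (qJet m ((range r).image c) (c r) j (o 0) pr N).P K e J F B
        (fun ω => ⌊(2 : ℝ) ^ (N * J) * ojet F (c r) j (G 0 (ptr F J ω) r) ω⌋) := by
    intro j hj N hN
    have h1 := hjetP r (by omega) j hj N hN
    rwa [if_neg (lt_irrefl r)] at h1
  -- the first jet is few
  obtain ⟨V₁, z₁, hz₁, hfew⟩ := hFB (uV F c r (G 0) σ)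
    (fun ω => ⌊(2 : ℝ) ^ (N₁ * J) * ojet F (c r) 1 (G 0 (ptr F J ω) r) ω⌋) (by
      refine ⟨fun i _ hi j hj => ?_, fun ω hω i j h => ?_⟩
      · have h1 := hjetF i hi j hj (lv 0 i + kf - (j : ℕ) * o 0) (hKN i hi.le j hj)
        have e1 : (fun ω => uV F c r (G 0) σ ω i j) = fun ω =>
            ⌊(2 : ℝ) ^ ((lv 0 i + kf - (j : ℕ) * o 0) * J) *
              ojet F (c i) j (G 0 (ptr F J ω) i) ω⌋ := by
          funext ω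
          unfold uV
          rw [if_pos ⟨hi, hj⟩, hσ]
        rw [e1]
        exact h1
      · unfold uV
        rw [if_neg fun h2 => h ⟨Nat.zero_le _, h2.1, h2.2⟩])
    (hjetR 1 le_rfl N₁ hKN1)
  -- the labels are few
  have hlabs : CH (Pool.Agent.H49.Ent.cond F.p B True) (fun ω => (z₁ ω, ((fun i : Fin r =>
      G 0 (ptr F J ω) i), (fun _ => 0 : PtT F → MvPolynomial (Option (Fin m)) ℝ) (ptr F J ω))))
      (fun ω => (v ω, F.T ω)) ≤ k₂ * J := by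
    have hG : Cl2 (ptr F J) (vg (o 0) J F) B (fun ω => fun i : Fin r => G 0 (ptr F J ω) i) := by
      refine ⟨⟨fun y i => G 0 y i, fun ω _ => rfl⟩, ⟨fun L i => H 0 L i, fun ω hω => ?_⟩⟩
      funext i
      exact hcls0 ω hω i (by omega)
    have hz : Cl2 (ptr F J) (vg (o 0) J F) B (fun _ : F.Ω =>
        (0 : MvPolynomial (Option (Fin m)) ℝ)) := ⟨⟨fun _ => 0, fun _ _ => rfl⟩,
      ⟨fun _ => 0, fun _ _ => rfl⟩⟩
    refine le_trans (CH_mono_cond h0 fun ω ω' _ _ hh => ?_) (hv.2 _ _ (hz₁.join (hG.join hz)))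
    exact (Prod.ext_iff.mp hh).1
  have hrw := hvf (F := F) (c := c) (MB := MB) (q₀ := q₀) (Q := Q) (x := x) (s := s) (qe := qf J)
    (o := fun k => ⌊o (fr4 k) * J⌋₊) (gf := g₀ 2) (g2 := g₀ 3) (g := g₀ 0) (B := B) (Gf := G 2)
    (G2 := G 3) (G₁ := G 0) (Hf := H 2) (H₁ := H 0) (by rw [hMB, hQ, hq₀, hs]; exact hfrd) hlab
    (fun l hl => by
      have h1 := Wd.n1d l hl
      have h2 : g₀ (fr4 1) l ≤ s l + xa := by rw [hs, hxa]; exact h1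
      have h3 : g₀ (fr4 1) l = g₀ 0 l := rfl
      omega) v vL (fun y => G 0 y r) (fun L => H 0 L r) k κ₁
    (by
      have h1 : (κ₁ : ℝ) ≤ ((Q + k : ℕ) : ℝ) := by
        push_cast
        linarith [hκr.2]
      exact_mod_cast h1)
    (by
      have h1 : (κ₁ : ℝ) ≤ q₀ := by linarith [hκr.2]
      exact_mod_cast h1)
    (fun i => by
      have h1 := j4 i i.2
      rw [dif_pos i.2] at h1
      have h2 := Nn.qf1 J i
      have h3 : (κ₁ : ℝ) ≤ qf J i := by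
        have h4 : (⟨(i : ℕ), i.2⟩ : Fin r) = i := rfl
        rw [h4] at h1
        linarith [hκr.2]
      exact_mod_cast h3)
    σ (fun i j => (hσ0 i j).le) c1 c2 c3 c4 (M₁ := s r + (MB - Q)) (kt := c r)
    (Gv := fun ω => G 0 (ptr F J ω) r)
    (np := fun L => lc ⌊o 0 * J⌋₊ L (some (c r)) -
      MvPolynomial.aeval (lc ⌊o 0 * J⌋₊ L) (H 0 L r))
    (A0 := fun _ => 0) (R0 := fun _ => 0)
    (fun ω hω => by
      have h1 := der_cw (F := F) (w := ⌊o 0 * J⌋₊) hlab.wJ ω (c r) (H 0 (slam F ⌊o 0 * J⌋₊ ω) r)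
      have h2 := hcls0 ω hω r (by omega)
      show (Polynomial.derivative (lc ⌊o 0 * J⌋₊ (slam F ⌊o 0 * J⌋₊ ω) (some (c r)) -
        MvPolynomial.aeval (lc ⌊o 0 * J⌋₊ (slam F ⌊o 0 * J⌋₊ ω))
          (H 0 (slam F ⌊o 0 * J⌋₊ ω) r))).eval (rt F ⌊o 0 * J⌋₊ ω) =
        1 / 2 ^ ⌊o 0 * J⌋₊ * ojet F (c r) 1 (G 0 (ptr F J ω) r) ω
      rw [h1, h2])
    (fun _ => by rw [totalDegree_zero]; exact Nat.zero_le _)
    (fun _ => fun b b' _ _ => by rw [map_zero, map_zero])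
    (fun _ _ => rfl)
    (fun ω hω => ⟨0, fun b _ => by rw [map_zero, add_zero, abs_zero]; positivity⟩)
    (σ₀ := (2 : ℝ) ^ (N₁ * J)) (Real.rpow_pos_of_pos (by norm_num) _)
    (by
      show (2 : ℝ) ^ (s r + (MB - Q)) ≤ 2 ^ x * 2 ^ (N₁ * J) * 2 ^ ⌊o 0 * J⌋₊
      rw [rpm', rpm]
      refine rp' ?_
      rw [Nat.cast_add, Nat.cast_sub hQM]
      have h1 := mulJ Nn.N1
      have h2 : 0 ≤ η₀ * J := mul_nonneg hη.le hJ0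
      linarith [(hsl r le_rfl).1, f1.2])
    (by omega) _ hql hqB z₁ (δ := δ) (δ₁ := d * J) (δ₂ := k₂ * J) hfew hlabs
    (by
      have h1 := mul_le_mul_of_nonneg_left hxX hC₁
      have h2 := mul_le_mul_of_nonneg_left hQl Nn.δ0.le
      have h3 : 0 ≤ X * J := mul_nonneg hX0 hJ0
      have h4 : 0 ≤ C₁ * (X * J) := mul_nonneg hC₁ h3
      rw [hkc] at j1
      have e1 : (d + (16 * (C₁ : ℝ) + 16) * X + k₂) * J = d * J + k₂ * J +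
        16 * (C₁ * (X * J)) + 16 * (X * J) := by ring
      rw [e1] at j1
      have e2 : (C₁ : ℝ) * (8 * X * J + 24) = 8 * (C₁ * (X * J)) + 24 * C₁ := by ring
      rw [e2] at h1
      linarith)
  have e1 : nT F s r ⌊o 0 * J⌋₊ (fun L => lc ⌊o 0 * J⌋₊ L (some (c r)) -
      MvPolynomial.aeval (lc ⌊o 0 * J⌋₊ L) (H 0 L r)) (fun _ => 0) =
      (fun L => nL c s r ⌊o 0 * J⌋₊ (H 0 L r) L) := by
    funext L
    have h1 := nT_nL F c s r ⌊o 0 * J⌋₊ (fun L => H 0 L r) L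
    exact h1
  have hrw' : VelF Q MB k (2 ^ (J - ⌊o 0 * J⌋₊)) δ (Pool.Agent.H49.Ent.cond F.p B True)
      (slam F ⌊o 0 * J⌋₊) (twF F ⌊o 0 * J⌋₊)
      (kaF F c s r ⌊o 0 * J⌋₊ Q v (G 2) (fun y => G 0 y r))
      (fun ω => eL c s r ⌊o 0 * J⌋₊ (qf J) (frH F r q₀ (H 2) (slam F ⌊o 0 * J⌋₊ ω))
        (slam F ⌊o 0 * J⌋₊ ω))
      (ctF F c s r ⌊o 0 * J⌋₊ q₀ Q (qf J) (H 2) (fun L => H 0 L r) vL)
      (fun L => xL c s r ⌊o 0 * J⌋₊ Q (frH F r q₀ (H 2) L) L)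
      (nT F s r ⌊o 0 * J⌋₊ (fun L => lc ⌊o 0 * J⌋₊ L (some (c r)) -
      MvPolynomial.aeval (lc ⌊o 0 * J⌋₊ L) (H 0 L r)) (fun _ => 0)) := hrw
  rw [e1, hQ, hMB, hk, hq₀, hs] at hrw'
  exact hrw'

end Pool.V1E
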