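import Pool.Agent.H18.PN.Ipz
import Pool.Agent.H18.PN.Stgg

/-!
# The slope of the second steep place is smaller

`cbF_res`: `CbF k (Sl 3 < Sl 2)` for the kinds `stp`, `thin`, `sta`.
-/

set_option autoImplicit false

namespace Pool.ASM

open Pool.PKG Pool.PN18 Pool.ALT Pool.LPT30 Pool.AJW
open Pool.LA91 (HerQ her_sum aePG_sum)
open Pool.SW

/-- **The first coefficient of `u` is few bits**, for `b < a`. -/
theorem cbF_res {k : Kg} (hk : k = .stp ∨ k = .thin ∨ k = .sta) :
    CbF k (fun Sl => Sl 3 < Sl 2) := by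
  refine cbF_ip hk ⟨TwX, inferInstance, TwQ, aePG_tw 4, her_tw 4, ?_⟩
  intro h hh hh1 Sl hS hab
  have ha : 1 < Sl 2 := by
    rcases hk with hk | hk | hk
    · have := hS.stp hk
      linarith
    · exact hS.thin hk
    · have := hS.sta hk
      linarith
  exact ipY_of_tw (r := 2) (by norm_num) (fun l hl => by interval_cases l <;> rfl) ha
    (by linarith [hS.s3]) hab

end Pool.ASM
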