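import Pool.Agent.H18.PN.Rst
import Pool.Agent.H73.D2.Tvk

/-!
# The first jet of `u` is few bits, for `b < a`

`f1TP_res`: `F1TP k (Sl 3 < Sl 2) FulB` for every kind `k` with `1 < Sl 2` on the slopes; so for
`stp`, `thin` and `sta`.
-/

set_option autoImplicit false

namespace Pool.ASM

open Pool.PKG Pool.PN18 Pool.ALT Pool.LPT30 Pool.AJW
open Pool.LA91 (HerQ her_sum aePG_sum)
open Pool.SW

/-- **The first jet of** `u` is few bits, for `b < a`, under full rates. -/
theorem f1TP_res {k : Kg} (hk : k = .stp ∨ k = .thin ∨ k = .sta) :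
    F1TP k (fun Sl => Sl 3 < Sl 2) FulB := by
  refine ⟨BaX, inferInstance, BaQ 4, aePG_ba 4, her_ba 4, ?_⟩
  intro h hh hh1 Sl hS hab
  have ha : 1 < Sl 2 := by
    rcases hk with hk | hk | hk
    · have := hS.stp hk
      linarith
    · exact hS.thin hk
    · have := hS.sta hk
      linarith
  exact f1us_ba (r := 2) (by norm_num) hh hh1 (fun l hl => by interval_cases l <;> rfl) ha
    (by
      show 0 < Sl 3
      linarith [hS.s3]) hab

end Pool.ASM
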