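import Pool.Agent.H18.PN.Pdg
import Pool.Agent.H12.LPK.Rbp

/-!
# Stages: the jets of the base label of the last coordinate; one alive order on each path

`Fw1`: a jet of the labels of a family is few bits. `pk_rb`: `pair_rb` and `lpk_rb` in one statement, at
most one alive order on each path.
-/

set_option autoImplicit false

namespace Pool.PN18

open Finset Real MvPolynomial
open Pool.Agent.H49.Ent Pool.Agent.H32.Dense Pool.STK Pool.KA Pool.KSAT Pool.K2S Pool.PB Pool.GEN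
open Pool.S6C Pool.RCD Pool.LA91 Pool.OWN68 Pool.AJW
open Pool.GRD (LbP)
open Pool.ALT (Fml)
open Pool.LPK12 (Ip2 lpk_rb)

/-- **The jet of order `j` of the labels of a family is few bits**, `N` digits, given `Qu`, a closed
code and the ball. -/
def Fw1 {m : ℕ} (S : PCl m) {α γ : ∀ J : ℕ, Fam m J → Type}
    (f : ∀ (J : ℕ) (F : Fam m J), F.Ω → α J F) (a : ℝ)
    (y : ∀ (J : ℕ) (F : Fam m J), F.Ω → γ J F) {U₀ : Type} (Qu : Qt m U₀) (Ψ : Fml m) (κ : Fin m)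
    (w : ℝ) (j : ℕ) (N e δ : ℝ) : Prop :=
  ∀ K₀ : ℕ, Bas S (fun J F A => ∀ (V : Type) (z : PtT F → V) (z' : LnT F → V)
    (G : V → MvPolynomial (Option (Fin m)) ℝ), Ψ J F A V z z' G →
    ∀ u₀ : F.Ω → U₀, Qu.P K₀ e J F A u₀ →
    ∃ (V₁ : Type) (z₁ : F.Ω → V₁), Cl2 (f J F) (vg a J F) A z₁ ∧
      CH (Pool.Agent.H49.Ent.cond F.p A True)
        (fun ω => ⌊(2 : ℝ) ^ (N * J) * ojet F κ j (G (z' (slam F ⌊w * J⌋₊ ω))) ω⌋)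
        (fun ω => (u₀ ω, (z₁ ω, y J F ω))) ≤ δ * J)

/-- **The own paths of a jointly nonfull pair**, at most one alive order on each path. -/
theorem pk_rb (K : ℕ) {Iu In : Finset ℕ} (hu : ∀ i ∈ Iu, 1 ≤ i ∧ i ≤ K + 2)
    (hn : ∀ j ∈ In, 1 ≤ j ∧ j ≤ K + 2) (hu1 : Iu.card ≤ 1) (hn1 : In.card ≤ 1) {α₁ α₂ : ℝ}
    (hα₂ : 0 < α₂) (hα : α₂ < α₁) {h : ℝ} (hh : 0 < h) (hh2 : h ≤ α₂) {ε : ℝ} (hε : 0 < ε) :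
    ∃ δ : ℝ, 0 < δ ∧ ∃ N₀ : ℕ, 0 < N₀ ∧
    ∀ {m : ℕ} {S : PCl m} {C₀ : ℝ} (_ : TmC S C₀) {κ₁ κ₂ : Fin m} {w a p₁ p₂ q : ℝ} (_ : 0 ≤ w)
    (_ : w ≤ a) (_ : a ≤ 1) (_ : 0 < q) (_ : w + 2 * (α₁ + α₂) * q ≤ 1) (_ : w + α₁ * q ≤ 1)
    {U₀ : Type} {Qu : Qt m U₀} {α γ : ∀ J : ℕ, Fam m J → Type}
    {f : ∀ (J : ℕ) (F : Fam m J), F.Ω → α J F} {y : ∀ (J : ℕ) (F : Fam m J), F.Ω → γ J F}
    (_ : ∀ (J : ℕ) (F : Fam m J), ∃ φ : α J F → PtT F, ∀ ω, ptr F J ω = φ (f J F ω))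
    (_ : ∀ (J : ℕ) (F : Fam m J), ∃ φ : γ J F → ℕ, ∀ ω, F.T ω = φ (y J F ω))
    {e : ℝ} (Ψ : Fm2 m)
    (_ : ∀ (J : ℕ) (F : Fam m J) (A : F.Ω → Prop) (V C : Type) (z : PtT F → V) (z' : LnT F → V)
      (G₁ G₂ : V → MvPolynomial (Option (Fin m)) ℝ) (c : LnT F → C), Ψ J F A V C z z' G₁ G₂ c →
      (∀ v, (G₁ v).totalDegree ≤ K + 1) ∧ (∀ v, (G₂ v).totalDegree ≤ K + 1) ∧
      ∀ ω, A ω → z (ptr F J ω) = z' (slam F ⌊w * J⌋₊ ω))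
    (_ : ∀ (J : ℕ) (F : Fam m J) (A B : F.Ω → Prop) (V C : Type) (z : PtT F → V)
      (z' : LnT F → V) (G₁ G₂ : V → MvPolynomial (Option (Fin m)) ℝ) (c : LnT F → C), Sub B A →
      Ψ J F A V C z z' G₁ G₂ c → Ψ J F B V C z z' G₁ G₂ c) {N₁ N₂ : ℕ → ℝ},
    NwE (K + 2) Iu w p₁ α₁ q N₁ → NwE (K + 2) In w p₂ α₂ q N₂ →
    (∀ i₁ ∈ Iu, ∀ i₂ ∈ In, Ip2 S f a y Qu Ψ κ₁ κ₂ w (p₁ + α₁ * q - i₁ * w)
      (p₂ + α₂ * q - i₂ * w) i₁ i₂ e (δ * q)) →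
    Fw2 S f a y Qu Ψ (τ := fun _ _ _ C => C) (fun J F _ _ _ _ _ c ω => c (vg w J F ω)) e (δ * q) →
    Rw2 S Ψ κ₁ κ₂ w p₁ p₂ α₁ α₂ q h (δ * q) N₀ →
    Rw2 S Ψ.swap κ₂ κ₁ w p₂ p₁ α₂ α₁ q h (δ * q) N₀ →
    (∀ j ≤ K + 2, Fw2 S f a y Qu Ψ (τ := fun _ _ _ _ => ℤ)
      (fun J F _ _ z' G₁ _ _ ω => ⌊(2 : ℝ) ^ (N₁ j * J) * ojet F κ₁ j
        (G₁ (z' (slam F ⌊w * J⌋₊ ω))) ω⌋) e (δ * q)) →
    (∀ j ≤ K + 2, Fw2 S f a y Qu Ψ (τ := fun _ _ _ _ => ℤ)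
      (fun J F _ _ z' _ G₂ _ ω => ⌊(2 : ℝ) ^ (N₂ j * J) * ojet F κ₂ j
        (G₂ (z' (slam F ⌊w * J⌋₊ ω))) ω⌋) e (δ * q)) →
    Fw2 S f a y Qu Ψ (τ := fun _ F V C => (V × (F.ζ × ℕ)) × (C ×
        ((Fin (K + 3) → ℤ) × (Fin (K + 3) → ℤ))))
      (fun J F _ _ z' G₁ G₂ c ω => ((z' (vg w J F ω), (vg w J F ω).2), (c (vg w J F ω),
        (fun j : Fin (K + 3) => ⌊jr F ⌊w * J⌋₊ (2 ^ ((p₁ + α₁ * q) * J)) κ₁ z' G₁ j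
            (vg w J F ω)⌋,
          fun j : Fin (K + 3) => ⌊jr F ⌊w * J⌋₊ (2 ^ ((p₂ + α₂ * q) * J)) κ₂ z' G₂ j
            (vg w J F ω)⌋)))) e (ε * q) := by
  have hα₁ : 0 < α₁ := hα₂.trans hα
  by_cases hres : ∀ i ∈ Iu, ∀ j ∈ In, (i : ℝ) * α₂ ≠ j * α₁
  · obtain ⟨δ, hδ, N₀, hN₀, H⟩ := pair_rb K hu hn hα₁ hα₂ hres hh (hh2.trans hα.le) hh2 hε
    refine ⟨δ, hδ, N₀, hN₀, ?_⟩
    intro m S C₀ htm κ₁ κ₂ w a p₁ p₂ q hw0 hwa ha hq hwq hwq' U₀ Qu α γ f y hf hy e Ψ hΨl hΨ N₁ N₂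
      hN1 hN2 _ hc hr1 hr2 hj1 hj2
    exact H htm hw0 hwa ha hq hwq hf hy Ψ hΨl hΨ hN1 hN2 hc hr1 hr2 hj1 hj2
  · push Not at hres
    obtain ⟨i₁, hi₁, i₂, hi₂, -⟩ := hres
    have e1 : Iu = {i₁} := by
      have h1 := Finset.card_le_one_iff_subset_singleton.1 hu1
      obtain ⟨x, hx⟩ := h1
      have h2 := Finset.mem_singleton.1 (hx hi₁)
      rw [← h2] at hx
      exact Finset.Subset.antisymm hx (Finset.singleton_subset_iff.2 hi₁)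
    have e2 : In = {i₂} := by
      have h1 := Finset.card_le_one_iff_subset_singleton.1 hn1
      obtain ⟨x, hx⟩ := h1
      have h2 := Finset.mem_singleton.1 (hx hi₂)
      rw [← h2] at hx
      exact Finset.Subset.antisymm hx (Finset.singleton_subset_iff.2 hi₂)
    obtain ⟨δ, hδ, N₀, hN₀, H⟩ := lpk_rb K (hu i₁ hi₁) (hn i₂ hi₂) hα₂ hα hh hh2 hε
    refine ⟨δ, hδ, N₀, hN₀, ?_⟩
    intro m S C₀ htm κ₁ κ₂ w a p₁ p₂ q hw0 hwa ha hq hwq hwq' U₀ Qu α γ f y hf hy e Ψ hΨl hΨ N₁ N₂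
      hN1 hN2 hIp hc hr1 hr2 hj1 hj2
    rw [e1] at hN1
    rw [e2] at hN2
    exact H htm hw0 hwa ha hq hwq' hf hy Ψ hΨl hΨ hN1 hN2 (hIp i₁ hi₁ i₂ hi₂) hc hr1 hr2 hj1 hj2

end Pool.PN18
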