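import Pool.Agent.H18.PN.Stg0
import Pool.Agent.H18.PN.Uf1

/-!
# The jets of the place in a stage

`x1_end`: the jets of the place over the labels of the ball from its own path. `jet_tr`: jets over the
labels of one window from those of another window.
-/

set_option autoImplicit false

namespace Pool.PN18

open Finset Real MvPolynomial
open Pool.Agent.H49.Ent Pool.Agent.H32.Dense Pool.STK Pool.KA Pool.KSAT Pool.K2S Pool.PB Pool.GEN
open Pool.S6C Pool.RCD Pool.LA91 Pool.OWN68 Pool.AJW Pool.AJX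
open Pool.GRD (LbP)

/-- **The jets of the place over the labels of a finer window**, from its own path. -/
theorem x1_end (K : ℕ) {m : ℕ} {S : PCl m} {C₀ : ℝ} (htm : TmC S C₀) {c : ℕ → Fin m} {r₀ r : ℕ}
    {κ₂ : Fin m} {v w lam Q ρ g₀ : ℝ} {E p s n lv rd : ℕ → ℝ}
    (HW : JetX S c r₀ r v w lam Q ρ g₀ E p s n lv rd K)
    {U₀ : Type} {Qu : Qt m U₀} {α γ : ∀ J : ℕ, Fam m J → Type}
    {f : ∀ (J : ℕ) (F : Fam m J), F.Ω → α J F} {y : ∀ (J : ℕ) (F : Fam m J), F.Ω → γ J F}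
    (hf : ∀ (J : ℕ) (F : Fam m J), ∃ φ : α J F → PtT F, ∀ ω, ptr F J ω = φ (f J F ω))
    (hy : Kn ((range r₀).image c) (v + lam) lam y) {a e : ℝ} (hwa : w ≤ a) (ha : a ≤ 1)
    (he : 0 < e) (h8e : e ≤ ρ / 8) {Ψ : Fm2 m} {x₂ : ℝ}
    (hΨ : ∀ (J : ℕ) (F : Fam m J) (A : F.Ω → Prop) (V C : Type) (z : PtT F → V) (z' : LnT F → V)
      (G₁ G₂ : V → MvPolynomial (Option (Fin m)) ℝ) (cc : LnT F → C),
      Ψ J F A V C z z' G₁ G₂ cc → ∃ g : V → ℕ → MvPolynomial (Option (Fin m)) ℝ,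
        LbX F c r₀ (r + 1) K e E v rd p A z z' g ∧ G₁ = (fun v => g v r) ∧
        ∃ φ : C → (Fin m → ℤ × ℤ) × (ℕ → ℕ → ℤ), ∀ x,
          ctxN F c r₀ r ⌊v * J⌋₊ ⌊(v + lam) * J⌋₊ K z' g n x = φ (cc x))
    (hex : Bas S (fun J F A => ∃ (V C : Type) (z : PtT F → V) (z' : LnT F → V)
      (G₁ G₂ : V → MvPolynomial (Option (Fin m)) ℝ) (cc : LnT F → C),
      Ψ J F A V C z z' G₁ G₂ cc)) {η ε : ℝ} (hε : 0 < ε)
    (hF : Fw2 S f a y Qu Ψ (τ := fun _ F V C => (V × (F.ζ × ℕ)) × (C ×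
        ((Fin (K + 3) → ℤ) × (Fin (K + 3) → ℤ))))
      (fun J F _ _ z' G₁ G₂ cc ω => ((z' (vg v J F ω), (vg v J F ω).2), (cc (vg v J F ω),
        (fun j : Fin (K + 3) => ⌊jr F ⌊v * J⌋₊ (2 ^ ((p r + Q) * J)) (c r) z' G₁ j
            (vg v J F ω)⌋,
          fun j : Fin (K + 3) => ⌊jr F ⌊v * J⌋₊ (2 ^ (x₂ * J)) κ₂ z' G₂ j
            (vg v J F ω)⌋)))) e η) {j : ℕ} (hj : j < K + 2) {P₂ : ℝ} (hP₂ : p r ≤ P₂) :
    F1 S f (vg a) y Qu (qJet m ((range r).image c) (c r) (j + 1) w P₂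
        (p r + Q - (j + 1 : ℕ) * v)) e (η + ε) := by
  classical
  have hρ := HW.ρ0
  have hv0 := HW.v0
  have hvw := HW.vw
  intro K₀
  have hjop := jet_of_pthX K htm HW hf hy hwa ha hε he h8e K₀ hP₂ hj
  refine Bas.mono 0 (((hF K₀).and hjop).and (hex.and (Pool.GRW.tmc_bas htm one_pos))) ?_
  rintro J - F A ⟨⟨HPA, HNA⟩, ⟨V', C', zz, zz', G₁, G₂, cc, hΨ'⟩, hA, -⟩ u u' hu hu'
  obtain ⟨g, hlbg, hG1, φ, hφ⟩ := hΨ J F A V' C' zz zz' G₁ G₂ cc hΨ'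
  obtain ⟨V₁, z₁, hz₁, h1⟩ := HPA V' C' zz zz' G₁ G₂ cc hΨ' u hu
  obtain ⟨V₂, z₂, hz₂, h2⟩ := HNA V' zz zz' g hlbg u' hu'
  refine ⟨V₁ × V₂, fun ω => (z₁ ω, z₂ ω), hz₁.join hz₂, ?_⟩
  have hq'l : IsLaw (Pool.Agent.H49.Ent.cond F.p A True) := isLaw_cond F.isLaw hA
  have h0 := hq'l.nonneg
  have k1 : CH (Pool.Agent.H49.Ent.cond F.p A True)
      (fun ω => xpt c r₀ r K v lam (p r + Q) n J F V' zz' g ω)
      (fun ω => (u ω, ((z₁ ω, z₂ ω), y J F ω))) ≤ η * J := by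
    refine le_trans (CH_mono_cond h0 (W := fun ω => (u ω, (z₁ ω, y J F ω)))
      fun ω ω' _ _ hh => ?_) (le_trans (CH_mono_left h0 fun ω ω' _ _ hh => ?_) h1)
    · simp only [Prod.mk.injEq] at hh ⊢
      exact ⟨hh.1, hh.2.1.1, hh.2.2⟩
    · have e1 := (Prod.ext_iff.mp hh).1
      simp only [Prod.mk.injEq] at e1
      obtain ⟨⟨e2, e3⟩, e4, e5, -⟩ := e1
      unfold xpt
      refine Prod.ext (Prod.ext e2 e3) (Prod.ext ?_ ?_)
      · show ctxN F c r₀ r ⌊v * J⌋₊ ⌊(v + lam) * J⌋₊ K zz' g n (vg v J F ω) =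
          ctxN F c r₀ r ⌊v * J⌋₊ ⌊(v + lam) * J⌋₊ K zz' g n (vg v J F ω')
        rw [hφ, hφ, e4]
      · rw [hG1] at e5
        exact e5
  have k2 : CH (Pool.Agent.H49.Ent.cond F.p A True) u'
      (fun ω => (xpt c r₀ r K v lam (p r + Q) n J F V' zz' g ω,
        (u ω, ((z₁ ω, z₂ ω), y J F ω)))) ≤ ε * J := by
    refine le_trans (CH_mono_cond h0 fun ω ω' _ _ hh => ?_) h2
    simp only [Prod.mk.injEq] at hh ⊢
    exact ⟨hh.1, hh.2.2.1.2, hh.2.2.2⟩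
  have k3 := CH_le_add h0 u'
    (fun ω => xpt c r₀ r K v lam (p r + Q) n J F V' zz' g ω)
    (fun ω => (u ω, ((z₁ ω, z₂ ω), y J F ω)))
  have k4 : (η + ε) * J = η * J + ε * J := by ring
  linarith

/-- **Jets over the labels of one window from those of another window**, given the jets of the
chain. -/
theorem jet_tr {m : ℕ} {S : PCl m} {C₀ : ℝ} (htm : TmC S C₀) {c : ℕ → Fin m} {r₀ r : ℕ}
    {U₀ : Type} {Q : Qt m U₀} {α γ : ∀ J : ℕ, Fam m J → Type}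
    {f : ∀ (J : ℕ) (F : Fam m J), F.Ω → α J F} {y : ∀ (J : ℕ) (F : Fam m J), F.Ω → γ J F}
    {w u₁ : ℝ} {s rd p n lv : ℕ → ℝ} (hch : Chn S c r₀ r w w u₁ s rd) {k : Fin m} {j : ℕ}
    {v lam w₁ w₂ p₁ p₂ N σ : ℝ} (hvw : v ≤ w) (hw₁ : w₁ ≤ w) (hw₂ : w₂ ≤ w)
    (hwl : w < v + lam) (hl1 : v + lam ≤ 1) (hσ : 0 < σ)
    (hlv : ∀ i, r₀ ≤ i → i < r → 0 < lv i)
    (h1 : ∀ i, r₀ ≤ i → i < r → s i + lv i + σ ≤ n i)
    (h2 : ∀ i, r₀ ≤ i → i < r → s i + lv i + σ ≤ min (p i) (s i) + (v + lam - w))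
    (h2' : ∀ i, r₀ ≤ i → i < r → ∀ l, r₀ ≤ l → l < i →
      s i + lv i + σ ≤ min (p i) (s i) + lv l)
    (h3 : N + j * w + σ ≤ min p₁ p₂ + (v + lam - w))
    (h3' : ∀ l, r₀ ≤ l → l < r → N + j * w + σ ≤ min p₁ p₂ + lv l)
    (hf : ∀ (J : ℕ) (F : Fam m J), ∃ φ : α J F → PtT F, ∀ ω, ptr F J ω = φ (f J F ω))
    (hy' : Kn ((range r₀).image c) (v + lam) (v + lam - w) y) {e η η' h : ℝ} (he : e ≤ σ / 8)
    (hh : 0 < h)
    (he0 : 0 < e)
    (hexV : Exs S (qJets m c r₀ r j (fun _ _ => v) (fun l _ => p l)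
      (fun l j' => n l - (j' : ℕ) * v)))
    (hexJ : Exs S (qJet m ((range r).image c) k j w₁ p₁ N))
    (hV : F1 S f (vg w) y Q (qJets m c r₀ r j (fun _ _ => v) (fun l _ => p l)
      (fun l j' => n l - (j' : ℕ) * v)) e η)
    (hJ : F1 S f (vg w) y Q (qJet m ((range r).image c) k j w₁ p₁ N) e η') :
    F1 S f (vg w) y Q (qJet m ((range r).image c) k j w₂ p₂ N) e (η + η' + h) := by
  have hlam : 0 < v + lam - w := by linarith
  have hjv : ∀ j' : ℕ, (j' : ℝ) * v ≤ j' * w := fun j' =>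
    mul_le_mul_of_nonneg_left hvw (Nat.cast_nonneg j')
  have hmin : min (v + lam - w) (v + lam - w) = v + lam - w := min_self _
  have a3 : F1 S f (vg w) y
      ((qJets m c r₀ r j (fun _ _ => v) (fun l _ => p l) (fun l j' => n l - (j' : ℕ) * v)).prod
        (qJet m ((range r).image c) k j w₁ p₁ N))
      (qJet m ((range r).image c) k j w₂ p₂ N) e h := by
    refine (jetN_F1 htm hch (k := k) (lv := lv) (p₀ := v + lam) (lam := v + lam - w) (σ₀ := σ)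
      (wv := fun _ _ => v) (pv := fun l _ => p l) (Nv := fun l j' => n l - (j' : ℕ) * v)
      (fun _ _ _ _ _ => hvw) hw₁ hw₂ hwl hl1 hlam hσ hlv ?_ ?_ ?_ le_rfl ?_ ?_
      hf hy' hh).mono he le_rfl
    · intro l x y j' _
      linarith [h1 l x y, hjv j']
    · intro l x y j' _
      rw [hmin]
      exact h2 l x y
    · intro l x y j' _ l' x' y'
      exact h2' l x y l' x' y'
    · rw [hmin]
      exact h3
    · exact h3'
  have b1 : F1 S f (vg w) y (Q.prod (qJet m ((range r).image c) k j w₁ p₁ N))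
      (qJet m ((range r).image c) k j w₂ p₂ N) e (η + h) := by
    refine F1.cut htm hexV he0 (F1.pull htm (Q₁ := Q) (fun u => u.1) (fun _ _ _ _ _ _ hu => hu.1)
      hV)
      (F1.pull htm (Q₁ := (qJets m c r₀ r j (fun _ _ => v) (fun l _ => p l)
        (fun l j' => n l - (j' : ℕ) * v)).prod (qJet m ((range r).image c) k j w₁ p₁ N))
      (fun u => (u.2, u.1.2)) (fun _ _ _ _ _ _ hu => ⟨hu.2, hu.1.2⟩) a3)
  have b2 := F1.cut htm hexJ he0 hJ b1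
  refine b2.mono le_rfl (by linarith)

end Pool.PN18
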