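import Pool.Agent.H18.PN.Stg1
import Pool.Agent.H18.PN.Pyr

/-!
# Base labels with natural labels at all the windows of a list

`NzM`: the labels of the family `Ψ` over which there is a natural label at each window `X k`, `k < M`.
`nzm_cls`: they exist on all events of a subclass with the same record.
-/

set_option autoImplicit false

namespace Pool.PN18

open Finset Real MvPolynomial
open Pool.Agent.H49.Ent Pool.Agent.H32.Dense Pool.STK Pool.KA Pool.KSAT Pool.K2S Pool.PB Pool.GEN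
open Pool.S6C Pool.RCD Pool.LA91 Pool.OWN68 Pool.AJW Pool.AJX Pool.CHT Pool.PKG Pool.ALT
open Pool.V0F (her_extc)
open Pool.GRD (LbP)

/-- There is a natural label of the window `v` over the label `G₀`. -/
def NzAt {m : ℕ} (c : ℕ → Fin m) (r₀ : ℕ) (κ : Fin m) (K K₁ Ku : ℕ) (w v p₁ p₂ e u p : ℝ) {J : ℕ}
    (F : Fam m J) (A : F.Ω → Prop) {V₀ : Type} (z₀' : LnT F → V₀)
    (G₀ : V₀ → MvPolynomial (Option (Fin m)) ℝ) : Prop :=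
  ∃ (Va Y₁ Y₂ : Type) (za : PtT F → Va) (za' : LnT F → Va)
    (Ga : Va → MvPolynomial (Option (Fin m)) ℝ) (Q₁ : ℕ) (y₁ : PtT F → Y₁) (y₁' : LnT F → Y₁)
    (B₁ : Y₁ → MvPolynomial (Option (Fin m)) ℝ) (Q₂ : ℕ) (y₂ : PtT F → Y₂)
    (y₂' : LnT F → Y₂) (B₂ : Y₂ → MvPolynomial (Option (Fin m)) ℝ)
    (fa : Va → V₀ × (Y₁ × Y₂)),
    NzL c r₀ κ K K₁ Ku w v p₁ p₂ e u p F A za za' Ga z₀' G₀ Q₁ y₁ y₁' B₁ Q₂ y₂ y₂' B₂ fa

/-- **The labels of the family with natural labels at all the windows** of the list. -/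
def NzM {m : ℕ} (Ψ : Fml m) (c : ℕ → Fin m) (r₀ : ℕ) (κ : Fin m) (D : ℕ) (w : ℝ) (M : ℕ)
    (X p₁ p₂ e u p : ℕ → ℝ) : Fml m := fun J F A V z z' G =>
  Ψ J F A V z z' G ∧ ∀ k < M, NzAt c r₀ κ D D D w (X k) (p₁ k) (p₂ k) (e k) (u k) (p k) F A z' G

variable {m : ℕ} {Ψ : Fml m} {c : ℕ → Fin m} {r₀ : ℕ} {κ : Fin m} {D : ℕ} {w : ℝ} {M : ℕ}
  {X p₁ p₂ e u p : ℕ → ℝ}

theorem NzM.hs (hΨs : ∀ (J : ℕ) (F : Fam m J) (A B : F.Ω → Prop) (V : Type)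
      (z : PtT F → V) (z' : LnT F → V) (G : V → MvPolynomial (Option (Fin m)) ℝ), Sub B A →
      Ψ J F A V z z' G → Ψ J F B V z z' G) (J : ℕ) (F : Fam m J) (A B : F.Ω → Prop) (V : Type)
    (z : PtT F → V) (z' : LnT F → V) (G : V → MvPolynomial (Option (Fin m)) ℝ) (hB : Sub B A)
    (h : NzM Ψ c r₀ κ D w M X p₁ p₂ e u p J F A V z z' G) :
    NzM Ψ c r₀ κ D w M X p₁ p₂ e u p J F B V z z' G := by
  refine ⟨hΨs J F A B V z z' G hB h.1, fun k hk => ?_⟩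
  obtain ⟨Va, Y₁, Y₂, za, za', Ga, Q₁, y₁, y₁', B₁, Q₂, y₂, y₂', B₂, fa, h3⟩ := h.2 k hk
  exact ⟨Va, Y₁, Y₂, za, za', Ga, Q₁, y₁, y₁', B₁, Q₂, y₂, y₂', B₂, fa, h3.sub hB⟩

theorem _root_.Pool.ALT.NzO.of_le {S : PCl m} {Ψ' : Fml m} {K K₁ Ku : ℕ} {v q₁ q₂ e' u' p' : ℝ}
    (h : NzO S Ψ c r₀ κ K K₁ Ku w v q₁ q₂ e' u' p')
    (hle : ∀ (J : ℕ) (F : Fam m J) (A : F.Ω → Prop) (V : Type)
      (z : PtT F → V) (z' : LnT F → V) (G : V → MvPolynomial (Option (Fin m)) ℝ),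
      Ψ' J F A V z z' G → Ψ J F A V z z' G) :
    NzO S Ψ' c r₀ κ K K₁ Ku w v q₁ q₂ e' u' p' := by
  intro η hη
  refine Bas.mono 0 (h η hη) ?_
  rintro J - F A H V z z' G hG
  exact H V z z' G (hle J F A V z z' G hG)

/-- Natural labels of two windows of the list. -/
theorem NzM.nzq {J : ℕ} {F : Fam m J} {A : F.Ω → Prop} {V : Type}
    {z : PtT F → V} {z' : LnT F → V} {G : V → MvPolynomial (Option (Fin m)) ℝ}
    (h : NzM Ψ c r₀ κ D w M X p₁ p₂ e u p J F A V z z' G) {k l : ℕ} (hk : k < M) (hl : l < M) :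
    ∃ (Va : Type) (za : PtT F → Va) (za' : LnT F → Va)
      (Ga : Va → MvPolynomial (Option (Fin m)) ℝ),
      NzQ (NzM Ψ c r₀ κ D w M X p₁ p₂ e u p) c r₀ κ D D D D w (X k) (p₁ k) (p₂ k) (e k) (u k)
        (p k) (X l) (p₁ l) (p₂ l) (e l) (u l) (p l) J F A Va za za' Ga := by
  obtain ⟨Va, Y₁, Y₂, za, za', Ga, Q₁, y₁, y₁', B₁, Q₂, y₂, y₂', B₂, fa, h3⟩ := h.2 k hk
  exact ⟨Va, za, za', Ga, V, Y₁, Y₂, z, z', G, Q₁, y₁, y₁', B₁, Q₂, y₂, y₂', B₂, fa, h, h3,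
    h.2 l hl⟩

/-- **The labels with natural labels at all windows of the list** exist on all events of a subclass
with the same record. -/
theorem nzm_cls {S : PCl m} {al : ℝ} {g₀ : ℝ → ℝ}
    {P : List (Fin m) × Fin m → ℝ → ℝ → ℝ}
    {θ : ℝ} {P₂ : ℕ → List (Fin m) × Fin m → ℝ → ℝ → ℝ} {θ₂ Eb e₂ : ℕ → ℝ}
    {Pt : ℝ → ℝ → ℝ} {r : ℝ → ℝ} {hr K₀ g : ℝ} {L T : ℕ → ℝ → ℝ → ℝ}
    {Sl : ℕ → ℝ} {κg : ℕ → Kg} {G : Set ℝ} {S₀ N : ℕ} {A V : ℕ → ℝ} {S₂ N' : ℕ} {V' : ℕ → ℝ}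
    {K ε q t : ℝ}
    (Rc : RecG S al g₀ P θ P₂ θ₂ Eb e₂ c Pt r hr K₀ g L T Sl κg G S₀ N A V S₂ N' V' K ε q t)
    (hΨs : ∀ (J : ℕ) (F : Fam m J) (A B : F.Ω → Prop) (V : Type) (z : PtT F → V)
      (z' : LnT F → V) (G : V → MvPolynomial (Option (Fin m)) ℝ), Sub B A →
      Ψ J F A V z z' G → Ψ J F B V z z' G)
    (hex : Bas S (fun J F A => ∃ (V : Type) (z : PtT F → V) (z' : LnT F → V)
      (G : V → MvPolynomial (Option (Fin m)) ℝ), Ψ J F A V z z' G))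
    (hv : ∀ k < M, ∃ pκ pu E Eu uu : ℝ, AlW S c r₀ κ D (X k) pκ pu E Eu uu ∧ p₁ k < pκ ∧ p₂ k < pu)
    (hN : ∀ k < M, NzO S Ψ c r₀ κ D D D w (X k) (p₁ k) (p₂ k) (e k) (u k) (p k)) :
    ∃ S' : PCl m, S'.Ne ∧ (∀ (τ : ℝ) (J : ℕ) (F : Fam m J) (A : F.Ω → Prop),
        S'.St τ J F A → S.St τ J F A) ∧
      RecG S' al g₀ P θ P₂ θ₂ Eb e₂ c Pt r hr K₀ g L T Sl κg G S₀ N A V S₂ N' V' K ε q t ∧
      Bas S' (fun J F A => ∃ (V : Type) (z : PtT F → V) (z' : LnT F → V)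
        (G : V → MvPolynomial (Option (Fin m)) ℝ),
        NzM Ψ c r₀ κ D w M X p₁ p₂ e u p J F A V z z' G) := by
  classical
  induction M with
  | zero =>
    refine ⟨S, Rc.ne, fun _ _ _ _ h => h, Rc, Bas.mono 0 hex ?_⟩
    rintro J - F A ⟨V, z, z', G, hG⟩
    exact ⟨V, z, z', G, hG, fun k hk => absurd hk (Nat.not_lt_zero k)⟩
  | succ M ih =>
    obtain ⟨S₁, a1, a2, R₁, a3⟩ := ih (fun k hk => hv k (by omega)) (fun k hk => hN k (by omega))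
    obtain ⟨pκ, pu, E, Eu, uu, h1, h2, h3⟩ := hv M (Nat.lt_succ_self M)
    have hNz := ((hN M (Nat.lt_succ_self M)).sub a2).of_le
      (Ψ' := NzM Ψ c r₀ κ D w M X p₁ p₂ e u p) (fun J F A V z z' G h => h.1)
    obtain ⟨S₂', b1, b2, b3⟩ := her_extc (ι := Unit) a1 (fun _ J F A =>
        ∃ (V : Type) (z : PtT F → V) (z' : LnT F → V)
          (G : V → MvPolynomial (Option (Fin m)) ℝ),
          NzF (NzM Ψ c r₀ κ D w M X p₁ p₂ e u p) c r₀ κ D D D w (X M) (p₁ M) (p₂ M) (e M) (u M)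
            (p M) J F A V z z' G)
      (fun _ J F A B hB => by
        rintro ⟨V, z, z', G, hG⟩
        exact ⟨V, z, z', G, NzF.hs (NzM.hs hΨs) J F A B V z z' G hB hG⟩)
      (fun _ => ⟨8, nzf_ex hNz (NzM.hs hΨs) a3 ((h1.ch1 h2).sub a2) ((h1.ch2 h3).sub a2)⟩)
    refine ⟨S₂', b1, fun τ J F A h => a2 τ J F A (b2 τ J F A h), R₁.sub b1 b2,
      Bas.mono 0 (b3 ()) ?_⟩
    rintro J - F A ⟨Va, za, za', Ga, V₀, V₁, V₂, z₀, z₀', G₀, Q₁, z₁, z₁', G₁, Q₂, z₂, z₂', H, f,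
      k1, k2⟩
    refine ⟨V₀, z₀, z₀', G₀, k1.1, fun k hk => ?_⟩
    rcases Nat.lt_succ_iff_lt_or_eq.1 hk with h4 | h4
    · exact k1.2 k h4
    · rw [h4]
      exact ⟨Va, V₁, V₂, za, za', Ga, Q₁, z₁, z₁', G₁, Q₂, z₂, z₂', H, f, k2⟩

end Pool.PN18
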