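import Pool.Agent.H18.PN.Stg2

/-!
# The own paths of a jointly nonfull pair, two families

`lpk_rb2`, `pk_rb2`: `lpk_rb`, `pk_rb` for a family `Ψ` which is hereditary; (I') and the conclusion are
for the labels of a smaller family `Ψ'`, which need not be hereditary.
-/

set_option autoImplicit false

namespace Pool.PN18

open Finset Real MvPolynomial
open Pool.Agent.H49.Ent Pool.Agent.H32.Dense Pool.STK Pool.KA Pool.KSAT Pool.K2S Pool.PB Pool.GEN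
open Pool.S6C Pool.RCD Pool.LA91 Pool.OWN68 Pool.AJW
open Pool.GRD (LbP)
open Pool.LPK12

/-- `lpk_rb` with (I') for the labels of a smaller family `Ψ'`, which need not be hereditary. -/
theorem lpk_rb2 (K : ℕ) {i₁ i₂ : ℕ} (hi₁ : 1 ≤ i₁ ∧ i₁ ≤ K + 2) (hi₂ : 1 ≤ i₂ ∧ i₂ ≤ K + 2)
    {α₁ α₂ : ℝ} (hα₂ : 0 < α₂) (hα : α₂ < α₁) {h : ℝ} (hh : 0 < h) (hh2 : h ≤ α₂) {ε : ℝ}
    (hε : 0 < ε) :
    ∃ δ : ℝ, 0 < δ ∧ ∃ N₀ : ℕ, 0 < N₀ ∧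
    ∀ {m : ℕ} {S : PCl m} {C₀ : ℝ} (_ : TmC S C₀) {κ₁ κ₂ : Fin m} {w a p₁ p₂ q : ℝ} (_ : 0 ≤ w)
    (_ : w ≤ a) (_ : a ≤ 1) (_ : 0 < q) (_ : w + α₁ * q ≤ 1)
    {U₀ : Type} {Qu : Qt m U₀} {α γ : ∀ J : ℕ, Fam m J → Type}
    {f : ∀ (J : ℕ) (F : Fam m J), F.Ω → α J F} {y : ∀ (J : ℕ) (F : Fam m J), F.Ω → γ J F}
    (_ : ∀ (J : ℕ) (F : Fam m J), ∃ φ : α J F → PtT F, ∀ ω, ptr F J ω = φ (f J F ω))
    (_ : ∀ (J : ℕ) (F : Fam m J), ∃ φ : γ J F → ℕ, ∀ ω, F.T ω = φ (y J F ω))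
    {e : ℝ} (Ψ : Fm2 m)
    (_ : ∀ (J : ℕ) (F : Fam m J) (A : F.Ω → Prop) (V C : Type) (z : PtT F → V) (z' : LnT F → V)
      (G₁ G₂ : V → MvPolynomial (Option (Fin m)) ℝ) (c : LnT F → C), Ψ J F A V C z z' G₁ G₂ c →
      (∀ v, (G₁ v).totalDegree ≤ K + 1) ∧ (∀ v, (G₂ v).totalDegree ≤ K + 1) ∧
      ∀ ω, A ω → z (ptr F J ω) = z' (slam F ⌊w * J⌋₊ ω))
    (_ : ∀ (J : ℕ) (F : Fam m J) (A B : F.Ω → Prop) (V C : Type) (z : PtT F → V)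
      (z' : LnT F → V) (G₁ G₂ : V → MvPolynomial (Option (Fin m)) ℝ) (c : LnT F → C), Sub B A →
      Ψ J F A V C z z' G₁ G₂ c → Ψ J F B V C z z' G₁ G₂ c) {Ψ' : Fm2 m}
    (_ : ∀ (J : ℕ) (F : Fam m J) (A : F.Ω → Prop) (V C : Type) (z : PtT F → V)
      (z' : LnT F → V) (G₁ G₂ : V → MvPolynomial (Option (Fin m)) ℝ) (c : LnT F → C),
      Ψ' J F A V C z z' G₁ G₂ c → Ψ J F A V C z z' G₁ G₂ c) {N₁ N₂ : ℕ → ℝ},
    NwE (K + 2) {i₁} w p₁ α₁ q N₁ → NwE (K + 2) {i₂} w p₂ α₂ q N₂ →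
    Ip2 S f a y Qu Ψ' κ₁ κ₂ w (p₁ + α₁ * q - i₁ * w) (p₂ + α₂ * q - i₂ * w) i₁ i₂ e (δ * q) →
    Fw2 S f a y Qu Ψ (τ := fun _ _ _ C => C) (fun J F _ _ _ _ _ c ω => c (vg w J F ω)) e (δ * q) →
    Rw2 S Ψ κ₁ κ₂ w p₁ p₂ α₁ α₂ q h (δ * q) N₀ →
    Rw2 S Ψ.swap κ₂ κ₁ w p₂ p₁ α₂ α₁ q h (δ * q) N₀ →
    (∀ j ≤ K + 2, Fw2 S f a y Qu Ψ (τ := fun _ _ _ _ => ℤ)
      (fun J F _ _ z' G₁ _ _ ω => ⌊(2 : ℝ) ^ (N₁ j * J) * ojet F κ₁ j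
        (G₁ (z' (slam F ⌊w * J⌋₊ ω))) ω⌋) e (δ * q)) →
    (∀ j ≤ K + 2, Fw2 S f a y Qu Ψ (τ := fun _ _ _ _ => ℤ)
      (fun J F _ _ z' _ G₂ _ ω => ⌊(2 : ℝ) ^ (N₂ j * J) * ojet F κ₂ j
        (G₂ (z' (slam F ⌊w * J⌋₊ ω))) ω⌋) e (δ * q)) →
    Fw2 S f a y Qu Ψ' (τ := fun _ F V C => (V × (F.ζ × ℕ)) × (C ×
        ((Fin (K + 3) → ℤ) × (Fin (K + 3) → ℤ))))
      (fun J F _ _ z' G₁ G₂ c ω => ((z' (vg w J F ω), (vg w J F ω).2), (c (vg w J F ω),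
        (fun j : Fin (K + 3) => ⌊jr F ⌊w * J⌋₊ (2 ^ ((p₁ + α₁ * q) * J)) κ₁ z' G₁ j
            (vg w J F ω)⌋,
          fun j : Fin (K + 3) => ⌊jr F ⌊w * J⌋₊ (2 ^ ((p₂ + α₂ * q) * J)) κ₂ z' G₂ j
            (vg w J F ω)⌋)))) e (ε * q) := by
  classical
  obtain ⟨ε₁, hε₁⟩ : ∃ ε₁ : ℝ, ε₁ = ε / (2 * (K + 4)) := ⟨_, rfl⟩
  have hε10 : 0 < ε₁ := by
    rw [hε₁]
    positivity
  have hεe : 2 * (K + 4) * ε₁ = ε := by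
    rw [hε₁]
    field_simp
  obtain ⟨δ₁, hδ₁, c₀, hc₀, N₀, hN₀, H⟩ := lpk_ev (K + 2) hi₁ hi₂ hα₂ hα hh hh2 hε10
  obtain ⟨δ, hδe⟩ : ∃ δ : ℝ, δ = min δ₁ ε₁ := ⟨_, rfl⟩
  have hδ : 0 < δ := by
    rw [hδe]
    exact lt_min hδ₁ hε10
  have hd1 : δ ≤ δ₁ := by rw [hδe]; exact min_le_left _ _
  have hd2 : δ ≤ ε₁ := by rw [hδe]; exact min_le_right _ _
  refine ⟨δ, hδ, N₀, hN₀, ?_⟩
  intro m S C₀ htm κ₁ κ₂ w a p₁ p₂ q hw0 hwa ha hq hwq U₀ Qu α γ f y hf hy e Ψ hΨl hΨ Ψ' hle N₁ N₂ hN1 hN2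
    hIp hc hr1 hr2 hj1 hj2 K₀
  obtain ⟨J₁, H⟩ := H (w := w) (q := q) hw0 hq hwq
  have HR1 := hr1.ev hc₀ hΨ
  have HR2 := hr2.ev hc₀ (fun J F A B V C z z' G₁ G₂ c => hΨ J F A B V C z z' G₂ G₁ c)
  refine Bas.mono J₁ (((HR1.and HR2).and ((Bas.all (K + 3) fun j hj =>
    hj1 j (by omega) K₀).and (Bas.all (K + 3) fun j hj => hj2 j (by omega) K₀))).and
    (((hc K₀).and (hIp K₀)).and (Pool.GRW.tmc_bas htm (ψ := δ * q) (by positivity)))) ?_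
  rintro J hJ F A ⟨⟨⟨hR1, hR2⟩, hJ1, hJ2⟩, ⟨hcA, hIA⟩, hA, hT⟩ V Cc z z' G₁ G₂ c hcΨ' u₀ hu₀
  have hcΨ := hle J F A V Cc z z' G₁ G₂ c hcΨ'
  obtain ⟨hdg1, hdg2, hcls⟩ := hΨl J F A V Cc z z' G₁ G₂ c hcΨ
  obtain ⟨Vc, zc, hzc, hc⟩ := hcA V Cc z z' G₁ G₂ c hcΨ u₀ hu₀
  have hJ0 : (0 : ℝ) ≤ J := Nat.cast_nonneg J
  have hqJ : 0 ≤ q * J := by positivity
  have hw1 : w ≤ 1 := hwa.trans ha
  obtain ⟨W, hW⟩ : ∃ W : ℕ, W = ⌊w * J⌋₊ := ⟨_, rfl⟩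
  have hWJ : W ≤ J := by
    rw [hW]
    refine Nat.floor_le_of_le ?_
    nlinarith
  obtain ⟨q', hq'⟩ : ∃ q' : F.Ω → ℝ, q' = Pool.Agent.H49.Ent.cond F.p A True := ⟨_, rfl⟩
  have hq'l : IsLaw q' := by
    rw [hq']
    exact isLaw_cond F.isLaw hA
  have h0 := hq'l.nonneg
  have hvg : ∀ ω, vg w J F ω = slam F W ω := fun ω => by rw [hW]; rfl
  have hz1 : ∀ j : Fin (K + 3), ∃ (V₂ : Type) (z₂ : F.Ω → V₂), Cl2 (f J F) (vg a J F) A z₂ ∧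
      CH q' (fun ω => ⌊(2 : ℝ) ^ (N₁ j * J) * ojet F κ₁ j (G₁ (z' (slam F ⌊w * J⌋₊ ω))) ω⌋)
        (fun ω => (u₀ ω, (z₂ ω, y J F ω))) ≤ δ * q * J := by
    intro j
    rw [hq']
    exact hJ1 j j.2 V Cc z z' G₁ G₂ c hcΨ u₀ hu₀
  have hz2 : ∀ j : Fin (K + 3), ∃ (V₂ : Type) (z₂ : F.Ω → V₂), Cl2 (f J F) (vg a J F) A z₂ ∧
      CH q' (fun ω => ⌊(2 : ℝ) ^ (N₂ j * J) * ojet F κ₂ j (G₂ (z' (slam F ⌊w * J⌋₊ ω))) ω⌋)
        (fun ω => (u₀ ω, (z₂ ω, y J F ω))) ≤ δ * q * J := by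
    intro j
    rw [hq']
    exact hJ2 j j.2 V Cc z z' G₁ G₂ c hcΨ u₀ hu₀
  choose V1 z1 hz1 hC1 using hz1
  choose V2 z2 hz2 hC2 using hz2
  -- the record of the ball
  obtain ⟨Y, hY⟩ : ∃ Y : F.Ω → U₀ × ((V × (F.ζ × ℕ)) × (Vc × ((∀ j, V1 j) × (∀ j, V2 j)))) ×
      γ J F, Y = fun ω => (u₀ ω, ((z' (slam F W ω), (slam F W ω).2),
        (zc ω, (fun j => z1 j ω, fun j => z2 j ω))), y J F ω) := ⟨_, rfl⟩
  have hYc : CH q' (fun ω => c (slam F W ω)) Y ≤ δ * q * J := by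
    rw [← hq'] at hc
    simp only [hvg] at hc
    refine le_trans (CH_mono_cond h0 fun ω ω' _ _ hh => ?_) hc
    rw [hY] at hh
    simp only [Prod.mk.injEq] at hh ⊢
    exact ⟨hh.1, hh.2.1.2.1, hh.2.2⟩
  obtain ⟨φf, hφf⟩ := hf J F
  obtain ⟨φg, hφg⟩ := vg_mono hwa ha J F
  have hclo : Cl2 (f J F) (vg a J F) A (fun ω => ((z' (slam F W ω), (slam F W ω).2),
      (zc ω, (fun j => z1 j ω, fun j => z2 j ω)))) := by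
    refine Cl2.join ⟨?_, ?_⟩ (Cl2.join hzc (Cl2.join (Cl2.pi hz1) (Cl2.pi hz2)))
    · refine ⟨fun x => (z (φf x), ((φf x).2.2, (φf x).2.1 / 2 ^ (J - W))), fun ω hω => ?_⟩
      dsimp only
      have h1 := hcls ω hω
      rw [← hW] at h1
      rw [← hφf ω, h1]
      rfl
    · refine ⟨fun x => (z' (φg x), (φg x).2), fun ω _ => ?_⟩
      dsimp only
      rw [← hφg ω, hvg ω]
  have hIY := hIA V Cc z z' G₁ G₂ c hcΨ' u₀ hu₀ _ _ hclo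
  obtain ⟨φT, hφT⟩ := hy J F
  have key := H J hJ F A hA (κ₁ := κ₁) (κ₂ := κ₂) z' G₁ G₂ (fun x => (x.2, c x)) Y (p₁ := p₁)
    (p₂ := p₂) (N₁ := N₁) (N₂ := N₂)
    (fun v => (MvPolynomial.totalDegree_sub _ _).trans (max_le
      ((totalDegree_X _).le.trans (by omega)) ((hdg1 v).trans (by omega))))
    (fun v => (MvPolynomial.totalDegree_sub _ _).trans (max_le
      ((totalDegree_X _).le.trans (by omega)) ((hdg2 v).trans (by omega))))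
    (by
      have h1 : δ * q * J ≤ δ₁ * q * J := by
        have := mul_le_mul_of_nonneg_right hd1 hqJ
        linarith
      linarith)
    (fun ω ω' _ _ e => by
      rw [hY] at e
      simp only [Prod.mk.injEq] at e
      refine ⟨?_, (Prod.ext_iff.mp e.2.1.1.2).1⟩
      rw [hφT, hφT, e.2.2])
    (by
      rw [← hq', ← hW]
      have h1 : δ * q * J ≤ δ₁ * q * J := by
        have := mul_le_mul_of_nonneg_right hd1 hqJ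
        linarith
      refine le_trans (le_of_eq ?_) (hYc.trans h1)
      refine CH_congr h0 ?_ ?_ (fun _ _ _ _ e => e) (fun _ _ _ _ e => e)
      · intro ω ω' _ _ e
        simp only [Prod.mk.injEq] at e ⊢
        exact e.1.2.2
      · intro ω ω' _ _ e
        have e1 := (Prod.ext_iff.mp e).2
        rw [hY] at e1
        simp only [Prod.mk.injEq] at e e1 ⊢
        exact ⟨e1.2.1.1.1, e1.2.1.1.2, e.1⟩)
    hN1 hN2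
    (fun j hj => by
      rw [← hq']
      have h1 : δ * q * J ≤ δ₁ * q * J := by
        have := mul_le_mul_of_nonneg_right hd1 hqJ
        linarith
      refine le_trans (CH_mono_cond h0 fun ω ω' _ _ hh => ?_) ((hC1 ⟨j, by omega⟩).trans h1)
      rw [hY] at hh
      simp only [Prod.mk.injEq] at hh ⊢
      exact ⟨hh.1, congrFun hh.2.1.2.2.1 _, hh.2.2⟩)
    (fun j hj => by
      rw [← hq']
      have h1 : δ * q * J ≤ δ₁ * q * J := by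
        have := mul_le_mul_of_nonneg_right hd1 hqJ
        linarith
      refine le_trans (CH_mono_cond h0 fun ω ω' _ _ hh => ?_) ((hC2 ⟨j, by omega⟩).trans h1)
      rw [hY] at hh
      simp only [Prod.mk.injEq] at hh ⊢
      exact ⟨hh.1, congrFun hh.2.1.2.2.2 _, hh.2.2⟩)
    (by
      have h1 : δ * q * J ≤ δ₁ * q * J := by
        have := mul_le_mul_of_nonneg_right hd1 hqJ
        linarith
      refine le_trans ?_ (hIY.trans (le_trans (add_le_add_right h1 _) (add_le_add_left ?_ _)))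
      · refine CH_mono_cond (isLaw_cond F.isLaw hA).nonneg fun ω ω' _ _ e => ?_
        simp only [Prod.mk.injEq] at e ⊢
        exact ⟨e.1, e.2.1.2, e.2.2⟩
      · refine CH_mono_cond (isLaw_cond F.isLaw hA).nonneg fun ω ω' _ _ e => ?_
        rw [hY]
        obtain ⟨e1, e2⟩ := Prod.ext_iff.mp e
        obtain ⟨e3, e4⟩ := Prod.ext_iff.mp e1
        obtain ⟨e5, e6⟩ := Prod.ext_iff.mp e2
        obtain ⟨e7, e8⟩ := Prod.ext_iff.mp e6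
        have e9 := (Prod.ext_iff.mp (Prod.ext_iff.mp e7).1).2
        rw [hW] at e7 e9 ⊢
        exact Prod.ext (Prod.ext e3 (Prod.ext e9 e4)) (Prod.ext e5 (Prod.ext e7 e8)))
    (by
      intro B hB hm i j hij hj
      have h1 := hR1 V Cc z z' G₁ G₂ c hcΨ B hB hm i j hij hj
      have hPB : 0 < Pe F.p B := lt_of_lt_of_le (by positivity) hm
      have hBl : IsLaw (Pool.Agent.H49.Ent.cond F.p B True) := isLaw_cond F.isLaw hPB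
      refine (CH_mono_cond hBl.nonneg fun ω ω' _ _ e => ?_).trans (h1.trans ?_)
      · simp only [Prod.mk.injEq] at e ⊢
        exact ⟨e.1, e.2.1, e.2.2.1, e.2.2.2.1.2, e.2.2.2.2⟩
      · refine mul_le_mul_of_nonneg_right ?_ hJ0
        have : δ * q ≤ δ₁ * q := mul_le_mul_of_nonneg_right hd1 hq.le
        linarith)
    (by
      intro B hB hm i j hij hj
      have h1 := hR2 V Cc z z' G₂ G₁ c hcΨ B hB hm i j hij hj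
      have hPB : 0 < Pe F.p B := lt_of_lt_of_le (by positivity) hm
      have hBl : IsLaw (Pool.Agent.H49.Ent.cond F.p B True) := isLaw_cond F.isLaw hPB
      refine (CH_mono_cond hBl.nonneg fun ω ω' _ _ e => ?_).trans (h1.trans ?_)
      · simp only [Prod.mk.injEq] at e ⊢
        exact ⟨e.1, e.2.1, e.2.2.1, e.2.2.2.1.2, e.2.2.2.2⟩
      · refine mul_le_mul_of_nonneg_right ?_ hJ0
        have : δ * q ≤ δ₁ * q := mul_le_mul_of_nonneg_right hd1 hq.le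
        linarith)
  rw [← hq', ← hW] at key
  -- the end
  refine ⟨_, fun ω => ((z' (slam F W ω), (slam F W ω).2),
    (zc ω, (fun j => z1 j ω, fun j => z2 j ω))), hclo, ?_⟩
  · rw [← hq']
    simp only [hvg]
    rw [← hW]
    obtain ⟨X₁, hX₁⟩ : ∃ X₁ : F.Ω → Fin (K + 3) → ℤ, X₁ = fun ω (j : Fin (K + 3)) =>
      ⌊jr F W (2 ^ ((p₁ + α₁ * q) * J)) κ₁ z' G₁ j (slam F W ω)⌋ := ⟨_, rfl⟩
    obtain ⟨X₂, hX₂⟩ : ∃ X₂ : F.Ω → Fin (K + 3) → ℤ, X₂ = fun ω (j : Fin (K + 3)) =>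
      ⌊jr F W (2 ^ ((p₂ + α₂ * q) * J)) κ₂ z' G₂ j (slam F W ω)⌋ := ⟨_, rfl⟩
    have c1 : CH q' X₁ Y ≤ (K + 3) * (ε₁ * q * J) := by
      refine (CH_pis h0 X₁ _).trans ?_
      have h1 : ∀ j ∈ (univ : Finset (Fin (K + 3))), CH q' (fun ω => X₁ ω j) Y ≤ ε₁ * q * J := by
        intro j _
        rw [hX₁]
        exact (key j).1
      refine (Finset.sum_le_sum h1).trans (le_of_eq ?_)
      rw [Finset.sum_const, Finset.card_univ, Fintype.card_fin, nsmul_eq_mul]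
      push_cast
      ring
    have c2 : CH q' X₂ Y ≤ (K + 3) * (ε₁ * q * J) := by
      refine (CH_pis h0 X₂ _).trans ?_
      have h1 : ∀ j ∈ (univ : Finset (Fin (K + 3))), CH q' (fun ω => X₂ ω j) Y ≤ ε₁ * q * J := by
        intro j _
        rw [hX₂]
        exact (key j).2
      refine (Finset.sum_le_sum h1).trans (le_of_eq ?_)
      rw [Finset.sum_const, Finset.card_univ, Fintype.card_fin, nsmul_eq_mul]
      push_cast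
      ring
    have c3 := CH_subadd h0 X₁ X₂ Y
    have c4 := CH_subadd h0 (fun ω => c (slam F W ω)) (fun ω => (X₁ ω, X₂ ω)) Y
    have c5 : δ * q * J ≤ ε₁ * q * J := by
      have := mul_le_mul_of_nonneg_right hd2 hqJ
      linarith
    have c6 : ε * q * J = 2 * (K + 4) * (ε₁ * q * J) := by
      rw [← hεe]
      ring
    have c7 : 0 ≤ ε₁ * q * J := by positivity
    have c8 : CH q' (fun ω => (c (slam F W ω), (X₁ ω, X₂ ω))) Y ≤ ε * q * J := by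
      rw [c6]
      linarith
    rw [hY] at c8
    refine le_trans (CH_mono_left h0 fun ω ω' _ _ e => ?_) c8
    obtain ⟨e1, e2⟩ := Prod.ext_iff.mp e
    have e5 := (Prod.ext_iff.mp (Prod.ext_iff.mp (Prod.ext_iff.mp e2).2).1).1
    rw [hX₁, hX₂] at e1
    exact Prod.ext e5 e1

/-- Fewer labels. -/
theorem Fw2.le {m : ℕ} {S : PCl m} {α γ : ∀ J : ℕ, Fam m J → Type}
    {f : ∀ (J : ℕ) (F : Fam m J), F.Ω → α J F} {a : ℝ}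
    {y : ∀ (J : ℕ) (F : Fam m J), F.Ω → γ J F} {U₀ : Type} {Qu : Qt m U₀} {Ψ Ψ' : Fm2 m}
    {τ : ∀ (J : ℕ) (_ : Fam m J), Type → Type → Type}
    {X : ∀ (J : ℕ) (F : Fam m J) (V C : Type), (LnT F → V) →
      (V → MvPolynomial (Option (Fin m)) ℝ) → (V → MvPolynomial (Option (Fin m)) ℝ) →
      (LnT F → C) → F.Ω → τ J F V C} {e δ : ℝ}
    (hle : ∀ (J : ℕ) (F : Fam m J) (A : F.Ω → Prop) (V C : Type) (z : PtT F → V)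
      (z' : LnT F → V) (G₁ G₂ : V → MvPolynomial (Option (Fin m)) ℝ) (c : LnT F → C),
      Ψ' J F A V C z z' G₁ G₂ c → Ψ J F A V C z z' G₁ G₂ c)
    (h : Fw2 S f a y Qu Ψ X e δ) : Fw2 S f a y Qu Ψ' X e δ := fun K₀ =>
  Bas.mono 0 (h K₀) fun J _ F A H V C z z' G₁ G₂ c hΨ =>
    H V C z z' G₁ G₂ c (hle J F A V C z z' G₁ G₂ c hΨ)

/-- **The own paths of a jointly nonfull pair of labels**, at most one alive order on each path; (I')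
and the conclusion for the labels of a smaller family. -/
theorem pk_rb2 (K : ℕ) {Iu In : Finset ℕ} (hu : ∀ i ∈ Iu, 1 ≤ i ∧ i ≤ K + 2)
    (hn : ∀ j ∈ In, 1 ≤ j ∧ j ≤ K + 2) (hu1 : Iu.card ≤ 1) (hn1 : In.card ≤ 1) {α₁ α₂ : ℝ}
    (hα₂ : 0 < α₂) (hα : α₂ < α₁) {h : ℝ} (hh : 0 < h) (hh2 : h ≤ α₂) {ε : ℝ} (hε : 0 < ε) :
    ∃ δ : ℝ, 0 < δ ∧ ∃ N₀ : ℕ, 0 < N₀ ∧
    ∀ {m : ℕ} {S : PCl m} {C₀ : ℝ} (_ : TmC S C₀) {κ₁ κ₂ : Fin m} {w a p₁ p₂ q : ℝ} (_ : 0 ≤ w)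
    (_ : w ≤ a) (_ : a ≤ 1) (_ : 0 < q) (_ : w + 2 * (α₁ + α₂) * q ≤ 1)
    {U₀ : Type} {Qu : Qt m U₀} {α γ : ∀ J : ℕ, Fam m J → Type}
    {f : ∀ (J : ℕ) (F : Fam m J), F.Ω → α J F} {y : ∀ (J : ℕ) (F : Fam m J), F.Ω → γ J F}
    (_ : ∀ (J : ℕ) (F : Fam m J), ∃ φ : α J F → PtT F, ∀ ω, ptr F J ω = φ (f J F ω))
    (_ : ∀ (J : ℕ) (F : Fam m J), ∃ φ : γ J F → ℕ, ∀ ω, F.T ω = φ (y J F ω))
    {e : ℝ} (Ψ : Fm2 m)
    (_ : ∀ (J : ℕ) (F : Fam m J) (A : F.Ω → Prop) (V C : Type) (z : PtT F → V) (z' : LnT F → V)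
      (G₁ G₂ : V → MvPolynomial (Option (Fin m)) ℝ) (c : LnT F → C), Ψ J F A V C z z' G₁ G₂ c →
      (∀ v, (G₁ v).totalDegree ≤ K + 1) ∧ (∀ v, (G₂ v).totalDegree ≤ K + 1) ∧
      ∀ ω, A ω → z (ptr F J ω) = z' (slam F ⌊w * J⌋₊ ω))
    (_ : ∀ (J : ℕ) (F : Fam m J) (A B : F.Ω → Prop) (V C : Type) (z : PtT F → V)
      (z' : LnT F → V) (G₁ G₂ : V → MvPolynomial (Option (Fin m)) ℝ) (c : LnT F → C), Sub B A →
      Ψ J F A V C z z' G₁ G₂ c → Ψ J F B V C z z' G₁ G₂ c) {Ψ' : Fm2 m}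
    (_ : ∀ (J : ℕ) (F : Fam m J) (A : F.Ω → Prop) (V C : Type) (z : PtT F → V)
      (z' : LnT F → V) (G₁ G₂ : V → MvPolynomial (Option (Fin m)) ℝ) (c : LnT F → C),
      Ψ' J F A V C z z' G₁ G₂ c → Ψ J F A V C z z' G₁ G₂ c) {N₁ N₂ : ℕ → ℝ},
    NwE (K + 2) Iu w p₁ α₁ q N₁ → NwE (K + 2) In w p₂ α₂ q N₂ →
    (∀ i₁ ∈ Iu, ∀ i₂ ∈ In, (i₁ : ℝ) * α₂ = i₂ * α₁ → Ip2 S f a y Qu Ψ' κ₁ κ₂ w
      (p₁ + α₁ * q - i₁ * w) (p₂ + α₂ * q - i₂ * w) i₁ i₂ e (δ * q)) →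
    Fw2 S f a y Qu Ψ (τ := fun _ _ _ C => C) (fun J F _ _ _ _ _ c ω => c (vg w J F ω)) e (δ * q) →
    Rw2 S Ψ κ₁ κ₂ w p₁ p₂ α₁ α₂ q h (δ * q) N₀ →
    Rw2 S Ψ.swap κ₂ κ₁ w p₂ p₁ α₂ α₁ q h (δ * q) N₀ →
    (∀ j ≤ K + 2, Fw2 S f a y Qu Ψ (τ := fun _ _ _ _ => ℤ)
      (fun J F _ _ z' G₁ _ _ ω => ⌊(2 : ℝ) ^ (N₁ j * J) * ojet F κ₁ j
        (G₁ (z' (slam F ⌊w * J⌋₊ ω))) ω⌋) e (δ * q)) →
    (∀ j ≤ K + 2, Fw2 S f a y Qu Ψ (τ := fun _ _ _ _ => ℤ)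
      (fun J F _ _ z' _ G₂ _ ω => ⌊(2 : ℝ) ^ (N₂ j * J) * ojet F κ₂ j
        (G₂ (z' (slam F ⌊w * J⌋₊ ω))) ω⌋) e (δ * q)) →
    Fw2 S f a y Qu Ψ' (τ := fun _ F V C => (V × (F.ζ × ℕ)) × (C ×
        ((Fin (K + 3) → ℤ) × (Fin (K + 3) → ℤ))))
      (fun J F _ _ z' G₁ G₂ c ω => ((z' (vg w J F ω), (vg w J F ω).2), (c (vg w J F ω),
        (fun j : Fin (K + 3) => ⌊jr F ⌊w * J⌋₊ (2 ^ ((p₁ + α₁ * q) * J)) κ₁ z' G₁ j
            (vg w J F ω)⌋,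
          fun j : Fin (K + 3) => ⌊jr F ⌊w * J⌋₊ (2 ^ ((p₂ + α₂ * q) * J)) κ₂ z' G₂ j
            (vg w J F ω)⌋)))) e (ε * q) := by
  have hα₁ : 0 < α₁ := hα₂.trans hα
  by_cases hres : ∀ i ∈ Iu, ∀ j ∈ In, (i : ℝ) * α₂ ≠ j * α₁
  · obtain ⟨δ, hδ, N₀, hN₀, H⟩ := pair_rb K hu hn hα₁ hα₂ hres hh (hh2.trans hα.le) hh2 hε
    refine ⟨δ, hδ, N₀, hN₀, ?_⟩
    intro m S C₀ htm κ₁ κ₂ w a p₁ p₂ q hw0 hwa ha hq hwq U₀ Qu α γ f y hf hy e Ψ hΨl hΨ Ψ' hle N₁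
      N₂ hN1 hN2 _ hc hr1 hr2 hj1 hj2
    exact (H htm hw0 hwa ha hq hwq hf hy Ψ hΨl hΨ hN1 hN2 hc hr1 hr2 hj1 hj2).le hle
  · push Not at hres
    obtain ⟨i₁, hi₁, i₂, hi₂, hir⟩ := hres
    have e1 : Iu = {i₁} := by
      obtain ⟨x, hx⟩ := Finset.card_le_one_iff_subset_singleton.1 hu1
      have h2 := Finset.mem_singleton.1 (hx hi₁)
      rw [← h2] at hx
      exact Finset.Subset.antisymm hx (Finset.singleton_subset_iff.2 hi₁)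
    have e2 : In = {i₂} := by
      obtain ⟨x, hx⟩ := Finset.card_le_one_iff_subset_singleton.1 hn1
      have h2 := Finset.mem_singleton.1 (hx hi₂)
      rw [← h2] at hx
      exact Finset.Subset.antisymm hx (Finset.singleton_subset_iff.2 hi₂)
    obtain ⟨δ, hδ, N₀, hN₀, H⟩ := lpk_rb2 K (hu i₁ hi₁) (hn i₂ hi₂) hα₂ hα hh hh2 hε
    refine ⟨δ, hδ, N₀, hN₀, ?_⟩
    intro m S C₀ htm κ₁ κ₂ w a p₁ p₂ q hw0 hwa ha hq hwq U₀ Qu α γ f y hf hy e Ψ hΨl hΨ Ψ' hle N₁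
      N₂ hN1 hN2 hIp hc hr1 hr2 hj1 hj2
    rw [e1] at hN1
    rw [e2] at hN2
    refine H htm hw0 hwa ha hq ?_ hf hy Ψ hΨl hΨ hle hN1 hN2 (hIp i₁ hi₁ i₂ hi₂ hir) hc hr1 hr2 hj1
      hj2
    have h1 : 0 < α₁ * q := mul_pos hα₁ hq
    have h2 : 0 < α₂ * q := mul_pos hα₂ hq
    linarith only [hwq, h1, h2]

end Pool.PN18
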