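import Pool.Agent.H18.PN.Stg5
import Pool.Agent.H63.JAB.Fwj
import Pool.Agent.H80.PN.Dfk

/-!
# The jets of the last coordinate over the labels of one early window

`JEx`: on all events there is a label of the window `vn` whose jet is few bits. `JEx.f1`: then the jets
over all labels of `vn` are few bits, given the near jets of the chain. `jex_of_fw`: `JEx` from the jets
over the labels of a family of pairs of a later window. `fw_of_f1`: the converse.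
-/

set_option autoImplicit false

namespace Pool.PN18

open Finset Real MvPolynomial
open Pool.Agent.H49.Ent Pool.Agent.H32.Dense Pool.STK Pool.KA Pool.KSAT Pool.K2S Pool.PB Pool.GEN
open Pool.S6C Pool.RCD Pool.LA91 Pool.OWN68 Pool.AJW Pool.AJX Pool.CHT
open Pool.GRD (LbP)
open Pool.ALT (Fml DpI)

/-- **On all events there is a label of the window `v` whose jet is few bits.** -/
def JEx {m : ℕ} (S : PCl m) {α γ : ∀ J : ℕ, Fam m J → Type}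
    (f : ∀ (J : ℕ) (F : Fam m J), F.Ω → α J F) (a : ℝ)
    (y : ∀ (J : ℕ) (F : Fam m J), F.Ω → γ J F) {U₀ : Type} (Qu : Qt m U₀) (I : Finset (Fin m))
    (κ : Fin m) (D : ℕ) (E R v p : ℝ) (j : ℕ) (N e η : ℝ) : Prop :=
  ∀ K₀ : ℕ, Bas S (fun J F A => ∃ (V : Type) (z : PtT F → V) (z' : LnT F → V)
    (G : V → MvPolynomial (Option (Fin m)) ℝ),
    LbOK F I κ D ⌊E * J⌋₊ J ⌊v * J⌋₊ ⌊R * J⌋₊ ⌊(p - e) * J⌋₊ A z z' G ∧
    ∀ u₀ : F.Ω → U₀, Qu.P K₀ e J F A u₀ →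
    ∃ (V₁ : Type) (z₁ : F.Ω → V₁), Cl2 (f J F) (vg a J F) A z₁ ∧
      CH (Pool.Agent.H49.Ent.cond F.p A True)
        (fun ω => ⌊(2 : ℝ) ^ (N * J) * ojet F κ j (G (z' (slam F ⌊v * J⌋₊ ω))) ω⌋)
        (fun ω => (u₀ ω, (z₁ ω, y J F ω))) ≤ η * J)

/-- The count of the jets, any exponents. -/
theorem cnt_jetX (m K j : ℕ) (N E R w : ℝ) : ∃ M J₁ : ℕ, ∀ J ≥ J₁,
    ∀ (F : Fam m J) (I : Finset (Fin m)) (k : Fin m) (P : ℕ) (A : F.Ω → Prop) (V : Type)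
      (z : PtT F → V) (z' : LnT F → V) (G : V → MvPolynomial (Option (Fin m)) ℝ),
      LbOK F I k K ⌊E * J⌋₊ J ⌊w * J⌋₊ ⌊R * J⌋₊ P A z z' G →
      (cnt F.p (fun ω => ⌊(2 : ℝ) ^ (N * J) *
        ojet F k j (G (z' (slam F ⌊w * J⌋₊ ω))) ω⌋) A : ℝ) ≤ Real.exp (M * J) := by
  obtain ⟨M, J₁, h⟩ := cnt_jet m K j (N := N) (w := w) (r := 0) (e := |E| + |R| + 1) le_rfl
    (by positivity)
  refine ⟨M, J₁, fun J hJ F I k P A V z z' G hlb => ?_⟩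
  have hJ0 : (0 : ℝ) ≤ J := Nat.cast_nonneg J
  have h1 := le_abs_self E
  have h2 := le_abs_self R
  have h3 := abs_nonneg E
  have h4 := abs_nonneg R
  exact h J hJ F I k P A V z z' G (hlb.mono (Finset.Subset.refl _) le_rfl
    (Nat.floor_le_floor (mul_le_mul_of_nonneg_right (by linarith only [h1, h4]) hJ0))
    (Nat.floor_le_floor (mul_le_mul_of_nonneg_right (by linarith only [h2, h3]) hJ0)) le_rfl)

section

variable {m : ℕ} {S : PCl m} {C₀ : ℝ} {α γ : ∀ J : ℕ, Fam m J → Type} {U₀ : Type}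
  {f : ∀ (J : ℕ) (F : Fam m J), F.Ω → α J F} {y : ∀ (J : ℕ) (F : Fam m J), F.Ω → γ J F}
  {Qu : Qt m U₀} {a : ℝ}

/-- **The jets over all labels of the window `v`** from those of one label on each event, given the
near jets of the chain. -/
theorem JEx.f1 (htm : TmC S C₀) {c : ℕ → Fin m} {r₀ r : ℕ} {v u₁ : ℝ} {s rd : ℕ → ℝ}
    (hch : Chn S c r₀ r v v u₁ s rd) {k : Fin m} {D j : ℕ} {E R p N e e₁ σ lam η η' h : ℝ}
    {lv : ℕ → ℝ} {Nv : ℕ → ℕ → ℝ}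
    (hE : JEx S f a y Qu ((range r).image c) k D E R v p j N e η')
    (hva : v ≤ a) (ha : a ≤ 1) (hσ : 0 < σ) (hlam : 0 < lam) (hl1 : v + lam ≤ 1)
    (hlv : ∀ l, r₀ ≤ l → l < r → 0 < lv l)
    (h1 : ∀ l, r₀ ≤ l → l < r → ∀ j' ≤ j, s l + lv l + σ ≤ Nv l j' + (j' : ℕ) * v)
    (h2 : ∀ l, r₀ ≤ l → l < r → lv l + σ ≤ lam)
    (h3 : ∀ l, r₀ ≤ l → l < r → ∀ l', r₀ ≤ l' → l' < l → lv l + σ ≤ lv l')
    (h4 : N + j * v + σ ≤ p + lam)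
    (h5 : ∀ l, r₀ ≤ l → l < r → N + j * v + σ ≤ p + lv l)
    (hf : ∀ (J : ℕ) (F : Fam m J), ∃ φ : α J F → PtT F, ∀ ω, ptr F J ω = φ (f J F ω))
    (hy : Kn ((range r₀).image c) (v + lam) lam y) (he : 0 < e) (hee : e ≤ e₁) (heσ : e ≤ σ / 8)
    (hh : 0 < h)
    (hex : Exs S (qJets m c r₀ r j (fun _ _ => v) (fun l _ => s l) Nv))
    (hV : F1 S f (vg a) y Qu (qJets m c r₀ r j (fun _ _ => v) (fun l _ => s l) Nv) e₁ η) :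
    F1 S f (vg a) y Qu (qJet m ((range r).image c) k j v p N) e (η + η' + h) := by
  have hw1 : v < 1 := hch.u0
  have hmin : min lam (v + lam - v) = lam := by
    have e1 : v + lam - v = lam := by ring
    rw [e1, min_self]
  have a3 : F1 S f (vg a) y
      ((qJets m c r₀ r j (fun _ _ => v) (fun l _ => s l) Nv).prod
        (qJet m ((range r).image c) k j v p N))
      (qJet m ((range r).image c) k j v p N) e h := by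
    refine (F1.up hva ha (jetN_F1 htm hch (k := k) (lv := lv) (p₀ := v + lam) (lam := lam)
      (σ₀ := σ) (wv := fun _ _ => v) (pv := fun l _ => s l) (Nv := Nv)
      (fun _ _ _ _ _ => le_rfl) le_rfl le_rfl (by linarith only [hlam]) hl1 hlam hσ hlv h1 ?_ ?_
      le_rfl ?_ ?_ hf hy hh)).mono heσ le_rfl
    · intro l x y j' _
      rw [hmin, min_self]
      linarith only [h2 l x y]
    · intro l x y j' _ l' x' y'
      rw [min_self]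
      linarith only [h3 l x y l' x' y']
    · rw [hmin, min_self]
      exact h4
    · intro l x y
      rw [min_self]
      exact h5 l x y
  have b1 : F1 S f (vg a) y (Qu.prod (qJet m ((range r).image c) k j v p N))
      (qJet m ((range r).image c) k j v p N) e (η + h) := by
    refine F1.cut htm hex he (F1.pull htm (Q₁ := Qu) (fun u => u.1) (fun _ _ _ _ _ _ hu => hu.1)
      (hV.mono hee le_rfl))
      (F1.pull htm (Q₁ := (qJets m c r₀ r j (fun _ _ => v) (fun l _ => s l) Nv).prod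
        (qJet m ((range r).image c) k j v p N))
      (fun u => (u.2, u.1.2)) (fun _ _ _ _ _ _ hu => ⟨hu.2, hu.1.2⟩) a3)
  obtain ⟨M, J₁, hcnt⟩ := cnt_jetX m D j N E R v
  intro K
  refine Bas.mono J₁ (((b1 (K + D + M)).and (hE (K + D + M))).and
    (Pool.GRW.tmc_bas htm one_pos)) ?_
  rintro J hJ F A ⟨⟨H, V, z, z', G, hG, HG⟩, hA, -⟩ u u' hu hu'
  have hcl := isLaw_cond F.isLaw hA
  have h0 := hcl.nonneg
  obtain ⟨V₁, z₁, hz₁, g1⟩ := HG u (Qu.mono (by omega) le_rfl hu)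
  obtain ⟨w, hw⟩ : ∃ w : F.Ω → ℤ, w = fun ω =>
    ⌊(2 : ℝ) ^ (N * J) * ojet F k j (G (z' (slam F ⌊v * J⌋₊ ω))) ω⌋ := ⟨_, rfl⟩
  have hwP : (qJet m ((range r).image c) k j v p N).P (K + D + M) e J F A w := by
    refine ⟨?_, V, z, z', G, (LbP.of hG).mono (Finset.Subset.refl _) (by omega) le_rfl,
      fun ω _ => by rw [hw]⟩
    rw [hw]
    refine (hcnt J hJ F _ k _ A V z z' G hG).trans (Real.exp_le_exp.2
      (mul_le_mul_of_nonneg_right ?_ (Nat.cast_nonneg J)))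
    exact_mod_cast (by omega : M ≤ K + D + M)
  obtain ⟨V₂, z₂, hz₂, g2⟩ := H (fun ω => (u ω, w ω)) u' ⟨Qu.mono (by omega) le_rfl hu, hwP⟩
    ((qJet m _ _ _ _ _ _).mono (by omega) le_rfl hu')
  refine ⟨V₁ × V₂, fun ω => (z₁ ω, z₂ ω), hz₁.join hz₂, ?_⟩
  rw [← hw] at g1
  have k1 : CH (Pool.Agent.H49.Ent.cond F.p A True) w
      (fun ω => (u ω, ((z₁ ω, z₂ ω), y J F ω))) ≤ η' * J := by
    refine le_trans (CH_mono_cond h0 fun ω ω' _ _ hh => ?_) g1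
    simp only [Prod.mk.injEq] at hh ⊢
    exact ⟨hh.1, hh.2.1.1, hh.2.2⟩
  have k2 : CH (Pool.Agent.H49.Ent.cond F.p A True) u'
      (fun ω => (w ω, (u ω, ((z₁ ω, z₂ ω), y J F ω)))) ≤ (η + h) * J := by
    refine le_trans (CH_mono_cond h0 fun ω ω' _ _ hh => ?_) g2
    simp only [Prod.mk.injEq] at hh ⊢
    exact ⟨⟨hh.2.1, hh.1⟩, hh.2.2.1.2, hh.2.2.2⟩
  have k3 := CH_le_add h0 u' w (fun ω => (u ω, ((z₁ ω, z₂ ω), y J F ω)))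
  have k4 : (η + η' + h) * J = η' * J + (η + h) * J := by ring
  rw [k4]
  linarith only [k1, k2, k3]

variable {Ψ : Fm2 m} {I₁ I₂ : Finset (Fin m)} {k κ₂ : Fin m}

/-- **The jet of the base label** from the jets over the labels of a family of pairs. -/
theorem jex_of_fw (htm : TmC S C₀) (hk : k ∈ I₁) {K K₁ j : ℕ}
    {vn v E₂ r₂ p₂ En Rn Pn P N e e' η₂ η₃ δ : ℝ} (he : 0 < e) (hee : 2 * e ≤ e') (hP0 : e' ≤ P)
    (hP : P ≤ Pn) (hP' : P ≤ p₂) (hδ : 0 < δ)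
    (hF : F1 S f (vg a) y Qu (qJet m I₁ k j v P N) e' η₃)
    (hlb : ∀ (J : ℕ) (F : Fam m J) (A : F.Ω → Prop) (V C : Type) (z : PtT F → V) (z' : LnT F → V)
      (G₁ G₂ : V → MvPolynomial (Option (Fin m)) ℝ) (cc : LnT F → C),
      Ψ J F A V C z z' G₁ G₂ cc →
      LbOK F I₂ κ₂ K ⌊E₂ * J⌋₊ J ⌊v * J⌋₊ ⌊r₂ * J⌋₊ ⌊(p₂ - e) * J⌋₊ A z z' G₂)
    (hD : Dcp2 Ψ I₁ I₂ κ₂ K₁ vn v En Rn Pn e)
    (hex : Bas S (fun J F A => ∃ (V C : Type) (z : PtT F → V) (z' : LnT F → V)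
      (G₁ G₂ : V → MvPolynomial (Option (Fin m)) ℝ) (cc : LnT F → C), Ψ J F A V C z z' G₁ G₂ cc))
    (hG : Fw2 S f a y Qu Ψ (τ := fun _ _ _ _ => ℤ)
      (fun J F _ _ z' _ G₂ _ ω => ⌊(2 : ℝ) ^ (N * J) * ojet F κ₂ j
        (G₂ (z' (slam F ⌊v * J⌋₊ ω))) ω⌋) e η₂) :
    JEx S f a y Qu I₂ κ₂ K₁ En Rn vn Pn j N e (η₂ + (η₃ + δ)) := by
  intro K₀
  refine Bas.mono 0 (((hG K₀).and (dif_key (κ₂ := κ₂) (I₂ := I₂) (K := K₁) (K' := K) (K₁ := K₁)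
    (v := vn) (v' := v) (E := En) (E' := E₂) (R := Rn) (R' := r₂) htm hk he hee hP0 hP hP' hδ hF
    K₀)).and (hex.and (Pool.GRW.tmc_bas htm one_pos))) ?_
  rintro J - F A ⟨⟨HG, HD⟩, ⟨V, C, z, z', G₁, G₂, cc, hΨ⟩, hA, -⟩
  obtain ⟨V₀, z₀, z₀', G₀, H, h1, h2, h3, h4⟩ := hD J F A V C z z' G₁ G₂ cc hΨ
  have hl := hlb J F A V C z z' G₁ G₂ cc hΨ
  refine ⟨V₀, z₀, z₀', G₀, h1, fun u₀ hu₀ => ?_⟩
  have h0 := (isLaw_cond F.isLaw hA).nonneg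
  obtain ⟨V₁, z₁, hz₁, g1⟩ := HG V C z z' G₁ G₂ cc hΨ u₀ hu₀
  obtain ⟨V₂, z₂, hz₂, g2⟩ := HD V₀ V V z₀ z₀' G₀ z z' G₂ z z' (fun b => - H b) h1 hl hl.cls
    (fun b => by rw [totalDegree_neg]; exact h2 b)
    (fun b x x' h5 h6 => by rw [map_neg, map_neg, h3 b x x' h5 h6])
    (fun ω hω => by
      rw [h4 ω hω]
      ring) u₀ hu₀
  refine ⟨V₁ × V₂, fun ω => (z₁ ω, z₂ ω), hz₁.join hz₂, ?_⟩
  obtain ⟨w, hw⟩ : ∃ w : F.Ω → ℤ, w = fun ω =>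
    ⌊(2 : ℝ) ^ (N * J) * ojet F κ₂ j (G₂ (z' (slam F ⌊v * J⌋₊ ω))) ω⌋ := ⟨_, rfl⟩
  have k1 : CH (Pool.Agent.H49.Ent.cond F.p A True) w
      (fun ω => (u₀ ω, ((z₁ ω, z₂ ω), y J F ω))) ≤ η₂ * J := by
    rw [hw]
    refine le_trans (CH_mono_cond h0 fun ω ω' _ _ hh => ?_) g1
    simp only [Prod.mk.injEq] at hh ⊢
    exact ⟨hh.1, hh.2.1.1, hh.2.2⟩
  have k2 : CH (Pool.Agent.H49.Ent.cond F.p A True)
      (fun ω => ⌊(2 : ℝ) ^ (N * J) * ojet F κ₂ j (G₀ (z₀' (slam F ⌊vn * J⌋₊ ω))) ω⌋)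
      (fun ω => (w ω, (u₀ ω, ((z₁ ω, z₂ ω), y J F ω)))) ≤ (η₃ + δ) * J := by
    rw [hw]
    refine le_trans (CH_mono_cond h0 fun ω ω' _ _ hh => ?_) g2
    simp only [Prod.mk.injEq] at hh ⊢
    exact ⟨hh.1, hh.2.1, hh.2.2.1.2, hh.2.2.2⟩
  have k3 := CH_le_add h0
    (fun ω => ⌊(2 : ℝ) ^ (N * J) * ojet F κ₂ j (G₀ (z₀' (slam F ⌊vn * J⌋₊ ω))) ω⌋) w
    (fun ω => (u₀ ω, ((z₁ ω, z₂ ω), y J F ω)))
  have k4 : (η₂ + (η₃ + δ)) * J = η₂ * J + (η₃ + δ) * J := by ring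
  rw [k4]
  linarith only [k1, k2, k3]

/-- **The jets over the labels of a family of pairs** from those over the labels of the early
window. -/
theorem fw_of_f1 (htm : TmC S C₀) (hk : k ∈ I₁) {K K₁ j : ℕ}
    {vn v E₂ r₂ p₂ En Rn Pn P N e e' η₂ η₃ δ : ℝ} (he : 0 < e) (hee : 2 * e ≤ e') (hP0 : e' ≤ P)
    (hP : P ≤ Pn) (hP' : P ≤ p₂) (hδ : 0 < δ)
    (hF : F1 S f (vg a) y Qu (qJet m I₁ k j v P N) e' η₃)
    (hlb : ∀ (J : ℕ) (F : Fam m J) (A : F.Ω → Prop) (V C : Type) (z : PtT F → V) (z' : LnT F → V)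
      (G₁ G₂ : V → MvPolynomial (Option (Fin m)) ℝ) (cc : LnT F → C),
      Ψ J F A V C z z' G₁ G₂ cc →
      LbOK F I₂ κ₂ K ⌊E₂ * J⌋₊ J ⌊v * J⌋₊ ⌊r₂ * J⌋₊ ⌊(p₂ - e) * J⌋₊ A z z' G₂)
    (hD : Dcp2 Ψ I₁ I₂ κ₂ K₁ vn v En Rn Pn e)
    (hG : F1 S f (vg a) y Qu (qJet m I₂ κ₂ j vn Pn N) e η₂) :
    Fw2 S f a y Qu Ψ (τ := fun _ _ _ _ => ℤ)
      (fun J F _ _ z' _ G₂ _ ω => ⌊(2 : ℝ) ^ (N * J) * ojet F κ₂ j
        (G₂ (z' (slam F ⌊v * J⌋₊ ω))) ω⌋) e (η₂ + (η₃ + δ)) := by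
  obtain ⟨M, J₁, hcnt⟩ := cnt_jetX m K₁ j N En Rn vn
  intro K₀
  refine Bas.mono J₁ (((hG (K₀ + K₁ + M)).and (dif_key (κ₂ := κ₂) (I₂ := I₂) (K := K) (K' := K₁)
    (K₁ := K₁) (v := v) (v' := vn) (E := E₂) (E' := En) (R := r₂) (R' := Rn) htm hk he hee hP0 hP'
    hP hδ hF K₀)).and (Pool.GRW.tmc_bas htm one_pos)) ?_
  rintro J hJ F A ⟨⟨HG, HD⟩, hA, -⟩ V C z z' G₁ G₂ cc hΨ u₀ hu₀
  obtain ⟨V₀, z₀, z₀', G₀, H, h1, h2, h3, h4⟩ := hD J F A V C z z' G₁ G₂ cc hΨ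
  have hl := hlb J F A V C z z' G₁ G₂ cc hΨ
  have h0 := (isLaw_cond F.isLaw hA).nonneg
  obtain ⟨w, hw⟩ : ∃ w : F.Ω → ℤ, w = fun ω =>
    ⌊(2 : ℝ) ^ (N * J) * ojet F κ₂ j (G₀ (z₀' (slam F ⌊vn * J⌋₊ ω))) ω⌋ := ⟨_, rfl⟩
  have hwP : (qJet m I₂ κ₂ j vn Pn N).P (K₀ + K₁ + M) e J F A w := by
    refine ⟨?_, V₀, z₀, z₀', G₀, (LbP.of h1).mono (Finset.Subset.refl _) (by omega) le_rfl,
      fun ω _ => by rw [hw]⟩
    rw [hw]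
    refine (hcnt J hJ F _ κ₂ _ A V₀ z₀ z₀' G₀ h1).trans (Real.exp_le_exp.2
      (mul_le_mul_of_nonneg_right ?_ (Nat.cast_nonneg J)))
    exact_mod_cast (by omega : M ≤ K₀ + K₁ + M)
  obtain ⟨V₁, z₁, hz₁, g1⟩ := HG u₀ w (Qu.mono (by omega) le_rfl hu₀) hwP
  obtain ⟨V₂, z₂, hz₂, g2⟩ := HD V V₀ V z z' G₂ z₀ z₀' G₀ z z' H hl h1 hl.cls h2 h3 h4 u₀ hu₀
  refine ⟨V₁ × V₂, fun ω => (z₁ ω, z₂ ω), hz₁.join hz₂, ?_⟩
  have k1 : CH (Pool.Agent.H49.Ent.cond F.p A True) w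
      (fun ω => (u₀ ω, ((z₁ ω, z₂ ω), y J F ω))) ≤ η₂ * J := by
    refine le_trans (CH_mono_cond h0 fun ω ω' _ _ hh => ?_) g1
    simp only [Prod.mk.injEq] at hh ⊢
    exact ⟨hh.1, hh.2.1.1, hh.2.2⟩
  have k2 : CH (Pool.Agent.H49.Ent.cond F.p A True)
      (fun ω => ⌊(2 : ℝ) ^ (N * J) * ojet F κ₂ j (G₂ (z' (slam F ⌊v * J⌋₊ ω))) ω⌋)
      (fun ω => (w ω, (u₀ ω, ((z₁ ω, z₂ ω), y J F ω)))) ≤ (η₃ + δ) * J := by
    rw [hw]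
    refine le_trans (CH_mono_cond h0 fun ω ω' _ _ hh => ?_) g2
    simp only [Prod.mk.injEq] at hh ⊢
    exact ⟨hh.1, hh.2.1, hh.2.2.1.2, hh.2.2.2⟩
  have k3 := CH_le_add h0
    (fun ω => ⌊(2 : ℝ) ^ (N * J) * ojet F κ₂ j (G₂ (z' (slam F ⌊v * J⌋₊ ω))) ω⌋) w
    (fun ω => (u₀ ω, ((z₁ ω, z₂ ω), y J F ω)))
  have k4 : (η₂ + (η₃ + δ)) * J = η₂ * J + (η₃ + δ) * J := by ring
  rw [k4]
  linarith only [k1, k2, k3]

end

end Pool.PN18
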