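import Pool.Agent.H18.PN.Stg6

/-!
# Jets over the labels of two windows

`f1_dig`: fewer digits of a jet. `cxj_rw2`: the rows of the family with a larger context. `jet_tr2`:
`jet_tr` with more digits at the first window. `self_F2`: `self_F1` with the near jets over the labels
of an earlier window.
-/

set_option autoImplicit false

namespace Pool.PN18

open Finset Real MvPolynomial
open Pool.Agent.H49.Ent Pool.Agent.H32.Dense Pool.STK Pool.KA Pool.KSAT Pool.K2S Pool.PB Pool.GEN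
open Pool.S6C Pool.RCD Pool.LA91 Pool.OWN68 Pool.AJW Pool.AJX Pool.CHT
open Pool.GRD (LbP)
open Pool.ALT (Fml DpI)

/-- More digits of a function have not many more values. -/
theorem cnt_up {Ω : Type} [Fintype Ω] {p : Ω → ℝ} {A : Ω → Prop} {u' : Ω → ℤ} (X : Ω → ℝ)
    {a a' : ℝ} (ha : a' ≤ a) (hu : ∀ ω, A ω → u' ω = ⌊(2 : ℝ) ^ a' * X ω⌋) :
    (cnt p (fun ω => ⌊(2 : ℝ) ^ a * X ω⌋) A : ℝ) ≤ cnt p u' A * (5 * 2 ^ (a - a')) := by
  obtain ⟨c, hc⟩ : ∃ c : ℝ, c = 2 ^ (a - a') := ⟨_, rfl⟩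
  have hc1 : 1 ≤ c := by
    rw [hc]
    exact Real.one_le_rpow (by norm_num) (by linarith)
  have hcc : (2 : ℝ) ^ a = c * 2 ^ a' := by
    rw [hc, ← Real.rpow_add (by norm_num)]
    congr 1
    ring
  obtain ⟨b, hb⟩ : ∃ b : Ω → ℤ, b = fun ω => ⌊(2 : ℝ) ^ a * X ω⌋ - ⌊c * u' ω⌋ := ⟨_, rfl⟩
  have h1 := cnt_le_of_abs (p := p) (u := b) (A := A) (B := c + 1) (by linarith) (by
    intro ω hω
    rw [hb]
    simp only
    push_cast
    have e1 := Int.floor_le ((2 : ℝ) ^ a * X ω)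
    have e2 := Int.lt_floor_add_one ((2 : ℝ) ^ a * X ω)
    have e3 := Int.floor_le (c * u' ω)
    have e4 := Int.lt_floor_add_one (c * u' ω)
    have e5 := Int.floor_le ((2 : ℝ) ^ a' * X ω)
    have e6 := Int.lt_floor_add_one ((2 : ℝ) ^ a' * X ω)
    rw [← hu ω hω] at e5 e6
    have e7 : c * u' ω ≤ 2 ^ a * X ω := by
      rw [hcc, mul_assoc]
      exact mul_le_mul_of_nonneg_left e5 (by linarith)
    have e8 : (2 : ℝ) ^ a * X ω ≤ c * u' ω + c := by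
      rw [hcc, mul_assoc]
      have := mul_le_mul_of_nonneg_left e6.le (show (0 : ℝ) ≤ c by linarith)
      linarith
    rw [abs_le]
    constructor <;> linarith)
  have h2 := cnt_comp_le p (fun ω => (u' ω, b ω)) (fun ω => ⌊(2 : ℝ) ^ a * X ω⌋) (A := A)
    (fun q : ℤ × ℤ => q.2 + ⌊c * q.1⌋) (fun ω _ _ => by rw [hb]; simp)
  have h3 := cnt_pair p u' b A
  have h4 : (cnt p (fun ω => ⌊(2 : ℝ) ^ a * X ω⌋) A : ℝ) ≤ cnt p u' A * cnt p b A := by
    exact_mod_cast h2.trans h3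
  refine h4.trans (mul_le_mul_of_nonneg_left ?_ (Nat.cast_nonneg _))
  rw [← hc]
  linarith

section

variable {m : ℕ} {S : PCl m} {C₀ : ℝ} {α γ : ∀ J : ℕ, Fam m J → Type} {U₀ : Type}
  {f : ∀ (J : ℕ) (F : Fam m J), F.Ω → α J F} {y : ∀ (J : ℕ) (F : Fam m J), F.Ω → γ J F}
  {Qu : Qt m U₀} {a : ℝ}

/-- **Fewer digits of a jet.** -/
theorem f1_dig (htm : TmC S C₀) {I : Finset (Fin m)} {k : Fin m} {j : ℕ} {w p N N' e η h : ℝ}
    (hN : N' ≤ N) (hh : 0 < h) (H : F1 S f (vg a) y Qu (qJet m I k j w p N) e η) :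
    F1 S f (vg a) y Qu (qJet m I k j w p N') e (η + h) := by
  have hl2 : 0 < Real.log 2 := Real.log_pos one_lt_two
  have hl21 : Real.log 2 ≤ 1 := by
    have := Real.log_two_lt_d9
    linarith
  obtain ⟨M, hM⟩ := exists_nat_ge (N - N' + 2)
  obtain ⟨L, hL⟩ : ∃ L : ℝ, L = Real.log (2 * ((⌈2 * (1 : ℝ)⌉₊ + 1 : ℕ) : ℝ) + 1) := ⟨_, rfl⟩
  obtain ⟨J₀, hJ₀⟩ := exists_nat_ge (L / h)
  intro K
  refine Bas.mono (max 1 J₀) ((H (K + M)).and (Pool.GRW.tmc_bas htm one_pos)) ?_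
  rintro J hJ F A ⟨H, hA, -⟩ u u' hu ⟨hc, V, z, z', G, hlb, hu'⟩
  have hJ0 : (0 : ℝ) ≤ J := Nat.cast_nonneg J
  have hJ1 : (1 : ℝ) ≤ J := by exact_mod_cast (le_max_left 1 J₀).trans hJ
  have hJr : (J₀ : ℝ) ≤ J := by exact_mod_cast (le_max_right 1 J₀).trans hJ
  have hLJ : L ≤ h * J := by
    have := hJ₀.trans hJr
    rw [div_le_iff₀ hh] at this
    linarith
  have hcl := isLaw_cond F.isLaw hA
  have h0 := hcl.nonneg
  obtain ⟨X, hX⟩ : ∃ X : F.Ω → ℝ, X = fun ω => ojet F k j (G (z' (slam F ⌊w * J⌋₊ ω))) ω :=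
    ⟨_, rfl⟩
  obtain ⟨v, hv⟩ : ∃ v : F.Ω → ℤ, v = fun ω => ⌊(2 : ℝ) ^ (N * J) * X ω⌋ := ⟨_, rfl⟩
  have hNJ : N' * J ≤ N * J := mul_le_mul_of_nonneg_right hN hJ0
  have hvP : (qJet m I k j w p N).P (K + M) e J F A v := by
    refine ⟨?_, V, z, z', G, hlb.mono (Finset.Subset.refl _) (by omega) le_rfl,
      fun ω _ => by rw [hv, hX]⟩
    have h1 := cnt_up (p := F.p) (A := A) (u' := u') X hNJ (fun ω hω => by rw [hu' ω hω, hX])
    rw [← hv] at h1
    refine h1.trans ?_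
    have h2 : (5 : ℝ) ≤ Real.exp (2 * J) := by
      have h3 : (2.7 : ℝ) ≤ Real.exp 1 := by
        have := Real.exp_one_gt_d9
        linarith
      have h4 : Real.exp 1 * Real.exp 1 ≤ Real.exp (2 * J) := by
        rw [← Real.exp_add]
        exact Real.exp_le_exp.2 (by linarith)
      nlinarith
    have h3 : (2 : ℝ) ^ (N * J - N' * J) ≤ Real.exp ((N - N') * J) := by
      rw [← exp_p2]
      refine Real.exp_le_exp.2 ?_
      have h5 : 0 ≤ N * J - N' * J := by linarith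
      have h6 := mul_le_mul_of_nonneg_left hl21 h5
      linarith
    calc (cnt F.p u' A : ℝ) * (5 * 2 ^ (N * J - N' * J))
        ≤ Real.exp (K * J) * (Real.exp (2 * J) * Real.exp ((N - N') * J)) :=
          mul_le_mul hc (mul_le_mul h2 h3 (Real.rpow_pos_of_pos (by norm_num) _).le
            (Real.exp_pos _).le) (by positivity) (Real.exp_pos _).le
      _ = Real.exp ((K + (N - N' + 2)) * J) := by
          rw [← Real.exp_add, ← Real.exp_add]
          congr 1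
          ring
      _ ≤ Real.exp ((K + M : ℕ) * J) := by
          refine Real.exp_le_exp.2 (mul_le_mul_of_nonneg_right ?_ hJ0)
          push_cast
          linarith
  obtain ⟨V₁, z₁, hz₁, g1⟩ := H u v (Qu.mono (by omega) le_rfl hu) hvP
  refine ⟨V₁, z₁, hz₁, ?_⟩
  have g2 := CH_le_add h0 u' v (fun ω => (u ω, (z₁ ω, y J F ω)))
  have g3 : CH (Pool.Agent.H49.Ent.cond F.p A True) u'
      (fun ω => (v ω, (u ω, (z₁ ω, y J F ω)))) ≤ L := by
    have g4 := CH_phi hcl (fun ω => (2 : ℝ) ^ (N' * J) * X ω)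
      (fun ω => (v ω, (u ω, (z₁ ω, y J F ω))))
      (fun g => (2 : ℝ) ^ (N' * J - N * J) * (g.1 : ℝ)) (C := 1) (fun ω => by
        have e1 := Int.floor_le ((2 : ℝ) ^ (N * J) * X ω)
        have e2 := Int.lt_floor_add_one ((2 : ℝ) ^ (N * J) * X ω)
        have e3 : (2 : ℝ) ^ (N' * J) = 2 ^ (N' * J - N * J) * 2 ^ (N * J) := by
          rw [← Real.rpow_add (by norm_num)]
          congr 1
          ring
        have e4 : (0 : ℝ) < 2 ^ (N' * J - N * J) := Real.rpow_pos_of_pos (by norm_num) _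
        have e5 : (2 : ℝ) ^ (N' * J - N * J) ≤ 1 :=
          Real.rpow_le_one_of_one_le_of_nonpos (by norm_num) (by linarith)
        rw [hv]
        dsimp only
        rw [e3, mul_assoc, ← mul_sub, abs_mul, abs_of_pos e4]
        have e6 : |(2 : ℝ) ^ (N * J) * X ω - (⌊(2 : ℝ) ^ (N * J) * X ω⌋ : ℝ)| ≤ 1 := by
          rw [abs_le]
          constructor <;> linarith
        calc (2 : ℝ) ^ (N' * J - N * J) * |(2 : ℝ) ^ (N * J) * X ω -
              (⌊(2 : ℝ) ^ (N * J) * X ω⌋ : ℝ)| ≤ 1 * 1 :=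
              mul_le_mul e5 e6 (abs_nonneg _) zero_le_one
          _ = 1 := one_mul 1)
    rw [← hL] at g4
    refine le_trans (CH_mono_left h0 fun ω ω' hω hω' hh => ?_) g4
    rw [hu' ω (of_cond_pos hω), hu' ω' (of_cond_pos hω')]
    have := (Prod.ext_iff.mp hh).1
    rw [hX] at this
    exact this
  have g5 : (η + h) * J = η * J + h * J := by ring
  rw [g5]
  linarith only [g1, g2, g3, hLJ]

end

/-- **The rows of the family with the larger context.** -/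
theorem cxj_rw2 {m : ℕ} {S : PCl m} {C₀ : ℝ} (htm : TmC S C₀) {Ψ : Fm2 m} {K : ℕ}
    {κ₁ κ₂ : Fin m} {v p₁ p₂ : ℝ} {i₁ i₂ : ℕ} {X₁ X₂ : ℕ → ℝ} {Mp : Cdp m}
    {w q₁ q₂ α₁ α₂ q h e : ℝ} {N₀ : ℕ} (H : Rw2 S Ψ κ₁ κ₂ w q₁ q₂ α₁ α₂ q h e N₀) :
    Rw2 S (CxJ Ψ K κ₁ κ₂ v p₁ p₂ i₁ i₂ X₁ X₂ Mp) κ₁ κ₂ w q₁ q₂ α₁ α₂ q h e N₀ := by
  intro i j hij hj
  refine Bas.mono 0 ((H i j hij hj).and (Pool.GRW.tmc_bas htm one_pos)) ?_
  rintro J - F A ⟨H1, hA, -⟩ V C z z' G₁ G₂ cc ⟨C₀, Y, c₀, y₀, y', k1, -, -, ⟨φ, hφ⟩, -⟩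
  refine le_trans (CH_mono_cond (isLaw_cond F.isLaw hA).nonneg fun ω ω' _ _ hh => ?_)
    (H1 V C₀ z z' G₁ G₂ c₀ k1)
  simp only [Prod.mk.injEq] at hh ⊢
  refine ⟨hh.1, hh.2.1, hh.2.2.1, ?_, hh.2.2.2.2⟩
  have e1 : ∀ x, c₀ x = (φ (cc x)).1 := fun x => by
    rw [← hφ]
    rfl
  rw [e1, e1, hh.2.2.2.1]

/-- The same for the swapped family. -/
theorem cxj_rw2s {m : ℕ} {S : PCl m} {C₀ : ℝ} (htm : TmC S C₀) {Ψ : Fm2 m} {K : ℕ}
    {κ₁ κ₂ : Fin m} {v p₁ p₂ : ℝ} {i₁ i₂ : ℕ} {X₁ X₂ : ℕ → ℝ} {Mp : Cdp m}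
    {w q₁ q₂ α₁ α₂ q h e : ℝ} {N₀ : ℕ} (H : Rw2 S Ψ.swap κ₂ κ₁ w q₂ q₁ α₂ α₁ q h e N₀) :
    Rw2 S (CxJ Ψ K κ₁ κ₂ v p₁ p₂ i₁ i₂ X₁ X₂ Mp).swap κ₂ κ₁ w q₂ q₁ α₂ α₁ q h e N₀ := by
  intro i j hij hj
  refine Bas.mono 0 ((H i j hij hj).and (Pool.GRW.tmc_bas htm one_pos)) ?_
  rintro J - F A ⟨H1, hA, -⟩ V C z z' G₁ G₂ cc ⟨C₀, Y, c₀, y₀, y', k1, -, -, ⟨φ, hφ⟩, -⟩
  refine le_trans (CH_mono_cond (isLaw_cond F.isLaw hA).nonneg fun ω ω' _ _ hh => ?_)
    (H1 V C₀ z z' G₁ G₂ c₀ k1)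
  simp only [Prod.mk.injEq] at hh ⊢
  refine ⟨hh.1, hh.2.1, hh.2.2.1, ?_, hh.2.2.2.2⟩
  have e1 : ∀ x, c₀ x = (φ (cc x)).1 := fun x => by
    rw [← hφ]
    rfl
  rw [e1, e1, hh.2.2.2.1]

section

variable {m : ℕ} {S : PCl m} {C₀ : ℝ} {c : ℕ → Fin m} {r₀ r : ℕ}
  {U₀ : Type} {Q : Qt m U₀} {α γ : ∀ J : ℕ, Fam m J → Type}
  {f : ∀ (J : ℕ) (F : Fam m J), F.Ω → α J F} {y : ∀ (J : ℕ) (F : Fam m J), F.Ω → γ J F}
  {w u₁ : ℝ} {s rd p n lv : ℕ → ℝ}

/-- **Jets over the labels of one window from those of another window**, given the jets of the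
chain; more digits at the first window. -/
theorem jet_tr2 (htm : TmC S C₀) (hch : Chn S c r₀ r w w u₁ s rd) {k : Fin m} {j : ℕ}
    {v lam w₁ w₂ p₁ p₂ N₁ N σ : ℝ} (hvw : v ≤ w) (hw₁ : w₁ ≤ w) (hw₂ : w₂ ≤ w)
    (hwl : w < v + lam) (hl1 : v + lam ≤ 1) (hσ : 0 < σ)
    (hlv : ∀ i, r₀ ≤ i → i < r → 0 < lv i)
    (h1 : ∀ i, r₀ ≤ i → i < r → s i + lv i + σ ≤ n i)
    (h2 : ∀ i, r₀ ≤ i → i < r → s i + lv i + σ ≤ min (p i) (s i) + (v + lam - w))
    (h2' : ∀ i, r₀ ≤ i → i < r → ∀ l, r₀ ≤ l → l < i →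
      s i + lv i + σ ≤ min (p i) (s i) + lv l) (hN : N ≤ N₁)
    (h3 : N + j * w + σ ≤ min p₁ p₂ + (v + lam - w))
    (h3' : ∀ l, r₀ ≤ l → l < r → N + j * w + σ ≤ min p₁ p₂ + lv l)
    (hf : ∀ (J : ℕ) (F : Fam m J), ∃ φ : α J F → PtT F, ∀ ω, ptr F J ω = φ (f J F ω))
    (hy' : Kn ((range r₀).image c) (v + lam) (v + lam - w) y) {e η η' h : ℝ} (he : e ≤ σ / 8)
    (hh : 0 < h) (he0 : 0 < e)
    (hexV : Exs S (qJets m c r₀ r j (fun _ _ => v) (fun l _ => p l)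
      (fun l j' => n l - (j' : ℕ) * v)))
    (hexJ : Exs S (qJet m ((range r).image c) k j w₁ p₁ N₁))
    (hV : F1 S f (vg w) y Q (qJets m c r₀ r j (fun _ _ => v) (fun l _ => p l)
      (fun l j' => n l - (j' : ℕ) * v)) e η)
    (hJ : F1 S f (vg w) y Q (qJet m ((range r).image c) k j w₁ p₁ N₁) e η') :
    F1 S f (vg w) y Q (qJet m ((range r).image c) k j w₂ p₂ N) e (η + η' + h) := by
  have hlam : 0 < v + lam - w := by linarith
  have hjv : ∀ j' : ℕ, (j' : ℝ) * v ≤ j' * w := fun j' =>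
    mul_le_mul_of_nonneg_left hvw (Nat.cast_nonneg j')
  have hmin : min (v + lam - w) (v + lam - w) = v + lam - w := min_self _
  have a3 : F1 S f (vg w) y
      ((qJets m c r₀ r j (fun _ _ => v) (fun l _ => p l) (fun l j' => n l - (j' : ℕ) * v)).prod
        (qJet m ((range r).image c) k j w₁ p₁ N₁))
      (qJet m ((range r).image c) k j w₂ p₂ N) e h := by
    refine (jetN_F1 htm hch (k := k) (lv := lv) (p₀ := v + lam) (lam := v + lam - w) (σ₀ := σ)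
      (wv := fun _ _ => v) (pv := fun l _ => p l) (Nv := fun l j' => n l - (j' : ℕ) * v)
      (fun _ _ _ _ _ => hvw) hw₁ hw₂ hwl hl1 hlam hσ hlv ?_ ?_ ?_ hN ?_ ?_
      hf hy' hh).mono he le_rfl
    · intro l x y j' _
      linarith [h1 l x y, hjv j']
    · intro l x y j' _
      rw [hmin]
      exact h2 l x y
    · intro l x y j' _ l' x' y'
      exact h2' l x y l' x' y'
    · rw [hmin]
      exact h3
    · exact h3'
  have b1 : F1 S f (vg w) y (Q.prod (qJet m ((range r).image c) k j w₁ p₁ N₁))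
      (qJet m ((range r).image c) k j w₂ p₂ N) e (η + h) := by
    refine F1.cut htm hexV he0 (F1.pull htm (Q₁ := Q) (fun u => u.1) (fun _ _ _ _ _ _ hu => hu.1)
      hV)
      (F1.pull htm (Q₁ := (qJets m c r₀ r j (fun _ _ => v) (fun l _ => p l)
        (fun l j' => n l - (j' : ℕ) * v)).prod (qJet m ((range r).image c) k j w₁ p₁ N₁))
      (fun u => (u.2, u.1.2)) (fun _ _ _ _ _ _ hu => ⟨hu.2, hu.1.2⟩) a3)
  have b2 := F1.cut htm hexJ he0 hJ b1
  refine b2.mono le_rfl (by linarith)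

/-- **The jets of a closed polynomial over the chain, small at the samples**, the near jets of the
chain over the labels of an earlier window. -/
theorem self_F2 (htm : TmC S C₀) (hch : Chn S c r₀ r w w u₁ s rd) {k : Fin m}
    (hk : k ∈ (range r).image c) {j : ℕ} {v lam P N σ : ℝ} (hvw : v ≤ w)
    (hwl : w < v + lam) (hl1 : v + lam ≤ 1) (hσ : 0 < σ)
    (hlv : ∀ i, r₀ ≤ i → i < r → 0 < lv i)
    (h1 : ∀ i, r₀ ≤ i → i < r → s i + lv i + σ ≤ n i)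
    (h2 : ∀ i, r₀ ≤ i → i < r → s i + lv i + σ ≤ min (p i) (s i) + (v + lam - w))
    (h2' : ∀ i, r₀ ≤ i → i < r → ∀ l, r₀ ≤ l → l < i →
      s i + lv i + σ ≤ min (p i) (s i) + lv l)
    (h3 : N + j * w + σ ≤ P + (v + lam - w))
    (h3' : ∀ l, r₀ ≤ l → l < r → N + j * w + σ ≤ P + lv l)
    (hf : ∀ (J : ℕ) (F : Fam m J), ∃ φ : α J F → PtT F, ∀ ω, ptr F J ω = φ (f J F ω))
    (hy' : Kn ((range r₀).image c) (v + lam) (v + lam - w) y) {e η h : ℝ} (he : e ≤ σ / 8)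
    (hh : 0 < h) (he0 : 0 < e)
    (hexV : Exs S (qJets m c r₀ r j (fun _ _ => v) (fun l _ => p l)
      (fun l j' => n l - (j' : ℕ) * v)))
    (hV : F1 S f (vg w) y Q (qJets m c r₀ r j (fun _ _ => v) (fun l _ => p l)
      (fun l j' => n l - (j' : ℕ) * v)) e η) :
    F1 S f (vg w) y Q (qJet m ((range r).image c) k j w P N) e (η + h) := by
  have hlam : 0 < v + lam - w := by linarith
  have hjv : ∀ j' : ℕ, (j' : ℝ) * v ≤ j' * w := fun j' =>
    mul_le_mul_of_nonneg_left hvw (Nat.cast_nonneg j')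
  have hmin : min (v + lam - w) (v + lam - w) = v + lam - w := min_self _
  have a3 : F1 S f (vg w) y
      ((qJets m c r₀ r j (fun _ _ => v) (fun l _ => p l) (fun l j' => n l - (j' : ℕ) * v)).prod
        (qJet m ((range r).image c) k j w P N))
      (qJet m ((range r).image c) k j w P N) e h := by
    refine (jetN_F1 htm hch (k := k) (lv := lv) (p₀ := v + lam) (lam := v + lam - w) (σ₀ := σ)
      (wv := fun _ _ => v) (pv := fun l _ => p l) (Nv := fun l j' => n l - (j' : ℕ) * v)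
      (fun _ _ _ _ _ => hvw) le_rfl le_rfl hwl hl1 hlam hσ hlv ?_ ?_ ?_ le_rfl ?_ ?_
      hf hy' hh).mono he le_rfl
    · intro l x y j' _
      linarith [h1 l x y, hjv j']
    · intro l x y j' _
      rw [hmin]
      exact h2 l x y
    · intro l x y j' _ l' x' y'
      exact h2' l x y l' x' y'
    · rw [hmin, min_self]
      exact h3
    · rw [min_self]
      exact h3'
  have a4 : F1 S f (vg w) y
      (qJets m c r₀ r j (fun _ _ => v) (fun l _ => p l) (fun l j' => n l - (j' : ℕ) * v))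
      (qJet m ((range r).image c) k j w P N) e h := by
    intro K
    refine Bas.mono 0 ((a3 (K + 1)).and (Pool.GRW.tmc_bas htm one_pos)) ?_
    rintro J - F A ⟨H, hA, -⟩ u u' hu hu'
    have hcl := isLaw_cond F.isLaw hA
    have hP : (qJet m ((range r).image c) k j w P N).P (K + 1) e J F A
        (fun _ => (0 : ℤ)) := by
      refine ⟨?_, Unit, fun _ => (), fun _ => (), fun _ => MvPolynomial.X (some k),
        ⟨fun _ => ?_, fun _ b b' _ hb => ?_, fun _ _ => rfl, fun ω _ => ?_⟩, fun ω _ => ?_⟩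
      · have h7 := cnt_le_of_abs (p := F.p) (u := fun _ : F.Ω => (0 : ℤ)) (A := A) (B := 0) le_rfl
          (fun _ _ => by simp)
        refine h7.trans ?_
        have h8 : (0 : ℝ) ≤ ((K + 1 : ℕ) : ℝ) * J := by positivity
        have h9 := Real.one_le_exp h8
        linarith
      · rw [totalDegree_X]
        omega
      · rw [eval_X, eval_X]
        exact hb k hk
      · rw [eval_X]
        show |F.x ω k - F.x ω k| ≤ _
        rw [sub_self, abs_zero]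
        positivity
      · have h7 : ojet F k j (MvPolynomial.X (some k)) ω = 0 := by
          unfold ojet
          rw [jet_sub, sub_self]
        show (0 : ℤ) = ⌊(2 : ℝ) ^ (N * J) * ojet F k j (MvPolynomial.X (some k)) ω⌋
        rw [h7, mul_zero, Int.floor_zero]
    obtain ⟨V, z, hz, h6⟩ := H (fun ω => (u ω, (0 : ℤ))) u'
      ⟨(qJets m _ _ _ _ _ _ _).mono (Nat.le_succ K) le_rfl hu, hP⟩
      ((qJet m _ _ _ _ _ _).mono (Nat.le_succ K) le_rfl hu')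
    refine ⟨V, z, hz, le_trans (CH_mono_cond hcl.nonneg fun ω ω' _ _ hh => ?_) h6⟩
    simp only [Prod.mk.injEq] at hh ⊢
    exact ⟨⟨hh.1, trivial⟩, hh.2⟩
  exact F1.trans htm hexV he0 hV a4

end

end Pool.PN18
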