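import Pool.Agent.H18.PN.Nrp
import Pool.Agent.H99.D2.Pye

/-!
# A stage, class level

`fwu_of_ju`, `fwn_of_jn`: the jets of both members over the labels of a family of pairs from those over
all labels of the target resp. of the early window. `stage_cls`: all jets of both members, from those of
the orders which are not alive.
-/

set_option autoImplicit false

namespace Pool.PN18

open Finset Real MvPolynomial
open Pool.Agent.H49.Ent Pool.Agent.H32.Dense Pool.STK Pool.KA Pool.KSAT Pool.K2S Pool.PB Pool.GEN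
open Pool.S6C Pool.RCD Pool.LA91 Pool.OWN68 Pool.AJW Pool.AJX Pool.CHT
open Pool.GRD (LbP)
open Pool.ALT (Fml DpI)
open Pool.LPK12 (Ip2)
open Pool.CR99 (PairE)

theorem Rw2.le {m : ℕ} {S : PCl m} {Ψ : Fm2 m} {κ₁ κ₂ : Fin m} {w p₁ p₂ α₁ α₂ q h e e' : ℝ}
    {N₀ : ℕ} (H : Rw2 S Ψ κ₁ κ₂ w p₁ p₂ α₁ α₂ q h e N₀) (he : e ≤ e') :
    Rw2 S Ψ κ₁ κ₂ w p₁ p₂ α₁ α₂ q h e' N₀ := by
  intro i j hij hj
  refine Bas.mono 0 (H i j hij hj) ?_
  rintro J - F A h1 V C z z' G₁ G₂ cc hΨ'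
  refine (h1 V C z z' G₁ G₂ cc hΨ').trans (mul_le_mul_of_nonneg_right ?_ (Nat.cast_nonneg J))
  linarith only [he]

section

variable {m : ℕ} {S : PCl m} {C₀ : ℝ} {c : ℕ → Fin m} {r : ℕ} {sn : ℕ → ℝ → ℝ} {G : Set ℝ}
  {v w X φ lam kf e₁ : ℝ} {v₀ pf : ℕ → ℝ} {Nf : ℕ → ℕ → ℝ} {K : ℕ} {U₀ : Type} {Q : Qt m U₀}

/-- **The jets of the first labels of a family of pairs** from the jets over all labels of the
target. -/
theorem fwu_of_ju (H : JfN r sn G v w X φ lam kf v₀ K) (htm : TmC S C₀)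
    (hch : ChG S c (r + 1) sn G)
    (hA : JetA S (fun J F => ptr F J) (vg w) (fun _ F => F.T) Q c 0 r v (fun i => sn i v)
      (nX r sn v X) e₁) {Ψ : Fm2 m} {E rd p n : ℕ → ℝ} {I₂ : Finset (Fin m)} {κ₂ : Fin m}
    {e E₂ r₂ p₂ : ℝ} (hpv : p r = sn r v)
    (hΨ : PsL Ψ c r K I₂ κ₂ v lam e E₂ r₂ p₂ E rd p n) {j : ℕ} {N₁ N : ℝ} (hN : N ≤ N₁)
    (h3 : N + j * w + 3 * φ + (w - v) ≤ min (sn r w) (sn r v) + X) {η h : ℝ} (he0 : 0 < e)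
    (he1 : e ≤ e₁) (he : e ≤ φ / 8) (hh : 0 < h)
    (hJ : F1 S (fun J F => ptr F J) (vg w) (fun _ F => F.T) Q
      (qJet m ((range r).image c) (c r) j w (sn r w) N₁) e η) :
    Fw2 S (fun J F => ptr F J) w (fun _ F => F.T) Q Ψ (τ := fun _ _ _ _ => ℤ)
      (fun J F _ _ z' G₁ _ _ ω => ⌊(2 : ℝ) ^ (N * J) * ojet F (c r) j
        (G₁ (z' (slam F ⌊v * J⌋₊ ω))) ω⌋) e (η + h) := by
  obtain ⟨uw, rw, hrw, hcw⟩ := hch.ch w H.wG
  refine fw2_of_F1X (I := (range r).image c) (K := K) (p := sn r v) (Er := E r + e)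
    (Rr := rd r + e) (fun J F A V C z z' G₁ G₂ cc h1 => ?_)
    (H.tr htm hch hA le_rfl H.vw.le hN h3 he0 he1 he hh
      (exs_jet (hrw r (Nat.lt_succ_self r)) (hcw.att r (Nat.zero_le _) (Nat.lt_succ_self r))) hJ)
  obtain ⟨⟨g, hlb, rfl, -⟩, -⟩ := hΨ.1 J F A V C z z' G₁ G₂ cc h1
  rw [← hpv]
  exact hlb r (Nat.zero_le r) (Nat.lt_succ_self r)

/-- **The jets of the second labels of a family of pairs** from the jets over all labels of the early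
window. -/
theorem fwn_of_jn (H : JfN r sn G v w X φ lam kf v₀ K) (htm : TmC S C₀)
    (hch : ChG S c (r + 1) sn G) (hr : 1 ≤ r)
    (hA : JetA S (fun J F => ptr F J) (vg w) (fun _ F => F.T) Q c 0 r v (fun i => sn i v)
      (nX r sn v X) e₁) {Ψ : Fm2 m} {E rd p n : ℕ → ℝ} {I₂ : Finset (Fin m)} {κ₂ : Fin m}
    {e E₂ r₂ p₂ : ℝ} (hΨ : PsL Ψ c r K I₂ κ₂ v lam e E₂ r₂ p₂ E rd p n)
    {vn En Rn Pn : ℝ} {K₁ : ℕ} (hD : Dcp2 Ψ ((range r).image c) I₂ κ₂ K₁ vn v En Rn Pn e)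
    {j : ℕ} {N₁ N : ℝ} (hN : N ≤ N₁) (hP0 : 2 * e ≤ min Pn p₂)
    (h3 : N + j * v + 3 * φ ≤ min Pn p₂ + X) {η h : ℝ} (he0 : 0 < e)
    (he1 : 2 * e ≤ e₁) (he : 2 * e ≤ φ / 8) (hh : 0 < h)
    (hJ : F1 S (fun J F => ptr F J) (vg w) (fun _ F => F.T) Q
      (qJet m I₂ κ₂ j vn Pn N₁) e η) :
    Fw2 S (fun J F => ptr F J) w (fun _ F => F.T) Q Ψ (τ := fun _ _ _ _ => ℤ)
      (fun J F _ _ z' _ G₂ _ ω => ⌊(2 : ℝ) ^ (N * J) * ojet F κ₂ j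
        (G₂ (z' (slam F ⌊v * J⌋₊ ω))) ω⌋) e (η + h) := by
  have hk : c 0 ∈ (range r).image c := Finset.mem_image_of_mem c (Finset.mem_range.2 (by omega))
  have h1 := H.selfv htm hch hA hk (j := j) (P := min Pn p₂) (N := N) h3
    (e := 2 * e) (h := h / 3) (by linarith) he1 he (by linarith)
  have h2 := f1_dig htm hN (h := h / 3) (by linarith) hJ
  have h4 := fw_of_f1 (κ₂ := κ₂) (I₂ := I₂) (N := N) (j := j) htm hk (e' := 2 * e)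
    (K := K) (K₁ := K₁) (E₂ := E₂) (r₂ := r₂) (p₂ := p₂) he0 le_rfl hP0 (min_le_left _ _)
    (min_le_right _ _) (δ := h / 3) (by linarith) h1
    (fun J F A V C z z' G₁ G₂ cc h1 => (hΨ.1 J F A V C z z' G₁ G₂ cc h1).2) hD h2
  exact h4.mono (by linarith)

end

/-- **A stage**, class level. -/
theorem stage_cls (K r : ℕ) {Iu In : Finset ℕ} (hu : ∀ i ∈ Iu, 1 ≤ i ∧ i ≤ K + 2)
    (hn : ∀ j ∈ In, 1 ≤ j ∧ j ≤ K + 2) (hu1 : Iu.card ≤ 1) (hn1 : In.card ≤ 1) {a b : ℝ}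
    (hb : 0 < b) (hab : b < a) {h : ℝ} (hh : 0 < h) (hh2 : h ≤ b) {ε : ℝ} (hε : 0 < ε) :
    ∃ δ : ℝ, 0 < δ ∧ ∃ N₀ : ℕ, 0 < N₀ ∧
    ∀ {m : ℕ} {S : PCl m} {C₀ : ℝ} (_ : TmC S C₀) {c : ℕ → Fin m} (_ : 1 ≤ r)
      {sn : ℕ → ℝ → ℝ} {G : Set ℝ} {v vn w X φ ℓ kf q R g₁ : ℝ} {v₀ vn₀ pf E rd : ℕ → ℝ}
      {Nf : ℕ → ℕ → ℝ} (_ : 0 < q) (_ : 0 < R) (_ : JfN r sn G v w X φ ℓ kf v₀ K)
      (_ : JfN r sn G vn w X φ ℓ kf vn₀ K) (_ : ChG S c (r + 1) sn G)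
      (_ : ∀ l < r, sn l w - φ ≤ pf l)
      (_ : ∀ l < r, ∀ j ≤ 1, nX r sn v X l - (j : ℕ) * v ≤ Nf l j)
      (_ : ∀ l < r, ∀ j ≤ 1, nX r sn vn X l - (j : ℕ) * vn ≤ Nf l j)
      (_ : JetX S c 0 r v w ℓ (a * (R * q)) φ g₁ E (fun i => sn i v) (fun i => sn i w)
        (nX r sn v X) (fun l => aX r X l - (w - v) - 2 * φ) rd K)
      (_ : v + 2 * (a + b) * (R * q) ≤ 1) {Ψ : Fm2 m} {κ₂ : Fin m} {lN : ℝ → ℝ}
      {e E₂ r₂ p₂ Pn En Rn : ℝ} {K₁ : ℕ}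
      (_ : PairE S Ψ c r K ((range (r + 1)).image c) κ₂ a b R h δ ℓ N₀ v w q
        (fun i => sn i v) (nX r sn v X) lN pf Nf e E₂ r₂ p₂ E rd vn Pn En Rn K₁)
      (_ : 0 < e) (_ : 2 * e ≤ φ / 8) (_ : e ≤ δ * (R * q) / 8)
      (_ : e ≤ ε * (R * q) / (128 * ((r + 1) * (K + 3)))) (_ : 2 * e ≤ min Pn p₂)
      (_ : sn r w + 2 * φ + (w - v) ≤ min (sn r w) (sn r vn) + X)
      (_ : p₂ + b * (R * q) + 3 * φ ≤ min Pn p₂ + X) (_ : sn r v ≤ sn r w)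
      {i₁ i₂ : ℕ} {X₁ X₂ : ℕ → ℝ} (_ : ∀ j l, i₁ ≤ j → j ≤ l → X₁ j ≤ X₁ l)
      (_ : ∀ j l, i₂ ≤ j → j ≤ l → X₂ j ≤ X₂ l) {Mp : Cdp m}
      (_ : Bas S (fun J F A => ∃ (Y : Type) (y : PtT F → Y) (y' : LnT F → Y),
        (∀ ω, A ω → y (ptr F J ω) = y' (slam F ⌊v * J⌋₊ ω)) ∧
        Mp J F A Y (fun ω => y' (slam F ⌊v * J⌋₊ ω))))
      (_ : ∀ i ∈ Iu, ∀ j ∈ In, (i : ℝ) * b = j * a →
        Fw2 S (fun J F => ptr F J) w (fun _ F => F.T)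
        (qJets m c 0 r 1 (fun _ _ => w) (fun l _ => pf l) Nf)
        (CxJ Ψ K (c r) κ₂ v (sn r v) p₂ i₁ i₂ X₁ X₂ Mp) (τ := fun _ _ _ C => C)
        (fun J F _ _ _ _ _ c ω => c (vg v J F ω)) e ((2 * K + 9) * δ * (R * q)) →
        Ip2 S (fun J F => ptr F J) w
        (fun _ F => F.T) (qJets m c 0 r 1 (fun _ _ => w) (fun l _ => pf l) Nf)
        (CxJ Ψ K (c r) κ₂ v (sn r v) p₂ i₁ i₂ X₁ X₂ Mp) (c r) κ₂ v
        (sn r v + a * (R * q) - i * v) (p₂ + b * (R * q) - j * v) i j e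
        ((4 * K + 18) * δ * (R * q)))
      (_ : ∀ j ≤ K + 2, 1 ≤ j → j ∉ Iu → Fw2 S (fun J F => ptr F J) w (fun _ F => F.T)
        (qJets m c 0 r 1 (fun _ _ => w) (fun l _ => pf l) Nf) Ψ (τ := fun _ _ _ _ => ℤ)
        (fun J F _ _ z' G₁ _ _ ω => ⌊(2 : ℝ) ^ ((sn r v + a * (R * q) - j * v) * J) *
          ojet F (c r) j (G₁ (z' (slam F ⌊v * J⌋₊ ω))) ω⌋) e (δ * (R * q)))
      (_ : ∀ j ≤ K + 2, 1 ≤ j → j ∉ In → Fw2 S (fun J F => ptr F J) w (fun _ F => F.T)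
        (qJets m c 0 r 1 (fun _ _ => w) (fun l _ => pf l) Nf) Ψ (τ := fun _ _ _ _ => ℤ)
        (fun J F _ _ z' _ G₂ _ ω => ⌊(2 : ℝ) ^ ((p₂ + b * (R * q) - j * v) * J) *
          ojet F κ₂ j (G₂ (z' (slam F ⌊v * J⌋₊ ω))) ω⌋) e (δ * (R * q)))
      (_ : ∀ l, i₁ ≤ l → l ≤ K + 2 → Fw2 S (fun J F => ptr F J) w (fun _ F => F.T)
        (qJets m c 0 r 1 (fun _ _ => w) (fun l _ => pf l) Nf) Ψ (τ := fun _ _ _ _ => ℤ)
        (fun J F _ _ z' G₁ _ _ ω => ⌊(2 : ℝ) ^ ((sn r v + X₁ l - l * v) * J) *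
          ojet F (c r) l (G₁ (z' (slam F ⌊v * J⌋₊ ω))) ω⌋) e (δ * (R * q)))
      (_ : ∀ l, i₂ ≤ l → l ≤ K + 2 → Fw2 S (fun J F => ptr F J) w (fun _ F => F.T)
        (qJets m c 0 r 1 (fun _ _ => w) (fun l _ => pf l) Nf) Ψ (τ := fun _ _ _ _ => ℤ)
        (fun J F _ _ z' _ G₂ _ ω => ⌊(2 : ℝ) ^ ((p₂ + X₂ l - l * v) * J) *
          ojet F κ₂ l (G₂ (z' (slam F ⌊v * J⌋₊ ω))) ω⌋) e (δ * (R * q))),
      (∀ j, 1 ≤ j → j ≤ K + 2 → F1 S (fun J F => ptr F J) (vg w) (fun _ F => F.T)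
        (qJets m c 0 r 1 (fun _ _ => w) (fun l _ => pf l) Nf)
        (qJet m ((range r).image c) (c r) j w (sn r w) (sn r v + a * (R * q) - j * v)) e
        (ε * (R * q))) ∧
      ∀ j ≤ K + 2, ∀ lr : ℝ, 0 < lr → sn r vn + lr + 2 * φ + j * (w - vn) ≤ sn r w →
        lr + 3 * φ ≤ X → p₂ + b * (R * q) - j * v + j * vn + φ ≤ Pn + lr →
        F1 S (fun J F => ptr F J) (vg w) (fun _ F => F.T)
        (qJets m c 0 r 1 (fun _ _ => w) (fun l _ => pf l) Nf)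
        (qJet m ((range (r + 1)).image c) κ₂ j vn Pn (p₂ + b * (R * q) - j * v)) e
        (ε * (R * q)) := by
  obtain ⟨δ₁, hδ₁, N₀, hN₀, HX⟩ := stg_X K hu hn hu1 hn1 hb hab hh hh2 (ε := ε / 4) (by linarith)
  have ha : 0 < a := hb.trans hab
  have hK0 : (0 : ℝ) ≤ K := Nat.cast_nonneg K
  have hKK : (0 : ℝ) < 4 * K + 18 := by linarith
  obtain ⟨δ, hδE⟩ : ∃ δ, δ = δ₁ / (4 * K + 18) := ⟨_, rfl⟩
  have hδ : 0 < δ := by rw [hδE]; positivity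
  have hδK : (4 * K + 18) * δ = δ₁ := by
    rw [hδE]
    field_simp
  have hδ1 : δ ≤ δ₁ := by
    have : δ * 1 ≤ δ * (4 * K + 18) := mul_le_mul_of_nonneg_left (by linarith) hδ.le
    linarith
  refine ⟨δ, hδ, N₀, hN₀, ?_⟩
  intro m S C₀ htm c hr sn G v vn w X φ ℓ kf q R g₁ v₀ vn₀ pf E rd Nf hq hR H Hn hch hpf hNf hNfn HW
    hvq Ψ κ₂ lN e E₂ r₂ p₂ Pn En Rn K₁ PE he hφe hδe hεe hP0 hnear hnX hvw' i₁ i₂ X₁ X₂ hX1 hX2 Mp
    hexM hIp hju hjn hcu hcn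
  have hRq : 0 < R * q := mul_pos hR hq
  have hδq : 0 < δ * (R * q) := mul_pos hδ hRq
  have hδq1 : δ * (R * q) ≤ δ₁ * (R * q) := mul_le_mul_of_nonneg_right hδ1 hRq.le
  have hεq : 0 < ε * (R * q) := mul_pos hε hRq
  have hφ := H.φ0
  obtain ⟨uv, rv, hrv, hcv⟩ := hch.ch v H.vG
  obtain ⟨uw, rw, hrw, hcw⟩ := hch.ch w H.wG
  have hw1 : w ≤ 1 := hcw.u0.le
  have hv0 : 0 ≤ v := hcv.w0
  have hk : c 0 ∈ (range r).image c := Finset.mem_image_of_mem c (Finset.mem_range.2 (by omega))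
  have hA := H.near_n htm hch hpf hNf
  have hAn := Hn.near_n htm hch hpf hNfn
  have hl1 := H.l1
  have hlX := H.lamX
  have hX0 := H.X0
  have hvw := H.vw
  -- the context of the chain
  have hctx : FwX S (fun J F => ptr F J) (vg w) (fun _ F => F.T)
      (qJets m c 0 r 1 (fun _ _ => w) (fun l _ => pf l) Nf) c 0 (r + 1) K E v rd
      (fun i => sn i v) (ctx c 0 r K v ℓ (nX r sn v X)) e (δ₁ * (R * q)) :=
    hA.ctxX htm (fun i x y => (HW.E0 i x y.le).2) hv0 hvw.le hw1 (by linarith)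
      (fun i x y => (HW.rd0 i x y.le).1) (kn_T c _ _) (by positivity) (Nat.le_succ r) he
      (by linarith)
  -- the families
  obtain ⟨ΨT, hΨT⟩ : ∃ ΨT : Fm2 m, ΨT = CxJ Ψ K (c r) κ₂ v (sn r v) p₂ i₁ i₂ X₁ X₂
    (fun _ _ _ _ _ => True) := ⟨_, rfl⟩
  obtain ⟨ΨM, hΨM⟩ : ∃ ΨM : Fm2 m, ΨM = CxJ Ψ K (c r) κ₂ v (sn r v) p₂ i₁ i₂ X₁ X₂ Mp :=
    ⟨_, rfl⟩
  have hTL : PsL ΨT c r K ((range (r + 1)).image c) κ₂ v ℓ e E₂ r₂ p₂ E rd (fun i => sn i v)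
      (nX r sn v X) := by
    rw [hΨT]
    exact cxj_psl PE.psl (fun _ _ _ _ _ _ _ _ => trivial)
  have hML : ∀ (J : ℕ) (F : Fam m J) (A : F.Ω → Prop) (V C : Type) (z : PtT F → V)
      (z' : LnT F → V) (G₁ G₂ : V → MvPolynomial (Option (Fin m)) ℝ) (cc : LnT F → C),
      ΨM J F A V C z z' G₁ G₂ cc → ΨT J F A V C z z' G₁ G₂ cc := by
    rw [hΨM, hΨT]
    intro J F A V C z z' G₁ G₂ cc h1
    exact CxJ.le (fun _ _ _ _ _ _ => trivial) J F A V C z z' G₁ G₂ cc h1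
  have hlb0 : ∀ (J : ℕ) (F : Fam m J) (A : F.Ω → Prop) (V C : Type) (z : PtT F → V)
      (z' : LnT F → V) (G₁ G₂ : V → MvPolynomial (Option (Fin m)) ℝ) (cc : LnT F → C),
      Ψ J F A V C z z' G₁ G₂ cc →
      (∀ v, (G₁ v).totalDegree ≤ K + 1) ∧ (∀ v, (G₂ v).totalDegree ≤ K + 1) ∧
      ∀ ω, A ω → z (ptr F J ω) = z' (slam F ⌊v * J⌋₊ ω) := by
    intro J F A V C z z' G₁ G₂ cc h1
    obtain ⟨⟨g, hlb, rfl, -⟩, h2⟩ := PE.psl.1 J F A V C z z' G₁ G₂ cc h1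
    exact ⟨fun v => ((hlb r (Nat.zero_le r) (Nat.lt_succ_self r)).deg v).trans (by omega),
      fun v => (h2.deg v).trans (by omega), h2.cls⟩
  -- the context of the family
  have hjc1 := jr_of_oj K (p := sn r v) (κ₁ := c r) (X := X₁) (i₀ := i₁) (w := v) (a := w)
    (f := fun J F => ptr F J) (y := fun _ F => F.T) (Ψ := Ψ) (δ := δ * (R * q)) htm hv0 hvw.le hw1
    hX1 (fun J F => ⟨id, fun _ => rfl⟩) hδq.le hδq
    (fun J F A V C z z' G₁ G₂ cc h1 => (hlb0 J F A V C z z' G₁ G₂ cc h1).1) hcu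
  have hjc2 := (jr_of_oj K (p := p₂) (κ₁ := κ₂) (X := X₂) (i₀ := i₂) (w := v) (a := w)
    (f := fun J F => ptr F J) (y := fun _ F => F.T) (Ψ := Ψ.swap) (δ := δ * (R * q)) htm hv0
    hvw.le hw1 hX2 (fun J F => ⟨id, fun _ => rfl⟩) hδq.le hδq
    (fun J F A V C z z' G₁ G₂ cc h1 => (hlb0 J F A V C z z' G₂ G₁ cc h1).2.1)
    (fun l h1 h2 => by
      intro K₀
      refine Bas.mono 0 (hcn l h1 h2 K₀) ?_
      rintro J - F A h3 V C z z' G₁ G₂ cc hΨ' u₀ hu₀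
      exact h3 V C z z' G₂ G₁ cc hΨ' u₀ hu₀)).swap
  have hcx : Fw2 S (fun J F => ptr F J) w (fun _ F => F.T)
      (qJets m c 0 r 1 (fun _ _ => w) (fun l _ => pf l) Nf) ΨT (τ := fun _ _ _ C => C)
      (fun J F _ _ _ _ _ c ω => c (vg v J F ω)) e ((2 * K + 9) * δ * (R * q)) := by
    rw [hΨT]
    refine (cxj_ctx htm ptr_id hvw.le hw1
      (fun J F A V C z z' G₁ G₂ cc h1 => (hlb0 J F A V C z z' G₁ G₂ cc h1).2.2)
      PE.ctx hjc1 hjc2).mono ?_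
    have e1 : δ * (R * q) + ((K + 3) * (δ * (R * q)) + δ * (R * q)) +
        ((K + 3) * (δ * (R * q)) + δ * (R * q)) = (2 * K + 9) * δ * (R * q) := by ring
    rw [e1]
  have hδ2 : (2 * K + 9) * δ * (R * q) ≤ δ₁ * (R * q) := by
    have h1 : 0 < (2 * K + 9) * δ := by positivity
    exact mul_le_mul_of_nonneg_right (by linarith only [hδK, h1]) hRq.le
  have hcM : Fw2 S (fun J F => ptr F J) w (fun _ F => F.T)
      (qJets m c 0 r 1 (fun _ _ => w) (fun l _ => pf l) Nf) ΨM (τ := fun _ _ _ C => C)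
      (fun J F _ _ _ _ _ c ω => c (vg v J F ω)) e ((2 * K + 9) * δ * (R * q)) := by
    intro K₀
    refine Bas.mono 0 (hcx K₀) ?_
    intro J _ F A h1 V C z z' G₁ G₂ cc hΨ' u₀ hu₀
    exact h1 V C z z' G₁ G₂ cc (hML J F A V C z z' G₁ G₂ cc hΨ') u₀ hu₀
  -- the stage
  have hstg := HX htm (c := c) (r₀ := 0) (r := r) (κ₂ := κ₂) (I₂ := (range (r + 1)).image c)
    (v := v) (w := w) (lam := ℓ) (q := R * q) (ρ := φ) (g₀ := g₁) (p₂ := p₂) (E₂ := E₂)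
    (r₂ := r₂) hRq HW hvq (Qu := qJets m c 0 r 1 (fun _ _ => w) (fun l _ => pf l) Nf)
    (f := fun J F => ptr F J) (y := fun _ F => F.T) ptr_id (kn_T c _ _) (a := w) (e := e) le_rfl
    hw1 he (by linarith) (by linarith) hctx (Ψ := ΨT) (Ψ' := ΨM) hTL.1 hTL.2 hML
    (fun i hi j hj hij => by
      rw [hΨM] at hcM ⊢
      have h4 := hIp i hi j hj hij hcM
      rw [hδK] at h4
      exact h4)
    (hcx.mono hδ2) (by
      rw [hΨT]
      exact (cxj_rw2 htm PE.rw₁).le hδq1)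
    (by
      rw [hΨT]
      exact (cxj_rw2s htm PE.rw₂).le hδq1)
    (fun j hj hj1 hjI => by
      rw [hΨT]
      exact (cxj_fw (hju j hj hj1 hjI)).mono hδq1)
    (fun j hj hjI => by
      rw [hΨT]
      rcases Nat.eq_zero_or_pos j with h0 | h0
      · subst h0
        have h1 := (cxj_fw (K := K) (κ₁ := c r) (κ₂ := κ₂) (v := v) (p₁ := sn r v) (p₂ := p₂)
          (i₁ := i₁) (i₂ := i₂) (X₁ := X₁) (X₂ := X₂) (Mp := fun _ _ _ _ _ => True)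
          PE.val).mono hδq1
        simpa only [Nat.cast_zero, zero_mul, sub_zero] using h1
      · exact (cxj_fw (hjn j hj h0 hjI)).mono hδq1)
  have hexΨ : Bas S (fun J F A => ∃ (V C : Type) (z : PtT F → V) (z' : LnT F → V)
      (G₁ G₂ : V → MvPolynomial (Option (Fin m)) ℝ) (cc : LnT F → C),
      ΨM J F A V C z z' G₁ G₂ cc) := by
    rw [hΨM]
    exact cxj_ex PE.ex hexM
  constructor
  · intro j hj1 hj
    obtain ⟨i, rfl⟩ : ∃ i, j = i + 1 := ⟨j - 1, by omega⟩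
    refine (x1_end K htm HW ptr_id (kn_T c _ _) le_rfl hw1 he (by linarith) (x₂ :=
      p₂ + b * (R * q)) (κ₂ := κ₂) (fun J F A V C z z' G₁ G₂ cc h1 =>
        (hTL.1 J F A V C z z' G₁ G₂ cc (hML J F A V C z z' G₁ G₂ cc h1)).1) hexΨ
      (ε := ε / 4 * (R * q)) (by positivity) hstg (j := i) (by omega) (P₂ := sn r w)
      hvw').mono le_rfl ?_
    linarith
  · intro j hj lr hlr h4 h5 h6
    have hjr := oj_of_jr K (κ₁ := c r) (κ₂ := κ₂) (w := v) (a := w) (p₁ := sn r v) (p₂ := p₂)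
      (x₁ := a * (R * q)) (x₂ := b * (R * q)) (f := fun J F => ptr F J) (y := fun _ F => F.T)
      (Ψ := ΨM) (δ := ε * (R * q) / 16) htm hv0 hvw.le hw1 (fun J F => ⟨id, fun _ => rfl⟩)
      (by positivity)
      (fun J F A V C z z' G₁ G₂ cc h1 v =>
        ((hTL.1 J F A V C z z' G₁ G₂ cc (hML J F A V C z z' G₁ G₂ cc h1)).2.deg v).trans
          (by omega)) hstg hj
    have hse := H.selfv htm hch hA hk (j := j) (P := min Pn p₂)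
      (N := p₂ + b * (R * q) - j * v) (by
        have e1 : p₂ + b * (R * q) - j * v + j * v + 3 * φ = p₂ + b * (R * q) + 3 * φ := by ring
        rw [e1]
        exact hnX) (e := 2 * e) (h := ε * (R * q) / 16) (by linarith) (by linarith) (by linarith)
      (by positivity)
    have hjx := jex_of_fw (κ₂ := κ₂) (I₂ := (range (r + 1)).image c)
      (N := p₂ + b * (R * q) - j * v) (j := j) htm hk (e' := 2 * e)
      (K := K) (K₁ := K₁) (E₂ := E₂) (r₂ := r₂) (p₂ := p₂) (Ψ := ΨM) (vn := vn) (En := En)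
      (Rn := Rn) (Pn := Pn) he le_rfl hP0 (min_le_left _ _)
      (min_le_right _ _) (δ := ε * (R * q) / 16) (by positivity) hse
      (fun J F A V C z z' G₁ G₂ cc h1 =>
        (hTL.1 J F A V C z z' G₁ G₂ cc (hML J F A V C z z' G₁ G₂ cc h1)).2)
      (by
        rw [hΨM]
        exact cxj_dcp PE.dcp) hexΨ hjr
    have hr0 : (0 : ℝ) ≤ r := Nat.cast_nonneg r
    refine (H.jn Hn htm hch hA hAn (j := j) (k := κ₂) hnear he (by linarith) (by linarith)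
      (h := ε * (R * q) / 4) (by positivity) ?_ hlr h4 h5 h6 hjx).mono le_rfl (by linarith)
    have hjK : (j : ℝ) + 1 ≤ K + 3 := by
      have : (j : ℝ) ≤ ((K + 2 : ℕ) : ℝ) := by exact_mod_cast hj
      push_cast at this
      linarith
    have h7 : 0 < 128 * (((r : ℝ) + 1) * (j + 1)) := by positivity
    have h8 : 128 * (((r : ℝ) + 1) * (j + 1)) ≤ 128 * ((r + 1) * (K + 3)) := by
      have := mul_le_mul_of_nonneg_left hjK (show (0 : ℝ) ≤ r + 1 by linarith)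
      linarith
    have h9 : ε * (R * q) / (128 * ((r + 1) * (K + 3))) ≤
        ε * (R * q) / (128 * ((r + 1) * (j + 1))) :=
      div_le_div_of_nonneg_left hεq.le h7 h8
    have e2 : ε * (R * q) / 4 / (32 * (((r : ℝ) + 1) * (j + 1))) =
        ε * (R * q) / (128 * ((r + 1) * (j + 1))) := by
      rw [div_div]
      congr 1
      ring
    rw [e2]
    linarith

end Pool.PN18
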