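import Pool.Agent.H18.PN.Stg9

/-!
# A stage at a record, the pair given

`StU`, `StN`: the state between two stages: jets of the place over the labels of `t`, of the next
coordinate over the labels of the early window. `stage_num`: a stage, from the data of a pair.
-/

set_option autoImplicit false

namespace Pool.PN18

open Finset Real MvPolynomial
open Pool.Agent.H49.Ent Pool.Agent.H32.Dense Pool.STK Pool.KA Pool.KSAT Pool.K2S Pool.PB Pool.GEN
open Pool.S6C Pool.RCD Pool.LA91 Pool.OWN68 Pool.AJW Pool.AJX Pool.CHT Pool.PKG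
open Pool.LPK12 (Ip2)
open Pool.CR99 (PairE)

/-- **The state**, the place: jets of the orders `> x`. -/
def StU {m : ℕ} (S : PCl m) (c : ℕ → Fin m) (r K : ℕ) (L : ℕ → ℝ → ℝ → ℝ) (q t : ℝ)
    (pf : ℕ → ℝ) (Nf : ℕ → ℕ → ℝ) (e x τ η : ℝ) : Prop :=
  ∀ j ≤ K + 2, 1 ≤ j → x < (j : ℝ) → F1 S (fun J F => ptr F J) (vg t) (fun _ F => F.T)
    (qJets m c 0 r 1 (fun _ _ => t) (fun l _ => pf l) Nf)
    (qJet m ((range r).image c) (c r) j t (L r t t)
      (L r t t - j * t + ((j - x) * τ - 1) * q)) e (η * q)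

/-- **The state**, the next coordinate: jets of the orders `> y` over the labels of `t - Tn q`. -/
def StN {m : ℕ} (S : PCl m) (c : ℕ → Fin m) (r K : ℕ) (L : ℕ → ℝ → ℝ → ℝ) (q t Tn : ℝ)
    (pf : ℕ → ℝ) (Nf : ℕ → ℕ → ℝ) (e y τ η : ℝ) : Prop :=
  ∀ j ≤ K + 2, 1 ≤ j → y < (j : ℝ) → F1 S (fun J F => ptr F J) (vg t) (fun _ F => F.T)
    (qJets m c 0 r 1 (fun _ _ => t) (fun l _ => pf l) Nf)
    (qJet m ((range (r + 1)).image c) (c (r + 1)) j (t + -Tn * q)
      (L (r + 1) (t + -Tn * q) (t + -Tn * q))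
      (L (r + 1) t t - j * t + ((j - y) * τ - 1) * q)) e (η * q)

/-- **The digits of the near path** over the labels of `t` are at least those of the window
`t - τ q`. -/
def NfP (r : ℕ) (L : ℕ → ℝ → ℝ → ℝ) (X q t τ : ℝ) (Nf : ℕ → ℕ → ℝ) : Prop :=
  ∀ l < r, ∀ j ≤ 1, nX r (fun l x => L l x x) (t + -τ * q) (X * q) l -
    (j : ℕ) * (t + -τ * q) ≤ Nf l j

/-- The digits of the context: `B q` for the order `i`, `A q` for the higher ones. -/
noncomputable def xcf (A B q : ℝ) (i l : ℕ) : ℝ := if l ≤ i then B * q else A * q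

theorem xcf_mono {A B q : ℝ} {i : ℕ} (h : B * q ≤ A * q) (j l : ℕ) (hj : i ≤ j) (hl : j ≤ l) :
    xcf A B q i j ≤ xcf A B q i l := by
  unfold xcf
  split_ifs with h1 h2 h2
  · exact le_rfl
  · exact h
  · omega
  · exact le_rfl

/-- **A stage at a record**, the pair given. -/
theorem stage_num (K r : ℕ) {a b x x' y y' τ τ' R Tn h' η' : ℝ} (hb : 0 < b) (hab : b < a)
    (hx0 : 0 < x') (hxx : x' < x) (hxa : x ≤ a) (hy0 : 0 < y') (hyy : y' < y) (hyb : y ≤ b)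
    (hR0 : 0 < R) (hRa : a * R = (a - x') * τ') (hRb : b * R = (b - y') * τ') (hτ1 : 1 ≤ τ')
    (hxτ : 1 ≤ x' * τ') (hyτ : 1 ≤ y' * τ')
    (hUu : ∀ i i' : ℕ, x' < i → (i : ℝ) ≤ x → x' < i' → (i' : ℝ) ≤ x → i = i')
    (hUn : ∀ j j' : ℕ, y' < j → (j : ℝ) ≤ y → y' < j' → (j' : ℝ) ≤ y → j = j')
    (hT1 : ∀ i : ℕ, i ≤ K + 2 → x < i → (i - x') * τ' + 2 ≤ (i - x) * τ)
    (hT2 : ∀ j : ℕ, j ≤ K + 2 → y < j → (j - y') * τ' + 2 ≤ (j - y) * τ)
    (hT3 : ∀ i : ℕ, (i : ℝ) ≤ x' → (i - x') * τ' + 2 ≤ 0)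
    (hT4 : ∀ j : ℕ, (j : ℝ) ≤ y' → (j - y') * τ' + 2 ≤ 0)
    (hTn : τ' ≤ Tn) (hTa : (K + 2) * τ' + 2 ≤ (a - b) * Tn)
    (hTb : ∀ j : ℕ, j ≤ K + 2 → b < j → (j - y') * τ' ≤ (j - b) * Tn)
    (hh' : 0 < h') (hhb : h' ≤ b) (hη' : 0 < η') :
    ∃ δ : ℝ, 0 < δ ∧ ∃ N₀ : ℕ, 0 < N₀ ∧
    ∀ {m : ℕ} {S : PCl m} {al : ℝ} {g₀ : ℝ → ℝ} {P : List (Fin m) × Fin m → ℝ → ℝ → ℝ}
      {θ : ℝ} {P₂ : ℕ → List (Fin m) × Fin m → ℝ → ℝ → ℝ} {θ₂ Eb e₂ : ℕ → ℝ}
      {c : ℕ → Fin m} {Pt : ℝ → ℝ → ℝ} {rt : ℝ → ℝ} {h K₀ g : ℝ} {L T : ℕ → ℝ → ℝ → ℝ}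
      {Sl : ℕ → ℝ} {κ : ℕ → Kg} {G : Set ℝ} {S₀ N : ℕ} {A V : ℕ → ℝ} {S₂ N' : ℕ} {V' : ℕ → ℝ}
      {K' ε q t : ℝ}
      (_ : RecG S al g₀ P θ P₂ θ₂ Eb e₂ c Pt rt h K₀ g L T Sl κ G S₀ N A V S₂ N' V' K' ε q t)
      (_ : 1 ≤ r) (_ : r + 1 < m) (_ : ∀ l < r, κ l = .one) (_ : Sl r = a)
      (_ : Sl (r + 1) = b) (_ : ChG S c (r + 1) (fun l x => L l x x) G) {X φ kf ℓ e' : ℝ}
      (_ : 0 < φ) (_ : φ ≤ 1 / 8) (_ : 32 * (r + 1) * φ ≤ X)
      (_ : 2 * ((a + b + K + 8) * Tn) + 8 ≤ X) (_ : 3 ^ r * X ≤ kf) (_ : kf + Tn ≤ ℓ)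
      (_ : ℓ ≤ K') (_ : Tn + 3 ^ r * X + 2 ≤ K') (_ : 2 * (a + b) * R ≤ K') (_ : 2 * ε ≤ φ)
      (_ : 0 ≤ ε) (_ : t ∈ G) (_ : ∀ k ≤ r, t + jfV r (-τ') X k * q ∈ G)
      (_ : ∀ k ≤ r, t + jfV r (-Tn) X k * q ∈ G) {pf : ℕ → ℝ} {Nf : ℕ → ℕ → ℝ}
      (_ : ∀ l < r, L l t t - φ * q ≤ pf l) (_ : NfP r L X q t τ' Nf)
      (_ : NfP r L X q t Tn Nf)
      (_ : 0 < e') (_ : e' ≤ φ / 16) (_ : e' ≤ δ * R / 32)
      (_ : e' ≤ η' / (256 * ((r + 1) * (K + 3)))) {E rd : ℕ → ℝ} {m₁ ρ : ℝ}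
      (_ : 3 ^ r * X * q < m₁) (_ : ρ < 1)
      (_ : ∀ i ≤ r, 0 ≤ E i ∧ L i (t + -τ' * q) (t + -τ' * q) + E i + m₁ ≤ 1 ∧
        0 ≤ rd i ∧ rd i ≤ ρ) {Ψ : Fm2 m} {E₂ r₂ En Rn : ℝ} {K₁ : ℕ}
      (_ : PairE S Ψ c r K ((range (r + 1)).image c) (c (r + 1)) a b R h' δ (ℓ * q) N₀
        (t + -τ' * q) t q (fun i => L i (t + -τ' * q) (t + -τ' * q))
        (nX r (fun l x => L l x x) (t + -τ' * q) (X * q)) (fun x => L (r + 1) x x) pf Nf
        (e' * q) E₂ r₂ (L (r + 1) (t + -τ' * q) (t + -τ' * q)) E rd (t + -Tn * q)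
        (L (r + 1) (t + -Tn * q) (t + -Tn * q)) En Rn K₁)
      (_ : ∀ i : ℕ, x' < i → (i : ℝ) ≤ x → i ≤ K + 2 → ∀ j : ℕ, y' < j → (j : ℝ) ≤ y →
        j ≤ K + 2 → (i : ℝ) * b = j * a → ∃ Mp : Cdp m,
        Bas S (fun J F A => ∃ (Y : Type) (y : PtT F → Y) (y' : LnT F → Y),
          (∀ ω, A ω → y (ptr F J ω) = y' (slam F ⌊(t + -τ' * q) * J⌋₊ ω)) ∧
          Mp J F A Y (fun ω => y' (slam F ⌊(t + -τ' * q) * J⌋₊ ω))) ∧
        (Fw2 S (fun J F => ptr F J) t (fun _ F => F.T)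
          (qJets m c 0 r 1 (fun _ _ => t) (fun l _ => pf l) Nf)
          (CxJ Ψ K (c r) (c (r + 1)) (t + -τ' * q) (L r (t + -τ' * q) (t + -τ' * q))
            (L (r + 1) (t + -τ' * q) (t + -τ' * q)) i j (xcf (a * R) ((a - i) * τ' - φ) q i)
            (xcf (b * R) ((b - j) * τ' - φ) q j) Mp) (τ := fun _ _ _ C => C)
          (fun J F _ _ _ _ _ c ω => c (vg (t + -τ' * q) J F ω)) (e' * q)
          ((2 * K + 9) * δ * (R * q)) →
        Ip2 S (fun J F => ptr F J) t (fun _ F => F.T)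
          (qJets m c 0 r 1 (fun _ _ => t) (fun l _ => pf l) Nf)
          (CxJ Ψ K (c r) (c (r + 1)) (t + -τ' * q) (L r (t + -τ' * q) (t + -τ' * q))
            (L (r + 1) (t + -τ' * q) (t + -τ' * q)) i j (xcf (a * R) ((a - i) * τ' - φ) q i)
            (xcf (b * R) ((b - j) * τ' - φ) q j) Mp) (c r) (c (r + 1)) (t + -τ' * q)
          (L r (t + -τ' * q) (t + -τ' * q) + a * (R * q) - i * (t + -τ' * q))
          (L (r + 1) (t + -τ' * q) (t + -τ' * q) + b * (R * q) - j * (t + -τ' * q)) i j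
          (e' * q) ((4 * K + 18) * δ * (R * q))))
      (_ : ∀ j : ℕ, 1 ≤ j → (j : ℝ) ≤ b → j ≤ K + 2 → F1 S (fun J F => ptr F J) (vg t)
        (fun _ F => F.T) (qJets m c 0 r 1 (fun _ _ => t) (fun l _ => pf l) Nf)
        (qJet m ((range (r + 1)).image c) (c (r + 1)) j (t + -Tn * q)
          (L (r + 1) (t + -Tn * q) (t + -Tn * q)) (L (r + 1) t t - j * t)) (e' * q)
        (δ * R / 2 * q))
      (_ : StU S c r K L q t pf Nf (e' * q) x τ (δ * R / 2))
      (_ : StN S c r K L q t Tn pf Nf (e' * q) y τ (δ * R / 2)),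
      StU S c r K L q t pf Nf (e' * q) x' τ' η' ∧ StN S c r K L q t Tn pf Nf (e' * q) y' τ' η' := by
  classical
  have ha : 0 < a := hb.trans hab
  -- the alive orders
  obtain ⟨Iu, hIu⟩ : ∃ Iu : Finset ℕ, Iu = (Finset.range (K + 3)).filter
    (fun i : ℕ => x' < i ∧ (i : ℝ) ≤ x) := ⟨_, rfl⟩
  obtain ⟨In, hIn⟩ : ∃ In : Finset ℕ, In = (Finset.range (K + 3)).filter
    (fun j : ℕ => y' < j ∧ (j : ℝ) ≤ y) := ⟨_, rfl⟩
  have mIu : ∀ i, i ∈ Iu ↔ i < K + 3 ∧ x' < i ∧ (i : ℝ) ≤ x := fun i => by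
    rw [hIu, Finset.mem_filter, Finset.mem_range]
  have mIn : ∀ j, j ∈ In ↔ j < K + 3 ∧ y' < j ∧ (j : ℝ) ≤ y := fun j => by
    rw [hIn, Finset.mem_filter, Finset.mem_range]
  have pos1 : ∀ {z : ℝ} {i : ℕ}, 0 < z → z < i → 1 ≤ i := fun {z i} h1 h2 => by
    have h3 : (0 : ℝ) < i := h1.trans h2
    exact Nat.one_le_iff_ne_zero.2 (by
      rintro rfl
      simp at h3)
  obtain ⟨δ, hδ, N₀, hN₀, H⟩ := stage_cls K r (Iu := Iu) (In := In)
    (fun i hi => ⟨pos1 hx0 ((mIu i).1 hi).2.1, by have := ((mIu i).1 hi).1; omega⟩)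
    (fun j hj => ⟨pos1 hy0 ((mIn j).1 hj).2.1, by have := ((mIn j).1 hj).1; omega⟩)
    (Finset.card_le_one.2 fun i hi i' hi' => hUu i i' ((mIu i).1 hi).2.1 ((mIu i).1 hi).2.2
      ((mIu i').1 hi').2.1 ((mIu i').1 hi').2.2)
    (Finset.card_le_one.2 fun j hj j' hj' => hUn j j' ((mIn j).1 hj).2.1 ((mIn j).1 hj).2.2
      ((mIn j').1 hj').2.1 ((mIn j').1 hj').2.2) hb hab hh' hhb (ε := η' / (2 * R))
    (by positivity)
  refine ⟨δ, hδ, N₀, hN₀, ?_⟩
  intro m S al g₀ P θ P₂ θ₂ Eb e₂ c Pt rt h K₀ g L T Sl κ G S₀ N A V S₂ N' V' K' ε q t Rc hr hrm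
    hκ hSa hSb hch X φ kf ℓ e' hφ hφ8 hφX hX hkf hℓ hℓK hK1 hK2 hεφ hε htG hvG hnG pf Nf hpf hNf hNfn
    he' he1 he2 he3 E rd m₁ ρ hm₁ hρ hE Ψ E₂ r₂ En Rn K₁ PE hIp hNat SU SN
  have hq := Rc.q0
  have ht0 := Rc.t0
  have ht1 := Rc.t1
  have htm := Rc.tmc
  have hK0 : (0 : ℝ) ≤ K := Nat.cast_nonneg K
  have hr0 : (1 : ℝ) ≤ r := by exact_mod_cast hr
  have hTn0 : 0 < Tn := by linarith only [hτ1, hTn]
  have hτ0 : 0 < τ' := by linarith only [hτ1]
  have hRq : 0 < R * q := mul_pos hR0 hq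
  have haTn : 0 < a * Tn := mul_pos ha hTn0
  have hbTn : 0 < b * Tn := mul_pos hb hTn0
  have hKTn : 0 ≤ K * Tn := mul_nonneg hK0 hTn0.le
  have hRτ : a * R ≤ a * τ' - 1 := by
    have : a * R = a * τ' - x' * τ' := by rw [hRa]; ring
    linarith only [this, hxτ]
  have hRτb : b * R ≤ b * τ' - 1 := by
    have : b * R = b * τ' - y' * τ' := by rw [hRb]; ring
    linarith only [this, hyτ]
  have haτ : a * τ' ≤ a * Tn := mul_le_mul_of_nonneg_left hTn ha.le
  have hbτ : b * τ' ≤ b * Tn := mul_le_mul_of_nonneg_left hTn hb.le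
  have hKτ : K * τ' ≤ K * Tn := mul_le_mul_of_nonneg_left hTn hK0
  have hX' : 2 * (a * Tn + b * Tn + K * Tn + 8 * Tn) + 8 ≤ X := by
    have e1 : 2 * ((a + b + K + 8) * Tn) + 8 = 2 * (a * Tn + b * Tn + K * Tn + 8 * Tn) + 8 := by
      ring
    rw [← e1]
    exact hX
  have hX0 : 0 < X := by linarith only [hX', haTn, hbTn, hKTn, hTn0]
  have h3X : 0 < 3 ^ r * X := by positivity
  -- the windows
  have U : JfU r K (-τ') X φ ℓ kf :=
    { vv0 := by linarith only [hτ0]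
      φ0 := hφ
      XK := by
        have e1 : 2 * (((K : ℝ) + 6) * - -τ') = 2 * (K * τ' + 6 * τ') := by ring
        rw [e1]
        linarith only [hX', haTn, hbTn, hKτ, hTn, hTn0]
      φX := hφX
      kfX := hkf
      lamk := by linarith only [hℓ, hTn] }
  have Un : JfU r K (-Tn) X φ ℓ kf :=
    { vv0 := by linarith only [hTn0]
      φ0 := hφ
      XK := by
        have e1 : 2 * (((K : ℝ) + 6) * - -Tn) = 2 * (K * Tn + 6 * Tn) := by ring
        rw [e1]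
        linarith only [hX', haTn, hbTn, hTn0]
      φX := hφX
      kfX := hkf
      lamk := by linarith only [hℓ] }
  have J := Rc.jf hκ (by omega) U htG hvG (by linarith only [hK1, hTn]) hℓK hεφ
  have Jn := Rc.jf hκ (by omega) Un htG hnG (by linarith only [hK1]) hℓK hεφ
  obtain ⟨g₁, hg₁, hJ⟩ := Rc.jetx hκ (by omega) hch U htG hvG (by linarith only [hK1, hTn]) hℓK
    hεφ hm₁ hρ hE
  have haR : 0 < a * R := mul_pos ha hR0
  have hJ := hJ (a * R) haR (by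
    have e1 : 2 * (a * R + ((K : ℝ) + 6) * - -τ') = 2 * (a * R + K * τ' + 6 * τ') := by ring
    rw [e1]
    linarith only [hX', haTn, hbTn, hKτ, hTn, hTn0, hRτ, haτ]) (by
    rw [neg_neg, hSa]
    linarith only [hRτ, hφ8, hεφ])
  have e1 : a * R * q = a * (R * q) := by ring
  rw [e1] at hJ
  -- the levels
  have hK'0 : 0 < K' := by linarith only [hK1, hTn0, h3X]
  have hnear : ∀ x : ℝ, 0 ≤ x → x ≤ K' → |t + -x * q - t| ≤ K' * q := fun x h1 h2 => by
    rw [add_sub_cancel_left, neg_mul, abs_neg, abs_mul, abs_of_nonneg h1, abs_of_pos hq]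
    exact mul_le_mul_of_nonneg_right h2 hq.le
  have hdv := abs_le.1 (Rc.dL r (by omega) _ (hnear τ' hτ0.le (by linarith only [hK1, h3X, hTn])))
  have hdn := abs_le.1 (Rc.dL r (by omega) _ (hnear Tn hTn0.le (by linarith only [hK1, h3X])))
  have hNv := abs_le.1 (Rc.dL (r + 1) hrm _ (hnear τ' hτ0.le
    (by linarith only [hK1, h3X, hTn])))
  have hNn := abs_le.1 (Rc.dL (r + 1) hrm _ (hnear Tn hTn0.le (by linarith only [hK1, h3X])))
  rw [hSa] at hdv hdn
  rw [hSb] at hNv hNn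
  have ev : ∀ z : ℝ, t + -z * q - t = -(z * q) := fun z => by ring
  rw [ev] at hdv hdn hNv hNn
  obtain ⟨v, hv⟩ : ∃ v, v = t + -τ' * q := ⟨_, rfl⟩
  obtain ⟨vn, hvn⟩ : ∃ vn, vn = t + -Tn * q := ⟨_, rfl⟩
  have hv' : v = t - τ' * q := by rw [hv]; ring
  have hvn' : vn = t - Tn * q := by rw [hvn]; ring
  have hτq : 0 < τ' * q := mul_pos hτ0 hq
  have hTq : τ' * q ≤ Tn * q := mul_le_mul_of_nonneg_right hTn hq.le
  have hTnq : 0 < Tn * q := mul_pos hTn0 hq
  have hKq : (Tn + 3 ^ r * X + 2) * q ≤ K' * q := mul_le_mul_of_nonneg_right hK1 hq.le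
  have h3Xq : 0 < 3 ^ r * X * q := mul_pos h3X hq
  have hvn0 : 2 * q ≤ vn := by
    rw [hvn']
    linarith only [hKq, ht0, h3Xq, hq]
  have hv0 : 2 * q ≤ v := by linarith only [hvn0, hvn', hv', hTq]
  have ht1' : t ≤ 1 := by linarith only [ht1, mul_pos hK'0 hq]
  have hNn0 : vn ≤ L (r + 1) vn vn := Rc.low_at hrm (by linarith only [hvn0, hq]) le_rfl
    (by linarith only [hvn', hTnq, ht1'])
  have hNv0 : v ≤ L (r + 1) v v := Rc.low_at hrm (by linarith only [hv0, hq]) le_rfl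
    (by linarith only [hv', hτq, ht1'])
  unfold NfP at hNf hNfn
  rw [← hv] at J hJ hE PE hIp hdv hNv hNf
  rw [← hvn] at Jn PE hNat hdn hNn hNfn
  obtain ⟨Lt, hLt⟩ : ∃ Lt, Lt = L r t t := ⟨_, rfl⟩
  obtain ⟨Lv, hLv⟩ : ∃ Lv, Lv = L r v v := ⟨_, rfl⟩
  obtain ⟨Ln, hLn⟩ : ∃ Ln, Ln = L r vn vn := ⟨_, rfl⟩
  obtain ⟨Mt, hMt⟩ : ∃ Mt, Mt = L (r + 1) t t := ⟨_, rfl⟩
  obtain ⟨Mv, hMv⟩ : ∃ Mv, Mv = L (r + 1) v v := ⟨_, rfl⟩
  obtain ⟨Mn, hMn⟩ : ∃ Mn, Mn = L (r + 1) vn vn := ⟨_, rfl⟩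
  rw [← hLt, ← hLv] at hdv
  rw [← hLt, ← hLn] at hdn
  rw [← hMt, ← hMv] at hNv
  rw [← hMt, ← hMn] at hNn
  rw [← hMn] at hNn0
  rw [← hMv] at hNv0
  have hpr : ∀ z w : ℝ, z * -(w * q) = -(z * w * q) := fun z w => by ring
  rw [hpr] at hdv hdn hNv hNn
  have hεq : 0 ≤ ε * q := mul_nonneg hε hq.le
  have hεφq : 2 * ε * q ≤ φ * q := mul_le_mul_of_nonneg_right hεφ hq.le
  have hφq : 0 < φ * q := mul_pos hφ hq
  have hφq8 : φ * q ≤ 1 / 8 * q := mul_le_mul_of_nonneg_right hφ8 hq.le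
  have hRaq : a * (R * q) = a * τ' * q - x' * τ' * q := by
    rw [← e1, hRa]
    ring
  have hRbq : b * (R * q) = b * τ' * q - y' * τ' * q := by
    have e2 : b * (R * q) = b * R * q := by ring
    rw [e2, hRb]
    ring
  have hxτq : 1 * q ≤ x' * τ' * q := mul_le_mul_of_nonneg_right hxτ hq.le
  have hyτq : 1 * q ≤ y' * τ' * q := mul_le_mul_of_nonneg_right hyτ hq.le
  have haτq : 0 < a * τ' * q := mul_pos (mul_pos ha hτ0) hq
  have hbτq : 0 < b * τ' * q := mul_pos (mul_pos hb hτ0) hq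
  have haTnq : a * τ' * q ≤ a * Tn * q := mul_le_mul_of_nonneg_right haτ hq.le
  have hbTnq : b * τ' * q ≤ b * Tn * q := mul_le_mul_of_nonneg_right hbτ hq.le
  have hXq : (2 * (a * Tn + b * Tn + K * Tn + 8 * Tn) + 8) * q ≤ X * q :=
    mul_le_mul_of_nonneg_right hX' hq.le
  have hKτq : K * τ' * q ≤ K * Tn * q := mul_le_mul_of_nonneg_right hKτ hq.le
  have hKTnq : 0 ≤ K * Tn * q := mul_nonneg hKTn hq.le
  have haTnq0 : 0 < a * Tn * q := mul_pos haTn hq
  have hbTnq0 : 0 < b * Tn * q := mul_pos hbTn hq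
  have hKτ0 : 0 ≤ K * τ' * q := mul_nonneg (mul_nonneg hK0 hτ0.le) hq.le
  have hjK : ∀ j : ℕ, j ≤ K + 2 → (j : ℝ) * (τ' * q) ≤ K * τ' * q + 2 * τ' * q := fun j hj => by
    have h1 : (j : ℝ) ≤ K + 2 := by exact_mod_cast hj
    have h2 := mul_le_mul_of_nonneg_right h1 hτq.le
    linarith only [h2]
  have hjv : ∀ j : ℕ, (j : ℝ) * v = j * t - j * (τ' * q) := fun j => by rw [hv']; ring
  have hjvn : ∀ j : ℕ, (j : ℝ) * vn = j * t - j * (Tn * q) := fun j => by rw [hvn']; ring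
  have haRq : 0 < a * (R * q) := mul_pos ha hRq
  have hLvt : Lv ≤ Lt := by linarith only [hdv.2, haτq, hεφq, hφq8, hxτq, hRaq, haRq]
  have hmuv : min Lt Lv = Lv := min_eq_right hLvt
  have hmn1 : Mv - (b * Tn * q - b * τ' * q) - 2 * (ε * q) ≤ min Mn Mv :=
    le_min (by linarith only [hNv.2, hNn.1]) (by linarith only [hbTnq, hεq])
  -- the error
  have he : 0 < e' * q := mul_pos he' hq
  have he1q : e' * q ≤ φ / 16 * q := mul_le_mul_of_nonneg_right he1 hq.le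
  have he2q : e' * q ≤ δ * R / 32 * q := mul_le_mul_of_nonneg_right he2 hq.le
  have hδRq : 0 < δ * R * q := mul_pos (mul_pos hδ hR0) hq
  have eδ : δ * (R * q) = δ * R * q := by ring
  have hηq : η' / (2 * R) * (R * q) = η' / 2 * q := by field_simp
  have hηq0 : 0 < η' * q := mul_pos hη' hq
  have hA := J.near_n htm hch (pf := pf) (Nf := Nf) hpf hNf
  have hJw1 : t < 1 := by
    obtain ⟨uw, rw', hrw, hcw⟩ := hch.ch t htG
    exact hcw.u0
  have ht00 : 0 ≤ t := by linarith only [hv0, hv', hτq, hq]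
  -- the natural jets of the place
  have hUn0 : ∀ j : ℕ, F1 S (fun J F => ptr F J) (vg t) (fun _ F => F.T)
      (qJets m c 0 r 1 (fun _ _ => t) (fun l _ => pf l) Nf)
      (qJet m ((range r).image c) (c r) j t (L r t t) (L r t t - j * t)) (e' * q)
      (δ * R / 4 * q) := fun j =>
    F1.of0 htm ((few0_jq htm ht00 hJw1 (by linarith only []) (fun J F => ptr F J) (vg t)
      (fun _ F => F.T) (h := δ * R / 4 * q) (by linarith only [hδRq])).mono
      (by linarith only [he2q, hδRq]) le_rfl)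
  -- the inputs, the place
  have inU : ∀ j ≤ K + 2, 1 ≤ j → ∀ N : ℝ, N ≤ Lv + a * (R * q) - j * v →
      (x < j ∨ N ≤ Lt - j * t) → Fw2 S (fun J F => ptr F J) t (fun _ F => F.T)
      (qJets m c 0 r 1 (fun _ _ => t) (fun l _ => pf l) Nf) Ψ (τ := fun _ _ _ _ => ℤ)
      (fun J F _ _ z' G₁ _ _ ω => ⌊(2 : ℝ) ^ (N * J) * ojet F (c r) j
        (G₁ (z' (slam F ⌊v * J⌋₊ ω))) ω⌋) (e' * q) (δ * (R * q)) := by
    intro j hj hj1 N hN hcase
    have h1 := hjK j hj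
    have h2 := hjv j
    have h3 : N + j * t + 3 * (φ * q) + (t - v) ≤ min (L r t t) (L r v v) + X * q := by
      rw [← hLt, ← hLv, hmuv]
      linarith only [hN, h1, h2, hXq, hRaq, hxτq, haTnq, hbTnq0, hKτq, hKTnq, hφq8, hv', hTq, hq,
        haTnq0, hTnq]
    rcases hcase with hx | hnat
    · refine (fwu_of_ju J htm hch hA rfl PE.psl (j := j) (N := N) ?_ h3 (h := δ * R / 4 * q) he
        (by linarith only [he1q, hφq]) (by linarith only [he1q, hφq])
        (by linarith only [hδRq]) (SU j hj hj1 hx)).mono (by linarith only [hδRq])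
      have h4 := mul_le_mul_of_nonneg_right (hT1 j hj hx) hq.le
      rw [← hLt]
      linarith only [hN, h2, h4, hdv.2, hRaq, hεφq, hφq8, hq]
    · refine (fwu_of_ju J htm hch hA rfl PE.psl (j := j) (N := N) (N₁ := L r t t - j * t) ?_ h3
        (h := δ * R / 4 * q) he
        (by linarith only [he1q, hφq]) (by linarith only [he1q, hφq])
        (by linarith only [hδRq]) (hUn0 j)).mono (by linarith only [hδRq])
      rw [← hLt]
      exact hnat
  -- the inputs, the next coordinate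
  have inN : ∀ j ≤ K + 2, 1 ≤ j → ∀ N : ℝ, N ≤ Mv + b * (R * q) - j * v →
      (y < j ∨ (N ≤ Mt - j * t ∧ (j : ℝ) ≤ b)) → Fw2 S (fun J F => ptr F J) t (fun _ F => F.T)
      (qJets m c 0 r 1 (fun _ _ => t) (fun l _ => pf l) Nf) Ψ (τ := fun _ _ _ _ => ℤ)
      (fun J F _ _ z' _ G₂ _ ω => ⌊(2 : ℝ) ^ (N * J) * ojet F (c (r + 1)) j
        (G₂ (z' (slam F ⌊v * J⌋₊ ω))) ω⌋) (e' * q) (δ * (R * q)) := by
    intro j hj hj1 N hN hcase
    have h2 := hjv j
    have h3 : N + j * v + 3 * (φ * q) ≤ min (L (r + 1) vn vn) (L (r + 1) v v) + X * q := by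
      rw [← hMn, ← hMv]
      linarith only [hN, hmn1, hXq, hRbq, hyτq, haTnq0, hbTnq, hbTnq0, hKTnq, hφq8, hq, hεφq,
        hTnq]
    have h4 : 2 * (e' * q) ≤ min (L (r + 1) vn vn) (L (r + 1) v v) := by
      rw [← hMn, ← hMv]
      exact le_min (by linarith only [hNn0, hvn0, he1q, hφq8, hφq])
        (by linarith only [hNv0, hv0, he1q, hφq8, hφq])
    rcases hcase with hy | ⟨hnat, hjb⟩
    · refine (fwn_of_jn J htm hch hr hA PE.psl PE.dcp (j := j) (N := N) ?_ h4 h3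
        (h := δ * R / 4 * q) he
        (by linarith only [he1q, hφq]) (by linarith only [he1q, hφq])
        (by linarith only [hδRq]) (by
          have := SN j hj hj1 hy
          rw [← hvn] at this
          exact this)).mono (by linarith only [hδRq])
      have h5 := mul_le_mul_of_nonneg_right (hT2 j hj hy) hq.le
      rw [← hMt]
      linarith only [hN, h2, h5, hNv.2, hRbq, hεφq, hφq8, hq]
    · refine (fwn_of_jn J htm hch hr hA PE.psl PE.dcp (j := j) (N := N)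
        (N₁ := L (r + 1) t t - j * t) ?_ h4 h3
        (h := δ * R / 4 * q) he
        (by linarith only [he1q, hφq]) (by linarith only [he1q, hφq])
        (by linarith only [hδRq]) (hNat j hj1 hjb hj)).mono (by linarith only [hδRq])
      rw [← hMt]
      exact hnat
  -- the natural orders
  have natU : ∀ j ≤ K + 2, 1 ≤ j → j ∉ Iu →
      (x < j ∨ Lv + a * (R * q) - j * v ≤ Lt - j * t) := by
    intro j hj hj1 hjI
    by_cases h1 : x < (j : ℝ)
    · exact Or.inl h1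
    · right
      have h2 : (j : ℝ) ≤ x' := by
        by_contra h3
        exact hjI ((mIu j).2 ⟨by omega, not_le.1 h3, not_lt.1 h1⟩)
      have h3 := mul_le_mul_of_nonneg_right (hT3 j h2) hq.le
      have h4 := hjv j
      linarith only [h3, h4, hdv.2, hRaq, hεφq, hφq8, hq]
  have natN : ∀ j ≤ K + 2, 1 ≤ j → j ∉ In →
      (y < j ∨ (Mv + b * (R * q) - j * v ≤ Mt - j * t ∧ (j : ℝ) ≤ b)) := by
    intro j hj hj1 hjI
    by_cases h1 : y < (j : ℝ)
    · exact Or.inl h1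
    · right
      have h2 : (j : ℝ) ≤ y' := by
        by_contra h3
        exact hjI ((mIn j).2 ⟨by omega, not_le.1 h3, not_lt.1 h1⟩)
      have h3 := mul_le_mul_of_nonneg_right (hT4 j h2) hq.le
      have h4 := hjv j
      exact ⟨by linarith only [h3, h4, hNv.2, hRbq, hεφq, hφq8, hq],
        by linarith only [h2, hyy, hyb]⟩
  -- the context: the orders and the closed code
  have hexi : ∃ (i₁ i₂ : ℕ) (X₁ X₂ : ℕ → ℝ) (Mp : Cdp m),
      (∀ j l, i₁ ≤ j → j ≤ l → X₁ j ≤ X₁ l) ∧ (∀ j l, i₂ ≤ j → j ≤ l → X₂ j ≤ X₂ l) ∧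
      Bas S (fun J F A => ∃ (Y : Type) (y : PtT F → Y) (y' : LnT F → Y),
        (∀ ω, A ω → y (ptr F J ω) = y' (slam F ⌊v * J⌋₊ ω)) ∧
        Mp J F A Y (fun ω => y' (slam F ⌊v * J⌋₊ ω))) ∧
      (∀ i ∈ Iu, ∀ j ∈ In, (i : ℝ) * b = j * a →
        Fw2 S (fun J F => ptr F J) t (fun _ F => F.T)
        (qJets m c 0 r 1 (fun _ _ => t) (fun l _ => pf l) Nf)
        (CxJ Ψ K (c r) (c (r + 1)) v (L r v v) (L (r + 1) v v) i₁ i₂ X₁ X₂ Mp)
        (τ := fun _ _ _ C => C) (fun J F _ _ _ _ _ c ω => c (vg v J F ω)) (e' * q)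
        ((2 * K + 9) * δ * (R * q)) → Ip2 S (fun J F => ptr F J) t
        (fun _ F => F.T) (qJets m c 0 r 1 (fun _ _ => t) (fun l _ => pf l) Nf)
        (CxJ Ψ K (c r) (c (r + 1)) v (L r v v) (L (r + 1) v v) i₁ i₂ X₁ X₂ Mp) (c r)
        (c (r + 1)) v (L r v v + a * (R * q) - i * v) (L (r + 1) v v + b * (R * q) - j * v) i j
        (e' * q) ((4 * K + 18) * δ * (R * q))) ∧
      (∀ l, i₁ ≤ l → l ≤ K + 2 → Fw2 S (fun J F => ptr F J) t (fun _ F => F.T)
        (qJets m c 0 r 1 (fun _ _ => t) (fun l _ => pf l) Nf) Ψ (τ := fun _ _ _ _ => ℤ)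
        (fun J F _ _ z' G₁ _ _ ω => ⌊(2 : ℝ) ^ ((L r v v + X₁ l - l * v) * J) *
          ojet F (c r) l (G₁ (z' (slam F ⌊v * J⌋₊ ω))) ω⌋) (e' * q) (δ * (R * q))) ∧
      (∀ l, i₂ ≤ l → l ≤ K + 2 → Fw2 S (fun J F => ptr F J) t (fun _ F => F.T)
        (qJets m c 0 r 1 (fun _ _ => t) (fun l _ => pf l) Nf) Ψ (τ := fun _ _ _ _ => ℤ)
        (fun J F _ _ z' _ G₂ _ ω => ⌊(2 : ℝ) ^ ((L (r + 1) v v + X₂ l - l * v) * J) *
          ojet F (c (r + 1)) l (G₂ (z' (slam F ⌊v * J⌋₊ ω))) ω⌋) (e' * q) (δ * (R * q))) := by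
    by_cases hres : ∃ i ∈ Iu, ∃ j ∈ In, (i : ℝ) * b = j * a
    · obtain ⟨i, hi, j, hj, hij⟩ := hres
      have hi' := (mIu i).1 hi
      have hj' := (mIn j).1 hj
      obtain ⟨Mp, h1, h2⟩ := hIp i hi'.2.1 hi'.2.2 (by omega) j hj'.2.1 hj'.2.2 (by omega) hij
      have hi1 := pos1 hx0 hi'.2.1
      have hj1 := pos1 hy0 hj'.2.1
      have hB1 : ((a - i) * τ' - φ) * q ≤ a * R * q := by
        refine mul_le_mul_of_nonneg_right ?_ hq.le
        have h3 := mul_le_mul_of_nonneg_right hi'.2.1.le hτ0.le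
        rw [hRa]
        linarith only [h3, hφ]
      have hB2 : ((b - j) * τ' - φ) * q ≤ b * R * q := by
        refine mul_le_mul_of_nonneg_right ?_ hq.le
        have h3 := mul_le_mul_of_nonneg_right hj'.2.1.le hτ0.le
        rw [hRb]
        linarith only [h3, hφ]
      refine ⟨i, j, xcf (a * R) ((a - i) * τ' - φ) q i, xcf (b * R) ((b - j) * τ' - φ) q j, Mp,
        xcf_mono hB1, xcf_mono hB2, h1, ?_, ?_, ?_⟩
      · intro i' hi2 j' hj2 _
        have ei : i' = i := hUu i' i ((mIu i').1 hi2).2.1 ((mIu i').1 hi2).2.2 hi'.2.1 hi'.2.2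
        have ej : j' = j := hUn j' j ((mIn j').1 hj2).2.1 ((mIn j').1 hj2).2.2 hj'.2.1 hj'.2.2
        rw [ei, ej]
        exact h2
      · intro l hl1 hl2
        rw [← hLv]
        rcases Nat.lt_or_ge i l with h3 | h3
        · have e2 : xcf (a * R) ((a - i) * τ' - φ) q i l = a * (R * q) := by
            unfold xcf
            rw [if_neg (by omega)]
            ring
          rw [e2]
          have hlI : l ∉ Iu := fun h4 => by
            have := hUu l i ((mIu l).1 h4).2.1 ((mIu l).1 h4).2.2 hi'.2.1 hi'.2.2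
            omega
          exact inU l hl2 (by omega) _ le_rfl (natU l hl2 (by omega) hlI)
        · obtain rfl : l = i := by omega
          have e2 : xcf (a * R) ((a - l) * τ' - φ) q l l = ((a - l) * τ' - φ) * q := by
            unfold xcf
            rw [if_pos le_rfl]
          rw [e2]
          refine inU l hl2 (by omega) _ (by linarith only [hB1]) (Or.inr ?_)
          have h4 := hjv l
          linarith only [h4, hdv.2, hεφq, hφq, hq]
      · intro l hl1 hl2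
        rw [← hMv]
        rcases Nat.lt_or_ge j l with h3 | h3
        · have e2 : xcf (b * R) ((b - j) * τ' - φ) q j l = b * (R * q) := by
            unfold xcf
            rw [if_neg (by omega)]
            ring
          rw [e2]
          have hlI : l ∉ In := fun h4 => by
            have := hUn l j ((mIn l).1 h4).2.1 ((mIn l).1 h4).2.2 hj'.2.1 hj'.2.2
            omega
          exact inN l hl2 (by omega) _ le_rfl (natN l hl2 (by omega) hlI)
        · obtain rfl : l = j := by omega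
          have e2 : xcf (b * R) ((b - l) * τ' - φ) q l l = ((b - l) * τ' - φ) * q := by
            unfold xcf
            rw [if_pos le_rfl]
          rw [e2]
          refine inN l hl2 (by omega) _ (by linarith only [hB2]) (Or.inr ⟨?_, by
            linarith only [hj'.2.2, hyb]⟩)
          have h4 := hjv l
          linarith only [h4, hNv.2, hεφq, hφq, hq]
    · refine ⟨K + 3, K + 3, fun _ => 0, fun _ => 0, fun _ _ _ _ _ => True, fun _ _ _ _ => le_rfl,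
        fun _ _ _ _ => le_rfl, ⟨1, one_pos, 0, fun J _ F A _ =>
          ⟨Unit, fun _ => (), fun _ => (), fun _ _ => rfl, trivial⟩⟩, ?_,
        fun l h1 h2 => by omega, fun l h1 h2 => by omega⟩
      intro i hi j hj hij
      exact absurd ⟨i, hi, j, hj, hij⟩ hres
  obtain ⟨i₁, i₂, X₁, X₂, Mp, hX1, hX2, hexM, hIp', hcu, hcn⟩ := hexi
  rw [← hLv] at hcu
  rw [← hMv] at hcn
  have hmain := H htm hr hq hR0 J Jn hch (pf := pf) (Nf := Nf) hpf hNf hNfn hJ ?_ PE he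
    (by linarith only [he1q])
    (by rw [eδ]; linarith only [he2q, hδRq]) ?_ ?_ ?_ ?_ ?_ (i₁ := i₁) (i₂ := i₂) hX1 hX2 hexM
    hIp' (fun j h1 h2 h3 => by
      have h4 := inU j h1 h2 _ le_rfl (natU j h1 h2 h3)
      rw [hLv] at h4
      exact h4)
    (fun j h1 h2 h3 => by
      have h4 := inN j h1 h2 _ le_rfl (natN j h1 h2 h3)
      rw [hMv] at h4
      exact h4)
    (by rw [hLv] at hcu; exact hcu) (by rw [hMv] at hcn; exact hcn)
  rotate_left
  · have h1 := mul_le_mul_of_nonneg_right hK2 hq.le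
    have e2 : 2 * (a + b) * (R * q) = 2 * (a + b) * R * q := by ring
    rw [e2, hv']
    linarith only [h1, ht1, hτq]
  · rw [hηq]
    have h1 := mul_le_mul_of_nonneg_right he3 hq.le
    have e2 : η' / 2 * q / (128 * (((r : ℝ) + 1) * (K + 3))) =
        η' / (256 * ((r + 1) * (K + 3))) * q := by
      field_simp
      norm_num
    rw [e2]
    exact h1
  · show 2 * (e' * q) ≤ min (L (r + 1) vn vn) (L (r + 1) v v)
    rw [← hMn, ← hMv]
    exact le_min (by linarith only [hNn0, hvn0, he1q, hφq8, hφq])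
      (by linarith only [hNv0, hv0, he1q, hφq8, hφq])
  · show L r t t + 2 * (φ * q) + (t - v) ≤ min (L r t t) (L r vn vn) + X * q
    rw [← hLt, ← hLn]
    have h1 : Lt - a * Tn * q - ε * q ≤ min Lt Ln :=
      le_min (by linarith only [haTnq0, hεq]) (by linarith only [hdn.1])
    linarith only [h1, hXq, hbTnq0, hKTnq, hφq8, hεφq, hv', hTq, hq, haTnq0, hTnq]
  · show L (r + 1) v v + b * (R * q) + 3 * (φ * q) ≤
      min (L (r + 1) vn vn) (L (r + 1) v v) + X * q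
    rw [← hMn, ← hMv]
    linarith only [hmn1, hXq, hRbq, hyτq, haTnq0, hbTnq, hbTnq0, hKTnq, hφq8, hq, hεφq, hTnq]
  · show L r v v ≤ L r t t
    rw [← hLt, ← hLv]
    exact hLvt
  obtain ⟨outU, outN⟩ := hmain
  constructor
  · intro j hj hj1 hjx
    have h1 := outU j hj1 hj
    rw [hηq] at h1
    refine (f1_dig htm ?_ (show 0 < η' / 2 * q by linarith only [hηq0]) h1).mono le_rfl
      (by linarith only [])
    have h2 := hjv j
    show L r t t - j * t + ((j - x') * τ' - 1) * q ≤ L r v v + a * (R * q) - j * v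
    rw [← hLt, ← hLv]
    linarith only [h2, hdv.1, hRaq, hεφq, hφq8, hq]
  · intro j hj hj1 hjy
    rw [← hvn]
    by_cases hjb : (j : ℝ) ≤ b
    · have haj : (a - b) * Tn ≤ (a - j) * Tn :=
        mul_le_mul_of_nonneg_right (by linarith only [hjb]) hTn0.le
      have hajq := mul_le_mul_of_nonneg_right haj hq.le
      have hTaq := mul_le_mul_of_nonneg_right hTa hq.le
      have hyτ0 : 0 < y' * τ' * q := by linarith only [hyτq, hq]
      have h2 := hjv j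
      have h3 := hjvn j
      have h4 := hjK j hj
      have hja : 0 ≤ (j : ℝ) * (Tn * q) := mul_nonneg (Nat.cast_nonneg j) hTnq.le
      have h1 := outN j hj ((a - j) * Tn * q - 3 * (φ * q)) ?_ ?_ ?_ ?_
      · rw [hηq] at h1
        refine (f1_dig htm ?_ (show 0 < η' / 2 * q by linarith only [hηq0]) h1).mono le_rfl
          (by linarith only [])
        show L (r + 1) t t - j * t + ((j - y') * τ' - 1) * q ≤
          L (r + 1) v v + b * (R * q) - j * v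
        rw [← hMt, ← hMv]
        linarith only [h2, hNv.1, hRbq, hεφq, hφq8, hq]
      · linarith only [hajq, hTaq, hKτ0, hτq, hφq8, hq]
      · show L r vn vn + ((a - j) * Tn * q - 3 * (φ * q)) + 2 * (φ * q) + j * (t - vn) ≤ L r t t
        rw [← hLt, ← hLn]
        linarith only [hdn.2, h3, hεφq, hφq, hvn']
      · linarith only [hXq, hbTnq0, hKTnq, hja, hq, haTnq0, hTnq]
      · show L (r + 1) v v + b * (R * q) - j * v + j * vn + φ * q ≤
          L (r + 1) vn vn + ((a - j) * Tn * q - 3 * (φ * q))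
        rw [← hMn, ← hMv]
        linarith only [h2, h3, h4, hNv.2, hNn.1, hRbq, hεφq, hφq8, hTaq, hyτ0, hq, hτq]
    · have hbj := not_le.1 hjb
      have h1 := mul_le_mul_of_nonneg_right (hTb j hj hbj) hq.le
      have h3 := hjvn j
      have h5 : L (r + 1) t t - j * t + ((j - y') * τ' - 1) * q + j * vn ≤ L (r + 1) vn vn := by
        rw [← hMt, ← hMn]
        linarith only [h1, h3, hNn.1, hεφq, hφq8, hq]
      have hηe : e' * q ≤ η' * q / 8 := by
        have h6 := mul_le_mul_of_nonneg_right he3 hq.le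
        have h7 : η' / (256 * (((r : ℝ) + 1) * (K + 3))) ≤ η' / 8 := by
          refine div_le_div_of_nonneg_left hη'.le (by norm_num) ?_
          have h8 : (1 : ℝ) * 1 ≤ (r + 1) * (K + 3) :=
            mul_le_mul (by linarith only [hr0]) (by linarith only [hK0]) zero_le_one
              (by linarith only [hr0])
          linarith only [h8]
        have h8 := mul_le_mul_of_nonneg_right h7 hq.le
        linarith only [h6, h8]
      have hvn1 : vn < 1 := by linarith only [hJw1, hvn', hTnq]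
      exact F1.of0 htm ((few0_jq htm (by linarith only [hvn0, hq]) hvn1 h5
        (fun J F => ptr F J) (vg t) (fun _ F => F.T) hηq0).mono hηe le_rfl)

end Pool.PN18
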