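import Pool.Agent.H18.PN.Stga
import Pool.Agent.H80.PN.Jnn

/-!
# The natural jets of the next coordinate at a record
-/

set_option autoImplicit false

namespace Pool.PN18

open Finset Real MvPolynomial
open Pool.Agent.H49.Ent Pool.Agent.H32.Dense Pool.STK Pool.KA Pool.KSAT Pool.K2S Pool.PB Pool.GEN
open Pool.S6C Pool.RCD Pool.LA91 Pool.OWN68 Pool.AJW Pool.AJX Pool.CHT Pool.PKG
open Pool.ALT (Fml NzQ NzF NzL NzO LbF)

/-- **The natural jets of the next coordinate** over all labels of the window `t - Tn q`. -/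
theorem nat_rec (K r : ℕ) {a b τ Tn : ℝ} (hb : 0 < b) (hab : b < a) (hτ1 : 1 ≤ τ) (hTn : τ ≤ Tn)
    (hTa : (K + 2) * τ + 2 ≤ (a - b) * Tn) {m : ℕ} {S : PCl m} {al : ℝ} {g₀ : ℝ → ℝ}
    {P : List (Fin m) × Fin m → ℝ → ℝ → ℝ}
    {θ : ℝ} {P₂ : ℕ → List (Fin m) × Fin m → ℝ → ℝ → ℝ} {θ₂ Eb e₂ : ℕ → ℝ}
    {c : ℕ → Fin m} {Pt : ℝ → ℝ → ℝ} {rt : ℝ → ℝ} {h K₀ g : ℝ} {L T : ℕ → ℝ → ℝ → ℝ}
    {Sl : ℕ → ℝ} {κ : ℕ → Kg} {G : Set ℝ} {S₀ N : ℕ} {A V : ℕ → ℝ} {S₂ N' : ℕ} {V' : ℕ → ℝ}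
    {K' ε q t : ℝ}
    (Rc : RecG S al g₀ P θ P₂ θ₂ Eb e₂ c Pt rt h K₀ g L T Sl κ G S₀ N A V S₂ N' V' K' ε q t)
    (hr : 1 ≤ r) (hrm : r + 1 < m) (hκ : ∀ l < r, κ l = .one) (hSa : Sl r = a)
    (hSb : Sl (r + 1) = b) (hch : ChG S c (r + 1) (fun l x => L l x x) G) {X φ kf ℓ e' : ℝ}
    (hφ : 0 < φ) (hφ8 : φ ≤ 1 / 8) (hφX : 32 * (r + 1) * φ ≤ X)
    (hX : 2 * ((a + b + K + 8) * Tn) + 8 ≤ X) (hkf : 3 ^ r * X ≤ kf) (hℓ : kf + Tn ≤ ℓ)
    (hℓK : ℓ ≤ K') (hK1 : Tn + 3 ^ r * X + 2 ≤ K') (hεφ : 2 * ε ≤ φ)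
    (hε : 0 ≤ ε) (htG : t ∈ G) (hvG : ∀ k ≤ r, t + jfV r (-τ) X k * q ∈ G)
    (hnG : ∀ k ≤ r, t + jfV r (-Tn) X k * q ∈ G) {pf : ℕ → ℝ} {Nf : ℕ → ℕ → ℝ}
    (hpf : ∀ l < r, L l t t - φ * q ≤ pf l)
    (hNf : NfP r L X q t τ Nf) (hNfn : NfP r L X q t Tn Nf)
    (he' : 0 < e') (he1 : e' ≤ φ / 16) {Ψ₀ : Fml m} {D : ℕ} {En Rn Pn' pa₁ pa₂ ea ua pa : ℝ}
    (hΨl : ∀ (J : ℕ) (F : Fam m J) (A : F.Ω → Prop) (V : Type) (z : PtT F → V)
      (z' : LnT F → V) (G : V → MvPolynomial (Option (Fin m)) ℝ), Ψ₀ J F A V z z' G →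
      LbOK F ((range (r + 1)).image c) (c (r + 1)) D ⌊En * J⌋₊ J ⌊(t + -Tn * q) * J⌋₊ ⌊Rn * J⌋₊
        ⌊Pn' * J⌋₊ A z z' G)
    (hPn : L (r + 1) (t + -Tn * q) (t + -Tn * q) - e' * q ≤ Pn')
    (hex : Bas S (fun J F A => ∃ (V : Type) (z : PtT F → V) (z' : LnT F → V)
      (G : V → MvPolynomial (Option (Fin m)) ℝ),
      NzF Ψ₀ c r (c (r + 1)) D D D (t + -Tn * q) t pa₁ pa₂ ea ua pa J F A V z z' G))
    (hpt : L (r + 1) t t - e' * q ≤ pa) {η : ℝ} (hη : 0 < η) {j : ℕ} (hjb : (j : ℝ) ≤ b)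
    (he3 : e' ≤ η / (128 * ((r + 1) * (j + 1)))) :
    F1 S (fun J F => ptr F J) (vg t) (fun _ F => F.T)
      (qJets m c 0 r 1 (fun _ _ => t) (fun l _ => pf l) Nf)
      (qJet m ((range (r + 1)).image c) (c (r + 1)) j (t + -Tn * q)
        (L (r + 1) (t + -Tn * q) (t + -Tn * q)) (L (r + 1) t t - j * t)) (e' * q) (η * q) := by
  have ha : 0 < a := hb.trans hab
  have hq := Rc.q0
  have ht0 := Rc.t0
  have ht1 := Rc.t1
  have htm := Rc.tmc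
  have hK0 : (0 : ℝ) ≤ K := Nat.cast_nonneg K
  have hTn0 : 0 < Tn := by linarith only [hτ1, hTn]
  have hτ0 : 0 < τ := by linarith only [hτ1]
  have haTn : 0 < a * Tn := mul_pos ha hTn0
  have hbTn : 0 < b * Tn := mul_pos hb hTn0
  have hKTn : 0 ≤ K * Tn := mul_nonneg hK0 hTn0.le
  have hKτ : K * τ ≤ K * Tn := mul_le_mul_of_nonneg_left hTn hK0
  have hX' : 2 * (a * Tn + b * Tn + K * Tn + 8 * Tn) + 8 ≤ X := by
    have e1 : 2 * ((a + b + K + 8) * Tn) + 8 = 2 * (a * Tn + b * Tn + K * Tn + 8 * Tn) + 8 := by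
      ring
    rw [← e1]
    exact hX
  have hX0 : 0 < X := by linarith only [hX', haTn, hbTn, hKTn, hTn0]
  have h3X : 0 < 3 ^ r * X := by positivity
  -- the windows
  have U : JfU r K (-τ) X φ ℓ kf :=
    { vv0 := by linarith only [hτ0]
      φ0 := hφ
      XK := by
        have e1 : 2 * (((K : ℝ) + 6) * - -τ) = 2 * (K * τ + 6 * τ) := by ring
        rw [e1]
        linarith only [hX', haTn, hbTn, hKτ, hTn, hTn0]
      φX := hφX
      kfX := hkf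
      lamk := by linarith only [hℓ, hTn] }
  have Un : JfU r K (-Tn) X φ ℓ kf :=
    { vv0 := by linarith only [hTn0]
      φ0 := hφ
      XK := by
        have e1 : 2 * (((K : ℝ) + 6) * - -Tn) = 2 * (K * Tn + 6 * Tn) := by ring
        rw [e1]
        linarith only [hX', haTn, hbTn, hTn0]
      φX := hφX
      kfX := hkf
      lamk := by linarith only [hℓ] }
  have J := Rc.jf hκ (by omega) U htG hvG (by linarith only [hK1, hTn]) hℓK hεφ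
  have Jn := Rc.jf hκ (by omega) Un htG hnG (by linarith only [hK1]) hℓK hεφ
  have hK'0 : 0 < K' := by linarith only [hK1, hTn0, h3X]
  have hnear : |t + -Tn * q - t| ≤ K' * q := by
    rw [add_sub_cancel_left, neg_mul, abs_neg, abs_mul, abs_of_nonneg hTn0.le, abs_of_pos hq]
    exact mul_le_mul_of_nonneg_right (by linarith only [hK1, h3X]) hq.le
  have hdn := abs_le.1 (Rc.dL r (by omega) _ hnear)
  have hNn := abs_le.1 (Rc.dL (r + 1) hrm _ hnear)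
  rw [hSa] at hdn
  rw [hSb] at hNn
  have ev : ∀ z : ℝ, t + -z * q - t = -(z * q) := fun z => by ring
  rw [ev] at hdn hNn
  obtain ⟨v, hv⟩ : ∃ v, v = t + -τ * q := ⟨_, rfl⟩
  obtain ⟨vn, hvn⟩ : ∃ vn, vn = t + -Tn * q := ⟨_, rfl⟩
  have hv' : v = t - τ * q := by rw [hv]; ring
  have hvn' : vn = t - Tn * q := by rw [hvn]; ring
  have hτq : 0 < τ * q := mul_pos hτ0 hq
  have hTq : τ * q ≤ Tn * q := mul_le_mul_of_nonneg_right hTn hq.le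
  have hTnq : 0 < Tn * q := mul_pos hTn0 hq
  have hKq : (Tn + 3 ^ r * X + 2) * q ≤ K' * q := mul_le_mul_of_nonneg_right hK1 hq.le
  have h3Xq : 0 < 3 ^ r * X * q := mul_pos h3X hq
  have hvn0 : 2 * q ≤ vn := by
    rw [hvn']
    linarith only [hKq, ht0, h3Xq, hq]
  have ht1' : t ≤ 1 := by linarith only [ht1, mul_pos hK'0 hq]
  have hNn0 : vn ≤ L (r + 1) vn vn := Rc.low_at hrm (by linarith only [hvn0, hq]) le_rfl
    (by linarith only [hvn', hTnq, ht1'])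
  have hNt0 : t ≤ L (r + 1) t t := Rc.low_at hrm (by linarith only [hvn0, hvn', hTnq, hq]) le_rfl
    ht1'
  unfold NfP at hNf hNfn
  rw [← hv] at J hNf
  rw [← hvn] at hNfn Jn hΨl hPn hex hdn hNn ⊢
  obtain ⟨Lt, hLt⟩ : ∃ Lt, Lt = L r t t := ⟨_, rfl⟩
  obtain ⟨Ln, hLn⟩ : ∃ Ln, Ln = L r vn vn := ⟨_, rfl⟩
  obtain ⟨Mt, hMt⟩ : ∃ Mt, Mt = L (r + 1) t t := ⟨_, rfl⟩
  obtain ⟨Mn, hMn⟩ : ∃ Mn, Mn = L (r + 1) vn vn := ⟨_, rfl⟩
  rw [← hLt, ← hLn] at hdn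
  rw [← hMt, ← hMn] at hNn
  rw [← hMn] at hNn0
  rw [← hMt] at hNt0
  have hpr : ∀ z w : ℝ, z * -(w * q) = -(z * w * q) := fun z w => by ring
  rw [hpr] at hdn hNn
  have hεq : 0 ≤ ε * q := mul_nonneg hε hq.le
  have hεφq : 2 * ε * q ≤ φ * q := mul_le_mul_of_nonneg_right hεφ hq.le
  have hφq : 0 < φ * q := mul_pos hφ hq
  have hφq8 : φ * q ≤ 1 / 8 * q := mul_le_mul_of_nonneg_right hφ8 hq.le
  have hXq : (2 * (a * Tn + b * Tn + K * Tn + 8 * Tn) + 8) * q ≤ X * q :=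
    mul_le_mul_of_nonneg_right hX' hq.le
  have hKTnq : 0 ≤ K * Tn * q := mul_nonneg hKTn hq.le
  have haTnq0 : 0 < a * Tn * q := mul_pos haTn hq
  have hbTnq0 : 0 < b * Tn * q := mul_pos hbTn hq
  have hKτ0 : 0 ≤ K * τ * q := mul_nonneg (mul_nonneg hK0 hτ0.le) hq.le
  have hjvn : (j : ℝ) * vn = j * t - j * (Tn * q) := by rw [hvn']; ring
  have he : 0 < e' * q := mul_pos he' hq
  have he1q : e' * q ≤ φ / 16 * q := mul_le_mul_of_nonneg_right he1 hq.le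
  have hηq0 : 0 < η * q := mul_pos hη hq
  have hA := J.near_n htm hch (pf := pf) (Nf := Nf) hpf hNf
  have hAn := Jn.near_n htm hch (pf := pf) (Nf := Nf) hpf hNfn
  have haj : (a - b) * Tn ≤ (a - j) * Tn :=
    mul_le_mul_of_nonneg_right (by linarith only [hjb]) hTn0.le
  have hajq := mul_le_mul_of_nonneg_right haj hq.le
  have hTaq := mul_le_mul_of_nonneg_right hTa hq.le
  have hja : 0 ≤ (j : ℝ) * (Tn * q) := mul_nonneg (Nat.cast_nonneg j) hTnq.le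
  have hMnt : Mt - b * Tn * q - ε * q ≤ min Mn Mt :=
    le_min (by linarith only [hNn.1]) (by linarith only [hbTnq0, hεq])
  rw [← hMt] at hpt ⊢
  rw [← hMn] at hPn ⊢
  refine jn_nat htm hr J Jn hch hA hAn he (by linarith only [he1q, hφq])
    (by linarith only [he1q, hφq]) (by linarith only [he1q, hφq]) (by linarith only [he1q, hφq])
    hΨl hPn hex (lr := (a - j) * Tn * q - 3 * (φ * q)) hηq0 hpt ?_ ?_ ?_ ?_ ?_ ?_ ?_ ?_
  · exact le_min (by linarith only [hNn0, hvn0, he1q, hφq8, hφq])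
      (by linarith only [hNt0, hvn0, hvn', hTnq, he1q, hφq8, hφq])
  · linarith only [hMnt, hXq, haTnq0, hbTnq0, hKTnq, hφq8, hq, hεφq, hv', hTq, hTnq]
  · have h1 := mul_le_mul_of_nonneg_right he3 hq.le
    have e2 : η * q / (128 * (((r : ℝ) + 1) * (j + 1))) =
        η / (128 * ((r + 1) * (j + 1))) * q := by
      field_simp
    rw [e2]
    exact h1
  · show L r t t + 2 * (φ * q) + (t - v) ≤ min (L r t t) (L r vn vn) + X * q
    rw [← hLt, ← hLn]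
    have h1 : Lt - a * Tn * q - ε * q ≤ min Lt Ln :=
      le_min (by linarith only [haTnq0, hεq]) (by linarith only [hdn.1])
    linarith only [h1, hXq, hbTnq0, hKTnq, hφq8, hεφq, hv', hTq, hq, haTnq0, hTnq]
  · linarith only [hajq, hTaq, hKτ0, hτq, hφq8, hq]
  · show L r vn vn + ((a - j) * Tn * q - 3 * (φ * q)) + 2 * (φ * q) + j * (t - vn) ≤ L r t t
    rw [← hLt, ← hLn]
    linarith only [hdn.2, hjvn, hεφq, hφq, hvn']
  · linarith only [hXq, hbTnq0, hKTnq, hja, hq, haTnq0, hTnq]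
  · linarith only [hjvn, hNn.1, hεφq, hφq8, hajq, hTaq, hKτ0, hτq, hq, hvn']

end Pool.PN18
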