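import Pool.Agent.H18.PN.Stgb

/-!
# The first and the last state

`base_rec`: the state of the orders larger than the slopes. `fin_rec`: the first jet of the place from a
state with `x < 1`.
-/

set_option autoImplicit false

namespace Pool.PN18

open Finset Real MvPolynomial
open Pool.Agent.H49.Ent Pool.Agent.H32.Dense Pool.STK Pool.KA Pool.KSAT Pool.K2S Pool.PB Pool.GEN
open Pool.S6C Pool.RCD Pool.LA91 Pool.OWN68 Pool.AJW Pool.AJX Pool.CHT Pool.PKG Pool.ALT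

section

variable {m : ℕ} {S : PCl m} {al : ℝ} {g₀ : ℝ → ℝ} {P : List (Fin m) × Fin m → ℝ → ℝ → ℝ}
    {θ : ℝ} {P₂ : ℕ → List (Fin m) × Fin m → ℝ → ℝ → ℝ} {θ₂ Eb e₂ : ℕ → ℝ}
    {c : ℕ → Fin m} {Pt : ℝ → ℝ → ℝ} {rt : ℝ → ℝ} {h K₀ g : ℝ} {L T : ℕ → ℝ → ℝ → ℝ}
    {Sl : ℕ → ℝ} {κ : ℕ → Kg} {G : Set ℝ} {S₀ N : ℕ} {A V : ℕ → ℝ} {S₂ N' : ℕ} {V' : ℕ → ℝ}
    {K' ε q t : ℝ}

/-- **The first state.** -/
theorem base_rec (K r : ℕ) {a b τ Tn : ℝ} (hb : 0 < b) (hab : b < a) (hτ1 : 1 ≤ τ) (hTn : τ ≤ Tn)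
    (Rc : RecG S al g₀ P θ P₂ θ₂ Eb e₂ c Pt rt h K₀ g L T Sl κ G S₀ N A V S₂ N' V' K' ε q t)
    (hrm : r + 1 < m) (hκ : ∀ l < r, κ l = .one) (hSa : Sl r = a)
    (hSb : Sl (r + 1) = b) (hch : ChG S c (r + 1) (fun l x => L l x x) G) {X φ kf ℓ e' : ℝ}
    (hφ : 0 < φ) (hφ8 : φ ≤ 1 / 8) (hφX : 32 * (r + 1) * φ ≤ X)
    (hX : 2 * ((a + b + K + 8) * Tn) + 8 ≤ X) (hkf : 3 ^ r * X ≤ kf) (hℓ : kf + Tn ≤ ℓ)
    (hℓK : ℓ ≤ K') (hK1 : Tn + 3 ^ r * X + 2 ≤ K') (hεφ : 2 * ε ≤ φ)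
    (hε : 0 ≤ ε) (htG : t ∈ G) (hvG : t + -τ * q ∈ G)
    (hnG : ∀ k ≤ r, t + jfV r (-Tn) X k * q ∈ G) {pf : ℕ → ℝ} {Nf : ℕ → ℕ → ℝ}
    (hpf : ∀ l < r, L l t t - φ * q ≤ pf l)
    (hNf : NfP r L X q t Tn Nf)
    (he' : 0 < e') (he1 : e' ≤ φ / 8) {η : ℝ} (hη : 0 < η) (he2 : e' ≤ η / 16) :
    StU S c r K L q t pf Nf (e' * q) a τ η ∧ StN S c r K L q t Tn pf Nf (e' * q) b τ η := by
  have ha : 0 < a := hb.trans hab
  have hq := Rc.q0
  have ht0 := Rc.t0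
  have ht1 := Rc.t1
  have htm := Rc.tmc
  have hK0 : (0 : ℝ) ≤ K := Nat.cast_nonneg K
  have hTn0 : 0 < Tn := by linarith only [hτ1, hTn]
  have hτ0 : 0 < τ := by linarith only [hτ1]
  have haTn : 0 < a * Tn := mul_pos ha hTn0
  have hbTn : 0 < b * Tn := mul_pos hb hTn0
  have hKTn : 0 ≤ K * Tn := mul_nonneg hK0 hTn0.le
  have hKτ : K * τ ≤ K * Tn := mul_le_mul_of_nonneg_left hTn hK0
  have haτ : a * τ ≤ a * Tn := mul_le_mul_of_nonneg_left hTn ha.le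
  have hX' : 2 * (a * Tn + b * Tn + K * Tn + 8 * Tn) + 8 ≤ X := by
    have e1 : 2 * ((a + b + K + 8) * Tn) + 8 = 2 * (a * Tn + b * Tn + K * Tn + 8 * Tn) + 8 := by
      ring
    rw [← e1]
    exact hX
  have hX0 : 0 < X := by linarith only [hX', haTn, hbTn, hKTn, hTn0]
  have h3X : 0 < 3 ^ r * X := by positivity
  have Un : JfU r K (-Tn) X φ ℓ kf :=
    { vv0 := by linarith only [hTn0]
      φ0 := hφ
      XK := by
        have e1 : 2 * (((K : ℝ) + 6) * - -Tn) = 2 * (K * Tn + 6 * Tn) := by ring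
        rw [e1]
        linarith only [hX', haTn, hbTn, hTn0]
      φX := hφX
      kfX := hkf
      lamk := by linarith only [hℓ] }
  have Jn := Rc.jf hκ (by omega) Un htG hnG (by linarith only [hK1]) hℓK hεφ
  have hK'0 : 0 < K' := by linarith only [hK1, hTn0, h3X]
  have hnear : ∀ x : ℝ, 0 ≤ x → x ≤ K' → |t + -x * q - t| ≤ K' * q := fun x h1 h2 => by
    rw [add_sub_cancel_left, neg_mul, abs_neg, abs_mul, abs_of_nonneg h1, abs_of_pos hq]
    exact mul_le_mul_of_nonneg_right h2 hq.le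
  have hdv := abs_le.1 (Rc.dL r (by omega) _ (hnear τ hτ0.le (by linarith only [hK1, h3X, hTn])))
  have hNn := abs_le.1 (Rc.dL (r + 1) hrm _ (hnear Tn hTn0.le (by linarith only [hK1, h3X])))
  rw [hSa] at hdv
  rw [hSb] at hNn
  have ev : ∀ z : ℝ, t + -z * q - t = -(z * q) := fun z => by ring
  rw [ev] at hdv hNn
  obtain ⟨v, hv⟩ : ∃ v, v = t + -τ * q := ⟨_, rfl⟩
  obtain ⟨vn, hvn⟩ : ∃ vn, vn = t + -Tn * q := ⟨_, rfl⟩
  have hv' : v = t - τ * q := by rw [hv]; ring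
  have hvn' : vn = t - Tn * q := by rw [hvn]; ring
  have hτq : 0 < τ * q := mul_pos hτ0 hq
  have hTq : τ * q ≤ Tn * q := mul_le_mul_of_nonneg_right hTn hq.le
  have hTnq : 0 < Tn * q := mul_pos hTn0 hq
  have hKq : (Tn + 3 ^ r * X + 2) * q ≤ K' * q := mul_le_mul_of_nonneg_right hK1 hq.le
  have h3Xq : 0 < 3 ^ r * X * q := mul_pos h3X hq
  have hvn0 : 2 * q ≤ vn := by
    rw [hvn']
    linarith only [hKq, ht0, h3Xq, hq]
  have ht1' : t < 1 := by linarith only [ht1, mul_pos hK'0 hq]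
  rw [← hv] at hdv hvG
  unfold NfP at hNf
  rw [← hvn] at Jn hNn hNf
  obtain ⟨Lt, hLt⟩ : ∃ Lt, Lt = L r t t := ⟨_, rfl⟩
  obtain ⟨Lv, hLv⟩ : ∃ Lv, Lv = L r v v := ⟨_, rfl⟩
  obtain ⟨Mt, hMt⟩ : ∃ Mt, Mt = L (r + 1) t t := ⟨_, rfl⟩
  obtain ⟨Mn, hMn⟩ : ∃ Mn, Mn = L (r + 1) vn vn := ⟨_, rfl⟩
  rw [← hLt, ← hLv] at hdv
  rw [← hMt, ← hMn] at hNn
  have hpr : ∀ z w : ℝ, z * -(w * q) = -(z * w * q) := fun z w => by ring
  rw [hpr] at hdv hNn
  have hεq : 0 ≤ ε * q := mul_nonneg hε hq.le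
  have hεφq : 2 * ε * q ≤ φ * q := mul_le_mul_of_nonneg_right hεφ hq.le
  have hφq : 0 < φ * q := mul_pos hφ hq
  have hφq8 : φ * q ≤ 1 / 8 * q := mul_le_mul_of_nonneg_right hφ8 hq.le
  have hXq : (2 * (a * Tn + b * Tn + K * Tn + 8 * Tn) + 8) * q ≤ X * q :=
    mul_le_mul_of_nonneg_right hX' hq.le
  have hKTnq : 0 ≤ K * Tn * q := mul_nonneg hKTn hq.le
  have haTnq0 : 0 < a * Tn * q := mul_pos haTn hq
  have haτq : 0 < a * τ * q := mul_pos (mul_pos ha hτ0) hq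
  have haτTq : a * τ * q ≤ a * Tn * q := mul_le_mul_of_nonneg_right haτ hq.le
  have hbTnq0 : 0 < b * Tn * q := mul_pos hbTn hq
  have hKτq : K * τ * q ≤ K * Tn * q := mul_le_mul_of_nonneg_right hKτ hq.le
  have he : 0 < e' * q := mul_pos he' hq
  have he1q : e' * q ≤ φ / 8 * q := mul_le_mul_of_nonneg_right he1 hq.le
  have he2q : e' * q ≤ η / 16 * q := mul_le_mul_of_nonneg_right he2 hq.le
  have hηq0 : 0 < η * q := mul_pos hη hq
  have hA := Jn.near_n htm hch (pf := pf) (Nf := Nf) hpf hNf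
  obtain ⟨uv, rv, hrv, hcv⟩ := hch.ch v hvG
  have hLvt : Lt - a * Tn * q - ε * q ≤ min Lv Lt :=
    le_min (by linarith only [hdv.1, haτTq]) (by linarith only [haTnq0, hεq])
  constructor
  · intro j hj hj1 haj
    have hjK : (j : ℝ) * (τ * q) ≤ K * τ * q + 2 * τ * q := by
      have h1 : (j : ℝ) ≤ K + 2 := by exact_mod_cast hj
      have h2 := mul_le_mul_of_nonneg_right h1 hτq.le
      linarith only [h2]
    have hjv : (j : ℝ) * v = j * t - j * (τ * q) := by rw [hv']; ring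
    refine (Jn.tr htm hch hA (k := c r) (j := j) (w₁ := v) (w₂ := t) (p₁ := L r v v)
      (p₂ := L r t t) (N₁ := L r t t - j * t + ((j - a) * τ - 1) * q) (η := η / 2 * q)
      (h := η / 2 * q) (by linarith only [hv', hτq]) le_rfl le_rfl ?_ he ?_ ?_
      (by linarith only [hηq0]) (exs_jet (hrv r (Nat.lt_succ_self r))
        (hcv.att r (Nat.zero_le _) (Nat.lt_succ_self r)))
      (F1.of0 htm ((few0_jq htm (by linarith only [hvn0, hvn', hv', hTq, hq])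
        (by linarith only [hv', hτq, ht1']) ?_ (fun J F => ptr F J) (vg t) (fun _ F => F.T)
        (h := η / 2 * q) (by linarith only [hηq0])).mono (by linarith only [he2q])
        le_rfl))).mono le_rfl (by linarith only [])
    · show L r t t - j * t + ((j - a) * τ - 1) * q + j * t + 3 * (φ * q) + (t - vn) ≤
        min (L r v v) (L r t t) + X * q
      rw [← hLt, ← hLv]
      linarith only [hLvt, hXq, hjK, hKτq, hKTnq, haτq, haTnq0, hbTnq0, hvn', hTnq, hTq, hφq8,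
        hεφq, hq]
    · show e' * q ≤ φ * q / 8
      linarith only [he1q]
    · show e' * q ≤ φ * q / 8
      linarith only [he1q]
    · show L r t t - j * t + ((j - a) * τ - 1) * q + j * v ≤ L r v v
      rw [← hLt, ← hLv]
      linarith only [hjv, hdv.1, hεφq, hφq8, hq]
  · intro j hj hj1 hbj
    rw [← hvn]
    have h3 : (j : ℝ) * vn = j * t - j * (Tn * q) := by rw [hvn']; ring
    have h1 : (j - b) * τ * q ≤ (j - b) * Tn * q :=
      mul_le_mul_of_nonneg_right (mul_le_mul_of_nonneg_left hTn (by linarith only [hbj])) hq.le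
    exact F1.of0 htm ((few0_jq htm (by linarith only [hvn0, hq])
      (by linarith only [hvn', hTnq, ht1']) (by
        rw [← hMt, ← hMn]
        linarith only [h1, h3, hNn.1, hεφq, hφq8, hq]) (fun J F => ptr F J) (vg t)
      (fun _ F => F.T) hηq0).mono (by linarith only [he2q, hηq0]) le_rfl)

/-- **The first jet of the place** from a state with `a + 1 ≤ (1 - x) τ`. -/
theorem fin_rec (K r : ℕ) {a b x τ Tn : ℝ} (hb : 0 < b) (hab : b < a) (hTn0 : 0 < Tn)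
    (hx1 : x < 1) (hxτ : a + 1 ≤ (1 - x) * τ)
    (Rc : RecG S al g₀ P θ P₂ θ₂ Eb e₂ c Pt rt h K₀ g L T Sl κ G S₀ N A V S₂ N' V' K' ε q t)
    (hrm : r + 1 < m) (hκ : ∀ l < r, κ l = .one)
    (hch : ChG S c (r + 1) (fun l x => L l x x) G) {X φ kf ℓ e' : ℝ}
    (hφ : 0 < φ) (hφ8 : φ ≤ 1 / 8) (hφX : 32 * (r + 1) * φ ≤ X)
    (hX : 2 * ((a + b + K + 8) * Tn) + 8 ≤ X) (hXa : a + Tn + 2 ≤ X) (hkf : 3 ^ r * X ≤ kf)
    (hℓ : kf + Tn ≤ ℓ) (hℓK : ℓ ≤ K') (hK1 : Tn + 3 ^ r * X + 2 ≤ K') (hεφ : 2 * ε ≤ φ)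
    (htG : t ∈ G) (hnG : ∀ k ≤ r, t + jfV r (-Tn) X k * q ∈ G) {pf : ℕ → ℝ} {pr : ℝ}
    {Nf : ℕ → ℕ → ℝ} (hpf : ∀ l < r, L l t t - φ * q ≤ pf l) (hpr : L r t t - φ * q ≤ pr)
    (hNf : NfP r L X q t Tn Nf)
    (he' : 0 < e') (he1 : e' ≤ φ / 8) {η dd : ℝ} (hη : η < dd)
    (SU : StU S c r K L q t pf Nf (e' * q) x τ η) :
    F1 S (fun J F => ptr F J) (vg t) (fun _ F => F.T)
      (qJets m c 0 r 1 (fun _ _ => t) (fun l _ => pf l) Nf)
      (qJet m ((range r).image c) (c r) 1 t pr (L r t t + (a - 1) * q - t)) (e' * q) (dd * q) := by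
  have ha : 0 < a := hb.trans hab
  have hq := Rc.q0
  have htm := Rc.tmc
  have hK0 : (0 : ℝ) ≤ K := Nat.cast_nonneg K
  have haTn : 0 < a * Tn := mul_pos ha hTn0
  have hbTn : 0 < b * Tn := mul_pos hb hTn0
  have hKTn : 0 ≤ K * Tn := mul_nonneg hK0 hTn0.le
  have hX' : 2 * (a * Tn + b * Tn + K * Tn + 8 * Tn) + 8 ≤ X := by
    have e1 : 2 * ((a + b + K + 8) * Tn) + 8 = 2 * (a * Tn + b * Tn + K * Tn + 8 * Tn) + 8 := by
      ring
    rw [← e1]
    exact hX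
  have hX0 : 0 < X := by linarith only [hX', haTn, hbTn, hKTn, hTn0]
  have h3X : 0 < 3 ^ r * X := by positivity
  have Un : JfU r K (-Tn) X φ ℓ kf :=
    { vv0 := by linarith only [hTn0]
      φ0 := hφ
      XK := by
        have e1 : 2 * (((K : ℝ) + 6) * - -Tn) = 2 * (K * Tn + 6 * Tn) := by ring
        rw [e1]
        linarith only [hX', haTn, hbTn, hTn0]
      φX := hφX
      kfX := hkf
      lamk := by linarith only [hℓ] }
  have Jn := Rc.jf hκ (by omega) Un htG hnG (by linarith only [hK1]) hℓK hεφ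
  have hφq : 0 < φ * q := mul_pos hφ hq
  have hφq8 : φ * q ≤ 1 / 8 * q := mul_le_mul_of_nonneg_right hφ8 hq.le
  have he : 0 < e' * q := mul_pos he' hq
  have he1q : e' * q ≤ φ / 8 * q := mul_le_mul_of_nonneg_right he1 hq.le
  have hTnq : 0 < Tn * q := mul_pos hTn0 hq
  have hXaq : (a + Tn + 2) * q ≤ X * q := mul_le_mul_of_nonneg_right hXa hq.le
  have hηq : (dd - η) * q > 0 := mul_pos (by linarith only [hη]) hq
  have hxτq := mul_le_mul_of_nonneg_right hxτ hq.le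
  have hA := Jn.near_n htm hch (pf := pf) (Nf := Nf) hpf hNf
  obtain ⟨ut, rt', hrt, hct⟩ := hch.ch t htG
  have hvn' : t + -Tn * q = t - Tn * q := by ring
  refine (Jn.tr htm hch hA (k := c r) (j := 1) (w₁ := t) (w₂ := t) (p₁ := L r t t) (p₂ := pr)
    (N₁ := L r t t - (1 : ℕ) * t + (((1 : ℕ) - x) * τ - 1) * q) (η := η * q)
    (h := (dd - η) * q) le_rfl le_rfl ?_ ?_ he ?_ ?_ hηq (exs_jet (hrt r (Nat.lt_succ_self r))
      (hct.att r (Nat.zero_le _) (Nat.lt_succ_self r))) ?_).mono le_rfl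
      (by linarith only [])
  · push_cast
    linarith only [hxτq, hq]
  · show L r t t + (a - 1) * q - t + (1 : ℕ) * t + 3 * (φ * q) + (t - (t + -Tn * q)) ≤
      min (L r t t) pr + X * q
    have h1 : L r t t - φ * q ≤ min (L r t t) pr := le_min (by linarith only [hφq]) hpr
    push_cast
    rw [hvn']
    linarith only [h1, hXaq, hφq8, hq]
  · show e' * q ≤ φ * q / 8
    linarith only [he1q]
  · show e' * q ≤ φ * q / 8
    linarith only [he1q]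
  · have h1 := SU 1 (by omega) le_rfl (by push_cast; exact hx1)
    exact h1

end

end Pool.PN18
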