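import Pool.Agent.H18.PN.Stge

/-!
# More digits of the near path

`NfS`: the digits of the near path at the stage `k`. `st_tr`: the states relative to a near path with
more digits.
-/

set_option autoImplicit false

namespace Pool.PN18

open Finset Real MvPolynomial
open Pool.Agent.H49.Ent Pool.Agent.H32.Dense Pool.STK Pool.KA Pool.KSAT Pool.K2S Pool.PB Pool.GEN
open Pool.S6C Pool.RCD Pool.LA91 Pool.OWN68 Pool.AJW Pool.AJX Pool.CHT Pool.PKG Pool.ALT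

theorem att_le {m : ℕ} {S : PCl m} {I : Finset (Fin m)} {k : Fin m} {w p p' r : ℝ}
    (hw : w ≤ 1) (hp : p' ≤ p) (h : Att S I k w p r) : Att S I k w p' r := by
  intro e he
  obtain ⟨K, hK⟩ := h e he
  refine ⟨K, Bas.mono 0 hK ?_⟩
  intro J _ F A hlb
  have hJ0 : (0 : ℝ) ≤ J := Nat.cast_nonneg J
  refine hlb.mono (Finset.Subset.refl _) le_rfl le_rfl le_rfl le_rfl ?_ le_rfl
    (Nat.floor_le_floor (mul_le_mul_of_nonneg_right (by linarith) hJ0))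
  exact (Nat.floor_le_floor (mul_le_mul_of_nonneg_right hw hJ0)).trans (by simp)

/-- The digits of the near path at the stage `k`. -/
noncomputable def NfS (r : ℕ) (L : ℕ → ℝ → ℝ → ℝ) (X φ q t : ℝ) (τ : ℕ → ℝ) (k l j : ℕ) : ℝ :=
  nX r (fun l x => L l x x) (t + -τ (k + 1) * q) (X * q) l - (j : ℕ) * (t + -τ (k + 1) * q) +
    (k + 1) * φ * q

section

variable {m : ℕ} {S : PCl m} {al : ℝ} {g₀ : ℝ → ℝ} {P : List (Fin m) × Fin m → ℝ → ℝ → ℝ}
    {θ : ℝ} {P₂ : ℕ → List (Fin m) × Fin m → ℝ → ℝ → ℝ} {θ₂ Eb e₂ : ℕ → ℝ}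
    {c : ℕ → Fin m} {Pt : ℝ → ℝ → ℝ} {rt : ℝ → ℝ} {h K₀ g : ℝ} {L T : ℕ → ℝ → ℝ → ℝ}
    {Sl : ℕ → ℝ} {κ : ℕ → Kg} {G : Set ℝ} {S₀ N : ℕ} {A V : ℕ → ℝ} {S₂ N' : ℕ} {V' : ℕ → ℝ}
    {K' ε q t : ℝ}

/-- **More digits of the near path**, one quantity. -/
theorem f1_tr {r : ℕ}
    (Rc : RecG S al g₀ P θ P₂ θ₂ Eb e₂ c Pt rt h K₀ g L T Sl κ G S₀ N A V S₂ N' V' K' ε q t)
    (hch : ChG S c (r + 1) (fun l x => L l x x) G) (htG : t ∈ G) {X Tn φ : ℝ} (hTn : 0 < Tn)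
    (hφ : 0 < φ) (hφ8 : φ ≤ 1 / 8) (hX : Tn + 3 ≤ X) (hK : 3 ^ r * X + 3 ≤ K') {pf : ℕ → ℝ}
    (hpf : ∀ l < r, L l t t - φ * q ≤ pf l ∧ pf l ≤ L l t t) {Nt Nv : ℕ → ℕ → ℝ}
    (h1 : ∀ l < r, ∀ j ≤ 1, Nt l j ≤ Nv l j)
    (h2 : ∀ l < r, ∀ j ≤ 1, L l t t + (aX r X l - Tn - 1) * q ≤ Nv l j + (j : ℕ) * t)
    (h3 : ∀ l < r, ∀ j ≤ 1, Nt l j + (j : ℕ) * t ≤ L l t t + (aX r X l + 1) * q)
    {U : Type} {Q' : Qt m U} {e η h' : ℝ} (he : 0 < e) (heφ : e ≤ φ * q / 8) (hh : 0 < h')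
    (H : F1 S (fun J F => ptr F J) (vg t) (fun _ F => F.T)
      (qJets m c 0 r 1 (fun _ _ => t) (fun l _ => pf l) Nt) Q' e η) :
    F1 S (fun J F => ptr F J) (vg t) (fun _ F => F.T)
      (qJets m c 0 r 1 (fun _ _ => t) (fun l _ => pf l) Nv) Q' e (η + h') := by
  have hq := Rc.q0
  have ht0 := Rc.t0
  have ht1 := Rc.t1
  have htm := Rc.tmc
  have hX0 : 0 < X := by linarith only [hX, hTn]
  have h3X : 0 < 3 ^ r * X := by positivity
  obtain ⟨ut, rt', hrt, hct⟩ := hch.ch t htG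
  have hct' := hct.take (Nat.zero_le _) (Nat.le_succ r)
  have hφq : 0 < φ * q := mul_pos hφ hq
  have hφq8 : φ * q ≤ 1 / 8 * q := mul_le_mul_of_nonneg_right hφ8 hq.le
  have hKq : (3 ^ r * X + 3) * q ≤ K' * q := mul_le_mul_of_nonneg_right hK hq.le
  have hXq : (Tn + 3) * q ≤ X * q := mul_le_mul_of_nonneg_right hX hq.le
  have hTnq : 0 < Tn * q := mul_pos hTn hq
  have hXq0 : 0 < X * q := mul_pos hX0 hq
  have ha : ∀ l, X * q ≤ aX r X l * q := fun l =>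
    mul_le_mul_of_nonneg_right (aX_ge hX0.le l) hq.le
  have ha3 : ∀ l < r, 3 * (aX r X l * q) ≤ 3 ^ r * X * q := fun l hl => by
    have := mul_le_mul_of_nonneg_right (aX_le hX0.le hl) hq.le
    linarith only [this]
  have han : ∀ l < r, ∀ l' < l, 3 * (aX r X l * q) ≤ aX r X l' * q := fun l hl l' hl' => by
    have := mul_le_mul_of_nonneg_right (aX_nest hX0.le hl' hl) hq.le
    linarith only [this]
  have hm1 : ∀ l < r, L l t t - φ * q ≤ min (pf l) (L l t t) := fun l hl =>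
    le_min (hpf l hl).1 (by linarith only [hφq])
  obtain ⟨lam, hlam⟩ : ∃ lam, lam = (3 ^ r * X + 3) * q := ⟨_, rfl⟩
  have hlam0 : 0 < lam := by rw [hlam]; positivity
  have hmin : min lam (t + lam - t) = lam := by
    rw [add_sub_cancel_left, min_self]
  have key := qjets_F1 (f := fun J F => ptr F J) (y := fun (J : ℕ) (F : Fam m J) => F.T)
    (w := t) (wv := fun _ _ => t)
    (pv := fun l _ => pf l) (Nv := Nv) (wt := fun _ _ => t) (pt := fun l _ => pf l) (Nt := Nt)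
    (lw := fun l => (aX r X l - Tn - 1) * q - φ * q) (p₀ := t + lam) (lam := lam)
    (σ := φ * q) htm hct' (fun _ _ _ _ _ => le_rfl)
    (fun _ _ _ _ _ => le_rfl) (by linarith only [hlam0]) (by
      rw [hlam]
      linarith only [hKq, ht1]) hlam0 hφq ?_ ?_ ?_ ?_ (fun l _ hl j hj => h1 l hl j hj) ?_ ?_
    ptr_id (kn_T c _ _) (half_pos hh)
  · have hex : Exs S (qJets m c 0 r 1 (fun _ _ => t) (fun l _ => pf l) Nt) :=
      exs_qjets fun i x y j' _ => exs_jet (hrt i (by omega))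
        (att_le hct.u0.le (hpf i y).2 (hct.att i x (by omega)))
    have k1 := F1.cut htm hex he (key.mono heφ le_rfl) (F1.pull htm
      (Q₁ := qJets m c 0 r 1 (fun _ _ => t) (fun l _ => pf l) Nt) (fun u => u.2)
      (fun _ _ _ _ _ _ hu => hu.2) (H.mono le_rfl le_rfl))
    exact k1.mono le_rfl (by linarith only [hh])
  · intro l _ hl
    have := ha l
    linarith only [this, hXq, hφq8, hq]
  · intro l _ hl j hj
    have := h2 l hl j hj
    show L l t t + ((aX r X l - Tn - 1) * q - φ * q) + φ * q ≤ Nv l j + (j : ℕ) * t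
    linarith only [this]
  · intro l _ hl j hj
    rw [hmin, hlam]
    have g1 := hm1 l hl
    have g2 := ha3 l hl
    have g3 := ha l
    show L l t t + ((aX r X l - Tn - 1) * q - φ * q) + φ * q ≤
      min (pf l) (L l t t) + (3 ^ r * X + 3) * q
    linarith only [g1, g2, g3, hTnq, hXq0, hφq8, hq]
  · intro l _ hl j hj l' _ hl'
    have g1 := hm1 l hl
    have g2 := han l hl l' hl'
    have g3 := ha l
    show L l t t + ((aX r X l - Tn - 1) * q - φ * q) + φ * q ≤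
      min (pf l) (L l t t) + ((aX r X l' - Tn - 1) * q - φ * q)
    linarith only [g1, g2, g3, hXq, hTnq, hφq8, hq]
  · intro l _ hl j hj
    rw [hmin, hlam, min_self]
    have g1 := (hpf l hl).1
    have g2 := ha3 l hl
    have g3 := ha l
    have g4 := h3 l hl j hj
    linarith only [g1, g2, g3, g4, hXq0, hφq8, hq]
  · intro l _ hl j hj l' _ hl'
    rw [min_self]
    have g1 := (hpf l hl).1
    have g2 := han l hl l' hl'
    have g3 := ha l
    have g4 := h3 l hl j hj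
    show Nt l j + (j : ℕ) * t + φ * q ≤ pf l + ((aX r X l' - Tn - 1) * q - φ * q)
    linarith only [g1, g2, g3, g4, hXq, hTnq, hφq8, hq]

/-- The digits of the near path over the labels of a window. -/
theorem nw_bd {r : ℕ}
    (Rc : RecG S al g₀ P θ P₂ θ₂ Eb e₂ c Pt rt h K₀ g L T Sl κ G S₀ N A V S₂ N' V' K' ε q t)
    (hrm : r < m) (hκ : ∀ l < r, κ l = .one) {X τ : ℝ} (hτ : 0 < τ) (hτK : τ ≤ K') {l j : ℕ}
    (hl : l < r) (hj : j ≤ 1) :
    L l t t + aX r X l * q - ε * q - τ * q ≤ nX r (fun l x => L l x x) (t + -τ * q) (X * q) l -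
      (j : ℕ) * (t + -τ * q) + (j : ℕ) * t ∧
    nX r (fun l x => L l x x) (t + -τ * q) (X * q) l - (j : ℕ) * (t + -τ * q) + (j : ℕ) * t =
      L l (t + -τ * q) (t + -τ * q) + τ * q + aX r X l * q - (1 - (j : ℕ)) * (τ * q) ∧
    |L l (t + -τ * q) (t + -τ * q) + τ * q - L l t t| ≤ ε * q := by
  have hq := Rc.q0
  have hτq : 0 < τ * q := mul_pos hτ hq
  have h1 := Rc.dOne (l := l) (by omega) (hκ l hl) (t + -τ * q) (by
    rw [add_sub_cancel_left, neg_mul, abs_neg, abs_of_pos hτq]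
    exact mul_le_mul_of_nonneg_right hτK hq.le)
  have e1 : L l (t + -τ * q) (t + -τ * q) - L l t t - (t + -τ * q - t) =
      L l (t + -τ * q) (t + -τ * q) + τ * q - L l t t := by ring
  rw [e1] at h1
  have h2 := abs_le.1 h1
  have e2 : nX r (fun l x => L l x x) (t + -τ * q) (X * q) l - (j : ℕ) * (t + -τ * q) +
      (j : ℕ) * t =
      L l (t + -τ * q) (t + -τ * q) + τ * q + aX r X l * q - (1 - (j : ℕ)) * (τ * q) := by
    unfold nX
    rw [aX_mul]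
    ring
  refine ⟨?_, e2, h1⟩
  rw [e2]
  have h3 : (0 : ℝ) ≤ (j : ℕ) := Nat.cast_nonneg j
  have h4 := mul_nonneg h3 hτq.le
  linarith only [h2.1, h4]

section

variable {r M : ℕ} {X Tn φ : ℝ} {τ : ℕ → ℝ}
    (Rc : RecG S al g₀ P θ P₂ θ₂ Eb e₂ c Pt rt h K₀ g L T Sl κ G S₀ N A V S₂ N' V' K' ε q t)
    (hrm : r < m) (hκ : ∀ l < r, κ l = .one) (hε : 0 < ε) (hεφ : 2 * ε ≤ φ)
    (hMφ : (M + 1) * φ ≤ 1 / 2) (hTK : Tn ≤ K')

include Rc hrm hκ hε hεφ hMφ hTK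

theorem nfs_lo {k : ℕ} (hk : k < M) (hτ : 0 < τ (k + 1)) (hτT : τ (k + 1) ≤ Tn) :
    ∀ l < r, ∀ j ≤ 1, L l t t + (aX r X l - Tn - 1) * q ≤
      NfS r L X φ q t τ k l j + (j : ℕ) * t := by
  intro l hl j hj
  have hq := Rc.q0
  have h1 := (nw_bd Rc hrm hκ (X := X) hτ (hτT.trans hTK) hl hj).1
  have h2 : τ (k + 1) * q ≤ Tn * q := mul_le_mul_of_nonneg_right hτT hq.le
  have hφ : 0 < φ := by linarith only [hε, hεφ]
  have h3 : 0 ≤ (k + 1) * φ * q := by positivity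
  have hM0 : (0 : ℝ) ≤ M := Nat.cast_nonneg M
  have h4 : ε * q ≤ 1 * q := by
    refine mul_le_mul_of_nonneg_right ?_ hq.le
    have : 1 * φ ≤ (M + 1) * φ := mul_le_mul_of_nonneg_right (by linarith only [hM0]) hφ.le
    linarith only [this, hεφ, hMφ, hε]
  unfold NfS
  linarith only [h1, h2, h3, h4]

theorem nfs_hi {k : ℕ} (hk : k < M) (hτ : 0 < τ (k + 1)) (hτT : τ (k + 1) ≤ Tn) :
    ∀ l < r, ∀ j ≤ 1, NfS r L X φ q t τ k l j + (j : ℕ) * t ≤ L l t t + (aX r X l + 1) * q := by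
  intro l hl j hj
  have hq := Rc.q0
  obtain ⟨-, e1, h1⟩ := nw_bd Rc hrm hκ (X := X) hτ (hτT.trans hTK) hl hj
  have h1 := (abs_le.1 h1).2
  have hφ : 0 < φ := by linarith only [hε, hεφ]
  have hM0 : (0 : ℝ) ≤ M := Nat.cast_nonneg M
  have hτq : 0 < τ (k + 1) * q := mul_pos hτ hq
  have h4 : ε * q ≤ 1 / 4 * q := by
    refine mul_le_mul_of_nonneg_right ?_ hq.le
    have : 1 * φ ≤ (M + 1) * φ := mul_le_mul_of_nonneg_right (by linarith only [hM0]) hφ.le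
    linarith only [this, hεφ, hMφ, hε]
  have h5 : (k + 1) * φ * q ≤ 1 / 2 * q := by
    refine mul_le_mul_of_nonneg_right ?_ hq.le
    have h6 : ((k : ℝ) + 1) ≤ M := by exact_mod_cast hk
    have : ((k : ℝ) + 1) * φ ≤ (M + 1) * φ :=
      mul_le_mul_of_nonneg_right (by linarith only [h6]) hφ.le
    linarith only [this, hMφ]
  have h6 : (j : ℝ) * (τ (k + 1) * q) ≤ 1 * (τ (k + 1) * q) :=
    mul_le_mul_of_nonneg_right (by exact_mod_cast hj) hτq.le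
  have e2 : NfS r L X φ q t τ k l j + (j : ℕ) * t = (nX r (fun l x => L l x x)
      (t + -τ (k + 1) * q) (X * q) l - (j : ℕ) * (t + -τ (k + 1) * q) + (j : ℕ) * t) +
      (k + 1) * φ * q := by
    unfold NfS
    ring
  rw [e2, e1]
  linarith only [h1, h4, h5, h6, hq]

theorem nfs_mono {k : ℕ} (hτ : 0 < τ (k + 1 + 1)) (hττ : τ (k + 1 + 1) ≤ τ (k + 1))
    (hτT : τ (k + 1) ≤ Tn) :
    ∀ l < r, ∀ j ≤ 1, NfS r L X φ q t τ k l j ≤ NfS r L X φ q t τ (k + 1) l j := by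
  intro l hl j hj
  have hq := Rc.q0
  obtain ⟨-, e1, h1⟩ := nw_bd Rc hrm hκ (X := X) (hτ.trans_le hττ) (hτT.trans hTK) hl hj
  obtain ⟨-, e2, h2⟩ := nw_bd Rc hrm hκ (X := X) hτ ((hττ.trans hτT).trans hTK) hl hj
  have h1 := (abs_le.1 h1).2
  have h2 := (abs_le.1 h2).1
  have hεq : 2 * ε * q ≤ φ * q := mul_le_mul_of_nonneg_right hεφ hq.le
  have h6 : (0 : ℝ) ≤ (1 - (j : ℕ)) * ((τ (k + 1) - τ (k + 1 + 1)) * q) := by
    have h7 : (j : ℝ) ≤ 1 := by exact_mod_cast hj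
    exact mul_nonneg (by linarith only [h7]) (mul_nonneg (by linarith only [hττ]) hq.le)
  have e3 : ∀ k : ℕ, NfS r L X φ q t τ k l j + (j : ℕ) * t = (nX r (fun l x => L l x x)
      (t + -τ (k + 1) * q) (X * q) l - (j : ℕ) * (t + -τ (k + 1) * q) + (j : ℕ) * t) +
      (k + 1) * φ * q := fun k => by
    unfold NfS
    ring
  have e4 := e3 k
  have e5 := e3 (k + 1)
  rw [e1] at e4
  rw [e2] at e5
  push_cast at e5
  have e6 : ((k : ℝ) + 1 + 1) * φ * q = (k + 1) * φ * q + φ * q := by ring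
  rw [e6] at e5
  linarith only [e4, e5, h1, h2, hεq, h6]

theorem nfs_kf {k : ℕ} (hk : k < M) (hτ : 0 < τ (k + 1)) (hτT : τ (k + 1) ≤ Tn) {kf : ℝ}
    (hX : 0 < X) (hkf : 3 ^ r * X + 1 ≤ kf) {Nf : ℕ → ℕ → ℝ}
    (hNf : ∀ l < r, ∀ j ≤ 1, Nf l j = L l t t + kf * q - (j : ℕ) * t) :
    ∀ l < r, ∀ j ≤ 1, NfS r L X φ q t τ k l j ≤ Nf l j := by
  intro l hl j hj
  have hq := Rc.q0
  have h1 := nfs_hi Rc hrm hκ hε hεφ hMφ hTK (X := X) (τ := τ) hk hτ hτT l hl j hj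
  have h2 := aX_le hX.le hl
  have h3 := aX_ge (r := r) hX.le l
  have h4 : (aX r X l + 1) * q ≤ kf * q :=
    mul_le_mul_of_nonneg_right (by linarith only [h2, h3, hX, hkf]) hq.le
  rw [hNf l hl j hj]
  linarith only [h1, h4]

theorem nfs_nfP {k : ℕ} (hτ : 0 < τ (k + 1)) (hτT : τ (k + 1) ≤ Tn) :
    NfP r L X q t (τ (k + 1)) (NfS r L X φ q t τ k) ∧
    NfP r L X q t Tn (NfS r L X φ q t τ k) := by
  have hq := Rc.q0
  have hφ : 0 < φ := by linarith only [hε, hεφ]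
  have hφq : 0 < φ * q := mul_pos hφ hq
  have hkφ : φ * q ≤ (k + 1) * φ * q := by
    have h1 : (0 : ℝ) ≤ k := Nat.cast_nonneg k
    have := mul_nonneg h1 hφq.le
    linarith only [this]
  constructor
  · intro l hl j hj
    unfold NfS
    linarith only [hkφ, hφq]
  · intro l hl j hj
    obtain ⟨-, e1, h1⟩ := nw_bd Rc hrm hκ (X := X) hτ (hτT.trans hTK) hl hj
    obtain ⟨-, e2, h2⟩ := nw_bd Rc hrm hκ (X := X) (hτ.trans_le hτT) hTK hl hj
    have h1 := (abs_le.1 h1).1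
    have h2 := (abs_le.1 h2).2
    have hεq : 2 * ε * q ≤ φ * q := mul_le_mul_of_nonneg_right hεφ hq.le
    have h6 : (0 : ℝ) ≤ (1 - (j : ℕ)) * ((Tn - τ (k + 1)) * q) := by
      have h7 : (j : ℝ) ≤ 1 := by exact_mod_cast hj
      exact mul_nonneg (by linarith only [h7]) (mul_nonneg (by linarith only [hτT]) hq.le)
    have e3 : NfS r L X φ q t τ k l j + (j : ℕ) * t = (nX r (fun l x => L l x x)
        (t + -τ (k + 1) * q) (X * q) l - (j : ℕ) * (t + -τ (k + 1) * q) + (j : ℕ) * t) +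
        (k + 1) * φ * q := by
      unfold NfS
      ring
    rw [e1] at e3
    linarith only [e3, e2, h1, h2, hεq, h6, hkφ]

omit hMφ in
theorem kf_nfP (hTn : 0 < Tn) {kf : ℝ} (hX : 0 < X) (hε1 : ε ≤ 1) (hkf : 3 ^ r * X + 1 ≤ kf)
    {Nf : ℕ → ℕ → ℝ}
    (hNf : ∀ l < r, ∀ j ≤ 1, Nf l j = L l t t + kf * q - (j : ℕ) * t) :
    NfP r L X q t Tn Nf ∧
    ∀ l < r, ∀ j ≤ 1, L l t t + (aX r X l - Tn - 1) * q ≤ Nf l j + (j : ℕ) * t := by
  have hq := Rc.q0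
  have hTq : 0 < Tn * q := mul_pos hTn hq
  constructor
  · intro l hl j hj
    obtain ⟨-, e2, h2⟩ := nw_bd Rc hrm hκ (X := X) hTn hTK hl hj
    have h2 := (abs_le.1 h2).2
    have h3 := aX_le hX.le hl
    have h4 := aX_ge (r := r) hX.le l
    have h5 : (aX r X l + 1) * q ≤ kf * q :=
      mul_le_mul_of_nonneg_right (by linarith only [h3, h4, hX, hkf]) hq.le
    have h6 : ε * q ≤ 1 * q := mul_le_mul_of_nonneg_right hε1 hq.le
    have h7 : (j : ℝ) * (Tn * q) ≤ 1 * (Tn * q) :=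
      mul_le_mul_of_nonneg_right (by exact_mod_cast hj) hTq.le
    rw [hNf l hl j hj]
    linarith only [e2, h2, h5, h6, h7]
  · intro l hl j hj
    have h3 := aX_le hX.le hl
    have h4 := aX_ge (r := r) hX.le l
    have h5 : (aX r X l - Tn - 1) * q ≤ kf * q :=
      mul_le_mul_of_nonneg_right (by linarith only [h3, h4, hX, hkf, hTn]) hq.le
    rw [hNf l hl j hj]
    linarith only [h5]

end

/-- **More digits of the near path**, the states. -/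
theorem st_tr {r K : ℕ}
    (Rc : RecG S al g₀ P θ P₂ θ₂ Eb e₂ c Pt rt h K₀ g L T Sl κ G S₀ N A V S₂ N' V' K' ε q t)
    (hch : ChG S c (r + 1) (fun l x => L l x x) G) (htG : t ∈ G) {X Tn φ : ℝ} (hTn : 0 < Tn)
    (hφ : 0 < φ) (hφ8 : φ ≤ 1 / 8) (hX : Tn + 3 ≤ X) (hK : 3 ^ r * X + 3 ≤ K') {pf : ℕ → ℝ}
    (hpf : ∀ l < r, L l t t - φ * q ≤ pf l ∧ pf l ≤ L l t t) {Nt Nv : ℕ → ℕ → ℝ}
    (h1 : ∀ l < r, ∀ j ≤ 1, Nt l j ≤ Nv l j)
    (h2 : ∀ l < r, ∀ j ≤ 1, L l t t + (aX r X l - Tn - 1) * q ≤ Nv l j + (j : ℕ) * t)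
    (h3 : ∀ l < r, ∀ j ≤ 1, Nt l j + (j : ℕ) * t ≤ L l t t + (aX r X l + 1) * q)
    {e' x y τ η η' : ℝ} (he : 0 < e') (heφ : e' ≤ φ / 8) (hη : η < η')
    (HU : StU S c r K L q t pf Nt (e' * q) x τ η) (HN : StN S c r K L q t Tn pf Nt (e' * q) y τ η) :
    StU S c r K L q t pf Nv (e' * q) x τ η' ∧ StN S c r K L q t Tn pf Nv (e' * q) y τ η' := by
  have hq := Rc.q0
  have he1 : e' * q ≤ φ * q / 8 := by
    have := mul_le_mul_of_nonneg_right heφ hq.le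
    linarith only [this]
  have hh : 0 < (η' - η) * q := mul_pos (by linarith only [hη]) hq
  exact ⟨fun j a b c' => (f1_tr Rc hch htG hTn hφ hφ8 hX hK hpf h1 h2 h3 (mul_pos he hq) he1 hh
      (HU j a b c')).mono le_rfl (by linarith only []),
    fun j a b c' => (f1_tr Rc hch htG hTn hφ hφ8 hX hK hpf h1 h2 h3 (mul_pos he hq) he1 hh
      (HN j a b c')).mono le_rfl (by linarith only [])⟩

end

end Pool.PN18
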