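import Pool.Agent.H76.D2.Pair

/-!
# One step for a pair of curved paths

`aj_all`: `all_jets` over the path of another coordinate, all jets. `nstep`: the jets of all orders of
two families `R`, `R₂` are known to `2 ^ (e₁ j)`, `2 ^ (e₂ j)`; window shorter by `y`, units `2 ^ s`,
`2 ^ s₂`: the jets of `R` are known to `2 ^ (s + j y)`.
-/

set_option autoImplicit false

namespace Pool.PN18

open Finset Real MvPolynomial
open Pool.Agent.H49.Ent Pool.Agent.H32.Dense Pool.STK Pool.KA Pool.KSAT Pool.K2S Pool.PB Pool.GEN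
open Pool.S6C Pool.LA91 Pool.OWN68 Pool.AJ18 Pool.PAIR76

variable {m J : ℕ}

/-- **`all_jets` over the path of another coordinate**, all jets. -/
theorem aj_all (D : ℕ) (hD : 1 ≤ D) {h : ℝ} (hh : 0 < h) (hh1 : h ≤ 1) {ε : ℝ} (hε : 0 < ε) :
    ∃ δ : ℝ, 0 < δ ∧ ∃ c₀ : ℝ, 0 < c₀ ∧ ∃ N₀ : ℕ, 0 < N₀ ∧
    ∀ {w μ : ℝ} (_ : 0 ≤ w) (_ : 0 < μ) (_ : w + μ ≤ 1),
    ∃ J₀ : ℕ, ∀ J ≥ J₀, ∀ {m : ℕ} (F : Fam m J) (A : F.Ω → Prop) (_ : 0 < Pe F.p A)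
      (R R₂ : LnT F → Polynomial ℝ) {𝒞 Γ : Type} (c : LnT F → 𝒞) (Y : F.Ω → Γ),
    AjH F A R c Y D ⌊w * J⌋₊ μ δ → (∀ x, (R₂ x).natDegree ≤ D) →
    (∀ j ≤ D, CH (Pool.Agent.H49.Ent.cond F.p A True)
      (fun ω => ⌊pj F R₂ ⌊w * J⌋₊ j ω⌋) Y ≤ δ * μ * J) →
    NF1 F A R R₂ c ⌊w * J⌋₊ μ h (δ * μ) c₀ N₀ →
    ∀ j ≤ D, CH (Pool.Agent.H49.Ent.cond F.p A True)
      (fun ω => ⌊pj F R ⌊w * J⌋₊ j ω / 2 ^ (ε * μ * J)⌋) Y ≤ ε * μ * J := by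
  obtain ⟨δ₁, hδ₁, c₀, hc₀, N₀, hN₀, H⟩ := all_jets D hD hh hh1 hε
  obtain ⟨C₁, hC₁, hcf⟩ := cfl_few D
  obtain ⟨C₂, hC₂, hvl⟩ := val_few D
  have hD0 : (0 : ℝ) ≤ D := Nat.cast_nonneg D
  obtain ⟨δ, hδ⟩ : ∃ δ : ℝ, δ = δ₁ / (D + 3) := ⟨_, rfl⟩
  have hδ0 : 0 < δ := by
    rw [hδ]
    positivity
  have hδa : (D + 3) * δ = δ₁ := by
    rw [hδ]
    field_simp
  have hδb : δ ≤ δ₁ := by nlinarith
  refine ⟨δ, hδ0, c₀, hc₀, N₀, hN₀, ?_⟩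
  intro w μ hw hμ hwμ
  obtain ⟨J₁, H⟩ := H (w := w) (μ := μ) hw hμ hwμ
  obtain ⟨J₂, hJ₂⟩ := exists_nat_ge ((C₁ + C₂) / (δ * μ))
  refine ⟨max J₁ J₂, ?_⟩
  intro J hJ m F A hA R R₂ 𝒞 Γ c Y HA hdeg hjet hnf
  have hJ0 : (0 : ℝ) ≤ J := Nat.cast_nonneg J
  have k1 : C₁ + C₂ ≤ δ * μ * J := by
    have h1 : (C₁ + C₂) / (δ * μ) ≤ J := hJ₂.trans (by exact_mod_cast (le_max_right _ _).trans hJ)
    rw [div_le_iff₀ (by positivity)] at h1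
    linarith
  have hq'l : IsLaw (Pool.Agent.H49.Ent.cond F.p A True) := isLaw_cond F.isLaw hA
  have h0 := hq'l.nonneg
  obtain ⟨c₂, hc₂⟩ : ∃ c₂ : LnT F → 𝒞 × (Fin (D + 1) → ℤ), c₂ = fun x => (c x, cfl F D R₂ x) :=
    ⟨_, rfl⟩
  have hkey : ∀ ω ω', 0 < Pool.Agent.H49.Ent.cond F.p A True ω →
      0 < Pool.Agent.H49.Ent.cond F.p A True ω' → Y ω = Y ω' → F.T ω = F.T ω' :=
    fun ω ω' hω hω' e => (HA.key ω ω' (of_cond_pos hω) (of_cond_pos hω') e).1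
  have g1 : 0 ≤ δ * μ * J := by positivity
  have key := H J ((le_max_left _ _).trans hJ) F A hA R c₂ Y
    ⟨HA.deg, by
      have h1 : δ * μ * J ≤ δ₁ * μ * J := by gcongr
      linarith [HA.tim], HA.key, by
      rw [hc₂]
      have h1 := CH_subadd h0 (fun ω => c (slam F ⌊w * J⌋₊ ω))
        (fun ω => cfl F D R₂ (slam F ⌊w * J⌋₊ ω)) Y
      have h2 := hcf F hq'l R₂ ⌊w * J⌋₊ Y (δ * μ * J) hdeg hkey hjet
      have h3 := HA.ctx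
      have e1 : δ₁ * μ * J = (D + 3) * (δ * μ * J) := by
        rw [← hδa]
        ring
      rw [e1]
      refine h1.trans ?_
      linarith, HA.hgt.trans (by gcongr), fun j hj h0' => (HA.nat j hj h0').trans (by gcongr)⟩ ?_
  · intro j hj
    have h1 := CH_mono_left (W := Y) (X' := fun ω =>
      (fun j : Fin (D + 1) => ⌊pj F R ⌊w * J⌋₊ j ω / 2 ^ (ε * μ * J)⌋,
        fun j : Fin (D + 1) => ⌊(R (slam F ⌊w * J⌋₊ ω)).coeff j / 2 ^ (ε * μ * J)⌋))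
      (X := fun ω => ⌊pj F R ⌊w * J⌋₊ j ω / 2 ^ (ε * μ * J)⌋) h0 (by
        intro ω ω' _ _ e
        simp only [Prod.mk.injEq] at e
        exact congrFun e.1.1 (⟨j, by omega⟩ : Fin (D + 1)))
    exact h1.trans key
  · intro B hB hm i j hij hj
    have hPB : 0 < Pe F.p B := lt_of_lt_of_le (by positivity) hm
    have hBl : IsLaw (Pool.Agent.H49.Ent.cond F.p B True) := isLaw_cond F.isLaw hPB
    have hB0 := hBl.nonneg
    have h1 := hnf B hB hm i j hij hj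
    obtain ⟨X, hX⟩ : ∃ X : F.Ω → ℤ, X = fun ω =>
      ⌊pj F R ⌊w * J⌋₊ 0 ω / 2 ^ ((μ * i / N₀) * J)⌋ := ⟨_, rfl⟩
    obtain ⟨X', hX'⟩ : ∃ X' : F.Ω → ℤ, X' = fun ω =>
      ⌊pj F R ⌊w * J⌋₊ 0 ω / 2 ^ ((μ * j / N₀) * J)⌋ := ⟨_, rfl⟩
    have e1 := CH_le_add hB0 X (fun ω => ⌊pj F R₂ ⌊w * J⌋₊ 0 ω / 1⌋)
      (fun ω => (X' ω, (c₂ (slam F ⌊w * J⌋₊ ω), F.W ω)))
    have e2 := hvl F hBl R₂ ⌊w * J⌋₊ (fun ω => (X' ω, (c₂ (slam F ⌊w * J⌋₊ ω), F.W ω))) 1 le_rfl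
      hdeg (by
        intro ω ω' _ _ e
        simp only [Prod.mk.injEq] at e
        obtain ⟨-, e2, e3⟩ := e
        rw [hc₂] at e2
        exact ⟨(Prod.ext_iff.mp e3).1, (Prod.ext_iff.mp e2).2⟩)
    have e3 : CH (Pool.Agent.H49.Ent.cond F.p B True) X
        (fun ω => (⌊pj F R₂ ⌊w * J⌋₊ 0 ω / 1⌋, (X' ω, (c₂ (slam F ⌊w * J⌋₊ ω), F.W ω)))) ≤
        CH (Pool.Agent.H49.Ent.cond F.p B True) X
        (fun ω => (X' ω, (⌊pj F R₂ ⌊w * J⌋₊ 0 ω / 1⌋, (c (slam F ⌊w * J⌋₊ ω), F.W ω)))) := by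
      refine CH_mono_cond hB0 fun ω ω' _ _ e => ?_
      simp only [Prod.mk.injEq] at e ⊢
      obtain ⟨e1, e2, e3, e4⟩ := e
      rw [hc₂] at e3
      exact ⟨e2, e1, (Prod.ext_iff.mp e3).1, e4⟩
    have h1' : CH (Pool.Agent.H49.Ent.cond F.p B True) X
        (fun ω => (X' ω, (⌊pj F R₂ ⌊w * J⌋₊ 0 ω / 1⌋, (c (slam F ⌊w * J⌋₊ ω), F.W ω)))) ≤
        ((1 - h) * (μ * j / N₀ - μ * i / N₀) * Real.log 2 + δ * μ) * J := by
      rw [hX, hX']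
      exact h1
    suffices hs : CH (Pool.Agent.H49.Ent.cond F.p B True) X
        (fun ω => (X' ω, (c₂ (slam F ⌊w * J⌋₊ ω), F.W ω))) ≤
        ((1 - h) * (μ * j / N₀ - μ * i / N₀) * Real.log 2 + δ₁ * μ) * J by
      rw [hX, hX'] at hs
      exact hs
    have e4 : ((1 - h) * (μ * j / N₀ - μ * i / N₀) * Real.log 2 + δ₁ * μ) * J =
        ((1 - h) * (μ * j / N₀ - μ * i / N₀) * Real.log 2 + δ * μ) * J + (D + 2) * (δ * μ * J) := by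
      rw [← hδa]
      ring
    rw [e4]
    have h5 : 0 ≤ (D : ℝ) * (δ * μ * J) := by positivity
    linarith

/-- Change of units, one function, with a constant. -/
theorem chgB {Ω Γ : Type} [Fintype Ω] {q : Ω → ℝ} (hq : IsLaw q) (f g : Ω → ℝ) (Y : Ω → Γ)
    {μ lam : ℝ} {B : ℕ} (hμ : 0 < μ) (hl : 0 ≤ lam) (hB : lam * μ ≤ B)
    (hg : ∀ ω, g ω = lam * f ω) :
    CH q (fun ω => ⌊g ω⌋) Y ≤ CH q (fun ω => ⌊f ω / μ⌋) Y + Real.log (2 * (B + 1) + 1) :=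
  conv hq f g Y hμ hB hl (fun ω ω' _ _ _ => by
    rw [hg, hg, ← mul_sub, abs_mul, abs_of_nonneg hl])

/-- **One step**: window shorter by `y`, units `2 ^ s`, `2 ^ s₂`, block `μ₁`, jets of all orders. -/
theorem nstep (D : ℕ) (hD : 1 ≤ D) {a a₂ : ℝ} (ha : 0 < a) (ha₂ : 0 < a₂) {h : ℝ} (hh : 0 < h)
    (hha : h ≤ a) {ε : ℝ} (hε : 0 < ε) :
    ∃ δ : ℝ, 0 < δ ∧ ∃ c₀ : ℝ, 0 < c₀ ∧
    ∀ {w y s s₂ μ μ₁ : ℝ} {e₁ e₂ : ℕ → ℝ} (_ : 0 ≤ w) (_ : 0 ≤ y) (_ : 0 ≤ s) (_ : 0 ≤ s₂)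
      (_ : 0 < μ₁) (_ : w + y + μ₁ ≤ 1) (_ : s + μ₁ ≤ a * μ) (_ : a * s₂ ≤ a₂ * s)
      (_ : ∀ j, 1 ≤ j → j ≤ D → e₁ j ≤ s + j * y + μ₁)
      (_ : ∀ j, 1 ≤ j → j ≤ D → e₂ j ≤ s₂ + j * y),
    ∃ J₀ : ℕ, ∀ J ≥ J₀, ∀ {m : ℕ} (F : Fam m J) (A : F.Ω → Prop) (_ : 0 < Pe F.p A)
      (R R₂ : LnT F → Polynomial ℝ) {𝒞 Γ : Type} (c : LnT F → 𝒞) (Y : F.Ω → Γ),
    (∀ x, (R x).natDegree ≤ D) → (∀ x, (R₂ x).natDegree ≤ D) →
    ((J : ℝ) * Real.log 2 - δ * μ₁ * J ≤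
      CH (Pool.Agent.H49.Ent.cond F.p A True) F.T (fun ω => (F.l ω, F.Z ω))) →
    (∀ ω ω', A ω → A ω' → Y ω = Y ω' → F.T ω = F.T ω' ∧ F.Z ω = F.Z ω') →
    CH (Pool.Agent.H49.Ent.cond F.p A True) (fun ω => c (slam F ⌊w * J⌋₊ ω)) Y ≤ δ * μ₁ * J →
    CH (Pool.Agent.H49.Ent.cond F.p A True)
      (fun ω => ⌊pj F R ⌊w * J⌋₊ 0 ω⌋) Y ≤ δ * μ₁ * J →
    CH (Pool.Agent.H49.Ent.cond F.p A True)
      (fun ω => ⌊pj F R₂ ⌊w * J⌋₊ 0 ω⌋) Y ≤ δ * μ₁ * J →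
    (∀ j, 1 ≤ j → j ≤ D → CH (Pool.Agent.H49.Ent.cond F.p A True)
      (fun ω => ⌊pj F R ⌊w * J⌋₊ j ω / 2 ^ (e₁ j * J)⌋) Y ≤ δ * μ₁ * J) →
    (∀ j, 1 ≤ j → j ≤ D → CH (Pool.Agent.H49.Ent.cond F.p A True)
      (fun ω => ⌊pj F R₂ ⌊w * J⌋₊ j ω / 2 ^ (e₂ j * J)⌋) Y ≤ δ * μ₁ * J) →
    NFo F A R R₂ c ⌊w * J⌋₊ a a₂ μ h (δ * μ₁) c₀ →
    ∀ j, 1 ≤ j → j ≤ D → CH (Pool.Agent.H49.Ent.cond F.p A True)
      (fun ω => ⌊pj F R ⌊w * J⌋₊ j ω / 2 ^ ((s + j * y + ε * μ₁) * J)⌋) Y ≤ ε * μ₁ * J := by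
  obtain ⟨δ₁, hδ₁, c₀, hc₀, N₀, hN₀, H⟩ := aj_all D hD (h := h / a) (by positivity)
    (by rw [div_le_one ha]; exact hha) (half_pos hε)
  obtain ⟨δ, hδ⟩ : ∃ δ : ℝ, δ = min (δ₁ / 4) (ε / 4) := ⟨_, rfl⟩
  have hδ0 : 0 < δ := by
    rw [hδ]
    exact lt_min (by positivity) (by positivity)
  have hδ1 : 4 * δ ≤ δ₁ := by
    have : δ ≤ δ₁ / 4 := by
      rw [hδ]
      exact min_le_left _ _
    linarith
  have hδ2 : δ ≤ ε / 4 := by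
    rw [hδ]
    exact min_le_right _ _
  refine ⟨δ, hδ0, c₀, hc₀, ?_⟩
  intro w y s s₂ μ μ₁ e₁ e₂ hw hy hs hs₂ hμ₁ hwμ hsμ hss he₁ he₂
  obtain ⟨J₁, H⟩ := H (w := w + y) (μ := μ₁) (by positivity) hμ₁ hwμ
  obtain ⟨cB, hcB⟩ : ∃ cB : ℝ, cB = Real.log (2 * (((2 ^ D : ℕ) : ℝ) + 1) + 1) := ⟨_, rfl⟩
  have hB1 : (1 : ℝ) ≤ ((2 ^ D : ℕ) : ℝ) := by
    push_cast
    exact one_le_pow₀ (by norm_num)
  have l5 : Real.log 5 ≤ cB := by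
    rw [hcB]
    exact Real.log_le_log (by norm_num) (by linarith)
  have lB : 0 ≤ cB := (Real.log_nonneg (by norm_num)).trans l5
  obtain ⟨J₂, hJ₂⟩ := exists_nat_ge (cB / (δ * μ₁))
  refine ⟨max J₁ J₂, ?_⟩
  intro J hJ m F A hA R R₂ 𝒞 Γ c Y hdeg hdeg₂ htim hkey hctx hval hval₂ hjet hjet₂ hnf
  have hJ0 : (0 : ℝ) ≤ J := Nat.cast_nonneg J
  have kB : cB ≤ δ * μ₁ * J := by
    have h1 : cB / (δ * μ₁) ≤ J :=
      hJ₂.trans (by exact_mod_cast (le_max_right _ _).trans hJ)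
    rw [div_le_iff₀ (by positivity)] at h1
    linarith
  have hq'l : IsLaw (Pool.Agent.H49.Ent.cond F.p A True) := isLaw_cond F.isLaw hA
  have g0 : 0 ≤ δ * μ₁ * J := by positivity
  have g4 : 4 * (δ * μ₁ * J) ≤ δ₁ * μ₁ * J := by
    have h2 := mul_le_mul_of_nonneg_right hδ1 (by positivity : 0 ≤ μ₁ * J)
    have e1 : 4 * δ * (μ₁ * J) = 4 * (δ * μ₁ * J) := by ring
    have e2 : δ₁ * (μ₁ * J) = δ₁ * μ₁ * J := by ring
    rw [e1, e2] at h2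
    exact h2
  -- the windows
  have hw1 : ((⌊w * J⌋₊ : ℕ) : ℝ) ≤ w * J := Nat.floor_le (by positivity)
  have hw2 : w * J < (⌊w * J⌋₊ : ℕ) + 1 := Nat.lt_floor_add_one _
  have hw3 : ((⌊(w + y) * J⌋₊ : ℕ) : ℝ) ≤ (w + y) * J := Nat.floor_le (by positivity)
  have hw4 : (w + y) * J < (⌊(w + y) * J⌋₊ : ℕ) + 1 := Nat.lt_floor_add_one _
  have hle : ⌊w * J⌋₊ ≤ ⌊(w + y) * J⌋₊ := Nat.floor_le_floor (by
    have : 0 ≤ y * J := by positivity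
    nlinarith)
  specialize H J ((le_max_left _ _).trans hJ) F A hA
  obtain ⟨W, hW⟩ : ∃ W : ℕ, W = ⌊w * J⌋₊ := ⟨_, rfl⟩
  rw [← hW] at hw1 hw2 hle hctx hval hval₂ hjet hjet₂ hnf ⊢
  obtain ⟨y', hy'⟩ : ∃ y' : ℕ, ⌊(w + y) * J⌋₊ = W + y' :=
    ⟨⌊(w + y) * J⌋₊ - W, by omega⟩
  have hWJ : W + y' ≤ J := by
    have h1 : ((W + y' : ℕ) : ℝ) ≤ J := by
      rw [← hy']
      have h2 : w + y ≤ 1 := by linarith
      have : (w + y) * J ≤ 1 * J := mul_le_mul_of_nonneg_right h2 hJ0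
      linarith
    exact_mod_cast h1
  rw [hy'] at hw3 hw4 H
  push_cast at hw3 hw4
  have y1 : y * J ≤ y' + 1 := by nlinarith
  have y2 : (y' : ℝ) ≤ y * J + 1 := by nlinarith
  have rp : ∀ x : ℝ, (0 : ℝ) < 2 ^ x := fun x => Real.rpow_pos_of_pos (by norm_num) x
  have hfac : ∀ j : ℕ, (1 / (2 : ℝ) ^ y') ^ j = 2 ^ (-(j * (y' : ℝ))) := by
    intro j
    rw [one_div, inv_pow, ← pow_mul, Real.rpow_neg (by norm_num), mul_comm y' j,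
      ← Real.rpow_natCast]
    push_cast
    ring_nf
  have leD : ∀ (x : ℝ), x ≤ D → (2 : ℝ) ^ x ≤ ((2 ^ D : ℕ) : ℝ) := fun x hx => by
    push_cast
    calc (2 : ℝ) ^ x ≤ 2 ^ (D : ℝ) := Real.rpow_le_rpow_of_exponent_le (by norm_num) hx
      _ = 2 ^ D := Real.rpow_natCast 2 D
  -- the jets on the short window
  have short : ∀ (R : LnT F → Polynomial ℝ) (x x' e : ℝ) (j : ℕ), j ≤ D → e ≤ x + j * y + x' →
      CH (Pool.Agent.H49.Ent.cond F.p A True)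
        (fun ω => ⌊pj F R W j ω / 2 ^ (e * J)⌋) Y ≤ δ * μ₁ * J →
      CH (Pool.Agent.H49.Ent.cond F.p A True)
      (fun ω => ⌊pj F (rcp F R y' (2 ^ (-(x * J)))) (W + y') j ω / 2 ^ (x' * J)⌋) Y ≤
        2 * (δ * μ₁ * J) := by
    intro R x x' e j hj he h1
    have hjD : (j : ℝ) ≤ D := by exact_mod_cast hj
    have hj0 : (0 : ℝ) ≤ j := Nat.cast_nonneg j
    have h2 := chgB hq'l (fun ω => pj F R W j ω)
      (fun ω => pj F (rcp F R y' (2 ^ (-(x * J)))) (W + y') j ω / 2 ^ (x' * J)) Y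
      (μ := 2 ^ (e * J)) (lam := 2 ^ (-(x * J)) * 2 ^ (-(j * (y' : ℝ))) * 2 ^ (-(x' * J)))
      (B := 2 ^ D) (rp _) (by positivity) (by
        rw [← Real.rpow_add (by norm_num), ← Real.rpow_add (by norm_num),
          ← Real.rpow_add (by norm_num)]
        refine leD _ ?_
        have h7 := mul_le_mul_of_nonneg_right he hJ0
        have h8 := mul_le_mul_of_nonneg_left y1 hj0
        nlinarith)
      (fun ω => by
        rw [rcp_jet F R hWJ, hfac, div_eq_mul_inv, Real.rpow_neg (by norm_num) (x' * J)]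
        ring)
    rw [← hcB] at h2
    linarith
  have zero' : ∀ (R : LnT F → Polynomial ℝ) (j : ℕ), CH (Pool.Agent.H49.Ent.cond F.p A True)
      (fun ω => ⌊pj F R (W + y') j ω / 2 ^ ((0 : ℝ) * J)⌋) Y =
      CH (Pool.Agent.H49.Ent.cond F.p A True) (fun ω => ⌊pj F R (W + y') j ω⌋) Y := by
    intro R j
    simp only [zero_mul, Real.rpow_zero, div_one]
  have zeroW : ∀ (R : LnT F → Polynomial ℝ) (j : ℕ), CH (Pool.Agent.H49.Ent.cond F.p A True)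
      (fun ω => ⌊pj F R W j ω / 2 ^ ((0 : ℝ) * J)⌋) Y =
      CH (Pool.Agent.H49.Ent.cond F.p A True) (fun ω => ⌊pj F R W j ω⌋) Y := by
    intro R j
    simp only [zero_mul, Real.rpow_zero, div_one]
  have key := H (rcp F R y' (2 ^ (-(s * J)))) (rcp F R₂ y' (2 ^ (-(s₂ * J))))
    (fun x => c (lng F y' x)) Y
    ⟨natDegree_rcp F hdeg _ _, by linarith, hkey, by
      simp only [lng_slam F hWJ]
      linarith, by
      have h1 := short R s 0 0 0 (Nat.zero_le _) (by push_cast; linarith)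
        (by rw [zeroW]; exact hval)
      rw [zero'] at h1
      linarith, by
      intro j hj h0
      have h2 := short R s μ₁ (e₁ j) j hj (he₁ j (Nat.one_le_iff_ne_zero.2 h0) hj)
        (hjet j (Nat.one_le_iff_ne_zero.2 h0) hj)
      linarith⟩ (natDegree_rcp F hdeg₂ _ _) (by
      intro j hj
      by_cases h0 : j = 0
      · subst h0
        have h1 := short R₂ s₂ 0 0 0 (Nat.zero_le _) (by push_cast; linarith)
          (by rw [zeroW]; exact hval₂)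
        rw [zero'] at h1
        linarith
      · have h2 := short R₂ s₂ 0 (e₂ j) j hj
          (by linarith [he₂ j (Nat.one_le_iff_ne_zero.2 h0) hj])
          (hjet₂ j (Nat.one_le_iff_ne_zero.2 h0) hj)
        rw [zero'] at h2
        linarith)
    (nf1_of hA hWJ ha ha₂ hc₀ hs hμ₁ hN₀ hsμ hss hnf (by linarith))
  -- back to the long window
  intro j hj1 hj
  have hjD : (j : ℝ) ≤ D := by exact_mod_cast hj
  have hj0 : (0 : ℝ) ≤ j := Nat.cast_nonneg j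
  have h2 := chgB hq'l (fun ω => pj F (rcp F R y' (2 ^ (-(s * J)))) (W + y') j ω)
    (fun ω => pj F R W j ω / 2 ^ ((s + j * y + ε * μ₁) * J)) Y (μ := 2 ^ (ε / 2 * μ₁ * J))
    (lam := 2 ^ (s * J) * 2 ^ (j * (y' : ℝ)) * 2 ^ (-((s + j * y + ε * μ₁) * J)))
    (B := 2 ^ D) (rp _) (by positivity) (by
      rw [← Real.rpow_add (by norm_num), ← Real.rpow_add (by norm_num),
        ← Real.rpow_add (by norm_num)]
      refine leD _ ?_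
      have : 0 ≤ ε * μ₁ * J := by positivity
      have h8 := mul_le_mul_of_nonneg_left y2 hj0
      nlinarith)
    (fun ω => by
      rw [rcp_jet F R hWJ, hfac, Real.rpow_neg (by norm_num) (s * J),
        Real.rpow_neg (by norm_num) (j * (y' : ℝ)), Real.rpow_neg (by norm_num), div_eq_mul_inv]
      have p1 := (rp (s * J)).ne'
      have p2 := (rp (j * (y' : ℝ))).ne'
      field_simp)
  have e9 : ε * μ₁ * J = ε / 2 * μ₁ * J + ε / 4 * μ₁ * J + ε / 4 * μ₁ * J := by ring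
  have h8 : δ * μ₁ * J ≤ ε / 4 * μ₁ * J := by gcongr
  have h9 := key j hj
  have h10 : 0 ≤ ε / 4 * μ₁ * J := by positivity
  rw [← hcB] at h2
  rw [e9]
  linarith

end Pool.PN18
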